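import Pool.Agent.Lib.MP_39dc45_gt.SP.Defs

/-!
# MP_39dc45_gt: algebra (based complexes, torsion over the field with 31 elements)

Row convention: `D i j` is the coefficient of the cell `j` in the differential of the cell `i`.
-/

open Matrix

noncomputable section

namespace Pool.Agent.Lib.MP_39dc45_gt.SP

/-- The field with 31 elements. -/
abbrev F31 : Type := ZMod 31

instance : Fact (Nat.Prime 31) := ⟨by norm_num⟩

/-! ## Matrices -/

section mat
variable {J : Type} {R : Type} [Ring R]

/-- `D` is the differential of a based complex. -/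
structure Cx [Fintype J] (deg : J → ℕ) (D : Matrix J J R) : Prop where
  deg_D : ∀ i j, D i j ≠ 0 → deg i = deg j + 1
  sq : D * D = 0

/-- `S` is a contraction of `D`. -/
structure Contr [Fintype J] [DecidableEq J] (deg : J → ℕ) (D S : Matrix J J R) : Prop where
  deg_S : ∀ i j, S i j ≠ 0 → deg j = deg i + 1
  eq : D * S + S * D = 1

/-- Indices of odd degree. -/
abbrev Ods (deg : J → ℕ) : Type := {j // Odd (deg j)}

/-- Indices of even degree. -/
abbrev Evs (deg : J → ℕ) : Type := {j // ¬ Odd (deg j)}

/-- The block of `A` from odd to even degrees. -/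
def blk (deg : J → ℕ) (A : Matrix J J R) (e : Ods deg ≃ Evs deg) :
    Matrix (Ods deg) (Ods deg) R := Matrix.of fun i j => A i.1 (e j).1

/-- The tenth power of the torsion of the based complex `D` is `u`. -/
def TorM [Fintype J] [DecidableEq J] (deg : J → ℕ) (D : Matrix J J F31) (u : F31) : Prop :=
  ∃ S, Contr deg D S ∧ ∃ e, u = (blk deg (D + S) e).det ^ 10

/-- The submatrix on `{j // Q j}`. -/
def sub (Q : J → Prop) (D : Matrix J J R) : Matrix {j // Q j} {j // Q j} R :=
  Matrix.of fun i j => D i.1 j.1

end mat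

/-! ## Based complexes on an ambient index type -/

section amb
variable {I : Type}

/-- The complex of the finite set `s` of cells is contractible over `ℤ`. -/
def ZC [DecidableEq I] (deg : I → ℕ) (d : I → I → ℤ) (s : Finset I) : Prop :=
  ∃ S : Matrix s s ℤ, Contr (fun i : s => deg i) (Matrix.of fun i j : s => d i j) S

/-- The finite set `s` of cells is a based complex over `ℤ`. -/
def ZCx [DecidableEq I] (deg : I → ℕ) (d : I → I → ℤ) (s : Finset I) : Prop :=
  Cx (fun i : s => deg i) (Matrix.of fun i j : s => d i j)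

/-- A free based `Γ`-complex: the cells are the elements of `P`. -/
structure EC (Γ : Type) [Group Γ] [MulAction Γ I] (P : Set I) (deg : I → ℕ) (d : I → I → ℤ) :
    Prop where
  smul_mem : ∀ (γ : Γ) i, i ∈ P → γ • i ∈ P
  free : ∀ (γ : Γ) i, i ∈ P → γ • i = i → γ = 1
  deg_smul : ∀ (γ : Γ) i, deg (γ • i) = deg i
  d_smul : ∀ (γ : Γ) i j, d (γ • i) (γ • j) = d i j
  fin : ∀ i ∈ P, {j | j ∈ P ∧ d i j ≠ 0}.Finite
  deg_d : ∀ i ∈ P, ∀ j ∈ P, d i j ≠ 0 → deg i = deg j + 1
  sq : ∀ i ∈ P, ∀ k ∈ P, ∑ᶠ (j : I) (_ : j ∈ P), d i j * d j k = 0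

/-- `r` is a system of representatives of `P` modulo `Γ`. -/
def IsRep (Γ : Type) [Group Γ] [MulAction Γ I] (P : Set I) {J : Type} (r : J → I) : Prop :=
  (∀ j, r j ∈ P) ∧ ∀ i ∈ P, ∃! p : Γ × J, p.1 • r p.2 = i

/-- The matrix of the differential twisted by the character `χ`. -/
def tw {Γ : Type} [Group Γ] [MulAction Γ I] (χ : Γ →* F31) (d : I → I → ℤ) {J : Type} (r : J → I) :
    Matrix J J F31 :=
  Matrix.of fun j j' => ∑ᶠ γ : Γ, χ γ * ((d (r j) (γ • r j') : ℤ) : F31)

/-- The tenth power of the torsion of the complex twisted by `χ` is `u`. -/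
def TorG (Γ : Type) [Group Γ] [MulAction Γ I] (P : Set I) (deg : I → ℕ) (d : I → I → ℤ)
    (χ : Γ →* F31) (u : F31) : Prop :=
  ∃ (J : Type) (_ : Fintype J) (_ : DecidableEq J) (r : J → I),
    IsRep Γ P r ∧ TorM (fun j => deg (r j)) (tw χ d r) u

/-- All values of the character have tenth power one. -/
def Ten {Γ : Type} [Group Γ] (χ : Γ →* F31) : Prop := ∀ γ, χ γ ^ 10 = 1

end amb

/-! ## Directed flag complexes -/

section dfc
variable {V W : Type}

/-- `R` is asymmetric. -/
def Asym (R : V → V → Prop) : Prop := ∀ a b, R a b → ¬ R b a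

/-- The reflexive closure of `R`. -/
def Rle (R : V → V → Prop) (a b : V) : Prop := a = b ∨ R a b

/-- The product relation. -/
def prodR (RV : V → V → Prop) (RW : W → W → Prop) (a b : V × W) : Prop :=
  a ≠ b ∧ Rle RV a.1 b.1 ∧ Rle RW a.2 b.2

/-- The ordinal sum (join): `V` below `W`. -/
def sumR (RV : V → V → Prop) (RW : W → W → Prop) : V ⊕ W → V ⊕ W → Prop
  | Sum.inl a, Sum.inl b => RV a b
  | Sum.inl _, Sum.inr _ => True
  | Sum.inr _, Sum.inl _ => False
  | Sum.inr a, Sum.inr b => RW a b

/-- The cone: `none` below everything. -/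
def optR (R : V → V → Prop) : Option V → Option V → Prop
  | none, none => False
  | none, some _ => True
  | some _, none => False
  | some a, some b => R a b

/-- `f` is simplicial. -/
def IsSimp (RV : V → V → Prop) (RW : W → W → Prop) (f : V → W) : Prop :=
  ∀ v v', RV v v' → Rle RW (f v) (f v')

/-- The group `Γ` preserves `R`. -/
def Inv (Γ : Type) [Group Γ] [MulAction Γ V] (R : V → V → Prop) : Prop :=
  ∀ (γ : Γ) v w, R v w → R (γ • v) (γ • w)

/-- The group `Γ` acts freely. -/
def Free (Γ : Type) [Group Γ] (V : Type) [MulAction Γ V] : Prop :=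
  ∀ (γ : Γ) (v : V), γ • v = v → γ = 1

/-- `f` is equivariant. -/
def Equi (Γ : Type) [Group Γ] [MulAction Γ V] [MulAction Γ W] (f : V → W) : Prop :=
  ∀ (γ : Γ) v, f (γ • v) = γ • f v

/-- The action on lists of vertices. -/
instance listAct {Γ : Type} [Group Γ] [MulAction Γ V] : MulAction Γ (List V) where
  smul γ l := l.map (γ • ·)
  one_smul l := by
    change l.map ((1 : Γ) • ·) = l
    simp
  mul_smul a b l := by
    change l.map ((a * b) • ·) = (l.map (b • ·)).map (a • ·)
    simp [mul_smul]

theorem smul_list {Γ : Type} [Group Γ] [MulAction Γ V] (γ : Γ) (l : List V) :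
    γ • l = l.map (γ • ·) := rfl

/-- The simplices of the complex of `R`. -/
def plP (R : V → V → Prop) : Set (List V) := {l | l ≠ [] ∧ l.Pairwise R}

/-- The differential of the simplicial chain complex. -/
def plD (l l' : List V) : ℤ := bd l l'

/-- The cells of the mapping cone of `f : V → W`. -/
def coP (RV : V → V → Prop) (RW : W → W → Prop) : Set (List W ⊕ List V) := {c | IsCell RV RW c}

/-- The differential of the mapping cone of `f : V → W`. -/
def coD (RW : W → W → Prop) (f : V → W) (c c' : List W ⊕ List V) : ℤ := coneD RW f c c'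

/-- The set of first coordinates of a chain of pairs. -/
def psupp [DecidableEq V] (l : List (V × W)) : Finset V := (l.map Prod.fst).toFinset

/-- The set of first coordinates of a cell of the cone of `id × f`. -/
def csupp [DecidableEq V] {W' : Type} : List (V × W) ⊕ List (V × W') → Finset V
  | Sum.inl l => psupp l
  | Sum.inr l => psupp l

end dfc

/-! ## Fences -/

/-- The fence with `m` points: `ℤ/m`; the generator of `ℤ/5` acts by adding `c`. -/
def Fen (m _c : ℕ) : Type := ZMod m

/-- Conditions for the action to be defined and free. -/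
class FenOK (m c : ℕ) : Prop where
  four_le : 4 ≤ m
  even_m : Even m
  even_c : Even c
  dvd : m ∣ 5 * c
  free : ∀ k : ZMod 5, m ∣ c * k.val → k = 0

instance : FenOK 10 4 := ⟨by decide, by decide, by decide, by decide, by decide⟩
instance : FenOK 30 6 := ⟨by decide, by decide, by decide, by decide, by decide⟩

section fen
variable (m c : ℕ)

theorem FenOK.neZero (h : FenOK m c) : NeZero m := ⟨by have := h.four_le; omega⟩

instance : DecidableEq (Fen m c) := inferInstanceAs (DecidableEq (ZMod m))

instance [h : FenOK m c] : Fintype (Fen m c) :=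
  haveI := h.neZero
  inferInstanceAs (Fintype (ZMod m))

instance : AddCommGroup (Fen m c) := inferInstanceAs (AddCommGroup (ZMod m))

/-- The point `k` of the fence. -/
def Fen.of (k : ZMod m) : Fen m c := k

/-- The number of a point of the fence, in `{0, …, m-1}`. -/
def Fen.val {m c : ℕ} (s : Fen m c) : ℕ := ZMod.val (n := m) s

/-- `g ∈ ℤ/5` acts by adding `c g`. -/
instance [h : FenOK m c] : MulAction (Cyc 5) (Fen m c) where
  smul g s := s + Fen.of m c ((c * (Multiplicative.toAdd g).val : ℕ) : ZMod m)
  one_smul s := by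
    change s + Fen.of m c ((c * (0 : ZMod 5).val : ℕ) : ZMod m) = s
    have : Fen.of m c ((c * (0 : ZMod 5).val : ℕ) : ZMod m) = 0 := by
      simp only [ZMod.val_zero, mul_zero, Nat.cast_zero]
      rfl
    rw [this, add_zero]
  mul_smul a b s := by
    change s + Fen.of m c ((c * (Multiplicative.toAdd a + Multiplicative.toAdd b).val : ℕ) : ZMod m)
      = s + Fen.of m c ((c * (Multiplicative.toAdd b).val : ℕ) : ZMod m)
        + Fen.of m c ((c * (Multiplicative.toAdd a).val : ℕ) : ZMod m)
    have key : ((c * (Multiplicative.toAdd a + Multiplicative.toAdd b).val : ℕ) : ZMod m)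
        = ((c * (Multiplicative.toAdd b).val : ℕ) : ZMod m)
          + ((c * (Multiplicative.toAdd a).val : ℕ) : ZMod m) := by
      rw [← Nat.cast_add, ← mul_add, ZMod.natCast_eq_natCast_iff', ZMod.val_add]
      obtain ⟨q, hq⟩ := h.dvd
      generalize (Multiplicative.toAdd a).val = x
      generalize (Multiplicative.toAdd b).val = y
      have h1 : c * (y + x) = c * ((x + y) % 5) + m * (q * ((x + y) / 5)) := by
        have := Nat.div_add_mod (x + y) 5
        calc c * (y + x) = c * (5 * ((x + y) / 5) + (x + y) % 5) := by rw [this, add_comm x y]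
          _ = c * ((x + y) % 5) + (5 * c) * ((x + y) / 5) := by ring
          _ = _ := by rw [hq]; ring
      rw [h1, Nat.add_mul_mod_self_left]
    rw [key, add_assoc]
    rfl

/-- The order of the fence: `s` even, `s' = s ± 1`. -/
def fenR (s s' : Fen m c) : Prop :=
  Even s.val ∧ (s' = s + Fen.of m c 1 ∨ s' = s - Fen.of m c 1)

instance : DecidableRel (fenR m c) := fun s s' => by unfold fenR; infer_instance

end fen

end Pool.Agent.Lib.MP_39dc45_gt.SP
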