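import Pool.Agent.Lib.MP_39dc45_gt.SP.StA

open Matrix

noncomputable section

namespace Pool.Agent.Lib.MP_39dc45_gt.SP

theorem stAlg : StTorK → StFen0 → StKf → StV4 → StP0 → StP3 → StAlg := by
  intro hT h0 hK hV hP0 hP3
  obtain ⟨aS, aT, iS, iT, fS, fT, sK, eK⟩ := hK
  obtain ⟨v1, v2, v3, v4, ⟨w, v5⟩, v6⟩ := hV
  have H : ProdHyp exR.Gam (Cyc 5) V4 KT KS piG R4 RT RS fK w :=
    { asV := v1, asK := aT, asK' := aS, invV := v2, invK := iT, invK' := iS, freeK := fT,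
      freeK' := fS, simp := sK, equi := eK
      compK := by rintro γ (k | k) <;> rfl
      compK' := fun γ k => rfl
      stab := v3, free2 := v4, orb := v5, loc := v6 }
  refine ⟨(hP0 exR.Gam (Cyc 5) V4 KT KS piG R4 RT RS fK w H).2.2, ?_⟩
  intro J iJ1 iJ2 r hr htt
  have key := hP3 exR.Gam (Cyc 5) V4 KT KS piG R4 RT RS fK w chi5 H h0.2 25 hT J r hr htt
  have : (25 : F31) ^ 5 ≠ 1 := by decide
  exact this key

end Pool.Agent.Lib.MP_39dc45_gt.SP
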