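import Pool.Agent.Lib.MP_39dc45_gt.SP.Defs

/-!
# MP_39dc45_gt: from the definitions used in the proof to those of the statement
-/

open scoped Topology
open Matrix

noncomputable section

namespace Pool.Agent.Lib.MP_39dc45_gt.SP

/-- The data of the statement. -/
def Dat.toData (D : Dat) : Data where
  toRep := D.toRep
  l := D.l
  three_le := D.three_le
  odd_l := D.odd_l
  act := fun g s => D.act g s
  act_one := fun s => by
    change D.act 1 s = s
    simp
  act_mul := fun g h s => by
    change D.act (g * h) s = D.act g (D.act h s)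
    simp
  act_cont := fun g => (D.act g).continuous
  act_free := D.act_free

theorem bridgeSimple (D : Dat) {N : Type} [TopologicalSpace N] (h : C(N, D.Mfd))
    (H : D.toData.IsSimple h) : D.IsSimple h := by
  intro X tX aX q ht hq he hp V W aV aW RV RW bV bW hV hW f hf1 hf2 φ hφ hH J fJ dJ r hr
  letI aX' : MulAction D.toData.Gam X := aX
  letI aV' : MulAction D.toData.Gam V := aV
  letI aW' : MulAction D.toData.Gam W := aW
  refine H X q ht ⟨hq, he, hp⟩ V W RV RW bV bW hV hW f ⟨hf1, hf2, ?_⟩ J r hr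
  obtain ⟨K, h0, h1, h2⟩ := hH
  refine ⟨K, fun x w => ?_, h1, h2⟩
  rw [← hφ x w, ← h0 x]
  rfl

theorem bridge (h : Target) :
    ∃ D : Data, D.p = 5 ∧ D.n = 4 ∧ D.l = 3 ∧
      ∃ (N : Type) (_ : TopologicalSpace N) (h : C(N, D.Mfd)),
        IsClosedManifold (D.n + D.l) N ∧ IsHtpyEquiv h ∧ SplitsAlong D.n h D.fixY ∧
          ¬ D.IsSimple h := by
  obtain ⟨D, hp, hn, hl, N, tN, h, h1, h2, h3, h4⟩ := h
  exact ⟨D.toData, hp, hn, hl, N, tN, h, h1, h2, h3, fun hs => h4 (bridgeSimple D h hs)⟩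

end Pool.Agent.Lib.MP_39dc45_gt.SP
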