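import Pool.Agent.Lib.MP_39dc45_gt.SP.StA

/-!
# MP_39dc45_gt: the simplicial chain complex
-/

open Matrix

noncomputable section

namespace Pool.Agent.Lib.MP_39dc45_gt.SP

namespace C1M

variable {V : Type}

theorem erase_comm (l : List V) (a b : ℕ) (h : a ≤ b) :
    (l.eraseIdx a).eraseIdx b = (l.eraseIdx (b + 1)).eraseIdx a := by
  induction l generalizing a b with
  | nil => simp
  | cons x t ih =>
    cases a with
    | zero => simp
    | succ a =>
      cases b with
      | zero => omega
      | succ b =>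
        simp only [List.eraseIdx_cons_succ]
        rw [ih a b (by omega)]

open Classical in
theorem bd_apply {l : List V} (hl : 2 ≤ l.length) (k : List V) :
    bd l k = ∑ a ∈ Finset.range l.length, if l.eraseIdx a = k then (-1 : ℤ) ^ a else 0 := by
  unfold bd
  rw [if_neg (by omega), Finsupp.finsetSum_apply]
  refine Finset.sum_congr rfl fun a _ => ?_
  rw [Finsupp.single_apply]

theorem bd_short {l : List V} (hl : l.length ≤ 1) : bd l = 0 := by
  unfold bd
  rw [if_pos hl]

theorem of_bd_ne {l k : List V} (h : bd l k ≠ 0) :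
    2 ≤ l.length ∧ ∃ a < l.length, l.eraseIdx a = k := by
  classical
  have hl : 2 ≤ l.length := by
    by_contra h1
    apply h
    rw [bd_short (by omega), Finsupp.zero_apply]
  refine ⟨hl, ?_⟩
  rw [bd_apply hl] at h
  obtain ⟨a, ha, h2⟩ := Finset.exists_ne_zero_of_sum_ne_zero h
  refine ⟨a, Finset.mem_range.1 ha, ?_⟩
  by_contra h3
  exact h2 (if_neg h3)

/-- faces of simplices are simplices -/
theorem mem_of_bd_ne {R : V → V → Prop} {l k : List V} (hl : l ∈ plP R) (h : bd l k ≠ 0) :
    k ∈ plP R ∧ l.length = k.length + 1 := by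
  obtain ⟨h2, a, ha, rfl⟩ := of_bd_ne h
  have h3 := List.length_eraseIdx_of_lt ha
  refine ⟨⟨?_, hl.2.sublist (List.eraseIdx_sublist _ _)⟩, by omega⟩
  intro h4
  rw [h4] at h3
  simp at h3
  omega

theorem bd_map {W : Type} (g : V → W) (l : List V) :
    bd (l.map g) = (bd l).mapDomain (List.map g) := by
  unfold bd
  rw [List.length_map]
  split_ifs with h
  · rw [Finsupp.mapDomain_zero]
  · rw [Finsupp.mapDomain_finsetSum]
    refine Finset.sum_congr rfl fun a _ => ?_
    rw [Finsupp.mapDomain_single, List.eraseIdx_map]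

/-- the cancellation -/
theorem alt_sum (n : ℕ) (F : ℕ → ℕ → ℤ) (h : ∀ a b, a ≤ b → F a b = F (b + 1) a) :
    ∑ a ∈ Finset.range (n + 1), ∑ b ∈ Finset.range n, (-1 : ℤ) ^ a * ((-1) ^ b * F a b) = 0 := by
  rw [← Finset.sum_product']
  rw [← Finset.sum_filter_add_sum_filter_not _ (fun x : ℕ × ℕ => x.1 ≤ x.2)]
  have key : ∑ x ∈ (Finset.range (n + 1) ×ˢ Finset.range n).filter (fun x : ℕ × ℕ => ¬ x.1 ≤ x.2),
      (-1 : ℤ) ^ x.1 * ((-1) ^ x.2 * F x.1 x.2)
      = ∑ x ∈ (Finset.range (n + 1) ×ˢ Finset.range n).filter (fun x : ℕ × ℕ => x.1 ≤ x.2),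
      -((-1 : ℤ) ^ x.1 * ((-1) ^ x.2 * F x.1 x.2)) := by
    refine Finset.sum_bij' (fun x _ => (x.2, x.1 - 1)) (fun x _ => (x.2 + 1, x.1)) ?_ ?_ ?_ ?_ ?_
    · rintro ⟨a, b⟩ hx
      simp only [Finset.mem_filter, Finset.mem_product, Finset.mem_range] at hx ⊢
      omega
    · rintro ⟨a, b⟩ hx
      simp only [Finset.mem_filter, Finset.mem_product, Finset.mem_range] at hx ⊢
      omega
    · rintro ⟨a, b⟩ hx
      simp only [Finset.mem_filter, Finset.mem_product, Finset.mem_range] at hx ⊢
      rw [Prod.mk.injEq]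
      omega
    · rintro ⟨a, b⟩ hx
      simp only [Finset.mem_filter, Finset.mem_product, Finset.mem_range] at hx ⊢
      rw [Prod.mk.injEq]
      omega
    · rintro ⟨a, b⟩ hx
      simp only [Finset.mem_filter, Finset.mem_product, Finset.mem_range] at hx ⊢
      obtain ⟨a, rfl⟩ : ∃ a', a = a' + 1 := ⟨a - 1, by omega⟩
      rw [Nat.add_sub_cancel, h b a (by omega), pow_succ]
      ring
  rw [key, ← Finset.sum_add_distrib]
  exact Finset.sum_eq_zero fun x _ => by ring

/-- the square of the differential -/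
theorem bd_bd (l k : List V) : (bd l).sum (fun j c => c * bd j k) = 0 := by
  classical
  by_cases hl : l.length ≤ 1
  · rw [bd_short hl, Finsupp.sum_zero_index]
  have h0 : (bd l).sum (fun j c => c * bd j k)
      = ∑ a ∈ Finset.range l.length, (-1 : ℤ) ^ a * bd (l.eraseIdx a) k := by
    unfold bd
    rw [if_neg hl, ← Finsupp.sum_finsetSum_index (fun _ => zero_mul _) (fun _ _ _ => add_mul _ _ _)]
    refine Finset.sum_congr rfl fun a _ => ?_
    rw [Finsupp.sum_single_index (zero_mul _)]
  rw [h0]
  by_cases h2 : l.length = 2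
  · refine Finset.sum_eq_zero fun a ha => ?_
    rw [bd_short (l := l.eraseIdx a), Finsupp.zero_apply, mul_zero]
    rw [List.length_eraseIdx_of_lt (Finset.mem_range.1 ha)]
    omega
  obtain ⟨n, hn⟩ : ∃ n, l.length = n + 1 := ⟨l.length - 1, by omega⟩
  have h3 : ∀ a ∈ Finset.range l.length, (-1 : ℤ) ^ a * bd (l.eraseIdx a) k
      = ∑ b ∈ Finset.range n, (-1 : ℤ) ^ a * ((-1) ^ b *
        (if (l.eraseIdx a).eraseIdx b = k then 1 else 0)) := by
    intro a ha
    have h4 : (l.eraseIdx a).length = n := by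
      rw [List.length_eraseIdx_of_lt (Finset.mem_range.1 ha)]
      omega
    rw [bd_apply (by omega), h4, Finset.mul_sum]
    refine Finset.sum_congr rfl fun b _ => ?_
    split_ifs <;> ring
  rw [Finset.sum_congr rfl h3, hn]
  exact alt_sum n (fun a b => if (l.eraseIdx a).eraseIdx b = k then 1 else 0)
    fun a b hab => by
      change (if (l.eraseIdx a).eraseIdx b = k then (1 : ℤ) else 0) = _
      rw [erase_comm l a b hab]

end C1M

open C1M

/-- Module C1. -/
theorem stC1 : StC1 := by
  intro Γ V _ _ R hR hInv hFree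
  refine ⟨?_, ?_, ?_, ?_, ?_, ?_, ?_⟩
  · rintro γ l ⟨h1, h2⟩
    refine ⟨?_, ?_⟩
    · rw [smul_list]
      intro h
      exact h1 (List.map_eq_nil_iff.1 h)
    · rw [smul_list]
      exact h2.map _ fun a b hab => hInv γ a b hab
  · rintro γ l ⟨h1, h2⟩ h
    cases l with
    | nil => exact absurd rfl h1
    | cons x t =>
      rw [smul_list, List.map_cons] at h
      exact hFree γ x (List.cons.inj h).1
  · intro γ l
    rw [smul_list, List.length_map]
  · intro γ l k
    unfold plD
    rw [smul_list, bd_map, smul_list]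
    exact Finsupp.mapDomain_apply (List.map_injective_iff.2 (MulAction.injective γ)) _ _
  · intro l hl
    refine (bd l).support.finite_toSet.subset ?_
    rintro j ⟨-, hj⟩
    exact Finset.mem_coe.2 (Finsupp.mem_support_iff.2 hj)
  · intro l hl k hk h
    exact (mem_of_bd_ne hl h).2
  · intro l hl k hk
    have h1 : (fun j : List V => ∑ᶠ (_ : j ∈ plP R), plD l j * plD j k)
        = fun j => plD l j * plD j k := by
      funext j
      by_cases hj : j ∈ plP R
      · simp [hj]
      · have h2 : plD l j = 0 := by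
          by_contra h3
          exact hj (mem_of_bd_ne hl h3).1
        simp [hj, h2]
    rw [h1, finsum_eq_sum_of_support_subset (s := (bd l).support)]
    · exact bd_bd l k
    · intro j hj
      rw [Function.mem_support] at hj
      exact Finset.mem_coe.2 (Finsupp.mem_support_iff.2 (left_ne_zero_of_mul hj))

end Pool.Agent.Lib.MP_39dc45_gt.SP
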