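import Pool.Agent.Lib.MP_39dc45_gt.SP.StA

/-!
# MP_39dc45_gt, C2: the mapping cone of a simplicial map is a free complex
-/

noncomputable section

namespace Pool.Agent.Lib.MP_39dc45_gt.SP

namespace C2aux

open Finsupp

section lists
variable {V : Type}

theorem bdA_cons (a : V) (l : List V) :
    bdA (a :: l) = single l 1 - (bdA l).mapDomain (List.cons a) := by
  unfold bdA
  rw [List.length_cons, Finset.sum_range_succ', Finsupp.mapDomain_finsetSum, add_comm,
    sub_eq_add_neg, ← Finset.sum_neg_distrib]
  have e1 : (single ((a :: l).eraseIdx 0) ((-1 : ℤ) ^ 0) : List V →₀ ℤ) = single l 1 := by simp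
  have e2 : ∀ i, (single ((a :: l).eraseIdx (i + 1)) ((-1 : ℤ) ^ (i + 1)) : List V →₀ ℤ) =
      -(single (l.eraseIdx i) ((-1 : ℤ) ^ i)).mapDomain (List.cons a) := by
    intro i
    rw [Finsupp.mapDomain_single, List.eraseIdx_cons_succ, pow_succ, mul_neg_one,
      Finsupp.single_neg]
  rw [e1, Finset.sum_congr rfl fun i _ => e2 i]

theorem bd_eq {l : List V} (h : ¬ l.length ≤ 1) : bd l = bdA l := by
  unfold bd bdA
  rw [if_neg h]

theorem bd_zero {l : List V} (h : l.length ≤ 1) : bd l = 0 := by
  unfold bd
  rw [if_pos h]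

/-- linear extension -/
abbrev lin {A B : Type} (F : A → (B →₀ ℤ)) : (A →₀ ℤ) →ₗ[ℤ] (B →₀ ℤ) :=
  Finsupp.linearCombination ℤ F

theorem lin_single {A B : Type} (F : A → (B →₀ ℤ)) (a : A) (c : ℤ) :
    lin F (single a c) = c • F a := Finsupp.linearCombination_single ℤ c a

theorem lin_congr {A B : Type} (F F' : A → (B →₀ ℤ)) (x : A →₀ ℤ)
    (h : ∀ a ∈ x.support, F a = F' a) : lin F x = lin F' x := by
  rw [lin, lin, Finsupp.linearCombination_apply, Finsupp.linearCombination_apply]
  exact Finsupp.sum_congr fun a ha => by rw [h a ha]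

theorem lin_cons (a : V) (x : List V →₀ ℤ) :
    lin bdA (x.mapDomain (List.cons a)) = x - (lin bdA x).mapDomain (List.cons a) := by
  induction x using Finsupp.induction_linear with
  | zero => simp
  | add x y hx hy =>
    rw [Finsupp.mapDomain_add, map_add, hx, hy, map_add, Finsupp.mapDomain_add]
    abel
  | single l c =>
    rw [Finsupp.mapDomain_single, lin_single, lin_single, bdA_cons, smul_sub,
      Finsupp.smul_single, smul_eq_mul, mul_one, Finsupp.mapDomain_smul]

theorem lin_bdA (l : List V) : lin bdA (bdA l) = 0 := by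
  induction l with
  | nil => simp [bdA]
  | cons a l ih =>
    rw [bdA_cons, map_sub, lin_cons, lin_single, ih, one_smul, Finsupp.mapDomain_zero, sub_zero,
      sub_self]

theorem mem_bdA {l l' : List V} (h : l' ∈ (bdA l).support) :
    ∃ i < l.length, l' = l.eraseIdx i := by
  classical
  unfold bdA at h
  have h1 := Finsupp.support_finsetSum h
  rw [Finset.mem_biUnion] at h1
  obtain ⟨i, hi, h2⟩ := h1
  have h3 := Finsupp.support_single_subset h2
  rw [Finset.mem_singleton] at h3
  exact ⟨i, Finset.mem_range.1 hi, h3⟩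

theorem length_bdA {l l' : List V} (h : l' ∈ (bdA l).support) : l.length = l'.length + 1 := by
  obtain ⟨i, hi, rfl⟩ := mem_bdA h
  rw [List.length_eraseIdx_of_lt hi]
  omega

theorem mem_bd {l l' : List V} (h : l' ∈ (bd l).support) :
    2 ≤ l.length ∧ l.length = l'.length + 1 ∧ ∃ i < l.length, l' = l.eraseIdx i := by
  by_cases hl : l.length ≤ 1
  · rw [bd_zero hl] at h
    simp at h
  · rw [bd_eq hl] at h
    exact ⟨by omega, length_bdA h, mem_bdA h⟩

theorem lin_bd (l : List V) : lin bd (bd l) = 0 := by
  by_cases hl : l.length ≤ 1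
  · rw [bd_zero hl, map_zero]
  · by_cases h2 : l.length = 2
    · rw [lin_congr bd (fun _ => 0) (bd l) (fun l' hl' => bd_zero (by
        have := (mem_bd hl').2.1
        omega))]
      rw [lin, Finsupp.linearCombination_apply]
      simp
    · rw [lin_congr bd bdA (bd l) (fun l' hl' => bd_eq (by
        have := (mem_bd hl').2.1
        omega)), bd_eq hl, lin_bdA]

theorem bd_map {W : Type} (g : V → W) (l : List V) :
    bd (l.map g) = (bd l).mapDomain (List.map g) := by
  unfold bd
  rw [List.length_map]
  by_cases hl : l.length ≤ 1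
  · rw [if_pos hl, if_pos hl, Finsupp.mapDomain_zero]
  · rw [if_neg hl, if_neg hl, Finsupp.mapDomain_finsetSum]
    refine Finset.sum_congr rfl fun i _ => ?_
    rw [Finsupp.mapDomain_single, List.eraseIdx_map]

end lists

section push
variable {V W : Type}

open Classical in
/-- a list, or zero if it is degenerate -/
def nd (R : W → W → Prop) (m : List W) : List W →₀ ℤ :=
  if m.Pairwise R then single m 1 else 0

theorem push_eq (R : W → W → Prop) (f : V → W) (l : List V) : push R f l = nd R (l.map f) := rfl

theorem nd_cons (R : W → W → Prop) (a : W) (m : List W) (h : ∀ c ∈ m, R a c) :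
    nd R (a :: m) = (nd R m).mapDomain (List.cons a) := by
  unfold nd
  by_cases hm : m.Pairwise R
  · rw [if_pos (List.pairwise_cons.2 ⟨h, hm⟩), if_pos hm, Finsupp.mapDomain_single]
  · rw [if_neg (fun h2 => hm (List.pairwise_cons.1 h2).2), if_neg hm, Finsupp.mapDomain_zero]

theorem lin_nd_cons (R : W → W → Prop) (a : W) (x : List W →₀ ℤ)
    (h : ∀ m ∈ x.support, ∀ c ∈ m, R a c) :
    lin (nd R) (x.mapDomain (List.cons a)) = (lin (nd R) x).mapDomain (List.cons a) := by
  have e1 : lin (nd R) (x.mapDomain (List.cons a)) = lin (fun m => nd R (a :: m)) x := by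
    rw [lin, Finsupp.linearCombination_mapDomain]
    rfl
  rw [e1, lin_congr _ (fun m => (nd R m).mapDomain (List.cons a)) x
    (fun m hm => nd_cons R a m (h m hm))]
  rw [lin, lin, Finsupp.linearCombination_apply, Finsupp.linearCombination_apply,
    Finsupp.sum, Finsupp.sum, Finsupp.mapDomain_finsetSum]
  refine Finset.sum_congr rfl fun m _ => ?_
  rw [Finsupp.mapDomain_smul]

theorem lin_nd (R : W → W → Prop) (hR : Asym R) (m : List W) (hm : m.Pairwise (Rle R)) :
    lin (nd R) (bdA m) = lin bdA (nd R m) := by
  induction m with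
  | nil =>
    have e : bdA ([] : List W) = 0 := by simp [bdA]
    rw [e, map_zero]
    unfold nd
    rw [if_pos List.Pairwise.nil, lin_single, e, smul_zero]
  | cons a m ih =>
    have hm' := (List.pairwise_cons.1 hm).2
    by_cases hc : ∀ c ∈ m, R a c
    · rw [bdA_cons, map_sub, lin_single, one_smul, lin_nd_cons, ih hm', nd_cons R a m hc,
        lin_cons]
      intro l hl c hcl
      obtain ⟨i, _, rfl⟩ := mem_bdA hl
      exact hc c ((List.eraseIdx_sublist m i).subset hcl)
    · cases m with
      | nil => exact absurd (by simp) hc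
      | cons b m =>
        have hab : a = b := by
          by_contra hne
          apply hc
          have hRab : R a b := by
            rcases (List.pairwise_cons.1 hm).1 b List.mem_cons_self with h | h
            · exact absurd h hne
            · exact h
          intro c hcm
          rcases (List.pairwise_cons.1 hm).1 c hcm with h | h
          · subst h
            rcases List.mem_cons.1 hcm with h2 | h2
            · exact absurd h2 hne
            · rcases (List.pairwise_cons.1 hm').1 a h2 with h3 | h3
              · exact absurd h3.symm hne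
              · exact absurd h3 (hR a b hRab)
          · exact h
        subst hab
        have hnd : ∀ l : List W, nd R (a :: a :: l) = 0 := by
          intro l
          unfold nd
          rw [if_neg]
          intro h
          have h1 := (List.pairwise_cons.1 h).1 a List.mem_cons_self
          exact hR a a h1 h1
        rw [hnd, map_zero, bdA_cons, bdA_cons, Finsupp.mapDomain_sub, map_sub, map_sub,
          Finsupp.mapDomain_single, lin_single, ← Finsupp.mapDomain_comp]
        have e1 : lin (nd R) ((bdA m).mapDomain (List.cons a ∘ List.cons a)) = 0 := by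
          rw [lin, Finsupp.linearCombination_mapDomain, Finsupp.linearCombination_apply]
          apply Finset.sum_eq_zero
          intro l _
          show _ • nd R (a :: a :: l) = 0
          rw [hnd, smul_zero]
        rw [e1]
        simp

theorem lin_push_bd (RV : V → V → Prop) (RW : W → W → Prop) (f : V → W) (hW : Asym RW)
    (hf : IsSimp RV RW f) (l : List V) (hl : l.Pairwise RV) :
    lin (push RW f) (bd l) = lin bd (push RW f l) := by
  by_cases h1 : l.length ≤ 1
  · rw [bd_zero h1, map_zero, push_eq]
    unfold nd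
    split_ifs
    · rw [lin_single, bd_zero (by rw [List.length_map]; exact h1), smul_zero]
    · rw [map_zero]
  · have e1 : lin (push RW f) (bd l) = lin (nd RW) (bd (l.map f)) := by
      rw [bd_map, lin, lin, Finsupp.linearCombination_mapDomain]
      rfl
    have h2 : ¬ (l.map f).length ≤ 1 := by
      rw [List.length_map]
      exact h1
    rw [e1, bd_eq h2, lin_nd RW hW, push_eq]
    · unfold nd
      split_ifs
      · rw [lin_single, lin_single, bd_eq h2]
      · rw [map_zero, map_zero]
    · rw [List.pairwise_map]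
      exact hl.imp fun {a b} h => hf a b h

theorem mem_push {RW : W → W → Prop} {f : V → W} {l : List V} {m : List W}
    (h : m ∈ (push RW f l).support) : m = l.map f ∧ m.Pairwise RW := by
  rw [push_eq] at h
  unfold nd at h
  split_ifs at h with h1
  · have h3 := Finsupp.support_single_subset h
    rw [Finset.mem_singleton] at h3
    exact ⟨h3, by rw [h3]; exact h1⟩
  · simp at h

end push

section cone
variable {V W : Type}

theorem lin_mapDomain {A B C : Type} (F : A → (B →₀ ℤ)) (g : C → A) (x : C →₀ ℤ) :
    lin F (x.mapDomain g) = lin (F ∘ g) x := by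
  rw [lin, Finsupp.linearCombination_mapDomain]

theorem lin_comp_mapDomain {A B C : Type} (F : A → (B →₀ ℤ)) (g : B → C) (x : A →₀ ℤ) :
    lin (fun a => (F a).mapDomain g) x = (lin F x).mapDomain g := by
  rw [lin, lin, Finsupp.linearCombination_apply, Finsupp.linearCombination_apply,
    Finsupp.sum, Finsupp.sum, Finsupp.mapDomain_finsetSum]
  refine Finset.sum_congr rfl fun m _ => ?_
  rw [Finsupp.mapDomain_smul]

theorem lin_sub {A B : Type} (F F' : A → (B →₀ ℤ)) (x : A →₀ ℤ) :
    lin (fun a => F a - F' a) x = lin F x - lin F' x := by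
  rw [lin, lin, lin, Finsupp.linearCombination_apply, Finsupp.linearCombination_apply,
    Finsupp.linearCombination_apply, Finsupp.sum, Finsupp.sum, Finsupp.sum,
    ← Finset.sum_sub_distrib]
  refine Finset.sum_congr rfl fun m _ => ?_
  rw [smul_sub]

theorem cone_sq (RV : V → V → Prop) (RW : W → W → Prop) (f : V → W) (hW : Asym RW)
    (hf : IsSimp RV RW f) (c : List W ⊕ List V) (hc : IsCell RV RW c) :
    lin (coneD RW f) (coneD RW f c) = 0 := by
  have e1 : ∀ x : List W →₀ ℤ, lin (coneD RW f) (x.mapDomain Sum.inl) =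
      (lin bd x).mapDomain Sum.inl := by
    intro x
    rw [lin_mapDomain, ← lin_comp_mapDomain]
    rfl
  have e2 : ∀ x : List V →₀ ℤ, lin (coneD RW f) (x.mapDomain Sum.inr) =
      (lin (push RW f) x).mapDomain Sum.inl - (lin bd x).mapDomain Sum.inr := by
    intro x
    rw [lin_mapDomain, ← lin_comp_mapDomain, ← lin_comp_mapDomain, ← lin_sub]
    rfl
  cases c with
  | inl l =>
    show lin (coneD RW f) ((bd l).mapDomain Sum.inl) = 0
    rw [e1, lin_bd, Finsupp.mapDomain_zero]
  | inr l =>
    show lin (coneD RW f) ((push RW f l).mapDomain Sum.inl - (bd l).mapDomain Sum.inr) = 0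
    rw [map_sub, e1, e2, lin_bd, lin_push_bd RV RW f hW hf l hc.2, Finsupp.mapDomain_zero,
      sub_zero, sub_self]

theorem mem_cone_inl {RW : W → W → Prop} {f : V → W} {l : List W} {c : List W ⊕ List V}
    (h : c ∈ (coneD RW f (Sum.inl l)).support) : ∃ l' ∈ (bd l).support, c = Sum.inl l' := by
  classical
  have h1 := Finsupp.mapDomain_support h
  rw [Finset.mem_image] at h1
  obtain ⟨l', hl', rfl⟩ := h1
  exact ⟨l', hl', rfl⟩

theorem mem_cone_inr {RW : W → W → Prop} {f : V → W} {l : List V} {c : List W ⊕ List V}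
    (h : c ∈ (coneD RW f (Sum.inr l)).support) :
    (∃ l' ∈ (push RW f l).support, c = Sum.inl l') ∨ ∃ l' ∈ (bd l).support, c = Sum.inr l' := by
  classical
  have h1 := Finsupp.support_sub h
  rw [Finset.mem_union] at h1
  rcases h1 with h1 | h1
  · left
    have h2 := Finsupp.mapDomain_support h1
    rw [Finset.mem_image] at h2
    obtain ⟨l', hl', rfl⟩ := h2
    exact ⟨l', hl', rfl⟩
  · right
    have h2 := Finsupp.mapDomain_support h1
    rw [Finset.mem_image] at h2
    obtain ⟨l', hl', rfl⟩ := h2
    exact ⟨l', hl', rfl⟩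

theorem bd_cell {V : Type} {R : V → V → Prop} {l l' : List V} (hl : l.Pairwise R)
    (h : l' ∈ (bd l).support) : l' ≠ [] ∧ l'.Pairwise R := by
  obtain ⟨h1, h2, i, _, rfl⟩ := mem_bd h
  refine ⟨fun h3 => ?_, hl.sublist (List.eraseIdx_sublist l i)⟩
  rw [h3, List.length_nil] at h2
  omega

theorem cone_cell {RV : V → V → Prop} {RW : W → W → Prop} {f : V → W}
    {c c' : List W ⊕ List V} (hc : IsCell RV RW c) (h : c' ∈ (coneD RW f c).support) :
    IsCell RV RW c' ∧ cdeg c = cdeg c' + 1 := by
  cases c with
  | inl l =>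
    obtain ⟨l', hl', rfl⟩ := mem_cone_inl h
    exact ⟨bd_cell hc.2 hl', (mem_bd hl').2.1⟩
  | inr l =>
    rcases mem_cone_inr h with ⟨l', hl', rfl⟩ | ⟨l', hl', rfl⟩
    · obtain ⟨h1, h2⟩ := mem_push hl'
      refine ⟨⟨fun h3 => hc.1 ?_, h2⟩, ?_⟩
      · rw [h3] at h1
        exact List.map_eq_nil_iff.1 h1.symm
      · show l.length + 1 = l'.length + 1
        rw [h1, List.length_map]
    · refine ⟨bd_cell hc.2 hl', ?_⟩
      show l.length + 1 = l'.length + 1 + 1
      rw [(mem_bd hl').2.1]

theorem finsum_lin {I : Type} (P : Set I) (F : I → (I →₀ ℤ)) (i k : I)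
    (h : ∀ j ∈ (F i).support, j ∈ P) :
    ∑ᶠ (j : I) (_ : j ∈ P), F i j * F j k = (lin F (F i)) k := by
  rw [finsum_mem_eq_sum_of_inter_support_eq (t := (F i).support)]
  · rw [lin, Finsupp.linearCombination_apply, Finsupp.sum, Finsupp.finsetSum_apply]
    rfl
  · ext j
    simp only [Set.mem_inter_iff, Function.mem_support, Finset.mem_coe, Finsupp.mem_support_iff]
    constructor
    · rintro ⟨_, h2⟩
      exact ⟨left_ne_zero_of_mul h2, h2⟩
    · rintro ⟨h1, h2⟩
      exact ⟨h j (Finsupp.mem_support_iff.2 h1), h2⟩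

end cone

section act
variable {Γ V W : Type} [Group Γ] [MulAction Γ V] [MulAction Γ W]

theorem pairwise_smul {R : V → V → Prop} (hR : Inv Γ R) (γ : Γ) (l : List V) :
    (l.map (γ • ·)).Pairwise R ↔ l.Pairwise R := by
  rw [List.pairwise_map]
  constructor
  · intro h
    refine h.imp fun {a b} hab => ?_
    have h2 := hR γ⁻¹ _ _ hab
    rwa [inv_smul_smul, inv_smul_smul] at h2
  · intro h
    exact h.imp fun {a b} hab => hR γ _ _ hab

theorem push_smul (RW : W → W → Prop) (f : V → W) (hW : Inv Γ RW) (hf : Equi Γ f) (γ : Γ)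
    (l : List V) : push RW f (γ • l) = (push RW f l).mapDomain (γ • ·) := by
  rw [push_eq, push_eq]
  have e1 : (γ • l).map f = (l.map f).map (γ • ·) := by
    rw [smul_list, List.map_map, List.map_map]
    apply List.map_congr_left
    intro v _
    exact hf γ v
  rw [e1]
  unfold nd
  by_cases h : (l.map f).Pairwise RW
  · rw [if_pos ((pairwise_smul hW γ _).2 h), if_pos h, Finsupp.mapDomain_single]
    rfl
  · rw [if_neg (fun h2 => h ((pairwise_smul hW γ _).1 h2)), if_neg h, Finsupp.mapDomain_zero]

theorem cone_smul (RW : W → W → Prop) (f : V → W) (hW : Inv Γ RW) (hf : Equi Γ f) (γ : Γ)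
    (c : List W ⊕ List V) : coneD RW f (γ • c) = (coneD RW f c).mapDomain (γ • ·) := by
  cases c with
  | inl l =>
    show (bd (l.map (γ • ·))).mapDomain Sum.inl = ((bd l).mapDomain Sum.inl).mapDomain (γ • ·)
    rw [bd_map, ← Finsupp.mapDomain_comp, ← Finsupp.mapDomain_comp]
    rfl
  | inr l =>
    show (push RW f (γ • l)).mapDomain Sum.inl - (bd (l.map (γ • ·))).mapDomain Sum.inr =
      ((push RW f l).mapDomain Sum.inl - (bd l).mapDomain Sum.inr).mapDomain (γ • ·)
    rw [push_smul RW f hW hf, bd_map, Finsupp.mapDomain_sub, ← Finsupp.mapDomain_comp,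
      ← Finsupp.mapDomain_comp, ← Finsupp.mapDomain_comp, ← Finsupp.mapDomain_comp]
    rfl

theorem free_list (hV : Free Γ V) (γ : Γ) (l : List V) (hl : l ≠ [])
    (h : l.map (γ • ·) = l) : γ = 1 := by
  cases l with
  | nil => exact absurd rfl hl
  | cons a l =>
    rw [List.map_cons, List.cons.injEq] at h
    exact hV γ a h.1

end act

end C2aux

open C2aux

theorem stC2 : StC2 := by
  intro Γ V W _ _ _ RV RW f _ hW iV iW fV fW hf hfe
  constructor
  · intro γ c hc
    cases c with
    | inl l => exact ⟨fun h => hc.1 (List.map_eq_nil_iff.1 h), (pairwise_smul iW γ l).2 hc.2⟩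
    | inr l => exact ⟨fun h => hc.1 (List.map_eq_nil_iff.1 h), (pairwise_smul iV γ l).2 hc.2⟩
  · intro γ c hc h
    cases c with
    | inl l => exact free_list fW γ l hc.1 (Sum.inl.inj h)
    | inr l => exact free_list fV γ l hc.1 (Sum.inr.inj h)
  · intro γ c
    cases c with
    | inl l =>
      show (l.map (γ • ·)).length = l.length
      exact List.length_map _
    | inr l =>
      show (l.map (γ • ·)).length + 1 = l.length + 1
      rw [List.length_map]
  · intro γ i j
    show coneD RW f (γ • i) (γ • j) = coneD RW f i j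
    rw [cone_smul RW f iW hfe]
    exact Finsupp.mapDomain_apply (MulAction.injective γ) _ _
  · intro i _
    refine (coneD RW f i).support.finite_toSet.subset ?_
    rintro j ⟨_, hj⟩
    exact Finsupp.mem_support_iff.2 hj
  · intro i hi j _ h
    exact (cone_cell hi (Finsupp.mem_support_iff.2 h)).2
  · intro i hi k _
    show ∑ᶠ (j : List W ⊕ List V) (_ : j ∈ coP RV RW), coneD RW f i j * coneD RW f j k = 0
    rw [finsum_lin (coP RV RW) (coneD RW f) i k (fun j hj => (cone_cell hi hj).1),
      cone_sq RV RW f hW hf i hi]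
    rfl

end Pool.Agent.Lib.MP_39dc45_gt.SP
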