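import Pool.Agent.Lib.MP_39dc45_gt.SP.StA

/-!
# MP_39dc45_gt: torsion of the mapping cone
-/

open Matrix

noncomputable section

namespace Pool.Agent.Lib.MP_39dc45_gt.SP

namespace C3aux

variable {V W : Type}

theorem coP_eq (RV : V → V → Prop) (RW : W → W → Prop) :
    coP RV RW = (Sum.inl '' plP RW) ∪ (Sum.inr '' plP RV) := by
  ext c
  rcases c with l | l
  · simp [coP, IsCell, plP]
  · simp [coP, IsCell, plP]

theorem coD_inl_inl (RW : W → W → Prop) (f : V → W) (l l' : List W) :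
    coD RW f (Sum.inl l) (Sum.inl l') = plD l l' := by
  unfold coD coneD plD
  exact Finsupp.mapDomain_apply Sum.inl_injective _ _

theorem coD_inl_inr (RW : W → W → Prop) (f : V → W) (l : List W) (l' : List V) :
    coD RW f (Sum.inl l) (Sum.inr l') = 0 := by
  unfold coD coneD
  exact Finsupp.mapDomain_of_notMem_range _ _ (by simp)

theorem coD_inr_inr (RW : W → W → Prop) (f : V → W) (l l' : List V) :
    coD RW f (Sum.inr l) (Sum.inr l') = - plD l l' := by
  unfold coD coneD plD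
  rw [Finsupp.sub_apply, Finsupp.mapDomain_apply Sum.inr_injective,
    Finsupp.mapDomain_of_notMem_range _ _ (by simp), zero_sub]

end C3aux

theorem stC3 : StE5 → StE6 → StC1 → StC2 → StC3 := by
  intro hE5 hE6 hC1 hC2 Γ V W _ _ _ RV RW f χ hχ hAV hAW hIV hIW hFV hFW hf hequi
  have hco := hC2 Γ V W RV RW f hAV hAW hIV hIW hFV hFW hf hequi
  have hV := hC1 Γ V RV hAV hIV hFV
  have hW := hC1 Γ W RW hAW hIW hFW
  have hdisj : Disjoint (Sum.inl '' plP RW : Set (List W ⊕ List V)) (Sum.inr '' plP RV) := by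
    rw [Set.disjoint_left]
    rintro c ⟨l, _, rfl⟩ ⟨l', _, h⟩
    exact absurd h (by simp)
  have h1 : ∀ (γ : Γ) i, i ∈ (Sum.inl '' plP RW : Set (List W ⊕ List V)) →
      γ • i ∈ (Sum.inl '' plP RW : Set (List W ⊕ List V)) := by
    rintro γ i ⟨l, hl, rfl⟩
    exact ⟨γ • l, hW.smul_mem γ l hl, rfl⟩
  have h2 : ∀ (γ : Γ) i, i ∈ (Sum.inr '' plP RV : Set (List W ⊕ List V)) →
      γ • i ∈ (Sum.inr '' plP RV : Set (List W ⊕ List V)) := by
    rintro γ i ⟨l, hl, rfl⟩
    exact ⟨γ • l, hV.smul_mem γ l hl, rfl⟩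
  obtain ⟨-, -, k3, k4, -⟩ := hE5 Γ (List W ⊕ List V) (coP RV RW) (Sum.inl '' plP RW)
    (Sum.inr '' plP RV) cdeg (coD RW f) χ hco hχ (C3aux.coP_eq RV RW) hdisj h1 h2 (by
      rintro i ⟨l, _, rfl⟩ j ⟨l', _, rfl⟩
      exact C3aux.coD_inl_inr RW f l l')
  have kW : ∀ u, TorG Γ (plP RW) List.length plD χ u ↔
      TorG Γ (Sum.inl '' plP RW : Set (List W ⊕ List V)) cdeg (coD RW f) χ u := by
    intro u
    have h := hE6 Γ (List W) (List W ⊕ List V) (plP RW) (Sum.inl '' plP RW) List.length cdeg plD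
      (coD RW f) χ Sum.inl (fun _ => 1) 0 hW hχ (Sum.inl_injective.injOn.bijOn_image)
      (fun _ _ _ => rfl) (fun _ _ => rfl) (fun _ _ => Or.inl rfl) (fun _ _ _ => rfl)
      (fun i _ j _ => by rw [C3aux.coD_inl_inl, one_mul, one_mul]) u
    rw [if_pos (by decide)] at h
    exact h
  have kV : ∀ u, TorG Γ (plP RV) List.length plD χ u ↔
      TorG Γ (Sum.inr '' plP RV : Set (List W ⊕ List V)) cdeg (coD RW f) χ u⁻¹ := by
    intro u
    have h := hE6 Γ (List V) (List W ⊕ List V) (plP RV) (Sum.inr '' plP RV) List.length cdeg plD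
      (coD RW f) χ Sum.inr (fun l => (-1) ^ l.length) 1 hV hχ
      (Sum.inr_injective.injOn.bijOn_image) (fun _ _ _ => rfl) (fun _ _ => rfl)
      (fun l _ => neg_one_pow_eq_or ℤ l.length) (fun γ l _ => by
        rw [smul_list, List.length_map]) (fun i hi j hj => by
        rw [C3aux.coD_inr_inr]
        by_cases h0 : plD i j = 0
        · rw [h0, neg_zero, mul_zero]
        · have hd := hV.deg_d i hi j hj h0
          rw [hd, pow_succ]
          have hs : ((-1 : ℤ) ^ j.length) * (-1) ^ j.length = 1 := by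
            rw [← mul_pow]
            norm_num
          linear_combination (plD i j) * hs) u
    rw [if_neg (by decide)] at h
    exact h
  refine ⟨?_, ?_⟩
  · intro a b ha hb
    exact k3 a b⁻¹ ((kW a).1 ha) ((kV b).1 hb)
  · intro a h ha
    have h3 := k4 1 a h ((kW a).1 ha)
    rw [one_mul] at h3
    exact (kV a).2 h3

end Pool.Agent.Lib.MP_39dc45_gt.SP
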