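import Pool.Agent.Lib.MP_39dc45_gt.SP.C4Aux

/-!
# MP_39dc45_gt: C4
-/

open Matrix

noncomputable section

namespace Pool.Agent.Lib.MP_39dc45_gt.SP

namespace C4

section cells
variable {V W : Type} {RV : V → V → Prop} {RW : W → W → Prop} {f : V → W}

theorem coneD_inl (l : List W) :
    coneD RW f (Sum.inl l : List W ⊕ List V) = Finsupp.mapDomain Sum.inl (bd l) := rfl

theorem coneD_inr (l : List V) : coneD RW f (Sum.inr l : List W ⊕ List V)
    = Finsupp.mapDomain Sum.inl (push RW f l) - Finsupp.mapDomain Sum.inr (bd l) := rfl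

theorem isCell_of_bd {R : V → V → Prop} {l m : List V} (hl : l.Pairwise R) (h : bd l m ≠ 0) :
    m ≠ [] ∧ m.Pairwise R := by
  obtain ⟨h2, i, hi, rfl⟩ := mem_bd h
  refine ⟨?_, hl.sublist (List.eraseIdx_sublist _ _)⟩
  intro h0
  have := congrArg List.length h0
  rw [List.length_eraseIdx, if_pos hi, List.length_nil] at this
  omega

/-- The differential of a cell is supported on cells. -/
theorem isCell_of_coneD {c c' : List W ⊕ List V} (hc : IsCell RV RW c)
    (h : coneD RW f c c' ≠ 0) : IsCell RV RW c' := by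
  classical
  rcases c with l | l
  · rw [coneD_inl] at h
    rcases c' with l' | l'
    · rw [Finsupp.mapDomain_apply Sum.inl_injective] at h
      exact isCell_of_bd hc.2 h
    · rw [Finsupp.mapDomain_of_notMem_range _ _ (by simp)] at h
      exact absurd rfl h
  · rw [coneD_inr, Finsupp.sub_apply] at h
    rcases c' with l' | l'
    · rw [Finsupp.mapDomain_apply Sum.inl_injective, Finsupp.mapDomain_of_notMem_range _ _ (by simp),
        sub_zero] at h
      by_cases hp : (l.map f).Pairwise RW
      · rw [push_pos hp, Finsupp.single_apply] at h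
        by_cases e : l.map f = l'
        · refine ⟨?_, e ▸ hp⟩
          rw [← e]
          intro h0
          exact hc.1 (List.map_eq_nil_iff.1 h0)
        · rw [if_neg e] at h
          exact absurd rfl h
      · rw [push_neg hp] at h
        exact absurd rfl h
    · rw [Finsupp.mapDomain_apply Sum.inr_injective,
        Finsupp.mapDomain_of_notMem_range _ _ (by simp), zero_sub, neg_ne_zero] at h
      exact isCell_of_bd hc.2 h

/-- Naturality of the cone differential under injective relation preserving maps. -/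
theorem coneD_nat {V' W' : Type} {RW' : W' → W' → Prop} {f' : V' → W'} (g : V → V') (g' : W → W')
    (hf : ∀ v, f' (g v) = g' (f v)) (hR : ∀ a b, RW' (g' a) (g' b) ↔ RW a b)
    (c : List W ⊕ List V) :
    coneD RW' f' (Sum.map (List.map g') (List.map g) c)
      = Finsupp.mapDomain (Sum.map (List.map g') (List.map g)) (coneD RW f c) := by
  classical
  rcases c with l | l
  · rw [Sum.map_inl, coneD_inl, coneD_inl, bd_map, ← Finsupp.mapDomain_comp,
      ← Finsupp.mapDomain_comp]
    rfl
  · rw [Sum.map_inr, coneD_inr, coneD_inr, bd_map, ← Finsupp.mapDomain_comp]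
    have hm : (l.map g).map f' = (l.map f).map g' := by
      rw [List.map_map, List.map_map]
      apply List.map_congr_left
      intro a _
      exact hf a
    have hp : push RW' f' (l.map g) = Finsupp.mapDomain (List.map g') (push RW f l) := by
      by_cases h : (l.map f).Pairwise RW
      · rw [push_pos h, Finsupp.mapDomain_single, push_pos, hm]
        rw [hm, List.pairwise_map]
        exact h.imp (fun h => (hR _ _).2 h)
      · rw [push_neg h, Finsupp.mapDomain_zero, push_neg]
        intro h'
        apply h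
        rw [hm, List.pairwise_map] at h'
        exact h'.imp (fun h => (hR _ _).1 h)
    rw [hp]
    have hsub : ∀ x y : List W ⊕ List V →₀ ℤ, Finsupp.mapDomain (Sum.map (List.map g') (List.map g))
        (x - y) = Finsupp.mapDomain (Sum.map (List.map g') (List.map g)) x
          - Finsupp.mapDomain (Sum.map (List.map g') (List.map g)) y := by
      intro x y
      exact map_sub (Finsupp.mapDomain.addMonoidHom (Sum.map (List.map g') (List.map g))) x y
    rw [hsub, ← Finsupp.mapDomain_comp, ← Finsupp.mapDomain_comp, ← Finsupp.mapDomain_comp]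
    rfl

end cells

section act
variable {Γ V W : Type} [Group Γ] [MulAction Γ V] [MulAction Γ W]
  {RV : V → V → Prop} {RW : W → W → Prop}

theorem inv_iff {R : V → V → Prop} (h : Inv Γ R) (γ : Γ) (a b : V) :
    R (γ • a) (γ • b) ↔ R a b := by
  refine ⟨fun hh => ?_, h γ a b⟩
  have := h γ⁻¹ _ _ hh
  rwa [inv_smul_smul, inv_smul_smul] at this

theorem cellMap_mul (γ δ : Γ) (c : List W ⊕ List V) :
    cellMap (γ * δ) c = cellMap γ (cellMap δ c) := by
  rcases c with l | l <;>
    simp [cellMap, mul_smul]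

theorem cellMap_one (c : List W ⊕ List V) : cellMap (1 : Γ) c = c := by
  rcases c with l | l <;>
    simp [cellMap]

theorem isCell_cellMap (h1 : Inv Γ RV) (h2 : Inv Γ RW) (γ : Γ) {c : List W ⊕ List V}
    (hc : IsCell RV RW c) : IsCell RV RW (cellMap γ c) := by
  rcases c with l | l
  · refine ⟨fun h => hc.1 (List.map_eq_nil_iff.1 h), ?_⟩
    rw [List.pairwise_map]
    exact hc.2.imp (fun h => h2 γ _ _ h)
  · refine ⟨fun h => hc.1 (List.map_eq_nil_iff.1 h), ?_⟩
    rw [List.pairwise_map]
    exact hc.2.imp (fun h => h1 γ _ _ h)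

theorem cdeg_cellMap (γ : Γ) (c : List W ⊕ List V) : cdeg (cellMap γ c) = cdeg c := by
  rcases c with l | l <;> simp [cellMap, cdeg]

theorem coneD_cellMap {f : V → W} (h2 : Inv Γ RW) (hf : Equi Γ f) (γ : Γ) (c : List W ⊕ List V) :
    coneD RW f (cellMap γ c) = Finsupp.mapDomain (cellMap γ) (coneD RW f c) :=
  coneD_nat (γ • ·) (γ • ·) (fun v => hf γ v) (fun a b => inv_iff h2 γ a b) c

end act

/-! ### Modules over the group ring -/

section gr
variable {Γ V W J : Type} [Group Γ] [MulAction Γ V] [MulAction Γ W] [Fintype J] [DecidableEq J]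
  {RV : V → V → Prop} {RW : W → W → Prop} {r : J → List W ⊕ List V}

/-- The element `Σ_j a_j • r_j`. -/
def Phi (r : J → List W ⊕ List V) (a : J → MonoidAlgebra ℤ Γ) : List W ⊕ List V →₀ ℤ :=
  ∑ j, Finsupp.mapDomain (fun γ => cellMap γ (r j)) (a j).coeff

theorem Phi_add (a b : J → MonoidAlgebra ℤ Γ) : Phi r (a + b) = Phi r a + Phi r b := by
  unfold Phi
  rw [← Finset.sum_add_distrib]
  apply Finset.sum_congr rfl
  intro j _
  rw [Pi.add_apply, MonoidAlgebra.coeff_add, Finsupp.mapDomain_add]

theorem Phi_zero : Phi r (0 : J → MonoidAlgebra ℤ Γ) = 0 := by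
  unfold Phi
  simp

theorem Phi_single (j : J) (γ : Γ) (c : ℤ) :
    Phi r (Pi.single j (MonoidAlgebra.single γ c)) = Finsupp.single (cellMap γ (r j)) c := by
  unfold Phi
  rw [Finset.sum_eq_single j]
  · rw [Pi.single_eq_same, MonoidAlgebra.coeff_single, Finsupp.mapDomain_single]
  · intro k _ hk
    rw [Pi.single_eq_of_ne hk, MonoidAlgebra.coeff_zero, Finsupp.mapDomain_zero]
  · intro h
    exact absurd (Finset.mem_univ j) h

theorem Phi_mul (γ : Γ) (a : J → MonoidAlgebra ℤ Γ) :
    Phi r (fun j => MonoidAlgebra.single γ 1 * a j) = Finsupp.mapDomain (cellMap γ) (Phi r a) := by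
  unfold Phi
  rw [Finsupp.mapDomain_finsetSum]
  apply Finset.sum_congr rfl
  intro j _
  have key : ∀ x : MonoidAlgebra ℤ Γ,
      Finsupp.mapDomain (fun γ => cellMap γ (r j)) (MonoidAlgebra.single γ 1 * x).coeff
        = Finsupp.mapDomain (cellMap γ) (Finsupp.mapDomain (fun γ => cellMap γ (r j)) x.coeff) := by
    intro x
    induction x using MonoidAlgebra.induction_linear with
    | zero => simp
    | add x y hx hy =>
      rw [mul_add, MonoidAlgebra.coeff_add, Finsupp.mapDomain_add, hx, hy, MonoidAlgebra.coeff_add,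
        Finsupp.mapDomain_add, Finsupp.mapDomain_add]
    | single δ c =>
      rw [MonoidAlgebra.single_mul_single, one_mul, MonoidAlgebra.coeff_single,
        MonoidAlgebra.coeff_single, Finsupp.mapDomain_single, Finsupp.mapDomain_single,
        Finsupp.mapDomain_single, cellMap_mul]
  exact key _

/-- A linear map commuting with the action is computed by its matrix. -/
theorem lin_of_matrix (T : (List W ⊕ List V →₀ ℤ) →ₗ[ℤ] (List W ⊕ List V →₀ ℤ))
    (M : Matrix J J (MonoidAlgebra ℤ Γ))
    (hT : ∀ j (γ : Γ), T (Finsupp.single (cellMap γ (r j)) 1)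
      = Phi r (fun k => MonoidAlgebra.single γ 1 * M j k)) (a : J → MonoidAlgebra ℤ Γ) :
    T (Phi r a) = Phi r (a ᵥ* M) := by
  have h1 : ∀ (j : J) (x : MonoidAlgebra ℤ Γ), T (Phi r (Pi.single j x)) = Phi r (fun k => x * M j k) := by
    intro j x
    induction x using MonoidAlgebra.induction_linear with
    | zero =>
      rw [Pi.single_zero, Phi_zero, map_zero]
      have : (fun k => (0 : MonoidAlgebra ℤ Γ) * M j k) = 0 := by funext k; simp
      rw [this, Phi_zero]
    | add x y hx hy =>
      rw [Pi.single_add, Phi_add, map_add, hx, hy, ← Phi_add]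
      congr 1
      funext k
      simp [add_mul]
    | single δ c =>
      have e1 : (MonoidAlgebra.single δ c : MonoidAlgebra ℤ Γ) = c • MonoidAlgebra.single δ 1 := by
        rw [MonoidAlgebra.smul_single, smul_eq_mul, mul_one]
      have e2 : Phi r (fun k => MonoidAlgebra.single δ c * M j k)
          = c • Phi r (fun k => MonoidAlgebra.single δ 1 * M j k) := by
        unfold Phi
        rw [Finset.smul_sum]
        apply Finset.sum_congr rfl
        intro k _
        change Finsupp.mapDomain (fun γ => cellMap γ (r k)) (MonoidAlgebra.single δ c * M j k).coeff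
          = c • Finsupp.mapDomain (fun γ => cellMap γ (r k)) (MonoidAlgebra.single δ 1 * M j k).coeff
        rw [e1, smul_mul_assoc, MonoidAlgebra.coeff_smul, Finsupp.mapDomain_smul]
      rw [Phi_single, e2, ← hT j δ, ← map_smul, Finsupp.smul_single, smul_eq_mul, mul_one]
  have h2 : a = ∑ j, Pi.single j (a j) := by
    funext k
    rw [Finset.sum_apply]
    simp [Pi.single_apply]
  have hsum : ∀ (s : Finset J) (g : J → J → MonoidAlgebra ℤ Γ),
      Phi r (∑ j ∈ s, g j) = ∑ j ∈ s, Phi r (g j) := by
    intro s g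
    classical
    induction s using Finset.induction_on with
    | empty => simp [Phi_zero]
    | insert a s ha ih => rw [Finset.sum_insert ha, Finset.sum_insert ha, Phi_add, ih]
  have h3 : a ᵥ* M = ∑ j, fun k => a j * M j k := by
    funext k
    rw [Finset.sum_apply]
    rfl
  rw [h3, hsum]
  conv_lhs => rw [h2]
  rw [hsum, map_sum]
  apply Finset.sum_congr rfl
  intro j _
  exact h1 j (a j)

end gr

section main
variable {Γ V W J : Type} [Group Γ] [MulAction Γ V] [MulAction Γ W] [Fintype J] [DecidableEq J]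
  {RV : V → V → Prop} {RW : W → W → Prop} {r : J → List W ⊕ List V} {f : V → W}

theorem reps_inj (hr : IsReps Γ RV RW r) (h1 : Inv Γ RV) (h2 : Inv Γ RW) {γ δ : Γ} {j k : J}
    (h : cellMap γ (r j) = cellMap δ (r k)) : γ = δ ∧ j = k := by
  obtain ⟨p, hp, hu⟩ := hr.2 (cellMap γ (r j)) (isCell_cellMap h1 h2 γ (hr.1 j))
  have e1 := hu (γ, j) rfl
  have e2 := hu (δ, k) h.symm
  have := e1.trans e2.symm
  exact ⟨congrArg Prod.fst this, congrArg Prod.snd this⟩

theorem Phi_apply (hr : IsReps Γ RV RW r) (h1 : Inv Γ RV) (h2 : Inv Γ RW)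
    (a : J → MonoidAlgebra ℤ Γ) (δ : Γ) (k : J) :
    Phi r a (cellMap δ (r k)) = (a k).coeff δ := by
  unfold Phi
  rw [Finsupp.finsetSum_apply, Finset.sum_eq_single k]
  · have hinj : Function.Injective (fun γ : Γ => cellMap γ (r k)) :=
      fun γ γ' h => (reps_inj hr h1 h2 h).1
    exact Finsupp.mapDomain_apply hinj _ δ
  · intro j _ hj
    apply Finsupp.mapDomain_of_notMem_range
    rintro ⟨γ, hγ⟩
    exact hj (reps_inj hr h1 h2 hγ).2
  · intro h
    exact absurd (Finset.mem_univ k) h

theorem Phi_noncell (hr : IsReps Γ RV RW r) (h1 : Inv Γ RV) (h2 : Inv Γ RW)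
    (a : J → MonoidAlgebra ℤ Γ) {c : List W ⊕ List V} (hc : ¬ IsCell RV RW c) :
    Phi r a c = 0 := by
  unfold Phi
  rw [Finsupp.finsetSum_apply]
  apply Finset.sum_eq_zero
  intro j _
  apply Finsupp.mapDomain_of_notMem_range
  rintro ⟨γ, rfl⟩
  exact hc (isCell_cellMap h1 h2 γ (hr.1 j))

theorem coneMat_coeff (hr : IsReps Γ RV RW r) (h1 : Inv Γ RV) (h2 : Inv Γ RW) (j k : J) (δ : Γ) :
    (coneMat Γ RW f r j k).coeff δ = coneD RW f (r j) (cellMap δ (r k)) := by
  classical
  unfold coneMat
  have hfin : (Function.support fun γ : Γ =>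
      (MonoidAlgebra.single γ (coneD RW f (r j) (cellMap γ (r k))) : MonoidAlgebra ℤ Γ)).Finite := by
    have h3 : ((coneD RW f (r j)).support : Set (List W ⊕ List V)).Finite :=
      Finset.finite_toSet _
    refine (h3.preimage (f := fun γ : Γ => cellMap γ (r k)) ?_).subset ?_
    · intro γ _ γ' _ h
      exact (reps_inj hr h1 h2 h).1
    · intro γ hγ
      simp only [Set.mem_preimage, Finset.mem_coe, Finsupp.mem_support_iff]
      intro h0
      apply hγ
      change (MonoidAlgebra.single γ (coneD RW f (r j) (cellMap γ (r k))) : MonoidAlgebra ℤ Γ) = 0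
      rw [h0, MonoidAlgebra.single_zero]
  let ev : MonoidAlgebra ℤ Γ →+ ℤ :=
    { toFun := fun x => x.coeff δ
      map_zero' := rfl
      map_add' := fun x y => by rw [MonoidAlgebra.coeff_add, Finsupp.add_apply] }
  have := ev.map_finsum hfin
  change ev _ = _
  rw [this, finsum_eq_single _ δ]
  · change (MonoidAlgebra.single δ (coneD RW f (r j) (cellMap δ (r k))) : MonoidAlgebra ℤ Γ).coeff δ
      = _
    rw [MonoidAlgebra.coeff_single, Finsupp.single_eq_same]
  · intro γ hγ
    change (MonoidAlgebra.single γ (coneD RW f (r j) (cellMap γ (r k))) : MonoidAlgebra ℤ Γ).coeff δ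
      = 0
    rw [MonoidAlgebra.coeff_single, Finsupp.single_eq_of_ne (Ne.symm hγ)]

theorem coneD_eq_Phi (hr : IsReps Γ RV RW r) (h1 : Inv Γ RV) (h2 : Inv Γ RW) (hf : Equi Γ f)
    (j : J) (γ : Γ) :
    coneD RW f (cellMap γ (r j)) = Phi r (fun k => MonoidAlgebra.single γ 1 * coneMat Γ RW f r j k) := by
  rw [Phi_mul, coneD_cellMap h2 hf]
  congr 1
  ext c
  by_cases hc : IsCell RV RW c
  · obtain ⟨p, hp, _⟩ := hr.2 c hc
    change cellMap p.1 (r p.2) = c at hp
    rw [← hp, Phi_apply hr h1 h2, coneMat_coeff hr h1 h2]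
  · rw [Phi_noncell hr h1 h2 _ hc]
    by_contra h
    exact hc (isCell_of_coneD (hr.1 j) h)

open Classical in
/-- The contraction as a map on cells. -/
def s0 (r : J → List W ⊕ List V) (S : Matrix J J (MonoidAlgebra ℤ Γ)) (c : List W ⊕ List V) :
    List W ⊕ List V →₀ ℤ :=
  if h : ∃ p : Γ × J, cellMap p.1 (r p.2) = c then
    Phi r (fun k => MonoidAlgebra.single h.choose.1 1 * S h.choose.2 k) else 0

theorem s0_eq (hr : IsReps Γ RV RW r) (h1 : Inv Γ RV) (h2 : Inv Γ RW)
    (S : Matrix J J (MonoidAlgebra ℤ Γ)) (j : J) (γ : Γ) :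
    s0 r S (cellMap γ (r j)) = Phi r (fun k => MonoidAlgebra.single γ 1 * S j k) := by
  classical
  have h : ∃ p : Γ × J, cellMap p.1 (r p.2) = cellMap γ (r j) := ⟨(γ, j), rfl⟩
  unfold s0
  rw [dif_pos h]
  obtain ⟨e1, e2⟩ := reps_inj hr h1 h2 h.choose_spec
  rw [e1, e2]

/-- The contraction identity on the free abelian group on the cells. -/
theorem contr_id (hr : IsReps Γ RV RW r) (h1 : Inv Γ RV) (h2 : Inv Γ RW) (hf : Equi Γ f)
    (S : Matrix J J (MonoidAlgebra ℤ Γ))
    (hS : coneMat Γ RW f r * S + S * coneMat Γ RW f r = 1) (c : List W ⊕ List V)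
    (hc : IsCell RV RW c) :
    lx (s0 r S) (coneD RW f c) + lx (coneD RW f) (s0 r S c) = Finsupp.single c 1 := by
  obtain ⟨⟨γ, j⟩, hp, _⟩ := hr.2 c hc
  change cellMap γ (r j) = c at hp
  have hd : ∀ a : J → MonoidAlgebra ℤ Γ, lx (coneD RW f) (Phi r a)
      = Phi r (a ᵥ* coneMat Γ RW f r) := fun a => by
    apply lin_of_matrix
    intro j γ
    rw [lx_single, one_smul, coneD_eq_Phi hr h1 h2 hf]
  have hs : ∀ a : J → MonoidAlgebra ℤ Γ, lx (s0 r S) (Phi r a) = Phi r (a ᵥ* S) := fun a => by
    apply lin_of_matrix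
    intro j γ
    rw [lx_single, one_smul, s0_eq hr h1 h2]
  have e1 : Finsupp.single c (1 : ℤ) = Phi r (Pi.single j (MonoidAlgebra.single γ 1)) := by
    rw [Phi_single, hp]
  have e2 : coneD RW f c = lx (coneD RW f) (Phi r (Pi.single j (MonoidAlgebra.single γ 1))) := by
    rw [← e1, lx_single, one_smul]
  have e3 : s0 r S c = lx (s0 r S) (Phi r (Pi.single j (MonoidAlgebra.single γ 1))) := by
    rw [← e1, lx_single, one_smul]
  rw [e2, e3, hd, hs, hs, hd, ← Phi_add, Matrix.vecMul_vecMul, Matrix.vecMul_vecMul,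
    ← Matrix.vecMul_add, hS, Matrix.vecMul_one, e1]

end main

/-! ### The retraction -/

section push2
variable {V1 V2 V3 : Type}

theorem push_push {R1 : V1 → V1 → Prop} {R2 : V2 → V2 → Prop} {R3 : V3 → V3 → Prop} {f : V1 → V2}
    {g : V2 → V3} (h : ∀ a b, R1 a b → R3 (g (f a)) (g (f b)) → R2 (f a) (f b)) (l : List V1)
    (hl : l.Pairwise R1) :
    lx (push R3 g) (push R2 f l) = push R3 (fun x => g (f x)) l := by
  by_cases h3 : (l.map (fun x => g (f x))).Pairwise R3
  · have h2 : (l.map f).Pairwise R2 := by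
      rw [List.pairwise_map] at h3 ⊢
      exact (hl.and h3).imp (fun hh => h _ _ hh.1 hh.2)
    rw [push_pos h2, push_pos h3, lx_single, one_smul, push_pos, List.map_map]
    · rfl
    · rw [List.map_map]; exact h3
  · rw [push_neg h3]
    by_cases h2 : (l.map f).Pairwise R2
    · rw [push_pos h2, lx_single, one_smul, push_neg]
      rw [List.map_map]; exact h3
    · rw [push_neg h2, map_zero]

theorem lx_mapDomain {A B C : Type} (g : B → (C →₀ ℤ)) (e : A → B) (x : A →₀ ℤ) :
    lx g (Finsupp.mapDomain e x) = lx (fun a => g (e a)) x := by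
  rw [lx, Finsupp.linearCombination_mapDomain]
  rfl

theorem mapDomain_lx {A B C : Type} (g : A → (B →₀ ℤ)) (e : B → C) (x : A →₀ ℤ) :
    Finsupp.mapDomain e (lx g x) = lx (fun a => Finsupp.mapDomain e (g a)) x := by
  induction x using Finsupp.induction_linear with
  | zero => simp
  | add x y hx hy => rw [map_add, Finsupp.mapDomain_add, hx, hy, map_add]
  | single a c => rw [lx_single, lx_single, Finsupp.mapDomain_smul]

theorem lx_congr {A B : Type} {g g' : A → (B →₀ ℤ)} {x : A →₀ ℤ}
    (h : ∀ a ∈ x.support, g a = g' a) : lx g x = lx g' x := by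
  rw [lx, lx, Finsupp.linearCombination_apply, Finsupp.linearCombination_apply]
  apply Finsupp.sum_congr
  intro a ha
  rw [h a ha]

theorem lx_lx {A B C : Type} (g : B → (C →₀ ℤ)) (e : A → (B →₀ ℤ)) (x : A →₀ ℤ) :
    lx g (lx e x) = lx (fun a => lx g (e a)) x := by
  induction x using Finsupp.induction_linear with
  | zero => simp
  | add x y hx hy => rw [map_add, map_add, hx, hy, map_add]
  | single a c => rw [lx_single, lx_single, map_smul]

theorem lx_apply_ne {A B : Type} {g : A → (B →₀ ℤ)} {x : A →₀ ℤ} {b : B} (h : lx g x b ≠ 0) :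
    ∃ a, x a ≠ 0 ∧ g a b ≠ 0 := by
  rw [lx, Finsupp.linearCombination_apply, Finsupp.sum, Finsupp.finsetSum_apply] at h
  obtain ⟨a, ha, hne⟩ := Finset.exists_ne_zero_of_sum_ne_zero h
  refine ⟨a, Finsupp.mem_support_iff.1 ha, ?_⟩
  intro h0
  apply hne
  rw [Finsupp.smul_apply, h0, smul_zero]

end push2

section retr
variable {V K K' : Type} {RV : V → V → Prop} {RK : K → K → Prop} {RK' : K' → K' → Prop}
  {f : K' → K}

/-- The projection of the cells. -/
def rho (RK : K → K → Prop) (RK' : K' → K' → Prop) :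
    List (V × K) ⊕ List (V × K') → (List K ⊕ List K' →₀ ℤ)
  | Sum.inl l => Finsupp.mapDomain Sum.inl (push RK Prod.snd l)
  | Sum.inr l => Finsupp.mapDomain Sum.inr (push RK' Prod.snd l)

/-- The inclusion of the cells. -/
def iot (v : V) : List K ⊕ List K' → List (V × K) ⊕ List (V × K') :=
  Sum.map (List.map (fun k => (v, k))) (List.map (fun k => (v, k)))

theorem asym_prodR (hV : Asym RV) (hK : Asym RK) : Asym (prodR RV RK) := by
  rintro ⟨a, b⟩ ⟨c, d⟩ ⟨h0, h1, h2⟩ ⟨_, h3, h4⟩
  apply h0
  have e1 : a = c := by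
    rcases h1 with h1 | h1
    · exact h1
    · rcases h3 with h3 | h3
      · exact h3.symm
      · exact absurd h3 (hV _ _ h1)
  have e2 : b = d := by
    rcases h2 with h2 | h2
    · exact h2
    · rcases h4 with h4 | h4
      · exact h4.symm
      · exact absurd h4 (hK _ _ h2)
  exact Prod.ext e1 e2

theorem simp_snd : IsSimp (prodR RV RK) RK (Prod.snd : V × K → K) := fun _ _ h => h.2.2

theorem rho_chain (hV : Asym RV) (hK : Asym RK) (hK' : Asym RK')
    (c : List (V × K) ⊕ List (V × K')) (hc : IsCell (prodR RV RK') (prodR RV RK) c) :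
    lx (rho RK RK') (coneD (prodR RV RK) (Prod.map id f) c) = lx (coneD RK f) (rho RK RK' c) := by
  rcases c with l | l
  · rw [coneD_inl, lx_mapDomain]
    change lx (fun a => Finsupp.mapDomain Sum.inl (push RK Prod.snd a)) (bd l)
      = lx (coneD RK f) (Finsupp.mapDomain Sum.inl (push RK Prod.snd l))
    rw [← mapDomain_lx, lx_mapDomain, push_chain (asym_prodR hV hK) hK simp_snd l hc.2,
      mapDomain_lx]
    rfl
  · rw [coneD_inr, map_sub, lx_mapDomain, lx_mapDomain]
    change lx (fun a => Finsupp.mapDomain Sum.inl (push RK Prod.snd a))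
        (push (prodR RV RK) (Prod.map id f) l)
      - lx (fun a => Finsupp.mapDomain Sum.inr (push RK' Prod.snd a)) (bd l)
      = lx (coneD RK f) (Finsupp.mapDomain Sum.inr (push RK' Prod.snd l))
    rw [← mapDomain_lx, ← mapDomain_lx, lx_mapDomain,
      push_chain (asym_prodR hV hK') hK' simp_snd l hc.2]
    have e1 : lx (push RK Prod.snd) (push (prodR RV RK) (Prod.map id f) l)
        = push RK (fun x : V × K' => f x.2) l := by
      apply push_push (R1 := prodR RV RK') _ l hc.2
      rintro a b ⟨h0, h1, h2⟩ h3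
      refine ⟨?_, h1, Or.inr h3⟩
      intro h4
      change RK (f a.2) (f b.2) at h3
      have : f a.2 = f b.2 := congrArg Prod.snd h4
      rw [this] at h3
      exact hK _ _ h3 h3
    have e2 : lx (push RK f) (push RK' Prod.snd l) = push RK (fun x : V × K' => f x.2) l := by
      apply push_push (R1 := prodR RV RK') _ l hc.2
      rintro a b ⟨h0, h1, h2⟩ h3
      rcases h2 with h2 | h2
      · exfalso
        rw [h2] at h3
        exact hK _ _ h3 h3
      · exact h2
    rw [e1, ← e2]
    have e3 : ∀ x : List K' →₀ ℤ, lx (fun a => coneD RK f (Sum.inr a)) x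
        = Finsupp.mapDomain Sum.inl (lx (push RK f) x) - Finsupp.mapDomain Sum.inr (lx bd x) := by
      intro x
      rw [mapDomain_lx, mapDomain_lx]
      induction x using Finsupp.induction_linear with
      | zero => simp
      | add x y hx hy => rw [map_add, map_add, map_add, hx, hy]; abel
      | single a c =>
        rw [lx_single, lx_single, lx_single, coneD_inr, smul_sub]
    rw [e3]

theorem rho_iot (hK : Asym RK) (hK' : Asym RK') (v : V) (c : List K ⊕ List K')
    (hc : IsCell RK' RK c) : rho RK RK' (iot v c) = Finsupp.single c 1 := by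
  have hm : ∀ {A : Type} (l : List A), (l.map (fun k => (v, k))).map Prod.snd = l := by
    intro A l
    rw [List.map_map]
    exact List.map_id l
  rcases c with l | l
  · change Finsupp.mapDomain Sum.inl (push RK Prod.snd (l.map (fun k => (v, k)))) = _
    rw [push_pos (by rw [hm]; exact hc.2), hm, Finsupp.mapDomain_single]
  · change Finsupp.mapDomain Sum.inr (push RK' Prod.snd (l.map (fun k => (v, k)))) = _
    rw [push_pos (by rw [hm]; exact hc.2), hm, Finsupp.mapDomain_single]

theorem isCell_iot (hK : Asym RK) (hK' : Asym RK') (v : V) (c : List K ⊕ List K')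
    (hc : IsCell RK' RK c) : IsCell (prodR RV RK') (prodR RV RK) (iot v c) := by
  have aux : ∀ {A : Type} {R : A → A → Prop} (_ : Asym R) (l : List A), l.Pairwise R →
      (l.map (fun k => (v, k))).Pairwise (prodR RV R) := by
    intro A R hR l hl
    rw [List.pairwise_map]
    refine hl.imp ?_
    intro a b h
    refine ⟨?_, Or.inl rfl, Or.inr h⟩
    intro h'
    have : a = b := congrArg Prod.snd h'
    rw [this] at h
    exact hR _ _ h h
  rcases c with l | l
  · exact ⟨fun h => hc.1 (List.map_eq_nil_iff.1 h), aux hK l hc.2⟩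
  · exact ⟨fun h => hc.1 (List.map_eq_nil_iff.1 h), aux hK' l hc.2⟩

theorem cdeg_iot (v : V) (c : List K ⊕ List K') :
    cdeg (iot v c : List (V × K) ⊕ List (V × K')) = cdeg c := by
  rcases c with l | l <;> simp [iot, cdeg]

theorem coneD_iot (hK : Asym RK) (v : V) (c : List K ⊕ List K') :
    coneD (prodR RV RK) (Prod.map id f) (iot v c : List (V × K) ⊕ List (V × K'))
      = Finsupp.mapDomain (iot v) (coneD RK f c) := by
  apply coneD_nat
  · intro v; rfl
  · intro a b
    constructor
    · rintro ⟨h0, _, h2⟩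
      rcases h2 with h2 | h2
      · exfalso
        apply h0
        change a = b at h2
        rw [h2]
      · exact h2
    · intro h
      refine ⟨?_, Or.inl rfl, Or.inr h⟩
      intro h'
      have : a = b := congrArg Prod.snd h'
      rw [this] at h
      exact hK _ _ h h

theorem rho_support {c : List (V × K) ⊕ List (V × K')} {c' : List K ⊕ List K'}
    (hc : IsCell (prodR RV RK') (prodR RV RK) c) (h : rho RK RK' c c' ≠ 0) :
    IsCell RK' RK c' ∧ cdeg c' = cdeg c := by
  classical
  rcases c with l | l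
  · change Finsupp.mapDomain Sum.inl (push RK Prod.snd l) c' ≠ 0 at h
    by_cases hp : (l.map Prod.snd).Pairwise RK
    · rw [push_pos hp, Finsupp.mapDomain_single, Finsupp.single_apply] at h
      by_cases e : Sum.inl (l.map Prod.snd) = c'
      · rw [← e]
        refine ⟨⟨fun h => hc.1 (List.map_eq_nil_iff.1 h), hp⟩, ?_⟩
        simp [cdeg]
      · rw [if_neg e] at h
        exact absurd rfl h
    · rw [push_neg hp] at h
      simp at h
  · change Finsupp.mapDomain Sum.inr (push RK' Prod.snd l) c' ≠ 0 at h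
    by_cases hp : (l.map Prod.snd).Pairwise RK'
    · rw [push_pos hp, Finsupp.mapDomain_single, Finsupp.single_apply] at h
      by_cases e : Sum.inr (l.map Prod.snd) = c'
      · rw [← e]
        refine ⟨⟨fun h => hc.1 (List.map_eq_nil_iff.1 h), hp⟩, ?_⟩
        simp [cdeg]
      · rw [if_neg e] at h
        exact absurd rfl h
    · rw [push_neg hp] at h
      simp at h

end retr

theorem finite_cells {K K' : Type} [Fintype K] [Fintype K'] [DecidableEq K] [DecidableEq K']
    {RK : K → K → Prop} {RK' : K' → K' → Prop} (hK : Asym RK) (hK' : Asym RK') :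
    {c : List K ⊕ List K' | IsCell RK' RK c}.Finite := by
  have nod : ∀ {A : Type} [Fintype A] [DecidableEq A] {R : A → A → Prop}, Asym R →
      {l : List A | l.Pairwise R}.Finite := by
    intro A _ _ R hR
    have h1 : {l : List A | l.Nodup}.Finite := by
      have : Fintype {l : List A // l.Nodup} := fintypeNodupList
      exact Set.finite_coe_iff.1 (inferInstanceAs (Finite {l : List A // l.Nodup}))
    refine h1.subset ?_
    intro l hl
    refine List.Pairwise.imp ?_ hl
    intro a b h e
    rw [e] at h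
    exact hR _ _ h h
  have h1 := (nod hK).image (Sum.inl : List K → List K ⊕ List K')
  have h2 := (nod hK').image (Sum.inr : List K' → List K ⊕ List K')
  refine (h1.union h2).subset ?_
  rintro (l | l) hl
  · exact Or.inl ⟨l, hl.2, rfl⟩
  · exact Or.inr ⟨l, hl.2, rfl⟩

end C4

open C4 in
theorem stC4 : StC4 := by
  classical
  intro Γ V K K' _ _ _ _ hne _ _ _ _ RV RK RK' f hV hK hK' iV iK iK' hf ef J _ _ r hr S hS
  obtain ⟨v⟩ := hne
  have iP : Inv Γ (prodR RV RK) := by
    rintro γ a b ⟨h0, h1, h2⟩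
    refine ⟨fun h => h0 (smul_left_cancel γ h), ?_, ?_⟩
    · rcases h1 with h1 | h1
      · exact Or.inl (congrArg (γ • ·) h1)
      · exact Or.inr (iV γ _ _ h1)
    · rcases h2 with h2 | h2
      · exact Or.inl (congrArg (γ • ·) h2)
      · exact Or.inr (iK γ _ _ h2)
  have iP' : Inv Γ (prodR RV RK') := by
    rintro γ a b ⟨h0, h1, h2⟩
    refine ⟨fun h => h0 (smul_left_cancel γ h), ?_, ?_⟩
    · rcases h1 with h1 | h1
      · exact Or.inl (congrArg (γ • ·) h1)
      · exact Or.inr (iV γ _ _ h1)
    · rcases h2 with h2 | h2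
      · exact Or.inl (congrArg (γ • ·) h2)
      · exact Or.inr (iK' γ _ _ h2)
  have eF : Equi Γ (Prod.map id f : V × K' → V × K) := by
    rintro γ ⟨a, b⟩
    apply Prod.ext
    · rfl
    · exact ef γ b
  set B : Finset (List K ⊕ List K') := (finite_cells hK hK').toFinset with hB
  have memB : ∀ c, c ∈ B ↔ IsCell RK' RK c := by
    intro c
    rw [hB, Set.Finite.mem_toFinset]
    rfl
  refine ⟨B, memB, ?_⟩
  set s1 : List K ⊕ List K' → (List K ⊕ List K' →₀ ℤ) := fun c =>
    lx (rho RK RK') (s0 r S (iot v c)) with hs1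
  -- support of `s0`
  have s0sup : ∀ (c : List (V × K) ⊕ List (V × K')), IsCell (prodR RV RK') (prodR RV RK) c →
      ∀ c', s0 r S c c' ≠ 0 → IsCell (prodR RV RK') (prodR RV RK) c' ∧ cdeg c' = cdeg c + 1 := by
    intro c hc c' h
    obtain ⟨⟨γ, j⟩, hp, _⟩ := hr.2 c hc
    change cellMap γ (r j) = c at hp
    rw [← hp, s0_eq hr iP' iP, Phi_mul] at h
    by_cases hc' : IsCell (prodR RV RK') (prodR RV RK) c'
    · refine ⟨hc', ?_⟩
      obtain ⟨⟨δ, k⟩, hq, _⟩ := hr.2 c' hc'
      change cellMap δ (r k) = c' at hq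
      have e : c' = cellMap γ (cellMap (γ⁻¹ * δ) (r k)) := by
        rw [← cellMap_mul, mul_inv_cancel_left, hq]
      have hinj : Function.Injective (cellMap γ :
          List (V × K) ⊕ List (V × K') → List (V × K) ⊕ List (V × K')) := by
        intro x y hxy
        have := congrArg (cellMap γ⁻¹) hxy
        rwa [← cellMap_mul, ← cellMap_mul, inv_mul_cancel, cellMap_one, cellMap_one] at this
      rw [e, Finsupp.mapDomain_apply hinj, Phi_apply hr iP' iP] at h
      have hS0 : S j k ≠ 0 := by
        intro h0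
        apply h
        rw [h0]
        rfl
      have := hS.deg_S j k hS0
      rw [← hp, ← hq, cdeg_cellMap, cdeg_cellMap]
      exact this
    · exfalso
      rw [← Phi_mul] at h
      exact h (Phi_noncell hr iP' iP _ hc')
  have s1sup : ∀ c, IsCell RK' RK c → ∀ c', s1 c c' ≠ 0 → IsCell RK' RK c' ∧ cdeg c' = cdeg c + 1 := by
    intro c hc c' h
    obtain ⟨x, hx1, hx2⟩ := lx_apply_ne h
    obtain ⟨hx3, hx4⟩ := s0sup _ (isCell_iot hK hK' v c hc) x hx1
    obtain ⟨h5, h6⟩ := rho_support hx3 hx2
    refine ⟨h5, ?_⟩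
    rw [h6, hx4, cdeg_iot]
  -- the identity
  have ident : ∀ c, IsCell RK' RK c →
      lx s1 (coneD RK f c) + lx (coneD RK f) (s1 c) = Finsupp.single c 1 := by
    intro c hc
    have e1 : lx s1 (coneD RK f c) = lx (rho RK RK') (lx (s0 r S)
        (coneD (prodR RV RK) (Prod.map id f) (iot v c))) := by
      rw [coneD_iot hK, lx_mapDomain, lx_lx]
    have e2 : lx (coneD RK f) (s1 c) = lx (rho RK RK')
        (lx (coneD (prodR RV RK) (Prod.map id f)) (s0 r S (iot v c))) := by
      rw [hs1]
      simp only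
      rw [lx_lx, lx_lx]
      apply lx_congr
      intro x hx
      rw [Finsupp.mem_support_iff] at hx
      exact (rho_chain hV hK hK' x (s0sup _ (isCell_iot hK hK' v c hc) x hx).1).symm
    rw [e1, e2, ← map_add, contr_id hr iP' iP eF S hS.eq _ (isCell_iot hK hK' v c hc), lx_single,
      one_smul, rho_iot hK hK' v c hc]
  refine ⟨Matrix.of fun i j => s1 i.1 j.1, ?_, ?_⟩
  · intro i j h
    exact (s1sup i.1 ((memB _).1 i.2) j.1 h).2
  · ext i k
    have hi := (memB _).1 i.2
    rw [Matrix.add_apply, Matrix.mul_apply, Matrix.mul_apply]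
    have e1 : ∑ j : B, coD RK f i.1 j.1 * s1 j.1 k.1 = lx s1 (coneD RK f i.1) k.1 := by
      rw [Finset.sum_coe_sort B (fun j => coD RK f i.1 j * s1 j k.1), lx,
        Finsupp.linearCombination_apply, Finsupp.sum, Finsupp.finsetSum_apply]
      symm
      apply Finset.sum_subset
      · intro j hj
        rw [memB]
        exact isCell_of_coneD hi (Finsupp.mem_support_iff.1 hj)
      · intro j _ hj
        rw [Finsupp.notMem_support_iff] at hj
        rw [hj, zero_smul, Finsupp.zero_apply]
    have e2 : ∑ j : B, s1 i.1 j.1 * coD RK f j.1 k.1 = lx (coneD RK f) (s1 i.1) k.1 := by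
      rw [Finset.sum_coe_sort B (fun j => s1 i.1 j * coD RK f j k.1), lx,
        Finsupp.linearCombination_apply, Finsupp.sum, Finsupp.finsetSum_apply]
      symm
      apply Finset.sum_subset
      · intro j hj
        rw [memB]
        exact (s1sup i.1 hi j (Finsupp.mem_support_iff.1 hj)).1
      · intro j _ hj
        rw [Finsupp.notMem_support_iff] at hj
        rw [hj, zero_smul, Finsupp.zero_apply]
    have e3 : (1 : Matrix B B ℤ) i k = (Finsupp.single i.1 (1 : ℤ)) k.1 := by
      rw [Matrix.one_apply, Finsupp.single_apply]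
      by_cases h : i = k
      · rw [if_pos h, if_pos (congrArg Subtype.val h)]
      · rw [if_neg h, if_neg (fun h' => h (Subtype.ext h'))]
    rw [e3, ← ident i.1 hi, Finsupp.add_apply]
    change ∑ j : B, coD RK f i.1 j.1 * s1 j.1 k.1 + ∑ j : B, s1 i.1 j.1 * coD RK f j.1 k.1 = _
    rw [e1, e2]

end Pool.Agent.Lib.MP_39dc45_gt.SP
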