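import Pool.Agent.Lib.MP_39dc45_gt.SP.StA

/-!
# MP_39dc45_gt: the push map is a chain map (linear form)
-/

open Matrix

noncomputable section

namespace Pool.Agent.Lib.MP_39dc45_gt.SP

namespace C4

/-- Linear extension. -/
abbrev lx {A B : Type} (g : A → (B →₀ ℤ)) : (A →₀ ℤ) →ₗ[ℤ] (B →₀ ℤ) :=
  Finsupp.linearCombination ℤ g

theorem lx_single {A B : Type} (g : A → (B →₀ ℤ)) (a : A) (c : ℤ) :
    lx g (Finsupp.single a c) = c • g a := by
  simp [lx]

section lists
variable {V W : Type}

theorem bdA_nil : bdA ([] : List V) = 0 := by simp [bdA]

theorem bdA_cons (a : V) (l : List V) :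
    bdA (a :: l) = Finsupp.single l 1 - Finsupp.mapDomain (List.cons a) (bdA l) := by
  unfold bdA
  rw [List.length_cons, Finset.sum_range_succ', Finsupp.mapDomain_finsetSum]
  simp only [List.eraseIdx_cons_succ, List.eraseIdx_cons_zero, pow_zero, Finsupp.mapDomain_single]
  rw [add_comm, sub_eq_add_neg, ← Finset.sum_neg_distrib]
  congr 1
  apply Finset.sum_congr rfl
  intro i _
  rw [pow_succ, mul_neg, mul_one, Finsupp.single_neg]

theorem bd_eq_bdA {l : List V} (h : 2 ≤ l.length) : bd l = bdA l := by
  unfold bd bdA
  rw [if_neg (by omega)]

theorem bd_short {l : List V} (h : l.length ≤ 1) : bd l = 0 := by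
  unfold bd
  rw [if_pos h]

theorem bdA_map (g : V → W) (l : List V) :
    bdA (l.map g) = Finsupp.mapDomain (List.map g) (bdA l) := by
  unfold bdA
  rw [Finsupp.mapDomain_finsetSum, List.length_map]
  apply Finset.sum_congr rfl
  intro i _
  rw [Finsupp.mapDomain_single, List.eraseIdx_map]

theorem bd_map (g : V → W) (l : List V) :
    bd (l.map g) = Finsupp.mapDomain (List.map g) (bd l) := by
  by_cases h : l.length ≤ 1
  · rw [bd_short h, bd_short (by simpa using h), Finsupp.mapDomain_zero]
  · rw [bd_eq_bdA (l := l) (by omega), bd_eq_bdA (l := l.map g) (by rw [List.length_map]; omega),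
      bdA_map]

open Classical in
/-- Prepend `w` if the result is a simplex. -/
def cw (R : W → W → Prop) (w : W) (l : List W) : List W →₀ ℤ :=
  if (w :: l).Pairwise R then Finsupp.single (w :: l) 1 else 0

open Classical in
theorem push_pos {R : W → W → Prop} {f : V → W} {l : List V} (h : (l.map f).Pairwise R) :
    push R f l = Finsupp.single (l.map f) 1 := by
  unfold push; rw [if_pos h]

open Classical in
theorem push_neg {R : W → W → Prop} {f : V → W} {l : List V} (h : ¬ (l.map f).Pairwise R) :
    push R f l = 0 := by
  unfold push; rw [if_neg h]

theorem push_cons (R : W → W → Prop) (f : V → W) (a : V) (l : List V) :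
    push R f (a :: l) = lx (cw R (f a)) (push R f l) := by
  classical
  by_cases h : (l.map f).Pairwise R
  · rw [push_pos h, lx_single, one_smul]
    unfold cw
    by_cases h' : ((a :: l).map f).Pairwise R
    · rw [push_pos h', if_pos (by simpa using h')]
      rfl
    · rw [push_neg h', if_neg (by simpa using h')]
  · rw [push_neg h, map_zero, push_neg]
    intro h'
    rw [List.map_cons, List.pairwise_cons] at h'
    exact h h'.2

theorem push_map_cons (R : W → W → Prop) (f : V → W) (a : V) (x : List V →₀ ℤ) :
    lx (push R f) (Finsupp.mapDomain (List.cons a) x) = lx (cw R (f a)) (lx (push R f) x) := by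
  induction x using Finsupp.induction_linear with
  | zero => simp
  | add x y hx hy => rw [Finsupp.mapDomain_add, map_add, map_add, map_add, hx, hy]
  | single l c =>
    rw [Finsupp.mapDomain_single, lx_single, lx_single, map_smul, push_cons]

/-- The augmented boundary, extended linearly. -/
theorem push_chainA {RV : V → V → Prop} {RW : W → W → Prop} (hV : Asym RV) (hW : Asym RW)
    {f : V → W} (hf : IsSimp RV RW f) (l : List V) (hl : l.Pairwise RV) :
    lx (push RW f) (bdA l) = lx bdA (push RW f l) := by
  induction l with
  | nil =>
    rw [bdA_nil, map_zero, push_pos (by simp), lx_single]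
    simp [bdA_nil]
  | cons a l ih =>
    rw [List.pairwise_cons] at hl
    have ih' := ih hl.2
    rw [bdA_cons, map_sub, push_map_cons, ih', lx_single, one_smul]
    by_cases h1 : (l.map f).Pairwise RW
    · by_cases h2 : ((a :: l).map f).Pairwise RW
      · -- nondegenerate
        rw [push_pos h1, push_pos h2, lx_single, lx_single, one_smul, one_smul, List.map_cons,
          bdA_cons]
        congr 1
        rw [List.map_cons] at h2
        -- cw on the boundary of l.map f is cons
        have key : ∀ x : List W →₀ ℤ, (∀ m ∈ x.support, List.Sublist m (l.map f)) →
            lx (cw RW (f a)) x = Finsupp.mapDomain (List.cons (f a)) x := by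
          intro x hx
          rw [lx, Finsupp.linearCombination_apply, Finsupp.mapDomain, Finsupp.sum, Finsupp.sum]
          apply Finset.sum_congr rfl
          intro m hm
          have hs : List.Sublist (f a :: m) (f a :: l.map f) := (hx m hm).cons_cons (f a)
          unfold cw
          rw [if_pos (h2.sublist hs), Finsupp.smul_single, smul_eq_mul, mul_one]
        rw [key]
        intro m hm
        classical
        unfold bdA at hm
        have := Finsupp.support_finsetSum hm
        simp only [Finset.mem_biUnion, Finset.mem_range] at this
        obtain ⟨i, _, hi⟩ := this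
        have hmi : m = (l.map f).eraseIdx i := by
          have := Finsupp.support_single_subset hi
          simpa using this
        rw [hmi]
        exact List.eraseIdx_sublist _ _
      · -- degenerate at the beginning
        cases l with
        | nil => simp at h2
        | cons b l' =>
          have hfab : f a = f b := by
            by_contra hne
            apply h2
            have hab : RW (f a) (f b) := by
              rcases hf a b (hl.1 b (by simp)) with h | h
              · exact absurd h hne
              · exact h
            rw [List.map_cons, List.pairwise_cons]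
            refine ⟨?_, h1⟩
            intro w hw
            rw [List.map_cons, List.mem_cons] at hw
            rcases hw with rfl | hw
            · exact hab
            · obtain ⟨c, hc, rfl⟩ := List.mem_map.1 hw
              rcases hf a c (hl.1 c (by simp [hc])) with h | h
              · exfalso
                rw [List.map_cons, List.pairwise_cons] at h1
                have := h1.1 (f c) hw
                rw [← h] at this
                exact hW _ _ hab this
              · exact h
          rw [push_pos h1, push_neg h2, map_zero, lx_single, one_smul, List.map_cons, bdA_cons,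
            map_sub, lx_single, one_smul]
          rw [List.map_cons, List.pairwise_cons] at h1
          have e1 : cw RW (f a) (l'.map f) = Finsupp.single (f b :: l'.map f) 1 := by
            unfold cw
            rw [hfab, if_pos (List.pairwise_cons.2 h1)]
          have e2 : ∀ x : List W →₀ ℤ,
              lx (cw RW (f a)) (Finsupp.mapDomain (List.cons (f b)) x) = 0 := by
            intro x
            induction x using Finsupp.induction_linear with
            | zero => simp
            | add x y hx hy => rw [Finsupp.mapDomain_add, map_add, hx, hy, add_zero]
            | single m c =>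
              rw [Finsupp.mapDomain_single, lx_single]
              unfold cw
              rw [if_neg, smul_zero]
              intro h
              rw [List.pairwise_cons] at h
              have := h.1 (f b) (by simp)
              rw [hfab] at this
              exact hW _ _ this this
          rw [e1, e2, sub_zero, sub_self]
    · have h2 : ¬ ((a :: l).map f).Pairwise RW := by
        intro h
        rw [List.map_cons, List.pairwise_cons] at h
        exact h1 h.2
      rw [push_neg h1, push_neg h2]
      simp

theorem push_chain {RV : V → V → Prop} {RW : W → W → Prop} (hV : Asym RV) (hW : Asym RW)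
    {f : V → W} (hf : IsSimp RV RW f) (l : List V) (hl : l.Pairwise RV) :
    lx (push RW f) (bd l) = lx bd (push RW f l) := by
  classical
  by_cases h : l.length ≤ 1
  · rw [bd_short h, map_zero]
    by_cases h1 : (l.map f).Pairwise RW
    · rw [push_pos h1, lx_single, bd_short (by simpa using h), smul_zero]
    · rw [push_neg h1, map_zero]
  · rw [bd_eq_bdA (by omega), push_chainA hV hW hf l hl]
    by_cases h1 : (l.map f).Pairwise RW
    · rw [push_pos h1, lx_single, lx_single, bd_eq_bdA (by rw [List.length_map]; omega)]
    · rw [push_neg h1, map_zero, map_zero]

/-- The boundary is supported on sublists of length one less. -/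
theorem mem_bd {l m : List V} (h : bd l m ≠ 0) :
    2 ≤ l.length ∧ ∃ i < l.length, m = l.eraseIdx i := by
  classical
  have hlen : 2 ≤ l.length := by
    by_contra hh
    rw [bd_short (by omega)] at h
    simp at h
  refine ⟨hlen, ?_⟩
  rw [bd_eq_bdA hlen] at h
  unfold bdA at h
  rw [Finsupp.finsetSum_apply] at h
  obtain ⟨i, hi, hne⟩ := Finset.exists_ne_zero_of_sum_ne_zero h
  refine ⟨i, Finset.mem_range.1 hi, ?_⟩
  by_contra hm
  apply hne
  rw [Finsupp.single_apply, if_neg (fun h => hm h.symm)]

end lists

end C4

end Pool.Agent.Lib.MP_39dc45_gt.SP
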