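import Pool.Agent.Lib.MP_39dc45_gt.SP.StA

/-!
# MP_39dc45_gt: contraction of the augmented circle complex
-/

open Matrix

noncomputable section

namespace Pool.Agent.Lib.MP_39dc45_gt.SP

namespace Circ

/-- Conjugation by signs and relabelling. -/
theorem key {J J' : Type} [Fintype J] [DecidableEq J] [Fintype J'] [DecidableEq J']
    (e : J ≃ J') (deg : J → ℕ) (deg' : J' → ℕ) (D : Matrix J J ℤ) (D' : Matrix J' J' ℤ)
    (ε : J → ℤ) (hε : ∀ i, ε i * ε i = 1)
    (hdeg : ∀ i j, deg j = deg i + 1 ↔ deg' (e j) = deg' (e i) + 1)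
    (hD : ∀ i j, D' (e i) (e j) = ε i * ε j * D i j) (S : Matrix J J ℤ) (hS : Contr deg D S) :
    ∃ S' : Matrix J' J' ℤ, Contr deg' D' S' := by
  refine ⟨Matrix.of fun x y => ε (e.symm x) * ε (e.symm y) * S (e.symm x) (e.symm y), ?_, ?_⟩
  · intro x y hxy
    obtain ⟨i, rfl⟩ := e.surjective x
    obtain ⟨j, rfl⟩ := e.surjective y
    rw [Matrix.of_apply, Equiv.symm_apply_apply, Equiv.symm_apply_apply] at hxy
    exact (hdeg i j).1 (hS.deg_S i j (right_ne_zero_of_mul hxy))
  · ext x y
    obtain ⟨i, rfl⟩ := e.surjective x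
    obtain ⟨j, rfl⟩ := e.surjective y
    have h1 := congrFun (congrFun hS.eq i) j
    rw [Matrix.add_apply, Matrix.mul_apply, Matrix.mul_apply] at h1
    rw [Matrix.add_apply, Matrix.mul_apply, Matrix.mul_apply, ← Equiv.sum_comp e, ← Equiv.sum_comp e]
    have h2 : ∀ w, D' (e i) (e w) * (Matrix.of fun x y => ε (e.symm x) * ε (e.symm y) *
        S (e.symm x) (e.symm y)) (e w) (e j) = ε i * ε j * (D i w * S w j) := by
      intro w
      rw [Matrix.of_apply, Equiv.symm_apply_apply, Equiv.symm_apply_apply, hD]
      linear_combination (ε i * ε j * D i w * S w j) * hε w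
    have h3 : ∀ w, (Matrix.of fun x y => ε (e.symm x) * ε (e.symm y) *
        S (e.symm x) (e.symm y)) (e i) (e w) * D' (e w) (e j) = ε i * ε j * (S i w * D w j) := by
      intro w
      rw [Matrix.of_apply, Equiv.symm_apply_apply, Equiv.symm_apply_apply, hD]
      linear_combination (ε i * ε j * S i w * D w j) * hε w
    rw [Finset.sum_congr rfl fun w _ => h2 w, Finset.sum_congr rfl fun w _ => h3 w,
      ← Finset.mul_sum, ← Finset.mul_sum, ← mul_add, h1, Matrix.one_apply, Matrix.one_apply]
    by_cases hij : i = j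
    · subst hij
      rw [if_pos rfl, if_pos rfl, mul_one]
      exact hε i
    · rw [if_neg hij, if_neg fun h => hij (e.injective h), mul_zero]

section
variable (m c : ℕ) [h : FenOK m c]

/-- The unit. -/
abbrev one : Fen m c := Fen.of m c 1

theorem val_lt (s : Fen m c) : s.val < m := by
  have := h.neZero
  exact ZMod.val_lt (n := m) s

theorem val_inj {s t : Fen m c} (hst : s.val = t.val) : s = t := by
  have := h.neZero
  exact ZMod.val_injective m hst

theorem val_succ (s : Fen m c) :
    (s + one m c).val = if s.val + 1 = m then 0 else s.val + 1 := by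
  have := h.neZero
  have : Fact (1 < m) := ⟨by have := h.four_le; omega⟩
  have key : ∀ t : ZMod m, ZMod.val (t + 1) = (ZMod.val t + 1) % m := fun t => by
    rw [ZMod.val_add, ZMod.val_one]
  have h1 : (s + one m c).val = (s.val + 1) % m := key s
  rw [h1]
  have h2 := val_lt m c s
  split_ifs with h3
  · rw [h3, Nat.mod_self]
  · exact Nat.mod_eq_of_lt (by omega)

omit h in
theorem val_zero : (0 : Fen m c).val = 0 := by
  change ZMod.val (0 : ZMod m) = 0
  exact ZMod.val_zero

theorem even_succ (s : Fen m c) : Even (s + one m c).val ↔ ¬ Even s.val := by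
  have h1 := val_succ m c s
  have h2 := h.even_m
  rw [h1]
  split_ifs with h3
  · simp only [Even.zero, true_iff]
    intro h4
    rw [← h3, Nat.even_add_one] at h2
    exact h2 h4
  · exact Nat.even_add_one

theorem succ_ne (s : Fen m c) : s + one m c ≠ s := by
  intro h1
  have h2 := even_succ m c s
  rw [h1] at h2
  by_cases h3 : Even s.val
  · exact h2.1 h3 h3
  · exact h3 (h2.2 h3)

theorem succ_succ_ne (s : Fen m c) : s + one m c + one m c ≠ s := by
  intro h1
  have h2 := congrArg Fen.val h1
  rw [val_succ, val_succ] at h2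
  have h3 := h.four_le
  have h4 := val_lt m c s
  split_ifs at h2 <;> omega

/-- The cells. -/
abbrev Cl (m c : ℕ) : Type := (Unit ⊕ Unit) ⊕ (Fen m c ⊕ Fen m c)

/-- The differential. -/
def Dm : Matrix (Cl m c) (Cl m c) ℤ
  | Sum.inl (Sum.inl _), Sum.inr (Sum.inr _) => 1
  | Sum.inr (Sum.inl _), Sum.inl (Sum.inr _) => 1
  | Sum.inr (Sum.inr i), Sum.inr (Sum.inl v) =>
      (if v = i + one m c then 1 else 0) - (if v = i then 1 else 0)
  | _, _ => 0

/-- The contraction. -/
def Sm : Matrix (Cl m c) (Cl m c) ℤ
  | Sum.inl (Sum.inr _), Sum.inr (Sum.inl v) => if v = 0 then 1 else 0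
  | Sum.inr (Sum.inl i), Sum.inr (Sum.inr j) => if j.val < i.val then 1 else 0
  | Sum.inr (Sum.inr i), Sum.inl (Sum.inl _) => if i.val + 1 = m then 1 else 0
  | _, _ => 0

/-- The list of an edge. -/
def edg (i : Fen m c) : List (Fen m c) := if Even i.val then [i, i + one m c] else [i + one m c, i]

/-- The cell. -/
def gl : Cl m c → Option (List (Fen m c))
  | Sum.inl (Sum.inl _) => none
  | Sum.inl (Sum.inr _) => some []
  | Sum.inr (Sum.inl v) => some [v]
  | Sum.inr (Sum.inr i) => some (edg m c i)

/-- The sign. -/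
def eps : Cl m c → ℤ
  | Sum.inr (Sum.inr i) => if Even i.val then 1 else -1
  | _ => 1

theorem sum_val (P : ℕ → Prop) [DecidablePred P] (k : ℕ) (hk : k < m)
    (hP : ∀ j < m, P j ↔ j = k) : (∑ i : Fen m c, if P i.val then (1 : ℤ) else 0) = 1 := by
  have := h.neZero
  have hkv : (Fen.of m c ((k : ℕ) : ZMod m)).val = k := by
    change ZMod.val ((k : ℕ) : ZMod m) = k
    exact ZMod.val_natCast_of_lt hk
  rw [Finset.sum_eq_single (Fen.of m c ((k : ℕ) : ZMod m))]
  · rw [if_pos]
    rw [hkv]
    exact (hP k hk).2 rfl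
  · intro b _ hb
    rw [if_neg]
    intro h1
    apply hb
    apply val_inj
    rw [hkv]
    exact (hP _ (val_lt m c b)).1 h1
  · intro h1
    exact absurd (Finset.mem_univ _) h1

theorem eq_iff (s t : Fen m c) : s = t ↔ s.val = t.val :=
  ⟨fun h1 => by rw [h1], val_inj m c⟩

theorem sum_two (P : Fen m c → Prop) [DecidablePred P] (f g : Fen m c → Fen m c)
    (u v : Fen m c) (hu : ∀ a, f a = g a ↔ a = u) (f' g' : Fen m c → Fen m c)
    (hv : ∀ a, f' a = g' a ↔ a = v) :
    (∑ a, if P a then (if f a = g a then (1 : ℤ) else 0) - (if f' a = g' a then 1 else 0) else 0) =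
      (if P u then 1 else 0) - (if P v then 1 else 0) := by
  have h1 : ∀ a, (if P a then (if f a = g a then (1 : ℤ) else 0) -
      (if f' a = g' a then 1 else 0) else 0) = (if a = u then (if P u then 1 else 0) else 0) -
      (if a = v then (if P v then 1 else 0) else 0) := by
    intro a
    simp only [hu, hv]
    by_cases h2 : a = u
    · subst h2
      by_cases h3 : a = v
      · subst h3
        simp
      · simp [h3]
    · by_cases h3 : a = v
      · subst h3
        simp [h2]
        split_ifs <;> simp
      · simp [h2, h3]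
  rw [Finset.sum_congr rfl fun a _ => h1 a, Finset.sum_sub_distrib, Finset.sum_ite_eq',
    Finset.sum_ite_eq', if_pos (Finset.mem_univ _), if_pos (Finset.mem_univ _)]

theorem main : Dm m c * Sm m c + Sm m c * Dm m c = 1 := by
  ext x y
  rw [Matrix.add_apply, Matrix.mul_apply, Matrix.mul_apply, Fintype.sum_sum_type,
    Fintype.sum_sum_type, Fintype.sum_sum_type, Fintype.sum_sum_type, Fintype.sum_sum_type,
    Fintype.sum_sum_type, Matrix.one_apply]
  rcases x with (x | x) | (x | x) <;> rcases y with (y | y) | (y | y)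
  · simp only [Dm, Sm, Finset.sum_const_zero, mul_zero, zero_mul, add_zero, zero_add, one_mul,
      if_true]
    exact sum_val m c (fun j => j + 1 = m) (m - 1) (by have := h.four_le; omega)
      (fun j hj => by omega)
  · simp [Dm, Sm]
  · simp [Dm, Sm]
  · simp [Dm, Sm]
  · simp [Dm, Sm]
  · simp [Dm, Sm]
  · simp [Dm, Sm]
  · simp [Dm, Sm]
  · simp [Dm, Sm]
  · simp [Dm, Sm]
  · simp only [Dm, Sm, Finset.sum_const_zero, mul_zero, add_zero, zero_add, one_mul, mul_one,
      ite_mul, mul_ite, zero_mul, Finset.univ_unique, Finset.sum_const, Finset.card_singleton,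
      one_smul, Sum.inr.injEq, Sum.inl.injEq]
    obtain ⟨z, rfl⟩ : ∃ z, y = z + one m c := ⟨y - one m c, (sub_add_cancel _ _).symm⟩
    rw [sum_two m c (fun a => a.val < x.val) (fun _ => z + one m c) (fun a => a + one m c) z
      (z + one m c) (fun a => ⟨fun h1 => (add_right_cancel h1).symm, fun h1 => by rw [h1]⟩)
      (fun _ => z + one m c) (fun a => a) (fun a => eq_comm)]
    simp only [eq_iff, val_zero]
    have h1 := val_lt m c x
    have h2 := val_lt m c z
    have h3 := val_succ m c z
    by_cases h4 : z.val + 1 = m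
    · rw [if_pos h4] at h3
      simp only [h3]
      split_ifs <;> omega
    · rw [if_neg h4] at h3
      simp only [h3]
      split_ifs <;> first | (exfalso; omega) | simp
  · simp [Dm, Sm]
  · simp [Dm, Sm]
  · simp [Dm, Sm]
  · simp [Dm, Sm]
  · simp only [Dm, Sm, Finset.sum_const_zero, mul_zero, add_zero, zero_add, one_mul, mul_one,
      ite_mul, mul_ite, zero_mul, Finset.univ_unique, Finset.sum_const, Finset.card_singleton,
      one_smul, Sum.inr.injEq, Sum.inl.injEq]
    rw [sum_two m c (fun a => y.val < a.val) (fun a => a) (fun _ => x + one m c) (x + one m c)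
      x (fun a => Iff.rfl) (fun a => a) (fun _ => x) (fun a => Iff.rfl)]
    simp only [eq_iff]
    have h1 := val_lt m c x
    have h2 := val_lt m c y
    have h3 := val_succ m c x
    by_cases h4 : x.val + 1 = m
    · rw [if_pos h4] at h3
      simp only [h3]
      split_ifs <;> omega
    · rw [if_neg h4] at h3
      simp only [h3]
      split_ifs <;> omega

theorem gl_inj : Function.Injective (gl m c) := by
  have he : ∀ i j : Fen m c, edg m c i = edg m c j → i = j := by
    intro i j hij
    unfold edg at hij
    split_ifs at hij with h1 h2 h2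
    · exact List.head_eq_of_cons_eq hij
    · exfalso
      injection hij with h3 h4
      injection h4 with h4
      rw [h3] at h4
      exact succ_succ_ne m c j h4
    · exfalso
      injection hij with h3 h4
      injection h4 with h4
      rw [← h3] at h4
      exact succ_succ_ne m c i h4.symm
    · injection hij with h3 h4
      exact List.head_eq_of_cons_eq h4
  have hl : ∀ i : Fen m c, (edg m c i).length = 2 := by
    intro i
    unfold edg
    split_ifs <;> rfl
  rintro ((x | x) | (x | x)) ((y | y) | (y | y)) hxy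
  · rfl
  · cases hxy
  · cases hxy
  · cases hxy
  · cases hxy
  · rfl
  · have h1 : ([] : List (Fen m c)) = [y] := Option.some.inj hxy
    cases h1
  · have h1 : ([] : List (Fen m c)) = edg m c y := Option.some.inj hxy
    have h2 := hl y
    rw [← h1] at h2
    cases h2
  · cases hxy
  · have h1 : [x] = ([] : List (Fen m c)) := Option.some.inj hxy
    cases h1
  · have h1 : [x] = [y] := Option.some.inj hxy
    rw [List.head_eq_of_cons_eq h1]
  · have h1 : [x] = edg m c y := Option.some.inj hxy
    have h2 := hl y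
    rw [← h1] at h2
    cases h2
  · cases hxy
  · have h1 : edg m c x = [] := Option.some.inj hxy
    have h2 := hl x
    rw [h1] at h2
    cases h2
  · have h1 : edg m c x = [y] := Option.some.inj hxy
    have h2 := hl x
    rw [h1] at h2
    cases h2
  · rw [he x y (Option.some.inj hxy)]

theorem mem_iff (x : Option (List (Fen m c))) :
    (∃ a, gl m c a = x) ↔ x = none ∨ ∃ l, x = some l ∧ l.Pairwise (fenR m c) := by
  constructor
  · rintro ⟨a, rfl⟩
    rcases a with (a | a) | (a | a)
    · exact Or.inl rfl
    · exact Or.inr ⟨[], rfl, List.Pairwise.nil⟩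
    · exact Or.inr ⟨[a], rfl, List.pairwise_singleton _ _⟩
    · refine Or.inr ⟨edg m c a, rfl, ?_⟩
      unfold edg
      split_ifs with h1
      · rw [List.pairwise_pair]
        exact ⟨h1, Or.inl rfl⟩
      · rw [List.pairwise_pair]
        exact ⟨(even_succ m c a).2 h1, Or.inr (add_sub_cancel_right _ _).symm⟩
  · rintro (rfl | ⟨l, rfl, hl⟩)
    · exact ⟨Sum.inl (Sum.inl ()), rfl⟩
    · rcases l with _ | ⟨a, _ | ⟨b, _ | ⟨d, l⟩⟩⟩
      · exact ⟨Sum.inl (Sum.inr ()), rfl⟩
      · exact ⟨Sum.inr (Sum.inl a), rfl⟩
      · rw [List.pairwise_pair] at hl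
        obtain ⟨h1, h2⟩ := hl
        rcases h2 with h2 | h2
        · refine ⟨Sum.inr (Sum.inr a), ?_⟩
          change some (edg m c a) = _
          rw [edg, if_pos h1, h2]
        · have h3 : a = b + one m c := by rw [h2, sub_add_cancel]
          refine ⟨Sum.inr (Sum.inr b), ?_⟩
          change some (edg m c b) = _
          rw [h3, even_succ] at h1
          rw [edg, if_neg h1, h3]
      · exfalso
        have h1 := (List.pairwise_cons.1 hl)
        have h2 := h1.1 b (by simp)
        have h3 := (List.pairwise_cons.1 h1.2).1 d (by simp)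
        rcases h2.2 with h4 | h4
        · exact (even_succ m c a).1 (by rw [← h4]; exact h3.1) h2.1
        · have h5 : a = b + one m c := by rw [h4, sub_add_cancel]
          exact (even_succ m c b).1 (by rw [← h5]; exact h2.1) h3.1

omit h in
theorem bdA_two (a b : Fen m c) : bdA [a, b] = Finsupp.single [b] 1 - Finsupp.single [a] 1 := by
  rw [bdA]
  simp [Finset.sum_range_succ, sub_eq_add_neg]

omit h in
theorem bdA_one (a : Fen m c) : bdA [a] = Finsupp.single [] 1 := by
  rw [bdA]
  simp

omit h in
theorem bdA_zero : bdA ([] : List (Fen m c)) = 0 := by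
  rw [bdA]
  simp

theorem circ_top_edg (i : Fen m c) :
    circD m c none (some (edg m c i)) = if Even i.val then 1 else -1 := by
  unfold edg
  split_ifs with h1
  · change (if Even i.val ∧ i + one m c = i + Fen.of m c 1 then (1 : ℤ)
      else if Even i.val ∧ i + one m c = i - Fen.of m c 1 then -1 else 0) = 1
    rw [if_pos ⟨h1, rfl⟩]
  · change (if Even (i + one m c).val ∧ i = i + one m c + Fen.of m c 1 then (1 : ℤ)
      else if Even (i + one m c).val ∧ i = i + one m c - Fen.of m c 1 then -1 else 0) = -1
    rw [if_neg fun h2 => succ_succ_ne m c i h2.2.symm,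
      if_pos ⟨(even_succ m c i).2 h1, (add_sub_cancel_right _ _).symm⟩]

theorem edg_length (i : Fen m c) : (edg m c i).length = 2 := by
  unfold edg
  split_ifs <;> rfl

theorem bdA_edg (i : Fen m c) (l : List (Fen m c)) (hl : l.length ≠ 1) :
    bdA (edg m c i) l = 0 := by
  have key : ∀ a b : Fen m c, bdA [a, b] l = 0 := by
    intro a b
    rw [bdA_two, Finsupp.sub_apply, Finsupp.single_apply, Finsupp.single_apply, if_neg, if_neg,
      sub_zero]
    · rintro rfl
      exact hl rfl
    · rintro rfl
      exact hl rfl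
  unfold edg
  split_ifs
  · exact key _ _
  · exact key _ _

theorem bdA_edg_one (i v : Fen m c) :
    bdA (edg m c i) [v] = (if Even i.val then 1 else -1) *
      ((if v = i + one m c then 1 else 0) - (if v = i then 1 else 0)) := by
  have key : ∀ a b : Fen m c, bdA [a, b] [v] = (if v = b then 1 else 0) - (if v = a then 1 else 0) := by
    intro a b
    rw [bdA_two, Finsupp.sub_apply, Finsupp.single_apply, Finsupp.single_apply]
    congr 1
    · by_cases h1 : v = b
      · rw [if_pos h1, if_pos (by rw [h1])]
      · rw [if_neg h1, if_neg fun h2 => h1 (List.head_eq_of_cons_eq h2).symm]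
    · by_cases h1 : v = a
      · rw [if_pos h1, if_pos (by rw [h1])]
      · rw [if_neg h1, if_neg fun h2 => h1 (List.head_eq_of_cons_eq h2).symm]
  by_cases h1 : Even i.val
  · rw [edg, if_pos h1, if_pos h1, key, one_mul]
  · rw [edg, if_neg h1, if_neg h1, key]
    ring

theorem circD_eq (x y : Cl m c) :
    circD m c (gl m c x) (gl m c y) = eps m c x * eps m c y * Dm m c x y := by
  rcases x with (x | x) | (x | x) <;> rcases y with (y | y) | (y | y)
  · rfl
  · rfl
  · rfl
  · change circD m c none (some (edg m c y)) = 1 * (if Even y.val then 1 else -1) * 1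
    rw [circ_top_edg, one_mul, mul_one]
  · rfl
  · change bdA [] [] = _
    rw [bdA_zero]
    rfl
  · change bdA [] [y] = _
    rw [bdA_zero]
    rfl
  · change bdA [] (edg m c y) = (1 : ℤ) * _ * 0
    rw [bdA_zero, mul_zero]
    rfl
  · rfl
  · change bdA [x] [] = _
    rw [bdA_one, Finsupp.single_eq_same]
    rfl
  · change bdA [x] [y] = _
    rw [bdA_one, Finsupp.single_apply, if_neg (by simp)]
    rfl
  · change bdA [x] (edg m c y) = (1 : ℤ) * _ * 0
    rw [bdA_one, Finsupp.single_apply, if_neg, mul_zero]
    intro h1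
    have h2 := edg_length m c y
    rw [← h1] at h2
    cases h2
  · change (0 : ℤ) = _ * 1 * 0
    rw [mul_zero]
  · change bdA (edg m c x) [] = _ * (1 : ℤ) * 0
    rw [bdA_edg m c x [] (by simp), mul_zero]
  · change bdA (edg m c x) [y] = (if Even x.val then 1 else -1) * (1 : ℤ) *
      ((if y = x + one m c then 1 else 0) - (if y = x then 1 else 0))
    rw [bdA_edg_one, mul_one]
  · change bdA (edg m c x) (edg m c y) = _ * _ * (0 : ℤ)
    rw [bdA_edg m c x _ (by rw [edg_length]; omega), mul_zero]

theorem eps_sq (x : Cl m c) : eps m c x * eps m c x = 1 := by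
  rcases x with (x | x) | (x | x)
  · rfl
  · rfl
  · rfl
  · change (if Even x.val then (1 : ℤ) else -1) * (if Even x.val then 1 else -1) = 1
    split_ifs <;> norm_num

theorem contr : Contr (fun x : Cl m c => circDeg (gl m c x)) (Dm m c) (Sm m c) := by
  refine ⟨fun x y hxy => ?_, main m c⟩
  rcases x with (x | x) | (x | x) <;> rcases y with (y | y) | (y | y)
  all_goals first
    | rfl
    | exact absurd rfl hxy
    | skip
  · change (edg m c y).length = 2
    exact edg_length m c y
  · change 3 = (edg m c x).length + 1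
    rw [edg_length]

end

end Circ

/-- The augmented circle complex is contractible. -/
theorem stCirc : StCirc := by
  intro m c h
  classical
  refine ⟨Finset.univ.image (Circ.gl m c), fun x => ?_, ?_⟩
  · rw [Finset.mem_image, ← Circ.mem_iff m c x]
    constructor
    · rintro ⟨a, -, ha⟩
      exact ⟨a, ha⟩
    · rintro ⟨a, ha⟩
      exact ⟨a, Finset.mem_univ _, ha⟩
  · let e : Circ.Cl m c ≃ (Finset.univ.image (Circ.gl m c)) :=
      Equiv.ofBijective (fun a => ⟨Circ.gl m c a, Finset.mem_image_of_mem _ (Finset.mem_univ a)⟩)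
        ⟨fun a b hab => Circ.gl_inj m c (congrArg Subtype.val hab), by
          rintro ⟨x, hx⟩
          obtain ⟨a, -, ha⟩ := Finset.mem_image.1 hx
          exact ⟨a, Subtype.ext ha⟩⟩
    exact Circ.key e (fun x => circDeg (Circ.gl m c x)) _ (Circ.Dm m c) _ (Circ.eps m c)
      (Circ.eps_sq m c) (fun i j => Iff.rfl) (fun i j => Circ.circD_eq m c i j) (Circ.Sm m c)
      (Circ.contr m c)

end Pool.Agent.Lib.MP_39dc45_gt.SP
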