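import Pool.Agent.Lib.MP_39dc45_gt.SP.StT

/-!
# MP_39dc45_gt, module Closed: `M` is a closed manifold
-/

open scoped Topology
open Matrix

noncomputable section

namespace Pool.Agent.Lib.MP_39dc45_gt.SP

namespace Closed

theorem matAct_one {n : ℕ} (x : Tor n) : matAct (1 : Matrix (Fin n) (Fin n) ℤ) x = x := by
  funext i
  rw [matAct, Finset.sum_eq_single i]
  · rw [Matrix.one_apply_eq, one_smul]
  · intro j _ hj
    rw [Matrix.one_apply_ne hj.symm, zero_smul]
  · intro h
    exact absurd (Finset.mem_univ _) h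

theorem matAct_mul {n : ℕ} (A B : Matrix (Fin n) (Fin n) ℤ) (x : Tor n) :
    matAct (A * B) x = matAct A (matAct B x) := by
  funext i
  simp only [matAct, Matrix.mul_apply, Finset.sum_smul, Finset.smul_sum, mul_smul]
  exact Finset.sum_comm

theorem continuous_matAct {n : ℕ} (A : Matrix (Fin n) (Fin n) ℤ) :
    Continuous (matAct A : Tor n → Tor n) := by
  apply continuous_pi
  intro i
  apply continuous_finsetSum
  intro j _
  exact (continuous_zsmul (A i j)).comp (continuous_apply j)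

variable (D : Dat)

/-- The diagonal action. -/
def dAct (g : Cyc D.p) (x : Tor D.n × Sph D.l) : Tor D.n × Sph D.l :=
  (matAct (D.mat g) x.1, D.act g x.2)

theorem dAct_one (x : Tor D.n × Sph D.l) : dAct D 1 x = x := by
  apply Prod.ext
  · change matAct (D.mat 1) x.1 = x.1
    rw [Rep.mat_one, matAct_one]
  · change D.act 1 x.2 = x.2
    rw [map_one]
    rfl

theorem dAct_mul (g h : Cyc D.p) (x : Tor D.n × Sph D.l) :
    dAct D (g * h) x = dAct D g (dAct D h x) := by
  apply Prod.ext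
  · change matAct (D.mat (g * h)) x.1 = matAct (D.mat g) (matAct (D.mat h) x.1)
    rw [Rep.mat_mul, matAct_mul]
  · change D.act (g * h) x.2 = D.act g (D.act h x.2)
    rw [map_mul]
    rfl

theorem continuous_dAct (g : Cyc D.p) : Continuous (dAct D g) :=
  ((continuous_matAct _).comp continuous_fst).prodMk ((D.act g).continuous.comp continuous_snd)

theorem rel_iff (a b : Tor D.n × Sph D.l) : D.rel a b ↔ ∃ g, dAct D g a = b := by
  constructor
  · rintro ⟨g, h1, h2⟩
    exact ⟨g, Prod.ext h1 h2⟩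
  · rintro ⟨g, rfl⟩
    exact ⟨g, rfl, rfl⟩

theorem rel_equiv : Equivalence D.rel where
  refl a := (rel_iff D a a).2 ⟨1, dAct_one D a⟩
  symm := by
    intro a b h
    rw [rel_iff] at h ⊢
    obtain ⟨g, rfl⟩ := h
    refine ⟨g⁻¹, ?_⟩
    rw [← dAct_mul, inv_mul_cancel, dAct_one]
  trans := by
    intro a b c h1 h2
    rw [rel_iff] at h1 h2 ⊢
    obtain ⟨g, rfl⟩ := h1
    obtain ⟨h, rfl⟩ := h2
    exact ⟨h * g, dAct_mul D h g a⟩

theorem mk_eq_iff (a b : Tor D.n × Sph D.l) :
    (Quot.mk D.rel a = Quot.mk D.rel b) ↔ ∃ g, dAct D g a = b := by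
  rw [← rel_iff]
  exact ⟨fun h => (rel_equiv D).eqvGen_iff.1 (Quot.eqvGen_exact h), fun h => Quot.sound h⟩

theorem isOpenQuotientMap_mk :
    IsOpenQuotientMap (Quot.mk D.rel : Tor D.n × Sph D.l → Quot D.rel) := by
  refine ⟨Quot.mk_surjective, continuous_quot_mk, ?_⟩
  intro U hU
  rw [← isQuotientMap_quot_mk.isOpen_preimage]
  have e : (Quot.mk D.rel ⁻¹' (Quot.mk D.rel '' U) : Set (Tor D.n × Sph D.l))
      = ⋃ g : Cyc D.p, dAct D g ⁻¹' U := by
    ext a
    simp only [Set.mem_preimage, Set.mem_image, Set.mem_iUnion]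
    constructor
    · rintro ⟨b, hb, h⟩
      obtain ⟨g, hg⟩ := (mk_eq_iff D a b).1 h.symm
      exact ⟨g, by rw [hg]; exact hb⟩
    · rintro ⟨g, hg⟩
      exact ⟨_, hg, ((mk_eq_iff D a _).2 ⟨g, rfl⟩).symm⟩
  rw [e]
  exact isOpen_iUnion fun g => hU.preimage (continuous_dAct D g)

theorem t2 : T2Space (Quot D.rel) := by
  rw [t2Space_iff_of_isOpenQuotientMap (isOpenQuotientMap_mk D)]
  have e : {q : (Tor D.n × Sph D.l) × (Tor D.n × Sph D.l) |
      (Quot.mk D.rel q.1) = (Quot.mk D.rel q.2)}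
      = ⋃ g : Cyc D.p, {q | dAct D g q.1 = q.2} := by
    ext q
    simp only [Set.mem_ofPred_eq, Set.mem_iUnion]
    exact mk_eq_iff D q.1 q.2
  rw [e]
  have : NeZero D.p := ⟨D.prime.ne_zero⟩
  have : Finite (Cyc D.p) := inferInstanceAs (Finite (ZMod D.p))
  apply isClosed_iUnion_of_finite
  intro g
  exact isClosed_eq ((continuous_dAct D g).comp continuous_fst) continuous_snd

theorem compact : CompactSpace (Quot D.rel) := by
  have : CompactSpace (Tor D.n) := by
    unfold Tor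
    infer_instance
  infer_instance

instance fact_finrank (l : ℕ) : Fact (Module.finrank ℝ (EuclideanSpace ℝ (Fin (l + 1))) = l + 1) :=
  ⟨by simp⟩

/-- The homeomorphism of the model spaces. -/
def model (n l : ℕ) : (Fin n → ℝ) × EuclideanSpace ℝ (Fin l) ≃ₜ EuclideanSpace ℝ (Fin (n + l)) :=
  (ContinuousLinearEquiv.ofFinrankEq (𝕜 := ℝ) (by simp)).toHomeomorph

theorem chart (y : (Fin D.n → ℝ) × Sph D.l) :
    ∃ e : OpenPartialHomeomorph ((Fin D.n → ℝ) × Sph D.l) (EuclideanSpace ℝ (Fin (D.n + D.l))),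
      y ∈ e.source := by
  let c : OpenPartialHomeomorph (Sph D.l) (EuclideanSpace ℝ (Fin D.l)) := stereographic' D.l (-y.2)
  let e1 : OpenPartialHomeomorph ((Fin D.n → ℝ) × Sph D.l)
      ((Fin D.n → ℝ) × EuclideanSpace ℝ (Fin D.l)) :=
    (OpenPartialHomeomorph.refl (Fin D.n → ℝ)).prod c
  refine ⟨e1.trans (model D.n D.l).toOpenPartialHomeomorph, ?_⟩
  simp only [OpenPartialHomeomorph.trans_source, Homeomorph.toOpenPartialHomeomorph_source,
    Set.preimage_univ, Set.inter_univ]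
  change y ∈ (OpenPartialHomeomorph.refl (Fin D.n → ℝ)).source ×ˢ c.source
  refine ⟨trivial, ?_⟩
  change y.2 ∈ c.source
  rw [stereographic'_source]
  simp only [Set.mem_compl_iff, Set.mem_singleton_iff]
  intro h
  have h1 : (y.2 : EuclideanSpace ℝ (Fin (D.l + 1))) = -(y.2 : EuclideanSpace ℝ (Fin (D.l + 1))) :=
    congrArg Subtype.val h
  have h2 : (y.2 : EuclideanSpace ℝ (Fin (D.l + 1))) = 0 := by
    have h4 : (2 : ℝ) • (y.2 : EuclideanSpace ℝ (Fin (D.l + 1))) = 0 := by
      rw [two_smul]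
      nth_rewrite 2 [h1]
      exact add_neg_cancel _
    exact (smul_eq_zero.1 h4).resolve_left two_ne_zero
  have h3 := y.2.2
  rw [h2] at h3
  simp at h3

end Closed

open Closed in
/-- `M` is a closed manifold. -/
theorem stClosed : StCov → StClosed := by
  intro hc D
  refine ⟨compact D, t2 D, ?_⟩
  intro x
  have hq := hc D
  obtain ⟨y, rfl⟩ := hq.toIsQuotientMap.surjective x
  have hl : IsLocalHomeomorph D.proj := hq.isCoveringMap.isLocalHomeomorph
  obtain ⟨e, he, hee⟩ := hl y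
  obtain ⟨c, hcy⟩ := chart D y
  refine ⟨e.symm.trans c, ?_⟩
  rw [OpenPartialHomeomorph.trans_source]
  refine ⟨?_, ?_⟩
  · change D.proj y ∈ e.target
    rw [hee]
    exact e.map_source he
  · change e.symm (D.proj y) ∈ c.source
    rw [hee, e.left_inv he]
    exact hcy

end Pool.Agent.Lib.MP_39dc45_gt.SP
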