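import Pool.Agent.Lib.MP_39dc45_gt.SP.StT

/-!
# MP_39dc45_gt: the projection is a covering
-/

open scoped Topology
open Matrix Topology

noncomputable section

namespace Pool.Agent.Lib.MP_39dc45_gt.SP

namespace CovAux

/-- The projection `ℝ^n → T^n`. -/
def pr (n : ℕ) : (Fin n → ℝ) → Tor n := Pi.map fun _ => ((↑) : ℝ → UnitAddCircle)

theorem pr_apply {n : ℕ} (x : Fin n → ℝ) (i : Fin n) : pr n x i = ((x i : ℝ) : UnitAddCircle) :=
  rfl

theorem pr_quot (n : ℕ) : IsOpenQuotientMap (pr n) :=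
  IsOpenQuotientMap.piMap fun _ => QuotientAddGroup.isOpenQuotientMap_mk

theorem pr_surj (n : ℕ) : Function.Surjective (pr n) := (pr_quot n).surjective

theorem matAct_pr {n : ℕ} (A : Matrix (Fin n) (Fin n) ℤ) (x : Fin n → ℝ) :
    matAct A (pr n x) = pr n (A.map (Int.cast : ℤ → ℝ) *ᵥ x) := by
  funext i
  have h : ∀ f : Fin n → ℝ, ((∑ j, f j : ℝ) : UnitAddCircle) = ∑ j, ((f j : ℝ) : UnitAddCircle) :=
    fun f => map_sum (QuotientAddGroup.mk' (AddSubgroup.zmultiples (1 : ℝ))) f _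
  rw [pr_apply]
  simp only [matAct, Matrix.mulVec, dotProduct, Matrix.map_apply]
  rw [h]
  refine Finset.sum_congr rfl fun j _ => ?_
  rw [← zsmul_eq_mul, AddCircle.coe_zsmul]
  rfl

theorem pr_eq_iff {n : ℕ} (x y : Fin n → ℝ) :
    pr n x = pr n y ↔ ∃ v : Fin n → ℤ, x = y + fun i => (v i : ℝ) := by
  constructor
  · intro h
    have h1 : ∀ i, ∃ m : ℤ, m • (1 : ℝ) = x i - y i := by
      intro i
      have h2 : ((x i : ℝ) : UnitAddCircle) = ((y i : ℝ) : UnitAddCircle) := congrFun h i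
      rw [← sub_eq_zero, ← AddCircle.coe_sub] at h2
      exact (AddCircle.coe_eq_zero_iff 1).1 h2
    choose v hv using h1
    refine ⟨v, funext fun i => ?_⟩
    have h2 := hv i
    rw [zsmul_eq_mul, mul_one] at h2
    rw [Pi.add_apply, h2]
    ring
  · rintro ⟨v, rfl⟩
    funext i
    rw [pr_apply, pr_apply, Pi.add_apply, AddCircle.coe_add]
    have h1 : (((v i : ℤ) : ℝ) : UnitAddCircle) = 0 :=
      (AddCircle.coe_eq_zero_iff 1).2 ⟨v i, by rw [zsmul_eq_mul, mul_one]⟩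
    rw [h1, add_zero]

theorem mat_map_mul {n : ℕ} (A B : Matrix (Fin n) (Fin n) ℤ) :
    (A * B).map (Int.cast : ℤ → ℝ) = A.map (Int.cast : ℤ → ℝ) * B.map (Int.cast : ℤ → ℝ) :=
  Matrix.map_mul (f := Int.castRingHom ℝ)

theorem matAct_mul {n : ℕ} (A B : Matrix (Fin n) (Fin n) ℤ) (x : Tor n) :
    matAct (A * B) x = matAct A (matAct B x) := by
  obtain ⟨y, rfl⟩ := pr_surj n x
  rw [matAct_pr, matAct_pr, matAct_pr, mat_map_mul, Matrix.mulVec_mulVec]

theorem matAct_one {n : ℕ} (x : Tor n) : matAct 1 x = x := by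
  obtain ⟨y, rfl⟩ := pr_surj n x
  rw [matAct_pr]
  congr 1
  have h : (1 : Matrix (Fin n) (Fin n) ℤ).map (Int.cast : ℤ → ℝ) = 1 := by
    ext i j
    simp [Matrix.one_apply]
  rw [h, Matrix.one_mulVec]

variable (D : Dat)

theorem rel_equiv : Equivalence D.rel where
  refl a := ⟨1, by rw [Rep.mat_one, matAct_one], by simp⟩
  symm := by
    rintro a b ⟨g, h1, h2⟩
    refine ⟨g⁻¹, ?_, ?_⟩
    · rw [← h1, ← matAct_mul, ← Rep.mat_mul, inv_mul_cancel, Rep.mat_one, matAct_one]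
    · rw [← h2]
      have h3 : (D.act g⁻¹ * D.act g) a.2 = a.2 := by
        rw [← map_mul, inv_mul_cancel, map_one]
        rfl
      exact h3
  trans := by
    rintro a b c ⟨g, h1, h2⟩ ⟨g', h3, h4⟩
    refine ⟨g' * g, ?_, ?_⟩
    · rw [Rep.mat_mul, matAct_mul, h1, h3]
    · rw [map_mul, ← h4, ← h2]
      rfl

theorem quot_eq (a b : Tor D.n × Sph D.l) :
    (Quot.mk D.rel a = Quot.mk D.rel b) ↔ D.rel a b := by
  rw [Quot.eq, (rel_equiv D).eqvGen_iff]

theorem smul_fst (γ : D.Gam) (x : D.Cov) :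
    (γ • x).1 = (D.mat γ.g).map (Int.cast : ℤ → ℝ) *ᵥ x.1 + fun i => (γ.v i : ℝ) := rfl

theorem smul_snd (γ : D.Gam) (x : D.Cov) : (γ • x).2 = D.act γ.g x.2 := rfl

theorem proj_eq (x : D.Cov) : D.proj x = Quot.mk D.rel (pr D.n x.1, x.2) := rfl

theorem proj_quot : IsQuotientMap D.proj := by
  have h1 : IsOpenQuotientMap (Prod.map (pr D.n) (id : Sph D.l → Sph D.l)) :=
    (pr_quot D.n).prodMap IsOpenQuotientMap.id
  have h2 : IsQuotientMap (Quot.mk D.rel) := isQuotientMap_quot_mk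
  exact h2.comp h1.isQuotientMap

theorem proj_iff (x y : D.Cov) : D.proj x = D.proj y ↔ x ∈ MulAction.orbit D.Gam y := by
  rw [eq_comm]
  change Quot.mk D.rel (pr D.n y.1, y.2) = Quot.mk D.rel (pr D.n x.1, x.2) ↔ _
  refine (quot_eq D _ _).trans ?_
  constructor
  · rintro ⟨g, h1, h2⟩
    simp only at h1 h2
    rw [matAct_pr, eq_comm, pr_eq_iff] at h1
    obtain ⟨v, hv⟩ := h1
    exact ⟨⟨v, g⟩, Prod.ext hv.symm h2⟩
  · rintro ⟨γ, rfl⟩
    refine ⟨γ.g, ?_, rfl⟩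
    change matAct _ (pr D.n y.1) = pr D.n (γ • y).1
    rw [matAct_pr, eq_comm, pr_eq_iff]
    exact ⟨γ.v, rfl⟩

theorem free_nhds (s : Sph D.l) : ∃ O ∈ 𝓝 s, ∀ g : Cyc D.p, g ≠ 1 → ∀ t ∈ O, D.act g t ∉ O := by
  have : NeZero D.p := ⟨D.prime.ne_zero⟩
  have h1 : ∀ g : Cyc D.p, ∃ O ∈ 𝓝 s, g ≠ 1 → ∀ t ∈ O, D.act g t ∉ O := by
    intro g
    by_cases hg : g = 1
    · exact ⟨Set.univ, Filter.univ_mem, fun h => absurd hg h⟩
    · obtain ⟨U, V, hU, hV, hsU, hsV, hd⟩ := t2_separation (D.act_free g hg s)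
      refine ⟨V ∩ D.act g ⁻¹' U, Filter.inter_mem (hV.mem_nhds hsV)
        ((hU.preimage (D.act g).continuous).mem_nhds hsU), fun _ t ht ht' => ?_⟩
      exact Set.disjoint_left.1 hd ht.2 ht'.1
  choose O hO hO' using h1
  refine ⟨⋂ g, O g, Filter.iInter_mem.2 hO, fun g hg t ht ht' => ?_⟩
  exact hO' g hg t (Set.mem_iInter.1 ht g) (Set.mem_iInter.1 ht' g)

end CovAux

open CovAux in
theorem stCov : StCov := by
  intro D
  have hc : ∀ γ : D.Gam, Continuous fun x : D.Cov => γ • x := by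
    intro γ
    have h1 : Continuous fun x : (Fin D.n → ℝ) × Sph D.l =>
        ((D.mat γ.g).map (Int.cast : ℤ → ℝ) *ᵥ x.1 + fun i => (γ.v i : ℝ), D.act γ.g x.2) := by
      refine Continuous.prodMk ?_ ((D.act γ.g).continuous.comp continuous_snd)
      exact (Continuous.matrix_mulVec continuous_const continuous_fst).add continuous_const
    exact h1
  have hd : ∀ e : D.Cov, ∃ U ∈ 𝓝 e, ∀ γ : D.Gam, ((γ • ·) '' U ∩ U).Nonempty → γ = 1 := by
    intro e
    obtain ⟨O, hO, hO'⟩ := free_nhds D e.2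
    refine ⟨(Metric.ball e.1 (1 / 4) ×ˢ O : Set ((Fin D.n → ℝ) × Sph D.l)),
      prod_mem_nhds (Metric.ball_mem_nhds _ (by norm_num)) hO, ?_⟩
    rintro γ ⟨_, ⟨y, ⟨hy1, hy2⟩, rfl⟩, hz1, hz2⟩
    have hg : γ.g = 1 := by
      by_contra hg
      exact hO' γ.g hg y.2 hy2 hz2
    have hz1' : (γ • y).1 ∈ Metric.ball e.1 (1 / 4) := hz1
    rw [smul_fst, hg, Rep.mat_one] at hz1'
    have h : (1 : Matrix (Fin D.n) (Fin D.n) ℤ).map (Int.cast : ℤ → ℝ) = 1 := by
      ext i j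
      simp [Matrix.one_apply]
    rw [h, Matrix.one_mulVec] at hz1'
    have hv : γ.v = 0 := by
      funext i
      have h1 : dist (y.1 i + γ.v i) (e.1 i) < 1 / 4 := (dist_le_pi_dist _ _ i).trans_lt hz1'
      have h2 : dist (y.1 i) (e.1 i) < 1 / 4 := (dist_le_pi_dist _ _ i).trans_lt hy1
      rw [Real.dist_eq, abs_lt] at h1 h2
      have h3 : |((γ.v i : ℤ) : ℝ)| < 1 := by
        rw [abs_lt]
        constructor <;> linarith [h1.1, h1.2, h2.1, h2.2]
      have h4 : |γ.v i| < 1 := by exact_mod_cast h3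
      exact Int.abs_lt_one_iff.1 h4
    exact Rep.Gam.ext hv hg
  exact { toIsQuotientMap := proj_quot D
          continuous_const_smul := hc
          apply_eq_iff_mem_orbit := fun {x y} => proj_iff D x y
          disjoint := hd }

end Pool.Agent.Lib.MP_39dc45_gt.SP
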