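import Pool.Agent.Lib.MP_39dc45_gt.Stm

/-!
# MP_39dc45_gt: definitions used in the proof

These are the definitions of `Stm.lean`, with a group of homeomorphisms acting on the sphere. The file
`Bridge.lean` compares the two.
-/

open scoped Topology
open Matrix

noncomputable section

namespace Pool.Agent.Lib.MP_39dc45_gt.SP

/-- The sphere `S^l`. -/
abbrev Sph (l : ℕ) : Type := Metric.sphere (0 : EuclideanSpace ℝ (Fin (l + 1))) 1

/-- Admissible data: in addition an odd `l ≥ 3` and a free action of `ℤ/p` on `S^l`. -/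
structure Dat extends Rep where
  l : ℕ
  three_le : 3 ≤ l
  odd_l : Odd l
  act : Cyc p →* (Sph l ≃ₜ Sph l)
  act_free : ∀ g, g ≠ 1 → ∀ s, act g s ≠ s

namespace Dat
variable (D : Dat)

/-- The orbit relation of the diagonal action of `ℤ/p` on `T^n × S^l`. -/
def rel (a b : Tor D.n × Sph D.l) : Prop :=
  ∃ g : Cyc D.p, matAct (D.mat g) a.1 = b.1 ∧ D.act g a.2 = b.2

/-- The manifold `M = T^n ×_{ℤ/p} S^l`. -/
def Mfd : Type := Quot D.rel

instance : TopologicalSpace D.Mfd := inferInstanceAs (TopologicalSpace (Quot D.rel))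

/-- The submanifold `Y = (T^n)^{ℤ/p} × L^l`: the image of the `{x} × S^l`, `x` a fixed point. -/
def fixY : Set D.Mfd :=
  {m | ∃ (x : Tor D.n) (s : Sph D.l), (∀ g, matAct (D.mat g) x = x) ∧ m = Quot.mk _ (x, s)}

/-- The universal covering `ℝ^n × S^l` of `M`. -/
def Cov : Type := (Fin D.n → ℝ) × Sph D.l

instance : TopologicalSpace D.Cov := inferInstanceAs (TopologicalSpace ((Fin D.n → ℝ) × Sph D.l))

/-- `Γ` acts on `ℝ^n × S^l` by `(v, g) (x, s) = (ρ(g) x + v, g s)`. -/
instance covMulAction : MulAction D.Gam D.Cov where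
  smul a x := ((D.mat a.g).map (Int.cast : ℤ → ℝ) *ᵥ x.1 + fun i => (a.v i : ℝ), D.act a.g x.2)
  one_smul x := by
    apply Prod.ext
    · change (D.mat 1).map (Int.cast : ℤ → ℝ) *ᵥ x.1 + (fun i => ((0 : Fin D.n → ℤ) i : ℝ)) = x.1
      rw [Rep.mat_one]
      ext i
      simp
    · change D.act 1 x.2 = x.2
      simp
  mul_smul a b x := by
    apply Prod.ext
    · change (D.mat (a.g * b.g)).map (Int.cast : ℤ → ℝ) *ᵥ x.1
        + (fun i => ((a.v + D.mat a.g *ᵥ b.v) i : ℝ)) = (D.mat a.g).map (Int.cast : ℤ → ℝ) *ᵥ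
        ((D.mat b.g).map (Int.cast : ℤ → ℝ) *ᵥ x.1 + fun i => (b.v i : ℝ)) + fun i => (a.v i : ℝ)
      rw [Rep.mat_mul, Matrix.mulVec_add, Matrix.mulVec_mulVec]
      have h1 : (D.mat a.g * D.mat b.g).map (Int.cast : ℤ → ℝ)
          = (D.mat a.g).map (Int.cast : ℤ → ℝ) * (D.mat b.g).map (Int.cast : ℤ → ℝ) :=
        Matrix.map_mul (f := Int.castRingHom ℝ)
      rw [h1]
      ext i
      simp only [Pi.add_apply, Matrix.mulVec, dotProduct, Int.cast_add, Int.cast_sum, Int.cast_mul,
        Matrix.map_apply]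
      ring
    · change D.act (a.g * b.g) x.2 = D.act a.g (D.act b.g x.2)
      simp

/-- The projection `ℝ^n × S^l → M`. -/
def proj (x : D.Cov) : D.Mfd := Quot.mk _ (fun i => ((x.1 i : ℝ) : UnitAddCircle), x.2)

end Dat

namespace Dat
variable (D : Dat)

/-- The homotopy equivalence `h : N → M` is simple: for the covering `q : X → N` with group `Γ`
induced by `h` from the universal covering `D.Cov → M` (characterised by an equivariant map
`ht : X → D.Cov` covering `h`), for all equivariant triangulations of `X` and of `D.Cov` and all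
equivariant simplicial maps `f` whose realisation `φ` is equivariantly homotopic to `ht`, the
Whitehead torsion of `f` in `Wh(Γ)` is trivial. (By the topological invariance of Whitehead torsion
it does not depend on these choices.) -/
def IsSimple {N : Type} [TopologicalSpace N] (h : C(N, D.Mfd)) : Prop :=
  ∀ (X : Type) [TopologicalSpace X] [MulAction D.Gam X] (q : X → N) (ht : C(X, D.Cov)),
    IsQuotientCoveringMap q D.Gam → (∀ (γ : D.Gam) x, ht (γ • x) = γ • ht x) →
    (∀ x, D.proj (ht x) = h (q x)) →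
  ∀ (V W : Type) [MulAction D.Gam V] [MulAction D.Gam W] (RV : V → V → Prop) (RW : W → W → Prop)
    (bV : X → V → ℝ) (bW : D.Cov → W → ℝ), IsTriang D.Gam RV bV → IsTriang D.Gam RW bW →
  ∀ f : V → W, (∀ v v', RV v v' → f v = f v' ∨ RW (f v) (f v')) →
    (∀ (γ : D.Gam) v, f (γ • v) = γ • f v) →
  ∀ φ : C(X, D.Cov), (∀ x w, bW (φ x) w = ∑ᶠ v ∈ f ⁻¹' {w}, bV x v) →
    (∃ H : C(X × unitInterval, D.Cov), (∀ x, H (x, 0) = φ x) ∧ (∀ x, H (x, 1) = ht x) ∧
      ∀ (γ : D.Gam) x t, H (γ • x, t) = γ • H (x, t)) →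
  ∀ (J : Type) [Fintype J] [DecidableEq J] (r : J → List W ⊕ List V),
    IsReps D.Gam RV RW r → TorsionTrivial D.Gam RW f r

end Dat

/-- The negated form of the problem, with `p = 5`, `n = 4`, `l = 3`: there is a homotopy equivalence
`h : N → M` from a closed manifold that splits along `Y` and is not simple. -/
def Target : Prop :=
  ∃ D : Dat, D.p = 5 ∧ D.n = 4 ∧ D.l = 3 ∧
    ∃ (N : Type) (_ : TopologicalSpace N) (h : C(N, D.Mfd)),
      IsClosedManifold (D.n + D.l) N ∧ IsHtpyEquiv h ∧ SplitsAlong D.n h D.fixY ∧ ¬ D.IsSimple h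

end Pool.Agent.Lib.MP_39dc45_gt.SP
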