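import Pool.Agent.Lib.MP_39dc45_gt.SP.StA

/-!
# MP_39dc45_gt: the twisted matrix is a complex
-/

open Matrix

noncomputable section

namespace Pool.Agent.Lib.MP_39dc45_gt.SP

namespace E1aux

variable {Γ I : Type} [Group Γ] [MulAction Γ I] {P : Set I} {deg : I → ℕ} {d : I → I → ℤ}
  {J : Type} {r : J → I}

theorem mem (hE : EC Γ P deg d) (hr : IsRep Γ P r) (γ : Γ) (j : J) : γ • r j ∈ P :=
  hE.smul_mem γ _ (hr.1 j)

theorem inj (hE : EC Γ P deg d) (hr : IsRep Γ P r) :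
    Function.Injective fun p : Γ × J => p.1 • r p.2 := by
  intro p p' h
  have h1 : p.1 • r p.2 ∈ P := mem hE hr _ _
  obtain ⟨x, -, hx⟩ := hr.2 _ h1
  rw [hx p rfl, hx p' h.symm]

theorem finA (hE : EC Γ P deg d) (hr : IsRep Γ P r) {i : I} (hi : i ∈ P) :
    {p : Γ × J | d i (p.1 • r p.2) ≠ 0}.Finite := by
  have h := (hE.fin i hi).preimage (f := fun p : Γ × J => p.1 • r p.2) (inj hE hr).injOn
  refine h.subset ?_
  intro p hp
  exact ⟨mem hE hr _ _, hp⟩

theorem finG (hE : EC Γ P deg d) (hr : IsRep Γ P r) {i : I} (hi : i ∈ P) :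
    {γ : Γ | ∃ j, d i (γ • r j) ≠ 0}.Finite := by
  refine ((finA hE hr hi).image Prod.fst).subset ?_
  rintro γ ⟨j, hj⟩
  exact ⟨(γ, j), hj, rfl⟩

theorem sq' (hE : EC Γ P deg d) (hr : IsRep Γ P r) {i k : I} (hi : i ∈ P) (hk : k ∈ P) :
    ∑ᶠ p : Γ × J, d i (p.1 • r p.2) * d (p.1 • r p.2) k = 0 := by
  rw [← hE.sq i hi k hk, ← finsum_mem_univ]
  refine finsum_mem_eq_of_bijOn (fun p : Γ × J => p.1 • r p.2) ?_ (fun _ _ => rfl)
  refine ⟨fun p _ => mem hE hr _ _, (inj hE hr).injOn, ?_⟩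
  intro x hx
  obtain ⟨p, hp, -⟩ := hr.2 x hx
  exact ⟨p, Set.mem_univ _, hp⟩

theorem shift (hE : EC Γ P deg d) (χ : Γ →* F31) (γ : Γ) (i k : I) :
    χ γ * ∑ᶠ δ : Γ, χ δ * ((d i (δ • k) : ℤ) : F31)
      = ∑ᶠ ε : Γ, χ ε * ((d (γ • i) (ε • k) : ℤ) : F31) := by
  rw [mul_finsum]
  rw [← finsum_comp_equiv (Equiv.mulLeft γ)
    (f := fun ε : Γ => χ ε * ((d (γ • i) (ε • k) : ℤ) : F31))]
  refine finsum_congr ?_
  intro δ
  change χ γ * (χ δ * ((d i (δ • k) : ℤ) : F31)) =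
    χ (γ * δ) * ((d (γ • i) ((γ * δ) • k) : ℤ) : F31)
  rw [mul_smul, hE.d_smul, map_mul, mul_assoc]

end E1aux

/-- The twisted matrix is a complex. -/
theorem stE1 : StE1 := by
  intro Γ I _ _ P deg d χ hE J _ _ r hr
  refine ⟨?_, ?_⟩
  · intro i j h
    have h1 : ∑ᶠ γ : Γ, χ γ * ((d (r i) (γ • r j) : ℤ) : F31) ≠ 0 := h
    obtain ⟨γ, hγ⟩ : ∃ γ : Γ, χ γ * ((d (r i) (γ • r j) : ℤ) : F31) ≠ 0 := by
      by_contra hne
      push Not at hne
      exact h1 (by simp [hne])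
    have h2 : d (r i) (γ • r j) ≠ 0 := by
      intro h0
      exact hγ (by rw [h0, Int.cast_zero, mul_zero])
    have h3 := hE.deg_d _ (hr.1 i) _ (E1aux.mem hE hr γ j) h2
    rw [hE.deg_smul] at h3
    exact h3
  · ext i k
    rw [Matrix.mul_apply, Matrix.zero_apply]
    have hi := hr.1 i
    have hk := hr.1 k
    set G : Finset Γ := (E1aux.finG hE hr hi).toFinset with hG
    have hGm : ∀ γ j, d (r i) (γ • r j) ≠ 0 → γ ∈ G := by
      intro γ j h
      rw [hG, Set.Finite.mem_toFinset]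
      exact ⟨j, h⟩
    have hEf : (⋃ p ∈ ((G : Set Γ) ×ˢ (Set.univ : Set J)),
        {ε : Γ | d (p.1 • r p.2) (ε • r k) ≠ 0}).Finite := by
      refine Set.Finite.biUnion (G.finite_toSet.prod Set.finite_univ) ?_
      intro p _
      refine (E1aux.finG hE hr (E1aux.mem hE hr p.1 p.2)).subset ?_
      intro ε hε
      exact ⟨k, hε⟩
    set E : Finset Γ := hEf.toFinset with hEd
    have hEm : ∀ γ ∈ G, ∀ j ε, d (γ • r j) (ε • r k) ≠ 0 → ε ∈ E := by
      intro γ hγ j ε h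
      rw [hEd, Set.Finite.mem_toFinset]
      refine Set.mem_biUnion (x := (γ, j)) ⟨hγ, Set.mem_univ _⟩ h
    have hA : ∀ j, tw χ d r i j = ∑ γ ∈ G, χ γ * ((d (r i) (γ • r j) : ℤ) : F31) := by
      intro j
      refine finsum_eq_sum_of_support_subset _ ?_
      intro γ hγ
      refine hGm γ j ?_
      intro h0
      exact hγ (by simp [h0])
    have hB : ∀ γ ∈ G, ∀ j, χ γ * tw χ d r j k =
        ∑ ε ∈ E, χ ε * ((d (γ • r j) (ε • r k) : ℤ) : F31) := by
      intro γ hγ j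
      have h1 := E1aux.shift hE χ γ (r j) (r k)
      have h2 : tw χ d r j k = ∑ᶠ δ : Γ, χ δ * ((d (r j) (δ • r k) : ℤ) : F31) := rfl
      rw [h2, h1]
      refine finsum_eq_sum_of_support_subset _ ?_
      intro ε hε
      refine hEm γ hγ j ε ?_
      intro h0
      exact hε (by simp [h0])
    have hC : ∀ ε : Γ, ∑ j, ∑ γ ∈ G,
        ((d (r i) (γ • r j) : ℤ) : F31) * ((d (γ • r j) (ε • r k) : ℤ) : F31) = 0 := by
      intro ε
      have h1 := E1aux.sq' hE hr hi (E1aux.mem hE hr ε k)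
      rw [finsum_eq_sum_of_support_subset (s := G ×ˢ (Finset.univ : Finset J))] at h1
      · rw [Finset.sum_product_right] at h1
        have h2 := congrArg (Int.cast : ℤ → F31) h1
        push_cast at h2
        exact h2
      · intro p hp
        rw [Finset.coe_product, Set.mem_prod]
        refine ⟨hGm p.1 p.2 ?_, by simp⟩
        intro h0
        exact hp (by simp [h0])
    calc ∑ j, tw χ d r i j * tw χ d r j k
        = ∑ j, ∑ γ ∈ G, ∑ ε ∈ E, χ ε * (((d (r i) (γ • r j) : ℤ) : F31) *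
            ((d (γ • r j) (ε • r k) : ℤ) : F31)) := by
          refine Finset.sum_congr rfl fun j _ => ?_
          rw [hA j, Finset.sum_mul]
          refine Finset.sum_congr rfl fun γ hγ => ?_
          rw [mul_comm (χ γ), mul_assoc, hB γ hγ j, Finset.mul_sum]
          refine Finset.sum_congr rfl fun ε _ => ?_
          ring
      _ = ∑ ε ∈ E, χ ε * ∑ j, ∑ γ ∈ G, ((d (r i) (γ • r j) : ℤ) : F31) *
            ((d (γ • r j) (ε • r k) : ℤ) : F31) := by
          simp only [Finset.mul_sum]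
          rw [Finset.sum_comm (s := E)]
          refine Finset.sum_congr rfl fun j _ => ?_
          rw [Finset.sum_comm]
      _ = 0 := by
          refine Finset.sum_eq_zero fun ε _ => ?_
          rw [hC ε, mul_zero]

end Pool.Agent.Lib.MP_39dc45_gt.SP
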