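import Pool.Agent.Lib.MP_39dc45_gt.SP.StA

/-!
# MP_39dc45_gt: the torsion does not depend on the representatives
-/

open Matrix

noncomputable section

namespace Pool.Agent.Lib.MP_39dc45_gt.SP

namespace E2

variable {Γ I : Type} [Group Γ] [MulAction Γ I] {P : Set I} {deg : I → ℕ} {d : I → I → ℤ}

theorem tw_change (E : EC Γ P deg d) (χ : Γ →* F31) {J J' : Type} (r : J → I) (r' : J' → I)
    (i j : J) (i' j' : J') (a b : Γ) (ha : a • r' i' = r i) (hb : b • r' j' = r j) :
    χ a * tw χ d r' i' j' = tw χ d r i j * χ b := by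
  have h1 : tw χ d r i j = (χ a * χ b⁻¹) • tw χ d r' i' j' := by
    unfold tw
    rw [Matrix.of_apply, Matrix.of_apply, smul_finsum]
    rw [← finsum_comp_equiv ((Equiv.mulLeft a).trans (Equiv.mulRight b⁻¹))]
    refine finsum_congr fun ε => ?_
    have h2 : ((Equiv.mulLeft a).trans (Equiv.mulRight b⁻¹)) ε = a * ε * b⁻¹ := rfl
    have h3 : d (r i) ((a * ε * b⁻¹) • r j) = d (r' i') (ε • r' j') := by
      rw [← ha, ← hb, smul_smul, inv_mul_cancel_right, mul_smul, E.d_smul]
    rw [h2, h3, map_mul, map_mul, smul_eq_mul]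
    ring
  have h4 : χ b⁻¹ * χ b = 1 := by rw [← map_mul, inv_mul_cancel, map_one]
  rw [h1, smul_eq_mul]
  calc χ a * tw χ d r' i' j' = χ a * tw χ d r' i' j' * (χ b⁻¹ * χ b) := by rw [h4, mul_one]
    _ = _ := by ring

theorem exists_equiv {J J' : Type} (r : J → I) (r' : J' → I) (hr : IsRep Γ P r)
    (hr' : IsRep Γ P r') : ∃ (φ : J ≃ J') (g : J → Γ), ∀ j, g j • r' (φ j) = r j := by
  choose p hp hu using fun j => hr'.2 (r j) (hr.1 j)
  have hb : Function.Bijective fun j => (p j).2 := by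
    constructor
    · intro j1 j2 h
      have h' : (p j1).2 = (p j2).2 := h
      obtain ⟨q, -, hq⟩ := hr.2 (r j1) (hr.1 j1)
      have e1 := hq (1, j1) (one_smul Γ _)
      have e2 := hq ((p j1).1 * (p j2).1⁻¹, j2) (by
        change ((p j1).1 * (p j2).1⁻¹) • r j2 = r j1
        rw [← hp j2, smul_smul, inv_mul_cancel_right, ← h', hp j1])
      have e3 := e1.trans e2.symm
      exact congrArg Prod.snd e3
    · intro j'
      obtain ⟨⟨a, j⟩, hq, -⟩ := hr.2 (r' j') (hr'.1 j')
      refine ⟨j, ?_⟩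
      have e1 := hu j (a⁻¹, j') (by
        change a⁻¹ • r' j' = r j
        rw [← hq, inv_smul_smul])
      exact (congrArg Prod.snd e1).symm
  exact ⟨Equiv.ofBijective _ hb, fun j => (p j).1, fun j => hp j⟩

theorem change (h5 : StM5) (hE1 : StE1) (E : EC Γ P deg d) (χ : Γ →* F31) (hχ : Ten χ)
    {J J' : Type} [Fintype J] [DecidableEq J] [Fintype J'] [DecidableEq J'] (r : J → I)
    (r' : J' → I) (hr : IsRep Γ P r) (hr' : IsRep Γ P r') (u : F31) :
    TorM (fun j => deg (r j)) (tw χ d r) u ↔ TorM (fun j => deg (r' j)) (tw χ d r') u := by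
  obtain ⟨φ, g, h⟩ := exists_equiv r r' hr hr'
  have h1 := h5 J J' (fun j => deg (r j)) (fun j => deg (r' j)) (tw χ d r) (tw χ d r') φ
    (fun j => χ (g j)) 0 (hE1 Γ I P deg d χ E J r hr) (fun i => hχ _)
    (fun i => by
      change deg (r' (φ i)) = deg (r i) + 0
      rw [← h i, E.deg_smul, add_zero])
    (fun i j => tw_change E χ r r' i j (φ i) (φ j) (g i) (g j) (h i) (h j)) u
  rwa [if_pos (by decide : Even 0)] at h1

end E2

open E2 in
/-- The torsion does not depend on the representatives. -/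
theorem stE2 : StM1 → StM5 → StE1 → StE2 := by
  intro h1 h5 hE1 Γ I _ _ P deg d χ E hχ
  have key : ∀ (J : Type) [Fintype J] [DecidableEq J] (r : J → I), IsRep Γ P r →
      ∀ u, TorG Γ P deg d χ u ↔ TorM (fun j => deg (r j)) (tw χ d r) u := by
    intro J _ _ r hr u
    constructor
    · rintro ⟨J', i1, i2, r', hr', hT⟩
      exact (change h5 hE1 E χ hχ r' r hr' hr u).1 hT
    · intro hT
      exact ⟨J, inferInstance, inferInstance, r, hr, hT⟩
  refine ⟨?_, ?_, key⟩
  · rintro u u' ⟨J, i1, i2, r, hr, hT⟩ hu'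
    exact (h1 J _ _ (hE1 Γ I P deg d χ E J r hr)).1 u u' hT ((key J r hr u').1 hu')
  · rintro u ⟨J, i1, i2, r, hr, hT⟩
    exact (h1 J _ _ (hE1 Γ I P deg d χ E J r hr)).2.1 u hT

end Pool.Agent.Lib.MP_39dc45_gt.SP
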