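import Pool.Agent.Lib.MP_39dc45_gt.SP.StA

/-!
# MP_39dc45_gt: existence of representatives (module E3)
-/

noncomputable section

namespace Pool.Agent.Lib.MP_39dc45_gt.SP

/-- Module E3. -/
theorem stE3 : StE3 := by
  classical
  intro Γ I _ _ P F hP hfree hF hcov
  let mk : I → MulAction.orbitRel.Quotient Γ I := Quotient.mk''
  have hmk : ∀ i j : I, mk i = mk j ↔ ∃ γ : Γ, γ • j = i := by
    intro i j
    change (Quotient.mk'' i : MulAction.orbitRel.Quotient Γ I) = Quotient.mk'' j ↔ _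
    rw [Quotient.eq'', MulAction.orbitRel_apply]
    exact Iff.rfl
  let T : Set (MulAction.orbitRel.Quotient Γ I) := {q | ∃ i ∈ P, mk i = q}
  have hT : T.Finite := by
    refine (hF.image mk).subset ?_
    rintro q ⟨i, hi, rfl⟩
    obtain ⟨γ, hγ⟩ := hcov i hi
    exact ⟨γ • i, hγ, (hmk _ _).2 ⟨γ, rfl⟩⟩
  have : Finite T := hT
  let r : T → I := fun q => q.2.choose
  have hrP : ∀ q : T, r q ∈ P := fun q => q.2.choose_spec.1
  have hrq : ∀ q : T, mk (r q) = q.1 := fun q => q.2.choose_spec.2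
  refine ⟨T, Fintype.ofFinite T, inferInstance, r, hrP, ?_⟩
  intro i hi
  have h1 := hrq ⟨mk i, i, hi, rfl⟩
  obtain ⟨γ, hγ⟩ := (hmk _ _).1 h1.symm
  refine ⟨(γ, ⟨mk i, i, hi, rfl⟩), hγ, ?_⟩
  rintro ⟨γ', j⟩ hj
  change γ' • r j = i at hj
  have h2 : j = ⟨mk i, i, hi, rfl⟩ := by
    apply Subtype.ext
    rw [← hrq j]
    exact ((hmk _ _).2 ⟨γ', hj⟩).symm
  subst h2
  have h3 : γ⁻¹ * γ' = 1 := by
    apply hfree _ _ (hrP ⟨mk i, i, hi, rfl⟩)
    rw [mul_smul, hj, inv_smul_eq_iff]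
    exact hγ.symm
  rw [inv_mul_eq_one] at h3
  rw [h3]

end Pool.Agent.Lib.MP_39dc45_gt.SP
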