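import Pool.Agent.Lib.MP_39dc45_gt.SP.StA

/-!
# MP_39dc45_gt, E4: free filtrations with integrally contractible blocks
-/

open Matrix

noncomputable section

namespace Pool.Agent.Lib.MP_39dc45_gt.SP

namespace E4

/-- A choice of representatives of the orbits. -/
theorem exists_rep (Γ L : Type) [Group Γ] [MulAction Γ L] :
    ∃ c : L → L, (∀ (γ : Γ) l, c (γ • l) = c l) ∧ ∀ l, ∃ γ : Γ, γ • c l = l := by
  refine ⟨fun l => (Quotient.mk (MulAction.orbitRel Γ L) l).out, ?_, ?_⟩
  · intro γ l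
    have h : Quotient.mk (MulAction.orbitRel Γ L) (γ • l) = Quotient.mk (MulAction.orbitRel Γ L) l :=
      Quotient.sound (MulAction.orbitRel_apply.2 ⟨γ, rfl⟩)
    simp only [h]
  · intro l
    have h := Quotient.mk_out (s := MulAction.orbitRel Γ L) l
    obtain ⟨γ, hγ⟩ := MulAction.orbitRel_apply.1 ((MulAction.orbitRel Γ L).symm' h)
    exact ⟨γ, hγ⟩

section reindex
variable {B C : Type} [Fintype B] [Fintype C] {R : Type} [Ring R]

theorem cx_submatrix {deg : C → ℕ} {D : Matrix C C R} (h : Cx deg D) (e : B ≃ C) :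
    Cx (fun b => deg (e b)) (D.submatrix e e) where
  deg_D i j hij := h.deg_D _ _ hij
  sq := by
    rw [Matrix.submatrix_mul_equiv, h.sq]
    rfl

theorem contr_submatrix [DecidableEq B] [DecidableEq C] {deg : C → ℕ} {D S : Matrix C C R} (h : Contr deg D S) (e : B ≃ C) :
    Contr (fun b => deg (e b)) (D.submatrix e e) (S.submatrix e e) where
  deg_S i j hij := h.deg_S _ _ hij
  eq := by
    rw [Matrix.submatrix_mul_equiv, Matrix.submatrix_mul_equiv]
    change (D * S + S * D).submatrix e e = 1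
    rw [h.eq, Matrix.submatrix_one_equiv]

end reindex

section block
variable {Γ I L : Type} [Group Γ] [MulAction Γ I] [MulAction Γ L] [DecidableEq I] {P : Set I}
  {deg : I → ℕ} {d : I → I → ℤ} {p : I → L} {rk : L → ℕ}

omit [MulAction Γ L] in
/-- The blocks are complexes. -/
theorem block_cx (hE : EC Γ P deg d)
    (hfil : ∀ i ∈ P, ∀ j ∈ P, d i j ≠ 0 → p i = p j ∨ rk (p j) < rk (p i)) (l : L)
    (s : Finset I) (hs : ∀ i, i ∈ s ↔ i ∈ P ∧ p i = l) :
    Cx (fun i : s => deg i) (Matrix.of fun i j : s => d i j) where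
  deg_D i j hij := hE.deg_d i ((hs i).1 i.2).1 j ((hs j).1 j.2).1 hij
  sq := by
    classical
    ext i k
    obtain ⟨hiP, hil⟩ := (hs i).1 i.2
    obtain ⟨hkP, hkl⟩ := (hs k).1 k.2
    have h := hE.sq i hiP k hkP
    rw [Matrix.mul_apply, Matrix.zero_apply]
    change ∑ j : s, d i j * d j k = 0
    rw [Finset.sum_coe_sort s (fun j => d i j * d j k), ← h, eq_comm]
    have h1 : ∀ j : I, (∑ᶠ (_ : j ∈ P), d i j * d j k) = if j ∈ s then d i j * d j k else 0 := by
      intro j
      by_cases hj : j ∈ P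
      · rw [finsum_eq_if]
        rw [if_pos hj]
        by_cases hjs : j ∈ s
        · rw [if_pos hjs]
        · rw [if_neg hjs]
          by_contra hne
          have hd1 : d i j ≠ 0 := fun h0 => hne (by rw [h0, zero_mul])
          have hd2 : d j k ≠ 0 := fun h0 => hne (by rw [h0, mul_zero])
          apply hjs
          refine (hs j).2 ⟨hj, ?_⟩
          rcases hfil i hiP j hj hd1 with e1 | e1
          · rw [← e1, hil]
          · rcases hfil j hj k hkP hd2 with e2 | e2
            · rw [e2, hkl]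
            · exfalso
              rw [hil] at e1
              rw [hkl] at e2
              omega
      · rw [finsum_eq_if, if_neg hj, if_neg]
        intro hjs
        exact hj ((hs j).1 hjs).1
    rw [finsum_congr h1, finsum_eq_sum_of_support_subset]
    · exact Finset.sum_congr rfl fun j hj => if_pos hj
    · intro j hj
      by_contra hjs
      exact hj (if_neg hjs)

/-- The blocks have trivial torsion. -/
theorem block_tor (hM6 : StM6) (hE : EC Γ P deg d) {χ : Γ →* F31}
    (hfil : ∀ i ∈ P, ∀ j ∈ P, d i j ≠ 0 → p i = p j ∨ rk (p j) < rk (p i))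
    (hp : ∀ (γ : Γ), ∀ i ∈ P, p (γ • i) = γ • p i) (hrk : ∀ (γ : Γ) l, rk (γ • l) = rk l)
    (hfree : ∀ i ∈ P, ∀ γ : Γ, γ • p i = p i → γ = 1) (l : L) (s : Finset I)
    (hs : ∀ i, i ∈ s ↔ i ∈ P ∧ p i = l) (hZ : ZC deg d s) {B : Type} [Fintype B] [DecidableEq B]
    (e : B ≃ s) : TorM (fun b => deg (e b)) (tw χ d (fun b => (e b : I))) 1 := by
  obtain ⟨S, hS⟩ := hZ
  have h1 := hM6 B (fun b => deg (e b)) _ _ (cx_submatrix (block_cx hE hfil l s hs) e)
    (contr_submatrix hS e)
  have h2 : tw χ d (fun b => (e b : I)) = (((Matrix.of fun i j : s => d i j).submatrix e e).map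
      (Int.cast : ℤ → F31)) := by
    ext a b
    obtain ⟨haP, hal⟩ := (hs _).1 (e a).2
    obtain ⟨hbP, hbl⟩ := (hs _).1 (e b).2
    change ∑ᶠ γ : Γ, χ γ * ((d (e a) (γ • (e b : I)) : ℤ) : F31) = ((d (e a) (e b) : ℤ) : F31)
    rw [finsum_eq_single _ (1 : Γ), map_one, one_mul, one_smul]
    intro γ hγ
    by_contra hne
    apply hγ
    have hd : d (e a) (γ • (e b : I)) ≠ 0 := by
      intro h0
      apply hne
      rw [h0, Int.cast_zero, mul_zero]
    rcases hfil _ haP _ (hE.smul_mem γ _ hbP) hd with h3 | h3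
    · apply hfree _ hbP
      rw [← hp γ _ hbP, ← h3, hal, hbl]
    · exfalso
      rw [hp γ _ hbP, hrk, hal, hbl] at h3
      exact lt_irrefl _ h3
  rw [h2]
  exact h1

end block

end E4

open E4 in
/-- **E4**: the torsion of a complex with a free filtration with integrally contractible
blocks. -/
theorem stE4 : StM4 → StM6 → StE1 → StE4 := by
  intro hM4 hM6 hE1 Γ I L _ _ _ _ P deg d χ p rk hE _ hp hrk hfil hfree hF hblk
  classical
  obtain ⟨c, hc1, hc2⟩ := exists_rep Γ L
  obtain ⟨F, hFf, hF⟩ := hF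
  choose s hs hZ using hblk
  have hK : {m : L | ∃ i ∈ P, m = c (p i)}.Finite := by
    refine (hFf.image c).subset ?_
    rintro m ⟨i, hi, rfl⟩
    obtain ⟨γ, hγ⟩ := hF i hi
    exact ⟨γ • p i, hγ, hc1 γ _⟩
  set K : Finset L := hK.toFinset with hKd
  have hKm : ∀ m, m ∈ K ↔ ∃ i ∈ P, m = c (p i) := fun m => by
    rw [hKd, Set.Finite.mem_toFinset]
    rfl
  -- idempotence of the choice of representatives
  have hcc : ∀ l, c (c l) = c l := by
    intro l
    obtain ⟨γ, hγ⟩ := hc2 l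
    have h1 := hc1 γ (c l)
    rw [hγ] at h1
    exact h1.symm
  have hKc : ∀ m ∈ K, c m = m := by
    intro m hm
    obtain ⟨i, _, rfl⟩ := (hKm m).1 hm
    exact hcc _
  let J : Type := Σ m : K, s m
  let r : J → I := fun j => (j.2 : I)
  have hrP : ∀ j : J, r j ∈ P := fun j => ((hs _ _).1 j.2.2).1
  have hrp : ∀ j : J, p (r j) = j.1 := fun j => ((hs _ _).1 j.2.2).2
  have hrep : IsRep Γ P r := by
    refine ⟨hrP, fun i hi => ?_⟩
    obtain ⟨γ, hγ⟩ := hc2 (p i)
    have hm : c (p i) ∈ K := (hKm _).2 ⟨i, hi, rfl⟩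
    have hi' : γ⁻¹ • i ∈ s (c (p i)) := by
      refine (hs _ _).2 ⟨hE.smul_mem _ _ hi, ?_⟩
      rw [hp _ _ hi, inv_smul_eq_iff, hγ]
    refine ⟨(γ, ⟨⟨c (p i), hm⟩, ⟨γ⁻¹ • i, hi'⟩⟩), smul_inv_smul γ i, ?_⟩
    rintro ⟨γ', j⟩ hj
    change γ' • r j = i at hj
    have h1 : p i = γ' • (j.1 : L) := by
      rw [← hj, hp _ _ (hrP j), hrp]
    have h2 : c (p i) = j.1 := by
      rw [h1, hc1, hKc _ j.1.2]
    have h3 : γ' = γ := by
      have h4 : (γ⁻¹ * γ') • p (r j) = p (r j) := by
        rw [hrp, mul_smul, ← h1, inv_smul_eq_iff, ← h2, hγ]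
      have h5 := hfree _ (hrP j) _ h4
      rw [inv_mul_eq_one] at h5
      exact h5.symm
    subst h3
    have h6 : r j = γ'⁻¹ • i := by
      rw [← hj, inv_smul_smul]
    refine Prod.ext rfl ?_
    rcases j with ⟨⟨m, hmK⟩, ⟨x, hx⟩⟩
    change c (p i) = m at h2
    change x = γ'⁻¹ • i at h6
    subst h2
    subst h6
    rfl
  refine ⟨J, inferInstance, inferInstance, r, hrep, ?_⟩
  have hcx := hE1 Γ I P deg d χ hE J r hrep
  have h := hM4 J K (fun j => deg (r j)) (tw χ d r) (fun j => j.1) (fun m => rk m) hcx ?_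
    (fun _ => 1) ?_
  · rw [Finset.prod_const_one] at h
    exact h
  · intro a b hab
    have hex : ∃ γ : Γ, χ γ * ((d (r a) (γ • r b) : ℤ) : F31) ≠ 0 := by
      by_contra hno
      push Not at hno
      exact hab (finsum_eq_zero_of_forall_eq_zero hno)
    obtain ⟨γ, hγ⟩ := hex
    have hd : d (r a) (γ • r b) ≠ 0 := by
      intro h0
      apply hγ
      rw [h0, Int.cast_zero, mul_zero]
    rcases hfil _ (hrP a) _ (hE.smul_mem γ _ (hrP b)) hd with h3 | h3
    · left
      apply Subtype.ext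
      rw [hrp, hp _ _ (hrP b), hrp] at h3
      rw [← hKc _ a.1.2, h3, hc1, hKc _ b.1.2]
    · right
      rw [hrp, hp _ _ (hrP b), hrk, hrp] at h3
      exact h3
  · intro m
    let e : {j : J // j.1 = m} ≃ s m :=
      { toFun := fun j => ⟨r j.1, (hs m _).2 ⟨hrP j.1, by rw [hrp, j.2]⟩⟩
        invFun := fun x => ⟨⟨m, x⟩, rfl⟩
        left_inv := by
          rintro ⟨⟨m', x⟩, h1⟩
          change m' = m at h1
          subst h1
          rfl
        right_inv := fun x => rfl }
    exact block_tor hM6 hE hfil hp hrk hfree m (s m) (hs m) (hZ m) e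

end Pool.Agent.Lib.MP_39dc45_gt.SP
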