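import Pool.Agent.Lib.MP_39dc45_gt.SP.StA

/-!
# MP_39dc45_gt, E5: sub and quotient complexes
-/

open Matrix

noncomputable section

namespace Pool.Agent.Lib.MP_39dc45_gt.SP

namespace E5

variable {Γ I : Type} [Group Γ] [MulAction Γ I] {P P1 P2 : Set I} {deg : I → ℕ}
  {d : I → I → ℤ}

theorem ec_sub (h : EC Γ P deg d) (hP : P = P1 ∪ P2)
    (s1 : ∀ (γ : Γ) i, i ∈ P1 → γ • i ∈ P1) (h0 : ∀ i ∈ P1, ∀ j ∈ P2, d i j = 0) :
    EC Γ P1 deg d := by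
  have hsub : P1 ⊆ P := hP ▸ Set.subset_union_left
  refine ⟨s1, fun γ i hi => h.free γ i (hsub hi), h.deg_smul, h.d_smul,
    fun i hi => (h.fin i (hsub hi)).subset fun j hj => ⟨hsub hj.1, hj.2⟩,
    fun i hi j hj => h.deg_d i (hsub hi) j (hsub hj), fun i hi k hk => ?_⟩
  rw [← h.sq i (hsub hi) k (hsub hk)]
  refine finsum_mem_inter_support_eq _ _ _ ?_
  ext j
  constructor
  · rintro ⟨hj, hs⟩
    exact ⟨hsub hj, hs⟩
  · rintro ⟨hj, hs⟩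
    refine ⟨?_, hs⟩
    rw [hP] at hj
    rcases hj with hj | hj
    · exact hj
    · refine absurd ?_ hs
      change d i j * d j k = 0
      rw [h0 i hi j hj, zero_mul]

theorem ec_quo (h : EC Γ P deg d) (hP : P = P1 ∪ P2)
    (s2 : ∀ (γ : Γ) i, i ∈ P2 → γ • i ∈ P2) (h0 : ∀ i ∈ P1, ∀ j ∈ P2, d i j = 0) :
    EC Γ P2 deg d := by
  have hsub : P2 ⊆ P := hP ▸ Set.subset_union_right
  refine ⟨s2, fun γ i hi => h.free γ i (hsub hi), h.deg_smul, h.d_smul,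
    fun i hi => (h.fin i (hsub hi)).subset fun j hj => ⟨hsub hj.1, hj.2⟩,
    fun i hi j hj => h.deg_d i (hsub hi) j (hsub hj), fun i hi k hk => ?_⟩
  rw [← h.sq i (hsub hi) k (hsub hk)]
  refine finsum_mem_inter_support_eq _ _ _ ?_
  ext j
  constructor
  · rintro ⟨hj, hs⟩
    exact ⟨hsub hj, hs⟩
  · rintro ⟨hj, hs⟩
    refine ⟨?_, hs⟩
    rw [hP] at hj
    rcases hj with hj | hj
    · refine absurd ?_ hs
      change d i j * d j k = 0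
      rw [h0 j hj k hk, mul_zero]
    · exact hj

variable {J : Type} {r : J → I}

theorem rep_sub (hr : IsRep Γ P r) (h1 : P1 ⊆ P) (s1 : ∀ (γ : Γ) i, i ∈ P1 → γ • i ∈ P1) :
    IsRep Γ P1 (fun j : {j // r j ∈ P1} => r j) := by
  refine ⟨fun j => j.2, fun i hi => ?_⟩
  obtain ⟨⟨γ, j⟩, hp, huniq⟩ := hr.2 i (h1 hi)
  have hp' : γ • r j = i := hp
  have hj : r j ∈ P1 := by
    have := s1 γ⁻¹ i hi
    rwa [← hp', inv_smul_smul] at this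
  refine ⟨(γ, ⟨j, hj⟩), hp', ?_⟩
  rintro ⟨γ', j', hj'⟩ hq
  have := huniq (γ', j') hq
  rw [Prod.mk.injEq] at this
  obtain ⟨rfl, rfl⟩ := this
  rfl

theorem rep_quo (hr : IsRep Γ P r) (hP : P = P1 ∪ P2) (hd : Disjoint P1 P2)
    (s2 : ∀ (γ : Γ) i, i ∈ P2 → γ • i ∈ P2) :
    IsRep Γ P2 (fun j : {j // ¬ (r j ∈ P1)} => r j) := by
  have h2 : P2 ⊆ P := hP ▸ Set.subset_union_right
  refine ⟨fun j => ?_, fun i hi => ?_⟩
  · have := hr.1 j.1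
    rw [hP] at this
    exact this.resolve_left j.2
  · obtain ⟨⟨γ, j⟩, hp, huniq⟩ := hr.2 i (h2 hi)
    have hp' : γ • r j = i := hp
    have hj : r j ∈ P2 := by
      have := s2 γ⁻¹ i hi
      rwa [← hp', inv_smul_smul] at this
    refine ⟨(γ, ⟨j, fun h => Set.disjoint_left.1 hd h hj⟩), hp', ?_⟩
    rintro ⟨γ', j', hj'⟩ hq
    have := huniq (γ', j') hq
    rw [Prod.mk.injEq] at this
    obtain ⟨rfl, rfl⟩ := this
    rfl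

theorem tw_zero (χ : Γ →* F31) (h0 : ∀ i ∈ P1, ∀ j ∈ P2, d i j = 0)
    (s2 : ∀ (γ : Γ) i, i ∈ P2 → γ • i ∈ P2) (hrP : ∀ j, r j ∈ P) (hP : P = P1 ∪ P2) :
    ∀ i j, r i ∈ P1 → ¬ (r j ∈ P1) → tw χ d r i j = 0 := by
  intro i j hi hj
  have hj2 : r j ∈ P2 := by
    have := hrP j
    rw [hP] at this
    exact this.resolve_left hj
  change ∑ᶠ γ : Γ, χ γ * ((d (r i) (γ • r j) : ℤ) : F31) = 0
  rw [finsum_eq_zero_of_forall_eq_zero]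
  intro γ
  rw [h0 _ hi _ (s2 γ _ hj2), Int.cast_zero, mul_zero]

theorem rep_sum {J1 J2 : Type} {r1 : J1 → I} {r2 : J2 → I} (hr1 : IsRep Γ P1 r1)
    (hr2 : IsRep Γ P2 r2) (hP : P = P1 ∪ P2) (hd : Disjoint P1 P2)
    (s1 : ∀ (γ : Γ) i, i ∈ P1 → γ • i ∈ P1) (s2 : ∀ (γ : Γ) i, i ∈ P2 → γ • i ∈ P2) :
    IsRep Γ P (Sum.elim r1 r2) := by
  subst hP
  refine ⟨?_, ?_⟩
  · rintro (j | j)
    · exact Or.inl (hr1.1 j)
    · exact Or.inr (hr2.1 j)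
  · rintro i (hi | hi)
    · obtain ⟨⟨γ, j⟩, hp, huniq⟩ := hr1.2 i hi
      refine ⟨(γ, Sum.inl j), hp, ?_⟩
      rintro ⟨γ', j' | j'⟩ hq
      · have := huniq (γ', j') hq
        rw [Prod.mk.injEq] at this
        obtain ⟨rfl, rfl⟩ := this
        rfl
      · have hq' : γ' • r2 j' = i := hq
        exact absurd (hq' ▸ s2 γ' _ (hr2.1 j')) (fun h => Set.disjoint_left.1 hd hi h)
    · obtain ⟨⟨γ, j⟩, hp, huniq⟩ := hr2.2 i hi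
      refine ⟨(γ, Sum.inr j), hp, ?_⟩
      rintro ⟨γ', j' | j'⟩ hq
      · have hq' : γ' • r1 j' = i := hq
        exact absurd (hq' ▸ s1 γ' _ (hr1.1 j')) (fun h => Set.disjoint_left.1 hd h hi)
      · have := huniq (γ', j') hq
        rw [Prod.mk.injEq] at this
        obtain ⟨rfl, rfl⟩ := this
        rfl

end E5

theorem stE5 : StM1 → StM2 → StM3 → StE1 → StE2 → StE5 := by
  classical
  intro M1 M2 M3 E1 E2 Γ I _ _ P P1 P2 deg d χ h hT hP hd s1 s2 h0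
  have e1 : EC Γ P1 deg d := E5.ec_sub h hP s1 h0
  have e2 : EC Γ P2 deg d := E5.ec_quo h hP s2 h0
  have hsub : P1 ⊆ P := hP ▸ Set.subset_union_left
  refine ⟨e1, e2, ?_, ?_, ?_⟩
  · intro u1 u2 t1 t2
    have t1' := t1
    have t2' := t2
    obtain ⟨J1, f1, g1, r1, hr1, -⟩ := t1'
    obtain ⟨J2, f2, g2, r2, hr2, -⟩ := t2'
    have hr := E5.rep_sum hr1 hr2 hP hd s1 s2
    refine ⟨J1 ⊕ J2, inferInstance, inferInstance, Sum.elim r1 r2, hr, ?_⟩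
    refine M3 _ _ _ (fun j => Sum.elim r1 r2 j ∈ P1) (E1 Γ I P deg d χ h _ _ hr)
      (E5.tw_zero χ h0 s2 hr.1 hP) u1 u2 ?_ ?_
    · exact ((E2 Γ I P1 deg d χ e1 hT).2.2 _ _ (E5.rep_sub hr hsub s1) u1).1 t1
    · exact ((E2 Γ I P2 deg d χ e2 hT).2.2 _ _ (E5.rep_quo hr hP hd s2) u2).1 t2
  · intro u u1 t t1
    obtain ⟨J, f, g, r, hr, ht⟩ := t
    have hcx := E1 Γ I P deg d χ h _ _ hr
    have hr1 := E5.rep_sub hr hsub s1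
    have hr2 := E5.rep_quo hr hP hd s2
    have hz := E5.tw_zero χ h0 s2 hr.1 hP
    have t1' := ((E2 Γ I P1 deg d χ e1 hT).2.2 _ _ hr1 u1).1 t1
    obtain ⟨S, hS, hu⟩ := ht
    obtain ⟨S1, hS1, -⟩ := t1'
    obtain ⟨S2, hS2⟩ := (M2 J F31 _ _ (fun j => r j ∈ P1) hcx hz).2.1 S S1 hS hS1
    obtain ⟨u2, hu2⟩ := (M1 _ _ _ (E1 Γ I P2 deg d χ e2 _ _ hr2)).2.2 S2 hS2
    have t1'' := ((E2 Γ I P1 deg d χ e1 hT).2.2 _ _ hr1 u1).1 t1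
    have h3 := M3 J _ _ (fun j => r j ∈ P1) hcx hz u1 u2 t1'' hu2
    have h4 : u = u1 * u2 := (M1 J _ _ hcx).1 u (u1 * u2) ⟨S, hS, hu⟩ h3
    have h5 : u1 ≠ 0 := (E2 Γ I P1 deg d χ e1 hT).2.1 u1 t1
    have h6 : u * u1⁻¹ = u2 := by
      rw [h4, mul_comm u1 u2, mul_assoc, mul_inv_cancel₀ h5, mul_one]
    rw [h6]
    exact ⟨_, _, _, _, hr2, hu2⟩
  · intro u u2 t t2
    obtain ⟨J, f, g, r, hr, ht⟩ := t
    have hcx := E1 Γ I P deg d χ h _ _ hr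
    have hr1 := E5.rep_sub hr hsub s1
    have hr2 := E5.rep_quo hr hP hd s2
    have hz := E5.tw_zero χ h0 s2 hr.1 hP
    have t2' := ((E2 Γ I P2 deg d χ e2 hT).2.2 _ _ hr2 u2).1 t2
    obtain ⟨S, hS, hu⟩ := ht
    obtain ⟨S2, hS2, -⟩ := t2'
    obtain ⟨S1, hS1⟩ := (M2 J F31 _ _ (fun j => r j ∈ P1) hcx hz).2.2 S S2 hS hS2
    obtain ⟨u1, hu1⟩ := (M1 _ _ _ (E1 Γ I P1 deg d χ e1 _ _ hr1)).2.2 S1 hS1
    have t2'' := ((E2 Γ I P2 deg d χ e2 hT).2.2 _ _ hr2 u2).1 t2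
    have h3 := M3 J _ _ (fun j => r j ∈ P1) hcx hz u1 u2 hu1 t2''
    have h4 : u = u1 * u2 := (M1 J _ _ hcx).1 u (u1 * u2) ⟨S, hS, hu⟩ h3
    have h5 : u2 ≠ 0 := (E2 Γ I P2 deg d χ e2 hT).2.1 u2 t2
    have h6 : u * u2⁻¹ = u1 := by
      rw [h4, mul_assoc, mul_inv_cancel₀ h5, mul_one]
    rw [h6]
    exact ⟨_, _, _, _, hr1, hu1⟩

end Pool.Agent.Lib.MP_39dc45_gt.SP
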