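import Pool.Agent.Lib.MP_39dc45_gt.SP.StA

/-!
# MP_39dc45_gt, E6: isomorphisms of complexes
-/

open Matrix

noncomputable section

namespace Pool.Agent.Lib.MP_39dc45_gt.SP

namespace E6Aux

variable {Γ I I' : Type} [Group Γ] [MulAction Γ I] [MulAction Γ I'] {P : Set I} {P' : Set I'}
  {φ : I → I'}

theorem rep_iff (hP : ∀ (γ : Γ) i, i ∈ P → γ • i ∈ P) (hφ : Set.BijOn φ P P')
    (heq : ∀ (γ : Γ), ∀ i ∈ P, φ (γ • i) = γ • φ i) {J : Type} {r : J → I} {r' : J → I'}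
    (hr : ∀ j, r j ∈ P) (hrr : ∀ j, φ (r j) = r' j) : IsRep Γ P r ↔ IsRep Γ P' r' := by
  have key : ∀ i ∈ P, ∀ p : Γ × J, (p.1 • r p.2 = i ↔ p.1 • r' p.2 = φ i) := by
    intro i hi p
    rw [← hrr p.2, ← heq p.1 (r p.2) (hr p.2)]
    exact (hφ.injOn.eq_iff (hP p.1 _ (hr p.2)) hi).symm
  constructor
  · intro h
    refine ⟨fun j => ?_, fun i' hi' => ?_⟩
    · rw [← hrr j]
      exact hφ.mapsTo (hr j)
    · obtain ⟨i, hi, rfl⟩ := hφ.surjOn hi'
      obtain ⟨p, hp, hu⟩ := h.2 i hi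
      exact ⟨p, (key i hi p).1 hp, fun q hq => hu q ((key i hi q).2 hq)⟩
  · intro h
    refine ⟨hr, fun i hi => ?_⟩
    obtain ⟨p, hp, hu⟩ := h.2 (φ i) (hφ.mapsTo hi)
    exact ⟨p, (key i hi p).2 hp, fun q hq => hu q ((key i hi q).1 hq)⟩

end E6Aux

theorem stE6 : StM5 → StE1 → StE6 := by
  intro hM5 hE1 Γ I I' _ _ _ P P' deg deg' d d' χ φ ε k hE hT hφ heq hdeg hε hεs hd u
  have main : ∀ (J : Type) [Fintype J] [DecidableEq J] (r : J → I) (r' : J → I'),
      (∀ j, r j ∈ P) → (∀ j, φ (r j) = r' j) → IsRep Γ P r →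
      (TorM (fun j => deg (r j)) (tw χ d r) u ↔
        TorM (fun j => deg' (r' j)) (tw χ d' r') (if Even k then u else u⁻¹)) := by
    intro J _ _ r r' hr hrr hrep
    refine hM5 J J (fun j => deg (r j)) (fun j => deg' (r' j)) (tw χ d r) (tw χ d' r')
      (Equiv.refl J) (fun j => ((ε (r j) : ℤ) : F31)) k (hE1 Γ I P deg d χ hE J r hrep) ?_ ?_ ?_ u
    · intro j
      rcases hε (r j) (hr j) with h | h
      · rw [h]
        simp
      · rw [h]
        norm_num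
    · intro j
      change deg' (r' j) = deg (r j) + k
      rw [← hrr j]
      exact hdeg _ (hr j)
    · intro i j
      change ((ε (r i) : ℤ) : F31) * tw χ d' r' i j = tw χ d r i j * ((ε (r j) : ℤ) : F31)
      have h1 : tw χ d' r' i j = ((ε (r i) : ℤ) : F31) * ((ε (r j) : ℤ) : F31) * tw χ d r i j := by
        have h2 : ∀ γ : Γ, χ γ * ((d' (r' i) (γ • r' j) : ℤ) : F31) =
            ((ε (r i) : ℤ) : F31) * ((ε (r j) : ℤ) : F31) *
              (χ γ * ((d (r i) (γ • r j) : ℤ) : F31)) := by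
          intro γ
          rw [← hrr i, ← hrr j, ← heq γ (r j) (hr j),
            hd (r i) (hr i) (γ • r j) (hE.smul_mem γ _ (hr j)), hεs γ (r j) (hr j)]
          push_cast
          ring
        change ∑ᶠ γ : Γ, χ γ * ((d' (r' i) (γ • r' j) : ℤ) : F31) =
          ((ε (r i) : ℤ) : F31) * ((ε (r j) : ℤ) : F31) *
            ∑ᶠ γ : Γ, χ γ * ((d (r i) (γ • r j) : ℤ) : F31)
        rw [finsum_congr h2]
        exact (mul_finsum _ _).symm
      have h3 : ((ε (r i) : ℤ) : F31) * ((ε (r i) : ℤ) : F31) = 1 := by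
        rcases hε (r i) (hr i) with h | h
        · rw [h]
          simp
        · rw [h]
          norm_num
      rw [h1]
      calc ((ε (r i) : ℤ) : F31) * (((ε (r i) : ℤ) : F31) * ((ε (r j) : ℤ) : F31) * tw χ d r i j)
          = (((ε (r i) : ℤ) : F31) * ((ε (r i) : ℤ) : F31)) *
              (((ε (r j) : ℤ) : F31) * tw χ d r i j) := by ring
        _ = tw χ d r i j * ((ε (r j) : ℤ) : F31) := by rw [h3]; ring
  constructor
  · rintro ⟨J, hJ, hJ', r, hrep, hT1⟩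
    refine ⟨J, hJ, hJ', fun j => φ (r j), ?_, ?_⟩
    · exact (E6Aux.rep_iff hE.smul_mem hφ heq hrep.1 (fun _ => rfl)).1 hrep
    · exact (main J r (fun j => φ (r j)) hrep.1 (fun _ => rfl) hrep).1 hT1
  · rintro ⟨J, hJ, hJ', r', hrep', hT1⟩
    have hex : ∀ j, ∃ i ∈ P, φ i = r' j := fun j => hφ.surjOn (hrep'.1 j)
    choose r hr hrr using hex
    have hrep : IsRep Γ P r := (E6Aux.rep_iff hE.smul_mem hφ heq hr hrr).2 hrep'
    exact ⟨J, hJ, hJ', r, hrep, (main J r r' hr hrr hrep).2 hT1⟩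

end Pool.Agent.Lib.MP_39dc45_gt.SP
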