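import Pool.Agent.Lib.MP_39dc45_gt.SP.Defs

/-!
# MP_39dc45_gt: the example
-/

open scoped Topology
open Matrix

noncomputable section

namespace Pool.Agent.Lib.MP_39dc45_gt.SP

/-! ## The representation -/

/-- The homomorphism `ℤ/5 → G` defined by an element of order dividing five. -/
def cycHom {G : Type*} [Group G] (g : G) (h : g ^ 5 = 1) : Cyc 5 →* G where
  toFun t := g ^ (Multiplicative.toAdd t).val
  map_one' := by simp
  map_mul' a b := by
    rw [← pow_add, toAdd_mul, ZMod.val_add]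
    exact (pow_eq_pow_mod _ h).symm

/-- The companion matrix of `1 + x + x² + x³ + x⁴`. -/
def C4 : Matrix (Fin 4) (Fin 4) ℤ := !![0, 0, 0, -1; 1, 0, 0, -1; 0, 1, 0, -1; 0, 0, 1, -1]

theorem C4_pow : C4 ^ 5 = 1 := by decide

/-- The companion matrix as an invertible matrix. -/
def C4u : GL (Fin 4) ℤ := ⟨C4, C4 ^ 4, by decide, by decide⟩

theorem C4u_pow : C4u ^ 5 = 1 := by
  apply Units.ext
  simpa [C4u] using C4_pow

/-- The representation `ρ`. -/
def rho5 : Cyc 5 →* GL (Fin 4) ℤ := cycHom C4u C4u_pow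

theorem rho5_coe (g : Cyc 5) : (rho5 g : Matrix (Fin 4) (Fin 4) ℤ)
    = C4 ^ (Multiplicative.toAdd g).val := by
  simp [rho5, cycHom, C4u]

theorem rho5_free : ∀ g : Cyc 5, g ≠ 1 → ∀ v : Fin 4 → ℤ,
    ((rho5 g : GL (Fin 4) ℤ) : Matrix (Fin 4) (Fin 4) ℤ) *ᵥ v = v → v = 0 := by
  intro g hg v hv
  rw [rho5_coe] at hv
  have key : ∀ k : ℕ, k = 1 ∨ k = 2 ∨ k = 3 ∨ k = 4 → C4 ^ k *ᵥ v = v → v = 0 := by
    intro k hk h
    have e2 : C4 ^ 2 = !![0, 0, -1, 1; 0, 0, -1, 0; 1, 0, -1, 0; 0, 1, -1, 0] := by decide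
    have e3 : C4 ^ 3 = !![0, -1, 1, 0; 0, -1, 0, 1; 0, -1, 0, 0; 1, -1, 0, 0] := by decide
    have e4 : C4 ^ 4 = !![-1, 1, 0, 0; -1, 0, 1, 0; -1, 0, 0, 1; -1, 0, 0, 0] := by decide
    rcases hk with rfl | rfl | rfl | rfl
    · rw [pow_one] at h
      have h0 := congrFun h 0; have h1 := congrFun h 1; have h2 := congrFun h 2
      have h3 := congrFun h 3
      simp [C4, Matrix.mulVec, dotProduct, Fin.sum_univ_four] at h0 h1 h2 h3
      ext i; fin_cases i <;> simp <;> omega
    · rw [e2] at h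
      have h0 := congrFun h 0; have h1 := congrFun h 1; have h2 := congrFun h 2
      have h3 := congrFun h 3
      simp [Matrix.mulVec, dotProduct, Fin.sum_univ_four] at h0 h1 h2 h3
      ext i; fin_cases i <;> simp <;> omega
    · rw [e3] at h
      have h0 := congrFun h 0; have h1 := congrFun h 1; have h2 := congrFun h 2
      have h3 := congrFun h 3
      simp [Matrix.mulVec, dotProduct, Fin.sum_univ_four] at h0 h1 h2 h3
      ext i; fin_cases i <;> simp <;> omega
    · rw [e4] at h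
      have h0 := congrFun h 0; have h1 := congrFun h 1; have h2 := congrFun h 2
      have h3 := congrFun h 3
      simp [Matrix.mulVec, dotProduct, Fin.sum_univ_four] at h0 h1 h2 h3
      ext i; fin_cases i <;> simp <;> omega
  apply key _ _ hv
  have hlt := (Multiplicative.toAdd g).val_lt
  have hne : (Multiplicative.toAdd g).val ≠ 0 := by
    intro h0
    apply hg
    have := (ZMod.val_eq_zero (Multiplicative.toAdd g)).1 h0
    exact Multiplicative.toAdd.injective this
  omega

/-- `p = 5`, `n = 4`. -/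
abbrev exR : Rep where
  p := 5
  prime := by norm_num
  odd := by norm_num
  n := 4
  rho := rho5
  rho_free := rho5_free

/-! ## The rotations of `S³` -/

/-- Multiplication by the complex number `u` on `ℝ⁴ = ℂ²`. -/
def rotE (u : ℂ) (x : EuclideanSpace ℝ (Fin 4)) : EuclideanSpace ℝ (Fin 4) :=
  !₂[u.re * x 0 - u.im * x 1, u.im * x 0 + u.re * x 1, u.re * x 2 - u.im * x 3,
    u.im * x 2 + u.re * x 3]

theorem rotE_mul (u v : ℂ) (x : EuclideanSpace ℝ (Fin 4)) :
    rotE (u * v) x = rotE u (rotE v x) := by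
  ext i
  fin_cases i <;> simp [rotE] <;> ring

theorem rotE_one (x : EuclideanSpace ℝ (Fin 4)) : rotE 1 x = x := by
  ext i
  fin_cases i <;> simp [rotE]

theorem norm_rotE (u : ℂ) (x : EuclideanSpace ℝ (Fin 4)) : ‖rotE u x‖ = ‖u‖ * ‖x‖ := by
  have h1 : ‖rotE u x‖ ^ 2 = (‖u‖ * ‖x‖) ^ 2 := by
    rw [mul_pow, EuclideanSpace.norm_sq_eq, EuclideanSpace.norm_sq_eq, Complex.sq_norm,
      Complex.normSq_apply]
    simp [Fin.sum_univ_four, rotE]
    ring
  exact (pow_left_inj₀ (norm_nonneg _) (by positivity) two_ne_zero).1 h1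

theorem continuous_rotE (u : ℂ) : Continuous (rotE u) := by
  unfold rotE
  fun_prop

/-- The rotation of `S³` by a complex number of modulus one. -/
def rotH : Circle →* (Sph 3 ≃ₜ Sph 3) where
  toFun u :=
    { toFun := fun s => ⟨rotE u s, by
        have := s.2
        rw [mem_sphere_zero_iff_norm] at this ⊢
        rw [norm_rotE, this, mul_one, Circle.norm_coe]⟩
      invFun := fun s => ⟨rotE (u⁻¹ : Circle) s, by
        have := s.2
        rw [mem_sphere_zero_iff_norm] at this ⊢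
        rw [norm_rotE, this, mul_one, Circle.norm_coe]⟩
      left_inv := fun s => by
        apply Subtype.ext
        change rotE _ (rotE _ _) = _
        rw [← rotE_mul, ← Circle.coe_mul]
        simp [rotE_one]
      right_inv := fun s => by
        apply Subtype.ext
        change rotE _ (rotE _ _) = _
        rw [← rotE_mul, ← Circle.coe_mul]
        simp [rotE_one]
      continuous_toFun := by
        apply Continuous.subtype_mk
        exact (continuous_rotE _).comp continuous_subtype_val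
      continuous_invFun := by
        apply Continuous.subtype_mk
        exact (continuous_rotE _).comp continuous_subtype_val }
  map_one' := by
    ext s i
    simp [rotE_one]
  map_mul' u v := by
    apply Homeomorph.ext
    intro s
    apply Subtype.ext
    change rotE _ _ = rotE _ (rotE _ _)
    rw [← rotE_mul, Circle.coe_mul]

/-- The two sides: the source `N` and the target `M`. -/
inductive Side
  | src
  | tgt

/-- The source has `t (z, w) = (ζ z, ζ w)`, the target `t (z, w) = (ζ² z, ζ² w)`. -/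
def Side.k : Side → ℕ
  | .src => 1
  | .tgt => 2

/-- The action of `ℤ/5` on `S³`. -/
def act5 (σ : Side) : Cyc 5 →* (Sph 3 ≃ₜ Sph 3) :=
  rotH.comp ((ZMod.toCircle (N := 5)).toMonoidHom.comp (powMonoidHom σ.k))

theorem act5_free (σ : Side) (g : Cyc 5) (hg : g ≠ 1) (s : Sph 3) : act5 σ g s ≠ s := by
  intro h
  set u : Circle := ZMod.toCircle (N := 5) (Multiplicative.toAdd (g ^ σ.k)) with hu
  have h1 : rotE (u : ℂ) (s : EuclideanSpace ℝ (Fin 4)) = s := congrArg Subtype.val h
  have hs : ‖(s : EuclideanSpace ℝ (Fin 4))‖ = 1 := by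
    have := s.2
    rwa [mem_sphere_zero_iff_norm] at this
  have h2 : rotE ((u : ℂ) - 1) (s : EuclideanSpace ℝ (Fin 4)) = 0 := by
    have e0 := congrArg (fun x : EuclideanSpace ℝ (Fin 4) => x 0) h1
    have e1 := congrArg (fun x : EuclideanSpace ℝ (Fin 4) => x 1) h1
    have e2 := congrArg (fun x : EuclideanSpace ℝ (Fin 4) => x 2) h1
    have e3 := congrArg (fun x : EuclideanSpace ℝ (Fin 4) => x 3) h1
    simp [rotE] at e0 e1 e2 e3
    ext i
    fin_cases i <;> simp [rotE] <;> linarith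
  have h3 : ‖(u : ℂ) - 1‖ = 0 := by
    have := norm_rotE ((u : ℂ) - 1) s
    rw [h2, hs, mul_one, norm_zero] at this
    exact this.symm
  have h4 : u = 1 := by
    apply Circle.ext
    rw [norm_eq_zero, sub_eq_zero] at h3
    simpa using h3
  have h5 : Multiplicative.toAdd (g ^ σ.k) = 0 := by
    apply ZMod.injective_toCircle (N := 5)
    rw [← hu, h4]
    simp
  have h6 : g ^ σ.k = 1 := Multiplicative.toAdd.injective h5
  have h7 : g ^ 5 = 1 := by
    apply Multiplicative.toAdd.injective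
    rw [toAdd_pow, toAdd_one, nsmul_eq_mul]
    have : ((5 : ℕ) : ZMod 5) = 0 := by decide
    rw [this, zero_mul]
  apply hg
  cases σ with
  | src => simpa [Side.k] using h6
  | tgt =>
    have h8 : g ^ 2 = 1 := h6
    calc g = g ^ 5 * (g ^ 2)⁻¹ * (g ^ 2)⁻¹ := by group
      _ = 1 := by rw [h7, h8]; simp

/-- The data of the source and of the target. -/
abbrev exD (σ : Side) : Dat where
  toRep := exR
  l := 3
  three_le := le_refl 3
  odd_l := by decide
  act := act5 σ
  act_free := act5_free σ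

/-! ## The triangulation of `ℝ⁴` -/

/-- The isomorphism of `ℤ⁴` (or `ℝ⁴`) with the vectors of sum zero in `ℤ⁵` (or `ℝ⁵`). -/
def bet {A : Type*} [AddCommGroup A] (a : Fin 4 → A) : ZMod 5 → A :=
  ![-a 0, a 0 - a 1, a 1 - a 2, a 2 - a 3, a 3]

theorem bet_add {A : Type*} [AddCommGroup A] (a b : Fin 4 → A) : bet (a + b) = bet a + bet b := by
  funext i
  fin_cases i
  · change -(a 0 + b 0) = -a 0 + -b 0; abel
  · change (a 0 + b 0) - (a 1 + b 1) = (a 0 - a 1) + (b 0 - b 1); abel
  · change (a 1 + b 1) - (a 2 + b 2) = (a 1 - a 2) + (b 1 - b 2); abel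
  · change (a 2 + b 2) - (a 3 + b 3) = (a 2 - a 3) + (b 2 - b 3); abel
  · change a 3 + b 3 = a 3 + b 3; rfl

theorem bet_zero {A : Type*} [AddCommGroup A] : bet (0 : Fin 4 → A) = 0 := by
  have := bet_add (0 : Fin 4 → A) 0
  rw [add_zero] at this
  exact left_eq_add.1 this

theorem bet_sum (a : Fin 4 → ℤ) : ∑ i, bet a i = 0 := by
  refine (Fin.sum_univ_five (fun i : Fin 5 => (bet a i : ℤ))).trans ?_
  change -a 0 + (a 0 - a 1) + (a 1 - a 2) + (a 2 - a 3) + a 3 = 0
  ring

theorem bet_C4 (a : Fin 4 → ℤ) : bet (C4 *ᵥ a) = fun i => bet a (i - 1) := by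
  funext i
  fin_cases i
  · change -((C4 *ᵥ a) 0) = a 3
    simp [C4, Matrix.mulVec, dotProduct, Fin.sum_univ_four]
  · change (C4 *ᵥ a) 0 - (C4 *ᵥ a) 1 = -a 0
    simp [C4, Matrix.mulVec, dotProduct, Fin.sum_univ_four]
  · change (C4 *ᵥ a) 1 - (C4 *ᵥ a) 2 = a 0 - a 1
    simp [C4, Matrix.mulVec, dotProduct, Fin.sum_univ_four]
  · change (C4 *ᵥ a) 2 - (C4 *ᵥ a) 3 = a 1 - a 2
    simp [C4, Matrix.mulVec, dotProduct, Fin.sum_univ_four]
  · change (C4 *ᵥ a) 3 = a 2 - a 3
    simp [C4, Matrix.mulVec, dotProduct, Fin.sum_univ_four]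
    ring

/-- Cyclic shift of the coordinates by `g`. -/
def shf {A : Type*} (g : Cyc 5) (v : ZMod 5 → A) : ZMod 5 → A :=
  fun i => v (i - Multiplicative.toAdd g)

theorem shf_one {A : Type*} (v : ZMod 5 → A) : shf 1 v = v := by
  funext i; simp [shf]

theorem shf_mul {A : Type*} (g h : Cyc 5) (v : ZMod 5 → A) : shf (g * h) v = shf g (shf h v) := by
  funext i
  simp only [shf, toAdd_mul]
  rw [sub_sub]

theorem bet_mat (g : Cyc 5) (a : Fin 4 → ℤ) : bet (exR.mat g *ᵥ a) = shf g (bet a) := by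
  have key : ∀ n : ℕ, bet (C4 ^ n *ᵥ a) = fun i => bet a (i - (n : ZMod 5)) := by
    intro n
    induction n with
    | zero => funext i; simp
    | succ n ih =>
      rw [pow_succ', ← Matrix.mulVec_mulVec, bet_C4, ih]
      funext i
      push_cast
      rw [sub_sub, add_comm]
  have h : exR.mat g = C4 ^ (Multiplicative.toAdd g).val := rho5_coe g
  rw [h, key]
  funext i
  rw [ZMod.natCast_zmod_val]
  rfl

/-- The vertices of the triangulation of `ℝ⁴`: `ℤ⁵/ℤ(1,1,1,1,1)`, normalised by `0 ≤ Σ v_i ≤ 4`. -/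
def V4 : Type := {v : ZMod 5 → ℤ // 0 ≤ ∑ i, v i ∧ ∑ i, v i ≤ 4}

instance : DecidableEq V4 := inferInstanceAs (DecidableEq {v : ZMod 5 → ℤ // _})

theorem shf_sum (g : Cyc 5) (v : ZMod 5 → ℤ) : ∑ i, shf g v i = ∑ i, v i :=
  Equiv.sum_comp (Equiv.subRight (Multiplicative.toAdd g)) v

/-- `(a, g) v = g v + a`. -/
instance : MulAction exR.Gam V4 where
  smul a v := ⟨shf a.g v.1 + bet a.v, by
    simp only [Pi.add_apply, Finset.sum_add_distrib]
    rw [shf_sum, bet_sum, add_zero]
    exact v.2⟩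
  one_smul v := by
    apply Subtype.ext
    change shf 1 v.1 + bet 0 = v.1
    rw [shf_one, bet_zero, add_zero]
  mul_smul a b v := by
    apply Subtype.ext
    change shf (a.g * b.g) v.1 + bet (a.v + exR.mat a.g *ᵥ b.v)
      = shf a.g (shf b.g v.1 + bet b.v) + bet a.v
    rw [shf_mul, bet_add, bet_mat]
    funext i
    simp only [shf, Pi.add_apply]
    ring

/-- `v` precedes `w`: `v ≤ w ≤ v + 1` and `v ≠ w`. -/
def R4 (v w : V4) : Prop := v ≠ w ∧ ∀ i, v.1 i ≤ w.1 i ∧ w.1 i ≤ v.1 i + 1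

/-- The barycentric coordinates on `ℝ⁴`: `b_v(x) = max (0, 1 - osc (v - x))`. -/
def b4 (x : Fin 4 → ℝ) (v : V4) : ℝ :=
  max 0 (1 - (Finset.univ.sup' Finset.univ_nonempty (fun i => (v.1 i : ℝ) - bet x i)
    - Finset.univ.inf' Finset.univ_nonempty (fun i => (v.1 i : ℝ) - bet x i)))

end Pool.Agent.Lib.MP_39dc45_gt.SP
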