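import Pool.Agent.Lib.MP_39dc45_gt.SP.Ex
import Pool.Agent.Lib.MP_39dc45_gt.SP.Alg

/-!
# MP_39dc45_gt: the triangulations of the two spheres and the maps
-/

open scoped Topology
open Matrix

noncomputable section

namespace Pool.Agent.Lib.MP_39dc45_gt.SP

/-! ## Combinatorics -/

/-- The projection `Γ → ℤ/5`. -/
def piG : exR.Gam →* Cyc 5 where
  toFun a := a.g
  map_one' := rfl
  map_mul' _ _ := rfl

instance {m c : ℕ} [FenOK m c] : MulAction exR.Gam (Fen m c) := MulAction.compHom _ piG

/-- `(Option A × Option B) \ {(none, none)}`: the boundary of the product of two cones. -/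
def Kp (A B : Type) : Type := {p : Option A × Option B // p ≠ (none, none)}

instance {A B : Type} [DecidableEq A] [DecidableEq B] : DecidableEq (Kp A B) :=
  inferInstanceAs (DecidableEq {p : Option A × Option B // _})

instance {A B : Type} [Fintype A] [Fintype B] [DecidableEq A] [DecidableEq B] : Fintype (Kp A B) :=
  inferInstanceAs (Fintype {p : Option A × Option B // p ≠ (none, none)})

instance {Γ A B : Type} [Group Γ] [MulAction Γ A] [MulAction Γ B] : MulAction Γ (Kp A B) where
  smul γ p := ⟨γ • p.1, by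
    rcases p with ⟨⟨a, b⟩, h⟩
    intro h'
    apply h
    have h1 : γ • a = none := congrArg Prod.fst h'
    have h2 : γ • b = none := congrArg Prod.snd h'
    cases a with
    | some a => simp at h1
    | none =>
      cases b with
      | some b => simp at h2
      | none => rfl⟩
  one_smul p := by
    apply Subtype.ext
    change (1 : Γ) • p.1 = p.1
    rw [one_smul]
  mul_smul a b p := by
    apply Subtype.ext
    change (a * b) • p.1 = a • b • p.1
    rw [mul_smul]

/-- The relation on `Kp A B`. -/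
def kpR {A B : Type} (RA : A → A → Prop) (RB : B → B → Prop) (a b : Kp A B) : Prop :=
  prodR (optR RA) (optR RB) a.1 b.1

/-- The map `Kp A B → A ⊕ B` onto the join: `(a, none) ↦ a`, `(x, b) ↦ b`. -/
def psi {A B : Type} : Kp A B → A ⊕ B
  | ⟨(_, some b), _⟩ => Sum.inr b
  | ⟨(some a, none), _⟩ => Sum.inl a
  | ⟨(none, none), h⟩ => absurd rfl h

/-- The fence with 30 points (source). -/
abbrev F30 : Type := Fen 30 6
/-- The fence with 10 points (target). -/
abbrev F10 : Type := Fen 10 4

/-- The vertices of the triangulation of the source sphere. -/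
abbrev KS : Type := Kp F30 F30
/-- The vertices of the triangulation of the target sphere. -/
abbrev KT : Type := F10 ⊕ F10
/-- The relation of the source sphere. -/
abbrev RS : KS → KS → Prop := kpR (fenR 30 6) (fenR 30 6)
/-- The relation of the target sphere. -/
abbrev RT : KT → KT → Prop := sumR (fenR 10 4) (fenR 10 4)

/-- The map of degree two on the first circle. -/
def tauF (s : F30) : F10 :=
  Fen.of 10 4 ((4 * (s.val / 6) + (if s.val % 6 < 2 then s.val % 6 else if s.val % 6 < 5 then 2 else 3)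
    : ℕ) : ZMod 10)

/-- The map of degree minus three on the second circle. -/
def negF (s : F30) : F10 := Fen.of 10 4 (-((s.val : ℕ) : ZMod 10))

/-- The map `α + β` on the torus. -/
def kapF (s r : F30) : F10 :=
  let n := (s.val / 2 + r.val / 2) % 15
  let len := s.val % 2 + r.val % 2
  Fen.of 10 4 ((2 * (n / 3) + (if (n % 3 = 0 ∧ len ≤ 1) ∨ (n % 3 = 1 ∧ len = 0) then 0 else 1)
    : ℕ) : ZMod 10)

/-- The simplicial map from the source sphere to the target sphere. -/
def fK : KS → KT
  | ⟨(some s, none), _⟩ => Sum.inl (tauF s)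
  | ⟨(none, some r), _⟩ => Sum.inl (negF r)
  | ⟨(some s, some r), _⟩ => Sum.inr (kapF s r)
  | ⟨(none, none), h⟩ => absurd rfl h

/-- The character `t ↦ 2` of `ℤ/5` with values in the field with 31 elements. -/
def chi5 : Cyc 5 →* F31 where
  toFun t := (2 : F31) ^ (Multiplicative.toAdd t).val
  map_one' := by simp
  map_mul' := by decide

/-! ## Coordinates on the spheres -/

/-- The first complex coordinate of a point of `S³`. -/
def zc (s : Sph 3) : ℂ := ⟨s.1 0, s.1 1⟩

/-- The second complex coordinate of a point of `S³`. -/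
def wc (s : Sph 3) : ℂ := ⟨s.1 2, s.1 3⟩

/-- The point of `ℝ⁴` with complex coordinates `z`, `w`. -/
def vec (z w : ℂ) : EuclideanSpace ℝ (Fin 4) := !₂[z.re, z.im, w.re, w.im]

/-- The normalisation of `(z, w)` (an arbitrary point if `z = w = 0`). -/
def toS (z w : ℂ) : Sph 3 :=
  if h : ‖vec z w‖ = 0 then ⟨vec 1 0, by
    rw [mem_sphere_zero_iff_norm, EuclideanSpace.norm_eq]
    simp [vec, Fin.sum_univ_four]⟩
  else ⟨‖vec z w‖⁻¹ • vec z w, by
    rw [mem_sphere_zero_iff_norm, norm_smul, norm_inv, norm_norm]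
    exact inv_mul_cancel₀ h⟩

/-- The polynomial map `(z, w) ↦ (z² + w̄³, z w)` of degree `-1`, normalised. -/
def FP (s : Sph 3) : Sph 3 :=
  toS (zc s ^ 2 + starRingEnd ℂ (wc s) ^ 3) (zc s * wc s)

/-- Its homotopy inverse: the composition with complex conjugation. -/
def FG (s : Sph 3) : Sph 3 :=
  toS (starRingEnd ℂ (zc s) ^ 2 + wc s ^ 3) (starRingEnd ℂ (zc s) * starRingEnd ℂ (wc s))

/-- The `m`-th roots of unity. -/
def eC (m : ℕ) [NeZero m] (k : ZMod m) : ℂ := (ZMod.toCircle k : ℂ)

/-- The sector coordinates: `z = Σ_k sec m z k • e_k`, nonnegative, at most two consecutive ones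
nonzero. -/
def sec (m : ℕ) [NeZero m] (z : ℂ) (k : ZMod m) : ℝ :=
  max 0 (min (starRingEnd ℂ z * eC m (k + 1)).im (starRingEnd ℂ (eC m (k - 1)) * z).im)
    / Real.sin (2 * Real.pi / m)

/-- The sum of the sector coordinates. -/
def sN (m : ℕ) [NeZero m] (z : ℂ) : ℝ := ∑ k, sec m z k

/-- Barycentric coordinates of the target sphere (join of two circles). -/
def bT (s : Sph 3) : KT → ℝ
  | Sum.inl k => sec 10 (zc s) k / (sN 10 (zc s) + sN 10 (wc s))
  | Sum.inr k => sec 10 (wc s) k / (sN 10 (zc s) + sN 10 (wc s))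

/-- Barycentric coordinates of the disc `{z | sN 30 z ≤ 1}` (cone over the circle). -/
def dC (z : ℂ) : Option F30 → ℝ
  | none => 1 - sN 30 z
  | some k => sec 30 z k

/-- The sum of the coordinates of the vertices before `v`. -/
def lo {V : Type} (R : V → V → Prop) (y : V → ℝ) (v : V) : ℝ := ∑ᶠ (v' : V) (_ : R v' v), y v'

/-- The barycentric coordinates of a pair of points in the triangulation of the product. -/
def prB {V W : Type} (RV : V → V → Prop) (RW : W → W → Prop) (y : V → ℝ) (y' : W → ℝ)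
    (p : V × W) : ℝ :=
  max 0 (min (lo RV y p.1 + y p.1) (lo RW y' p.2 + y' p.2) - max (lo RV y p.1) (lo RW y' p.2))

/-- Barycentric coordinates of the source sphere. -/
def bS (s : Sph 3) (p : KS) : ℝ :=
  prB (optR (fenR 30 6)) (optR (fenR 30 6))
    (dC (zc s / ((max (sN 30 (zc s)) (sN 30 (wc s)) : ℝ) : ℂ)))
    (dC (wc s / ((max (sN 30 (zc s)) (sN 30 (wc s)) : ℝ) : ℂ))) p.1

/-! ## Maps of the manifolds -/

/-- `F : S³ → S³` is equivariant from the side `σ` to the side `τ`. -/
def EqvS (σ τ : Side) (F : Sph 3 → Sph 3) : Prop := ∀ g s, F (act5 σ g s) = act5 τ g (F s)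

/-- Equivariant homotopy. -/
def HmtE (σ τ : Side) (F G : Sph 3 → Sph 3) : Prop :=
  ∃ H : C(Sph 3 × unitInterval, Sph 3), (∀ s, H (s, 0) = F s) ∧ (∀ s, H (s, 1) = G s) ∧
    ∀ g s t, H (act5 σ g s, t) = act5 τ g (H (s, t))

instance covAct (τ : Side) : MulAction exR.Gam (exD τ).Cov :=
  Dat.covMulAction (exD τ)

/-- The map `id × F` of the coverings. -/
def covM (σ τ : Side) (F : C(Sph 3, Sph 3)) : C((exD σ).Cov, (exD τ).Cov) :=
  ⟨fun x => (x.1, F x.2), by
    change Continuous (fun x : (Fin 4 → ℝ) × Sph 3 => (x.1, F x.2))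
    fun_prop⟩

/-- The map `id ×_{ℤ/5} F` of the manifolds. -/
def mapM (σ τ : Side) (F : C(Sph 3, Sph 3)) (hF : EqvS σ τ F) : C((exD σ).Mfd, (exD τ).Mfd) :=
  ⟨Quot.map (fun p => (p.1, F p.2)) (by
    rintro ⟨x, s⟩ ⟨y, t⟩ ⟨g, h1, h2⟩
    refine ⟨g, h1, ?_⟩
    change act5 τ g (F s) = F t
    rw [← hF g s]
    exact congrArg F h2), by
    apply continuous_quot_lift
    apply Continuous.comp continuous_quot_mk
    change Continuous (fun x : Tor 4 × Sph 3 => (x.1, F x.2))
    fun_prop⟩

/-- The oscillation `max (v - x) - min (v - x)`. -/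
def osc4 (x : Fin 4 → ℝ) (v : V4) : ℝ :=
  Finset.univ.sup' Finset.univ_nonempty (fun i => (v.1 i : ℝ) - bet x i)
    - Finset.univ.inf' Finset.univ_nonempty (fun i => (v.1 i : ℝ) - bet x i)

/-- The point of `ℝ⁴` of the vertex `v`: `bet (vhat v) = v - (Σ v / 5) (1, 1, 1, 1, 1)`. -/
def vhat (v : V4) : Fin 4 → ℝ :=
  let y : ZMod 5 → ℝ := fun i => (v.1 i : ℝ) - (∑ j, (v.1 j : ℝ)) / 5
  ![y 1 + y 2 + y 3 + y 4, y 2 + y 3 + y 4, y 3 + y 4, y 4]

/-- `b` are the barycentric coordinates of a triangulation of `X` (no group). -/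
structure IsTri {X : Type} [TopologicalSpace X] {V : Type} (R : V → V → Prop) (b : X → V → ℝ) :
    Prop where
  asymm : ∀ v w, R v w → ¬ R w v
  cont : ∀ v, Continuous fun x => b x v
  locFin : LocallyFinite fun v => {x | b x v ≠ 0}
  pt : ∀ x, IsPt R (b x)
  bij : ∀ y, IsPt R y → ∃! x, b x = y
  cpt : ∀ l : List V, l.Pairwise R → IsCompact {x | ∀ v, b x v ≠ 0 → v ∈ l}

end Pool.Agent.Lib.MP_39dc45_gt.SP
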