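import Pool.Agent.Lib.MP_39dc45_gt.SP.StA

/-!
# MP_39dc45_gt: the torsions of the fences
-/

open Matrix

noncomputable section

namespace Pool.Agent.Lib.MP_39dc45_gt.SP

namespace FenAux

/-- A complex with `n` cells of degree one and `n` cells of degree two. -/
theorem torM_of {n : ℕ} (deg : Fin n ⊕ Fin n → ℕ) (D : Matrix (Fin n ⊕ Fin n) (Fin n ⊕ Fin n) F31)
    (A B : Matrix (Fin n) (Fin n) F31) (h1 : ∀ i, deg (Sum.inl i) = 1)
    (h2 : ∀ i, deg (Sum.inr i) = 2) (hD : D = Matrix.fromBlocks 0 0 A 0) (hAB : A * B = 1)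
    (hBA : B * A = 1) : TorM deg D (B.det ^ 10) := by
  have hodd : ∀ i, Odd (deg (Sum.inl i)) := fun i => by rw [h1]; decide
  have heven : ∀ i, ¬ Odd (deg (Sum.inr i)) := fun i => by rw [h2]; decide
  refine ⟨Matrix.fromBlocks 0 B 0 0, ⟨?_, ?_⟩, ?_⟩
  · intro i j hij
    rcases i with i | i <;> rcases j with j | j
    · exact absurd rfl hij
    · rw [h1, h2]
    · exact absurd rfl hij
    · exact absurd rfl hij
  · rw [hD, Matrix.fromBlocks_multiply, Matrix.fromBlocks_multiply, Matrix.fromBlocks_add]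
    simp [hAB, hBA, Matrix.fromBlocks_one]
  · let f1 : Fin n → Ods deg := fun i => ⟨Sum.inl i, hodd i⟩
    let f2 : Fin n → Evs deg := fun i => ⟨Sum.inr i, heven i⟩
    have b1 : Function.Bijective f1 := by
      constructor
      · intro i j hij
        exact Sum.inl_injective (congrArg Subtype.val hij)
      · rintro ⟨j | j, hj⟩
        · exact ⟨j, rfl⟩
        · exact absurd hj (heven j)
    have b2 : Function.Bijective f2 := by
      constructor
      · intro i j hij
        exact Sum.inr_injective (congrArg Subtype.val hij)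
      · rintro ⟨j | j, hj⟩
        · exact absurd (hodd j) hj
        · exact ⟨j, rfl⟩
    refine ⟨(Equiv.ofBijective f1 b1).symm.trans (Equiv.ofBijective f2 b2), ?_⟩
    congr 1
    rw [← Matrix.det_submatrix_equiv_self (Equiv.ofBijective f1 b1)]
    congr 1
    ext i j
    rw [Matrix.submatrix_apply, blk, Matrix.of_apply, Equiv.trans_apply,
      Equiv.symm_apply_apply, hD]
    show B i j = ((Matrix.fromBlocks 0 0 A 0 + Matrix.fromBlocks 0 B 0 0 :
      Matrix (Fin n ⊕ Fin n) (Fin n ⊕ Fin n) F31)) (Sum.inl i) (Sum.inr j)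
    rw [Matrix.fromBlocks_add, Matrix.fromBlocks_apply₁₂]
    simp

section
variable {m c : ℕ}

theorem plD_single (a : Fen m c) (l : List (Fen m c)) : plD [a] l = 0 := by
  unfold plD bd
  rw [if_pos (by simp)]
  rfl

theorem plD_pair (a b : Fen m c) (l : List (Fen m c)) :
    plD [a, b] l = (if [b] = l then 1 else 0) - (if [a] = l then 1 else 0) := by
  unfold plD bd
  rw [if_neg (by simp)]
  show (∑ i ∈ Finset.range 2, Finsupp.single (([a, b] : List (Fen m c)).eraseIdx i)
    ((-1 : ℤ) ^ i)) l = _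
  rw [Finset.sum_range_succ, Finset.sum_range_one, Finsupp.add_apply]
  show Finsupp.single [b] ((-1 : ℤ) ^ 0) l + Finsupp.single [a] ((-1 : ℤ) ^ 1) l = _
  rw [Finsupp.single_apply, Finsupp.single_apply]
  split_ifs <;> norm_num

/-- The chains of a fence have at most two elements. -/
theorem chain_cases (hodd : ∀ a b : Fen m c, fenR m c a b → ¬ Even b.val)
    {l : List (Fen m c)} (hl : l ∈ plP (fenR m c)) :
    (∃ a, l = [a]) ∨ ∃ a b, fenR m c a b ∧ l = [a, b] := by
  obtain ⟨h0, h1⟩ := hl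
  match l, h0, h1 with
  | [a], _, _ => exact Or.inl ⟨a, rfl⟩
  | [a, b], _, h1 => exact Or.inr ⟨a, b, by simpa using h1, rfl⟩
  | a :: b :: d :: l', _, h1 =>
    exfalso
    rw [List.pairwise_cons, List.pairwise_cons] at h1
    have h2 : fenR m c a b := h1.1 b (by simp)
    have h3 : fenR m c b d := h1.2.1 d (by simp)
    exact hodd a b h2 h3.1

/-- Representatives: vertices `v i` and edges `(a i, b i)`. -/
def rep {n : ℕ} (v a b : Fin n → Fen m c) : Fin n ⊕ Fin n → List (Fen m c)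
  | Sum.inl i => [v i]
  | Sum.inr i => [a i, b i]

theorem isRep_of [FenOK m c] {n : ℕ} (v a b : Fin n → Fen m c)
    (hodd : ∀ a b : Fen m c, fenR m c a b → ¬ Even b.val) (hab : ∀ i, fenR m c (a i) (b i))
    (hv : ∀ x : Fen m c, ∃ (g : Cyc 5) (i : Fin n), g • v i = x)
    (he : ∀ x y : Fen m c, fenR m c x y → ∃ (g : Cyc 5) (i : Fin n), g • a i = x ∧ g • b i = y)
    (uv : ∀ (g g' : Cyc 5) (i i' : Fin n), g • v i = g' • v i' → g = g' ∧ i = i')
    (ue : ∀ (g g' : Cyc 5) (i i' : Fin n), g • a i = g' • a i' → g • b i = g' • b i' →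
      g = g' ∧ i = i') : IsRep (Cyc 5) (plP (fenR m c)) (rep v a b) := by
  constructor
  · rintro (i | i)
    · exact ⟨by simp [rep], by simp [rep]⟩
    · exact ⟨by simp [rep], by simpa [rep] using hab i⟩
  · intro l hl
    rcases chain_cases hodd hl with ⟨x, rfl⟩ | ⟨x, y, hxy, rfl⟩
    · obtain ⟨g, i, hg⟩ := hv x
      refine ⟨(g, Sum.inl i), ?_, ?_⟩
      · show g • [v i] = [x]
        rw [smul_list, List.map_singleton, hg]
      · rintro ⟨g', j | j⟩ h
        · have h' : g' • v j = x := by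
            have h1 : [g' • v j] = [x] := h
            simpa using h1
          obtain ⟨h2, h3⟩ := uv g' g j i (h'.trans hg.symm)
          rw [h2, h3]
        · have h1 : [g' • a j, g' • b j] = [x] := h
          simp at h1
    · obtain ⟨g, i, hg, hg'⟩ := he x y hxy
      refine ⟨(g, Sum.inr i), ?_, ?_⟩
      · show [g • a i, g • b i] = [x, y]
        rw [hg, hg']
      · rintro ⟨g', j | j⟩ h
        · have h1 : [g' • v j] = [x, y] := h
          simp at h1
        · have h1 : [g' • a j, g' • b j] = [x, y] := h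
          have h2 : g' • a j = x ∧ g' • b j = y := by simpa using h1
          obtain ⟨h3, h4⟩ := ue g' g j i (h2.1.trans hg.symm) (h2.2.trans hg'.symm)
          rw [h3, h4]

theorem tw_eq [FenOK m c] {n : ℕ} (v a b : Fin n → Fen m c) (A : Fin n → Fin n → F31)
    (hA : ∀ i j, (∑ g : Cyc 5, chi5 g * (((if b i = g • v j then 1 else 0)
      - (if a i = g • v j then 1 else 0) : ℤ) : F31)) = A i j) :
    tw chi5 plD (rep v a b) = Matrix.fromBlocks 0 0 (Matrix.of A) 0 := by
  ext i j
  unfold tw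
  rw [Matrix.of_apply, finsum_eq_sum_of_fintype]
  rcases i with i | i
  · have h1 : ∀ g : Cyc 5, chi5 g * ((plD (rep v a b (Sum.inl i)) (g • rep v a b j) : ℤ) : F31)
        = 0 := by
      intro g
      show chi5 g * ((plD [v i] _ : ℤ) : F31) = 0
      rw [plD_single]
      simp
    rw [Finset.sum_eq_zero fun g _ => h1 g]
    rcases j with j | j <;> rfl
  · rcases j with j | j
    · rw [Matrix.fromBlocks_apply₂₁, Matrix.of_apply, ← hA]
      apply Finset.sum_congr rfl
      intro g _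
      congr 2
      show plD [a i, b i] [g • v j] = _
      rw [plD_pair]
      simp only [List.cons.injEq, and_true]
    · rw [Matrix.fromBlocks_apply₂₂]
      apply Finset.sum_eq_zero
      intro g _
      show chi5 g * ((plD [a i, b i] [g • a j, g • b j] : ℤ) : F31) = 0
      rw [plD_pair]
      simp

theorem torG_of [FenOK m c] {n : ℕ} (v a b : Fin n → Fen m c)
    (hR : IsRep (Cyc 5) (plP (fenR m c)) (rep v a b)) (A B : Fin n → Fin n → F31)
    (hA : ∀ i j, (∑ g : Cyc 5, chi5 g * (((if b i = g • v j then 1 else 0)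
      - (if a i = g • v j then 1 else 0) : ℤ) : F31)) = A i j)
    (hAB : Matrix.of A * Matrix.of B = 1) (hBA : Matrix.of B * Matrix.of A = 1) :
    TorG (Cyc 5) (plP (fenR m c)) List.length plD chi5 ((Matrix.of B).det ^ 10) :=
  ⟨Fin n ⊕ Fin n, inferInstance, inferInstance, rep v a b, hR,
    torM_of _ _ _ _ (fun _ => rfl) (fun _ => rfl) (tw_eq v a b A hA) hAB hBA⟩

end

/-! ### The fence with ten points -/

/-- Vertices. -/
def v10 : Fin 2 → Fen 10 4 := ![Fen.of 10 4 0, Fen.of 10 4 1]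
/-- Lower ends. -/
def a10 : Fin 2 → Fen 10 4 := ![Fen.of 10 4 0, Fen.of 10 4 0]
/-- Upper ends. -/
def b10 : Fin 2 → Fen 10 4 := ![Fen.of 10 4 1, Fen.of 10 4 9]

theorem rep10 : IsRep (Cyc 5) (plP (fenR 10 4)) (rep v10 a10 b10) := by
  apply isRep_of
  · decide +kernel
  · decide +kernel
  · decide +kernel
  · decide +kernel
  · decide +kernel
  · decide +kernel

/-- The matrix. -/
def A10 : Fin 2 → Fin 2 → F31 := ![![-1, 1], ![-1, 4]]
/-- Its inverse. -/
def B10 : Fin 2 → Fin 2 → F31 := ![![9, 21], ![10, 21]]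

theorem fen10 : TorG (Cyc 5) (plP (fenR 10 4)) List.length plD chi5 5 := by
  have h := torG_of v10 a10 b10 rep10 A10 B10 (by decide +kernel) (by decide +kernel)
    (by decide +kernel)
  have h1 : (Matrix.of B10).det ^ 10 = 5 := by
    rw [Matrix.det_fin_two]
    decide +kernel
  rwa [h1] at h

/-! ### The fence with thirty points -/

/-- Vertices. -/
def v30 : Fin 6 → Fen 30 6 := ![Fen.of 30 6 0, Fen.of 30 6 1, Fen.of 30 6 2, Fen.of 30 6 3,
  Fen.of 30 6 4, Fen.of 30 6 5]
/-- Lower ends. -/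
def a30 : Fin 6 → Fen 30 6 := ![Fen.of 30 6 0, Fen.of 30 6 0, Fen.of 30 6 2, Fen.of 30 6 2,
  Fen.of 30 6 4, Fen.of 30 6 4]
/-- Upper ends. -/
def b30 : Fin 6 → Fen 30 6 := ![Fen.of 30 6 1, Fen.of 30 6 29, Fen.of 30 6 3, Fen.of 30 6 1,
  Fen.of 30 6 5, Fen.of 30 6 3]

theorem rep30 : IsRep (Cyc 5) (plP (fenR 30 6)) (rep v30 a30 b30) := by
  apply isRep_of
  · decide +kernel
  · decide +kernel
  · decide +kernel
  · decide +kernel
  · decide +kernel
  · decide +kernel

/-- The matrix. -/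
def A30 : Fin 6 → Fin 6 → F31 := ![![-1, 1, 0, 0, 0, 0], ![-1, 0, 0, 0, 0, 16],
  ![0, 0, -1, 1, 0, 0], ![0, 1, -1, 0, 0, 0], ![0, 0, 0, 0, -1, 1], ![0, 0, 0, 1, -1, 0]]
/-- Its inverse. -/
def B30 : Fin 6 → Fin 6 → F31 := ![![1, 29, 1, 30, 1, 30], ![2, 29, 1, 30, 1, 30],
  ![2, 29, 1, 29, 1, 30], ![2, 29, 2, 29, 1, 30], ![2, 29, 2, 29, 1, 29], ![2, 29, 2, 29, 2, 29]]
/-- The lower triangular factor. -/
def L30 : Fin 6 → Fin 6 → F31 := ![![1, 0, 0, 0, 0, 0], ![1, 1, 0, 0, 0, 0],
  ![0, 0, 1, 0, 0, 0], ![0, 30, 1, 1, 0, 0], ![0, 0, 0, 0, 1, 0], ![0, 0, 0, 30, 1, 1]]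
/-- The upper triangular factor. -/
def U30 : Fin 6 → Fin 6 → F31 := ![![30, 1, 0, 0, 0, 0], ![0, 30, 0, 0, 0, 16],
  ![0, 0, 30, 1, 0, 0], ![0, 0, 0, 30, 0, 16], ![0, 0, 0, 0, 30, 1], ![0, 0, 0, 0, 0, 15]]

theorem det30 : (Matrix.of A30).det ^ 10 = 1 := by
  have h1 : Matrix.of A30 = Matrix.of L30 * Matrix.of U30 := by decide +kernel
  have h2 : (Matrix.of L30).det = ∏ i, L30 i i := by
    apply Matrix.det_of_lowerTriangular
    intro i j hij
    have h : ∀ i j : Fin 6, i < j → L30 i j = 0 := by decide +kernel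
    exact h i j hij
  have h3 : (Matrix.of U30).det = ∏ i, U30 i i := by
    apply Matrix.det_of_upperTriangular
    intro i j hij
    have h : ∀ i j : Fin 6, j < i → U30 i j = 0 := by decide +kernel
    exact h i j hij
  rw [h1, Matrix.det_mul, h2, h3]
  decide +kernel

theorem fen30 : TorG (Cyc 5) (plP (fenR 30 6)) List.length plD chi5 1 := by
  have hAB : Matrix.of A30 * Matrix.of B30 = 1 := by decide +kernel
  have h := torG_of v30 a30 b30 rep30 A30 B30 (by decide +kernel) hAB (by decide +kernel)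
  have h1 : (Matrix.of B30).det ^ 10 = 1 := by
    have h2 := congrArg Matrix.det hAB
    rw [Matrix.det_mul, Matrix.det_one] at h2
    have h3 := congrArg (fun x => x ^ 10) h2
    simp only [mul_pow, one_pow] at h3
    rwa [det30, one_mul] at h3
  rwa [h1] at h

end FenAux

/-- The torsions of the fences. -/
theorem stFen (_h : StE1) : StFen := ⟨FenAux.fen10, FenAux.fen30⟩

end Pool.Agent.Lib.MP_39dc45_gt.SP
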