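import Pool.Agent.Lib.MP_39dc45_gt.SP.StA

/-!
# MP_39dc45_gt: properties of the fences
-/

open Matrix

noncomputable section

namespace Pool.Agent.Lib.MP_39dc45_gt.SP

namespace Fen0

/-- parity -/
def par {m c : ℕ} (h : 2 ∣ m) : Fen m c →+ ZMod 2 :=
  (ZMod.castHom h (ZMod 2)).toAddMonoidHom

theorem par_even {m c : ℕ} (h : 2 ∣ m) (s : Fen m c) [NeZero m] :
    Even s.val ↔ par h s = 0 := by
  have h0 : ∀ x : ZMod m, ZMod.castHom h (ZMod 2) x = ((x.val : ℕ) : ZMod 2) := by
    intro x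
    rw [ZMod.castHom_apply, ZMod.natCast_val]
  have h1 : par h s = ((s.val : ℕ) : ZMod 2) := h0 s
  rw [h1, ZMod.natCast_eq_zero_iff_even]

theorem par_one {m c : ℕ} (h : 2 ∣ m) : par h (Fen.of m c 1) = 1 := by
  change ZMod.castHom h (ZMod 2) (1 : ZMod m) = 1
  rw [map_one]

theorem par_nat {m c : ℕ} (h : 2 ∣ m) (k : ℕ) : par h (Fen.of m c (k : ZMod m)) = (k : ZMod 2) := by
  change ZMod.castHom h (ZMod 2) (k : ZMod m) = _
  rw [map_natCast]

theorem main (m c : ℕ) [hF : FenOK m c] : Asym (fenR m c) ∧ Inv (Cyc 5) (fenR m c) ∧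
    Free (Cyc 5) (Fen m c) := by
  have hne : NeZero m := hF.neZero
  have h2 : 2 ∣ m := hF.even_m.two_dvd
  refine ⟨?_, ?_, ?_⟩
  · rintro a b ⟨ha, hb⟩ ⟨hb', _⟩
    rw [par_even h2] at ha hb'
    rcases hb with rfl | rfl
    · rw [map_add, ha, par_one] at hb'
      exact absurd hb' (by decide)
    · rw [map_sub, ha, par_one] at hb'
      exact absurd hb' (by decide)
  · rintro γ v w ⟨hv, hw⟩
    have hs : ∀ s : Fen m c, γ • s =
        s + Fen.of m c ((c * (Multiplicative.toAdd γ).val : ℕ) : ZMod m) := fun s => rfl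
    refine ⟨?_, ?_⟩
    · rw [par_even h2] at hv ⊢
      rw [hs, map_add, hv, par_nat, zero_add, ZMod.natCast_eq_zero_iff_even]
      exact hF.even_c.mul_right _
    · rw [hs, hs]
      rcases hw with rfl | rfl
      · left; abel
      · right; abel
  · intro γ v hv
    have hs : γ • v =
        v + Fen.of m c ((c * (Multiplicative.toAdd γ).val : ℕ) : ZMod m) := rfl
    rw [hs, add_eq_left] at hv
    have h3 : ((c * (Multiplicative.toAdd γ).val : ℕ) : ZMod m) = 0 := hv
    rw [ZMod.natCast_eq_zero_iff] at h3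
    have h4 := hF.free _ h3
    exact Multiplicative.toAdd.injective h4

end Fen0

theorem stFen0 : StFen0 := by
  refine ⟨fun m c _ => Fen0.main m c, ?_⟩
  intro γ
  change ((2 : F31) ^ (Multiplicative.toAdd γ).val) ^ 10 = 1
  rw [← pow_mul, mul_comm, pow_mul]
  have h : (2 : F31) ^ 10 = 1 := by decide
  rw [h, one_pow]

end Pool.Agent.Lib.MP_39dc45_gt.SP
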