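import Pool.Agent.Lib.MP_39dc45_gt.SP.StT

open scoped Topology
open Matrix

noncomputable section

namespace Pool.Agent.Lib.MP_39dc45_gt.SP

theorem stFinal : StAlg → StReal → StTriT → StTriS → StTriProd → StPush → StPrInv → StR4a → StR4b →
    StR4c → StCov → StClosed → StHE → StTrans → StKf → StV4 → StFinal := by
  intro hAlg hReal hT hS hProd hPush hInv hRa hRb hRc hCov hCl hHE hTr hKf hV4
  obtain ⟨FS, hFc, hFe, hFb, hFh⟩ := hReal
  let F : C(Sph 3, Sph 3) := ⟨FS, hFc⟩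
  have hF : EqvS .src .tgt F := hFe
  obtain ⟨hE1, hE2⟩ := hHE F hF hFh
  refine ⟨exD .tgt, rfl, rfl, rfl, (exD .src).Mfd, inferInstance, mapM .src .tgt F hF, hCl (exD .src),
    hE1, ⟨mapM .src .tgt F hF, ContinuousMap.Homotopic.refl _, hTr F hF, hE2⟩, ?_⟩
  intro hsimple
  have h4 : IsTri R4 b4 := ⟨hV4.1, hRc.1, hRc.2.1, hRa, hRb, hRc.2.2.1⟩
  obtain ⟨⟨J, iJ1, iJ2, r, hr⟩, hno⟩ := hAlg
  have hact : ∀ (γ : exR.Gam) (k : KS), γ • k = piG γ • k := fun γ k => rfl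
  have hactT : ∀ (γ : exR.Gam) (k : KT), γ • k = piG γ • k := by
    rintro γ (k | k) <;> rfl
  have hIS : Inv exR.Gam RS := fun γ v w h => hKf.2.2.1 (piG γ) v w h
  have hIT : Inv exR.Gam RT := by
    intro γ v w h
    rw [hactT, hactT]
    exact hKf.2.2.2.1 (piG γ) v w h
  have triS := hProd (Fin 4 → ℝ) (Sph 3) V4 KS R4 RS b4 bS h4 hS.1
  have triT := hProd (Fin 4 → ℝ) (Sph 3) V4 KT R4 RT b4 bT h4 hT.1
  have hsm : ∀ (γ : exR.Gam) a b, prodR R4 RS a b → prodR R4 RS (γ • a) (γ • b) := by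
    rintro γ a b ⟨h0, h1, h2⟩
    refine ⟨fun h => h0 (smul_left_cancel γ h), ?_, ?_⟩
    · rcases h1 with h1 | h1
      · exact Or.inl (congrArg (γ • ·) h1)
      · exact Or.inr (hV4.2.1 γ _ _ h1)
    · rcases h2 with h2 | h2
      · exact Or.inl (congrArg (γ • ·) h2)
      · exact Or.inr (hIS γ _ _ h2)
  have hsmT : ∀ (γ : exR.Gam) a b, prodR R4 RT a b → prodR R4 RT (γ • a) (γ • b) := by
    rintro γ a b ⟨h0, h1, h2⟩
    refine ⟨fun h => h0 (smul_left_cancel γ h), ?_, ?_⟩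
    · rcases h1 with h1 | h1
      · exact Or.inl (congrArg (γ • ·) h1)
      · exact Or.inr (hV4.2.1 γ _ _ h1)
    · rcases h2 with h2 | h2
      · exact Or.inl (congrArg (γ • ·) h2)
      · exact Or.inr (hIT γ _ _ h2)
  have T1 : IsTriang exR.Gam (X := (exD .src).Cov) (prodR R4 RS)
      (fun x => prB R4 RS (b4 x.1) (bS x.2)) := by
    refine ⟨triS.asymm, hsm, triS.cont, triS.locFin, triS.pt, triS.bij, triS.cpt, ?_⟩
    intro γ x p
    refine hInv exR.Gam V4 KS R4 RS hV4.2.1 hIS γ (b4 x.1) _ (bS x.2) _ ?_ ?_ p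
    · intro v
      exact hRc.2.2.2.2 γ x.1 v
    · intro w
      exact hS.2 γ.g x.2 w
  have T2 : IsTriang exR.Gam (X := (exD .tgt).Cov) (prodR R4 RT)
      (fun x => prB R4 RT (b4 x.1) (bT x.2)) := by
    refine ⟨triT.asymm, hsmT, triT.cont, triT.locFin, triT.pt, triT.bij, triT.cpt, ?_⟩
    intro γ x p
    refine hInv exR.Gam V4 KT R4 RT hV4.2.1 hIT γ (b4 x.1) _ (bT x.2) _ ?_ ?_ p
    · intro v
      exact hRc.2.2.2.2 γ x.1 v
    · intro w
      rw [hactT]
      exact hT.2 γ.g x.2 w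
  have hfe : ∀ (γ : exR.Gam) (v : KS), fK (γ • v) = γ • fK v := by
    intro γ v
    rw [hact, hactT]
    exact hKf.2.2.2.2.2.2.2 (piG γ) v
  have key := @hsimple (exD .src).Cov _ (covAct .src) (exD .src).proj (covM .src .tgt F)
    (hCov (exD .src))
    (by
      intro γ x
      apply Prod.ext
      · rfl
      · exact hF γ.g x.2)
    (by intro x; rfl)
    (V4 × KS) (V4 × KT) (inferInstanceAs (MulAction exR.Gam (V4 × KS)))
    (inferInstanceAs (MulAction exR.Gam (V4 × KT))) (prodR R4 RS) (prodR R4 RT) _ _ T1 T2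
    (Prod.map id fK)
    (by
      rintro a b ⟨h0, h1, h2⟩
      by_cases hab : Prod.map id fK a = Prod.map id fK b
      · exact Or.inl hab
      · refine Or.inr ⟨hab, h1, ?_⟩
        rcases h2 with h2 | h2
        · exact Or.inl (congrArg fK h2)
        · exact hKf.2.2.2.2.2.2.1 _ _ h2)
    (by
      intro γ v
      apply Prod.ext
      · rfl
      · exact hfe γ v.2)
    (covM .src .tgt F)
    (by
      intro x w
      have := (hPush V4 KS KT R4 RS RT fK hV4.1 hKf.1 hKf.2.1 hKf.2.2.2.2.2.2.1 (b4 x.1) (bS x.2)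
        (hRa x.1) (hS.1.pt x.2)).2 w
      rw [← this]
      have h2 : bT (FS x.2) = fun q => ∑ᶠ (p : KS) (_ : p ∈ fK ⁻¹' {q}), bS x.2 p := by
        funext q
        exact hFb x.2 q
      rw [← h2]
      rfl)
    ⟨⟨fun x => covM .src .tgt F x.1, by fun_prop⟩, fun x => rfl, fun x => rfl, by
      intro γ x t
      apply Prod.ext
      · rfl
      · exact hF γ.g x.2⟩
    J iJ1 iJ2 r hr
  exact @hno J iJ1 iJ2 r hr key

end Pool.Agent.Lib.MP_39dc45_gt.SP
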