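import Pool.Agent.Lib.MP_39dc45_gt.SP.StT

/-!
# MP_39dc45_gt: fixed points of the torus
-/

open scoped Topology
open Matrix

noncomputable section

namespace Pool.Agent.Lib.MP_39dc45_gt.SP

namespace FixAux

/-! ### Real vectors -/

theorem betR_sum (a : Fin 4 → ℝ) : ∑ i, bet a i = 0 := by
  refine (Fin.sum_univ_five (fun i : Fin 5 => (bet a i : ℝ))).trans ?_
  change -a 0 + (a 0 - a 1) + (a 1 - a 2) + (a 2 - a 3) + a 3 = 0
  ring

theorem bet_inj {a b : Fin 4 → ℝ} (h : bet a = bet b) : a = b := by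
  have h0 : -a 0 = -b 0 := congrFun h 0
  have h1 : a 0 - a 1 = b 0 - b 1 := congrFun h 1
  have h2 : a 1 - a 2 = b 1 - b 2 := congrFun h 2
  have h3 : a 2 - a 3 = b 2 - b 3 := congrFun h 3
  funext i
  fin_cases i
  · change a 0 = b 0; linarith
  · change a 1 = b 1; linarith
  · change a 2 = b 2; linarith
  · change a 3 = b 3; linarith

theorem bet_smul (t : ℝ) (a : Fin 4 → ℝ) (i : ZMod 5) : bet (t • a) i = t * bet a i := by
  fin_cases i
  · change -(t * a 0) = t * -a 0; ring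
  · change t * a 0 - t * a 1 = t * (a 0 - a 1); ring
  · change t * a 1 - t * a 2 = t * (a 1 - a 2); ring
  · change t * a 2 - t * a 3 = t * (a 2 - a 3); ring
  · change t * a 3 = t * a 3; rfl

theorem bet_sub (a b : Fin 4 → ℝ) (i : ZMod 5) : bet (a - b) i = bet a i - bet b i := by
  have h : bet a = bet (a - b) + bet b := by rw [← bet_add, sub_add_cancel]
  have h1 := congrFun h i
  rw [Pi.add_apply] at h1
  linarith

theorem bet_cast (a : Fin 4 → ℤ) (i : ZMod 5) :
    bet (fun i => (a i : ℝ)) i = ((bet a i : ℤ) : ℝ) := by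
  fin_cases i
  · change -(a 0 : ℝ) = ((-a 0 : ℤ) : ℝ); push_cast; ring
  · change (a 0 : ℝ) - a 1 = ((a 0 - a 1 : ℤ) : ℝ); push_cast; ring
  · change (a 1 : ℝ) - a 2 = ((a 1 - a 2 : ℤ) : ℝ); push_cast; ring
  · change (a 2 : ℝ) - a 3 = ((a 2 - a 3 : ℤ) : ℝ); push_cast; ring
  · change (a 3 : ℝ) = ((a 3 : ℤ) : ℝ); rfl

theorem sum5 (v : ZMod 5 → ℝ) : ∑ i, v i = v 0 + v 1 + v 2 + v 3 + v 4 :=
  Fin.sum_univ_five (fun i : Fin 5 => (v i : ℝ))

/-- A real vector of sum zero is in the image of `bet`. -/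
theorem bet_surj (X : ZMod 5 → ℝ) (h : ∑ i, X i = 0) :
    bet ![X 1 + X 2 + X 3 + X 4, X 2 + X 3 + X 4, X 3 + X 4, X 4] = X := by
  rw [sum5] at h
  funext i
  fin_cases i
  · change -(X 1 + X 2 + X 3 + X 4) = X 0; linarith
  · change (X 1 + X 2 + X 3 + X 4) - (X 2 + X 3 + X 4) = X 1; ring
  · change (X 2 + X 3 + X 4) - (X 3 + X 4) = X 2; ring
  · change (X 3 + X 4) - X 4 = X 3; ring
  · change X 4 = X 4; rfl

theorem bet_vhat (v : V4) (i : ZMod 5) :
    bet (vhat v) i = (v.1 i : ℝ) - (∑ j, (v.1 j : ℝ)) / 5 := by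
  have h := bet_surj (fun i => (v.1 i : ℝ) - (∑ j, (v.1 j : ℝ)) / 5) (by
    rw [sum5, sum5]
    ring)
  exact congrFun h i

theorem betR_C4 (a : Fin 4 → ℝ) :
    bet (C4.map (Int.cast : ℤ → ℝ) *ᵥ a) = fun i => bet a (i - 1) := by
  funext i
  fin_cases i
  · change -((C4.map (Int.cast : ℤ → ℝ) *ᵥ a) 0) = a 3
    simp [C4, Matrix.mulVec, dotProduct, Fin.sum_univ_four]
  · change (C4.map (Int.cast : ℤ → ℝ) *ᵥ a) 0 - (C4.map (Int.cast : ℤ → ℝ) *ᵥ a) 1 = -a 0
    simp [C4, Matrix.mulVec, dotProduct, Fin.sum_univ_four]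
  · change (C4.map (Int.cast : ℤ → ℝ) *ᵥ a) 1 - (C4.map (Int.cast : ℤ → ℝ) *ᵥ a) 2 = a 0 - a 1
    simp [C4, Matrix.mulVec, dotProduct, Fin.sum_univ_four]
  · change (C4.map (Int.cast : ℤ → ℝ) *ᵥ a) 2 - (C4.map (Int.cast : ℤ → ℝ) *ᵥ a) 3 = a 1 - a 2
    simp [C4, Matrix.mulVec, dotProduct, Fin.sum_univ_four]
  · change (C4.map (Int.cast : ℤ → ℝ) *ᵥ a) 3 = a 2 - a 3
    simp [C4, Matrix.mulVec, dotProduct, Fin.sum_univ_four]
    ring

theorem betR_mat (g : Cyc 5) (a : Fin 4 → ℝ) :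
    bet ((exR.mat g).map (Int.cast : ℤ → ℝ) *ᵥ a) = shf g (bet a) := by
  have key : ∀ n : ℕ, bet ((C4 ^ n).map (Int.cast : ℤ → ℝ) *ᵥ a)
      = fun i => bet a (i - (n : ZMod 5)) := by
    intro n
    induction n with
    | zero =>
      funext i
      rw [pow_zero, Matrix.map_one _ Int.cast_zero Int.cast_one, Matrix.one_mulVec]
      simp
    | succ n ih =>
      have h1 : (C4 * C4 ^ n).map (Int.cast : ℤ → ℝ)
          = C4.map (Int.cast : ℤ → ℝ) * (C4 ^ n).map (Int.cast : ℤ → ℝ) :=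
        Matrix.map_mul (f := Int.castRingHom ℝ)
      rw [pow_succ', h1, ← Matrix.mulVec_mulVec, betR_C4, ih]
      funext i
      push_cast
      rw [sub_sub, add_comm]
  have h : exR.mat g = C4 ^ (Multiplicative.toAdd g).val := rho5_coe g
  rw [h, key]
  funext i
  rw [ZMod.natCast_zmod_val]
  rfl

/-! ### Oscillation -/

/-- The oscillation. -/
def osc (f : ZMod 5 → ℝ) : ℝ :=
  Finset.univ.sup' Finset.univ_nonempty f - Finset.univ.inf' Finset.univ_nonempty f

theorem le_osc (f : ZMod 5 → ℝ) (i j : ZMod 5) : f i - f j ≤ osc f := by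
  have h1 : f i ≤ Finset.univ.sup' Finset.univ_nonempty f :=
    Finset.le_sup' f (Finset.mem_univ i)
  have h2 : Finset.univ.inf' Finset.univ_nonempty f ≤ f j :=
    Finset.inf'_le f (Finset.mem_univ j)
  unfold osc
  linarith

theorem osc_att (f : ZMod 5 → ℝ) : ∃ i j, osc f = f i - f j := by
  obtain ⟨i, -, hi⟩ := Finset.exists_mem_eq_sup' Finset.univ_nonempty f
  obtain ⟨j, -, hj⟩ := Finset.exists_mem_eq_inf' Finset.univ_nonempty f
  exact ⟨i, j, by rw [osc, hi, hj]⟩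

theorem osc_nonneg (f : ZMod 5 → ℝ) : 0 ≤ osc f := by
  have h := le_osc f 0 0
  rwa [sub_self] at h

theorem osc_congr {f f' : ZMod 5 → ℝ} (h : ∀ i j, f i - f j = f' i - f' j) :
    osc f = osc f' := by
  obtain ⟨i, j, h1⟩ := osc_att f
  obtain ⟨i', j', h2⟩ := osc_att f'
  apply le_antisymm
  · rw [h1, h i j]
    exact le_osc f' i j
  · rw [h2, ← h i' j']
    exact le_osc f i' j'

theorem osc_mul {f f' : ZMod 5 → ℝ} {t : ℝ} (ht : 0 ≤ t) (h : ∀ i, f' i = t * f i) :
    osc f' = t * osc f := by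
  obtain ⟨i, j, h1⟩ := osc_att f
  obtain ⟨i', j', h2⟩ := osc_att f'
  apply le_antisymm
  · rw [h2, h i', h j', ← mul_sub]
    exact mul_le_mul_of_nonneg_left (le_osc f i' j') ht
  · rw [h1, mul_sub, ← h i, ← h j]
    exact le_osc f' i j

theorem osc4_eq (x : Fin 4 → ℝ) (v : V4) : osc4 x v = osc fun i => (v.1 i : ℝ) - bet x i := rfl

/-- The norm. -/
def nrm (y : Fin 4 → ℝ) : ℝ := osc fun i => - bet y i

theorem osc4_nrm (x : Fin 4 → ℝ) (v : V4) : osc4 x v = nrm (x - vhat v) := by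
  rw [osc4_eq, nrm]
  apply osc_congr
  intro i j
  rw [bet_sub, bet_sub, bet_vhat, bet_vhat]
  ring

theorem nrm_nonneg (y : Fin 4 → ℝ) : 0 ≤ nrm y := osc_nonneg _

theorem nrm_smul {t : ℝ} (ht : 0 ≤ t) (y : Fin 4 → ℝ) : nrm (t • y) = t * nrm y := by
  apply osc_mul ht
  intro i
  rw [bet_smul]
  ring

theorem nrm_zero : nrm 0 = 0 := by
  have h := nrm_smul (le_refl (0:ℝ)) (0 : Fin 4 → ℝ)
  simpa using h

theorem nrm_cont : Continuous nrm := by
  have hc : ∀ i : ZMod 5, Continuous fun y : Fin 4 → ℝ => - bet y i := by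
    intro i
    fin_cases i
    · change Continuous fun y : Fin 4 → ℝ => -(-y 0); fun_prop
    · change Continuous fun y : Fin 4 → ℝ => -(y 0 - y 1); fun_prop
    · change Continuous fun y : Fin 4 → ℝ => -(y 1 - y 2); fun_prop
    · change Continuous fun y : Fin 4 → ℝ => -(y 2 - y 3); fun_prop
    · change Continuous fun y : Fin 4 → ℝ => -(y 3); fun_prop
  unfold nrm osc
  refine Continuous.sub ?_ ?_
  · exact Continuous.finset_sup'_apply _ fun i _ => hc i
  · exact Continuous.finset_inf'_apply _ fun i _ => hc i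

/-! ### The torus -/

theorem coe_eq_iff (a b : ℝ) : ((a : ℝ) : UnitAddCircle) = (b : ℝ) ↔ ∃ n : ℤ, a - b = n := by
  rw [← sub_eq_zero, ← AddCircle.coe_sub, AddCircle.coe_eq_zero_iff]
  constructor
  · rintro ⟨n, hn⟩
    exact ⟨n, by rw [← hn]; simp⟩
  · rintro ⟨n, hn⟩
    exact ⟨n, by rw [hn]; simp⟩

theorem matAct_coe (A : Matrix (Fin 4) (Fin 4) ℤ) (x : Fin 4 → ℝ) (i : Fin 4) :
    matAct A (fun i => ((x i : ℝ) : UnitAddCircle)) i
      = (((A.map (Int.cast : ℤ → ℝ) *ᵥ x) i : ℝ) : UnitAddCircle) := by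
  unfold matAct
  simp only [Matrix.mulVec, dotProduct, Matrix.map_apply]
  rw [Fin.sum_univ_four, Fin.sum_univ_four, AddCircle.coe_add, AddCircle.coe_add,
    AddCircle.coe_add]
  have h : ∀ (n : ℤ) (t : ℝ), n • ((t : ℝ) : UnitAddCircle) = ((n * t : ℝ) : UnitAddCircle) := by
    intro n t
    rw [← AddCircle.coe_zsmul, zsmul_eq_mul]
  rw [h, h, h, h]

/-- A fixed point has integral differences of coordinates. -/
theorem fix_iff (x : Fin 4 → ℝ) (g : Cyc 5) :
    matAct (exR.mat g) (fun i => ((x i : ℝ) : UnitAddCircle))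
      = (fun i => ((x i : ℝ) : UnitAddCircle)) ↔
    ∀ i : ZMod 5, ∃ n : ℤ, bet x (i - Multiplicative.toAdd g) - bet x i = n := by
  have h1 : matAct (exR.mat g) (fun i => ((x i : ℝ) : UnitAddCircle))
      = (fun i => ((x i : ℝ) : UnitAddCircle)) ↔
      ∀ i : Fin 4, ∃ n : ℤ, ((exR.mat g).map (Int.cast : ℤ → ℝ) *ᵥ x) i - x i = n := by
    constructor
    · intro h i
      have h2 := congrFun h i
      rw [matAct_coe] at h2
      exact (coe_eq_iff _ _).1 h2
    · intro h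
      funext i
      rw [matAct_coe]
      exact (coe_eq_iff _ _).2 (h i)
  rw [h1]
  have h2 := betR_mat g x
  set z := (exR.mat g).map (Int.cast : ℤ → ℝ) *ᵥ x with hz
  have h3 : ∀ i, bet x (i - Multiplicative.toAdd g) = bet z i := by
    intro i
    rw [h2]
    rfl
  constructor
  · intro h
    choose n hn using h
    intro i
    refine ⟨bet n i, ?_⟩
    rw [h3, ← bet_sub, ← bet_cast]
    congr 1
    funext j
    exact hn j
  · intro h
    have h4 : ∀ i : ZMod 5, ∃ n : ℤ, bet (z - x) i = n := by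
      intro i
      obtain ⟨n, hn⟩ := h i
      exact ⟨n, by rw [bet_sub, ← h3, hn]⟩
    choose n hn using h4
    have e := bet_surj (fun i => (n i : ℝ)) (by
      rw [← betR_sum (z - x)]
      exact Finset.sum_congr rfl fun i _ => (hn i).symm)
    have e2 : z - x = ![(n 1 : ℝ) + n 2 + n 3 + n 4, (n 2 : ℝ) + n 3 + n 4,
        (n 3 : ℝ) + n 4, (n 4 : ℝ)] := by
      apply bet_inj
      rw [e]
      funext i
      exact hn i
    intro i
    have e3 := congrFun e2 i
    rw [Pi.sub_apply] at e3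
    rw [e3]
    fin_cases i
    · exact ⟨n 1 + n 2 + n 3 + n 4, by push_cast; rfl⟩
    · exact ⟨n 2 + n 3 + n 4, by push_cast; rfl⟩
    · exact ⟨n 3 + n 4, by push_cast; rfl⟩
    · exact ⟨n 4, rfl⟩

theorem fixed (x : Fin 4 → ℝ) :
    (∀ g, matAct (exR.mat g) (fun i => ((x i : ℝ) : UnitAddCircle))
      = fun i => ((x i : ℝ) : UnitAddCircle)) ↔ ∃ v : V4, x = vhat v := by
  constructor
  · intro h
    -- all coordinates are congruent to the coordinate 0
    have h1 : ∀ i : ZMod 5, ∃ n : ℤ, bet x i - bet x 0 = n := by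
      intro i
      obtain ⟨n, hn⟩ := (fix_iff x (Multiplicative.ofAdd (-i))).1 (h _) 0
      refine ⟨n, ?_⟩
      rw [← hn]
      simp
    choose n hn using h1
    set s : ℤ := ∑ i, n i with hs
    have hsum : (s : ℝ) = -(5 * bet x 0) := by
      have h2 := betR_sum x
      rw [sum5] at h2
      rw [hs, Int.cast_sum, sum5]
      rw [← hn 0, ← hn 1, ← hn 2, ← hn 3, ← hn 4]
      linarith
    obtain ⟨v, hv⟩ : ∃ v : V4, ∀ i, v.1 i = n i - s / 5 := by
      refine ⟨⟨fun i => n i - s / 5, ?_⟩, fun i => rfl⟩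
      have e : ∑ i : ZMod 5, (n i - s / 5) = s - 5 * (s / 5) := by
        rw [Finset.sum_sub_distrib, ← hs]
        simp [ZMod.card]
      rw [e]
      omega
    refine ⟨v, ?_⟩
    apply bet_inj
    funext i
    rw [bet_vhat]
    have e : ∑ j : ZMod 5, (v.1 j : ℝ) = (s : ℝ) - 5 * ((s / 5 : ℤ) : ℝ) := by
      rw [← Int.cast_sum, Finset.sum_congr rfl fun i _ => hv i, Finset.sum_sub_distrib, ← hs]
      simp [ZMod.card]
    rw [e, hsum, hv i]
    have h3 := hn i
    push_cast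
    linarith
  · rintro ⟨v, rfl⟩ g
    rw [fix_iff]
    intro i
    rw [bet_vhat, bet_vhat]
    exact ⟨v.1 (i - Multiplicative.toAdd g) - v.1 i, by push_cast; ring⟩

theorem uniq (x : Fin 4 → ℝ) (v v' : V4) (h : osc4 x v < 1 / 2) (h' : osc4 x v' < 1 / 2) :
    v = v' := by
  have h1 : ∀ i j : ZMod 5, v.1 i - v'.1 i ≤ v.1 j - v'.1 j := by
    intro i j
    have a := le_osc (fun i => (v.1 i : ℝ) - bet x i) i j
    have b := le_osc (fun i => (v'.1 i : ℝ) - bet x i) j i
    rw [← osc4_eq] at a b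
    have c : ((v.1 i - v'.1 i - (v.1 j - v'.1 j) : ℤ) : ℝ) < ((1 : ℤ) : ℝ) := by
      push_cast
      linarith
    have d := Int.cast_lt.1 c
    omega
  have h2 : ∀ i : ZMod 5, v.1 i - v'.1 i = v.1 0 - v'.1 0 := fun i => le_antisymm (h1 i 0) (h1 0 i)
  have h3 : ∑ i, v.1 i - ∑ i, v'.1 i = 5 * (v.1 0 - v'.1 0) := by
    rw [← Finset.sum_sub_distrib, Finset.sum_congr rfl fun i _ => h2 i]
    simp [ZMod.card]
    ring
  have h4 := v.2
  have h5 := v'.2
  apply Subtype.ext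
  funext i
  have h6 := h2 i
  omega

theorem zero_iff (v : V4) (x : Fin 4 → ℝ) : osc4 x v = 0 ↔ x = vhat v := by
  rw [osc4_nrm]
  constructor
  · intro h
    have h1 : ∀ i j, -bet (x - vhat v) i - -bet (x - vhat v) j ≤ 0 := by
      intro i j
      have a := le_osc (fun i => -bet (x - vhat v) i) i j
      have b : osc (fun i => -bet (x - vhat v) i) = 0 := h
      rw [b] at a
      exact a
    have h2 : ∀ i, bet (x - vhat v) i = bet (x - vhat v) 0 := by
      intro i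
      have a := h1 i 0
      have b := h1 0 i
      linarith
    have h3 := betR_sum (x - vhat v)
    rw [Finset.sum_congr rfl fun i _ => h2 i] at h3
    have h4 : bet (x - vhat v) 0 = 0 := by
      simpa [ZMod.card] using h3
    have h5 : x - vhat v = 0 := by
      apply bet_inj
      funext i
      rw [h2 i, h4, bet_zero]
      rfl
    exact sub_eq_zero.1 h5
  · rintro rfl
    rw [sub_self]
    exact nrm_zero

theorem equi (γ : exR.Gam) (v : V4) :
    (exR.mat γ.g).map (Int.cast : ℤ → ℝ) *ᵥ vhat v + (fun i => (γ.v i : ℝ)) = vhat (γ • v) := by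
  apply bet_inj
  rw [bet_add, betR_mat]
  funext i
  rw [Pi.add_apply, bet_vhat]
  have e1 : ∀ i, (γ • v).1 i = shf γ.g v.1 i + bet γ.v i := fun i => rfl
  have e2 : ∑ j, ((γ • v).1 j : ℝ) = ∑ j, (v.1 j : ℝ) := by
    rw [← Int.cast_sum, ← Int.cast_sum]
    congr 1
    rw [Finset.sum_congr rfl fun i _ => e1 i, Finset.sum_add_distrib, shf_sum, bet_sum, add_zero]
  rw [e2, e1, bet_cast]
  show bet (vhat v) (i - Multiplicative.toAdd γ.g) + _ = _
  rw [bet_vhat]
  show _ = ((v.1 (i - Multiplicative.toAdd γ.g) + bet γ.v i : ℤ) : ℝ) - _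
  push_cast
  ring

/-- The ball is homeomorphic to `ℝ⁴`. -/
def ball (v : V4) : {x : Fin 4 → ℝ // osc4 x v < 1 / 2} ≃ₜ (Fin 4 → ℝ) where
  toFun x := (1 / 2 - nrm (x.1 - vhat v))⁻¹ • (x.1 - vhat v)
  invFun z := ⟨vhat v + (2 * (1 + nrm z))⁻¹ • z, by
    rw [osc4_nrm, add_sub_cancel_left]
    have h1 := nrm_nonneg z
    rw [nrm_smul (by positivity), inv_mul_lt_iff₀ (by positivity)]
    linarith⟩
  left_inv x := by
    apply Subtype.ext
    show vhat v + (2 * (1 + nrm ((1 / 2 - nrm (x.1 - vhat v))⁻¹ • (x.1 - vhat v))))⁻¹ •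
      ((1 / 2 - nrm (x.1 - vhat v))⁻¹ • (x.1 - vhat v)) = x.1
    have h0 := x.2
    rw [osc4_nrm] at h0
    have h1 : 0 < 1 / 2 - nrm (x.1 - vhat v) := by linarith
    rw [nrm_smul (by positivity), smul_smul]
    have h2 : (2 * (1 + (1 / 2 - nrm (x.1 - vhat v))⁻¹ * nrm (x.1 - vhat v)))⁻¹ *
        (1 / 2 - nrm (x.1 - vhat v))⁻¹ = 1 := by
      have h3 : 2 * (1 + (1 / 2 - nrm (x.1 - vhat v))⁻¹ * nrm (x.1 - vhat v)) *
          (1 / 2 - nrm (x.1 - vhat v)) = 1 := by
        have h4 : (1 / 2 - nrm (x.1 - vhat v))⁻¹ * (1 / 2 - nrm (x.1 - vhat v)) = 1 :=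
          inv_mul_cancel₀ h1.ne'
        linear_combination 2 * nrm (x.1 - vhat v) * h4
      rw [← mul_inv, h3, inv_one]
    rw [h2, one_smul, add_sub_cancel]
  right_inv z := by
    show (1 / 2 - nrm (vhat v + (2 * (1 + nrm z))⁻¹ • z - vhat v))⁻¹ •
      (vhat v + (2 * (1 + nrm z))⁻¹ • z - vhat v) = z
    have h1 := nrm_nonneg z
    rw [add_sub_cancel_left, nrm_smul (by positivity), smul_smul]
    have h2 : (1 / 2 - (2 * (1 + nrm z))⁻¹ * nrm z)⁻¹ * (2 * (1 + nrm z))⁻¹ = 1 := by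
      have h3 : 1 / 2 - (2 * (1 + nrm z))⁻¹ * nrm z = (2 * (1 + nrm z))⁻¹ := by
        field_simp
        ring
      rw [h3]
      exact inv_mul_cancel₀ (by positivity)
    rw [h2, one_smul]
  continuous_toFun := by
    have h1 : Continuous fun x : {x : Fin 4 → ℝ // osc4 x v < 1 / 2} => nrm (x.1 - vhat v) :=
      nrm_cont.comp (by fun_prop)
    refine Continuous.smul (Continuous.inv₀ (continuous_const.sub h1) ?_) (by fun_prop)
    intro x
    have h0 := x.2
    rw [osc4_nrm] at h0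
    show 1 / 2 - nrm (x.1 - vhat v) ≠ 0
    linarith
  continuous_invFun := by
    apply Continuous.subtype_mk
    refine continuous_const.add (Continuous.smul (Continuous.inv₀
      (continuous_const.mul (continuous_const.add nrm_cont)) ?_) continuous_id)
    intro z
    have h1 := nrm_nonneg z
    show 2 * (1 + nrm z) ≠ 0
    positivity

end FixAux

open FixAux in
/-- Fixed points of the torus. -/
theorem stFix : StFix := by
  refine ⟨fixed, uniq, zero_iff, ?_, equi, ?_⟩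
  · intro x v
    rw [osc4_eq]
    exact osc_nonneg _
  · intro v
    refine ⟨ball v, ?_⟩
    intro x hx
    show (1 / 2 - nrm (x.1 - vhat v))⁻¹ • (x.1 - vhat v) = 0
    rw [hx, sub_self, smul_zero]

end Pool.Agent.Lib.MP_39dc45_gt.SP
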