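import Pool.Agent.Lib.MP_39dc45_gt.SP.StA

/-!
# MP_39dc45_gt, module G1: the contraction lemma

A based complex with a perfect acyclic matching is contractible; the cells over `s` or over
`insert v s` (`v` the largest vertex) are matched by inserting or removing the element `(v, x)`,
where `x` is the second coordinate of the last element over `s`.
-/

open Matrix

noncomputable section

namespace Pool.Agent.Lib.MP_39dc45_gt.SP

namespace G1Aux

/-! ## Algebra: perfect acyclic matchings -/

section alg

variable {T : Type} [Fintype T] [DecidableEq T]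

theorem pow_ne {N : Matrix T T ℤ} {rk deg : T → ℕ} (h1 : ∀ i j, N i j ≠ 0 → rk j < rk i)
    (h2 : ∀ i j, N i j ≠ 0 → deg j = deg i) (k : ℕ) (i j : T) (h : (N ^ k) i j ≠ 0) :
    rk j + k ≤ rk i ∧ deg j = deg i := by
  induction k generalizing i j with
  | zero =>
    rw [pow_zero, Matrix.one_apply] at h
    split_ifs at h with hij
    · subst hij
      simp
    · exact absurd rfl h
  | succ k ih =>
    rw [pow_succ, Matrix.mul_apply] at h
    obtain ⟨l, _, hl⟩ := Finset.exists_ne_zero_of_sum_ne_zero h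
    have ha := ih i l (left_ne_zero_of_mul hl)
    have hb := h1 l j (right_ne_zero_of_mul hl)
    have hc := h2 l j (right_ne_zero_of_mul hl)
    exact ⟨by omega, hc.trans ha.2⟩

/-- A triangular matrix with units on the diagonal has an inverse of degree zero. -/
theorem exists_inv (E : Matrix T T ℤ) (rk deg : T → ℕ) (ε : T → ℤ) (hε : ∀ i, ε i * ε i = 1)
    (hd : ∀ i, E i i = ε i) (hr : ∀ i j, E i j ≠ 0 → j ≠ i → rk j < rk i)
    (hdeg : ∀ i j, E i j ≠ 0 → deg j = deg i) :
    ∃ A : Matrix T T ℤ, A * E = 1 ∧ E * A = 1 ∧ ∀ i j, A i j ≠ 0 → deg j = deg i := by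
  set N : Matrix T T ℤ := 1 - diagonal ε * E with hN
  have hee : diagonal ε * diagonal ε = (1 : Matrix T T ℤ) := by
    rw [diagonal_mul_diagonal, ← diagonal_one]
    congr 1
    ext i
    exact hε i
  have hNij : ∀ i j, N i j = (if i = j then 1 else 0) - ε i * E i j := by
    intro i j
    rw [hN, Matrix.sub_apply, diagonal_mul, Matrix.one_apply]
  have h0 : ∀ i j, N i j ≠ 0 → E i j ≠ 0 ∧ j ≠ i := by
    intro i j h
    rw [hNij] at h
    by_cases hij : i = j
    · subst hij
      rw [if_pos rfl, hd, hε] at h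
      exact absurd (sub_self _) h
    · refine ⟨fun h' => h ?_, fun h' => hij h'.symm⟩
      rw [if_neg hij, h', mul_zero, sub_zero]
  have h1 : ∀ i j, N i j ≠ 0 → rk j < rk i := fun i j h => hr i j (h0 i j h).1 (h0 i j h).2
  have h2 : ∀ i j, N i j ≠ 0 → deg j = deg i := fun i j h => hdeg i j (h0 i j h).1
  set K : ℕ := (∑ i, rk i) + 1 with hK
  have hNK : N ^ K = 0 := by
    ext i j
    by_contra h
    have := (pow_ne h1 h2 K i j h).1
    have h3 : rk i ≤ ∑ i, rk i := Finset.single_le_sum (fun _ _ => Nat.zero_le _)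
      (Finset.mem_univ i)
    omega
  set A' : Matrix T T ℤ := ∑ k ∈ Finset.range K, N ^ k with hA'
  have e1 : A' * (diagonal ε * E) = 1 := by
    have := geom_sum_mul_neg N K
    rw [hNK, sub_zero, ← hA'] at this
    rw [← this, hN, sub_sub_cancel]
  have e2 : (diagonal ε * E) * A' = 1 := by
    have := mul_neg_geom_sum N K
    rw [hNK, sub_zero, ← hA'] at this
    rw [← this, hN, sub_sub_cancel]
  refine ⟨A' * diagonal ε, ?_, ?_, ?_⟩
  · rw [Matrix.mul_assoc]
    exact e1
  · have : E * A' = diagonal ε := by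
      calc E * A' = (diagonal ε * diagonal ε) * (E * A') := by rw [hee, Matrix.one_mul]
        _ = diagonal ε * ((diagonal ε * E) * A') := by simp only [Matrix.mul_assoc]
        _ = diagonal ε := by rw [e2, Matrix.mul_one]
    rw [← Matrix.mul_assoc, this, hee]
  · intro i j h
    rw [mul_diagonal] at h
    have h' := left_ne_zero_of_mul h
    rw [hA', Matrix.sum_apply] at h'
    obtain ⟨k, _, hk⟩ := Finset.exists_ne_zero_of_sum_ne_zero h'
    exact (pow_ne h1 h2 k i j hk).2

/-- A complex with a perfect acyclic matching is contractible. -/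
theorem morse {J : Type} [Fintype J] [DecidableEq J] (deg : J → ℕ) (D : Matrix J J ℤ)
    (hD : Cx deg D) (e : T ⊕ T ≃ J) (rk : T → ℕ) (ε : T → ℤ) (hε : ∀ i, ε i * ε i = 1)
    (hd : ∀ i, D (e (Sum.inr i)) (e (Sum.inl i)) = ε i)
    (hr : ∀ i j, D (e (Sum.inr i)) (e (Sum.inl j)) ≠ 0 → j ≠ i → rk j < rk i) :
    ∃ S : Matrix J J ℤ, Contr deg D S := by
  have hne : ∀ i, ε i ≠ 0 := fun i h => by
    have := hε i
    rw [h] at this
    simp at this
  have hup : ∀ i, deg (e (Sum.inr i)) = deg (e (Sum.inl i)) + 1 := fun i =>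
    hD.deg_D _ _ (by rw [hd]; exact hne i)
  obtain ⟨P, R, E, Q, hB⟩ : ∃ P R E Q : Matrix T T ℤ, D.submatrix e e = fromBlocks P R E Q :=
    ⟨_, _, _, _, (fromBlocks_toBlocks _).symm⟩
  have hE : ∀ i j, E i j = D (e (Sum.inr i)) (e (Sum.inl j)) := by
    intro i j
    have := congrFun (congrFun hB (Sum.inr i)) (Sum.inl j)
    rw [fromBlocks_apply₂₁, submatrix_apply] at this
    exact this.symm
  obtain ⟨A, hAE, hEA, hA⟩ := exists_inv E rk (fun i => deg (e (Sum.inl i))) ε hε
    (fun i => by rw [hE]; exact hd i) (fun i j h => hr i j (by rwa [hE] at h)) (fun i j h => by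
      rw [hE] at h
      have h1 := hD.deg_D _ _ h
      have h2 := hup i
      show deg (e (Sum.inl j)) = deg (e (Sum.inl i))
      omega)
  have hsq : D.submatrix e e * D.submatrix e e = 0 := by
    rw [submatrix_mul_equiv, hD.sq]
    rfl
  rw [hB, fromBlocks_multiply] at hsq
  have h21 : E * P + Q * E = 0 := by
    have := congrArg toBlocks₂₁ hsq
    rw [toBlocks_fromBlocks₂₁] at this
    rw [this]
    rfl
  have h12 : P * A + A * Q = 0 := by
    have : A * (E * P + Q * E) * A = 0 := by rw [h21, Matrix.mul_zero, Matrix.zero_mul]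
    rw [Matrix.mul_add, Matrix.add_mul] at this
    rw [← Matrix.mul_assoc A E P, hAE, Matrix.one_mul, ← Matrix.mul_assoc A Q E,
      Matrix.mul_assoc (A * Q) E A, hEA, Matrix.mul_one] at this
    exact this
  refine ⟨(fromBlocks 0 A 0 0).submatrix e.symm e.symm, ?_, ?_⟩
  · intro i j h
    rw [submatrix_apply] at h
    rcases hi : e.symm i with a | a <;> rcases hj : e.symm j with b | b
    all_goals rw [hi, hj] at h
    · exact absurd rfl h
    · rw [fromBlocks_apply₁₂] at h
      have h1 : deg (e (Sum.inl b)) = deg (e (Sum.inl a)) := hA a b h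
      have h2 := hup b
      have hi' : i = e (Sum.inl a) := by rw [← hi, Equiv.apply_symm_apply]
      have hj' : j = e (Sum.inr b) := by rw [← hj, Equiv.apply_symm_apply]
      rw [hi', hj', h2, h1]
    · exact absurd rfl h
    · exact absurd rfl h
  · have key : (D.submatrix e e) * (fromBlocks 0 A 0 0) + (fromBlocks 0 A 0 0) * (D.submatrix e e)
        = 1 := by
      rw [hB, fromBlocks_multiply, fromBlocks_multiply, fromBlocks_add, ← fromBlocks_one]
      congr 1
      · simp [hAE]
      · simpa using h12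
      · simp
      · simp [hEA]
    have h1 : D = (D.submatrix e e).submatrix e.symm e.symm := by
      rw [submatrix_submatrix]
      simp
    rw [h1]
    rw [submatrix_mul_equiv, submatrix_mul_equiv]
    have h2 := congrArg (fun M : Matrix (T ⊕ T) (T ⊕ T) ℤ => M.submatrix e.symm e.symm) key
    simp only [submatrix_one_equiv] at h2
    rw [← h2]
    rfl

end alg

/-! ## The square of the boundary -/

section bound

variable {V : Type}

theorem erase_erase (l : List V) (i j : ℕ) (h : i ≤ j) :
    (l.eraseIdx i).eraseIdx j = (l.eraseIdx (j + 1)).eraseIdx i := by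
  induction l generalizing i j with
  | nil => simp
  | cons a t ih =>
    cases i with
    | zero => simp
    | succ i =>
      cases j with
      | zero => omega
      | succ j =>
        simp only [List.eraseIdx_cons_succ]
        rw [ih i j (by omega)]

theorem bd_apply [DecidableEq V] (l l' : List V) (h : 2 ≤ l.length) :
    bd l l' = ∑ i ∈ Finset.range l.length, if l.eraseIdx i = l' then (-1 : ℤ) ^ i else 0 := by
  rw [bd, if_neg (by omega), Finsupp.finsetSum_apply]
  refine Finset.sum_congr rfl fun i _ => ?_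
  rw [Finsupp.single_apply]

theorem bd_ne (l l' : List V) (h : bd l l' ≠ 0) :
    2 ≤ l.length ∧ ∃ i < l.length, l' = l.eraseIdx i := by
  classical
  have h2 : 2 ≤ l.length := by
    by_contra h2
    rw [bd, if_pos (by omega)] at h
    exact h rfl
  rw [bd_apply l l' h2] at h
  obtain ⟨i, hi, hne⟩ := Finset.exists_ne_zero_of_sum_ne_zero h
  refine ⟨h2, i, Finset.mem_range.1 hi, ?_⟩
  by_contra hh
  exact hne (if_neg fun h' => hh h'.symm)

theorem double_sum [DecidableEq V] (l l'' : List V) (n : ℕ) :
    ∑ p ∈ Finset.range n ×ˢ Finset.range (n - 1),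
      (if (l.eraseIdx p.1).eraseIdx p.2 = l'' then (-1 : ℤ) ^ (p.1 + p.2) else 0) = 0 := by
  refine Finset.sum_involution (fun p _ => if p.1 ≤ p.2 then (p.2 + 1, p.1) else (p.2, p.1 - 1))
    ?_ ?_ ?_ ?_
  · rintro ⟨i, j⟩ _
    dsimp only
    by_cases hij : i ≤ j
    · rw [if_pos hij]
      dsimp only
      rw [erase_erase l i j hij]
      split_ifs
      · have : j + 1 + i = (i + j) + 1 := by ring
        rw [this, pow_succ]
        ring
      · rfl
    · rw [if_neg hij]
      dsimp only
      have h1 : (l.eraseIdx j).eraseIdx (i - 1) = (l.eraseIdx i).eraseIdx j := by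
        have := erase_erase l j (i - 1) (by omega)
        rw [this, Nat.sub_add_cancel (by omega)]
      rw [h1]
      split_ifs
      · have : i + j = (j + (i - 1)) + 1 := by omega
        rw [this, pow_succ]
        ring
      · rfl
  · rintro ⟨i, j⟩ _ _
    dsimp only
    split_ifs
    · intro h
      rw [Prod.mk.injEq] at h
      omega
    · intro h
      rw [Prod.mk.injEq] at h
      omega
  · rintro ⟨i, j⟩ h
    rw [Finset.mem_product, Finset.mem_range, Finset.mem_range] at h
    dsimp only at h ⊢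
    split_ifs
    · rw [Finset.mem_product, Finset.mem_range, Finset.mem_range]
      dsimp only
      omega
    · rw [Finset.mem_product, Finset.mem_range, Finset.mem_range]
      dsimp only
      omega
  · rintro ⟨i, j⟩ _
    dsimp only
    by_cases hij : i ≤ j
    · rw [if_pos hij]
      dsimp only
      rw [if_neg (by omega)]
      rw [Nat.add_sub_cancel]
    · rw [if_neg hij]
      dsimp only
      rw [if_pos (by omega), Nat.sub_add_cancel (by omega)]

theorem bd_bd [DecidableEq V] (B : Finset (List V)) (l l'' : List V)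
    (hB : ∀ i j, l'' = (l.eraseIdx i).eraseIdx j → l.eraseIdx i ∈ B) :
    ∑ l' : B, bd l l' * bd (l' : List V) l'' = 0 := by
  rw [Finset.sum_coe_sort B (fun l' => bd l l' * bd l' l'')]
  by_cases h3 : 3 ≤ l.length
  · have h1 : ∀ l' ∈ B, bd l l' * bd l' l'' = ∑ i ∈ Finset.range l.length,
        if l.eraseIdx i = l' then (-1 : ℤ) ^ i * bd l' l'' else 0 := by
      intro l' _
      rw [bd_apply l l' (by omega), Finset.sum_mul]
      refine Finset.sum_congr rfl fun i _ => ?_
      split_ifs <;> simp
    rw [Finset.sum_congr rfl h1, Finset.sum_comm]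
    have h2 : ∀ i ∈ Finset.range l.length,
        (∑ l' ∈ B, if l.eraseIdx i = l' then (-1 : ℤ) ^ i * bd l' l'' else 0) =
          ∑ j ∈ Finset.range (l.length - 1),
            if (l.eraseIdx i).eraseIdx j = l'' then (-1 : ℤ) ^ (i + j) else 0 := by
      intro i hi
      have hi' := Finset.mem_range.1 hi
      have hlen : (l.eraseIdx i).length = l.length - 1 := List.length_eraseIdx_of_lt hi'
      have h4 : (∑ l' ∈ B, if l.eraseIdx i = l' then (-1 : ℤ) ^ i * bd l' l'' else 0) =
          (-1 : ℤ) ^ i * bd (l.eraseIdx i) l'' := by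
        by_cases hm : l.eraseIdx i ∈ B
        · rw [Finset.sum_ite_eq, if_pos hm]
        · rw [Finset.sum_ite_eq, if_neg hm]
          have : bd (l.eraseIdx i) l'' = 0 := by
            by_contra hne
            obtain ⟨_, j, _, hj⟩ := bd_ne _ _ hne
            exact hm (hB i j hj)
          rw [this, mul_zero]
      rw [h4, bd_apply _ _ (by omega), hlen, Finset.mul_sum]
      refine Finset.sum_congr rfl fun j _ => ?_
      split_ifs
      · rw [pow_add]
      · rw [mul_zero]
    rw [Finset.sum_congr rfl h2, ← Finset.sum_product']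
    exact double_sum l l'' l.length
  · refine Finset.sum_eq_zero fun l' _ => ?_
    by_contra h
    obtain ⟨h2, i, hi, hl'⟩ := bd_ne _ _ (left_ne_zero_of_mul h)
    obtain ⟨h2', _⟩ := bd_ne _ _ (right_ne_zero_of_mul h)
    rw [hl', List.length_eraseIdx_of_lt hi] at h2'
    omega

end bound

/-! ## Chains of pairs -/

section chains

variable {V K : Type} [DecidableEq V] (v : V)

/-- The part not over `v`. -/
def loP (l : List (V × K)) : List (V × K) := l.filter fun p => p.1 ≠ v

/-- The part over `v`. -/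
def hiP (l : List (V × K)) : List (V × K) := l.filter fun p => p.1 = v

/-- The element over `v` with the last coordinate of the lower part. -/
def xl (l : List (V × K)) : Option (V × K) := (loP v l).getLast?.map fun p => (v, p.2)

/-- Insertion of this element. -/
def dn (l : List (V × K)) : List (V × K) := loP v l ++ ((xl v l).toList ++ hiP v l)

variable {v}

theorem lo_append {L Y : List (V × K)} (hL : ∀ p ∈ L, p.1 ≠ v) (hY : ∀ p ∈ Y, p.1 = v) :
    loP v (L ++ Y) = L := by
  rw [loP, List.filter_append, List.filter_eq_self.2, List.filter_eq_nil_iff.2, List.append_nil]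
  · intro p hp
    simp [hY p hp]
  · intro p hp
    simp [hL p hp]

theorem hi_append {L Y : List (V × K)} (hL : ∀ p ∈ L, p.1 ≠ v) (hY : ∀ p ∈ Y, p.1 = v) :
    hiP v (L ++ Y) = Y := by
  rw [hiP, List.filter_append, List.filter_eq_nil_iff.2, List.filter_eq_self.2, List.nil_append]
  · intro p hp
    simp [hY p hp]
  · intro p hp
    simp [hL p hp]

theorem split_of {l : List (V × K)} (h : l.Pairwise fun p q => p.1 = v → q.1 = v) :
    loP v l ++ hiP v l = l := by
  induction l with
  | nil => rfl
  | cons a t ih =>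
    rw [List.pairwise_cons] at h
    by_cases ha : a.1 = v
    · have h1 : ∀ p ∈ a :: t, p.1 = v := by
        intro p hp
        rcases List.mem_cons.1 hp with rfl | hp
        · exact ha
        · exact h.1 p hp ha
      have := lo_append (L := []) (Y := a :: t) (v := v) (by simp) h1
      have h2 := hi_append (L := []) (Y := a :: t) (v := v) (by simp) h1
      rw [List.nil_append] at this h2
      rw [this, h2, List.nil_append]
    · have h1 : loP v (a :: t) = a :: loP v t := by simp [loP, ha]
      have h2 : hiP v (a :: t) = hiP v t := by simp [hiP, ha]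
      rw [h1, h2, List.cons_append, ih h.2]


variable {RV : V → V → Prop} {RK : K → K → Prop} {s : Finset V}

/-- The cells. -/
def Gd (RV : V → V → Prop) (RK : K → K → Prop) (s : Finset V) (v : V) (l : List (V × K)) :
    Prop := l ∈ plP (prodR RV RK) ∧ (psupp l = s ∨ psupp l = insert v s)

/-- Normal form of a cell. -/
structure NF (RV : V → V → Prop) (RK : K → K → Prop) (s : Finset V) (v : V) (L0 : List (V × K))
    (c : V) (x : K) (Y : List (V × K)) : Prop where
  pw : (L0 ++ [(c, x)] ++ Y).Pairwise (prodR RV RK)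
  hL : ∀ p ∈ L0 ++ [(c, x)], p.1 ≠ v
  hY : ∀ p ∈ Y, p.1 = v
  supp : psupp (L0 ++ [(c, x)]) = s

theorem psupp_append (L Y : List (V × K)) : psupp (L ++ Y) = psupp L ∪ psupp Y := by
  rw [psupp, List.map_append, List.toFinset_append]
  rfl

theorem mem_psupp {l : List (V × K)} {a : V} : a ∈ psupp l ↔ ∃ p ∈ l, p.1 = a := by
  rw [psupp, List.mem_toFinset, List.mem_map]

theorem NF.gd {L0 : List (V × K)} {c : V} {x : K} {Y : List (V × K)}
    (h : NF RV RK s v L0 c x Y) : Gd RV RK s v (L0 ++ [(c, x)] ++ Y) := by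
  refine ⟨⟨by simp, h.pw⟩, ?_⟩
  rw [psupp_append, h.supp]
  rcases Y with _ | ⟨y, Y⟩
  · left
    simp [psupp]
  · right
    have : psupp (y :: Y) = {v} := by
      ext a
      rw [mem_psupp, Finset.mem_singleton]
      constructor
      · rintro ⟨p, hp, rfl⟩
        exact h.hY p hp
      · rintro rfl
        exact ⟨y, List.mem_cons_self, h.hY y List.mem_cons_self⟩
    rw [this, Finset.union_comm, Finset.insert_eq]

theorem NF.lo_eq {L0 : List (V × K)} {c : V} {x : K} {Y : List (V × K)}
    (h : NF RV RK s v L0 c x Y) : loP v (L0 ++ [(c, x)] ++ Y) = L0 ++ [(c, x)] :=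
  lo_append h.hL h.hY

theorem NF.hi_eq {L0 : List (V × K)} {c : V} {x : K} {Y : List (V × K)}
    (h : NF RV RK s v L0 c x Y) : hiP v (L0 ++ [(c, x)] ++ Y) = Y :=
  hi_append h.hL h.hY

theorem NF.xl_eq {L0 : List (V × K)} {c : V} {x : K} {Y : List (V × K)}
    (h : NF RV RK s v L0 c x Y) : xl v (L0 ++ [(c, x)] ++ Y) = some (v, x) := by
  rw [xl, h.lo_eq, List.getLast?_append]
  simp

theorem NF.dn_eq {L0 : List (V × K)} {c : V} {x : K} {Y : List (V × K)}
    (h : NF RV RK s v L0 c x Y) : dn v (L0 ++ [(c, x)] ++ Y) =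
      L0 ++ [(c, x)] ++ (v, x) :: Y := by
  rw [dn, h.lo_eq, h.xl_eq, h.hi_eq]
  rfl

theorem exists_nf (hRV : Asym RV) (hvs : v ∉ s) (hs : s.Nonempty) (hv : ∀ a ∈ s, RV a v)
    {l : List (V × K)} (h : Gd RV RK s v l) :
    ∃ L0 c x Y, l = L0 ++ [(c, x)] ++ Y ∧ NF RV RK s v L0 c x Y := by
  have hmem : ∀ p ∈ l, p.1 = v ∨ p.1 ∈ s := by
    intro p hp
    have h1 : p.1 ∈ psupp l := mem_psupp.2 ⟨p, hp, rfl⟩
    rcases h.2 with h2 | h2
    · rw [h2] at h1
      exact Or.inr h1
    · rw [h2, Finset.mem_insert] at h1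
      exact h1
  have hpw : l.Pairwise fun p q => p.1 = v → q.1 = v := by
    refine List.Pairwise.imp_of_mem (R := prodR RV RK) ?_ h.1.2
    intro p q _ hq hpq hp
    rcases hmem q hq with h1 | h1
    · exact h1
    · rcases hpq.2.1 with h2 | h2
      · rw [← h2, hp]
      · rw [hp] at h2
        exact absurd h2 (hRV _ _ (hv _ h1))
  have hsp := split_of hpw
  have hL : ∀ p ∈ loP v l, p.1 ≠ v := by
    intro p hp
    rw [loP, List.mem_filter] at hp
    simpa using hp.2
  have hY : ∀ p ∈ hiP v l, p.1 = v := by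
    intro p hp
    rw [hiP, List.mem_filter] at hp
    simpa using hp.2
  have hsupp : psupp (loP v l) = s := by
    ext a
    rw [mem_psupp]
    constructor
    · rintro ⟨p, hp, rfl⟩
      have h1 : p ∈ l := by
        rw [← hsp]
        exact List.mem_append_left _ hp
      exact (hmem p h1).resolve_left (hL p hp)
    · intro ha
      have h1 : a ∈ psupp l := by
        rcases h.2 with h2 | h2
        · rw [h2]
          exact ha
        · rw [h2]
          exact Finset.mem_insert_of_mem ha
      obtain ⟨p, hp, hpa⟩ := mem_psupp.1 h1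
      refine ⟨p, ?_, hpa⟩
      rw [loP, List.mem_filter]
      refine ⟨hp, ?_⟩
      have : p.1 ≠ v := by
        rw [hpa]
        rintro rfl
        exact hvs ha
      simpa using this
  have hne : loP v l ≠ [] := by
    intro h0
    rw [h0] at hsupp
    obtain ⟨a, ha⟩ := hs
    rw [← hsupp] at ha
    simp [psupp] at ha
  obtain ⟨L0, ⟨c, x⟩, hLx⟩ := (List.eq_nil_or_concat' (loP v l)).resolve_left hne
  refine ⟨L0, c, x, hiP v l, by rw [← hLx, hsp], ?_, ?_, hY, ?_⟩
  · rw [← hLx, hsp]
    exact h.1.2
  · rw [← hLx]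
    exact hL
  · rw [← hLx]
    exact hsupp

theorem NF.up (hRK : Asym RK) (hv : ∀ a ∈ s, RV a v) {L0 : List (V × K)} {c : V} {x : K}
    {Y : List (V × K)} (h : NF RV RK s v L0 c x Y) (hU : Y.head? ≠ some (v, x)) :
    NF RV RK s v L0 c x ((v, x) :: Y) := by
  have hpw := List.pairwise_append.1 h.pw
  have hlt : ∀ p ∈ L0 ++ [(c, x)], RV p.1 v := by
    intro p hp
    refine hv _ ?_
    rw [← h.supp]
    exact mem_psupp.2 ⟨p, hp, rfl⟩
  have hcx : (c, x) ∈ L0 ++ [(c, x)] := by simp
  have hne : ∀ y ∈ Y, y ≠ (v, x) := by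
    intro y hy hyx
    subst hyx
    rcases Y with _ | ⟨y0, Y⟩
    · simp at hy
    · have h0 : y0 ≠ (v, x) := by
        rintro rfl
        exact hU rfl
      rcases List.mem_cons.1 hy with hy | hy
      · exact h0 hy.symm
      · have h1 := (List.pairwise_cons.1 hpw.2.1).1 _ hy
        have h2 := hpw.2.2 _ hcx y0 List.mem_cons_self
        have h3 : y0.1 = v := h.hY y0 List.mem_cons_self
        rcases h1.2.2 with h4 | h4
        · exact h0 (Prod.ext h3 h4)
        · rcases h2.2.2 with h5 | h5
          · exact h0 (Prod.ext h3 h5.symm)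
          · exact hRK _ _ h4 h5
  refine ⟨?_, h.hL, ?_, h.supp⟩
  · rw [List.pairwise_append]
    refine ⟨hpw.1, ?_, ?_⟩
    · rw [List.pairwise_cons]
      refine ⟨fun y hy => ⟨(hne y hy).symm, ?_, ?_⟩, hpw.2.1⟩
      · exact Or.inl (h.hY y hy).symm
      · exact (hpw.2.2 _ hcx y hy).2.2
    · intro a ha b hb
      rcases List.mem_cons.1 hb with rfl | hb
      · refine ⟨fun h' => h.hL a ha (by rw [h']), Or.inr (hlt a ha), ?_⟩
        rcases List.mem_append.1 ha with ha' | ha'
        · exact ((List.pairwise_append.1 hpw.1).2.2 a ha' (c, x) (by simp)).2.2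
        · rw [List.mem_singleton.1 ha']
          exact Or.inl rfl
      · exact hpw.2.2 a ha b hb
  · intro p hp
    rcases List.mem_cons.1 hp with rfl | hp
    · rfl
    · exact h.hY p hp

theorem NF.down {L0 : List (V × K)} {c : V} {x : K} {Y : List (V × K)}
    (h : NF RV RK s v L0 c x ((v, x) :: Y)) :
    NF RV RK s v L0 c x Y ∧ Y.head? ≠ some (v, x) := by
  have hsub : (L0 ++ [(c, x)] ++ Y).Sublist (L0 ++ [(c, x)] ++ (v, x) :: Y) :=
    (List.Sublist.refl _).append (List.sublist_cons_self _ _)
  refine ⟨⟨h.pw.sublist hsub, h.hL, fun p hp => h.hY p (List.mem_cons_of_mem _ hp), h.supp⟩, ?_⟩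
  intro hh
  have h1 : (v, x) ∈ Y := List.mem_of_head? hh
  have h2 := (List.pairwise_cons.1 (List.pairwise_append.1 h.pw).2.1).1 _ h1
  exact h2.1 rfl

theorem NF.notmem {L0 : List (V × K)} {c : V} {x : K} {Y : List (V × K)}
    (h : NF RV RK s v L0 c x ((v, x) :: Y)) : (v, x) ∉ L0 ++ [(c, x)] ++ Y := by
  intro hm
  rcases List.mem_append.1 hm with hm | hm
  · exact h.hL _ hm rfl
  · have h2 := (List.pairwise_cons.1 (List.pairwise_append.1 h.pw).2.1).1 _ hm
    exact h2.1 rfl

/-- The faces of the upper cell. -/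
theorem NF.face {L0 : List (V × K)} {c : V} {x : K} {Y : List (V × K)}
    (h : NF RV RK s v L0 c x ((v, x) :: Y)) (i : ℕ)
    (_ : i < (L0 ++ [(c, x)] ++ (v, x) :: Y).length) :
    (i = (L0 ++ [(c, x)]).length ∧
      (L0 ++ [(c, x)] ++ (v, x) :: Y).eraseIdx i = L0 ++ [(c, x)] ++ Y) ∨
    (∃ L' Y' : List (V × K), (L0 ++ [(c, x)] ++ (v, x) :: Y).eraseIdx i = L' ++ Y' ∧
      L'.length < (L0 ++ [(c, x)]).length ∧ (∀ p ∈ L', p.1 ≠ v) ∧ (∀ p ∈ Y', p.1 = v) ∧
      (v, x) ∈ Y') ∨
    (∃ Y' : List (V × K), (L0 ++ [(c, x)] ++ (v, x) :: Y).eraseIdx i =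
      L0 ++ [(c, x)] ++ (v, x) :: Y' ∧ (∀ p ∈ Y', p.1 = v)) := by
  set L := L0 ++ [(c, x)] with hLdef
  rcases lt_trichotomy i L.length with h1 | h1 | h1
  · right
    left
    refine ⟨L.eraseIdx i, (v, x) :: Y, ?_, ?_, ?_, h.hY, List.mem_cons_self⟩
    · rw [List.eraseIdx_append_of_lt_length h1]
    · rw [List.length_eraseIdx_of_lt h1]
      omega
    · intro p hp
      exact h.hL p ((List.eraseIdx_sublist _ _).mem hp)
  · left
    refine ⟨h1, ?_⟩
    rw [List.eraseIdx_append_of_length_le (by omega), h1, Nat.sub_self]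
    rfl
  · right
    right
    obtain ⟨k, hk⟩ : ∃ k, i - L.length = k + 1 := ⟨i - L.length - 1, by omega⟩
    refine ⟨Y.eraseIdx k, ?_, ?_⟩
    · rw [List.eraseIdx_append_of_length_le (by omega), hk, List.eraseIdx_cons_succ]
    · intro p hp
      exact h.hY p (List.mem_cons_of_mem _ ((List.eraseIdx_sublist _ _).mem hp))

/-- The incidence number of the matched cells. -/
theorem NF.bd_eq {L0 : List (V × K)} {c : V} {x : K} {Y : List (V × K)}
    (h : NF RV RK s v L0 c x ((v, x) :: Y)) :
    bd (L0 ++ [(c, x)] ++ (v, x) :: Y) (L0 ++ [(c, x)] ++ Y) =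
      (-1 : ℤ) ^ (L0 ++ [(c, x)]).length := by
  classical
  rw [bd_apply _ _ (by simp only [List.length_append, List.length_cons, List.length_nil]; omega)]
  rw [Finset.sum_eq_single (L0 ++ [(c, x)]).length]
  · rw [if_pos]
    rw [List.eraseIdx_append_of_length_le le_rfl, Nat.sub_self]
    rfl
  · intro i hi hne
    rw [if_neg]
    intro he
    rcases h.face i (Finset.mem_range.1 hi) with h1 | ⟨L', Y', h1, _, _, _, h2⟩ | ⟨Y', h1, _⟩
    · exact hne h1.1
    · apply h.notmem
      rw [← he, h1]
      exact List.mem_append_right _ h2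
    · apply h.notmem
      rw [← he, h1]
      simp
  · intro h1
    exfalso
    apply h1
    rw [Finset.mem_range]
    simp only [List.length_append, List.length_cons, List.length_nil]
    omega

end chains

/-- There are finitely many cells. -/
theorem finite_gd {V K : Type} [DecidableEq V] [Fintype K] (RV : V → V → Prop)
    (RK : K → K → Prop) (s : Finset V) (v : V) : {l : List (V × K) | Gd RV RK s v l}.Finite := by
  classical
  set P : Finset (V × K) := insert v s ×ˢ Finset.univ with hP
  have hfin : {l : List P | l.length ≤ Fintype.card P}.Finite := List.finite_length_le _ _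
  refine (hfin.image (List.map Subtype.val)).subset ?_
  intro l hl
  have hmem : ∀ p ∈ l, p ∈ P := by
    intro p hp
    rw [hP, Finset.mem_product]
    refine ⟨?_, Finset.mem_univ _⟩
    have h1 : p.1 ∈ psupp l := mem_psupp.2 ⟨p, hp, rfl⟩
    rcases hl.2 with h2 | h2
    · rw [h2] at h1
      exact Finset.mem_insert_of_mem h1
    · rw [h2] at h1
      exact h1
  have hnd : l.Nodup := hl.1.2.imp fun h => h.1
  refine ⟨l.attach.map fun p => ⟨p.1, hmem p.1 p.2⟩, ?_, ?_⟩
  · have : (l.attach.map fun p => (⟨p.1, hmem p.1 p.2⟩ : P)).Nodup := by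
      refine (List.nodup_attach.2 hnd).map ?_
      intro a b hab
      rw [Subtype.mk.injEq] at hab
      exact Subtype.ext hab
    exact this.length_le_card
  · rw [List.map_map]
    exact List.attach_map_subtype_val l

end G1Aux

open G1Aux in
theorem stG1 : StG1 := by
  intro V K _ _ _ RV RK hRV hRK s v hvs hs _ hv
  have hfin := finite_gd RV RK s v
  set B : Finset (List (V × K)) := hfin.toFinset with hB
  have hmem : ∀ l, l ∈ B ↔ Gd RV RK s v l := fun l => by
    rw [hB, Set.Finite.mem_toFinset]
    rfl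
  refine ⟨B, hmem, ?_⟩
  let U : B → Prop := fun l => (hiP v (l : List (V × K))).head? ≠ xl v (l : List (V × K))
  have hnf : ∀ l : B, ∃ L0 c x Y, (l : List (V × K)) = L0 ++ [(c, x)] ++ Y ∧
      NF RV RK s v L0 c x Y := fun l => exists_nf hRV hvs hs hv ((hmem l).1 l.2)
  have hdn : ∀ l : {l : B // U l}, dn v (l.1 : List (V × K)) ∈ B := by
    rintro ⟨l, hl⟩
    obtain ⟨L0, c, x, Y, h1, h2⟩ := hnf l
    change (hiP v (l : List (V × K))).head? ≠ xl v (l : List (V × K)) at hl
    rw [h1, h2.hi_eq, h2.xl_eq] at hl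
    rw [hmem]
    dsimp only
    rw [h1, h2.dn_eq]
    exact (h2.up hRK hv hl).gd
  have hT : ∀ t : {l : B // U l}, ∃ L0 c x Y, (t.1 : List (V × K)) = L0 ++ [(c, x)] ++ Y ∧
      NF RV RK s v L0 c x Y ∧ NF RV RK s v L0 c x ((v, x) :: Y) ∧
      dn v (t.1 : List (V × K)) = L0 ++ [(c, x)] ++ (v, x) :: Y := by
    rintro ⟨l, hl⟩
    obtain ⟨L0, c, x, Y, h1, h2⟩ := hnf l
    change (hiP v (l : List (V × K))).head? ≠ xl v (l : List (V × K)) at hl
    rw [h1, h2.hi_eq, h2.xl_eq] at hl
    refine ⟨L0, c, x, Y, h1, h2, h2.up hRK hv hl, ?_⟩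
    dsimp only
    rw [h1, h2.dn_eq]
  let f : {l : B // U l} ⊕ {l : B // U l} → B := Sum.elim (fun t => t.1)
    (fun t => ⟨dn v (t.1 : List (V × K)), hdn t⟩)
  have hnU : ∀ t : {l : B // U l}, ¬ U ⟨dn v (t.1 : List (V × K)), hdn t⟩ := by
    intro t ht
    obtain ⟨L0, c, x, Y, h1, h2, h3, h4⟩ := hT t
    apply ht
    dsimp only
    rw [h4, h3.hi_eq, h3.xl_eq]
    rfl
  have hf : Function.Bijective f := by
    constructor
    · rintro (a | a) (b | b) hab
      · exact congrArg Sum.inl (Subtype.ext hab)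
      · exfalso
        apply hnU b
        have h1 : a.1 = ⟨dn v (b.1 : List (V × K)), hdn b⟩ := hab
        rw [← h1]
        exact a.2
      · exfalso
        apply hnU a
        have h1 : ⟨dn v (a.1 : List (V × K)), hdn a⟩ = b.1 := hab
        rw [h1]
        exact b.2
      · have h1 : dn v (a.1 : List (V × K)) = dn v (b.1 : List (V × K)) :=
          congrArg Subtype.val (show (⟨dn v (a.1 : List (V × K)), hdn a⟩ : B) =
            ⟨dn v (b.1 : List (V × K)), hdn b⟩ from hab)
        obtain ⟨L0, c, x, Y, a1, a2, a3, a4⟩ := hT a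
        obtain ⟨L0', c', x', Y', b1, b2, b3, b4⟩ := hT b
        have e1 : L0 ++ [(c, x)] = L0' ++ [(c', x')] := by
          rw [← a3.lo_eq, ← a4, h1, b4, b3.lo_eq]
        have e2 : (v, x) :: Y = (v, x') :: Y' := by
          rw [← a3.hi_eq, ← a4, h1, b4, b3.hi_eq]
        rw [List.cons.injEq] at e2
        have e3 : a.1 = b.1 := Subtype.ext (by rw [a1, b1, e1, e2.2])
        exact congrArg Sum.inr (Subtype.ext e3)
    · intro l
      by_cases hl : U l
      · exact ⟨Sum.inl ⟨l, hl⟩, rfl⟩
      · obtain ⟨L0, c, x, Y, h1, h2⟩ := hnf l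
        have hl' : (hiP v (l : List (V × K))).head? = xl v (l : List (V × K)) := not_not.1 hl
        rw [h1, h2.hi_eq, h2.xl_eq] at hl'
        rcases Y with _ | ⟨y, Y'⟩
        · simp at hl'
        · have hy : y = (v, x) := by simpa using hl'
          subst hy
          obtain ⟨h3, h4⟩ := h2.down
          have hl0 : L0 ++ [(c, x)] ++ Y' ∈ B := (hmem _).2 h3.gd
          have hU0 : U ⟨L0 ++ [(c, x)] ++ Y', hl0⟩ := by
            change (hiP v (L0 ++ [(c, x)] ++ Y')).head? ≠ xl v (L0 ++ [(c, x)] ++ Y')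
            rw [h3.hi_eq, h3.xl_eq]
            exact h4
          refine ⟨Sum.inr ⟨⟨L0 ++ [(c, x)] ++ Y', hl0⟩, hU0⟩, ?_⟩
          apply Subtype.ext
          change dn v (L0 ++ [(c, x)] ++ Y') = (l : List (V × K))
          rw [h3.dn_eq, h1]
  have hcx : Cx (fun i : B => (i : List (V × K)).length)
      (Matrix.of fun i j : B => plD (i : List (V × K)) (j : List (V × K))) := by
    constructor
    · intro i j hij
      rw [Matrix.of_apply, plD] at hij
      obtain ⟨h2, k, hk, hj⟩ := bd_ne _ _ hij
      rw [hj, List.length_eraseIdx_of_lt hk]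
      omega
    · ext i k
      rw [Matrix.mul_apply, Matrix.zero_apply]
      simp only [Matrix.of_apply, plD]
      refine bd_bd B _ _ ?_
      intro a b hab
      have hi := (hmem _).1 i.2
      have hk := (hmem _).1 k.2
      have s1 : ((i : List (V × K)).eraseIdx a).Sublist (i : List (V × K)) :=
        List.eraseIdx_sublist _ _
      have s2 : (k : List (V × K)).Sublist ((i : List (V × K)).eraseIdx a) := by
        rw [hab]
        exact List.eraseIdx_sublist _ _
      have p1 : psupp ((i : List (V × K)).eraseIdx a) ⊆ insert v s := by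
        intro z hz
        obtain ⟨p, hp, rfl⟩ := mem_psupp.1 hz
        have h1 : p.1 ∈ psupp (i : List (V × K)) := mem_psupp.2 ⟨p, s1.mem hp, rfl⟩
        rcases hi.2 with h2 | h2
        · rw [h2] at h1
          exact Finset.mem_insert_of_mem h1
        · rw [h2] at h1
          exact h1
      have p2 : s ⊆ psupp ((i : List (V × K)).eraseIdx a) := by
        intro z hz
        have h1 : z ∈ psupp (k : List (V × K)) := by
          rcases hk.2 with h2 | h2
          · rw [h2]
            exact hz
          · rw [h2]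
            exact Finset.mem_insert_of_mem hz
        obtain ⟨p, hp, rfl⟩ := mem_psupp.1 h1
        exact mem_psupp.2 ⟨p, s2.mem hp, rfl⟩
      rw [hmem]
      refine ⟨⟨?_, hi.1.2.sublist s1⟩, ?_⟩
      · intro h0
        rw [h0, List.sublist_nil] at s2
        exact hk.1.1 s2
      · by_cases hvp : v ∈ psupp ((i : List (V × K)).eraseIdx a)
        · right
          refine Finset.Subset.antisymm p1 ?_
          intro z hz
          rcases Finset.mem_insert.1 hz with rfl | hz
          · exact hvp
          · exact p2 hz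
        · left
          refine Finset.Subset.antisymm ?_ p2
          intro z hz
          rcases Finset.mem_insert.1 (p1 hz) with rfl | h
          · exact absurd hz hvp
          · exact h
  classical
  refine morse _ _ hcx (Equiv.ofBijective f hf)
    (fun t => (loP v (t.1 : List (V × K))).length)
    (fun t => (-1 : ℤ) ^ (loP v (t.1 : List (V × K))).length) ?_ ?_ ?_
  · intro t
    rw [← pow_add, ← two_mul, pow_mul]
    norm_num
  · intro t
    obtain ⟨L0, c, x, Y, h1, h2, h3, h4⟩ := hT t
    change bd (dn v (t.1 : List (V × K))) (t.1 : List (V × K)) = _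
    rw [h4, h1, h3.bd_eq, h2.lo_eq]
  · intro i j hij hne
    have hij' : bd (dn v (i.1 : List (V × K))) (j.1 : List (V × K)) ≠ 0 := hij
    obtain ⟨_, k, hk, hj⟩ := bd_ne _ _ hij'
    obtain ⟨L0, c, x, Y, h1, h2, h3, h4⟩ := hT i
    rw [h4] at hk hj
    change (loP v (j.1 : List (V × K))).length < (loP v (i.1 : List (V × K))).length
    rcases h3.face k hk with ⟨_, e1⟩ | ⟨L', Y', e1, e2, e3, e4, _⟩ | ⟨Y', e1, e2⟩
    · exact absurd (Subtype.ext (Subtype.ext (by rw [hj, e1, h1]))) hne
    · rw [hj, e1, lo_append e3 e4, h1, h2.lo_eq]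
      exact e2
    · exfalso
      apply j.2
      have hY' : ∀ p ∈ (v, x) :: Y', p.1 = v := by
        intro p hp
        rcases List.mem_cons.1 hp with rfl | hp
        · rfl
        · exact e2 p hp
      rw [hj, e1, hi_append h3.hL hY', xl, lo_append h3.hL hY']
      simp

end Pool.Agent.Lib.MP_39dc45_gt.SP
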