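import Pool.Agent.Lib.MP_39dc45_gt.SP.StA

/-!
# MP_39dc45_gt: the blocks of the cone of `id × f` are contractible
-/

open Matrix

noncomputable section

namespace Pool.Agent.Lib.MP_39dc45_gt.SP

namespace G2aux

section gen
variable {V W : Type}

theorem coD_inl_inl (RW : W → W → Prop) (f : V → W) (l l' : List W) :
    coD RW f (Sum.inl l) (Sum.inl l') = plD l l' := by
  unfold coD coneD plD
  exact Finsupp.mapDomain_apply Sum.inl_injective _ _

theorem coD_inl_inr (RW : W → W → Prop) (f : V → W) (l : List W) (l' : List V) :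
    coD RW f (Sum.inl l) (Sum.inr l') = 0 := by
  unfold coD coneD
  exact Finsupp.mapDomain_of_notMem_range _ _ (by simp)

theorem coD_inr_inr (RW : W → W → Prop) (f : V → W) (l l' : List V) :
    coD RW f (Sum.inr l) (Sum.inr l') = - plD l l' := by
  unfold coD coneD plD
  rw [Finsupp.sub_apply, Finsupp.mapDomain_apply Sum.inr_injective,
    Finsupp.mapDomain_of_notMem_range _ _ (by simp), zero_sub]

theorem coD_inr_inl (RW : W → W → Prop) (f : V → W) (l : List V) (l' : List W) :
    coD RW f (Sum.inr l) (Sum.inl l') = push RW f l l' := by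
  unfold coD coneD
  rw [Finsupp.sub_apply, Finsupp.mapDomain_apply Sum.inl_injective,
    Finsupp.mapDomain_of_notMem_range _ _ (by simp), sub_zero]

theorem plD_ne {l l' : List V} (h : plD l l' ≠ 0) : ∃ m, l' = l.eraseIdx m := by
  unfold plD bd at h
  split_ifs at h with h1
  · exact absurd rfl h
  · rw [Finsupp.finsetSum_apply] at h
    obtain ⟨m, -, hne⟩ := Finset.exists_ne_zero_of_sum_ne_zero h
    refine ⟨m, ?_⟩
    by_contra hcon
    exact hne (Finsupp.single_eq_of_ne hcon)

theorem push_ne {RW : W → W → Prop} {f : V → W} {l : List V} {l' : List W}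
    (h : push RW f l l' ≠ 0) : l' = l.map f := by
  unfold push at h
  split_ifs at h with h1
  · by_contra hcon
    exact h (Finsupp.single_eq_of_ne hcon)
  · exact absurd rfl h

theorem bd_map (g : V → W) (l : List V) : bd (l.map g) = (bd l).mapDomain (List.map g) := by
  unfold bd
  rw [List.length_map]
  split_ifs with h1
  · rw [Finsupp.mapDomain_zero]
  · rw [Finsupp.mapDomain_finsetSum]
    refine Finset.sum_congr rfl fun i _ => ?_
    rw [Finsupp.mapDomain_single, List.eraseIdx_map]

theorem plD_map {g : V → W} (hg : Function.Injective g) (l l' : List V) :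
    plD (l.map g) (l'.map g) = plD l l' := by
  unfold plD
  rw [bd_map]
  exact Finsupp.mapDomain_apply (List.map_injective_iff.2 hg) _ _

theorem asym_prod {RV : V → V → Prop} {RW : W → W → Prop} (h1 : Asym RV) (h2 : Asym RW) :
    Asym (prodR RV RW) := by
  rintro ⟨a, b⟩ ⟨a', b'⟩ ⟨hne, ha, hb⟩ ⟨-, ha', hb'⟩
  have e1 : a = a' := by
    rcases ha with h | h
    · exact h
    · rcases ha' with h' | h'
      · exact h'.symm
      · exact absurd h' (h1 _ _ h)
  have e2 : b = b' := by
    rcases hb with h | h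
    · exact h
    · rcases hb' with h' | h'
      · exact h'.symm
      · exact absurd h' (h2 _ _ h)
  exact hne (Prod.ext e1 e2)

theorem cone_facts (hC2 : StC2) {RV : V → V → Prop} {RW : W → W → Prop} {f : V → W}
    (hV : Asym RV) (hW : Asym RW) (hf : IsSimp RV RW f) :
    (∀ i ∈ coP RV RW, ∀ j ∈ coP RV RW, coD RW f i j ≠ 0 → cdeg i = cdeg j + 1) ∧
    ∀ i ∈ coP RV RW, ∀ k ∈ coP RV RW,
      ∑ᶠ (j : List W ⊕ List V) (_ : j ∈ coP RV RW), coD RW f i j * coD RW f j k = 0 := by
  let a1 : MulAction Unit V :=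
    { smul := fun _ x => x, one_smul := fun _ => rfl, mul_smul := fun _ _ _ => rfl }
  let a2 : MulAction Unit W :=
    { smul := fun _ x => x, one_smul := fun _ => rfl, mul_smul := fun _ _ _ => rfl }
  have h := hC2 Unit V W RV RW f hV hW (fun _ _ _ h => h) (fun _ _ _ h => h) (fun _ _ _ => rfl)
    (fun _ _ _ => rfl) hf (fun _ _ => rfl)
  obtain ⟨-, -, -, -, -, h1, h2⟩ := h
  exact ⟨h1, h2⟩

end gen

section prod
variable {V K K' : Type}

theorem simp_prod {RV : V → V → Prop} {RK : K → K → Prop} {RK' : K' → K' → Prop} {f : K' → K}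
    (hf : IsSimp RK' RK f) : IsSimp (prodR RV RK') (prodR RV RK) (Prod.map id f) := by
  rintro ⟨a, b⟩ ⟨a', b'⟩ ⟨hne, ha, hb⟩
  by_cases h : ((a, f b) : V × K) = (a', f b')
  · exact Or.inl h
  · refine Or.inr ⟨h, ha, ?_⟩
    rcases hb with h' | h'
    · exact Or.inl (congrArg f h')
    · exact hf _ _ h'

variable [DecidableEq V]

theorem psupp_sublist {l l' : List (V × K)} (h : l'.Sublist l) : psupp l' ⊆ psupp l := by
  intro a ha
  unfold psupp at ha ⊢
  rw [List.mem_toFinset] at ha ⊢
  exact (h.map Prod.fst).subset ha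

theorem psupp_map (f : K' → K) (l : List (V × K')) :
    psupp (l.map (Prod.map id f)) = psupp l := by
  unfold psupp
  rw [List.map_map]
  rfl

theorem csupp_mono {RV : V → V → Prop} {RK : K → K → Prop} {f : K' → K}
    {i j : List (V × K) ⊕ List (V × K')}
    (h : coD (prodR RV RK) (Prod.map id f) i j ≠ 0) : csupp j ⊆ csupp i := by
  rcases i with l | l <;> rcases j with l' | l'
  · rw [coD_inl_inl] at h
    obtain ⟨m, rfl⟩ := plD_ne h
    exact psupp_sublist (List.eraseIdx_sublist _ _)
  · rw [coD_inl_inr] at h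
    exact absurd rfl h
  · rw [coD_inr_inl] at h
    have h1 := push_ne h
    subst h1
    change psupp (l.map (Prod.map id f)) ⊆ psupp l
    rw [psupp_map]
  · rw [coD_inr_inr] at h
    obtain ⟨m, rfl⟩ := plD_ne (neg_ne_zero.1 h)
    exact psupp_sublist (List.eraseIdx_sublist _ _)

theorem clique {RV : V → V → Prop} {RK : K → K → Prop} {l : List (V × K)}
    (h : l.Pairwise (prodR RV RK)) : ∃ m : List V, m.Pairwise RV ∧ m.toFinset = psupp l := by
  refine ⟨(l.map Prod.fst).dedup, ?_, ?_⟩
  · have h1 : (l.map Prod.fst).Pairwise (Rle RV) :=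
      List.pairwise_map.2 (h.imp fun h => h.2.1)
    have h2 := h1.sublist (List.dedup_sublist _)
    have h3 : ((l.map Prod.fst).dedup).Pairwise (· ≠ ·) := List.nodup_dedup _
    exact (h2.and h3).imp fun h => h.1.resolve_left h.2
  · ext a
    unfold psupp
    simp

theorem psupp_nonempty {l : List (V × K)} (h : l ≠ []) : (psupp l).Nonempty := by
  obtain ⟨a, l', rfl⟩ := List.exists_cons_of_ne_nil h
  exact ⟨a.1, by unfold psupp; simp⟩

omit [DecidableEq V] in
theorem prodR_mk {RV : V → V → Prop} {RK : K → K → Prop} (hK : Asym RK) (v : V) (a b : K) :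
    prodR RV RK (v, a) (v, b) ↔ RK a b := by
  constructor
  · rintro ⟨hne, -, h⟩
    rcases h with h | h
    · exact absurd (congrArg (Prod.mk v) h) hne
    · exact h
  · intro h
    refine ⟨?_, Or.inl rfl, Or.inr h⟩
    intro h1
    have h2 : a = b := congrArg Prod.snd h1
    subst h2
    exact hK a a h h

theorem sec_iff {RV : V → V → Prop} {RK : K → K → Prop} (hK : Asym RK) (v : V)
    (l : List (V × K)) : (l ∈ plP (prodR RV RK) ∧ psupp l = {v}) ↔
      ∃ l0 ∈ plP RK, l0.map (Prod.mk v) = l := by
  constructor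
  · rintro ⟨⟨h1, h2⟩, h3⟩
    have h4 : ∀ a ∈ l, a.1 = v := by
      intro a ha
      have h5 : a.1 ∈ psupp l := by
        unfold psupp
        rw [List.mem_toFinset]
        exact List.mem_map_of_mem ha
      rw [h3, Finset.mem_singleton] at h5
      exact h5
    have h5 : (l.map Prod.snd).map (Prod.mk v) = l := by
      rw [List.map_map]
      refine (List.map_congr_left ?_).trans (List.map_id l)
      intro a ha
      exact Prod.ext (h4 a ha).symm rfl
    refine ⟨l.map Prod.snd, ⟨?_, ?_⟩, h5⟩
    · intro h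
      exact h1 (List.map_eq_nil_iff.1 h)
    · have h6 : ((l.map Prod.snd).map (Prod.mk v)).Pairwise (prodR RV RK) := by rw [h5]; exact h2
      exact (List.pairwise_map.1 h6).imp fun h => (prodR_mk hK v _ _).1 h
  · rintro ⟨l0, ⟨h1, h2⟩, rfl⟩
    refine ⟨⟨?_, ?_⟩, ?_⟩
    · intro h
      exact h1 (List.map_eq_nil_iff.1 h)
    · exact List.pairwise_map.2 (h2.imp fun h => (prodR_mk hK v _ _).2 h)
    · unfold psupp
      rw [List.map_map]
      ext a
      rw [List.mem_toFinset, List.mem_map, Finset.mem_singleton]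
      constructor
      · rintro ⟨b, -, hb⟩
        exact hb.symm
      · rintro rfl
        obtain ⟨b, l', rfl⟩ := List.exists_cons_of_ne_nil h1
        exact ⟨b, List.mem_cons_self, rfl⟩

omit [DecidableEq V] in
theorem mk_inj (v : V) : Function.Injective (Prod.mk v : K → V × K) :=
  fun _ _ h => congrArg Prod.snd h

/-- the cells over a vertex -/
def iot (v : V) : List K ⊕ List K' → List (V × K) ⊕ List (V × K') :=
  Sum.map (List.map (Prod.mk v)) (List.map (Prod.mk v))

omit [DecidableEq V] in
theorem iot_inj (v : V) : Function.Injective (iot v : List K ⊕ List K' → _) :=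
  (List.map_injective_iff.2 (mk_inj v)).sumMap (List.map_injective_iff.2 (mk_inj v))

omit [DecidableEq V] in
theorem coD_iot {RV : V → V → Prop} {RK : K → K → Prop} (hK : Asym RK) (f : K' → K) (v : V)
    (i j : List K ⊕ List K') :
    coD (prodR RV RK) (Prod.map id f) (iot v i) (iot v j) = coD RK f i j := by
  classical
  rcases i with l | l <;> rcases j with l' | l'
  · change coD _ _ (Sum.inl (l.map (Prod.mk v))) (Sum.inl (l'.map (Prod.mk v))) = _
    rw [coD_inl_inl, coD_inl_inl, plD_map (mk_inj v)]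
  · change coD _ _ (Sum.inl (l.map (Prod.mk v))) (Sum.inr (l'.map (Prod.mk v))) = _
    rw [coD_inl_inr, coD_inl_inr]
  · change coD _ _ (Sum.inr (l.map (Prod.mk v))) (Sum.inl (l'.map (Prod.mk v))) = _
    rw [coD_inr_inl, coD_inr_inl]
    have h1 : (l.map (Prod.mk v)).map (Prod.map id f) = (l.map f).map (Prod.mk v) := by
      rw [List.map_map, List.map_map]
      rfl
    have h2 : ((l.map f).map (Prod.mk v)).Pairwise (prodR RV RK) ↔ (l.map f).Pairwise RK := by
      rw [List.pairwise_map]
      constructor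
      · exact fun h => h.imp fun h => (prodR_mk hK v _ _).1 h
      · exact fun h => h.imp fun h => (prodR_mk hK v _ _).2 h
    unfold push
    rw [h1]
    by_cases h3 : (l.map f).Pairwise RK
    · rw [if_pos h3, if_pos (h2.2 h3)]
      have h4 := Finsupp.mapDomain_apply (List.map_injective_iff.2 (mk_inj (K := K) v))
        (Finsupp.single (l.map f) (1 : ℤ)) l'
      rw [Finsupp.mapDomain_single] at h4
      exact h4
    · rw [if_neg h3, if_neg fun h => h3 (h2.1 h)]
      rfl
  · change coD _ _ (Sum.inr (l.map (Prod.mk v))) (Sum.inr (l'.map (Prod.mk v))) = _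
    rw [coD_inr_inr, coD_inr_inr, plD_map (mk_inj v)]

theorem iot_iff {RV : V → V → Prop} {RK : K → K → Prop} {RK' : K' → K' → Prop} (hK : Asym RK)
    (hK' : Asym RK') (v : V) (c : List (V × K) ⊕ List (V × K')) :
    (c ∈ coP (prodR RV RK') (prodR RV RK) ∧ csupp c = {v}) ↔
      ∃ c0 ∈ coP RK' RK, iot v c0 = c := by
  rcases c with l | l
  · constructor
    · intro h
      obtain ⟨l0, h1, h2⟩ := (sec_iff hK v l).1 h
      exact ⟨Sum.inl l0, h1, congrArg Sum.inl h2⟩
    · rintro ⟨c0, h1, h2⟩
      rcases c0 with l0 | l0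
      · exact (sec_iff hK v l).2 ⟨l0, h1, Sum.inl_injective h2⟩
      · exact absurd h2 (by simp [iot])
  · constructor
    · intro h
      obtain ⟨l0, h1, h2⟩ := (sec_iff hK' v l).1 h
      exact ⟨Sum.inr l0, h1, congrArg Sum.inr h2⟩
    · rintro ⟨c0, h1, h2⟩
      rcases c0 with l0 | l0
      · exact absurd h2 (by simp [iot])
      · exact (sec_iff hK' v l).2 ⟨l0, h1, Sum.inr_injective h2⟩

end prod

theorem zc_empty {I : Type} [DecidableEq I] (deg : I → ℕ) (d : I → I → ℤ) : ZC deg d ∅ := by
  refine ⟨0, fun i => absurd i.2 (Finset.notMem_empty _), ?_⟩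
  ext i
  exact absurd i.2 (Finset.notMem_empty _)

end G2aux

open G2aux in
theorem stG2 : StC2 → StZ2 → StZ3 → StG1 → StG2 := by
  intro hC2 hZ2 hZ3 hG1 V K K' _ _ _ _ _ RV RK RK' f hV hK hK' hf hcone s
  classical
  obtain ⟨B0, hB0, hZ0⟩ := hcone
  set d := coD (prodR RV RK) (Prod.map id f : V × K' → V × K) with hd
  obtain ⟨hdeg, hsq⟩ := cone_facts hC2 (asym_prod hV hK') (asym_prod hV hK)
    (simp_prod (RV := RV) hf)
  induction s using Finset.strongInduction with
  | H s ih =>
  by_cases hcl : ∃ m : List V, m.Pairwise RV ∧ m.toFinset = s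
  swap
  · -- no cells
    refine ⟨∅, fun c => ?_, zc_empty _ _⟩
    constructor
    · intro h
      exact absurd h (Finset.notMem_empty _)
    · rintro ⟨h1, h2⟩
      exfalso
      apply hcl
      rcases c with l | l
      · obtain ⟨m, h3, h4⟩ := clique h1.2
        exact ⟨m, h3, h4.trans h2⟩
      · obtain ⟨m, h3, h4⟩ := clique h1.2
        exact ⟨m, h3, h4.trans h2⟩
  obtain ⟨m, hm, hms⟩ := hcl
  rcases List.eq_nil_or_concat m with rfl | ⟨m', v, rfl⟩
  · -- the empty set
    refine ⟨∅, fun c => ?_, zc_empty _ _⟩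
    constructor
    · intro h
      exact absurd h (Finset.notMem_empty _)
    · rintro ⟨h1, h2⟩
      exfalso
      rw [← hms] at h2
      rcases c with l | l
      · have := psupp_nonempty h1.1
        change psupp l = ∅ at h2
        rw [h2] at this
        exact Finset.not_nonempty_empty this
      · have := psupp_nonempty h1.1
        change psupp l = ∅ at h2
        rw [h2] at this
        exact Finset.not_nonempty_empty this
  rw [List.concat_eq_append] at hm hms
  rw [List.pairwise_append] at hm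
  obtain ⟨hm1, -, hm2⟩ := hm
  have hlt : ∀ a ∈ m', RV a v := fun a ha => hm2 a ha v (List.mem_singleton_self v)
  have hv : v ∉ m' := fun h => hV v v (hlt v h) (hlt v h)
  set s' := m'.toFinset with hs'
  have hvs' : v ∉ s' := by rw [hs', List.mem_toFinset]; exact hv
  have hss' : s = insert v s' := by
    rw [← hms, hs']
    ext a
    simp
  by_cases hm0 : m' = []
  · -- a vertex
    have hsv : s = {v} := by rw [hss', hs', hm0]; rfl
    refine ⟨B0.image (iot v), fun c => ?_, ?_⟩
    · rw [hsv, iot_iff hK hK' v c, Finset.mem_image]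
      constructor
      · rintro ⟨c0, h1, h2⟩
        exact ⟨c0, (hB0 c0).1 h1, h2⟩
      · rintro ⟨c0, h1, h2⟩
        exact ⟨c0, (hB0 c0).2 h1, h2⟩
    · refine (hZ3 _ _ cdeg cdeg (coD RK f) d B0 (B0.image (iot v)) (iot v) (fun _ => 1) 0 ?_ ?_ ?_
        ?_).1 hZ0
      · rw [Finset.coe_image]
        exact (iot_inj v).injOn.bijOn_image
      · intro i _
        rcases i with l | l
        · change (l.map (Prod.mk v)).length = l.length + 0
          rw [List.length_map, add_zero]
        · change (l.map (Prod.mk v)).length + 1 = l.length + 1 + 0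
          rw [List.length_map, add_zero]
      · exact fun _ _ => Or.inl rfl
      · intro i _ j _
        rw [one_mul, one_mul]
        exact coD_iot hK f v i j
  -- the general case
  have hs'ne : s'.Nonempty := by
    obtain ⟨a, l', h⟩ := List.exists_cons_of_ne_nil hm0
    exact ⟨a, by rw [hs', h]; simp⟩
  have hlt' : ∀ a ∈ s', RV a v := fun a ha => hlt a (List.mem_toFinset.1 ha)
  obtain ⟨B1, hB1, hZ1⟩ := hG1 V K RV RK hV hK s' v hvs' hs'ne ⟨m', hm1, rfl⟩ hlt'
  obtain ⟨B2, hB2, hZ2'⟩ := hG1 V K' RV RK' hV hK' s' v hvs' hs'ne ⟨m', hm1, rfl⟩ hlt'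
  rw [← hss'] at hB1 hB2
  obtain ⟨B', hB', hZB'⟩ := ih s' (by
    rw [hss']
    exact Finset.ssubset_insert hvs')
  -- all cells over `s` or `s'`
  set A1 : Finset (List (V × K) ⊕ List (V × K')) := B1.image Sum.inl with hA1
  set A2 : Finset (List (V × K) ⊕ List (V × K')) := B2.image Sum.inr with hA2
  have hmem : ∀ c, c ∈ A1 ∪ A2 ↔
      c ∈ coP (prodR RV RK') (prodR RV RK) ∧ (csupp c = s' ∨ csupp c = s) := by
    intro c
    rw [Finset.mem_union, hA1, hA2, Finset.mem_image, Finset.mem_image]
    rcases c with l | l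
    · constructor
      · rintro (⟨l0, h1, h2⟩ | ⟨l0, h1, h2⟩)
        · obtain rfl := Sum.inl_injective h2
          exact (hB1 l0).1 h1
        · exact absurd h2 (by simp)
      · intro h
        exact Or.inl ⟨l, (hB1 l).2 h, rfl⟩
    · constructor
      · rintro (⟨l0, h1, h2⟩ | ⟨l0, h1, h2⟩)
        · exact absurd h2 (by simp)
        · obtain rfl := Sum.inr_injective h2
          exact (hB2 l0).1 h1
      · intro h
        exact Or.inr ⟨l, (hB2 l).2 h, rfl⟩
  have hcx : ZCx cdeg d (A1 ∪ A2) := by
    refine ⟨fun i j h => hdeg i ((hmem _).1 i.2).1 j ((hmem _).1 j.2).1 h, ?_⟩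
    ext i k
    rw [Matrix.mul_apply, Matrix.zero_apply]
    have h1 := hsq i ((hmem _).1 i.2).1 k ((hmem _).1 k.2).1
    rw [finsum_mem_eq_sum_of_inter_support_eq (t := A1 ∪ A2)] at h1
    · rw [← Finset.sum_coe_sort] at h1
      exact h1
    · ext j
      constructor
      · rintro ⟨h2, h3⟩
        refine ⟨?_, h3⟩
        have h4 : d i j * d j k ≠ 0 := h3
        have h5 : csupp j ⊆ csupp i.1 := csupp_mono (left_ne_zero_of_mul h4)
        have h6 : csupp k.1 ⊆ csupp j := csupp_mono (right_ne_zero_of_mul h4)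
        have h7 : csupp j ⊆ s := by
          rcases ((hmem _).1 i.2).2 with h | h
          · refine h5.trans ?_
            rw [h, hss']
            exact Finset.subset_insert _ _
          · rw [← h]
            exact h5
        have h8 : s' ⊆ csupp j := by
          rcases ((hmem _).1 k.2).2 with h | h
          · rw [← h]
            exact h6
          · refine Finset.Subset.trans ?_ h6
            rw [h, hss']
            exact Finset.subset_insert _ _
        rw [Finset.mem_coe, hmem]
        refine ⟨h2, ?_⟩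
        by_cases hvj : v ∈ csupp j
        · right
          refine Finset.Subset.antisymm h7 ?_
          rw [hss']
          exact Finset.insert_subset hvj h8
        · left
          refine Finset.Subset.antisymm ?_ h8
          intro a ha
          have h9 := h7 ha
          rw [hss', Finset.mem_insert] at h9
          rcases h9 with rfl | h9
          · exact absurd ha hvj
          · exact h9
      · rintro ⟨h2, h3⟩
        exact ⟨((hmem _).1 (Finset.mem_coe.1 h2)).1, h3⟩
  -- contraction over `{s, s'}`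
  have hZA1 : ZC cdeg d A1 := by
    refine (hZ3 _ _ List.length cdeg plD d B1 A1 Sum.inl (fun _ => 1) 0 ?_ (fun i _ => rfl)
      (fun _ _ => Or.inl rfl) (fun i _ j _ => ?_)).1 hZ1
    · rw [hA1, Finset.coe_image]
      exact Sum.inl_injective.injOn.bijOn_image
    · rw [hd, coD_inl_inl, one_mul, one_mul]
  have hZA2 : ZC cdeg d A2 := by
    refine (hZ3 _ _ List.length cdeg plD d B2 A2 Sum.inr (fun l => (-1) ^ l.length) 1 ?_
      (fun i _ => rfl) (fun l _ => neg_one_pow_eq_or ℤ l.length) (fun i hi j hj => ?_)).1 hZ2'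
    · rw [hA2, Finset.coe_image]
      exact Sum.inr_injective.injOn.bijOn_image
    · rw [hd, coD_inr_inr]
      by_cases h0 : plD i j = 0
      · rw [h0, neg_zero, mul_zero]
      · have h1 : cdeg (Sum.inr i : List (V × K) ⊕ List (V × K')) =
            cdeg (Sum.inr j : List (V × K) ⊕ List (V × K')) + 1 := by
          refine hdeg _ (((hB2 i).1 hi).1) _ (((hB2 j).1 hj).1) ?_
          rw [coD_inr_inr]
          exact neg_ne_zero.2 h0
        have h2 : i.length = j.length + 1 := by
          change i.length + 1 = j.length + 1 + 1 at h1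
          omega
        rw [h2, pow_succ]
        have hs : ((-1 : ℤ) ^ j.length) * (-1) ^ j.length = 1 := by
          rw [← mul_pow]
          norm_num
        linear_combination (plD i j) * hs
  have hdisj : Disjoint A1 A2 := by
    rw [Finset.disjoint_left]
    intro c h1 h2
    rw [hA1, Finset.mem_image] at h1
    rw [hA2, Finset.mem_image] at h2
    obtain ⟨l, -, rfl⟩ := h1
    obtain ⟨l', -, h⟩ := h2
    exact absurd h (by simp)
  have hall : ZC cdeg d (A1 ∪ A2) := by
    refine (hZ2 _ cdeg d A1 A2 hdisj hcx ?_).1 hZA1 hZA2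
    intro i hi j hj
    rw [hA1, Finset.mem_image] at hi
    rw [hA2, Finset.mem_image] at hj
    obtain ⟨l, -, rfl⟩ := hi
    obtain ⟨l', -, rfl⟩ := hj
    exact coD_inl_inr _ _ _ _
  -- the part over `s`
  set Bs := (A1 ∪ A2).filter (fun c => csupp c = s) with hBs
  have hBsmem : ∀ c, c ∈ Bs ↔ c ∈ coP (prodR RV RK') (prodR RV RK) ∧ csupp c = s := by
    intro c
    rw [hBs, Finset.mem_filter, hmem]
    constructor
    · rintro ⟨⟨h1, -⟩, h2⟩
      exact ⟨h1, h2⟩
    · rintro ⟨h1, h2⟩
      exact ⟨⟨h1, Or.inr h2⟩, h2⟩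
  have hsne : s ≠ s' := by
    intro h
    apply hvs'
    rw [← h, hss']
    exact Finset.mem_insert_self _ _
  have hun : A1 ∪ A2 = B' ∪ Bs := by
    ext c
    rw [hmem, Finset.mem_union, hB', hBsmem]
    constructor
    · rintro ⟨h1, h2 | h2⟩
      · exact Or.inl ⟨h1, h2⟩
      · exact Or.inr ⟨h1, h2⟩
    · rintro (⟨h1, h2⟩ | ⟨h1, h2⟩)
      · exact ⟨h1, Or.inl h2⟩
      · exact ⟨h1, Or.inr h2⟩
  have hdisj2 : Disjoint B' Bs := by
    rw [Finset.disjoint_left]
    intro c h1 h2
    rw [hB'] at h1
    rw [hBsmem] at h2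
    exact hsne (h2.2.symm.trans h1.2)
  rw [hun] at hcx hall
  refine ⟨Bs, hBsmem, (hZ2 _ cdeg d B' Bs hdisj2 hcx ?_).2.1 hall hZB'⟩
  intro i hi j hj
  by_contra hne
  have h1 : csupp j ⊆ csupp i := csupp_mono hne
  rw [((hB' i).1 hi).2, ((hBsmem j).1 hj).2] at h1
  apply hvs'
  apply h1
  rw [hss']
  exact Finset.mem_insert_self _ _

end Pool.Agent.Lib.MP_39dc45_gt.SP
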