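import Pool.Agent.Lib.MP_39dc45_gt.SP.StA

/-!
# MP_39dc45_gt: a complex with a smallest vertex is equivalent to a point
-/

open Matrix

noncomputable section

namespace Pool.Agent.Lib.MP_39dc45_gt.SP

namespace G3

theorem lc_apply {I : Type} (B : Finset I) (d s : I → (I →₀ ℤ)) (i j : I)
    (hd : ∀ k, d i k ≠ 0 → k ∈ B) :
    (Finsupp.linearCombination ℤ s (d i)) j = ∑ k ∈ B, d i k * s k j := by
  rw [Finsupp.linearCombination_apply, Finsupp.sum, Finsupp.finset_sum_apply]
  have h1 : (d i).support ⊆ B := fun k hk => hd k (Finsupp.mem_support_iff.1 hk)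
  rw [Finset.sum_subset h1]
  · rfl
  · intro k _ hk
    rw [Finsupp.notMem_support_iff.1 hk, zero_smul]
    rfl

theorem contr_of {I : Type} [DecidableEq I] (deg : I → ℕ) (B : Finset I) (d s : I → (I →₀ ℤ))
    (hd : ∀ i ∈ B, ∀ j, d i j ≠ 0 → j ∈ B) (hs : ∀ i ∈ B, ∀ j, s i j ≠ 0 → j ∈ B)
    (hdeg : ∀ i ∈ B, ∀ j, s i j ≠ 0 → deg j = deg i + 1)
    (h : ∀ i ∈ B, Finsupp.linearCombination ℤ s (d i) + Finsupp.linearCombination ℤ d (s i) =
      Finsupp.single i 1) : ZC deg (fun i j => d i j) B := by
  refine ⟨Matrix.of fun i j : B => s i j, ?_, ?_⟩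
  · intro i j hij
    exact hdeg i i.2 j hij
  · ext i j
    have h1 := DFunLike.congr_fun (h i i.2) (j : I)
    rw [Finsupp.add_apply, lc_apply B d s i j (hd i i.2), lc_apply B s d i j (hs i i.2)] at h1
    rw [Matrix.add_apply, Matrix.mul_apply, Matrix.mul_apply]
    simp only [Matrix.of_apply]
    rw [Finset.sum_coe_sort B (fun k => d i k * s k j), Finset.sum_coe_sort B
      (fun k => s i k * d k j), h1, Matrix.one_apply, Finsupp.single_apply]
    by_cases hij : i = j
    · subst hij
      simp
    · rw [if_neg hij, if_neg fun h => hij (Subtype.ext h)]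

variable {W : Type}

open Classical in
/-- The contraction. -/
def cs (m : W) : List Unit ⊕ List W → (List Unit ⊕ List W →₀ ℤ)
  | Sum.inl _ => Finsupp.single (Sum.inr [m]) 1
  | Sum.inr l => if l.head? = some m then 0 else - Finsupp.single (Sum.inr (m :: l)) 1

theorem lc_bd {M : Type} [AddCommGroup M] (g : List W → M) (l : List W) (hl : ¬ l.length ≤ 1) :
    Finsupp.linearCombination ℤ g (bd l) =
      ∑ i ∈ Finset.range l.length, ((-1 : ℤ) ^ i) • g (l.eraseIdx i) := by
  unfold bd
  rw [if_neg hl, map_sum]
  refine Finset.sum_congr rfl fun i _ => ?_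
  rw [Finsupp.linearCombination_single]

theorem mem_bd (l l' : List W) (h : bd l l' ≠ 0) :
    ¬ l.length ≤ 1 ∧ ∃ i < l.length, l' = l.eraseIdx i := by
  unfold bd at h
  by_cases hl : l.length ≤ 1
  · rw [if_pos hl] at h
    exact absurd rfl h
  · rw [if_neg hl, Finsupp.finset_sum_apply] at h
    obtain ⟨i, hi, hi'⟩ := Finset.exists_ne_zero_of_sum_ne_zero h
    refine ⟨hl, i, Finset.mem_range.1 hi, ?_⟩
    by_contra h2
    exact hi' (Finsupp.single_eq_of_ne h2)

/-- The differential. -/
abbrev cd (W : Type) : List Unit ⊕ List W → (List Unit ⊕ List W →₀ ℤ) :=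
  coneD (fun _ _ => False) (fun _ => ())

theorem push_one (w : W) : push (fun (_ _ : Unit) => False) (fun _ => ()) [w] =
    Finsupp.single [()] 1 := by
  unfold push
  rw [if_pos]
  · rfl
  · simp

theorem push_two (w w' : W) (l : List W) :
    push (fun (_ _ : Unit) => False) (fun _ => ()) (w :: w' :: l) = 0 := by
  unfold push
  rw [if_neg]
  simp

theorem bd_one {V : Type} (w : V) : bd [w] = 0 := by
  unfold bd
  rw [if_pos (by simp)]

theorem cd_inl : cd W (Sum.inl [()]) = 0 := by
  simp [cd, coneD, bd_one]

theorem cd_inr_one (w : W) : cd W (Sum.inr [w]) = Finsupp.single (Sum.inl [()]) 1 := by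
  simp only [cd, coneD]
  rw [push_one, bd_one, Finsupp.mapDomain_single, Finsupp.mapDomain_zero, sub_zero]

theorem cd_inr_two (w w' : W) (l : List W) :
    cd W (Sum.inr (w :: w' :: l)) = - (bd (w :: w' :: l)).mapDomain Sum.inr := by
  simp only [cd, coneD]
  rw [push_two, Finsupp.mapDomain_zero, zero_sub]

theorem lc_cd_two (m w w' : W) (l : List W) :
    Finsupp.linearCombination ℤ (cs m) (cd W (Sum.inr (w :: w' :: l))) =
      - ∑ i ∈ Finset.range (w :: w' :: l).length,
        ((-1 : ℤ) ^ i) • cs m (Sum.inr ((w :: w' :: l).eraseIdx i)) := by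
  rw [cd_inr_two, map_neg, Finsupp.linearCombination_mapDomain, lc_bd _ _ (by simp)]
  rfl

theorem cs_ne (m : W) (l : List W) (h : l.head? ≠ some m) :
    cs m (Sum.inr l) = - Finsupp.single (Sum.inr (m :: l)) 1 := by
  simp only [cs]
  rw [if_neg h]

theorem cs_eq (m : W) (l : List W) (h : l.head? = some m) : cs m (Sum.inr l) = 0 := by
  simp only [cs]
  rw [if_pos h]

theorem lc_cs_ne (m w : W) (l : List W) (h : w ≠ m) :
    Finsupp.linearCombination ℤ (cd W) (cs m (Sum.inr (w :: l))) =
      (bd (m :: w :: l)).mapDomain Sum.inr := by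
  rw [cs_ne _ _ (by simpa using h), map_neg, Finsupp.linearCombination_single, one_smul,
    cd_inr_two, neg_neg]

theorem bd_cons (m w : W) (l : List W) : (bd (m :: w :: l)).mapDomain
    (Sum.inr : List W → List Unit ⊕ List W) =
      Finsupp.single (Sum.inr (w :: l)) 1 - ∑ i ∈ Finset.range (w :: l).length,
        ((-1 : ℤ) ^ i) • Finsupp.single (Sum.inr (m :: (w :: l).eraseIdx i)) 1 := by
  unfold bd
  rw [if_neg (by simp)]
  have h0 : (m :: w :: l).length = (w :: l).length + 1 := rfl
  rw [h0, Finset.sum_range_succ', ← Finsupp.mapDomain.addMonoidHom_apply, map_add, map_sum,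
    add_comm, sub_eq_add_neg, ← Finset.sum_neg_distrib]
  congr 1
  · simp
  · refine Finset.sum_congr rfl fun i _ => ?_
    rw [Finsupp.mapDomain.addMonoidHom_apply, Finsupp.mapDomain_single, List.eraseIdx_cons_succ,
      Finsupp.smul_single, smul_eq_mul, mul_one, pow_succ, mul_neg, mul_one, Finsupp.single_neg]

theorem key (R : W → W → Prop) (m : W) (hR : Asym R) (hm : ∀ w, w ≠ m → R m w) (c : List Unit ⊕ List W)
    (hc : IsCell R (fun _ _ => False) c) :
    Finsupp.linearCombination ℤ (cs m) (cd W c) + Finsupp.linearCombination ℤ (cd W) (cs m c) =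
      Finsupp.single c 1 := by
  rcases c with l | l
  · obtain ⟨h1, h2⟩ := hc
    have h3 : l = [()] := by
      match l, h1, h2 with
      | [x], _, _ => rfl
      | x :: y :: l, _, h2 =>
        rw [List.pairwise_cons] at h2
        exact absurd (h2.1 y (by simp)) (fun h => h)
    subst h3
    rw [cd_inl, map_zero, zero_add]
    simp only [cs]
    rw [Finsupp.linearCombination_single, one_smul, cd_inr_one]
  · obtain ⟨h1, h2⟩ := hc
    match l, h1, h2 with
    | [w], _, _ =>
      rw [cd_inr_one, Finsupp.linearCombination_single, one_smul]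
      by_cases hw : w = m
      · subst hw
        rw [cs_eq _ _ (by simp), map_zero, add_zero]
        rfl
      · rw [lc_cs_ne m w [] hw, bd_cons]
        simp [cs]
    | w :: w' :: l, _, h2 =>
      rw [lc_cd_two]
      by_cases hw : w = m
      · subst hw
        rw [cs_eq _ _ (by simp), map_zero, add_zero]
        have h0 : (w :: w' :: l).length = (w' :: l).length + 1 := rfl
        rw [h0, Finset.sum_range_succ', Finset.sum_eq_zero, zero_add, pow_zero, one_smul,
          List.eraseIdx_cons_zero, cs_ne, neg_neg]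
        · have h3 := (List.pairwise_cons.1 h2).1 w' (by simp)
          intro h4
          have h5 : w' = w := by simpa using h4
          rw [h5] at h3
          exact hR _ _ h3 h3
        · intro i _
          rw [List.eraseIdx_cons_succ, cs_eq _ _ (by simp), smul_zero]
      · rw [lc_cs_ne m w _ hw, bd_cons]
        have h3 : ∀ i ∈ Finset.range (w :: w' :: l).length,
            ((-1 : ℤ) ^ i) • cs m (Sum.inr ((w :: w' :: l).eraseIdx i)) =
            - (((-1 : ℤ) ^ i) • Finsupp.single
              (Sum.inr (m :: (w :: w' :: l).eraseIdx i) : List Unit ⊕ List W) (1 : ℤ)) := by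
          intro i _
          rw [cs_ne, smul_neg]
          intro h4
          cases i with
          | zero =>
            have h5 : w' = m := by simpa using h4
            have h6 := (List.pairwise_cons.1 h2).1 w' (by simp)
            rw [h5] at h6
            exact hR _ _ h6 (hm w hw)
          | succ i =>
            rw [List.eraseIdx_cons_succ] at h4
            exact hw (by simpa using h4)
        rw [Finset.sum_congr rfl h3, Finset.sum_neg_distrib, neg_neg]
        abel

theorem fin [Fintype W] (R : W → W → Prop) (hR : Asym R) :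
    (coP R (fun (_ _ : Unit) => False)).Finite := by
  have h1 : {l : List W | l.Nodup}.Finite :=
    Set.finite_coe_iff.1 (inferInstanceAs (Finite {l : List W // l.Nodup}))
  have h2 : {l : List Unit | l.Nodup}.Finite :=
    Set.finite_coe_iff.1 (inferInstanceAs (Finite {l : List Unit // l.Nodup}))
  refine ((h2.image Sum.inl).union (h1.image Sum.inr)).subset ?_
  rintro (l | l) ⟨_, hl⟩
  · exact Or.inl ⟨l, hl.imp (fun h => h.elim), rfl⟩
  · refine Or.inr ⟨l, hl.imp ?_, rfl⟩
    rintro a b hab rfl
    exact hR _ _ hab hab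

theorem cs_cell (R : W → W → Prop) (m : W) (hR : Asym R) (hm : ∀ w, w ≠ m → R m w)
    (c c' : List Unit ⊕ List W) (hc : IsCell R (fun _ _ => False) c) (h : cs m c c' ≠ 0) :
    IsCell R (fun _ _ => False) c' ∧ cdeg c' = cdeg c + 1 := by
  rcases c with l | l
  · have h1 : c' = Sum.inr [m] := by
      by_contra h2
      simp only [cs] at h
      exact h (Finsupp.single_eq_of_ne h2)
    subst h1
    obtain ⟨h3, h4⟩ := hc
    have h5 : l = [()] := by
      match l, h3, h4 with
      | [x], _, _ => rfl
      | x :: y :: l, _, h4 =>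
        rw [List.pairwise_cons] at h4
        exact absurd (h4.1 y (by simp)) (fun h => h)
    subst h5
    exact ⟨⟨by simp, by simp⟩, rfl⟩
  · by_cases h0 : l.head? = some m
    · rw [cs_eq _ _ h0] at h
      exact absurd rfl h
    · rw [cs_ne _ _ h0] at h
      have h1 : c' = Sum.inr (m :: l) := by
        by_contra h2
        apply h
        rw [Finsupp.neg_apply, Finsupp.single_eq_of_ne h2, neg_zero]
      subst h1
      obtain ⟨h3, h4⟩ := hc
      refine ⟨⟨by simp, ?_⟩, rfl⟩
      rw [List.pairwise_cons]
      refine ⟨fun x hx => hm x ?_, h4⟩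
      rintro rfl
      match l, h3, h4, h0, hx with
      | w :: l, _, h4, h0, hx =>
        have h5 : w ≠ x := by simpa using h0
        have h6 : x ∈ l := by
          rcases List.mem_cons.1 hx with h | h
          · exact absurd h.symm h5
          · exact h
        exact hR _ _ ((List.pairwise_cons.1 h4).1 x h6) (hm w h5)

theorem cd_cell (R : W → W → Prop) (c c' : List Unit ⊕ List W)
    (hc : IsCell R (fun _ _ => False) c) (h : cd W c c' ≠ 0) :
    IsCell R (fun _ _ => False) c' := by
  rcases c with l | l
  · obtain ⟨h3, h4⟩ := hc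
    have h5 : l = [()] := by
      match l, h3, h4 with
      | [x], _, _ => rfl
      | x :: y :: l, _, h4 =>
        rw [List.pairwise_cons] at h4
        exact absurd (h4.1 y (by simp)) (fun h => h)
    subst h5
    rw [cd_inl] at h
    exact absurd rfl h
  · obtain ⟨h3, h4⟩ := hc
    match l, h3, h4 with
    | [w], _, _ =>
      rw [cd_inr_one] at h
      have h1 : c' = Sum.inl [()] := by
        by_contra h2
        exact h (Finsupp.single_eq_of_ne h2)
      subst h1
      exact ⟨by simp, by simp⟩
    | w :: w' :: l, _, h4 =>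
      rw [cd_inr_two, Finsupp.neg_apply, neg_ne_zero] at h
      rcases c' with l' | l'
      · exact absurd (Finsupp.mapDomain_notin_range _ _ (by simp)) h
      · rw [Finsupp.mapDomain_apply Sum.inr_injective] at h
        obtain ⟨_, i, hi, rfl⟩ := mem_bd _ _ h
        refine ⟨?_, h4.sublist (List.eraseIdx_sublist _ _)⟩
        intro h5
        have h6 := List.length_eraseIdx_of_lt hi
        rw [h5] at h6
        simp at h6

end G3

theorem stG3 : StG3 := by
  intro W _ _ R m hR hm
  have hfin := G3.fin R hR
  refine ⟨hfin.toFinset, fun c => hfin.mem_toFinset, ?_⟩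
  refine G3.contr_of cdeg hfin.toFinset (G3.cd W) (G3.cs m) ?_ ?_ ?_ ?_
  · intro i hi j hij
    exact hfin.mem_toFinset.2 (G3.cd_cell R i j (hfin.mem_toFinset.1 hi) hij)
  · intro i hi j hij
    exact hfin.mem_toFinset.2 (G3.cs_cell R m hR hm i j (hfin.mem_toFinset.1 hi) hij).1
  · intro i hi j hij
    exact (G3.cs_cell R m hR hm i j (hfin.mem_toFinset.1 hi) hij).2
  · intro i hi
    exact G3.key R m hR hm i (hfin.mem_toFinset.1 hi)

end Pool.Agent.Lib.MP_39dc45_gt.SP
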