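import Pool.Agent.Lib.MP_39dc45_gt.SP.StT

/-!
# MP_39dc45_gt, module HE: the homotopy equivalence and its restriction
-/

open scoped Topology
open Matrix

noncomputable section

namespace Pool.Agent.Lib.MP_39dc45_gt.SP
namespace HEAux

/-- Fixed points of the torus. -/
def Fx (x : Tor 4) : Prop := ∀ g : Cyc 5, matAct (exR.mat g) x = x

theorem matAct_one (x : Tor 4) : matAct (1 : Matrix (Fin 4) (Fin 4) ℤ) x = x := by
  funext i
  unfold matAct
  rw [Finset.sum_eq_single i]
  · simp
  · intro j _ hj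
    rw [Matrix.one_apply_ne (Ne.symm hj), zero_smul]
  · intro h
    exact absurd (Finset.mem_univ i) h

theorem matAct_mul (A B : Matrix (Fin 4) (Fin 4) ℤ) (x : Tor 4) :
    matAct (A * B) x = matAct A (matAct B x) := by
  funext i
  unfold matAct
  simp only [Matrix.mul_apply, Finset.sum_smul, Finset.smul_sum, mul_smul]
  rw [Finset.sum_comm]

theorem Fx_rel {σ : Side} {a b : Tor 4 × Sph 3} (h : (exD σ).rel a b) : Fx a.1 ↔ Fx b.1 := by
  obtain ⟨g, h1, -⟩ := h
  constructor
  · intro ha
    have : a.1 = b.1 := (ha g).symm.trans h1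
    rw [← this]
    exact ha
  · intro hb
    have h2 : matAct (exR.mat g⁻¹) b.1 = a.1 := by
      have h3 : matAct (exR.mat g⁻¹) (matAct (exR.mat g) a.1) = a.1 := by
        rw [← matAct_mul, ← Rep.mat_mul, inv_mul_cancel, Rep.mat_one, matAct_one]
      exact (congrArg _ h1.symm).trans h3
    have : a.1 = b.1 := h2.symm.trans (hb g⁻¹)
    rw [this]
    exact hb

theorem mem_fix {σ : Side} (x : Tor 4) (s : Sph 3) :
    ((Quot.mk _ (x, s) : (exD σ).Mfd) ∈ (exD σ).fixY) ↔ Fx x := by
  constructor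
  · rintro ⟨x', s', h, e⟩
    have h1 := congrArg (Quot.lift (fun p : Tor 4 × Sph 3 => Fx p.1)
      (fun a b h => propext (Fx_rel (σ := σ) h))) e
    have h2 : Fx x = Fx x' := h1
    rw [h2]
    exact h
  · intro h
    exact ⟨x, s, h, rfl⟩

theorem map_fix {σ τ : Side} (F : C(Sph 3, Sph 3)) (hF : EqvS σ τ F) (m : (exD σ).Mfd) :
    mapM σ τ F hF m ∈ (exD τ).fixY ↔ m ∈ (exD σ).fixY := by
  induction m using Quot.ind with
  | mk p =>
    obtain ⟨x, s⟩ := p
    exact (mem_fix (σ := τ) x (F s)).trans (mem_fix (σ := σ) x s).symm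

theorem homot (hH : StHom) {σ τ : Side} (F G : C(Sph 3, Sph 3)) (hF : EqvS σ τ F)
    (hG : EqvS σ τ G) (h : HmtE σ τ F G) :
    ∃ K : C((exD σ).Mfd × unitInterval, (exD τ).Mfd), (∀ m, K (m, 0) = mapM σ τ F hF m) ∧
      (∀ m, K (m, 1) = mapM σ τ G hG m) ∧
      ∀ m t, K (m, t) ∈ (exD τ).fixY ↔ m ∈ (exD σ).fixY := by
  obtain ⟨H, h0, h1, he⟩ := h
  obtain ⟨K, hK⟩ := hH σ τ H he
  refine ⟨K, fun m => ?_, fun m => ?_, fun m t => ?_⟩
  · induction m using Quot.ind with
    | mk p =>
      obtain ⟨x, s⟩ := p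
      refine (hK x s 0).trans ?_
      rw [h0]
      rfl
  · induction m using Quot.ind with
    | mk p =>
      obtain ⟨x, s⟩ := p
      refine (hK x s 1).trans ?_
      rw [h1]
      rfl
  · induction m using Quot.ind with
    | mk p =>
      obtain ⟨x, s⟩ := p
      have h2 := hK x s t
      exact (iff_of_eq (congrArg (· ∈ (exD τ).fixY) h2)).trans
        ((mem_fix (σ := τ) x (H (s, t))).trans (mem_fix (σ := σ) x s).symm)

/-- Restriction of a map to subspaces. -/
def res {M N : Type} [TopologicalSpace M] [TopologicalSpace N] (f : C(M, N)) (A : Set M)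
    (B : Set N) (h : ∀ m ∈ A, f m ∈ B) : C(A, B) :=
  ⟨fun a => ⟨f a, h a a.2⟩, by fun_prop⟩

theorem res_homot {M N : Type} [TopologicalSpace M] [TopologicalSpace N] (f g : C(M, N))
    (A : Set M) (B : Set N) (hf : ∀ m ∈ A, f m ∈ B) (hg : ∀ m ∈ A, g m ∈ B)
    (K : C(M × unitInterval, N)) (h0 : ∀ m, K (m, 0) = f m) (h1 : ∀ m, K (m, 1) = g m)
    (hK : ∀ m ∈ A, ∀ t, K (m, t) ∈ B) : (res f A B hf).Homotopic (res g A B hg) := by
  refine ⟨{ toFun := fun p => ⟨K (p.2, p.1), hK _ p.2.2 _⟩
            continuous_toFun := by fun_prop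
            map_zero_left := fun a => Subtype.ext (h0 a)
            map_one_left := fun a => Subtype.ext (h1 a) }⟩

theorem full_homot {M N : Type} [TopologicalSpace M] [TopologicalSpace N] (f g : C(M, N))
    (K : C(M × unitInterval, N)) (h0 : ∀ m, K (m, 0) = f m) (h1 : ∀ m, K (m, 1) = g m) :
    f.Homotopic g := by
  refine ⟨{ toFun := fun p => K (p.2, p.1)
            continuous_toFun := by fun_prop
            map_zero_left := fun a => h0 a
            map_one_left := fun a => h1 a }⟩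

theorem eqvS_id (σ : Side) : EqvS σ σ (ContinuousMap.id (Sph 3)) := fun _ _ => rfl

theorem mapM_id (σ : Side) (m : (exD σ).Mfd) :
    mapM σ σ (ContinuousMap.id (Sph 3)) (eqvS_id σ) m = m := by
  induction m using Quot.ind with
  | mk p => rfl

end HEAux

open HEAux

theorem stHE : StS3 → StPoly → StHom → StHE := by
  intro hS hP hH F hF hFP
  obtain ⟨-, -, -, -, -, -, -, -, -, -, cP, cG, eP, eG⟩ := hS
  let P : C(Sph 3, Sph 3) := ⟨FP, cP⟩
  let Gc : C(Sph 3, Sph 3) := ⟨FG, cG⟩
  obtain ⟨H, h0, h1, he⟩ := hFP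
  -- the two compositions
  have eGF : EqvS .src .src (Gc.comp F) := fun g s => by
    change FG (F (act5 .src g s)) = act5 .src g (FG (F s))
    rw [hF g s, eG g]
  have eGP : EqvS .src .src (Gc.comp P) := fun g s => by
    change FG (FP (act5 .src g s)) = act5 .src g (FG (FP s))
    rw [eP g s, eG g]
  have eFG : EqvS .tgt .tgt (F.comp Gc) := fun g s => by
    change F (FG (act5 .tgt g s)) = act5 .tgt g (F (FG s))
    rw [eG g s, hF g]
  have ePG : EqvS .tgt .tgt (P.comp Gc) := fun g s => by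
    change FP (FG (act5 .tgt g s)) = act5 .tgt g (FP (FG s))
    rw [eG g s, eP g]
  have m1 : HmtE .src .src (Gc.comp F) (Gc.comp P) := by
    refine ⟨Gc.comp H, fun s => ?_, fun s => ?_, fun g s t => ?_⟩
    · change FG (H (s, 0)) = FG (F s)
      rw [h0]
    · change FG (H (s, 1)) = FG (FP s)
      rw [h1]
    · change FG (H (act5 .src g s, t)) = act5 .src g (FG (H (s, t)))
      rw [he, eG g]
  have m2 : HmtE .tgt .tgt (F.comp Gc) (P.comp Gc) := by
    refine ⟨H.comp (Gc.prodMap (ContinuousMap.id _)), fun s => ?_, fun s => ?_, fun g s t => ?_⟩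
    · change H (FG s, 0) = F (FG s)
      rw [h0]
    · change H (FG s, 1) = FP (FG s)
      rw [h1]
    · change H (FG (act5 .tgt g s), t) = act5 .tgt g (H (FG s, t))
      rw [eG g s, he]
  obtain ⟨K1, a0, a1, a2⟩ := homot hH _ _ eGF eGP m1
  obtain ⟨K2, b0, b1, b2⟩ := homot hH (Gc.comp P) (ContinuousMap.id _) eGP (eqvS_id _) hP.1
  obtain ⟨K3, c0, c1, c2⟩ := homot hH _ _ eFG ePG m2
  obtain ⟨K4, d0, d1, d2⟩ := homot hH (P.comp Gc) (ContinuousMap.id _) ePG (eqvS_id _) hP.2
  have i1 : (mapM .tgt .src Gc eG).comp (mapM .src .tgt F hF) = mapM .src .src (Gc.comp F) eGF := by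
    ext m
    induction m using Quot.ind with
    | mk p => rfl
  have i2 : (mapM .src .tgt F hF).comp (mapM .tgt .src Gc eG) = mapM .tgt .tgt (F.comp Gc) eFG := by
    ext m
    induction m using Quot.ind with
    | mk p => rfl
  constructor
  · refine ⟨mapM .tgt .src Gc eG, ?_, ?_⟩
    · rw [i1]
      exact (full_homot _ _ K1 a0 a1).trans (full_homot _ _ K2 b0
        (fun m => (b1 m).trans (mapM_id _ m)))
    · rw [i2]
      exact (full_homot _ _ K3 c0 c1).trans (full_homot _ _ K4 d0
        (fun m => (d1 m).trans (mapM_id _ m)))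
  · set A : Set (exD .src).Mfd := mapM .src .tgt F hF ⁻¹' (exD .tgt).fixY with hA
    set B : Set (exD .tgt).Mfd := (exD .tgt).fixY with hB
    have mA : ∀ m, m ∈ A ↔ m ∈ (exD .src).fixY := fun m => map_fix F hF m
    have hk : ∀ m ∈ B, mapM .tgt .src Gc eG m ∈ A := fun m hm => by
      rw [mA, map_fix]
      exact hm
    refine ⟨res (mapM .tgt .src Gc eG) B A hk, ?_, ?_⟩
    · have p1 : ∀ m ∈ A, mapM .src .src (Gc.comp F) eGF m ∈ A := fun m hm => by
        rw [mA, map_fix, ← mA]
        exact hm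
      have p2 : ∀ m ∈ A, mapM .src .src (Gc.comp P) eGP m ∈ A := fun m hm => by
        rw [mA, map_fix, ← mA]
        exact hm
      have e1 : (res (mapM .tgt .src Gc eG) B A hk).comp (restrictTo (mapM .src .tgt F hF) B)
          = res (mapM .src .src (Gc.comp F) eGF) A A p1 := by
        ext m
        exact DFunLike.congr_fun i1 (m : (exD .src).Mfd)
      rw [e1]
      refine (res_homot _ _ A A p1 p2 K1 a0 a1 ?_).trans ?_
      · intro m hm t
        rw [mA, a2, ← mA]
        exact hm
      · refine res_homot _ (ContinuousMap.id _) A A p2 (fun m hm => hm) K2 b0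
          (fun m => (b1 m).trans (mapM_id _ m)) ?_
        intro m hm t
        rw [mA, b2, ← mA]
        exact hm
    · have p1 : ∀ m ∈ B, mapM .tgt .tgt (F.comp Gc) eFG m ∈ B := fun m hm => by
        rw [hB, map_fix]
        exact hm
      have p2 : ∀ m ∈ B, mapM .tgt .tgt (P.comp Gc) ePG m ∈ B := fun m hm => by
        rw [hB, map_fix]
        exact hm
      have e1 : (restrictTo (mapM .src .tgt F hF) B).comp (res (mapM .tgt .src Gc eG) B A hk)
          = res (mapM .tgt .tgt (F.comp Gc) eFG) B B p1 := by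
        ext m
        exact DFunLike.congr_fun i2 (m : (exD .tgt).Mfd)
      rw [e1]
      refine (res_homot _ _ B B p1 p2 K3 c0 c1 ?_).trans ?_
      · intro m hm t
        rw [hB, c2]
        exact hm
      · refine res_homot _ (ContinuousMap.id _) B B p2 (fun m hm => hm) K4 d0
          (fun m => (d1 m).trans (mapM_id _ m)) ?_
        intro m hm t
        rw [hB, d2]
        exact hm

end Pool.Agent.Lib.MP_39dc45_gt.SP
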