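import Pool.Agent.Lib.MP_39dc45_gt.SP.StT

/-!
# MP_39dc45_gt: equivariant homotopies descend to the manifolds
-/

open scoped Topology
open Matrix

noncomputable section

namespace Pool.Agent.Lib.MP_39dc45_gt.SP

namespace Homaux

theorem matAct_mul {n : ℕ} (A B : Matrix (Fin n) (Fin n) ℤ) (x : Tor n) :
    matAct (A * B) x = matAct A (matAct B x) := by
  funext i
  simp only [matAct, Matrix.mul_apply, Finset.sum_smul, Finset.smul_sum, mul_smul]
  rw [Finset.sum_comm]

theorem matAct_one {n : ℕ} (x : Tor n) : matAct (1 : Matrix (Fin n) (Fin n) ℤ) x = x := by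
  funext i
  simp only [matAct, Matrix.one_apply, ite_smul, one_smul, zero_smul, Finset.sum_ite_eq,
    Finset.mem_univ, if_true]

theorem continuous_matAct {n : ℕ} (A : Matrix (Fin n) (Fin n) ℤ) :
    Continuous (matAct A : Tor n → Tor n) := by
  unfold matAct
  exact continuous_pi fun i => continuous_finsetSum _ fun j _ =>
    (continuous_apply j).zsmul (A i j)

variable (D : Dat)

/-- The diagonal action of `g`. -/
def T (g : Cyc D.p) (a : Tor D.n × Sph D.l) : Tor D.n × Sph D.l :=
  (matAct (D.mat g) a.1, D.act g a.2)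

theorem continuous_T (g : Cyc D.p) : Continuous (T D g) :=
  ((continuous_matAct _).comp continuous_fst).prodMk ((D.act g).continuous.comp continuous_snd)

theorem rel_iff (a b : Tor D.n × Sph D.l) : D.rel a b ↔ ∃ g, T D g a = b := by
  constructor
  · rintro ⟨g, h1, h2⟩
    exact ⟨g, Prod.ext h1 h2⟩
  · rintro ⟨g, rfl⟩
    exact ⟨g, rfl, rfl⟩

theorem T_one (a : Tor D.n × Sph D.l) : T D 1 a = a := by
  refine Prod.ext ?_ ?_
  · change matAct (D.mat 1) a.1 = a.1
    rw [Rep.mat_one, matAct_one]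
  · change D.act 1 a.2 = a.2
    rw [map_one]
    rfl

theorem T_mul (g h : Cyc D.p) (a : Tor D.n × Sph D.l) : T D (g * h) a = T D g (T D h a) := by
  refine Prod.ext ?_ ?_
  · change matAct (D.mat (g * h)) a.1 = matAct (D.mat g) (matAct (D.mat h) a.1)
    rw [Rep.mat_mul, matAct_mul]
  · change D.act (g * h) a.2 = D.act g (D.act h a.2)
    rw [map_mul]
    rfl

theorem rel_equiv : Equivalence D.rel where
  refl a := (rel_iff D a a).2 ⟨1, T_one D a⟩
  symm := by
    intro a b h
    obtain ⟨g, rfl⟩ := (rel_iff D a b).1 h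
    refine (rel_iff D _ _).2 ⟨g⁻¹, ?_⟩
    rw [← T_mul, inv_mul_cancel, T_one]
  trans := by
    intro a b c h1 h2
    obtain ⟨g, rfl⟩ := (rel_iff D a b).1 h1
    obtain ⟨h, rfl⟩ := (rel_iff D _ c).1 h2
    exact (rel_iff D _ _).2 ⟨h * g, T_mul D h g a⟩

/-- The projection of `T^n × S^l` to the manifold. -/
def pr (a : Tor D.n × Sph D.l) : D.Mfd := Quot.mk _ a

theorem pr_eq (a b : Tor D.n × Sph D.l) : pr D a = pr D b ↔ ∃ g, T D g a = b := by
  rw [← rel_iff]
  constructor
  · intro h
    have h1 := Quot.eqvGen_exact h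
    rwa [(rel_equiv D).eqvGen_iff] at h1
  · intro h
    exact Quot.sound h

theorem isOpenQuotientMap_pr : IsOpenQuotientMap (pr D) where
  surjective := Quot.mk_surjective
  continuous := continuous_quot_mk
  isOpenMap := by
    intro U hU
    have h1 : pr D ⁻¹' (pr D '' U) = ⋃ g, T D g ⁻¹' U := by
      ext b
      simp only [Set.mem_preimage, Set.mem_image, Set.mem_iUnion]
      constructor
      · rintro ⟨a, ha, hab⟩
        obtain ⟨g, hg⟩ := (pr_eq D b a).1 hab.symm
        exact ⟨g, by rw [hg]; exact ha⟩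
      · rintro ⟨g, hg⟩
        exact ⟨_, hg, ((pr_eq D b _).2 ⟨g, rfl⟩).symm⟩
    have h2 : IsOpen (pr D ⁻¹' (pr D '' U)) := by
      rw [h1]
      exact isOpen_iUnion fun g => hU.preimage (continuous_T D g)
    exact h2

end Homaux

theorem stHom : StHom := by
  intro σ τ H hH
  have hwd : ∀ (t : unitInterval) (a b : Tor 4 × Sph 3), (exD σ).rel a b →
      (Quot.mk (exD τ).rel (a.1, H (a.2, t)) : (exD τ).Mfd) =
        Quot.mk (exD τ).rel (b.1, H (b.2, t)) := by
    rintro t a b ⟨g, h1, h2⟩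
    refine Quot.sound ⟨g, h1, ?_⟩
    have h3 := hH g a.2 t
    have h4 : act5 σ g a.2 = b.2 := h2
    rw [h4] at h3
    exact h3.symm
  let k : (exD σ).Mfd × unitInterval → (exD τ).Mfd := fun p =>
    Quot.lift (fun a : Tor 4 × Sph 3 => (Quot.mk (exD τ).rel (a.1, H (a.2, p.2)) : (exD τ).Mfd))
      (hwd p.2) p.1
  have hq := (Homaux.isOpenQuotientMap_pr (exD σ)).prodMap
    (IsOpenQuotientMap.id (X := unitInterval))
  have hk : Continuous k := by
    rw [hq.isQuotientMap.continuous_iff]
    have h1 : Continuous fun q : (Tor 4 × Sph 3) × unitInterval =>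
        ((q.1.1, H (q.1.2, q.2)) : Tor 4 × Sph 3) := by
      refine (continuous_fst.comp continuous_fst).prodMk (H.continuous.comp ?_)
      exact (continuous_snd.comp continuous_fst).prodMk continuous_snd
    exact (Homaux.isOpenQuotientMap_pr (exD τ)).continuous.comp h1
  exact ⟨⟨k, hk⟩, fun x s t => rfl⟩

end Pool.Agent.Lib.MP_39dc45_gt.SP
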