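import Pool.Agent.Lib.MP_39dc45_gt.SP.StA

/-!
# MP_39dc45_gt: the torsion of the join of two fences
-/

open Matrix

noncomputable section

namespace Pool.Agent.Lib.MP_39dc45_gt.SP

namespace JoinAux

/-! ## Lists in the join -/

section lists
variable {A : Type}

/-- The simplex `X * Y` of the join. -/
def jn (X Y : List A) : List (A ⊕ A) := X.map Sum.inl ++ Y.map Sum.inr

/-- The part in the first factor. -/
def xp (l : List (A ⊕ A)) : List A := l.filterMap Sum.getLeft?

/-- The part in the second factor. -/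
def yp (l : List (A ⊕ A)) : List A := l.filterMap Sum.getRight?

theorem xp_jn (X Y : List A) : xp (jn X Y) = X := by
  unfold xp jn
  rw [List.filterMap_append, List.filterMap_map, List.filterMap_map]
  have h1 : ((Sum.getLeft? : A ⊕ A → Option A) ∘ Sum.inl) = some := rfl
  have h2 : ((Sum.getLeft? : A ⊕ A → Option A) ∘ Sum.inr) = fun _ => none := rfl
  rw [h1, h2]
  simp

theorem yp_jn (X Y : List A) : yp (jn X Y) = Y := by
  unfold yp jn
  rw [List.filterMap_append, List.filterMap_map, List.filterMap_map]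
  have h1 : ((Sum.getRight? : A ⊕ A → Option A) ∘ Sum.inl) = fun _ => none := rfl
  have h2 : ((Sum.getRight? : A ⊕ A → Option A) ∘ Sum.inr) = some := rfl
  rw [h1, h2]
  simp

theorem jn_inj {X Y X' Y' : List A} : jn X Y = jn X' Y' ↔ X = X' ∧ Y = Y' := by
  constructor
  · intro h
    refine ⟨?_, ?_⟩
    · rw [← xp_jn X Y, h, xp_jn]
    · rw [← yp_jn X Y, h, yp_jn]
  · rintro ⟨rfl, rfl⟩
    rfl

theorem length_jn (X Y : List A) : (jn X Y).length = X.length + Y.length := by
  simp [jn]

theorem jn_eq_nil {X Y : List A} : jn X Y = [] ↔ X = [] ∧ Y = [] := by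
  simp [jn]

theorem pw_jn {R : A → A → Prop} (X Y : List A) :
    (jn X Y).Pairwise (sumR R R) ↔ X.Pairwise R ∧ Y.Pairwise R := by
  simp [jn, List.pairwise_append, List.pairwise_map, sumR]

theorem exists_jn {R : A → A → Prop} : ∀ l : List (A ⊕ A), l.Pairwise (sumR R R) →
    ∃ X Y, l = jn X Y ∧ X.Pairwise R ∧ Y.Pairwise R
  | [], _ => ⟨[], [], rfl, List.Pairwise.nil, List.Pairwise.nil⟩
  | Sum.inl a :: l, h => by
    obtain ⟨X, Y, rfl, -, -⟩ := exists_jn l h.tail
    have h' : (jn (a :: X) Y).Pairwise (sumR R R) := h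
    exact ⟨a :: X, Y, rfl, (pw_jn _ _).1 h'⟩
  | Sum.inr b :: l, h => by
    obtain ⟨X, Y, rfl, -, -⟩ := exists_jn l h.tail
    have hX : X = [] := by
      cases X with
      | nil => rfl
      | cons x X =>
        exfalso
        have := (List.pairwise_cons.1 h).1 (Sum.inl x) (by simp [jn])
        exact this
    subst hX
    have h' : (jn [] (b :: Y)).Pairwise (sumR R R) := h
    exact ⟨[], b :: Y, rfl, (pw_jn _ _).1 h'⟩

theorem bdA_apply [DecidableEq A] (l l' : List A) :
    bdA l l' = ∑ i ∈ Finset.range l.length, if l.eraseIdx i = l' then (-1 : ℤ) ^ i else 0 := by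
  simp [bdA, Finsupp.finsetSum_apply, Finsupp.single_apply]

theorem erase_jn_left (X Y : List A) {i : ℕ} (hi : i < X.length) :
    (jn X Y).eraseIdx i = jn (X.eraseIdx i) Y := by
  unfold jn
  rw [List.eraseIdx_append_of_lt_length (by simpa using hi), List.eraseIdx_map]

theorem erase_jn_right (X Y : List A) (j : ℕ) :
    (jn X Y).eraseIdx (X.length + j) = jn X (Y.eraseIdx j) := by
  unfold jn
  rw [List.eraseIdx_append_of_length_le (by simp)]
  simp [List.eraseIdx_map]

theorem bdA_jn [DecidableEq A] (X Y X' Y' : List A) :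
    bdA (jn X Y) (jn X' Y') = (if Y = Y' then bdA X X' else 0) +
      (if X = X' then (-1 : ℤ) ^ X.length * bdA Y Y' else 0) := by
  rw [bdA_apply, length_jn, Finset.sum_range_add]
  congr 1
  · rw [bdA_apply]
    split_ifs with h
    · apply Finset.sum_congr rfl
      intro i hi
      rw [erase_jn_left X Y (Finset.mem_range.1 hi)]
      simp only [jn_inj, h, and_true]
    · apply Finset.sum_eq_zero
      intro i hi
      rw [erase_jn_left X Y (Finset.mem_range.1 hi), if_neg]
      rw [jn_inj]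
      exact fun h' => h h'.2
  · rw [bdA_apply]
    split_ifs with h
    · rw [Finset.mul_sum]
      apply Finset.sum_congr rfl
      intro i hi
      rw [erase_jn_right]
      simp only [jn_inj, h, true_and, pow_add]
      split_ifs <;> simp
    · apply Finset.sum_eq_zero
      intro i hi
      rw [erase_jn_right, if_neg]
      rw [jn_inj]
      exact fun h' => h h'.1

theorem length_of_bdA {l l' : List A} (h : bdA l l' ≠ 0) : l.length = l'.length + 1 := by
  classical
  rw [bdA_apply] at h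
  obtain ⟨i, hi, h1⟩ := Finset.exists_ne_zero_of_sum_ne_zero h
  rw [ne_eq, ite_eq_right_iff, Classical.not_imp] at h1
  rw [← h1.1, List.length_eraseIdx_of_lt (Finset.mem_range.1 hi)]
  have := Finset.mem_range.1 hi
  omega

theorem bdA_self (l : List A) : bdA l l = 0 := by
  by_contra h
  have := length_of_bdA h
  omega

theorem plD_eq (l : List A) {l' : List A} (h : l' ≠ []) : plD l l' = bdA l l' := by
  classical
  unfold plD bd
  split_ifs with h1
  · rw [bdA_apply]
    symm
    rw [Finsupp.coe_zero, Pi.zero_apply]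
    apply Finset.sum_eq_zero
    intro i hi
    rw [if_neg]
    rintro rfl
    apply h
    have := Finset.mem_range.1 hi
    apply List.length_eq_zero_iff.1
    rw [List.length_eraseIdx_of_lt this]
    omega
  · rfl

/-- The simplices of an asymmetric relation on a finite set are finite in number. -/
theorem finite_pw [Fintype A] {R : A → A → Prop} (hR : Asym R) : {l : List A | l.Pairwise R}.Finite := by
  apply (List.finite_length_le A (Fintype.card A)).subset
  intro l hl
  have : l.Nodup := by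
    apply List.Pairwise.imp _ hl
    rintro a b hab rfl
    exact hR a a hab hab
  exact this.length_le_card

end lists

/-! ## Actions -/

section act
variable {Γ A : Type} [Group Γ] [MulAction Γ A]

theorem smul_jn (γ : Γ) (X Y : List A) : γ • jn X Y = jn (γ • X) (γ • Y) := by
  simp only [smul_list, jn, List.map_append, List.map_map]
  rfl

theorem smul_xp (γ : Γ) (l : List (A ⊕ A)) : xp (γ • l) = γ • xp l := by
  rw [smul_list, smul_list]
  unfold xp
  rw [List.filterMap_map, List.map_filterMap]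
  congr 1
  funext a
  cases a <;> rfl

theorem smul_yp (γ : Γ) (l : List (A ⊕ A)) : yp (γ • l) = γ • yp l := by
  rw [smul_list, smul_list]
  unfold yp
  rw [List.filterMap_map, List.map_filterMap]
  congr 1
  funext a
  cases a <;> rfl

theorem smul_eq_nil {γ : Γ} {X : List A} : γ • X = [] ↔ X = [] := by
  rw [smul_list, List.map_eq_nil_iff]

theorem length_smul (γ : Γ) (X : List A) : (γ • X).length = X.length := by
  rw [smul_list, List.length_map]

end act

/-! ## The fence -/

section fence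
variable (m c : ℕ) [h : FenOK m c]

theorem even_val_add (s t : Fen m c) : Even (s + t).val ↔ (Even s.val ↔ Even t.val) := by
  have := FenOK.neZero m c h
  have h1 : (s + t).val = (s.val + t.val) % m := ZMod.val_add (n := m) s t
  rw [h1, h.even_m.mod_even_iff, Nat.even_add]

theorem not_even_one : ¬ Even (Fen.of m c 1).val := by
  have h4 := h.four_le
  have : Fact (1 < m) := ⟨by omega⟩
  have h1 : (Fen.of m c 1).val = 1 := ZMod.val_one m
  rw [h1]
  decide

theorem even_val_sub (s t : Fen m c) : Even (s - t).val ↔ (Even s.val ↔ Even t.val) := by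
  have h1 := even_val_add m c (s - t) t
  rw [sub_add_cancel] at h1
  tauto

theorem one_ne (s : Fen m c) : s + Fen.of m c 1 ≠ s - Fen.of m c 1 := by
  intro h1
  have h4 := h.four_le
  have h2 : ((2 : ℕ) : ZMod m) = 0 := by
    have h3 : Fen.of m c 1 + Fen.of m c 1 = 0 := by
      have h5 : s + Fen.of m c 1 - (s - Fen.of m c 1) = 0 := by rw [h1, sub_self]
      rw [← h5]
      abel
    have h6 : (1 : ZMod m) + 1 = 0 := h3
    rw [Nat.cast_ofNat, ← one_add_one_eq_two]
    exact h6
  rw [ZMod.natCast_eq_zero_iff] at h2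
  have := Nat.le_of_dvd (by norm_num) h2
  omega

theorem circD_edge (s s' : Fen m c) : circD m c none (some [s, s']) =
    (if Even s.val ∧ s' = s + Fen.of m c 1 then 1 else 0) -
      (if Even s.val ∧ s' = s - Fen.of m c 1 then 1 else 0) := by
  change (if Even s.val ∧ s' = s + Fen.of m c 1 then (1 : ℤ)
      else if Even s.val ∧ s' = s - Fen.of m c 1 then -1 else 0) = _
  by_cases h1 : Even s.val ∧ s' = s + Fen.of m c 1
  · have h2 : ¬ (Even s.val ∧ s' = s - Fen.of m c 1) := by
      rintro ⟨-, h2⟩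
      exact one_ne m c s (h1.2.symm.trans h2)
    rw [if_pos h1, if_pos h1, if_neg h2, sub_zero]
  · rw [if_neg h1, if_neg h1]
    split_ifs <;> simp

theorem circD_ne {X : List (Fen m c)} (hX : circD m c none (some X) ≠ 0) :
    ∃ s s', X = [s, s'] ∧ fenR m c s s' := by
  match X, hX with
  | [], hX => exact absurd rfl hX
  | [_], hX => exact absurd rfl hX
  | [s, s'], hX =>
    refine ⟨s, s', rfl, ?_⟩
    rw [circD_edge] at hX
    by_contra h1
    unfold fenR at h1
    apply hX
    rw [if_neg, if_neg, sub_zero]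
    · tauto
    · tauto
  | _ :: _ :: _ :: _, hX => exact absurd rfl hX

/-- The boundary of the fundamental cycle vanishes. -/
theorem circD_cycle (t : Fen m c) :
    ∑ s, circD m c none (some [s, t]) = ∑ s', circD m c none (some [t, s']) := by
  simp only [circD_edge, Finset.sum_sub_distrib]
  have h1 : ∀ s, (Even s.val ∧ t = s + Fen.of m c 1) ↔
      (s = t - Fen.of m c 1 ∧ ¬ Even t.val) := by
    intro s
    constructor
    · rintro ⟨h2, rfl⟩
      refine ⟨by abel, ?_⟩
      rw [even_val_add]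
      have := not_even_one m c
      tauto
    · rintro ⟨rfl, h2⟩
      refine ⟨?_, by abel⟩
      rw [even_val_sub]
      have := not_even_one m c
      tauto
  have h2 : ∀ s, (Even s.val ∧ t = s - Fen.of m c 1) ↔
      (s = t + Fen.of m c 1 ∧ ¬ Even t.val) := by
    intro s
    constructor
    · rintro ⟨h2, rfl⟩
      refine ⟨by abel, ?_⟩
      rw [even_val_sub]
      have := not_even_one m c
      tauto
    · rintro ⟨rfl, h2⟩
      refine ⟨?_, by abel⟩
      rw [even_val_add]
      have := not_even_one m c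
      tauto
  have h3 : ∀ s, (Even t.val ∧ s = t + Fen.of m c 1) ↔
      (s = t + Fen.of m c 1 ∧ Even t.val) := fun s => and_comm
  have h4 : ∀ s, (Even t.val ∧ s = t - Fen.of m c 1) ↔
      (s = t - Fen.of m c 1 ∧ Even t.val) := fun s => and_comm
  simp only [h1, h2, h3, h4, ite_and, Finset.sum_ite_eq', Finset.mem_univ, if_true, sub_self]

/-- The action preserves the fundamental cycle. -/
theorem circD_smul (γ : Cyc 5) (X : List (Fen m c)) :
    circD m c none (some (γ • X)) = circD m c none (some X) := by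
  match X with
  | [] => rfl
  | [_] => rfl
  | _ :: _ :: _ :: _ => rfl
  | [s, s'] =>
    obtain ⟨t, ht, hs⟩ : ∃ t : Fen m c, Even t.val ∧ ∀ s : Fen m c, γ • s = s + t := by
      refine ⟨Fen.of m c ((c * (Multiplicative.toAdd γ).val : ℕ) : ZMod m), ?_, fun s => rfl⟩
      have := FenOK.neZero m c h
      have h1 : (Fen.of m c ((c * (Multiplicative.toAdd γ).val : ℕ) : ZMod m)).val
          = (c * (Multiplicative.toAdd γ).val) % m := ZMod.val_natCast _ _
      rw [h1, h.even_m.mod_even_iff]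
      exact h.even_c.mul_right _
    have h2 : γ • [s, s'] = [s + t, s' + t] := by
      rw [smul_list, List.map_cons, List.map_cons, hs, hs]
      rfl
    have h3 : Even (s + t).val ↔ Even s.val := by
      rw [even_val_add]
      tauto
    have h4 : s' + t = s + t + Fen.of m c 1 ↔ s' = s + Fen.of m c 1 := by
      rw [add_right_comm, add_left_inj]
    have h5 : s' + t = s + t - Fen.of m c 1 ↔ s' = s - Fen.of m c 1 := by
      rw [add_sub_right_comm, add_left_inj]
    rw [h2, circD_edge, circD_edge]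
    simp only [h3, h4, h5]

end fence

/-! ## The extended complex -/

section cx
variable (m c : ℕ)

/-- The indices: the simplices of the join and the simplices of the second factor. -/
abbrev I3 : Type := List (Fen m c ⊕ Fen m c) ⊕ List (Fen m c)

/-- The differential of the extended complex: the boundary of `Y` is `z * Y - ∂ Y` with the
fundamental cycle `z` of the fence. -/
def d3 : I3 m c → I3 m c → ℤ
  | Sum.inl l, Sum.inl l' => plD l l'
  | Sum.inl _, Sum.inr _ => 0
  | Sum.inr Y, Sum.inl l => if l = jn (xp l) Y then circD m c none (some (xp l)) else 0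
  | Sum.inr Y, Sum.inr Y' => -plD Y Y'

/-- The degree. -/
def deg3 : I3 m c → ℕ
  | Sum.inl l => l.length
  | Sum.inr Y => Y.length + 3

/-- The simplices of the join that are contained in the first factor. -/
def PA : Set (List (Fen m c ⊕ Fen m c)) :=
  {l | l ∈ plP (sumR (fenR m c) (fenR m c)) ∧ yp l = []}

/-- The other simplices of the join. -/
def I2 : Set (List (Fen m c ⊕ Fen m c)) :=
  {l | l ∈ plP (sumR (fenR m c) (fenR m c)) ∧ yp l ≠ []}

/-- The cells of the extended complex. -/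
def P3 : Set (I3 m c) := Sum.inl '' I2 m c ∪ Sum.inr '' plP (fenR m c)

variable {m c}

theorem d3_inr_inl (Y X' Y' : List (Fen m c)) : d3 m c (Sum.inr Y) (Sum.inl (jn X' Y')) =
    if Y' = Y then circD m c none (some X') else 0 := by
  change (if jn X' Y' = jn (xp (jn X' Y')) Y then circD m c none (some (xp (jn X' Y'))) else 0) = _
  rw [xp_jn]
  simp only [jn_inj, true_and]

theorem mem_I2 {l : List (Fen m c ⊕ Fen m c)} :
    l ∈ I2 m c ↔ ∃ X Y, l = jn X Y ∧ X.Pairwise (fenR m c) ∧ Y ∈ plP (fenR m c) := by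
  constructor
  · rintro ⟨⟨h1, h2⟩, h3⟩
    obtain ⟨X, Y, rfl, h4, h5⟩ := exists_jn l h2
    rw [yp_jn] at h3
    exact ⟨X, Y, rfl, h4, h3, h5⟩
  · rintro ⟨X, Y, rfl, h1, h2, h3⟩
    refine ⟨⟨?_, (pw_jn X Y).2 ⟨h1, h3⟩⟩, ?_⟩
    · rw [ne_eq, jn_eq_nil]
      exact fun h4 => h2 h4.2
    · rw [yp_jn]
      exact h2

theorem mem_PA {l : List (Fen m c ⊕ Fen m c)} :
    l ∈ PA m c ↔ ∃ X ∈ plP (fenR m c), l = jn X [] := by
  constructor
  · rintro ⟨⟨h1, h2⟩, h3⟩
    obtain ⟨X, Y, rfl, h4, h5⟩ := exists_jn l h2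
    rw [yp_jn] at h3
    subst h3
    refine ⟨X, ⟨?_, h4⟩, rfl⟩
    rintro rfl
    exact h1 rfl
  · rintro ⟨X, ⟨h1, h2⟩, rfl⟩
    refine ⟨⟨?_, (pw_jn X []).2 ⟨h2, List.Pairwise.nil⟩⟩, ?_⟩
    · rw [ne_eq, jn_eq_nil]
      exact fun h4 => h1 h4.1
    · rw [yp_jn]

theorem jn_ne {X Y : List (Fen m c)} (h : Y ≠ []) : jn X Y ≠ [] := by
  rw [ne_eq, jn_eq_nil]
  exact fun h1 => h h1.2

variable [h : FenOK m c]

theorem finite_pl (hA : Asym (fenR m c)) : (plP (fenR m c)).Finite :=
  (finite_pw hA).subset fun _ hl => hl.2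

theorem finite_I2 (hA : Asym (fenR m c)) : (I2 m c).Finite := by
  have h1 : (Set.image2 jn {X : List (Fen m c) | X.Pairwise (fenR m c)}
      (plP (fenR m c))).Finite := (finite_pw hA).image2 _ (finite_pl hA)
  apply h1.subset
  intro l hl
  obtain ⟨X, Y, rfl, h2, h3⟩ := mem_I2.1 hl
  exact Set.mem_image2_of_mem h2 h3

theorem finite_P3 (hA : Asym (fenR m c)) : (P3 m c).Finite :=
  ((finite_I2 hA).image _).union ((finite_pl hA).image _)

theorem finsum_P3 (hA : Asym (fenR m c)) (f : I3 m c → ℤ) :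
    ∑ᶠ (j : I3 m c) (_ : j ∈ P3 m c), f j = (∑ᶠ (l) (_ : l ∈ I2 m c), f (Sum.inl l)) +
      ∑ᶠ (Y) (_ : Y ∈ plP (fenR m c)), f (Sum.inr Y) := by
  unfold P3
  rw [finsum_mem_union _ ((finite_I2 hA).image _) ((finite_pl hA).image _),
    finsum_mem_image Sum.inl_injective.injOn, finsum_mem_image Sum.inr_injective.injOn]
  rw [Set.disjoint_left]
  rintro _ ⟨l, -, rfl⟩ ⟨Y, -, h2⟩
  exact absurd h2 (by simp)

theorem cycle_sum (X : List (Fen m c)) :
    ∑ q : Fen m c × Fen m c, circD m c none (some [q.1, q.2]) * bdA [q.1, q.2] X = 0 := by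
  have h0 : ∀ q : Fen m c × Fen m c, bdA [q.1, q.2] X =
      (if [q.2] = X then 1 else 0) - (if [q.1] = X then 1 else 0) := by
    rintro ⟨a, b⟩
    rw [bdA_apply]
    simp only [List.length_cons, List.length_nil, Finset.sum_range_succ, Finset.sum_range_zero,
      List.eraseIdx_cons_zero, List.eraseIdx_cons_succ, pow_zero, pow_one, zero_add]
    split_ifs <;> simp
  simp only [h0, mul_sub, mul_ite, mul_one, mul_zero, Finset.sum_sub_distrib]
  by_cases hX : ∃ t, X = [t]
  · obtain ⟨t, rfl⟩ := hX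
    have h1 : ∀ a : Fen m c, [a] = [t] ↔ a = t := fun a => by simp
    simp only [h1, Fintype.sum_prod_type]
    rw [Finset.sum_comm (f := fun x y => if x = t then circD m c none (some [x, y]) else 0)]
    simp only [Finset.sum_ite_eq', Finset.mem_univ, if_true]
    rw [circD_cycle, sub_self]
  · have h1 : ∀ a : Fen m c, [a] ≠ X := fun a h1 => hX ⟨a, h1.symm⟩
    simp only [h1, if_false, Finset.sum_const_zero, sub_self]

theorem edge_sum (X : List (Fen m c)) (x : ℤ) :
    ∑ q : Fen m c × Fen m c, circD m c none (some [q.1, q.2]) *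
      (if [q.1, q.2] = X then x else 0) = circD m c none (some X) * x := by
  by_cases hX : ∃ s s', X = [s, s']
  · obtain ⟨s, s', rfl⟩ := hX
    rw [Finset.sum_eq_single (s, s')]
    · rw [if_pos rfl]
    · rintro ⟨a, b⟩ - h1
      rw [if_neg, mul_zero]
      intro h2
      apply h1
      simpa using h2
    · intro h1
      exact absurd (Finset.mem_univ _) h1
  · have h1 : circD m c none (some X) = 0 := by
      by_contra h1
      obtain ⟨s, s', h2, -⟩ := circD_ne m c h1
      exact hX ⟨s, s', h2⟩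
    rw [h1, zero_mul]
    apply Finset.sum_eq_zero
    rintro ⟨a, b⟩ -
    rw [if_neg, mul_zero]
    exact fun h2 => hX ⟨a, b, h2.symm⟩

theorem key_sum (Y X' : List (Fen m c)) {Y' : List (Fen m c)} (hY' : Y' ≠ []) :
    ∑ q : Fen m c × Fen m c, circD m c none (some [q.1, q.2]) *
      plD (jn [q.1, q.2] Y) (jn X' Y') = circD m c none (some X') * plD Y Y' := by
  have h1 : ∀ q : Fen m c × Fen m c, plD (jn [q.1, q.2] Y) (jn X' Y') =
      (if Y = Y' then bdA [q.1, q.2] X' else 0) +
        (if [q.1, q.2] = X' then bdA Y Y' else 0) := by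
    rintro ⟨a, b⟩
    rw [plD_eq _ (jn_ne hY'), bdA_jn]
    simp
  simp only [h1, mul_add, Finset.sum_add_distrib]
  rw [edge_sum, plD_eq Y hY']
  by_cases h2 : Y = Y'
  · simp only [h2, if_true]
    rw [cycle_sum, zero_add]
  · simp only [h2, if_false, mul_zero, Finset.sum_const_zero, zero_add]

/-- The sum over the simplices of the join. -/
theorem sum_I2 {Y : List (Fen m c)} (hY : Y ∈ plP (fenR m c)) (X' : List (Fen m c))
    {Y' : List (Fen m c)} (hY' : Y' ≠ []) :
    ∑ᶠ (l) (_ : l ∈ I2 m c), d3 m c (Sum.inr Y) (Sum.inl l) * plD l (jn X' Y') =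
      circD m c none (some X') * plD Y Y' := by
  classical
  rw [← key_sum Y X' hY']
  have hinj : Set.InjOn (fun q : Fen m c × Fen m c => jn [q.1, q.2] Y)
      ((Finset.univ : Finset (Fen m c × Fen m c)) : Set (Fen m c × Fen m c)) := by
    rintro ⟨a, b⟩ - ⟨a', b'⟩ - h1
    have h2 := (jn_inj.1 h1).1
    simpa using h2
  rw [finsum_mem_eq_sum_of_inter_support_eq (t := Finset.univ.image
    fun q : Fen m c × Fen m c => jn [q.1, q.2] Y), Finset.sum_image hinj]
  · apply Finset.sum_congr rfl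
    rintro q -
    rw [d3_inr_inl, if_pos rfl]
  · ext l
    constructor
    · rintro ⟨h1, h2⟩
      refine ⟨?_, h2⟩
      obtain ⟨X, Y1, rfl, -, -⟩ := mem_I2.1 h1
      have h3 : d3 m c (Sum.inr Y) (Sum.inl (jn X Y1)) ≠ 0 := left_ne_zero_of_mul h2
      rw [d3_inr_inl, ne_eq, ite_eq_right_iff, Classical.not_imp] at h3
      obtain ⟨rfl, h3⟩ := h3
      obtain ⟨s, s', rfl, -⟩ := circD_ne m c h3
      rw [Finset.coe_image]
      exact ⟨(s, s'), Finset.mem_coe.2 (Finset.mem_univ _), rfl⟩
    · rintro ⟨h1, h2⟩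
      refine ⟨?_, h2⟩
      rw [Finset.coe_image] at h1
      obtain ⟨q, -, rfl⟩ := h1
      have h3 : d3 m c (Sum.inr Y) (Sum.inl (jn [q.1, q.2] Y)) ≠ 0 := left_ne_zero_of_mul h2
      rw [d3_inr_inl, if_pos rfl] at h3
      obtain ⟨s, s', h4, h5⟩ := circD_ne m c h3
      refine mem_I2.2 ⟨[q.1, q.2], Y, rfl, ?_, hY⟩
      rw [h4]
      exact List.pairwise_pair.2 h5

omit h in
/-- The sum over the simplices of the second factor. -/
theorem sum_pl (Y X' : List (Fen m c)) {Y' : List (Fen m c)} (hY' : Y' ∈ plP (fenR m c)) :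
    ∑ᶠ (Z) (_ : Z ∈ plP (fenR m c)), d3 m c (Sum.inr Y) (Sum.inr Z) *
      d3 m c (Sum.inr Z) (Sum.inl (jn X' Y')) = -(plD Y Y' * circD m c none (some X')) := by
  rw [finsum_mem_eq_sum_of_inter_support_eq (t := {Y'}), Finset.sum_singleton, d3_inr_inl,
    if_pos rfl]
  · exact neg_mul _ _
  · ext Z
    constructor
    · rintro ⟨h1, h2⟩
      refine ⟨?_, h2⟩
      have h3 : d3 m c (Sum.inr Z) (Sum.inl (jn X' Y')) ≠ 0 := right_ne_zero_of_mul h2
      rw [d3_inr_inl, ne_eq, ite_eq_right_iff, Classical.not_imp] at h3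
      rw [Finset.coe_singleton, Set.mem_singleton_iff, h3.1]
    · rintro ⟨h1, h2⟩
      refine ⟨?_, h2⟩
      rw [Finset.coe_singleton, Set.mem_singleton_iff] at h1
      rw [h1]
      exact hY'

/-- The extended complex is a free complex. -/
theorem ec3 (hA : Asym (fenR m c)) (e1 : EC (Cyc 5) (plP (fenR m c)) List.length plD)
    (e2 : EC (Cyc 5) (I2 m c) List.length plD) :
    EC (Cyc 5) (P3 m c) (deg3 m c) (d3 m c) where
  smul_mem := by
    rintro γ i (⟨l, hl, rfl⟩ | ⟨Y, hY, rfl⟩)
    · exact Or.inl ⟨γ • l, e2.smul_mem γ l hl, rfl⟩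
    · exact Or.inr ⟨γ • Y, e1.smul_mem γ Y hY, rfl⟩
  free := by
    rintro γ i (⟨l, hl, rfl⟩ | ⟨Y, hY, rfl⟩) h1
    · exact e2.free γ l hl (Sum.inl_injective h1)
    · exact e1.free γ Y hY (Sum.inr_injective h1)
  deg_smul := by
    rintro γ (l | Y)
    · exact length_smul γ l
    · exact congrArg (· + 3) (length_smul γ Y)
  d_smul := by
    rintro γ (l | Y) (l' | Y')
    · exact e2.d_smul γ l l'
    · rfl
    · change (if γ • l' = jn (xp (γ • l')) (γ • Y) then
        circD m c none (some (xp (γ • l'))) else 0) =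
          if l' = jn (xp l') Y then circD m c none (some (xp l')) else 0
      rw [smul_xp, ← smul_jn, circD_smul]
      exact if_congr (smul_left_cancel_iff γ) rfl rfl
    · exact congrArg Neg.neg (e1.d_smul γ Y Y')
  fin := fun _ _ => (finite_P3 hA).subset fun _ hj => hj.1
  deg_d := by
    rintro i (⟨l, hl, rfl⟩ | ⟨Y, hY, rfl⟩) j (⟨l', hl', rfl⟩ | ⟨Y', hY', rfl⟩) h1
    · exact e2.deg_d l hl l' hl' h1
    · exact absurd rfl h1
    · obtain ⟨X1, Y1, rfl, -, -⟩ := mem_I2.1 hl'
      rw [d3_inr_inl, ne_eq, ite_eq_right_iff, Classical.not_imp] at h1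
      obtain ⟨s, s', h2, -⟩ := circD_ne m c h1.2
      change Y.length + 3 = (jn X1 Y1).length + 1
      rw [length_jn, h2, h1.1]
      simp only [List.length_cons, List.length_nil]
      omega
    · have h2 := e1.deg_d Y hY Y' hY' (by
        intro h2
        apply h1
        change -plD Y Y' = 0
        rw [h2, neg_zero])
      change Y.length + 3 = Y'.length + 3 + 1
      omega
  sq := by
    rintro i (⟨l, hl, rfl⟩ | ⟨Y, hY, rfl⟩) k (⟨l', hl', rfl⟩ | ⟨Y', hY', rfl⟩)
    · rw [finsum_P3 hA]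
      have h1 := e2.sq l hl l' hl'
      have h2 : ∀ Z : List (Fen m c), d3 m c (Sum.inl l) (Sum.inr Z) *
          d3 m c (Sum.inr Z) (Sum.inl l') = 0 := fun Z => zero_mul _
      simp only [h2, finsum_zero, add_zero]
      exact h1
    · rw [finsum_P3 hA]
      have h1 : ∀ l1 : List (Fen m c ⊕ Fen m c), d3 m c (Sum.inl l) (Sum.inl l1) *
          d3 m c (Sum.inl l1) (Sum.inr Y') = 0 := fun l1 => mul_zero _
      have h2 : ∀ Z : List (Fen m c), d3 m c (Sum.inl l) (Sum.inr Z) *
          d3 m c (Sum.inr Z) (Sum.inr Y') = 0 := fun Z => zero_mul _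
      simp only [h1, h2, finsum_zero, add_zero]
    · obtain ⟨X1, Y1, rfl, -, h3⟩ := mem_I2.1 hl'
      rw [finsum_P3 hA, sum_pl Y X1 h3]
      have h1 := sum_I2 hY X1 h3.1
      have h2 : ∀ l1 : List (Fen m c ⊕ Fen m c), d3 m c (Sum.inr Y) (Sum.inl l1) *
          d3 m c (Sum.inl l1) (Sum.inl (jn X1 Y1)) =
          d3 m c (Sum.inr Y) (Sum.inl l1) * plD l1 (jn X1 Y1) := fun l1 => rfl
      simp only [h2]
      rw [h1]
      ring
    · rw [finsum_P3 hA]
      have h1 := e1.sq Y hY Y' hY'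
      have h2 : ∀ l1 : List (Fen m c ⊕ Fen m c), d3 m c (Sum.inr Y) (Sum.inl l1) *
          d3 m c (Sum.inl l1) (Sum.inr Y') = 0 := fun l1 => mul_zero _
      have h3 : ∀ Z : List (Fen m c), d3 m c (Sum.inr Y) (Sum.inr Z) *
          d3 m c (Sum.inr Z) (Sum.inr Y') = plD Y Z * plD Z Y' := fun Z => neg_mul_neg _ _
      simp only [h2, h3, finsum_zero, zero_add]
      exact h1

/-! ## The blocks -/

/-- The part in the second factor. -/
def pr : I3 m c → List (Fen m c) := Sum.elim yp id

omit h in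
theorem zc_empty {I : Type} [DecidableEq I] (deg : I → ℕ) (d : I → I → ℤ) : ZC deg d ∅ :=
  ⟨0, fun i => absurd i.2 (Finset.notMem_empty _), Subsingleton.elim _ _⟩

omit h in
theorem pr_mem {i : I3 m c} (hi : i ∈ P3 m c) : pr i ∈ plP (fenR m c) := by
  rcases hi with ⟨l, hl, rfl⟩ | ⟨Y, hY, rfl⟩
  · obtain ⟨X, Y, rfl, -, h2⟩ := mem_I2.1 hl
    change yp (jn X Y) ∈ _
    rw [yp_jn]
    exact h2
  · exact hY

theorem block (hc : StCirc) (hz : StZ3) {Y : List (Fen m c)} (hY : Y ∈ plP (fenR m c)) :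
    ∃ s : Finset (I3 m c), (∀ i, i ∈ s ↔ i ∈ P3 m c ∧ pr i = Y) ∧
      ZC (deg3 m c) (d3 m c) s := by
  obtain ⟨B, hB, hZ⟩ := hc m c
  let φ : Option (List (Fen m c)) → I3 m c := fun o =>
    match o with
    | none => Sum.inr Y
    | some X => Sum.inl (jn X Y)
  have hφ : Function.Injective φ := by
    rintro (_ | X) (_ | X') h1
    · rfl
    · exact absurd h1 (by simp [φ])
    · exact absurd h1 (by simp [φ])
    · have h2 : jn X Y = jn X' Y := Sum.inl_injective h1
      rw [(jn_inj.1 h2).1]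
  refine ⟨B.image φ, ?_, ?_⟩
  · intro i
    rw [Finset.mem_image]
    constructor
    · rintro ⟨x, hx, rfl⟩
      rcases (hB x).1 hx with rfl | ⟨X, rfl, hX⟩
      · exact ⟨Or.inr ⟨Y, hY, rfl⟩, rfl⟩
      · exact ⟨Or.inl ⟨jn X Y, mem_I2.2 ⟨X, Y, rfl, hX, hY⟩, rfl⟩, yp_jn X Y⟩
    · rintro ⟨⟨l, hl, rfl⟩ | ⟨Y', hY', rfl⟩, h1⟩
      · obtain ⟨X, Y1, rfl, h2, h3⟩ := mem_I2.1 hl
        have h4 : yp (jn X Y1) = Y := h1
        rw [yp_jn] at h4
        subst h4
        exact ⟨some X, (hB _).2 (Or.inr ⟨X, rfl, h2⟩), rfl⟩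
      · have h4 : Y' = Y := h1
        subst h4
        exact ⟨none, (hB _).2 (Or.inl rfl), rfl⟩
  · refine (hz (Option (List (Fen m c))) (I3 m c) circDeg (deg3 m c) (circD m c) (d3 m c) B
      (B.image φ) φ (fun _ => 1) Y.length ?_ ?_ ?_ ?_).1 hZ
    · rw [Finset.coe_image]
      exact hφ.injOn.bijOn_image
    · rintro (_ | X) -
      · exact Nat.add_comm _ _
      · exact length_jn X Y
    · exact fun _ _ => Or.inl rfl
    · rintro (_ | X) - (_ | X') -
      · change -plD Y Y = 1 * 1 * 0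
        rw [plD_eq Y hY.1, bdA_self]
        rfl
      · change d3 m c (Sum.inr Y) (Sum.inl (jn X' Y)) = 1 * 1 * circD m c none (some X')
        rw [d3_inr_inl, if_pos rfl, one_mul, one_mul]
      · rfl
      · change plD (jn X Y) (jn X' Y) = 1 * 1 * bdA X X'
        rw [plD_eq _ (jn_ne hY.1), bdA_jn, if_pos rfl, bdA_self, mul_zero, ite_self, add_zero,
          one_mul, one_mul]

/-- The torsion of the extended complex. -/
theorem tor3 (hc : StCirc) (hz : StZ3) (h4 : StE4) (hA : Asym (fenR m c))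
    (e1 : EC (Cyc 5) (plP (fenR m c)) List.length plD)
    (e3 : EC (Cyc 5) (P3 m c) (deg3 m c) (d3 m c)) (χ : Cyc 5 →* F31) (hχ : Ten χ) :
    TorG (Cyc 5) (P3 m c) (deg3 m c) (d3 m c) χ 1 := by
  refine h4 (Cyc 5) (I3 m c) (List (Fen m c)) (P3 m c) (deg3 m c) (d3 m c) χ pr List.length
    e3 hχ ?_ ?_ ?_ ?_ ?_ ?_
  · rintro γ (l | Y) -
    · exact smul_yp γ l
    · rfl
  · exact fun γ l => length_smul γ l
  · rintro i (⟨l, hl, rfl⟩ | ⟨Y, hY, rfl⟩) j (⟨l', hl', rfl⟩ | ⟨Y', hY', rfl⟩) h1
    · obtain ⟨X1, Y1, rfl, -, h2⟩ := mem_I2.1 hl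
      obtain ⟨X2, Y2, rfl, -, h3⟩ := mem_I2.1 hl'
      change yp (jn X1 Y1) = yp (jn X2 Y2) ∨ (yp (jn X2 Y2)).length < (yp (jn X1 Y1)).length
      rw [yp_jn, yp_jn]
      by_contra h5
      rw [not_or] at h5
      apply h1
      change plD (jn X1 Y1) (jn X2 Y2) = 0
      rw [plD_eq _ (jn_ne h3.1), bdA_jn, if_neg h5.1, zero_add]
      have h6 : bdA Y1 Y2 = 0 := by
        by_contra h6
        have := length_of_bdA h6
        omega
      rw [h6, mul_zero, ite_self]
    · exact absurd rfl h1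
    · obtain ⟨X2, Y2, rfl, -, h3⟩ := mem_I2.1 hl'
      rw [d3_inr_inl, ne_eq, ite_eq_right_iff, Classical.not_imp] at h1
      left
      change Y = yp (jn X2 Y2)
      rw [yp_jn, h1.1]
    · right
      have h2 := e1.deg_d Y hY Y' hY' (by
        intro h2
        apply h1
        change -plD Y Y' = 0
        rw [h2, neg_zero])
      change Y'.length < Y.length
      omega
  · exact fun i hi γ h1 => e1.free γ _ (pr_mem hi) h1
  · exact ⟨plP (fenR m c), finite_pl hA, fun i hi => ⟨1, by rw [one_smul]; exact pr_mem hi⟩⟩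
  · intro l
    by_cases hl : l ∈ plP (fenR m c)
    · exact block hc hz hl
    · refine ⟨∅, fun i => ?_, zc_empty _ _⟩
      constructor
      · exact fun h1 => absurd h1 (Finset.notMem_empty _)
      · rintro ⟨h1, rfl⟩
        exact absurd (pr_mem h1) hl

end cx

end JoinAux

open JoinAux in
/-- Module Join. -/
theorem stJoin : StCirc → StFen0 → StE4 → StE5 → StE6 → StC1 → StZ3 → StJoin := by
  intro hc hf h4 h5 h6 h1 hz m c _ χ u hχ hu
  obtain ⟨hA, hI, hF⟩ := hf.1 m c
  -- the complexes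
  have e1 : EC (Cyc 5) (plP (fenR m c)) List.length plD := h1 _ _ _ hA hI hF
  have hA2 : Asym (sumR (fenR m c) (fenR m c)) := by
    rintro (a | a) (b | b) h7
    · exact hA a b h7
    · exact fun h8 => h8
    · exact fun _ => h7
    · exact hA a b h7
  have hI2 : Inv (Cyc 5) (sumR (fenR m c) (fenR m c)) := by
    rintro γ (a | a) (b | b) h7
    · exact hI γ a b h7
    · exact trivial
    · exact h7
    · exact hI γ a b h7
  have hF2 : Free (Cyc 5) (Fen m c ⊕ Fen m c) := by
    rintro γ (a | a) h7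
    · exact hF γ a (Sum.inl_injective h7)
    · exact hF γ a (Sum.inr_injective h7)
  have e0 : EC (Cyc 5) (plP (sumR (fenR m c) (fenR m c))) List.length plD :=
    h1 _ _ _ hA2 hI2 hF2
  have hPP : plP (sumR (fenR m c) (fenR m c)) = PA m c ∪ I2 m c := by
    ext l
    constructor
    · intro hl
      by_cases h7 : yp l = []
      · exact Or.inl ⟨hl, h7⟩
      · exact Or.inr ⟨hl, h7⟩
    · rintro (h7 | h7)
      · exact h7.1
      · exact h7.1
  have hdis : Disjoint (PA m c) (I2 m c) := by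
    rw [Set.disjoint_left]
    exact fun l h7 h8 => h8.2 h7.2
  obtain ⟨eA, e2, hmul, -, -⟩ := h5 (Cyc 5) (List (Fen m c ⊕ Fen m c)) _ (PA m c) (I2 m c)
    List.length plD χ e0 hχ hPP hdis
    (fun γ l hl => ⟨e0.smul_mem γ l hl.1, by rw [smul_yp, hl.2]; rfl⟩)
    (fun γ l hl => ⟨e0.smul_mem γ l hl.1, by
      rw [smul_yp, ne_eq, smul_eq_nil]
      exact hl.2⟩)
    (by
      intro i hi j hj
      obtain ⟨X1, h7, rfl⟩ := mem_PA.1 hi
      obtain ⟨X2, Y2, rfl, h8, h9⟩ := mem_I2.1 hj
      rw [plD_eq _ (jn_ne h9.1), bdA_jn, if_neg h9.1.symm, zero_add]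
      have h10 : bdA ([] : List (Fen m c)) Y2 = 0 := by
        by_contra h10
        have := length_of_bdA h10
        simp at this
      rw [h10, mul_zero, ite_self])
  -- the first part
  have tA : TorG (Cyc 5) (PA m c) List.length plD χ u := by
    have h7 := h6 (Cyc 5) (List (Fen m c)) (List (Fen m c ⊕ Fen m c)) (plP (fenR m c)) (PA m c)
      List.length List.length plD plD χ (fun X => jn X []) (fun _ => 1) 0 e1 hχ ?_ ?_ ?_ ?_ ?_ ?_ u
    · rw [if_pos (by decide)] at h7
      exact h7.1 hu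
    · refine ⟨fun X hX => mem_PA.2 ⟨X, hX, rfl⟩, fun X _ X' _ h8 => (jn_inj.1 h8).1, ?_⟩
      intro l hl
      obtain ⟨X, h8, rfl⟩ := mem_PA.1 hl
      exact ⟨X, h8, rfl⟩
    · exact fun γ X _ => (smul_jn γ X []).symm
    · intro X _
      rw [length_jn]
      rfl
    · exact fun _ _ => Or.inl rfl
    · exact fun _ _ _ => rfl
    · intro X hX X' hX'
      rw [plD_eq X hX'.1, plD_eq, bdA_jn, if_pos rfl, bdA_self, mul_zero, ite_self, add_zero,
        one_mul, one_mul]
      rw [ne_eq, jn_eq_nil]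
      exact fun h8 => hX'.1 h8.1
  -- the second part
  have e3 := ec3 hA e1 e2
  have t3 := tor3 hc hz h4 hA e1 e3 χ hχ
  obtain ⟨-, -, -, -, h7⟩ := h5 (Cyc 5) (I3 m c) (P3 m c) (Sum.inl '' I2 m c)
    (Sum.inr '' plP (fenR m c)) (deg3 m c) (d3 m c) χ e3 hχ rfl
    (by
      rw [Set.disjoint_left]
      rintro _ ⟨l, -, rfl⟩ ⟨Y, -, h8⟩
      exact absurd h8 (by simp))
    (by
      rintro γ _ ⟨l, hl, rfl⟩
      exact ⟨γ • l, e2.smul_mem γ l hl, rfl⟩)
    (by
      rintro γ _ ⟨l, hl, rfl⟩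
      exact ⟨γ • l, e1.smul_mem γ l hl, rfl⟩)
    (by
      rintro _ ⟨l, -, rfl⟩ _ ⟨Y, -, rfl⟩
      rfl)
  have tB : TorG (Cyc 5) (Sum.inr '' plP (fenR m c)) (deg3 m c) (d3 m c) χ u⁻¹ := by
    have h8 := h6 (Cyc 5) (List (Fen m c)) (I3 m c) (plP (fenR m c))
      (Sum.inr '' plP (fenR m c)) List.length (deg3 m c) plD (d3 m c) χ Sum.inr
      (fun X => (-1) ^ X.length) 3 e1 hχ ?_ ?_ ?_ ?_ ?_ ?_ u
    · rw [if_neg (by decide)] at h8
      exact h8.1 hu
    · exact Sum.inr_injective.injOn.bijOn_image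
    · exact fun _ _ _ => rfl
    · exact fun _ _ => rfl
    · exact fun X _ => neg_one_pow_eq_or ℤ X.length
    · intro γ X _
      rw [length_smul]
    · intro X hX X' hX'
      change -plD X X' = _
      by_cases h9 : plD X X' = 0
      · rw [h9, mul_zero, neg_zero]
      · have h10 := e1.deg_d X hX X' hX' h9
        rw [h10, pow_succ]
        have h11 : ((-1 : ℤ) ^ X'.length) * (-1) ^ X'.length = 1 := by
          rw [← mul_pow]
          simp
        linear_combination plD X X' * h11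
  have tI : TorG (Cyc 5) (Sum.inl '' I2 m c) (deg3 m c) (d3 m c) χ u := by
    have h8 := h7 1 u⁻¹ t3 tB
    rwa [inv_inv, one_mul] at h8
  have t2 : TorG (Cyc 5) (I2 m c) List.length plD χ u := by
    have h8 := h6 (Cyc 5) (List (Fen m c ⊕ Fen m c)) (I3 m c) (I2 m c)
      (Sum.inl '' I2 m c) List.length (deg3 m c) plD (d3 m c) χ Sum.inl
      (fun _ => 1) 0 e2 hχ ?_ ?_ ?_ ?_ ?_ ?_ u
    · rw [if_pos (by decide)] at h8
      exact h8.2 tI
    · exact Sum.inl_injective.injOn.bijOn_image
    · exact fun _ _ _ => rfl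
    · exact fun _ _ => rfl
    · exact fun _ _ => Or.inl rfl
    · exact fun _ _ _ => rfl
    · intro l _ l' _
      change plD l l' = _
      rw [one_mul, one_mul]
  exact hmul u u tA t2

end Pool.Agent.Lib.MP_39dc45_gt.SP
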