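import Pool.Agent.Lib.MP_39dc45_gt.SP.StA

/-!
# MP_39dc45_gt: the simplicial map of the spheres (finite checks)
-/

noncomputable section

namespace Pool.Agent.Lib.MP_39dc45_gt.SP

namespace KfAux

/-! ## General facts -/

theorem asym_optR {V : Type} {R : V → V → Prop} (h : Asym R) : Asym (optR R) := by
  intro a b h1 h2
  cases a <;> cases b
  · exact h1
  · exact h2
  · exact h1
  · exact h _ _ h1 h2

theorem rle_antisymm {V : Type} {R : V → V → Prop} (h : Asym R) {a b : V} (h1 : Rle R a b)
    (h2 : Rle R b a) : a = b := by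
  rcases h1 with h1 | h1
  · exact h1
  · rcases h2 with h2 | h2
    · exact h2.symm
    · exact absurd h2 (h _ _ h1)

theorem asym_prodR {V W : Type} {RV : V → V → Prop} {RW : W → W → Prop} (hV : Asym RV)
    (hW : Asym RW) : Asym (prodR RV RW) := by
  rintro a b ⟨h1, h2, h3⟩ ⟨_, h5, h6⟩
  exact h1 (Prod.ext (rle_antisymm hV h2 h5) (rle_antisymm hW h3 h6))

theorem asym_kpR {A B : Type} {RA : A → A → Prop} {RB : B → B → Prop} (hA : Asym RA)
    (hB : Asym RB) : Asym (kpR RA RB) := fun a b h1 h2 =>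
  asym_prodR (asym_optR hA) (asym_optR hB) a.1 b.1 h1 h2

theorem asym_sumR {V W : Type} {RV : V → V → Prop} {RW : W → W → Prop} (hV : Asym RV)
    (hW : Asym RW) : Asym (sumR RV RW) := by
  intro a b h1 h2
  rcases a with a | a <;> rcases b with b | b
  · exact hV _ _ h1 h2
  · exact h2
  · exact h1
  · exact hW _ _ h1 h2

section act
variable {Γ : Type} [Group Γ] {A B : Type} [MulAction Γ A] [MulAction Γ B]

theorem inv_optR {R : A → A → Prop} (h : Inv Γ R) : Inv Γ (optR R) := by
  intro γ a b h1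
  rcases a with _ | a <;> rcases b with _ | b
  · exact h1
  · exact trivial
  · exact h1
  · exact h γ a b h1

theorem inv_rle {R : A → A → Prop} (h : Inv Γ R) (γ : Γ) {a b : A} (h1 : Rle R a b) :
    Rle R (γ • a) (γ • b) := by
  rcases h1 with h1 | h1
  · exact Or.inl (by rw [h1])
  · exact Or.inr (h γ a b h1)

theorem inv_prodR {RA : A → A → Prop} {RB : B → B → Prop} (hA : Inv Γ RA) (hB : Inv Γ RB) :
    Inv Γ (prodR RA RB) := by
  rintro γ a b ⟨h1, h2, h3⟩
  refine ⟨fun h => h1 (smul_left_cancel γ h), ?_, ?_⟩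
  · exact inv_rle hA γ h2
  · exact inv_rle hB γ h3

theorem inv_kpR {RA : A → A → Prop} {RB : B → B → Prop} (hA : Inv Γ RA) (hB : Inv Γ RB) :
    Inv Γ (kpR RA RB) := fun γ a b h =>
  inv_prodR (inv_optR hA) (inv_optR hB) γ a.1 b.1 h

theorem inv_sumR {RA : A → A → Prop} {RB : B → B → Prop} (hA : Inv Γ RA) (hB : Inv Γ RB) :
    Inv Γ (sumR RA RB) := by
  intro γ a b h1
  rcases a with a | a <;> rcases b with b | b
  · exact hA γ a b h1
  · exact trivial
  · exact h1
  · exact hB γ a b h1

theorem free_kp (hA : Free Γ A) (hB : Free Γ B) : Free Γ (Kp A B) := by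
  rintro γ ⟨⟨x, y⟩, hp⟩ h
  have h1 : (γ • x, γ • y) = (x, y) := congrArg Subtype.val h
  have hx : γ • x = x := congrArg Prod.fst h1
  have hy : γ • y = y := congrArg Prod.snd h1
  rcases x with _ | a
  · rcases y with _ | b
    · exact absurd rfl hp
    · exact hB γ b (Option.some.inj hy)
  · exact hA γ a (Option.some.inj hx)

theorem free_sum (hA : Free Γ A) (hB : Free Γ B) : Free Γ (A ⊕ B) := by
  rintro γ (a | b) h
  · exact hA γ a (Sum.inl.inj h)
  · exact hB γ b (Sum.inr.inj h)

end act

/-! ## Finite checks -/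

/-- The boolean order relation of the fence with 10 points. -/
def le10 (a b : F10) : Bool := decide (a = b ∨ fenR 10 4 a b)

theorem le10_iff {a b : F10} (h : le10 a b = true) : Rle (fenR 10 4) a b :=
  of_decide_eq_true (p := a = b ∨ fenR 10 4 a b) h

theorem tau_chk : ∀ s : F30, Even s.val →
    le10 (tauF s) (tauF (s + Fen.of 30 6 1)) = true ∧
    le10 (tauF s) (tauF (s - Fen.of 30 6 1)) = true := by
  decide +kernel

theorem neg_chk : ∀ s : F30, Even s.val →
    le10 (negF s) (negF (s + Fen.of 30 6 1)) = true ∧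
    le10 (negF s) (negF (s - Fen.of 30 6 1)) = true := by
  decide +kernel

theorem kap_chk : ∀ s r : F30,
    (Even s.val → le10 (kapF s r) (kapF (s + Fen.of 30 6 1) r) = true ∧
      le10 (kapF s r) (kapF (s - Fen.of 30 6 1) r) = true) ∧
    (Even r.val → le10 (kapF s r) (kapF s (r + Fen.of 30 6 1)) = true ∧
      le10 (kapF s r) (kapF s (r - Fen.of 30 6 1)) = true) ∧
    (Even s.val → Even r.val →
      le10 (kapF s r) (kapF (s + Fen.of 30 6 1) (r + Fen.of 30 6 1)) = true ∧
      le10 (kapF s r) (kapF (s - Fen.of 30 6 1) (r + Fen.of 30 6 1)) = true ∧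
      le10 (kapF s r) (kapF (s + Fen.of 30 6 1) (r - Fen.of 30 6 1)) = true ∧
      le10 (kapF s r) (kapF (s - Fen.of 30 6 1) (r - Fen.of 30 6 1)) = true) := by
  decide +kernel

theorem tau_eqv : ∀ (g : Cyc 5) (s : F30), tauF (g • s) = g • tauF s := by
  decide +kernel

theorem neg_eqv : ∀ (g : Cyc 5) (s : F30), negF (g • s) = g • negF s := by
  decide +kernel

theorem kap_eqv : ∀ (g : Cyc 5) (s r : F30), kapF (g • s) (g • r) = g • kapF s r := by
  decide +kernel

theorem tau_simp {s s' : F30} (h : Rle (fenR 30 6) s s') : Rle (fenR 10 4) (tauF s) (tauF s') := by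
  rcases h with rfl | ⟨he, rfl | rfl⟩
  · exact Or.inl rfl
  · exact le10_iff (tau_chk s he).1
  · exact le10_iff (tau_chk s he).2

theorem neg_simp {s s' : F30} (h : Rle (fenR 30 6) s s') : Rle (fenR 10 4) (negF s) (negF s') := by
  rcases h with rfl | ⟨he, rfl | rfl⟩
  · exact Or.inl rfl
  · exact le10_iff (neg_chk s he).1
  · exact le10_iff (neg_chk s he).2

theorem kap_simp {s s' r r' : F30} (h : Rle (fenR 30 6) s s') (h' : Rle (fenR 30 6) r r') :
    Rle (fenR 10 4) (kapF s r) (kapF s' r') := by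
  rcases h with rfl | ⟨he, rfl | rfl⟩
  · rcases h' with rfl | ⟨he', rfl | rfl⟩
    · exact Or.inl rfl
    · exact le10_iff ((kap_chk s r).2.1 he').1
    · exact le10_iff ((kap_chk s r).2.1 he').2
  · rcases h' with rfl | ⟨he', rfl | rfl⟩
    · exact le10_iff ((kap_chk s r).1 he).1
    · exact le10_iff ((kap_chk s r).2.2 he he').1
    · exact le10_iff ((kap_chk s r).2.2 he he').2.2.1
  · rcases h' with rfl | ⟨he', rfl | rfl⟩
    · exact le10_iff ((kap_chk s r).1 he).2
    · exact le10_iff ((kap_chk s r).2.2 he he').2.1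
    · exact le10_iff ((kap_chk s r).2.2 he he').2.2.2

/-! ## The map -/

theorem rle_some {V : Type} {R : V → V → Prop} {a b : V} (h : Rle (optR R) (some a) (some b)) :
    Rle R a b := by
  rcases h with h | h
  · exact Or.inl (Option.some.inj h)
  · exact Or.inr h

theorem not_rle_none {V : Type} {R : V → V → Prop} {a : V} (h : Rle (optR R) (some a) none) :
    False := by
  rcases h with h | h
  · exact absurd h (by simp)
  · exact h

theorem rle_inl {V W : Type} {RV : V → V → Prop} {RW : W → W → Prop} {a b : V}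
    (h : Rle RV a b) : Rle (sumR RV RW) (Sum.inl a) (Sum.inl b) := by
  rcases h with h | h
  · exact Or.inl (by rw [h])
  · exact Or.inr h

theorem rle_inr {V W : Type} {RV : V → V → Prop} {RW : W → W → Prop} {a b : W}
    (h : Rle RW a b) : Rle (sumR RV RW) (Sum.inr a) (Sum.inr b) := by
  rcases h with h | h
  · exact Or.inl (by rw [h])
  · exact Or.inr h

theorem simp_fK : IsSimp RS RT fK := by
  rintro ⟨⟨x, y⟩, hp⟩ ⟨⟨x', y'⟩, hp'⟩ ⟨_, h1, h2⟩
  change Rle (optR (fenR 30 6)) x x' at h1
  change Rle (optR (fenR 30 6)) y y' at h2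
  rcases x with _ | s
  · rcases y with _ | r
    · exact absurd rfl hp
    · rcases y' with _ | r'
      · exact (not_rle_none h2).elim
      · rcases x' with _ | s'
        · exact rle_inl (neg_simp (rle_some h2))
        · exact Or.inr trivial
  · rcases x' with _ | s'
    · exact (not_rle_none h1).elim
    · rcases y with _ | r
      · rcases y' with _ | r'
        · exact rle_inl (tau_simp (rle_some h1))
        · exact Or.inr trivial
      · rcases y' with _ | r'
        · exact (not_rle_none h2).elim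
        · exact rle_inr (kap_simp (rle_some h1) (rle_some h2))

theorem equi_fK : Equi (Cyc 5) fK := by
  rintro γ ⟨⟨x, y⟩, hp⟩
  rcases x with _ | s
  · rcases y with _ | r
    · exact absurd rfl hp
    · exact congrArg Sum.inl (neg_eqv γ r)
  · rcases y with _ | r
    · exact congrArg Sum.inl (tau_eqv γ s)
    · exact congrArg Sum.inr (kap_eqv γ s r)

end KfAux

open KfAux in
/-- The combinatorics of the simplicial map of the spheres. -/
theorem stKf : StFen0 → StKf := by
  rintro ⟨h, -⟩
  obtain ⟨a1, a2, a3⟩ := h 30 6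
  obtain ⟨b1, b2, b3⟩ := h 10 4
  exact ⟨asym_kpR a1 a1, asym_sumR b1 b1, inv_kpR a2 a2, inv_sumR b2 b2, free_kp a3 a3,
    free_sum b3 b3, simp_fK, equi_fK⟩

end Pool.Agent.Lib.MP_39dc45_gt.SP
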