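import Pool.Agent.Lib.MP_39dc45_gt.SP.StT

/-!
# MP_39dc45_gt: linear homotopies
-/

open scoped Topology
open Matrix

noncomputable section

namespace Pool.Agent.Lib.MP_39dc45_gt.SP

theorem stLin : StS3 → StLin := by
  intro h P Q P' Q' cP cQ cP' cQ' eP eQ eP' eQ' hseg
  obtain ⟨-, -, -, -, hrot, -, -, -, hmul, hcont, -⟩ := h
  have hne : ∀ (s : Sph 3) (t : ℝ), 0 ≤ t → t ≤ 1 →
      (((1 - t : ℂ) * P (zc s) (wc s) + t * P' (zc s) (wc s),
        (1 - t : ℂ) * Q (zc s) (wc s) + t * Q' (zc s) (wc s)) : ℂ × ℂ) ≠ 0 := by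
    intro s t h0 h1 h
    exact hseg s t h0 h1 ⟨congrArg Prod.fst h, congrArg Prod.snd h⟩
  have hc := hcont (Sph 3 × unitInterval)
    (fun x => (1 - ((x.2 : ℝ) : ℂ)) * P (zc x.1) (wc x.1) + ((x.2 : ℝ) : ℂ) * P' (zc x.1) (wc x.1))
    (fun x => (1 - ((x.2 : ℝ) : ℂ)) * Q (zc x.1) (wc x.1) + ((x.2 : ℝ) : ℂ) * Q' (zc x.1) (wc x.1))
    (by
      have a := cP.comp (continuous_fst (X := Sph 3) (Y := unitInterval))
      have b := cP'.comp (continuous_fst (X := Sph 3) (Y := unitInterval))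
      have c : Continuous (fun x : Sph 3 × unitInterval => ((x.2 : ℝ) : ℂ)) :=
        Complex.continuous_ofReal.comp (continuous_subtype_val.comp continuous_snd)
      exact ((continuous_const.sub c).mul a).add (c.mul b))
    (by
      have a := cQ.comp (continuous_fst (X := Sph 3) (Y := unitInterval))
      have b := cQ'.comp (continuous_fst (X := Sph 3) (Y := unitInterval))
      have c : Continuous (fun x : Sph 3 × unitInterval => ((x.2 : ℝ) : ℂ)) :=
        Complex.continuous_ofReal.comp (continuous_subtype_val.comp continuous_snd)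
      exact ((continuous_const.sub c).mul a).add (c.mul b))
    (fun x => hne x.1 x.2 x.2.2.1 x.2.2.2)
  refine ⟨⟨_, hc⟩, ?_, ?_, ?_⟩
  · intro s
    show toS _ _ = toS _ _
    simp
  · intro s
    show toS _ _ = toS _ _
    simp
  · intro u hu s t
    have hu1 : (u : ℂ) ^ 5 = 1 := by
      have := congrArg (fun v : Circle => (v : ℂ)) hu
      simpa using this
    have hu2 : ‖(u : ℂ)‖ = 1 := Circle.norm_coe u
    show toS ((1 - ((t : ℝ) : ℂ)) * P (zc (rotH u s)) (wc (rotH u s)) +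
        ((t : ℝ) : ℂ) * P' (zc (rotH u s)) (wc (rotH u s)))
      ((1 - ((t : ℝ) : ℂ)) * Q (zc (rotH u s)) (wc (rotH u s)) +
        ((t : ℝ) : ℂ) * Q' (zc (rotH u s)) (wc (rotH u s))) = rotH u (toS
      ((1 - ((t : ℝ) : ℂ)) * P (zc s) (wc s) + ((t : ℝ) : ℂ) * P' (zc s) (wc s))
      ((1 - ((t : ℝ) : ℂ)) * Q (zc s) (wc s) + ((t : ℝ) : ℂ) * Q' (zc s) (wc s)))
    rw [← hmul u _ _ (hne s t t.2.1 t.2.2), (hrot u s).1, (hrot u s).2, eP _ hu1 hu2,
      eQ _ hu1 hu2, eP' _ hu1 hu2, eQ' _ hu1 hu2]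
    congr 1 <;> ring

end Pool.Agent.Lib.MP_39dc45_gt.SP
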