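import Pool.Agent.Lib.MP_39dc45_gt.SP.StA

/-!
# MP_39dc45_gt: independence of the contraction
-/

open Matrix

noncomputable section

namespace Pool.Agent.Lib.MP_39dc45_gt.SP

namespace M1

variable {J : Type} [Fintype J] [DecidableEq J]

omit [DecidableEq J] in
/-- A sum over a subtype. -/
theorem sum_sub (Q : J → Prop) [DecidablePred Q] (f : J → F31) (h : ∀ x, f x ≠ 0 → Q x) :
    ∑ x, f x = ∑ l : {j // Q j}, f l.1 := by
  rw [← Finset.sum_subtype (Finset.univ.filter Q) (by simp) f]
  symm
  apply Finset.sum_subset (Finset.subset_univ _)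
  intro x _ hx
  by_contra hne
  exact hx (by simp [h x hne])

omit [DecidableEq J] in
/-- A matrix respecting `Q`: products of submatrices. -/
theorem sub_mul (Q : J → Prop) [DecidablePred Q] (A B : Matrix J J F31)
    (hA : ∀ i j, A i j ≠ 0 → (Q i ↔ Q j)) : sub Q (A * B) = sub Q A * sub Q B := by
  ext i j
  simp only [sub, Matrix.of_apply, Matrix.mul_apply]
  exact sum_sub Q (fun l => A i.1 l * B l j.1)
    (fun x hne => (hA _ _ (left_ne_zero_of_mul hne)).1 i.2)

omit [Fintype J] in
theorem sub_one (Q : J → Prop) [DecidablePred Q] : sub Q (1 : Matrix J J F31) = 1 := by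
  ext i j
  simp only [sub, Matrix.of_apply, Matrix.one_apply, Subtype.ext_iff]

theorem raise_pow (deg : J → ℕ) (M : Matrix J J F31)
    (hM : ∀ i j, M i j ≠ 0 → deg i + 1 ≤ deg j) :
    ∀ m i j, (M ^ m) i j ≠ 0 → deg i + m ≤ deg j := by
  intro m
  induction m with
  | zero =>
    intro i j h
    have : i = j := by
      by_contra hne
      exact h (by simp [Matrix.one_apply_ne hne])
    rw [this]
    omega
  | succ m ih =>
    intro i j h
    rw [pow_succ, Matrix.mul_apply] at h
    obtain ⟨l, -, hl⟩ := Finset.exists_ne_zero_of_sum_ne_zero h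
    have h1 := ih i l (left_ne_zero_of_mul hl)
    have h2 := hM l j (right_ne_zero_of_mul hl)
    omega

theorem raise_nil (deg : J → ℕ) (M : Matrix J J F31)
    (hM : ∀ i j, M i j ≠ 0 → deg i + 1 ≤ deg j) : IsNilpotent M := by
  refine ⟨Finset.univ.sup deg + 1, ?_⟩
  ext i j
  by_contra h
  have h1 := raise_pow deg M hM _ i j h
  have h2 : deg j ≤ Finset.univ.sup deg := Finset.le_sup (Finset.mem_univ j)
  omega

theorem det_one_add {K : Type} [Fintype K] [DecidableEq K] (N : Matrix K K F31)
    (hN : IsNilpotent N) : (1 + N).det = 1 := by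
  have h1 : IsNilpotent (-N) := hN.neg
  have h2 := Matrix.isNilpotent_charpoly_sub_pow_of_isNilpotent h1
  have h3 : (-N).charpoly - Polynomial.X ^ (Fintype.card K) = 0 := h2.eq_zero
  have h4 : (-N).charpoly = Polynomial.X ^ (Fintype.card K) := sub_eq_zero.1 h3
  have h5 := Matrix.eval_charpoly (-N) 1
  rw [h4] at h5
  simp only [Polynomial.eval_pow, Polynomial.eval_X, one_pow] at h5
  rw [sub_neg_eq_add] at h5
  rw [h5]
  simp

/-- The odd-to-even block. -/
def ob (Q : J → Prop) (A : Matrix J J F31) : Matrix {j // Q j} {j // ¬ Q j} F31 :=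
  Matrix.of fun i j => A i.1 j.1

/-- The even-to-odd block. -/
def eb (Q : J → Prop) (A : Matrix J J F31) : Matrix {j // ¬ Q j} {j // Q j} F31 :=
  Matrix.of fun i j => A i.1 j.1

theorem key (deg : J → ℕ) (D S S' : Matrix J J F31) (hD : Cx deg D) (hS : Contr deg D S)
    (hS' : Contr deg D S') (Q : J → Prop) [DecidablePred Q]
    (hQ : ∀ i j, (Even (deg i) ↔ Even (deg j)) → (Q i ↔ Q j)) :
    (sub Q ((D + S') * (D + S))).det = 1 := by
  have e1 : D * S + S * D = 1 := hS.eq
  have e2 : D * S' + S' * D = 1 := hS'.eq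
  have e3 : D * D = 0 := hD.sq
  have g1 : D * S' * D = D := by
    have : D * (D * S' + S' * D) = D := by rw [e2, mul_one]
    calc D * S' * D = (1 - S' * D) * D := by rw [← e2]; noncomm_ring
      _ = D - S' * (D * D) := by noncomm_ring
      _ = D := by rw [e3]; simp
  have g2 : D * S * D = D := by
    calc D * S * D = (1 - S * D) * D := by rw [← e1]; noncomm_ring
      _ = D - S * (D * D) := by noncomm_ring
      _ = D := by rw [e3]; simp
  set X : Matrix J J F31 := (S' - S) * D with hX
  set Y : Matrix J J F31 := S' * S with hY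
  have hXX : X * X = 0 := by
    calc X * X = (S' - S) * (D * S' * D - D * S * D) := by rw [hX]; noncomm_ring
      _ = 0 := by rw [g1, g2]; simp
  have hprod : (D + S') * (D + S) = 1 + (X + Y) := by
    calc (D + S') * (D + S) = D * D + (D * S + S * D) + ((S' - S) * D + S' * S) := by
          noncomm_ring
      _ = 1 + (X + Y) := by rw [e3, e1]; simp [hX, hY]
  have dX : ∀ i j, X i j ≠ 0 → deg i = deg j := by
    intro i j h
    rw [hX, Matrix.mul_apply] at h
    obtain ⟨l, -, hl⟩ := Finset.exists_ne_zero_of_sum_ne_zero h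
    have h1 := left_ne_zero_of_mul hl
    have h2 := hD.deg_D l j (right_ne_zero_of_mul hl)
    rw [Matrix.sub_apply] at h1
    have h3 : S' i l ≠ 0 ∨ S i l ≠ 0 := by
      by_contra hc
      push Not at hc
      exact h1 (by rw [hc.1, hc.2, sub_zero])
    rcases h3 with h3 | h3
    · have := hS'.deg_S i l h3
      omega
    · have := hS.deg_S i l h3
      omega
  have dY : ∀ i j, Y i j ≠ 0 → deg j = deg i + 2 := by
    intro i j h
    rw [hY, Matrix.mul_apply] at h
    obtain ⟨l, -, hl⟩ := Finset.exists_ne_zero_of_sum_ne_zero h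
    have h1 := hS'.deg_S i l (left_ne_zero_of_mul hl)
    have h2 := hS.deg_S l j (right_ne_zero_of_mul hl)
    omega
  have dN : ∀ i j, (X + Y) i j ≠ 0 → deg j = deg i ∨ deg j = deg i + 2 := by
    intro i j h
    rw [Matrix.add_apply] at h
    by_cases hx : X i j = 0
    · right
      apply dY
      intro hy
      exact h (by rw [hx, hy, add_zero])
    · left
      exact (dX i j hx).symm
  have hN : IsNilpotent (X + Y) := by
    have hsq : (X + Y) ^ 2 = X * Y + (Y * X + Y * Y) := by
      calc (X + Y) ^ 2 = X * X + (X * Y + (Y * X + Y * Y)) := by noncomm_ring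
        _ = _ := by rw [hXX, zero_add]
    have hn : IsNilpotent ((X + Y) ^ 2) := by
      apply raise_nil deg
      intro i j h
      rw [hsq, Matrix.add_apply, Matrix.add_apply] at h
      have h3 : (X * Y) i j ≠ 0 ∨ (Y * X) i j ≠ 0 ∨ (Y * Y) i j ≠ 0 := by
        by_contra hc
        push Not at hc
        exact h (by rw [hc.1, hc.2.1, hc.2.2]; simp)
      rcases h3 with h3 | h3 | h3
      · rw [Matrix.mul_apply] at h3
        obtain ⟨l, -, hl⟩ := Finset.exists_ne_zero_of_sum_ne_zero h3
        have h1 := dX i l (left_ne_zero_of_mul hl)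
        have h2 := dY l j (right_ne_zero_of_mul hl)
        omega
      · rw [Matrix.mul_apply] at h3
        obtain ⟨l, -, hl⟩ := Finset.exists_ne_zero_of_sum_ne_zero h3
        have h1 := dY i l (left_ne_zero_of_mul hl)
        have h2 := dX l j (right_ne_zero_of_mul hl)
        omega
      · rw [Matrix.mul_apply] at h3
        obtain ⟨l, -, hl⟩ := Finset.exists_ne_zero_of_sum_ne_zero h3
        have h1 := dY i l (left_ne_zero_of_mul hl)
        have h2 := dY l j (right_ne_zero_of_mul hl)
        omega
    obtain ⟨k, hk⟩ := hn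
    exact ⟨2 * k, by rw [pow_mul, hk]⟩
  have hQN : ∀ i j, (X + Y) i j ≠ 0 → (Q i ↔ Q j) := by
    intro i j h
    apply hQ
    rcases dN i j h with h1 | h1
    · rw [h1]
    · rw [h1]
      constructor
      · intro he
        exact he.add (by decide)
      · intro he
        rw [Nat.even_add] at he
        exact he.2 (by decide)
  obtain ⟨m, hm⟩ := hN
  have hpow : ∀ m, sub Q ((X + Y) ^ m) = (sub Q (X + Y)) ^ m := by
    intro m
    induction m with
    | zero => rw [pow_zero, pow_zero, sub_one]
    | succ m ih => rw [pow_succ', pow_succ', sub_mul Q _ _ hQN, ih]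
  have hnil : IsNilpotent (sub Q (X + Y)) := by
    refine ⟨m, ?_⟩
    rw [← hpow, hm]
    ext i j
    simp [sub]
  have hadd : sub Q (1 + (X + Y)) = 1 + sub Q (X + Y) := by
    rw [← sub_one Q]
    ext i j
    simp [sub]
  rw [hprod, hadd]
  exact det_one_add _ hnil

omit [DecidableEq J] in
/-- Off-diagonal blocks. -/
theorem prod_blocks (Q : J → Prop) [DecidablePred Q] (A B : Matrix J J F31)
    (hA : ∀ i j, A i j ≠ 0 → (Q i ↔ ¬ Q j)) :
    sub Q (A * B) = ob Q A * eb Q B := by
  ext i j
  simp only [sub, ob, eb, Matrix.of_apply, Matrix.mul_apply]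
  exact sum_sub (fun l => ¬ Q l) (fun l => A i.1 l * B l j.1)
    (fun x hne => (hA _ _ (left_ne_zero_of_mul hne)).1 i.2)

end M1

open M1 in
theorem stM1 : StM1 := by
  intro J _ _ deg D hD
  have par : ∀ S, Contr deg D S → ∀ i j, (D + S) i j ≠ 0 →
      (Odd (deg i) ↔ ¬ Odd (deg j)) := by
    intro S hS i j h
    rw [Matrix.add_apply] at h
    have h3 : D i j ≠ 0 ∨ S i j ≠ 0 := by
      by_contra hc
      push Not at hc
      exact h (by rw [hc.1, hc.2, add_zero])
    rcases h3 with h3 | h3
    · have := hD.deg_D i j h3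
      rw [this]
      simp only [Nat.odd_iff]
      omega
    · have := hS.deg_S i j h3
      rw [this]
      simp only [Nat.odd_iff]
      omega
  have hQo : ∀ i j, (Even (deg i) ↔ Even (deg j)) → (Odd (deg i) ↔ Odd (deg j)) := by
    intro i j h
    rw [← Nat.not_even_iff_odd, ← Nat.not_even_iff_odd, h]
  have hQe : ∀ i j, (Even (deg i) ↔ Even (deg j)) → (¬ Odd (deg i) ↔ ¬ Odd (deg j)) := by
    intro i j h
    rw [hQo i j h]
  have hdet : ∀ S S', Contr deg D S → Contr deg D S' →
      (ob (fun j => Odd (deg j)) (D + S') * eb (fun j => Odd (deg j)) (D + S)).det = 1 := by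
    intro S S' hS hS'
    rw [← prod_blocks (fun j => Odd (deg j)) _ _ (par S' hS')]
    exact key deg D S S' hD hS hS' _ hQo
  have hmain : ∀ S S', Contr deg D S → Contr deg D S' → ∀ e : Ods deg ≃ Evs deg,
      (blk deg (D + S') e).det * ((eb (fun j => Odd (deg j)) (D + S)).submatrix e id).det
        = 1 := by
    intro S S' hS hS' e
    have h1 := hdet S S' hS hS'
    have h2 : blk deg (D + S') e = (ob (fun j => Odd (deg j)) (D + S')).submatrix id e := by
      ext i j
      rfl
    rw [h2, ← Matrix.det_mul, Matrix.submatrix_mul_equiv, Matrix.submatrix_id_id]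
    exact h1
  have heq : ∀ S S', Contr deg D S → Contr deg D S' → ∀ e : Ods deg ≃ Evs deg,
      (blk deg (D + S') e).det = (blk deg (D + S) e).det := by
    intro S S' hS hS' e
    have h1 := hmain S S' hS hS' e
    have h2 := hmain S S hS hS e
    have h3 : ((eb (fun j => Odd (deg j)) (D + S)).submatrix e id).det ≠ 0 :=
      right_ne_zero_of_mul (h2.trans_ne one_ne_zero)
    exact mul_right_cancel₀ h3 (h1.trans h2.symm)
  have hperm : ∀ (A : Matrix J J F31) (e e' : Ods deg ≃ Evs deg),
      (blk deg A e').det ^ 10 = (blk deg A e).det ^ 10 := by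
    intro A e e'
    have h1 : blk deg A e' = (blk deg A e).submatrix id (e'.trans e.symm) := by
      ext i j
      simp [blk]
    rw [h1, Matrix.det_permute', mul_pow]
    have h2 : (((Equiv.Perm.sign (e'.trans e.symm) : ℤˣ) : ℤ) : F31) ^ 10 = 1 := by
      rcases Int.units_eq_one_or (Equiv.Perm.sign (e'.trans e.symm)) with h | h
      · rw [h]; simp
      · rw [h]; norm_num
    rw [h2, one_mul]
  refine ⟨?_, ?_, ?_⟩
  · rintro u u' ⟨S, hS, e, rfl⟩ ⟨S', hS', e', rfl⟩
    rw [hperm _ e' e, heq S' S hS' hS e']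
  · rintro u ⟨S, hS, e, rfl⟩
    exact pow_ne_zero _ (left_ne_zero_of_mul ((hmain S S hS hS e).trans_ne one_ne_zero))
  · intro S hS
    have h1 := hdet S S hS hS
    have hcard1 : Fintype.card (Ods deg) ≤ Fintype.card (Evs deg) := by
      have hu : IsUnit (ob (fun j => Odd (deg j)) (D + S) *
          eb (fun j => Odd (deg j)) (D + S)) := by
        rw [Matrix.isUnit_iff_isUnit_det, h1]
        exact isUnit_one
      have h2 := Matrix.rank_of_isUnit _ hu
      rw [← h2]
      exact (Matrix.rank_mul_le_left _ _).trans (Matrix.rank_le_card_width _)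
    have hcard2 : Fintype.card (Evs deg) ≤ Fintype.card (Ods deg) := by
      have h3 : (sub (fun j => ¬ Odd (deg j)) ((D + S) * (D + S))).det = 1 :=
        key deg D S S hD hS hS _ hQe
      have h4 : sub (fun j => ¬ Odd (deg j)) ((D + S) * (D + S))
          = eb (fun j => Odd (deg j)) (D + S) * ob (fun j => Odd (deg j)) (D + S) := by
        ext i j
        simp only [sub, ob, eb, Matrix.of_apply, Matrix.mul_apply]
        exact sum_sub (fun l => Odd (deg l)) (fun l => (D + S) i.1 l * (D + S) l j.1)
          (fun x hne => by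
            by_contra h6
            exact i.2 ((par S hS _ _ (left_ne_zero_of_mul hne)).2 h6))
      have hu : IsUnit (eb (fun j => Odd (deg j)) (D + S) *
          ob (fun j => Odd (deg j)) (D + S)) := by
        rw [Matrix.isUnit_iff_isUnit_det, ← h4, h3]
        exact isUnit_one
      have h2 := Matrix.rank_of_isUnit _ hu
      rw [← h2]
      exact (Matrix.rank_mul_le_left _ _).trans (Matrix.rank_le_card_width _)
    obtain ⟨e⟩ := Fintype.card_eq.1 (le_antisymm hcard1 hcard2)
    exact ⟨_, S, hS, e, rfl⟩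

end Pool.Agent.Lib.MP_39dc45_gt.SP
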