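import Pool.Agent.Lib.MP_39dc45_gt.SP.StA

/-!
# MP_39dc45_gt: two out of three for contractions
-/

open Matrix

noncomputable section

set_option linter.unusedSectionVars false

namespace Pool.Agent.Lib.MP_39dc45_gt.SP

namespace M2Aux

/-! ### Homogeneous rectangular matrices -/

section hg
variable {I J K R : Type} [CommRing R]

/-- The matrix raises the degree by `k`. -/
def Hg (d : I → ℕ) (d' : J → ℕ) (k : ℤ) (M : Matrix I J R) : Prop :=
  ∀ i j, M i j ≠ 0 → (d' j : ℤ) = d i + k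

lemma Hg.mul [Fintype J] {d : I → ℕ} {d' : J → ℕ} {d'' : K → ℕ} {k l : ℤ} {M : Matrix I J R}
    {N : Matrix J K R} (hM : Hg d d' k M) (hN : Hg d' d'' l N) : Hg d d'' (k + l) (M * N) := by
  intro i j h
  rw [Matrix.mul_apply] at h
  obtain ⟨x, _, hx⟩ := Finset.exists_ne_zero_of_sum_ne_zero h
  have h1 := hM i x (left_ne_zero_of_mul hx)
  have h2 := hN x j (right_ne_zero_of_mul hx)
  omega

lemma Hg.add {d : I → ℕ} {d' : J → ℕ} {k : ℤ} {M N : Matrix I J R}
    (hM : Hg d d' k M) (hN : Hg d d' k N) : Hg d d' k (M + N) := by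
  intro i j h
  by_cases h1 : M i j = 0
  · refine hN i j fun h2 => h ?_
    rw [Matrix.add_apply, h1, h2, add_zero]
  · exact hM i j h1

lemma Hg.neg {d : I → ℕ} {d' : J → ℕ} {k : ℤ} {M : Matrix I J R}
    (hM : Hg d d' k M) : Hg d d' k (-M) := by
  intro i j h
  refine hM i j fun h2 => h ?_
  rw [Matrix.neg_apply, h2, neg_zero]

lemma Hg.sub {d : I → ℕ} {d' : J → ℕ} {k : ℤ} {M N : Matrix I J R}
    (hM : Hg d d' k M) (hN : Hg d d' k N) : Hg d d' k (M - N) := by
  rw [sub_eq_add_neg]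
  exact hM.add hN.neg

end hg

/-! ### Blocks -/

section blocks
variable {J R : Type} [CommRing R] [Fintype J] [DecidableEq J] (Q : J → Prop) [DecidablePred Q]

/-- The block from `Q` to its complement. -/
def b12 (M : Matrix J J R) : Matrix {j // Q j} {j // ¬ Q j} R := Matrix.of fun i j => M i.1 j.1

/-- The block from the complement to `Q`. -/
def b21 (M : Matrix J J R) : Matrix {j // ¬ Q j} {j // Q j} R := Matrix.of fun i j => M i.1 j.1

/-- The matrix in block form. -/
def bf (M : Matrix J J R) :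
    Matrix ({j // Q j} ⊕ {j // ¬ Q j}) ({j // Q j} ⊕ {j // ¬ Q j}) R :=
  M.submatrix (Equiv.sumCompl Q) (Equiv.sumCompl Q)

lemma bf_eq (M : Matrix J J R) : bf Q M =
    Matrix.fromBlocks (SP.sub Q M) (b12 Q M) (b21 Q M) (SP.sub (fun j => ¬ Q j) M) := by
  ext i j
  rcases i with i | i <;> rcases j with j | j <;> rfl

lemma bf_mul (A B : Matrix J J R) : bf Q (A * B) = bf Q A * bf Q B :=
  (Matrix.submatrix_mul_equiv A B _ _ _).symm

lemma bf_add (A B : Matrix J J R) : bf Q (A + B) = bf Q A + bf Q B := rfl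

lemma bf_one : bf Q (1 : Matrix J J R) = 1 := Matrix.submatrix_one_equiv _

lemma bf_zero : bf Q (0 : Matrix J J R) = 0 := rfl

lemma bf_inj {A B : Matrix J J R} (h : bf Q A = bf Q B) : A = B := by
  ext i j
  have h1 := congrFun (congrFun h ((Equiv.sumCompl Q).symm i)) ((Equiv.sumCompl Q).symm j)
  simpa [bf] using h1

/-- The matrix with given blocks. -/
def mk (A : Matrix {j // Q j} {j // Q j} R) (B : Matrix {j // Q j} {j // ¬ Q j} R)
    (C : Matrix {j // ¬ Q j} {j // Q j} R) (E : Matrix {j // ¬ Q j} {j // ¬ Q j} R) :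
    Matrix J J R :=
  (Matrix.fromBlocks A B C E).submatrix (Equiv.sumCompl Q).symm (Equiv.sumCompl Q).symm

lemma bf_mk (A : Matrix {j // Q j} {j // Q j} R) (B : Matrix {j // Q j} {j // ¬ Q j} R)
    (C : Matrix {j // ¬ Q j} {j // Q j} R) (E : Matrix {j // ¬ Q j} {j // ¬ Q j} R) :
    bf Q (mk Q A B C E) = Matrix.fromBlocks A B C E := by
  ext i j
  simp [bf, mk]

lemma mk_sub (A : Matrix {j // Q j} {j // Q j} R) (B : Matrix {j // Q j} {j // ¬ Q j} R)
    (C : Matrix {j // ¬ Q j} {j // Q j} R) (E : Matrix {j // ¬ Q j} {j // ¬ Q j} R) :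
    SP.sub Q (mk Q A B C E) = A ∧ b12 Q (mk Q A B C E) = B ∧ b21 Q (mk Q A B C E) = C ∧
      SP.sub (fun j => ¬ Q j) (mk Q A B C E) = E := by
  have h := bf_mk Q A B C E
  rw [bf_eq, Matrix.fromBlocks_inj] at h
  exact h

end blocks

end M2Aux

open M2Aux in
theorem stM2 : StM2 := by
  intro J R _ _ _ deg D Q _ hD hQ
  set D1 := SP.sub Q D with hD1
  set D2 := SP.sub (fun j => ¬ Q j) D with hD2
  set C := b21 Q D with hC
  set dQ : {j // Q j} → ℕ := fun i => deg i with hdQ
  set dR : {j // ¬ Q j} → ℕ := fun i => deg i with hdR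
  have h12 : b12 Q D = 0 := by
    ext i j
    exact hQ i.1 j.1 i.2 j.2
  have hbD : bf Q D = Matrix.fromBlocks D1 0 C D2 := by rw [bf_eq, h12]
  have hsq : C * D1 + D2 * C = 0 := by
    have h1 : bf Q (D * D) = bf Q 0 := by rw [hD.sq]
    rw [bf_mul, hbD, bf_zero, ← Matrix.fromBlocks_zero, Matrix.fromBlocks_multiply,
      Matrix.fromBlocks_inj] at h1
    exact h1.2.2.1
  have hCD : D2 * C = -(C * D1) := by
    rw [eq_neg_iff_add_eq_zero, add_comm]
    exact hsq
  have hgC : Hg dR dQ (-1) C := by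
    intro i j h
    have := hD.deg_D i.1 j.1 h
    simp only [hdQ, hdR]
    omega
  -- contractions in block form
  have key : ∀ S : Matrix J J R, D * S + S * D = 1 ↔
      (D1 * SP.sub Q S + (SP.sub Q S * D1 + b12 Q S * C) = 1 ∧
        D1 * b12 Q S + b12 Q S * D2 = 0 ∧
        (C * SP.sub Q S + D2 * b21 Q S) +
          (b21 Q S * D1 + SP.sub (fun j => ¬ Q j) S * C) = 0 ∧
        (C * b12 Q S + D2 * SP.sub (fun j => ¬ Q j) S) + SP.sub (fun j => ¬ Q j) S * D2 = 1) := by
    intro S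
    have h1 : D * S + S * D = 1 ↔ bf Q (D * S + S * D) = bf Q 1 :=
      ⟨fun h => by rw [h], fun h => bf_inj Q h⟩
    rw [h1, bf_add, bf_mul, bf_mul, hbD, bf_eq Q S, bf_one, ← Matrix.fromBlocks_one,
      Matrix.fromBlocks_multiply, Matrix.fromBlocks_multiply, Matrix.fromBlocks_add,
      Matrix.fromBlocks_inj]
    simp only [Matrix.zero_mul, Matrix.mul_zero, add_zero, zero_add]
  have hgS : ∀ S : Matrix J J R, (∀ i j, S i j ≠ 0 → deg j = deg i + 1) →
      Hg dQ dQ 1 (SP.sub Q S) ∧ Hg dQ dR 1 (b12 Q S) ∧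
        Hg dR dR 1 (SP.sub (fun j => ¬ Q j) S) := by
    intro S hS
    refine ⟨?_, ?_, ?_⟩ <;>
    · intro i j h
      have := hS i.1 j.1 h
      simp only [hdQ, hdR]
      omega
  have hgC1 : ∀ S1, Contr dQ D1 S1 → Hg dQ dQ 1 S1 := by
    intro S1 hS1 i j h
    have := hS1.deg_S i j h
    omega
  have hgC2 : ∀ S2, Contr dR D2 S2 → Hg dR dR 1 S2 := by
    intro S2 hS2 i j h
    have := hS2.deg_S i j h
    omega
  refine ⟨?_, ?_, ?_⟩
  · intro S1 S2 hS1 hS2
    set X := -(S2 * (C * S1 + S2 * C)) with hX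
    have hXg : Hg dR dQ 1 X := by
      have h1 := ((hgC2 S2 hS2).mul ((hgC.mul (hgC1 S1 hS1)).add
        ((hgC2 S2 hS2).mul hgC))).neg
      simpa using h1
    obtain ⟨m1, m2, m3, m4⟩ := mk_sub Q S1 0 X S2
    refine ⟨mk Q S1 0 X S2, ⟨?_, ?_⟩, ?_, m1, m4⟩
    · intro i j h
      by_cases hi : Q i <;> by_cases hj : Q j
      · have h1 : S1 ⟨i, hi⟩ ⟨j, hj⟩ ≠ 0 := by rw [← m1]; exact h
        exact hS1.deg_S _ _ h1
      · have h1 : (0 : Matrix {j // Q j} {j // ¬ Q j} R) ⟨i, hi⟩ ⟨j, hj⟩ ≠ 0 := by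
          rw [← m2]; exact h
        exact absurd rfl h1
      · have h1 : X ⟨i, hi⟩ ⟨j, hj⟩ ≠ 0 := by rw [← m3]; exact h
        have h2 := hXg _ _ h1
        simp only [hdQ, hdR] at h2
        omega
      · have h1 : S2 ⟨i, hi⟩ ⟨j, hj⟩ ≠ 0 := by rw [← m4]; exact h
        exact hS2.deg_S _ _ h1
    · rw [key, m1, m2, m3, m4]
      refine ⟨?_, ?_, ?_, ?_⟩
      · rw [Matrix.zero_mul, add_zero]
        exact hS1.eq
      · rw [Matrix.zero_mul, Matrix.mul_zero, add_zero]
      · have e1 : D1 * S1 = 1 - S1 * D1 := eq_sub_of_add_eq hS1.eq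
        have e2 : D2 * S2 = 1 - S2 * D2 := eq_sub_of_add_eq hS2.eq
        have e3 : D2 * X = -(C * S1 + S2 * C) + S2 * (D2 * C) * S1 + S2 * (D2 * S2) * C := by
          rw [hX, Matrix.mul_neg, ← Matrix.mul_assoc, e2, Matrix.sub_mul, Matrix.one_mul,
            Matrix.mul_assoc S2 D2, Matrix.mul_add]
          rw [← Matrix.mul_assoc D2 C S1, ← Matrix.mul_assoc D2 S2 C, Matrix.mul_add,
            ← Matrix.mul_assoc S2, ← Matrix.mul_assoc S2]
          rw [← e2, ← Matrix.mul_assoc S2 (D2 * S2) C]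
          abel
        have e4 : S2 * (D2 * C) * S1 = -(S2 * C) + S2 * C * S1 * D1 := by
          rw [hCD, Matrix.mul_neg, Matrix.neg_mul, ← Matrix.mul_assoc S2 C D1,
            Matrix.mul_assoc (S2 * C) D1 S1, e1, Matrix.mul_sub, Matrix.mul_one,
            ← Matrix.mul_assoc (S2 * C)]
          abel
        have e5 : S2 * (D2 * S2) * C = S2 * C + S2 * S2 * C * D1 := by
          rw [e2, Matrix.mul_sub, Matrix.mul_one, Matrix.sub_mul, ← Matrix.mul_assoc S2 S2 D2,
            Matrix.mul_assoc (S2 * S2) D2 C, hCD, Matrix.mul_neg, ← Matrix.mul_assoc (S2 * S2)]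
          abel
        have e6 : X * D1 = -(S2 * C * S1 * D1) - S2 * S2 * C * D1 := by
          rw [hX, Matrix.mul_add, Matrix.neg_mul, Matrix.add_mul, ← Matrix.mul_assoc S2 C S1,
            ← Matrix.mul_assoc S2 S2 C]
          abel
        rw [e3, e4, e5, e6]
        abel
      · rw [Matrix.mul_zero, zero_add]
        exact hS2.eq
    · intro i j hi hj
      exact congrFun (congrFun m2 ⟨i, hi⟩) ⟨j, hj⟩
  · intro S S1 hS hS1
    obtain ⟨g1, g2, g3⟩ := hgS S hS.deg_S
    obtain ⟨_, k2, _, k4⟩ := (key S).mp hS.eq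
    set e := SP.sub (fun j => ¬ Q j) S with he
    set b := b12 Q S with hb
    refine ⟨e - C * S1 * b, ?_, ?_⟩
    · have h1 := g3.sub ((hgC.mul (hgC1 S1 hS1)).mul g2)
      intro i j h
      have h2 : Hg dR dR 1 (e - C * S1 * b) := by
        refine g3.sub ?_
        have h3 := (hgC.mul (hgC1 S1 hS1)).mul g2
        simpa using h3
      have h4 := h2 i j h
      omega
    · have k2' : b * D2 = -(D1 * b) := by
        rw [eq_neg_iff_add_eq_zero, add_comm]
        exact k2
      have f1 : D2 * (C * S1 * b) = -(C * (D1 * S1) * b) := by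
        rw [← Matrix.mul_assoc, ← Matrix.mul_assoc, hCD, Matrix.neg_mul, Matrix.neg_mul,
          Matrix.mul_assoc C D1 S1]
      have f2 : C * S1 * b * D2 = -(C * (S1 * D1) * b) := by
        rw [Matrix.mul_assoc (C * S1) b D2, k2', Matrix.mul_neg, ← Matrix.mul_assoc,
          Matrix.mul_assoc C S1 D1]
      have f3 : C * (D1 * S1) * b + C * (S1 * D1) * b = C * b := by
        rw [← Matrix.add_mul, ← Matrix.mul_add, hS1.eq, Matrix.mul_one]
      rw [Matrix.mul_sub, Matrix.sub_mul, f1, f2]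
      calc D2 * e - -(C * (D1 * S1) * b) + (e * D2 - -(C * (S1 * D1) * b))
          = (C * (D1 * S1) * b + C * (S1 * D1) * b) + (D2 * e + e * D2) := by abel
        _ = 1 := by rw [f3, ← add_assoc]; exact k4
  · intro S S2 hS hS2
    obtain ⟨g1, g2, g3⟩ := hgS S hS.deg_S
    obtain ⟨k1, k2, _, _⟩ := (key S).mp hS.eq
    set a := SP.sub Q S with ha
    set b := b12 Q S with hb
    refine ⟨a - b * S2 * C, ?_, ?_⟩
    · intro i j h
      have h2 : Hg dQ dQ 1 (a - b * S2 * C) := by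
        refine g1.sub ?_
        have h3 := (g2.mul (hgC2 S2 hS2)).mul hgC
        simpa using h3
      have h4 := h2 i j h
      omega
    · have k2' : D1 * b = -(b * D2) := by
        rw [eq_neg_iff_add_eq_zero]
        exact k2
      have hCD' : C * D1 = -(D2 * C) := by rw [hCD, neg_neg]
      have f1 : D1 * (b * S2 * C) = -(b * (D2 * S2) * C) := by
        rw [← Matrix.mul_assoc, ← Matrix.mul_assoc, k2', Matrix.neg_mul, Matrix.neg_mul,
          Matrix.mul_assoc b D2 S2]
      have f2 : b * S2 * C * D1 = -(b * (S2 * D2) * C) := by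
        rw [Matrix.mul_assoc (b * S2) C D1, hCD', Matrix.mul_neg, ← Matrix.mul_assoc,
          Matrix.mul_assoc b S2 D2]
      have f3 : b * (D2 * S2) * C + b * (S2 * D2) * C = b * C := by
        rw [← Matrix.add_mul, ← Matrix.mul_add, hS2.eq, Matrix.mul_one]
      rw [Matrix.mul_sub, Matrix.sub_mul, f1, f2]
      calc D1 * a - -(b * (D2 * S2) * C) + (a * D1 - -(b * (S2 * D2) * C))
          = D1 * a + (a * D1 + (b * (D2 * S2) * C + b * (S2 * D2) * C)) := by abel
        _ = 1 := by rw [f3]; exact k1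

end Pool.Agent.Lib.MP_39dc45_gt.SP
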