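import Pool.Agent.Lib.MP_39dc45_gt.SP.StA

/-!
# MP_39dc45_gt: the torsion of a block triangular complex
-/

open Matrix

noncomputable section

namespace Pool.Agent.Lib.MP_39dc45_gt.SP

namespace M3

/-- A subtype is the disjoint union of its intersections with a subset and with its complement. -/
def spl {J : Type} (P Q : J → Prop) [DecidablePred Q] :
    {j // P j} ≃ {i : {j // Q j} // P i.1} ⊕ {i : {j // ¬ Q j} // P i.1} where
  toFun j := if h : Q j.1 then Sum.inl ⟨⟨j.1, h⟩, j.2⟩ else Sum.inr ⟨⟨j.1, h⟩, j.2⟩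
  invFun x := Sum.elim (fun i => ⟨i.1.1, i.2⟩) (fun i => ⟨i.1.1, i.2⟩) x
  left_inv j := by
    by_cases h : Q j.1
    · simp [h]
    · simp [h]
  right_inv x := by
    rcases x with ⟨⟨j, h⟩, h'⟩ | ⟨⟨j, h⟩, h'⟩
    · simp [h]
    · simp [h]

theorem det_eq {J : Type} [Fintype J] [DecidableEq J] (deg : J → ℕ) (A : Matrix J J F31)
    (Q : J → Prop) [DecidablePred Q] (hA : ∀ i j, Q i → ¬ Q j → A i j = 0)
    (e1 : Ods (fun i : {j // Q j} => deg i) ≃ Evs (fun i : {j // Q j} => deg i))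
    (e2 : Ods (fun i : {j // ¬ Q j} => deg i) ≃ Evs (fun i : {j // ¬ Q j} => deg i)) :
    (blk deg A ((spl (fun j => Odd (deg j)) Q).trans ((Equiv.sumCongr e1 e2).trans
      (spl (fun j => ¬ Odd (deg j)) Q).symm))).det =
      (blk (fun i : {j // Q j} => deg i) (sub Q A) e1).det *
        (blk (fun i : {j // ¬ Q j} => deg i) (sub (fun j => ¬ Q j) A) e2).det := by
  rw [← Matrix.det_submatrix_equiv_self (spl (fun j => Odd (deg j)) Q).symm]
  have h1 : (blk deg A ((spl (fun j => Odd (deg j)) Q).trans ((Equiv.sumCongr e1 e2).trans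
      (spl (fun j => ¬ Odd (deg j)) Q).symm))).submatrix (spl (fun j => Odd (deg j)) Q).symm
      (spl (fun j => Odd (deg j)) Q).symm =
      Matrix.fromBlocks (blk (fun i : {j // Q j} => deg i) (sub Q A) e1) 0
        (Matrix.of fun i j => A i.1.1 (e1 j).1.1)
        (blk (fun i : {j // ¬ Q j} => deg i) (sub (fun j => ¬ Q j) A) e2) := by
    ext a b
    rw [Matrix.submatrix_apply]
    simp only [blk, Matrix.of_apply, Equiv.trans_apply, Equiv.apply_symm_apply]
    rcases a with a | a <;> rcases b with b | b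
    · rfl
    · exact hA _ _ a.1.2 (e2 b).1.2
    · rfl
    · rfl
  rw [h1, Matrix.det_fromBlocks_zero₁₂]

end M3

theorem stM3 : StM1 → StM2 → StM3 := by
  intro _ h2 J _ _ deg D Q _ hD hQ u1 u2 ⟨S1, hS1, e1, he1⟩ ⟨S2, hS2, e2, he2⟩
  obtain ⟨S, hS, hSQ, hS1', hS2'⟩ := (h2 J F31 deg D Q hD hQ).1 S1 S2 hS1 hS2
  have h3 := M3.det_eq deg (D + S) Q (fun i j hi hj => by
    rw [Matrix.add_apply, hQ i j hi hj, hSQ i j hi hj, add_zero]) e1 e2
  have h4 : sub Q (D + S) = sub Q D + S1 := by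
    rw [← hS1']
    rfl
  have h5 : sub (fun j => ¬ Q j) (D + S) = sub (fun j => ¬ Q j) D + S2 := by
    rw [← hS2']
    rfl
  rw [h4, h5] at h3
  exact ⟨S, hS, _, by rw [he1, he2, ← mul_pow, ← h3]⟩

end Pool.Agent.Lib.MP_39dc45_gt.SP
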