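import Pool.Agent.Lib.MP_39dc45_gt.SP.StA

/-!
# MP_39dc45_gt: multiplicativity of the torsion for a filtration
-/

open Matrix

noncomputable section

namespace Pool.Agent.Lib.MP_39dc45_gt.SP

namespace M4

/-- The torsion is invariant under reindexing. -/
theorem reindex {J J' : Type} [Fintype J] [DecidableEq J] [Fintype J'] [DecidableEq J']
    (deg : J → ℕ) (deg' : J' → ℕ) (D : Matrix J J F31) (D' : Matrix J' J' F31) (e : J' ≃ J)
    (hdeg : ∀ j, deg' j = deg (e j)) (hD : ∀ i j, D' i j = D (e i) (e j)) (u : F31)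
    (h : TorM deg D u) : TorM deg' D' u := by
  obtain ⟨S, hS, e0, hu⟩ := h
  have hD' : D' = D.submatrix e e := by
    ext i j
    exact hD i j
  have hdeg' : deg' = fun j => deg (e j) := funext hdeg
  subst hD' hdeg'
  refine ⟨S.submatrix e e, ⟨fun i j hij => hS.deg_S _ _ hij, ?_⟩, ?_⟩
  · rw [Matrix.submatrix_mul_equiv, Matrix.submatrix_mul_equiv]
    change (D * S + S * D).submatrix e e = 1
    rw [hS.eq, Matrix.submatrix_one_equiv]
  · let eo : Ods (fun j => deg (e j)) ≃ Ods deg :=
      e.subtypeEquiv fun j => Iff.rfl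
    let ev : Evs (fun j => deg (e j)) ≃ Evs deg :=
      e.subtypeEquiv fun j => Iff.rfl
    refine ⟨eo.trans (e0.trans ev.symm), ?_⟩
    rw [hu]
    congr 1
    have h1 : blk (fun j => deg (e j)) (D.submatrix e e + S.submatrix e e)
        (eo.trans (e0.trans ev.symm)) = (blk deg (D + S) e0).submatrix eo eo := by
      ext i j
      have h2 : e ((ev.symm (e0 (eo j))).1) = (e0 (eo j)).1 := by
        have h3 : ev (ev.symm (e0 (eo j))) = e0 (eo j) := ev.apply_symm_apply _
        exact congrArg Subtype.val h3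
      show D (e i.1) (e (ev.symm (e0 (eo j))).1) + S (e i.1) (e (ev.symm (e0 (eo j))).1) =
        (D + S) (eo i).1 (e0 (eo j)).1
      rw [h2]
      rfl
    rw [h1, Matrix.det_submatrix_equiv_self]

theorem key (h3 : StM3) (J L : Type) [Fintype J] [DecidableEq J] [Fintype L] [DecidableEq L]
    (deg : J → ℕ) (D : Matrix J J F31) (p : J → L) (rk : L → ℕ) (hC : Cx deg D)
    (hp : ∀ i j, D i j ≠ 0 → p i = p j ∨ rk (p j) < rk (p i)) (u : L → F31)
    (hu : ∀ l, TorM (fun i : {j // p j = l} => deg i) (sub (fun j => p j = l) D) (u l))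
    (n : ℕ) : ∀ F : Finset L, F.card = n → (∀ l ∈ F, ∀ l' ∉ F, rk l' ≤ rk l) →
      TorM (fun i : {j // p j ∈ F} => deg i) (sub (fun j => p j ∈ F) D) (∏ l ∈ F, u l) := by
  induction n with
  | zero =>
    intro F hF _
    rw [Finset.card_eq_zero] at hF
    subst hF
    have : IsEmpty {j // p j ∈ (∅ : Finset L)} := ⟨fun x => absurd x.2 (Finset.notMem_empty _)⟩
    refine ⟨0, ⟨fun i => isEmptyElim i, Subsingleton.elim _ _⟩, ?_⟩
    have : IsEmpty (Ods (fun i : {j // p j ∈ (∅ : Finset L)} => deg i)) :=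
      ⟨fun x => isEmptyElim x.1⟩
    have : IsEmpty (Evs (fun i : {j // p j ∈ (∅ : Finset L)} => deg i)) :=
      ⟨fun x => isEmptyElim x.1⟩
    refine ⟨Equiv.equivOfIsEmpty _ _, ?_⟩
    rw [Matrix.det_isEmpty, one_pow, Finset.prod_empty]
  | succ n ih =>
    intro F hF hup
    have hne : F.Nonempty := Finset.card_pos.1 (by omega)
    obtain ⟨l0, hl0, hmin⟩ := Finset.exists_min_image F rk hne
    have hF' : (F.erase l0).card = n := by
      rw [Finset.card_erase_of_mem hl0, hF]; rfl
    have hup' : ∀ l ∈ F.erase l0, ∀ l' ∉ F.erase l0, rk l' ≤ rk l := by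
      intro l hl l' hl'
      have h1 := Finset.mem_of_mem_erase hl
      by_cases h2 : l' ∈ F
      · have h4 : l' = l0 := by
          by_contra h5
          exact hl' (Finset.mem_erase.2 ⟨h5, h2⟩)
        rw [h4]
        exact hmin l h1
      · exact hup l h1 l' h2
    have hih := ih (F.erase l0) hF' hup'
    -- the complex
    have hCF : Cx (fun i : {j // p j ∈ F} => deg i) (sub (fun j => p j ∈ F) D) := by
      refine ⟨fun i j hij => hC.deg_D _ _ hij, ?_⟩
      ext i k
      have h1 := congrFun (congrFun hC.sq i.1) k.1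
      rw [Matrix.mul_apply] at h1 ⊢
      rw [← Fintype.sum_subtype_add_sum_subtype (fun j => p j ∈ F)] at h1
      have h2 : ∑ j : {j // ¬ p j ∈ F}, D i.1 j.1 * D j.1 k.1 = 0 := by
        refine Finset.sum_eq_zero fun j _ => ?_
        by_cases h4 : D j.1 k.1 = 0
        · rw [h4, mul_zero]
        · exfalso
          rcases hp _ _ h4 with h5 | h5
          · exact j.2 (h5 ▸ k.2)
          · exact absurd (hup _ k.2 _ j.2) (not_le.2 h5)
      rw [h2, add_zero] at h1
      exact h1
    have hQ : ∀ i j : {j // p j ∈ F}, p i.1 = l0 → ¬ p j.1 = l0 →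
        sub (fun j => p j ∈ F) D i j = 0 := by
      intro i j hi hj
      by_contra h4
      rcases hp _ _ h4 with h5 | h5
      · exact hj (h5 ▸ hi)
      · rw [hi] at h5
        exact absurd (hmin _ j.2) (not_le.2 h5)
    have hmain := h3 {j // p j ∈ F} (fun i => deg i) (sub (fun j => p j ∈ F) D)
      (fun x => p x.1 = l0) hCF hQ (u l0) (∏ l ∈ F.erase l0, u l) ?_ ?_
    · rwa [Finset.mul_prod_erase F u hl0] at hmain
    · let e : {x : {j // p j ∈ F} // p x.1 = l0} ≃ {j // p j = l0} :=
        { toFun := fun x => ⟨x.1.1, x.2⟩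
          invFun := fun x => ⟨⟨x.1, by rw [x.2]; exact hl0⟩, x.2⟩
          left_inv := fun _ => rfl
          right_inv := fun _ => rfl }
      exact reindex _ _ _ _ e (fun _ => rfl) (fun _ _ => rfl) _ (hu l0)
    · let e : {x : {j // p j ∈ F} // ¬ p x.1 = l0} ≃ {j // p j ∈ F.erase l0} :=
        { toFun := fun x => ⟨x.1.1, Finset.mem_erase.2 ⟨x.2, x.1.2⟩⟩
          invFun := fun x => ⟨⟨x.1, Finset.mem_of_mem_erase x.2⟩, Finset.ne_of_mem_erase x.2⟩
          left_inv := fun _ => rfl
          right_inv := fun _ => rfl }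
      exact reindex _ _ _ _ e (fun _ => rfl) (fun _ _ => rfl) _ hih

end M4

/-- Multiplicativity for a filtration. -/
theorem stM4 (_h1 : StM1) (h3 : StM3) : StM4 := by
  intro J L _ _ _ _ deg D p rk hC hp u hu
  have h := M4.key h3 J L deg D p rk hC hp u hu _ Finset.univ rfl
    (fun _ _ l' hl' => absurd (Finset.mem_univ l') hl')
  let e : J ≃ {j // p j ∈ (Finset.univ : Finset L)} :=
    { toFun := fun x => ⟨x, Finset.mem_univ _⟩
      invFun := fun x => x.1
      left_inv := fun _ => rfl
      right_inv := fun _ => rfl }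
  exact M4.reindex _ _ _ _ e (fun _ => rfl) (fun _ _ => rfl) _ h

end Pool.Agent.Lib.MP_39dc45_gt.SP
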