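import Pool.Agent.Lib.MP_39dc45_gt.SP.StA

/-!
# MP_39dc45_gt: torsion under monomial changes of basis and shifts of the degree
-/

open Matrix

noncomputable section

set_option linter.unusedSectionVars false

namespace Pool.Agent.Lib.MP_39dc45_gt.SP

namespace M5Aux

theorem det_one_add {K : Type} [Fintype K] [DecidableEq K] (deg : K → ℕ) (N : Matrix K K F31)
    (h : ∀ i j, N i j ≠ 0 → deg i < deg j) : (1 + N).det = 1 := by
  have h0 : ∀ i j, deg j ≤ deg i → N i j = 0 := by
    intro i j hij
    by_contra h2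
    exact absurd (h i j h2) (not_lt.2 hij)
  have hb : (1 + N).BlockTriangular deg := by
    intro i j hij
    have h3 : i ≠ j := by
      rintro rfl
      exact lt_irrefl _ hij
    rw [Matrix.add_apply, h0 i j hij.le, Matrix.one_apply_ne h3, add_zero]
  rw [hb.det]
  apply Finset.prod_eq_one
  intro a _
  have h1 : (1 + N).toSquareBlock deg a = 1 := by
    ext i j
    rw [Matrix.toSquareBlock_def, Matrix.of_apply, Matrix.add_apply,
      h0 i.1 j.1 (by rw [i.2, j.2]), add_zero]
    by_cases hij : i = j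
    · rw [hij, Matrix.one_apply_eq, Matrix.one_apply_eq]
    · rw [Matrix.one_apply_ne hij, Matrix.one_apply_ne fun h2 => hij (Subtype.ext h2)]
  rw [h1, Matrix.det_one]

theorem det_mono {K : Type} [Fintype K] [DecidableEq K] (M M' : Matrix K K F31) (a b : K → F31)
    (ha : ∀ i, a i ^ 10 = 1) (hb : ∀ i, b i ^ 10 = 1)
    (h : ∀ i j, a i * M' i j = M i j * b j) : M'.det ^ 10 = M.det ^ 10 := by
  have h1 : Matrix.diagonal a * M' = M * Matrix.diagonal b := by
    ext i j
    rw [Matrix.diagonal_mul, Matrix.mul_diagonal]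
    exact h i j
  have h2 := congrArg (fun X => X.det ^ 10) h1
  simp only [Matrix.det_mul, Matrix.det_diagonal, mul_pow, ← Finset.prod_pow, ha, hb,
    Finset.prod_const_one, one_mul, mul_one] at h2
  exact h2

section conj

variable {J J' : Type} [Fintype J] [DecidableEq J] [Fintype J'] [DecidableEq J'] (φ : J ≃ J')
  (c : J → F31)

/-- The transported matrix. -/
def cj (X : Matrix J J F31) : Matrix J' J' F31 :=
  (Matrix.diagonal (fun i => (c i)⁻¹) * X * Matrix.diagonal c).submatrix φ.symm φ.symm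

theorem cj_apply (X : Matrix J J F31) (i j : J) : cj φ c X (φ i) (φ j) = (c i)⁻¹ * X i j * c j := by
  rw [cj, Matrix.submatrix_apply, Equiv.symm_apply_apply, Equiv.symm_apply_apply,
    Matrix.mul_diagonal, Matrix.diagonal_mul]

theorem ext_phi {X Y : Matrix J' J' F31} (h : ∀ i j, X (φ i) (φ j) = Y (φ i) (φ j)) : X = Y := by
  ext i j
  have := h (φ.symm i) (φ.symm j)
  rwa [Equiv.apply_symm_apply, Equiv.apply_symm_apply] at this

theorem cj_add (X Y : Matrix J J F31) : cj φ c (X + Y) = cj φ c X + cj φ c Y := by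
  apply ext_phi φ
  intro i j
  rw [Matrix.add_apply, cj_apply, cj_apply, cj_apply, Matrix.add_apply]
  ring

theorem cj_mul (hc : ∀ i, c i ≠ 0) (X Y : Matrix J J F31) :
    cj φ c (X * Y) = cj φ c X * cj φ c Y := by
  apply ext_phi φ
  intro i j
  rw [cj_apply, Matrix.mul_apply, Matrix.mul_apply, ← Equiv.sum_comp φ, Finset.mul_sum,
    Finset.sum_mul]
  refine Finset.sum_congr rfl fun x _ => ?_
  rw [cj_apply, cj_apply]
  have := hc x
  field_simp

theorem cj_one (hc : ∀ i, c i ≠ 0) : cj φ c 1 = 1 := by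
  apply ext_phi φ
  intro i j
  rw [cj_apply]
  by_cases h : i = j
  · subst h
    rw [Matrix.one_apply_eq, Matrix.one_apply_eq, mul_one, inv_mul_cancel₀ (hc i)]
  · rw [Matrix.one_apply_ne h, Matrix.one_apply_ne fun h2 => h (φ.injective h2), mul_zero,
      zero_mul]

theorem cj_zero : cj φ c 0 = 0 := by
  apply ext_phi φ
  intro i j
  rw [cj_apply, Matrix.zero_apply, Matrix.zero_apply, mul_zero, zero_mul]

end conj

theorem prod_one {J : Type} [Fintype J] [DecidableEq J] (deg : J → ℕ) (D S : Matrix J J F31)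
    (hD : Cx deg D) (hS : Contr deg D S) (e : Ods deg ≃ Evs deg) :
    (blk deg (D + S) e).det *
      (Matrix.of fun i j : Ods deg => (D + S) (e i).1 j.1).det = 1 := by
  have hT : ∀ i j, (D + S) i j ≠ 0 → deg i = deg j + 1 ∨ deg j = deg i + 1 := by
    intro i j h
    by_cases h1 : D i j = 0
    · right
      apply hS.deg_S
      intro h2
      apply h
      rw [Matrix.add_apply, h1, h2, add_zero]
    · exact Or.inl (hD.deg_D i j h1)
  have hTT : (D + S) * (D + S) = 1 + S * S := by
    rw [Matrix.add_mul, Matrix.mul_add, Matrix.mul_add, hD.sq, zero_add, ← add_assoc, hS.eq]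
  rw [← Matrix.det_mul]
  have h1 : (blk deg (D + S) e) * (Matrix.of fun i j : Ods deg => (D + S) (e i).1 j.1) =
      1 + Matrix.of fun i j : Ods deg => (S * S) i.1 j.1 := by
    ext i j
    rw [Matrix.mul_apply, Matrix.add_apply, Matrix.of_apply]
    have h2 : ∑ m : Ods deg, blk deg (D + S) e i m *
        (Matrix.of fun i j : Ods deg => (D + S) (e i).1 j.1) m j =
        ∑ n : Evs deg, (D + S) i.1 n.1 * (D + S) n.1 j.1 :=
      Equiv.sum_comp e fun n : Evs deg => (D + S) i.1 n.1 * (D + S) n.1 j.1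
    have h3 : ∑ n : Ods deg, (D + S) i.1 n.1 * (D + S) n.1 j.1 = 0 := by
      apply Finset.sum_eq_zero
      intro n _
      by_contra h4
      have h5 := hT i.1 n.1 (left_ne_zero_of_mul h4)
      have h6 := i.2
      have h7 := n.2
      rw [Nat.odd_iff] at h6 h7
      omega
    have h4 := Fintype.sum_subtype_add_sum_subtype (fun n => Odd (deg n))
      fun n => (D + S) i.1 n * (D + S) n j.1
    rw [h2]
    have h5 : ∑ n : Evs deg, (D + S) i.1 n.1 * (D + S) n.1 j.1 =
        ∑ n, (D + S) i.1 n * (D + S) n j.1 := by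
      rw [← h4]
      exact (by rw [h3, zero_add])
    rw [h5, ← Matrix.mul_apply, hTT, Matrix.add_apply]
    congr 1
    by_cases hij : i = j
    · rw [hij, Matrix.one_apply_eq, Matrix.one_apply_eq]
    · rw [Matrix.one_apply_ne hij, Matrix.one_apply_ne fun h2 => hij (Subtype.ext h2)]
  rw [h1]
  apply det_one_add fun i : Ods deg => deg i.1
  intro i j h
  rw [Matrix.of_apply, Matrix.mul_apply] at h
  obtain ⟨x, _, hx⟩ := Finset.exists_ne_zero_of_sum_ne_zero h
  have h2 := hS.deg_S i.1 x (left_ne_zero_of_mul hx)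
  have h3 := hS.deg_S x j.1 (right_ne_zero_of_mul hx)
  omega

theorem ne_of_ten {x : F31} (h : x ^ 10 = 1) : x ≠ 0 := by
  rintro rfl
  rw [zero_pow (by norm_num)] at h
  exact zero_ne_one h

theorem fwd {J J' : Type} [Fintype J] [DecidableEq J] [Fintype J'] [DecidableEq J']
    (deg : J → ℕ) (deg' : J' → ℕ) (D : Matrix J J F31) (D' : Matrix J' J' F31) (φ : J ≃ J')
    (c : J → F31) (k : ℤ) (hD : Cx deg D) (hc : ∀ i, c i ^ 10 = 1)
    (hdeg : ∀ i, (deg' (φ i) : ℤ) = deg i + k)
    (h : ∀ i j, c i * D' (φ i) (φ j) = D i j * c j) :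
    Cx deg' D' ∧ ∀ u, TorM deg D u → TorM deg' D' (if Even k then u else u⁻¹) := by
  have hc0 : ∀ i, c i ≠ 0 := fun i => ne_of_ten (hc i)
  have hD' : D' = cj φ c D := by
    apply ext_phi φ
    intro i j
    rw [cj_apply, mul_assoc, ← h i j, inv_mul_cancel_left₀ (hc0 i)]
  have hcj : ∀ (X : Matrix J J F31) (i j : J), c i * cj φ c X (φ i) (φ j) = X i j * c j := by
    intro X i j
    rw [cj_apply, mul_assoc, mul_inv_cancel_left₀ (hc0 i)]
  have hne : ∀ (X : Matrix J J F31) (i' j' : J'), cj φ c X i' j' ≠ 0 →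
      X (φ.symm i') (φ.symm j') ≠ 0 := by
    intro X i' j' h1 h2
    apply h1
    have h3 := cj_apply φ c X (φ.symm i') (φ.symm j')
    rw [Equiv.apply_symm_apply, Equiv.apply_symm_apply, h2, mul_zero, zero_mul] at h3
    exact h3
  have hdeg' : ∀ i' : J', (deg' i' : ℤ) = deg (φ.symm i') + k := by
    intro i'
    have := hdeg (φ.symm i')
    rwa [Equiv.apply_symm_apply] at this
  refine ⟨⟨?_, ?_⟩, ?_⟩
  · intro i' j' h1
    rw [hD'] at h1
    have h2 := hD.deg_D _ _ (hne D i' j' h1)
    have h3 := hdeg' i'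
    have h4 := hdeg' j'
    omega
  · rw [hD', ← cj_mul φ c hc0, hD.sq, cj_zero]
  · rintro u ⟨S, hS, e, rfl⟩
    have hS' : Contr deg' D' (cj φ c S) := by
      refine ⟨?_, ?_⟩
      · intro i' j' h1
        have h2 := hS.deg_S _ _ (hne S i' j' h1)
        have h3 := hdeg' i'
        have h4 := hdeg' j'
        omega
      · rw [hD', ← cj_mul φ c hc0, ← cj_mul φ c hc0, ← cj_add, hS.eq, cj_one φ c hc0]
    have hsum : D' + cj φ c S = cj φ c (D + S) := by rw [hD', cj_add]
    by_cases hk : Even k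
    · rw [if_pos hk]
      have p1 : ∀ i, Odd (deg i) ↔ Odd (deg' (φ i)) := by
        intro i
        have h1 := hdeg i
        rw [← Int.odd_coe_nat (deg i), ← Int.odd_coe_nat (deg' (φ i)), h1, Int.odd_add]
        simp [hk]
      have p2 : ∀ i, ¬ Odd (deg i) ↔ ¬ Odd (deg' (φ i)) := fun i => not_congr (p1 i)
      let o : Ods deg ≃ Ods deg' := φ.subtypeEquiv p1
      let v : Evs deg ≃ Evs deg' := φ.subtypeEquiv p2
      refine ⟨cj φ c S, hS', o.symm.trans (e.trans v), ?_⟩
      rw [hsum, ← Matrix.det_submatrix_equiv_self o (blk deg' _ _)]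
      refine (det_mono _ _ (fun i : Ods deg => c i.1) (fun i : Ods deg => c (e i).1)
        (fun i => hc _) (fun i => hc _) ?_).symm
      intro i j
      rw [Matrix.submatrix_apply, blk, blk, Matrix.of_apply, Matrix.of_apply, Equiv.trans_apply,
        Equiv.symm_apply_apply]
      exact hcj _ _ _
    · rw [if_neg hk]
      have p1 : ∀ i, ¬ Odd (deg i) ↔ Odd (deg' (φ i)) := by
        intro i
        have h1 := hdeg i
        rw [← Int.odd_coe_nat (deg i), ← Int.odd_coe_nat (deg' (φ i)), h1, Int.odd_add]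
        simp [hk]
      have p2 : ∀ i, Odd (deg i) ↔ ¬ Odd (deg' (φ i)) := by
        intro i
        rw [← p1 i, not_not]
      let o : Evs deg ≃ Ods deg' := φ.subtypeEquiv p1
      let v : Ods deg ≃ Evs deg' := φ.subtypeEquiv p2
      refine ⟨cj φ c S, hS', o.symm.trans (e.symm.trans v), ?_⟩
      rw [hsum, ← Matrix.det_submatrix_equiv_self (e.trans o) (blk deg' _ _)]
      have h2 := det_mono (Matrix.of fun i j : Ods deg => (D + S) (e i).1 j.1)
        ((blk deg' (cj φ c (D + S)) (o.symm.trans (e.symm.trans v))).submatrix (e.trans o)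
          (e.trans o))
        (fun i : Ods deg => c (e i).1) (fun i : Ods deg => c i.1)
        (fun i => hc _) (fun i => hc _) ?_
      · rw [h2]
        have h3 := prod_one deg D S hD hS e
        have h4 : (blk deg (D + S) e).det ^ 10 *
            (Matrix.of fun i j : Ods deg => (D + S) (e i).1 j.1).det ^ 10 = 1 := by
          rw [← mul_pow, h3, one_pow]
        exact inv_eq_of_mul_eq_one_right h4
      · intro i j
        rw [Matrix.submatrix_apply, blk, Matrix.of_apply, Matrix.of_apply, Equiv.trans_apply,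
          Equiv.trans_apply, Equiv.trans_apply, Equiv.trans_apply, Equiv.symm_apply_apply,
          Equiv.symm_apply_apply]
        exact hcj _ _ _

end M5Aux

open M5Aux in
theorem stM5 : StM1 → StM5 := by
  intro _ J J' _ _ _ _ deg deg' D D' φ c k hD hc hdeg h u
  have h1 := fwd deg deg' D D' φ c (k : ℤ) hD hc (fun i => by rw [hdeg i]; push_cast; rfl) h
  have hc0 : ∀ i, c i ≠ 0 := fun i => ne_of_ten (hc i)
  have h2 := fwd deg' deg D' D φ.symm (fun j => (c (φ.symm j))⁻¹) (-(k : ℤ)) h1.1
    (fun i => by rw [inv_pow, hc, inv_one])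
    (fun i => by
      have := hdeg (φ.symm i)
      rw [Equiv.apply_symm_apply] at this
      rw [this]
      push_cast
      ring)
    (fun i j => by
      have h3 := h (φ.symm i) (φ.symm j)
      rw [Equiv.apply_symm_apply, Equiv.apply_symm_apply] at h3
      have a1 := hc0 (φ.symm i)
      have a2 := hc0 (φ.symm j)
      rw [eq_mul_inv_iff_mul_eq₀ a2, mul_assoc, ← h3, inv_mul_cancel_left₀ a1])
  have hk : Even (k : ℤ) ↔ Even k := Int.even_coe_nat k
  have hk' : Even (-(k : ℤ)) ↔ Even k := by rw [even_neg, hk]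
  constructor
  · intro hu
    have h3 := h1.2 u hu
    simp only [hk] at h3
    exact h3
  · intro hu
    have h3 := h2.2 _ hu
    simp only [hk'] at h3
    by_cases h4 : Even k
    · rw [if_pos h4, if_pos h4] at h3
      exact h3
    · rw [if_neg h4, if_neg h4, inv_inv] at h3
      exact h3

end Pool.Agent.Lib.MP_39dc45_gt.SP
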