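import Pool.Agent.Lib.MP_39dc45_gt.SP.StA

/-!
# MP_39dc45_gt: integral contractible complexes have trivial torsion
-/

open Matrix

noncomputable section

namespace Pool.Agent.Lib.MP_39dc45_gt.SP

section M6

variable {J : Type} [Fintype J] [DecidableEq J] {deg : J → ℕ} {D S : Matrix J J ℤ}

/-- The square of `D + S`. -/
theorem m6_sq (hD : Cx deg D) (hS : Contr deg D S) : (D + S) * (D + S) = 1 + S * S := by
  rw [add_mul, mul_add, mul_add, hD.sq, zero_add, ← add_assoc, hS.eq]

theorem m6_ne {i j : J} (hD : Cx deg D) (hS : Contr deg D S) (h : (D + S) i j ≠ 0) :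
    deg i = deg j + 1 ∨ deg j = deg i + 1 := by
  rw [Matrix.add_apply] at h
  by_cases h1 : D i j = 0
  · rw [h1, zero_add] at h
    exact Or.inr (hS.deg_S i j h)
  · exact Or.inl (hD.deg_D i j h1)

theorem m6_par {i j : J} (hD : Cx deg D) (hS : Contr deg D S) (h : Odd (deg i) ↔ Odd (deg j)) :
    (D + S) i j = 0 := by
  by_contra hne
  rcases m6_ne hD hS hne with h1 | h1
  · rw [h1, Nat.odd_add_one] at h
    tauto
  · rw [h1, Nat.odd_add_one] at h
    tauto

theorem m6_SS {i j : J} (hS : Contr deg D S) (h : (S * S) i j ≠ 0) : deg j = deg i + 2 := by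
  rw [Matrix.mul_apply] at h
  obtain ⟨k, -, hk⟩ := Finset.exists_ne_zero_of_sum_ne_zero h
  have h1 := hS.deg_S i k (left_ne_zero_of_mul hk)
  have h2 := hS.deg_S k j (right_ne_zero_of_mul hk)
  omega

/-- The blocks of `1 + S ^ 2` have determinant one. -/
theorem m6_det (hS : Contr deg D S) (P : J → Prop) [DecidablePred P] :
    (Matrix.of fun i j : {x // P x} => (1 + S * S) i.1 j.1).det = 1 := by
  set M : Matrix {x // P x} {x // P x} ℤ := Matrix.of fun i j => (1 + S * S) i.1 j.1 with hM
  have htri : M.BlockTriangular (fun i : {x // P x} => deg i.1) := by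
    intro i j hij
    change (1 + S * S) i.1 j.1 = 0
    have hij' : deg j.1 < deg i.1 := hij
    have h1 : i.1 ≠ j.1 := by
      intro h
      rw [h] at hij'
      exact lt_irrefl _ hij'
    have h2 : (S * S) i.1 j.1 = 0 := by
      by_contra h
      have := m6_SS hS h
      omega
    rw [Matrix.add_apply, Matrix.one_apply_ne h1, h2, add_zero]
  rw [htri.det]
  refine Finset.prod_eq_one fun a _ => ?_
  have h1 : M.toSquareBlock (fun i : {x // P x} => deg i.1) a = 1 := by
    ext i j
    rw [Matrix.toSquareBlock_def]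
    change (1 + S * S) i.1.1 j.1.1 = _
    have h2 : (S * S) i.1.1 j.1.1 = 0 := by
      by_contra h
      have := m6_SS hS h
      have e1 : deg i.1.1 = a := i.2
      have e2 : deg j.1.1 = a := j.2
      omega
    rw [Matrix.add_apply, h2, add_zero, Matrix.one_apply, Matrix.one_apply]
    by_cases h3 : i = j
    · rw [if_pos h3, if_pos (by rw [h3])]
    · rw [if_neg h3, if_neg fun h4 => h3 (Subtype.ext (Subtype.ext h4))]
  rw [h1, Matrix.det_one]

/-- The block from odd to even degrees. -/
def m6A (deg : J → ℕ) (T : Matrix J J ℤ) : Matrix (Ods deg) (Evs deg) ℤ :=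
  Matrix.of fun i j => T i.1 j.1

/-- The block from even to odd degrees. -/
def m6B (deg : J → ℕ) (T : Matrix J J ℤ) : Matrix (Evs deg) (Ods deg) ℤ :=
  Matrix.of fun i j => T i.1 j.1

theorem m6_AB (hD : Cx deg D) (hS : Contr deg D S) :
    m6A deg (D + S) * m6B deg (D + S) = Matrix.of fun i j : Ods deg => (1 + S * S) i.1 j.1 := by
  ext i j
  rw [Matrix.mul_apply]
  change ∑ k : Evs deg, (D + S) i.1 k.1 * (D + S) k.1 j.1 = (1 + S * S) i.1 j.1
  rw [← m6_sq hD hS, Matrix.mul_apply, ← Fintype.sum_subtype_add_sum_subtype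
    (fun k => Odd (deg k)) (fun k => (D + S) i.1 k * (D + S) k j.1)]
  rw [Finset.sum_eq_zero (fun (k : Ods deg) _ => ?_), zero_add]
  rw [m6_par hD hS ⟨fun _ => k.2, fun _ => i.2⟩, zero_mul]

theorem m6_BA (hD : Cx deg D) (hS : Contr deg D S) :
    m6B deg (D + S) * m6A deg (D + S) = Matrix.of fun i j : Evs deg => (1 + S * S) i.1 j.1 := by
  ext i j
  rw [Matrix.mul_apply]
  change ∑ k : Ods deg, (D + S) i.1 k.1 * (D + S) k.1 j.1 = (1 + S * S) i.1 j.1
  rw [← m6_sq hD hS, Matrix.mul_apply, ← Fintype.sum_subtype_add_sum_subtype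
    (fun k => Odd (deg k)) (fun k => (D + S) i.1 k * (D + S) k j.1)]
  rw [Finset.sum_eq_zero (f := fun k : {x // ¬ Odd (deg x)} => (D + S) i.1 k.1 * (D + S) k.1 j.1)
    (fun k _ => ?_), add_zero]
  rw [m6_par hD hS ⟨fun h => absurd h i.2, fun h => absurd h k.2⟩, zero_mul]

theorem m6_card (hD : Cx deg D) (hS : Contr deg D S) :
    Fintype.card (Ods deg) = Fintype.card (Evs deg) := by
  have h1 : (m6A deg (D + S) * m6B deg (D + S)).det = 1 := by
    rw [m6_AB hD hS]
    exact m6_det hS _
  have h2 : (m6B deg (D + S) * m6A deg (D + S)).det = 1 := by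
    rw [m6_BA hD hS]
    exact m6_det hS _
  have u1 : IsUnit (m6A deg (D + S) * m6B deg (D + S)) :=
    (Matrix.isUnit_iff_isUnit_det _).mpr (by rw [h1]; exact isUnit_one)
  have u2 : IsUnit (m6B deg (D + S) * m6A deg (D + S)) :=
    (Matrix.isUnit_iff_isUnit_det _).mpr (by rw [h2]; exact isUnit_one)
  obtain ⟨X, hX⟩ := u1.exists_right_inv
  obtain ⟨Y, hY⟩ := u2.exists_left_inv
  rw [Matrix.mul_assoc] at hX
  rw [← Matrix.mul_assoc] at hY
  -- `A` has a right inverse and a left inverse
  have h3 : Y * m6B deg (D + S) = m6B deg (D + S) * X := by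
    calc Y * m6B deg (D + S) = Y * m6B deg (D + S) * (m6A deg (D + S) * (m6B deg (D + S) * X)) := by
          rw [hX, Matrix.mul_one]
      _ = (Y * m6B deg (D + S) * m6A deg (D + S)) * (m6B deg (D + S) * X) := by
          simp only [Matrix.mul_assoc]
      _ = m6B deg (D + S) * X := by rw [hY, Matrix.one_mul]
  rw [h3] at hY
  exact (Matrix.square_of_invertible (m6A deg (D + S)) (m6B deg (D + S) * X) hX hY)

end M6

/-- Integral contractible complexes have trivial torsion. -/
theorem stM6 : StM6 := by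
  intro J _ _ deg D S hD hS
  refine ⟨S.map (Int.cast : ℤ → F31), ⟨?_, ?_⟩, ?_⟩
  · intro i j h
    refine hS.deg_S i j fun h0 => h ?_
    rw [Matrix.map_apply, h0, Int.cast_zero]
  · have h := congrArg (fun M : Matrix J J ℤ => M.map (Int.castRingHom F31)) hS.eq
    simp only [Matrix.map_add _ (map_add (Int.castRingHom F31)), Matrix.map_mul,
      Matrix.map_one _ (map_zero (Int.castRingHom F31)) (map_one (Int.castRingHom F31))] at h
    exact h
  · have e : Ods deg ≃ Evs deg := Fintype.equivOfCardEq (m6_card hD hS)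
    refine ⟨e, ?_⟩
    have h1 : (blk deg (D + S) e) * (Matrix.of fun i j : Ods deg => (D + S) (e i).1 j.1) =
        m6A deg (D + S) * m6B deg (D + S) := by
      ext i j
      rw [Matrix.mul_apply, Matrix.mul_apply]
      exact e.sum_comp (fun k : Evs deg => (D + S) i.1 k.1 * (D + S) k.1 j.1)
    have h2 : (blk deg (D + S) e).det *
        (Matrix.of fun i j : Ods deg => (D + S) (e i).1 j.1).det = 1 := by
      rw [← Matrix.det_mul, h1, m6_AB hD hS]
      exact m6_det hS _
    have h3 : blk deg (D.map (Int.cast : ℤ → F31) + S.map (Int.cast : ℤ → F31)) e =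
        (blk deg (D + S) e).map (Int.castRingHom F31) := by
      ext i j
      change ((D i.1 (e j).1 : ℤ) : F31) + ((S i.1 (e j).1 : ℤ) : F31) =
        ((D i.1 (e j).1 + S i.1 (e j).1 : ℤ) : F31)
      rw [Int.cast_add]
    rw [h3, ← RingHom.mapMatrix_apply, ← RingHom.map_det, ← map_pow]
    have h4 : (blk deg (D + S) e).det ^ 10 = 1 := by
      rcases Int.isUnit_iff.mp (IsUnit.of_mul_eq_one _ h2) with h5 | h5
      · rw [h5, one_pow]
      · rw [h5]
        norm_num
    rw [h4, map_one]

end Pool.Agent.Lib.MP_39dc45_gt.SP
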