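import Pool.Agent.Lib.MP_39dc45_gt.SP.StA

/-!
# MP_39dc45_gt, module M7: Whitehead-trivial complexes have trivial torsion
-/

open Matrix

noncomputable section

namespace Pool.Agent.Lib.MP_39dc45_gt.SP

namespace M7Aux

variable {Γ : Type} [Group Γ]

theorem ten_of_closure {k : Type} [Fintype k] [DecidableEq k] {χ : Γ →* F31} (hχ : Ten χ)
    {E : Matrix k k (MonoidAlgebra ℤ Γ)}
    (hE : E ∈ Submonoid.closure
      ({E : Matrix k k (MonoidAlgebra ℤ Γ) | ∃ i j c, i ≠ j ∧ E = 1 + Matrix.single i j c} ∪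
        {E | ∃ (i : k) (γ : Γ) (ε : ℤ), (ε = 1 ∨ ε = -1) ∧
          E = Matrix.diagonal (Function.update 1 i (MonoidAlgebra.single γ ε))})) :
    (E.map (MonoidAlgebra.lift ℤ F31 Γ χ)).det ^ 10 = 1 := by
  set φ := MonoidAlgebra.lift ℤ F31 Γ χ with hφ
  induction hE using Submonoid.closure_induction with
  | mem E h =>
    rcases h with ⟨i, j, c, hij, rfl⟩ | ⟨i, γ, ε, hε, rfl⟩
    · have h1 : (1 + Matrix.single i j c).map φ = Matrix.transvection i j (φ c) := by
        rw [Matrix.map_add φ (map_add φ), Matrix.map_one φ (map_zero φ) (map_one φ),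
          Matrix.map_single]
        rfl
      rw [h1, Matrix.det_transvection_of_ne i j hij, one_pow]
    · have h1 : (Matrix.diagonal (Function.update 1 i (MonoidAlgebra.single γ ε)) :
          Matrix k k (MonoidAlgebra ℤ Γ)).map φ =
          Matrix.diagonal (Function.update (1 : k → F31) i (φ (MonoidAlgebra.single γ ε))) := by
        rw [Matrix.diagonal_map (map_zero φ)]
        congr 1
        funext a
        by_cases ha : a = i
        · subst ha
          simp
        · simp [ha]
      have h2 : φ (MonoidAlgebra.single γ ε) = (ε : F31) * χ γ := by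
        rw [hφ, MonoidAlgebra.lift_single, zsmul_eq_mul]
      rw [h1, Matrix.det_diagonal, Finset.prod_update_of_mem (Finset.mem_univ i)]
      have h3 : ∏ x ∈ Finset.univ \ {i}, (1 : k → F31) x = 1 := Finset.prod_eq_one fun _ _ => rfl
      rw [h3, mul_one, h2, mul_pow, hχ γ, mul_one]
      rcases hε with rfl | rfl
      · rw [Int.cast_one, one_pow]
      · rw [Int.cast_neg, Int.cast_one]
        norm_num
  | one =>
    rw [Matrix.map_one φ (map_zero φ) (map_one φ), Matrix.det_one, one_pow]
  | mul x y _ _ hx hy =>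
    rw [Matrix.map_mul, Matrix.det_mul, mul_pow, hx, hy, one_mul]

theorem ten_of_wh {k : Type} [Fintype k] [DecidableEq k] {χ : Γ →* F31} (hχ : Ten χ)
    {A : Matrix k k (MonoidAlgebra ℤ Γ)} (hA : WhTrivial Γ A) :
    (A.map (MonoidAlgebra.lift ℤ F31 Γ χ)).det ^ 10 = 1 := by
  obtain ⟨m, hm⟩ := hA
  have h := ten_of_closure hχ hm
  rw [Matrix.fromBlocks_map, Matrix.map_zero _ (map_zero _), Matrix.map_zero _ (map_zero _),
    Matrix.map_one _ (map_zero _) (map_one _), Matrix.det_fromBlocks_zero₂₁, Matrix.det_one,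
    mul_one] at h
  exact h

end M7Aux

/-- Module M7. -/
theorem stM7 : StM7 := by
  intro Γ _ χ hχ J _ _ deg D S hS e hW
  set φ := MonoidAlgebra.lift ℤ F31 Γ χ with hφ
  refine ⟨S.map φ, ⟨fun i j h => hS.deg_S i j fun h0 => h ?_, ?_⟩, e, ?_⟩
  · rw [Matrix.map_apply, h0, map_zero]
  · have h1 := congrArg (fun A : Matrix J J (MonoidAlgebra ℤ Γ) => A.map φ) hS.eq
    simp only [Matrix.map_add φ (map_add φ), Matrix.map_mul,
      Matrix.map_one φ (map_zero φ) (map_one φ)] at h1
    exact h1
  · have h1 : blk deg (D.map φ + S.map φ) e = (blk deg (D + S) e).map φ := by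
      ext i j
      simp [blk]
    rw [h1]
    exact (M7Aux.ten_of_wh hχ hW).symm

end Pool.Agent.Lib.MP_39dc45_gt.SP
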