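import Pool.Agent.Lib.MP_39dc45_gt.SP.StT

/-!
# MP_39dc45_gt: moves 1 and 2
-/

set_option autoImplicit false

open Matrix

noncomputable section

namespace Pool.Agent.Lib.MP_39dc45_gt.SP

namespace Mv1Aux

lemma nz_eq_zero {z : ℂ} : nz z = 0 ↔ z = 0 := Complex.normSq_eq_zero

lemma nz_nonneg (z : ℂ) : 0 ≤ nz z := Complex.normSq_nonneg z

lemma ne_of_pos {z : ℂ} (h : 0 < nz z) : z ≠ 0 := by
  rintro rfl
  rw [nz_eq_zero.2 rfl] at h
  exact lt_irrefl _ h

lemma cj_ne {z : ℂ} (h : z ≠ 0) : cj z ≠ 0 := by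
  intro h0
  exact h ((map_eq_zero (starRingEnd ℂ)).1 h0)

/-- A product of a real number and a nonzero number. -/
lemma real_zero {a : ℝ} {x : ℂ} (hx : x ≠ 0) (h : (a : ℂ) * x = 0) : a = 0 := by
  rcases mul_eq_zero.1 h with h1 | h1
  · exact_mod_cast h1
  · exact absurd h1 hx

/-- The three ranges. -/
lemma P1_ne {z w : ℂ} (h : nz z + nz w = 1) (h1 : gP1 z w = 0) :
    (2 / 10 ≤ nz z ∧ nz z ≤ 3 / 10) ∨ (6 / 10 ≤ nz z ∧ nz z ≤ 7 / 10) := by
  have hu := nz_nonneg z
  have hv := nz_nonneg w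
  by_contra hcon
  rw [not_or] at hcon
  obtain ⟨hc1, hc2⟩ := hcon
  rcases lt_or_ge (nz z) (2 / 10) with h2 | h2
  · -- `w ^ 6`
    have e1 : max 0 (nz z - 7 / 10) = 0 := max_eq_left (by linarith)
    have e2 : max 0 (min (nz z - 3 / 10) (6 / 10 - nz z)) = 0 :=
      max_eq_left ((min_le_left _ _).trans (by linarith))
    have e3 : max 0 (2 / 10 - nz z) = 2 / 10 - nz z := max_eq_right (by linarith)
    have hw : w ≠ 0 := ne_of_pos (by linarith)
    unfold gP1 at h1
    rw [e1, e2, e3] at h1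
    have h3 : ((2 / 10 - nz z : ℝ) : ℂ) * (Complex.I * w ^ 6) = 0 := by
      rw [← h1]
      push_cast
      ring
    have h4 := real_zero (mul_ne_zero Complex.I_ne_zero (pow_ne_zero 6 hw)) h3
    linarith
  rcases lt_or_ge (nz z) (6 / 10) with h3 | h3
  · have h4 : 3 / 10 < nz z := by
      by_contra h5
      exact hc1 ⟨h2, not_lt.1 h5⟩
    have e1 : max 0 (nz z - 7 / 10) = 0 := max_eq_left (by linarith)
    have e3 : max 0 (2 / 10 - nz z) = 0 := max_eq_left (by linarith)
    have hw : w ≠ 0 := ne_of_pos (by linarith)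
    have hz : z ≠ 0 := ne_of_pos (by linarith)
    have e2 : 0 < max 0 (min (nz z - 3 / 10) (6 / 10 - nz z)) :=
      lt_max_of_lt_right (lt_min (by linarith) (by linarith))
    unfold gP1 at h1
    rw [e1, e3] at h1
    generalize max 0 (min (nz z - 3 / 10) (6 / 10 - nz z)) = a at e2 h1
    have h5 : ((a : ℝ) : ℂ) * (z ^ 3 * w ^ 3) = 0 := by
      rw [← h1]
      push_cast
      ring
    exact e2.ne' (real_zero (mul_ne_zero (pow_ne_zero 3 hz) (pow_ne_zero 3 hw)) h5)
  · have h4 : 7 / 10 < nz z := by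
      by_contra h5
      exact hc2 ⟨h3, not_lt.1 h5⟩
    have e1 : max 0 (nz z - 7 / 10) = nz z - 7 / 10 := max_eq_right (by linarith)
    have e2 : max 0 (min (nz z - 3 / 10) (6 / 10 - nz z)) = 0 :=
      max_eq_left ((min_le_right _ _).trans (by linarith))
    have e3 : max 0 (2 / 10 - nz z) = 0 := max_eq_left (by linarith)
    have hz : z ≠ 0 := ne_of_pos (by linarith)
    unfold gP1 at h1
    rw [e1, e2, e3] at h1
    have h5 : ((nz z - 7 / 10 : ℝ) : ℂ) * cj z ^ 4 = 0 := by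
      rw [← h1]
      push_cast
      ring
    have h6 := real_zero (pow_ne_zero 4 (cj_ne hz)) h5
    linarith

lemma move1 {z w : ℂ} (h : nz z + nz w = 1) {r : ℝ} (hr : 0 < r) :
    Seg (gP0 r z w) (gQ0 z w) (gP1 z w) (gQ0 z w) := by
  rintro t ht0 ht1 ⟨h1, h2⟩
  have hu := nz_nonneg z
  have hv := nz_nonneg w
  have hQ : gQ0 z w = 0 := by linear_combination h2
  unfold gQ0 at hQ
  rcases mul_eq_zero.1 hQ with h3 | h3
  · -- `z̄² = - w³`
    have h4 : cj z ^ 2 = - w ^ 3 := by linear_combination h3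
    have h5 : nz z ^ 2 = nz w ^ 3 := by
      have h6 := congrArg Complex.normSq h4
      rw [map_pow, Complex.normSq_neg, map_pow, Complex.normSq_conj] at h6
      exact h6
    have h7 : 3 / 10 < nz z := by
      by_contra hc
      have hc := not_lt.1 hc
      have h8 : nz z ^ 2 ≤ (3 / 10) ^ 2 := pow_le_pow_left₀ hu hc 2
      have h9 : (7 / 10 : ℝ) ^ 3 ≤ nz w ^ 3 := pow_le_pow_left₀ (by norm_num) (by linarith) 3
      norm_num at h8 h9
      linarith
    have h8 : nz z < 6 / 10 := by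
      by_contra hc
      have hc := not_lt.1 hc
      have h8 : (6 / 10 : ℝ) ^ 2 ≤ nz z ^ 2 := pow_le_pow_left₀ (by norm_num) hc 2
      have h9 : nz w ^ 3 ≤ (4 / 10) ^ 3 := pow_le_pow_left₀ hv (by linarith) 3
      norm_num at h8 h9
      linarith
    have e1 : max 0 (nz z - 7 / 10) = 0 := max_eq_left (by linarith)
    have e3 : max 0 (2 / 10 - nz z) = 0 := max_eq_left (by linarith)
    have hw : w ≠ 0 := ne_of_pos (by linarith)
    have hz : z ≠ 0 := ne_of_pos (by linarith)
    have e2 : 0 < max 0 (min (nz z - 3 / 10) (6 / 10 - nz z)) :=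
      lt_max_of_lt_right (lt_min (by linarith) (by linarith))
    unfold gP0 gP1 at h1
    rw [e1, e3, h4] at h1
    generalize max 0 (min (nz z - 3 / 10) (6 / 10 - nz z)) = a at e2 h1
    have h9 : (((1 - t) * r + t * a : ℝ) : ℂ) * (z ^ 3 * w ^ 3) = 0 := by
      rw [← h1]
      push_cast
      ring
    have h10 := real_zero (mul_ne_zero (pow_ne_zero 3 hz) (pow_ne_zero 3 hw)) h9
    rcases eq_or_lt_of_le ht1 with ht | ht
    · rw [ht] at h10
      linarith
    · have : 0 < (1 - t) * r := mul_pos (by linarith) hr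
      have : 0 ≤ t * a := mul_nonneg ht0 e2.le
      linarith
  · rcases mul_eq_zero.1 h3 with h4 | h4
    · -- `z = 0`
      have hz : z = 0 := (map_eq_zero (starRingEnd ℂ)).1 h4
      subst hz
      have hz0 : nz 0 = 0 := nz_eq_zero.2 rfl
      rw [hz0, zero_add] at h
      have hw : w ≠ 0 := ne_of_pos (by linarith)
      have e1 : max 0 (nz 0 - 7 / 10) = 0 := max_eq_left (by linarith)
      have e3 : max 0 (2 / 10 - nz 0) = 2 / 10 := by
        rw [hz0, max_eq_right (by norm_num)]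
        norm_num
      unfold gP0 gP1 at h1
      rw [e1, e3] at h1
      have h5 : (((1 - t : ℝ) : ℂ) + ((t / 5 : ℝ) : ℂ) * Complex.I) * w ^ 6 = 0 := by
        rw [← h1]
        simp only [map_zero]
        push_cast
        ring
      rcases mul_eq_zero.1 h5 with h6 | h6
      · have h7 := congrArg Complex.re h6
        have h8 := congrArg Complex.im h6
        simp at h7 h8
        linarith
      · exact pow_ne_zero 6 hw h6
    · have hw : w = 0 := (map_eq_zero (starRingEnd ℂ)).1 h4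
      subst hw
      have hz0 : nz 0 = 0 := nz_eq_zero.2 rfl
      rw [hz0, add_zero] at h
      have hz : z ≠ 0 := ne_of_pos (by linarith)
      have e1 : max 0 (nz z - 7 / 10) = 3 / 10 := by
        rw [h, max_eq_right (by norm_num)]
        norm_num
      unfold gP0 gP1 at h1
      rw [e1] at h1
      have h5 : (((1 - t) + t * (3 / 10) : ℝ) : ℂ) * cj z ^ 4 = 0 := by
        rw [← h1]
        push_cast
        ring
      have h6 := real_zero (pow_ne_zero 4 (cj_ne hz)) h5
      linarith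

lemma move2 {z w : ℂ} (h : nz z + nz w = 1) :
    Seg (gP1 z w) (gQ0 z w) (gP1 z w) (gQ2 z w) := by
  rintro t ht0 ht1 ⟨h1, h2⟩
  have hP : gP1 z w = 0 := by linear_combination h1
  rcases P1_ne h hP with ⟨hu1, hu2⟩ | ⟨hu1, hu2⟩
  · have hw : w ≠ 0 := ne_of_pos (by linarith)
    have hz : z ≠ 0 := ne_of_pos (by linarith)
    have e1 : max 0 (nz z - 8 / 10) = 0 := max_eq_left (by linarith)
    have e2 : max 0 (min (nz z - 5 / 10) (9 / 10 - nz z)) = 0 :=
      max_eq_left ((min_le_left _ _).trans (by linarith))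
    have e3 : max 0 (4 / 10 - nz z) = 4 / 10 - nz z := max_eq_right (by linarith)
    unfold gQ0 gQ2 at h2
    rw [e1, e2, e3] at h2
    have hww : w * cj w = ((nz w : ℝ) : ℂ) := Complex.mul_conj w
    have h3 : cj z * (((1 - t : ℝ) : ℂ) * (cj z ^ 2 * cj w)
        + (((1 - t) * nz w + t * (4 / 10 - nz z) : ℝ) : ℂ) * w ^ 2) = 0 := by
      rw [← h2]
      push_cast
      rw [← hww]
      ring
    have h4 := (mul_eq_zero.1 h3).resolve_left (cj_ne hz)
    have h5 : ((1 - t : ℝ) : ℂ) * (cj z ^ 2 * cj w)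
        = - ((((1 - t) * nz w + t * (4 / 10 - nz z) : ℝ) : ℂ) * w ^ 2) := by
      linear_combination h4
    have h6 := congrArg Complex.normSq h5
    rw [Complex.normSq_neg, map_mul, map_mul, map_mul, map_pow, map_pow, Complex.normSq_conj,
      Complex.normSq_conj, Complex.normSq_ofReal, Complex.normSq_ofReal] at h6
    change (1 - t) * (1 - t) * (nz z ^ 2 * nz w) = ((1 - t) * nz w + t * (4 / 10 - nz z))
      * ((1 - t) * nz w + t * (4 / 10 - nz z)) * nz w ^ 2 at h6
    have hv0 : 0 < nz w := by linarith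
    have h7 : (1 - t) ^ 2 * nz z ^ 2 = ((1 - t) * nz w + t * (4 / 10 - nz z)) ^ 2 * nz w := by
      apply mul_right_cancel₀ hv0.ne'
      linear_combination h6
    have hb : 1 / 10 ≤ 4 / 10 - nz z := by linarith
    have h8 : (1 - t) * nz w + t * (1 / 10) ≤ (1 - t) * nz w + t * (4 / 10 - nz z) := by
      have := mul_le_mul_of_nonneg_left hb ht0
      linarith
    have h9 : (1 - t) * (7 / 10) ≤ (1 - t) * nz w :=
      mul_le_mul_of_nonneg_left (by linarith) (by linarith)
    set A := (1 - t) * nz w + t * (4 / 10 - nz z) with hA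
    have hA1 : (1 - t) * (7 / 10) + t * (1 / 10) ≤ A := by linarith
    have hA2 : ((1 - t) * (7 / 10) + t * (1 / 10)) ^ 2 ≤ A ^ 2 :=
      pow_le_pow_left₀ (by nlinarith) hA1 2
    have hA3 : ((1 - t) * (7 / 10) + t * (1 / 10)) ^ 2 * (7 / 10) ≤ A ^ 2 * nz w :=
      mul_le_mul hA2 (by linarith) (by norm_num) (sq_nonneg A)
    have h10 : (1 - t) ^ 2 * nz z ^ 2 ≤ (1 - t) ^ 2 * (3 / 10) ^ 2 :=
      mul_le_mul_of_nonneg_left (pow_le_pow_left₀ (nz_nonneg z) hu2 2) (sq_nonneg _)
    rw [h7] at h10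
    nlinarith
  · have hw : w ≠ 0 := ne_of_pos (by linarith)
    have hz : z ≠ 0 := ne_of_pos (by linarith)
    have e1 : max 0 (nz z - 8 / 10) = 0 := max_eq_left (by linarith)
    have e2 : 1 / 10 ≤ max 0 (min (nz z - 5 / 10) (9 / 10 - nz z)) :=
      le_max_of_le_right (le_min (by linarith) (by linarith))
    have e3 : max 0 (4 / 10 - nz z) = 0 := max_eq_left (by linarith)
    unfold gQ0 gQ2 at h2
    rw [e1, e3] at h2
    generalize max 0 (min (nz z - 5 / 10) (9 / 10 - nz z)) = b at e2 h2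
    have h3 : (cj z * cj w) * ((((1 - t) + t * b : ℝ) : ℂ) * cj z ^ 2
        + ((1 - t : ℝ) : ℂ) * w ^ 3) = 0 := by
      rw [← h2]
      push_cast
      ring
    have h4 := (mul_eq_zero.1 h3).resolve_left (mul_ne_zero (cj_ne hz) (cj_ne hw))
    have h5 : (((1 - t) + t * b : ℝ) : ℂ) * cj z ^ 2 = - (((1 - t : ℝ) : ℂ) * w ^ 3) := by
      linear_combination h4
    have h6 := congrArg Complex.normSq h5
    rw [Complex.normSq_neg, map_mul, map_mul, map_pow, map_pow, Complex.normSq_conj,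
      Complex.normSq_ofReal, Complex.normSq_ofReal] at h6
    change ((1 - t) + t * b) * ((1 - t) + t * b) * nz z ^ 2 = (1 - t) * (1 - t) * nz w ^ 3 at h6
    have hb : (1 - t) + t * (1 / 10) ≤ (1 - t) + t * b := by
      have := mul_le_mul_of_nonneg_left e2 ht0
      linarith
    set A := (1 - t) + t * b with hA
    have hA2 : ((1 - t) + t * (1 / 10)) ^ 2 ≤ A ^ 2 := pow_le_pow_left₀ (by nlinarith) hb 2
    have hA3 : ((1 - t) + t * (1 / 10)) ^ 2 * (6 / 10) ^ 2 ≤ A ^ 2 * nz z ^ 2 :=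
      mul_le_mul hA2 (pow_le_pow_left₀ (by norm_num) hu1 2) (by norm_num) (sq_nonneg A)
    have h10 : (1 - t) ^ 2 * nz w ^ 3 ≤ (1 - t) ^ 2 * (4 / 10) ^ 3 :=
      mul_le_mul_of_nonneg_left (pow_le_pow_left₀ (nz_nonneg w) (by linarith) 3) (sq_nonneg _)
    nlinarith

end Mv1Aux

open Mv1Aux in
/-- Module Mv1. -/
theorem stMv1 : StMv1 := by
  intro z w h
  exact ⟨fun r hr => move1 h hr, move2 h⟩

end Pool.Agent.Lib.MP_39dc45_gt.SP
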