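import Pool.Agent.Lib.MP_39dc45_gt.SP.StT

/-!
# MP_39dc45_gt: moves 3 and 4
-/

open scoped Topology
open Matrix

noncomputable section

namespace Pool.Agent.Lib.MP_39dc45_gt.SP

namespace Mv2Aux

theorem mz {x : ℝ} (h : x ≤ 0) : max 0 x = 0 := max_eq_left h

theorem mmz1 {x y : ℝ} (h : x ≤ 0) : max 0 (min x y) = 0 :=
  max_eq_left ((min_le_left _ _).trans h)

theorem mmz2 {x y : ℝ} (h : y ≤ 0) : max 0 (min x y) = 0 :=
  max_eq_left ((min_le_right _ _).trans h)

theorem mp {x : ℝ} (h : 0 < x) : 0 < max 0 x := lt_max_of_lt_right h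

theorem mmp {x y : ℝ} (hx : 0 < x) (hy : 0 < y) : 0 < max 0 (min x y) :=
  lt_max_of_lt_right (lt_min hx hy)

theorem conv_pos {t a b : ℝ} (h0 : 0 ≤ t) (h1 : t ≤ 1) (ha : 0 < a) (hb : 0 < b) :
    0 < (1 - t) * a + t * b := by
  rcases eq_or_lt_of_le h1 with rfl | h
  · simpa using hb
  · have := mul_pos (sub_pos.2 h) ha
    have := mul_nonneg h0 hb.le
    linarith

theorem comb_ne {t a b : ℝ} {x : ℂ} (h0 : 0 ≤ t) (h1 : t ≤ 1) (ha : 0 < a) (hb : 0 < b)
    (hx : x ≠ 0) : (1 - t) * (a * x) + t * (b * x) ≠ 0 := by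
  intro h
  have h2 : (((1 - t) * a + t * b : ℝ) : ℂ) * x = 0 := by
    push_cast
    linear_combination h
  rcases mul_eq_zero.1 h2 with h3 | h3
  · exact (conv_pos h0 h1 ha hb).ne' (Complex.ofReal_eq_zero.1 h3)
  · exact hx h3

theorem ne_of_nz {z : ℂ} (h : 0 < nz z) : z ≠ 0 := by
  rintro rfl
  rw [nz, map_zero] at h
  exact lt_irrefl _ h

theorem cj_ne {z : ℂ} (h : z ≠ 0) : cj z ≠ 0 := (map_ne_zero _).2 h

theorem mul_cj (z : ℂ) : z * cj z = ((nz z : ℝ) : ℂ) := Complex.mul_conj z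

theorem mv2a (z w : ℂ) (h : nz z + nz w = 1) :
    Seg (gP1 z w) (gQ2 z w) (gP4 z w) (gQ2 z w) := by
  rintro t h0 h1 ⟨e1, e2⟩
  have hQ : gQ2 z w = 0 := by linear_combination e2
  have hz0 : 0 ≤ nz z := Complex.normSq_nonneg z
  have hw0 : 0 ≤ nz w := Complex.normSq_nonneg w
  rcases lt_or_ge (nz z) (4 / 10) with c1 | c1
  · -- `z = 0`
    have hw : w ≠ 0 := ne_of_nz (by linarith)
    rw [gQ2, mz (show nz z - 8 / 10 ≤ 0 by linarith),
      mmz1 (show nz z - 5 / 10 ≤ 0 by linarith)] at hQ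
    have hb : 0 < max 0 (4 / 10 - nz z) := mp (by linarith)
    have h2 : ((max 0 (4 / 10 - nz z) : ℝ) : ℂ) * (cj z * w ^ 2) = 0 := by
      rw [Complex.ofReal_zero, zero_mul, zero_mul, zero_add, zero_add] at hQ
      exact hQ
    have h3 : cj z = 0 := by
      rcases mul_eq_zero.1 h2 with h4 | h4
      · exact absurd (Complex.ofReal_eq_zero.1 h4) hb.ne'
      · rcases mul_eq_zero.1 h4 with h5 | h5
        · exact h5
        · exact absurd h5 (pow_ne_zero 2 hw)
    have hz : z = 0 := (map_eq_zero _).1 h3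
    subst hz
    have hn : nz 0 = 0 := map_zero _
    rw [gP1, gP4, hn, mz (show (0 : ℝ) - 7 / 10 ≤ 0 by norm_num),
      mmz1 (show (0 : ℝ) - 3 / 10 ≤ 0 by norm_num), mz (show (0 : ℝ) - 5 / 10 ≤ 0 by norm_num),
      mmz1 (show (0 : ℝ) - 3 / 10 ≤ 0 by norm_num),
      max_eq_right (show (0 : ℝ) ≤ 2 / 10 - 0 by norm_num)] at e1
    have h4 : ((1 - t) * Complex.I - t) * w ^ 6 = 0 := by
      push_cast at e1
      linear_combination 5 * e1
    rcases mul_eq_zero.1 h4 with h5 | h5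
    · have h6 := congrArg Complex.re h5
      have h7 := congrArg Complex.im h5
      simp at h6 h7
      linarith
    · exact pow_ne_zero 6 hw h5
  rcases le_or_gt (nz z) (5 / 10) with c2 | c2
  · have hz : z ≠ 0 := ne_of_nz (by linarith)
    have hw : w ≠ 0 := ne_of_nz (by linarith)
    rw [gP1, gP4, mz (show nz z - 7 / 10 ≤ 0 by linarith),
      mz (show 2 / 10 - nz z ≤ 0 by linarith), mz (show nz z - 5 / 10 ≤ 0 by linarith)] at e1
    refine comb_ne h0 h1 (mmp (show 0 < nz z - 3 / 10 by linarith)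
      (show 0 < 6 / 10 - nz z by linarith)) (mmp (show 0 < nz z - 3 / 10 by linarith)
      (show 0 < 7 / 10 - nz z by linarith)) (mul_ne_zero (pow_ne_zero 3 hz) (pow_ne_zero 3 hw)) ?_
    rw [Complex.ofReal_zero] at e1
    linear_combination e1
  rcases le_or_gt (nz z) (8 / 10) with c3 | c3
  · have hz : z ≠ 0 := ne_of_nz (by linarith)
    have hw : w ≠ 0 := ne_of_nz (by linarith)
    rw [gQ2, mz (show nz z - 8 / 10 ≤ 0 by linarith),
      mz (show 4 / 10 - nz z ≤ 0 by linarith)] at hQ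
    have hb := mmp (show 0 < nz z - 5 / 10 by linarith) (show 0 < 9 / 10 - nz z by linarith)
    have h2 : ((max 0 (min (nz z - 5 / 10) (9 / 10 - nz z)) : ℝ) : ℂ) * (cj z ^ 3 * cj w) = 0 := by
      rw [Complex.ofReal_zero] at hQ
      linear_combination hQ
    exact mul_ne_zero (Complex.ofReal_ne_zero.2 hb.ne')
      (mul_ne_zero (pow_ne_zero 3 (cj_ne hz)) (cj_ne hw)) h2
  rcases lt_or_ge (nz z) (9 / 10) with c4 | c4
  · have hw : w ≠ 0 := ne_of_nz (by linarith)
    rw [gQ2, mz (show 4 / 10 - nz z ≤ 0 by linarith)] at hQ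
    rw [gP1, gP4, mmz2 (show 6 / 10 - nz z ≤ 0 by linarith),
      mz (show 2 / 10 - nz z ≤ 0 by linarith),
      mmz2 (show 7 / 10 - nz z ≤ 0 by linarith)] at e1
    have p1 := mp (show 0 < nz z - 7 / 10 by linarith)
    have p2 := mp (show 0 < nz z - 8 / 10 by linarith)
    have p3 := mmp (show 0 < nz z - 5 / 10 by linarith) (show 0 < 9 / 10 - nz z by linarith)
    have p4 := mp (show 0 < nz z - 5 / 10 by linarith)
    revert e1 hQ p1 p2 p3 p4
    generalize max 0 (nz z - 7 / 10) = a1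
    generalize max 0 (nz z - 8 / 10) = b0
    generalize max 0 (min (nz z - 5 / 10) (9 / 10 - nz z)) = b2
    generalize max 0 (nz z - 5 / 10) = g1
    intro e1 hQ p1 p2 p3 p4
    rw [Complex.ofReal_zero] at hQ e1
    have hz' := mul_cj z
    have hw' := mul_cj w
    have q1 : 0 < a1 * b0 * nz z := mul_pos (mul_pos p1 p2) (by linarith)
    have q2 : 0 < g1 * b2 * nz w := mul_pos (mul_pos p4 p3) (by linarith)
    refine comb_ne h0 h1 q1 q2 hw ?_
    push_cast
    linear_combination (-b2 * (nz w : ℂ)) * e1 + (1 - t) * a1 * cj z * w * hQ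
      - (1 - t) * a1 * b2 * cj z ^ 4 * hw' - (1 - t) * a1 * b0 * w * hz'
  · have hz : z ≠ 0 := ne_of_nz (by linarith)
    rw [gQ2, mmz2 (show 9 / 10 - nz z ≤ 0 by linarith),
      mz (show 4 / 10 - nz z ≤ 0 by linarith)] at hQ
    have hb := mp (show 0 < nz z - 8 / 10 by linarith)
    have h2 : ((max 0 (nz z - 8 / 10) : ℝ) : ℂ) * z = 0 := by
      rw [Complex.ofReal_zero] at hQ
      linear_combination hQ
    exact mul_ne_zero (Complex.ofReal_ne_zero.2 hb.ne') hz h2

theorem mv2b (z w : ℂ) (h : nz z + nz w = 1) :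
    Seg (gP4 z w) (gQ2 z w) (gP4 z w) (gQ6 z w) := by
  rintro t h0 h1 ⟨e1, e2⟩
  have hP : gP4 z w = 0 := by linear_combination e1
  have hz0 : 0 ≤ nz z := Complex.normSq_nonneg z
  have hw0 : 0 ≤ nz w := Complex.normSq_nonneg w
  rcases lt_or_ge (nz z) (2 / 10) with c1 | c1
  · have hw : w ≠ 0 := ne_of_nz (by linarith)
    rw [gP4, mz (show nz z - 5 / 10 ≤ 0 by linarith),
      mmz1 (show nz z - 3 / 10 ≤ 0 by linarith)] at hP
    have hb := mp (show 0 < 2 / 10 - nz z by linarith)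
    have h2 : ((max 0 (2 / 10 - nz z) : ℝ) : ℂ) * w ^ 6 = 0 := by
      rw [Complex.ofReal_zero] at hP
      linear_combination -hP
    exact mul_ne_zero (Complex.ofReal_ne_zero.2 hb.ne') (pow_ne_zero 6 hw) h2
  rcases le_or_gt (nz z) (3 / 10) with c2 | c2
  · have hz : z ≠ 0 := ne_of_nz (by linarith)
    have hw : w ≠ 0 := ne_of_nz (by linarith)
    rw [gQ2, gQ6, mz (show nz z - 8 / 10 ≤ 0 by linarith),
      mmz1 (show nz z - 5 / 10 ≤ 0 by linarith),
      mmz1 (show nz z - 35 / 100 ≤ 0 by linarith)] at e2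
    refine comb_ne h0 h1 (mp (show 0 < 4 / 10 - nz z by linarith))
      (mp (show 0 < 45 / 100 - nz z by linarith)) (mul_ne_zero (cj_ne hz) (pow_ne_zero 2 hw)) ?_
    rw [Complex.ofReal_zero] at e2
    linear_combination e2
  rcases le_or_gt (nz z) (5 / 10) with c3 | c3
  · have hz : z ≠ 0 := ne_of_nz (by linarith)
    have hw : w ≠ 0 := ne_of_nz (by linarith)
    rw [gP4, mz (show nz z - 5 / 10 ≤ 0 by linarith),
      mz (show 2 / 10 - nz z ≤ 0 by linarith)] at hP
    have hb := mmp (show 0 < nz z - 3 / 10 by linarith) (show 0 < 7 / 10 - nz z by linarith)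
    have h2 : ((max 0 (min (nz z - 3 / 10) (7 / 10 - nz z)) : ℝ) : ℂ) * (z ^ 3 * w ^ 3) = 0 := by
      rw [Complex.ofReal_zero] at hP
      linear_combination hP
    exact mul_ne_zero (Complex.ofReal_ne_zero.2 hb.ne')
      (mul_ne_zero (pow_ne_zero 3 hz) (pow_ne_zero 3 hw)) h2
  rcases lt_or_ge (nz z) (7 / 10) with c4 | c4
  · have hw : w ≠ 0 := ne_of_nz (by linarith)
    rw [gP4, mz (show 2 / 10 - nz z ≤ 0 by linarith)] at hP
    rw [gQ2, gQ6, mz (show nz z - 8 / 10 ≤ 0 by linarith),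
      mz (show 4 / 10 - nz z ≤ 0 by linarith), mz (show 45 / 100 - nz z ≤ 0 by linarith)] at e2
    have p1 := mp (show 0 < nz z - 5 / 10 by linarith)
    have p2 := mmp (show 0 < nz z - 3 / 10 by linarith) (show 0 < 7 / 10 - nz z by linarith)
    have p3 := mmp (show 0 < nz z - 5 / 10 by linarith) (show 0 < 9 / 10 - nz z by linarith)
    have p4 := mmp (show 0 < nz z - 35 / 100 by linarith) (show 0 < 9 / 10 - nz z by linarith)
    revert e2 hP p1 p2 p3 p4
    generalize max 0 (nz z - 5 / 10) = g1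
    generalize max 0 (min (nz z - 3 / 10) (7 / 10 - nz z)) = g3
    generalize max 0 (min (nz z - 5 / 10) (9 / 10 - nz z)) = b2
    generalize max 0 (min (nz z - 35 / 100) (9 / 10 - nz z)) = d2
    intro e2 hP p1 p2 p3 p4
    rw [Complex.ofReal_zero] at hP e2
    have hw' := mul_cj w
    have h2 : (-(g1 : ℂ) + g3 * (z ^ 3 * w ^ 2)) * w = 0 := by linear_combination hP
    have h3 : -(g1 : ℂ) + g3 * (z ^ 3 * w ^ 2) = 0 := by
      rcases mul_eq_zero.1 h2 with h4 | h4
      · exact h4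
      · exact absurd h4 hw
    have h4 : -(g1 : ℂ) + g3 * (cj z ^ 3 * cj w ^ 2) = 0 := by
      have h5 := congrArg cj h3
      simp only [map_add, map_neg, map_mul, map_pow, map_zero, Complex.conj_ofReal] at h5
      exact h5
    have q1 : 0 < b2 * g1 := mul_pos p3 p1
    have q2 : 0 < d2 * g3 * nz w := mul_pos (mul_pos p4 p2) (by linarith)
    refine comb_ne h0 h1 q1 q2 hw ?_
    push_cast
    linear_combination (g3 * (nz w : ℂ)) * e2 - (1 - t) * b2 * w * h4
      + (1 - t) * b2 * g3 * cj z ^ 3 * cj w * hw'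
  · rw [gP4, mmz2 (show 7 / 10 - nz z ≤ 0 by linarith),
      mz (show 2 / 10 - nz z ≤ 0 by linarith)] at hP
    have hb := mp (show 0 < nz z - 5 / 10 by linarith)
    have h2 : ((max 0 (nz z - 5 / 10) : ℝ) : ℂ) * w = 0 := by
      rw [Complex.ofReal_zero] at hP
      linear_combination -hP
    have hw : w = 0 := by
      rcases mul_eq_zero.1 h2 with h3 | h3
      · exact absurd (Complex.ofReal_eq_zero.1 h3) hb.ne'
      · exact h3
    subst hw
    have hn : nz 0 = 0 := map_zero _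
    rw [hn, add_zero] at h
    have hz : z ≠ 0 := ne_of_nz (by linarith)
    have hcj : cj 0 = 0 := map_zero (starRingEnd ℂ)
    rw [gQ2, gQ6, hcj] at e2
    refine comb_ne h0 h1 (mp (show 0 < nz z - 8 / 10 by linarith))
      (mp (show 0 < nz z - 8 / 10 by linarith)) hz ?_
    linear_combination e2

end Mv2Aux

open Mv2Aux in
theorem stMv2 : StMv2 := fun z w h => ⟨mv2a z w h, mv2b z w h⟩

end Pool.Agent.Lib.MP_39dc45_gt.SP
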