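import Pool.Agent.Lib.MP_39dc45_gt.SP.StT

/-!
# MP_39dc45_gt: moves 5, 6 and 7
-/

open scoped Topology
open Matrix

noncomputable section

namespace Pool.Agent.Lib.MP_39dc45_gt.SP

namespace Mv3

theorem comb_pos {t x y : ℝ} (h0 : 0 ≤ t) (h1 : t ≤ 1) (hx : 0 < x) (hy : 0 < y) :
    0 < (1 - t) * x + t * y := by
  rcases eq_or_lt_of_le h0 with h | h
  · rw [← h]; linarith
  · have a1 := mul_pos h hy
    have a2 := mul_nonneg (sub_nonneg.2 h1) hx.le
    linarith

theorem eq_zero_of_real {x : ℝ} {a : ℂ} (hx : 0 < x) (h : (x : ℂ) * a = 0) : a = 0 := by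
  rcases mul_eq_zero.1 h with h1 | h1
  · exact absurd (Complex.ofReal_eq_zero.1 h1) hx.ne'
  · exact h1

theorem nz_nonneg (z : ℂ) : 0 ≤ nz z := Complex.normSq_nonneg z

theorem nz_zero : nz 0 = 0 := Complex.normSq_zero

theorem q6_a {z w : ℂ} (h1 : nz z ≤ 35 / 100) :
    gQ6 z w = ((45 / 100 - nz z : ℝ) : ℂ) * (cj z * w ^ 2) := by
  unfold gQ6
  rw [max_eq_left (by linarith : nz z - 8 / 10 ≤ 0),
    max_eq_left ((min_le_left _ _).trans (by linarith : nz z - 35 / 100 ≤ 0)),
    max_eq_right (by linarith : (0 : ℝ) ≤ 45 / 100 - nz z)]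
  push_cast
  ring

theorem q6_b {z w : ℂ} (h1 : 35 / 100 < nz z) (h2 : nz z < 45 / 100) :
    gQ6 z w = ((nz z - 35 / 100 : ℝ) : ℂ) * w + ((45 / 100 - nz z : ℝ) : ℂ) * (cj z * w ^ 2) := by
  unfold gQ6
  rw [max_eq_left (by linarith : nz z - 8 / 10 ≤ 0),
    min_eq_left (by linarith : nz z - 35 / 100 ≤ 9 / 10 - nz z),
    max_eq_right (by linarith : (0 : ℝ) ≤ nz z - 35 / 100),
    max_eq_right (by linarith : (0 : ℝ) ≤ 45 / 100 - nz z)]
  push_cast
  ring

theorem q6_c {z w : ℂ} (h1 : 45 / 100 ≤ nz z) (h2 : nz z ≤ 8 / 10) :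
    gQ6 z w = ((min (nz z - 35 / 100) (9 / 10 - nz z) : ℝ) : ℂ) * w := by
  unfold gQ6
  rw [max_eq_left (by linarith : nz z - 8 / 10 ≤ 0),
    max_eq_right (le_min (by linarith) (by linarith) :
      (0 : ℝ) ≤ min (nz z - 35 / 100) (9 / 10 - nz z)),
    max_eq_left (by linarith : 45 / 100 - nz z ≤ 0)]
  push_cast
  ring

theorem q6_d {z w : ℂ} (h1 : 8 / 10 < nz z) (h2 : nz z < 9 / 10) :
    gQ6 z w = ((nz z - 8 / 10 : ℝ) : ℂ) * z + ((9 / 10 - nz z : ℝ) : ℂ) * w := by
  unfold gQ6
  rw [max_eq_right (by linarith : (0 : ℝ) ≤ nz z - 8 / 10),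
    min_eq_right (by linarith : 9 / 10 - nz z ≤ nz z - 35 / 100),
    max_eq_right (by linarith : (0 : ℝ) ≤ 9 / 10 - nz z),
    max_eq_left (by linarith : 45 / 100 - nz z ≤ 0)]
  push_cast
  ring

theorem q6_e {z w : ℂ} (h1 : 9 / 10 ≤ nz z) :
    gQ6 z w = ((nz z - 8 / 10 : ℝ) : ℂ) * z := by
  unfold gQ6
  rw [max_eq_right (by linarith : (0 : ℝ) ≤ nz z - 8 / 10),
    max_eq_left ((min_le_right _ _).trans (by linarith : 9 / 10 - nz z ≤ 0)),
    max_eq_left (by linarith : 45 / 100 - nz z ≤ 0)]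
  push_cast
  ring

end Mv3

open Mv3 in
/-- Moves 5, 6 and 7. -/
theorem stMv3 : StMv3 := by
  intro z w hzw
  have hz0 := nz_nonneg z
  have hw0 := nz_nonneg w
  have zne : z = 0 → nz z = 0 := fun h => by rw [h, nz_zero]
  have wne : w = 0 → nz z = 1 := fun h => by
    rw [h, nz_zero] at hzw
    linarith
  refine ⟨?_, ?_, ?_⟩
  · -- move 5
    rintro t t0 t1 ⟨hP, hQ⟩
    have hQ' : gQ6 z w = 0 := by
      have : (1 - (t : ℂ)) * gQ6 z w + t * gQ6 z w = gQ6 z w := by ring
      rw [← this, hQ]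
    rcases le_or_gt (nz z) (35 / 100) with c1 | c1
    · -- `z = 0`
      rw [q6_a c1] at hQ'
      have h1 := eq_zero_of_real (by linarith) hQ'
      have hw : w ≠ 0 := fun h => by have := wne h; linarith
      have h2 : cj z = 0 := by
        rcases mul_eq_zero.1 h1 with h | h
        · exact h
        · exact absurd (pow_eq_zero_iff two_ne_zero |>.1 h) hw
      have h3 : z = 0 := by
        have := congrArg cj h2
        simpa using this
      have h4 := zne h3
      unfold gP4 gP8 at hP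
      rw [h4, max_eq_left (by norm_num : (0 : ℝ) - 5 / 10 ≤ 0),
        max_eq_left ((min_le_left _ _).trans (by norm_num : (0 : ℝ) - 3 / 10 ≤ 0)),
        max_eq_right (by norm_num : (0 : ℝ) ≤ 2 / 10 - 0),
        max_eq_right (by norm_num : (0 : ℝ) ≤ 7 / 10 - 0)] at hP
      have h5 : (((1 - t) * (2 / 10) + t * (7 / 10) : ℝ) : ℂ) * w ^ 6 = 0 := by
        push_cast at hP ⊢
        linear_combination -hP
      exact hw (pow_eq_zero_iff (by norm_num) |>.1
        (eq_zero_of_real (comb_pos t0 t1 (by norm_num) (by norm_num)) h5))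
    rcases lt_or_ge (nz z) (45 / 100) with c2 | c2
    · have hw : w ≠ 0 := fun h => by have := wne h; linarith
      rw [q6_b c1 c2] at hQ'
      set β : ℝ := nz z - 35 / 100 with hβ
      set γ : ℝ := 45 / 100 - nz z with hγ
      have β0 : 0 < β := by linarith
      have γ0 : 0 < γ := by linarith
      have v0 : 0 < nz w := by linarith
      have h1 : (β : ℂ) + γ * (cj z * w) = 0 := by
        have : w * ((β : ℂ) + γ * (cj z * w)) = 0 := by rw [← hQ']; ring
        exact (mul_eq_zero.1 this).resolve_left hw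
      have h2 : (β : ℂ) + γ * (z * cj w) = 0 := by
        have := congrArg cj h1
        simpa using this
      have hv : w * cj w = ((nz w : ℝ) : ℂ) := Complex.mul_conj w
      have h3 : (γ : ℂ) * (nz w : ℝ) * z = -(β : ℂ) * w := by
        linear_combination w * h2 - (γ : ℂ) * z * hv
      have eP4 : gP4 z w = ((nz z - 3 / 10 : ℝ) : ℂ) * (z ^ 3 * w ^ 3) := by
        unfold gP4
        rw [max_eq_left (by linarith : nz z - 5 / 10 ≤ 0),
          min_eq_left (by linarith : nz z - 3 / 10 ≤ 7 / 10 - nz z),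
          max_eq_right (by linarith : (0 : ℝ) ≤ nz z - 3 / 10),
          max_eq_left (by linarith : 2 / 10 - nz z ≤ 0)]
        push_cast
        ring
      have eP8 : gP8 z w = -((7 / 10 - nz z : ℝ) : ℂ) * w ^ 6 := by
        unfold gP8
        rw [max_eq_left (by linarith : nz z - 5 / 10 ≤ 0),
          max_eq_right (by linarith : (0 : ℝ) ≤ 7 / 10 - nz z)]
        push_cast
        ring
      rw [eP4, eP8] at hP
      set b : ℝ := nz z - 3 / 10 with hb
      set d : ℝ := 7 / 10 - nz z with hd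
      have b0 : 0 < b := by linarith
      have d0 : 0 < d := by linarith
      have h4 : (((1 - t) * (b * β ^ 3) + t * (d * (γ * nz w) ^ 3) : ℝ) : ℂ) * w ^ 6 = 0 := by
        have h5 : ((γ : ℂ) * (nz w : ℝ) * z) ^ 3 = (-(β : ℂ) * w) ^ 3 := by rw [h3]
        push_cast
        linear_combination (-((γ : ℂ) * (nz w : ℝ)) ^ 3) * hP + (1 - (t : ℂ)) * b * w ^ 3 * h5
      exact hw (pow_eq_zero_iff (by norm_num) |>.1
        (eq_zero_of_real (comb_pos t0 t1 (by positivity) (by positivity)) h4))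
    rcases le_or_gt (nz z) (8 / 10) with c3 | c3
    · rw [q6_c c2 c3] at hQ'
      have hw := eq_zero_of_real (lt_min (by linarith) (by linarith)) hQ'
      have := wne hw
      linarith
    rcases lt_or_ge (nz z) (9 / 10) with c4 | c4
    · have hw : w ≠ 0 := fun h => by have := wne h; linarith
      rw [q6_d c3 c4] at hQ'
      have eP4 : gP4 z w = -((nz z - 5 / 10 : ℝ) : ℂ) * w := by
        unfold gP4
        rw [max_eq_right (by linarith : (0 : ℝ) ≤ nz z - 5 / 10),
          max_eq_left ((min_le_right _ _).trans (by linarith : 7 / 10 - nz z ≤ 0)),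
          max_eq_left (by linarith : 2 / 10 - nz z ≤ 0)]
        push_cast
        ring
      have eP8 : gP8 z w = ((nz z - 5 / 10 : ℝ) : ℂ) * z := by
        unfold gP8
        rw [max_eq_right (by linarith : (0 : ℝ) ≤ nz z - 5 / 10),
          max_eq_left (by linarith : 7 / 10 - nz z ≤ 0)]
        push_cast
        ring
      rw [eP4, eP8] at hP
      set a : ℝ := nz z - 5 / 10 with ha
      set a' : ℝ := nz z - 8 / 10 with ha'
      set b' : ℝ := 9 / 10 - nz z with hb'
      have a0 : 0 < a := by linarith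
      have a0' : 0 < a' := by linarith
      have b0' : 0 < b' := by linarith
      have h4 : (((1 - t) * (a * a') + t * (a * b') : ℝ) : ℂ) * w = 0 := by
        push_cast
        linear_combination -(a' : ℂ) * hP + (t : ℂ) * a * hQ'
      exact hw (eq_zero_of_real (comb_pos t0 t1 (by positivity) (by positivity)) h4)
    · rw [q6_e c4] at hQ'
      have := zne (eq_zero_of_real (by linarith) hQ')
      linarith
  · -- move 6
    rintro t t0 t1 ⟨hP, hQ⟩
    have hP' : gP8 z w = 0 := by
      have : (1 - (t : ℂ)) * gP8 z w + t * gP8 z w = gP8 z w := by ring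
      rw [← this, hP]
    unfold gP8 at hP'
    rcases le_or_gt (nz z) (5 / 10) with c1 | c1
    · rw [max_eq_left (by linarith : nz z - 5 / 10 ≤ 0),
        max_eq_right (by linarith : (0 : ℝ) ≤ 7 / 10 - nz z)] at hP'
      have h1 : ((7 / 10 - nz z : ℝ) : ℂ) * w ^ 6 = 0 := by
        push_cast at hP' ⊢
        linear_combination -hP'
      have hw := pow_eq_zero_iff (by norm_num) |>.1 (eq_zero_of_real (by linarith) h1)
      have := wne hw
      linarith
    rcases lt_or_ge (nz z) (7 / 10) with c2 | c2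
    · rw [q6_c (by linarith) (by linarith)] at hQ
      have h1 : (((1 - t) * (min (nz z - 35 / 100) (9 / 10 - nz z)) + t * 1 : ℝ) : ℂ) * w = 0 := by
        rw [← hQ]
        push_cast
        ring
      have hw := eq_zero_of_real (comb_pos t0 t1 (lt_min (by linarith) (by linarith))
        one_pos) h1
      have := wne hw
      linarith
    · rw [max_eq_right (by linarith : (0 : ℝ) ≤ nz z - 5 / 10),
        max_eq_left (by linarith : 7 / 10 - nz z ≤ 0)] at hP'
      have h1 : ((nz z - 5 / 10 : ℝ) : ℂ) * z = 0 := by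
        push_cast at hP' ⊢
        linear_combination hP'
      have := zne (eq_zero_of_real (by linarith) h1)
      linarith
  · -- move 7
    rintro t t0 t1 ⟨hP, hQ⟩
    have hw : w = 0 := by
      have : (1 - (t : ℂ)) * w + t * w = w := by ring
      rw [← this, hQ]
    have h1 := wne hw
    unfold gP8 at hP
    rw [h1, max_eq_right (by norm_num : (0 : ℝ) ≤ 1 - 5 / 10),
      max_eq_left (by norm_num : (7 / 10 : ℝ) - 1 ≤ 0)] at hP
    have h2 : (((1 - t) * (5 / 10) + t * 1 : ℝ) : ℂ) * z = 0 := by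
      push_cast at hP ⊢
      linear_combination hP
    have := zne (eq_zero_of_real (comb_pos t0 t1 (by norm_num) one_pos) h2)
    linarith

end Pool.Agent.Lib.MP_39dc45_gt.SP
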