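import Pool.Agent.Lib.MP_39dc45_gt.SP.StT

/-!
# MP_39dc45_gt: the normal bundle of the submanifold
-/

open scoped Topology
open Matrix

noncomputable section

namespace Pool.Agent.Lib.MP_39dc45_gt.SP

namespace NB

variable {A S M G V : Type} [TopologicalSpace A] [TopologicalSpace S] [TopologicalSpace M]

theorem main (p : A × S → M) (hq : IsOpenQuotientMap p) (aA : G → A → A) (aS : G → S → S)
    (aV : G → V → V) (e1 : G) (hp : ∀ x s x' s', p (x, s) = p (x', s') → ∃ γ, aA γ x = x' ∧ aS γ s = s')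
    (hp' : ∀ γ x s, p (aA γ x, aS γ s) = p (x, s))
    (one1 : ∀ x, aA e1 x = x) (one2 : ∀ s, aS e1 s = s)
    (disj : ∀ (x : A) (s : S), ∃ W : Set S, IsOpen W ∧ s ∈ W ∧
      ∀ γ, ∀ s1 ∈ W, aS γ s1 ∈ W → aA γ x = x → γ = e1)
    (o : A → V → ℝ) (oc : ∀ v, Continuous fun x => o x v)
    (oi : ∀ γ x v, o (aA γ x) (aV γ v) = o x v) (vh : V → A)
    (uniq : ∀ x v v', o x v < 1 / 2 → o x v' < 1 / 2 → v = v')
    (oz : ∀ v x, o x v = 0 ↔ x = vh v)
    (ovh : ∀ γ v, aA γ (vh v) = vh (aV γ v))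
    (hom : ∀ v : V, ∃ e : {x : A // o x v < 1 / 2} ≃ₜ (Fin 4 → ℝ),
      ∀ x : {x : A // o x v < 1 / 2}, (x : A) = vh v → e x = 0)
    (Y : Set M) (hY : ∀ m, m ∈ Y ↔ ∃ v s, m = p (vh v, s)) :
    ∃ (U : Set M) (r : M → M), IsNormalBundle 4 Y U r ∧
      (∀ x s, p (x, s) ∈ U ↔ ∃ v, o x v < 1 / 2) ∧
      ∀ x s v, o x v < 1 / 2 → r (p (x, s)) = p (vh v, s) := by
  classical
  have ovv : ∀ v, o (vh v) v < 1 / 2 := by
    intro v
    rw [(oz v (vh v)).2 rfl]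
    norm_num
  -- well-definedness
  have wd : ∀ x s v x' s' v', o x v < 1 / 2 → o x' v' < 1 / 2 → p (x, s) = p (x', s') →
      p (vh v, s) = p (vh v', s') := by
    intro x s v x' s' v' h h' he
    obtain ⟨γ, rfl, rfl⟩ := hp _ _ _ _ he
    have h1 : o (aA γ x) (aV γ v) < 1 / 2 := by rw [oi]; exact h
    have h2 := uniq _ _ _ h1 h'
    rw [← h2, ← ovh, hp']
  let U : Set M := {m | ∃ x s v, o x v < 1 / 2 ∧ m = p (x, s)}
  have hU : ∀ x s, p (x, s) ∈ U ↔ ∃ v, o x v < 1 / 2 := by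
    intro x s
    constructor
    · rintro ⟨x', s', v', h', he⟩
      obtain ⟨γ, rfl, rfl⟩ := hp _ _ _ _ he.symm
      refine ⟨aV γ v', ?_⟩
      rw [oi]
      exact h'
    · rintro ⟨v, h⟩
      exact ⟨x, s, v, h, rfl⟩
  let r : M → M := fun m => if h : ∃ q : A × S × V, o q.1 q.2.2 < 1 / 2 ∧ m = p (q.1, q.2.1) then
    p (vh h.choose.2.2, h.choose.2.1) else m
  have hr : ∀ x s v, o x v < 1 / 2 → r (p (x, s)) = p (vh v, s) := by
    intro x s v h
    have hex : ∃ q : A × S × V, o q.1 q.2.2 < 1 / 2 ∧ p (x, s) = p (q.1, q.2.1) :=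
      ⟨(x, s, v), h, rfl⟩
    have : r (p (x, s)) = p (vh hex.choose.2.2, hex.choose.2.1) := dif_pos hex
    rw [this]
    exact wd _ _ _ _ _ _ hex.choose_spec.1 h hex.choose_spec.2.symm
  have hopen : ∀ v, IsOpen {x : A | o x v < 1 / 2} := fun v =>
    isOpen_lt (oc v) continuous_const
  refine ⟨U, r, ?_, hU, hr⟩
  constructor
  · -- open
    have : U = ⋃ v : V, p '' ({x : A | o x v < 1 / 2} ×ˢ Set.univ) := by
      ext m
      simp only [Set.mem_iUnion, Set.mem_image, Set.mem_prod, Set.mem_ofPred_eq, Set.mem_univ,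
        and_true, Prod.exists]
      constructor
      · rintro ⟨x, s, v, h, rfl⟩
        exact ⟨v, x, s, h, rfl⟩
      · rintro ⟨v, x, s, h, rfl⟩
        exact ⟨x, s, v, h, rfl⟩
    rw [this]
    exact isOpen_iUnion fun v => hq.isOpenMap _ ((hopen v).prod isOpen_univ)
  · -- subset
    intro m hm
    obtain ⟨v, s, rfl⟩ := (hY m).1 hm
    exact ⟨vh v, s, v, ovv v, rfl⟩
  · -- continuity
    rintro m ⟨x, s, v, h, rfl⟩
    apply ContinuousAt.continuousWithinAt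
    rw [← hq.continuousAt_comp_iff]
    have h1 : Continuous (fun q : A × S => p (vh v, q.2)) := hq.continuous.comp (by fun_prop)
    refine h1.continuousAt.congr ?_
    have h2 : {q : A × S | o q.1 v < 1 / 2} ∈ 𝓝 (x, s) :=
      (isOpen_lt ((oc v).comp continuous_fst) continuous_const).mem_nhds h
    filter_upwards [h2] with q hq2
    exact (hr q.1 q.2 v hq2).symm
  · -- maps to
    rintro m ⟨x, s, v, h, rfl⟩
    rw [hr x s v h]
    exact (hY _).2 ⟨v, s, rfl⟩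
  · -- retract
    intro m hm
    obtain ⟨v, s, rfl⟩ := (hY m).1 hm
    exact hr _ _ _ (ovv v)
  · -- local triviality
    intro m hm
    obtain ⟨v₀, s₀, rfl⟩ := (hY m).1 hm
    obtain ⟨W, hWo, hWs, hW⟩ := disj (vh v₀) s₀
    obtain ⟨e₀, he₀⟩ := hom v₀
    let O : Set M := p '' ({x : A | o x v₀ < 1 / 2} ×ˢ W)
    have hOo : IsOpen O := hq.isOpenMap _ ((hopen v₀).prod hWo)
    refine ⟨O, hOo, ⟨(vh v₀, s₀), ⟨ovv v₀, hWs⟩, rfl⟩, ?_⟩
    let f : {x : A // o x v₀ < 1 / 2} × W → M := fun q => p (q.1, q.2)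
    have finj : Function.Injective f := by
      rintro ⟨⟨x, hx⟩, ⟨s, hs⟩⟩ ⟨⟨x', hx'⟩, ⟨s', hs'⟩⟩ he
      obtain ⟨γ, h1, h2⟩ := hp x s x' s' he
      have h3 : aV γ v₀ = v₀ := by
        apply uniq x' _ _ _ hx'
        rw [← h1, oi]
        exact hx
      have h4 : γ = e1 := by
        apply hW γ s hs
        · rw [h2]; exact hs'
        · rw [ovh, h3]
      rw [h4, one1] at h1
      rw [h4, one2] at h2
      subst h1 h2
      rfl
    have fo : Topology.IsOpenEmbedding f := by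
      apply Topology.IsOpenEmbedding.of_continuous_injective_isOpenMap
      · exact hq.continuous.comp (by fun_prop)
      · exact finj
      · apply hq.isOpenMap.comp
        exact (hopen v₀).isOpenMap_subtype_val.prodMap hWo.isOpenMap_subtype_val
    have frange : ∀ m, m ∈ Set.range f ↔ m ∈ U ∧ r m ∈ O := by
      intro m
      constructor
      · rintro ⟨⟨⟨x, hx⟩, ⟨s, hs⟩⟩, rfl⟩
        refine ⟨⟨x, s, v₀, hx, rfl⟩, ?_⟩
        change r (p (x, s)) ∈ O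
        rw [hr x s v₀ hx]
        exact ⟨(vh v₀, s), ⟨ovv v₀, hs⟩, rfl⟩
      · rintro ⟨⟨x, s, v, hx, rfl⟩, hO⟩
        rw [hr x s v hx] at hO
        obtain ⟨⟨x', s'⟩, ⟨hx', hs'⟩, he⟩ := hO
        obtain ⟨γ, h1, h2⟩ := hp _ _ _ _ he.symm
        have h3 : aV γ v = v₀ := by
          apply uniq x' _ _ _ hx'
          rw [← h1, oi]
          exact ovv v
        refine ⟨⟨⟨aA γ x, ?_⟩, ⟨aS γ s, ?_⟩⟩, ?_⟩
        · rw [← h3, oi]; exact hx
        · rw [h2]; exact hs'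
        · exact hp' γ x s
    let h1 : ({x : A // o x v₀ < 1 / 2} × W) ≃ₜ {m : M // m ∈ U ∧ r m ∈ O} :=
      fo.isEmbedding.toHomeomorph.trans (Homeomorph.subtype (Homeomorph.refl M) frange)
    let g : W → M := fun w => f (⟨vh v₀, ovv v₀⟩, w)
    have gemb : Topology.IsEmbedding g :=
      fo.isEmbedding.comp (isEmbedding_prodMkRight _)
    have grange : ∀ m, m ∈ Set.range g ↔ m ∈ Y ∧ m ∈ O := by
      intro m
      constructor
      · rintro ⟨⟨s, hs⟩, rfl⟩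
        exact ⟨(hY _).2 ⟨v₀, s, rfl⟩, ⟨(vh v₀, s), ⟨ovv v₀, hs⟩, rfl⟩⟩
      · rintro ⟨hmY, ⟨x, s⟩, ⟨hx, hs⟩, rfl⟩
        obtain ⟨v, s', he⟩ := (hY _).1 hmY
        obtain ⟨γ, h1, h2⟩ := hp _ _ _ _ he.symm
        have hxv : o x (aV γ v) < 1 / 2 := by
          rw [← h1, oi]; exact ovv v
        have h3 : aV γ v = v₀ := uniq x _ _ hxv hx
        refine ⟨⟨s, hs⟩, ?_⟩
        change p (vh v₀, s) = p (x, s)
        rw [← h3, ← ovh, h1]
    let h2 : W ≃ₜ {m : M // m ∈ Y ∧ m ∈ O} :=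
      gemb.toHomeomorph.trans (Homeomorph.subtype (Homeomorph.refl M) grange)
    refine ⟨h1.symm.trans ((Homeomorph.prodComm _ _).trans (h2.prodCongr e₀)), ?_⟩
    intro x
    obtain ⟨q, rfl⟩ := h1.surjective x
    obtain ⟨⟨a, ha⟩, ⟨s, hs⟩⟩ := q
    have e1 : (h1.symm.trans ((Homeomorph.prodComm _ _).trans (h2.prodCongr e₀)))
        (h1 (⟨a, ha⟩, ⟨s, hs⟩)) = (h2 ⟨s, hs⟩, e₀ ⟨a, ha⟩) := by
      simp
    rw [e1]
    constructor
    · change p (vh v₀, s) = r (p (a, s))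
      rw [hr a s v₀ ha]
    · intro hm'
      apply he₀
      change p (a, s) ∈ Y at hm'
      obtain ⟨v, s', he⟩ := (hY _).1 hm'
      obtain ⟨γ, h1, h2⟩ := hp _ _ _ _ he.symm
      have hxv : o a (aV γ v) < 1 / 2 := by
        rw [← h1, oi]; exact ovv v
      have h3 : aV γ v = v₀ := uniq a _ _ hxv ha
      change a = vh v₀
      rw [← h3, ← ovh, h1]

end NB

/-- The point `(x, s)` of the covering. -/
def NB.mkC (σ : Side) (x : Fin 4 → ℝ) (s : Sph 3) : (exD σ).Cov := (x, s)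

theorem NB.smul_mkC (σ : Side) (γ : (exD σ).Gam) (x : Fin 4 → ℝ) (s : Sph 3) :
    γ • NB.mkC σ x s
      = NB.mkC σ ((exR.mat γ.g).map (Int.cast : ℤ → ℝ) *ᵥ x + fun i => (γ.v i : ℝ))
        (act5 σ γ.g s) := rfl

theorem NB.cont_bet (i : ZMod 5) : Continuous fun x : Fin 4 → ℝ => bet x i := by
  fin_cases i
  · change Continuous fun x : Fin 4 → ℝ => -x 0
    fun_prop
  · change Continuous fun x : Fin 4 → ℝ => x 0 - x 1
    fun_prop
  · change Continuous fun x : Fin 4 → ℝ => x 1 - x 2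
    fun_prop
  · change Continuous fun x : Fin 4 → ℝ => x 2 - x 3
    fun_prop
  · change Continuous fun x : Fin 4 → ℝ => x 3
    fun_prop

theorem NB.cont_osc4 (v : V4) : Continuous fun x => osc4 x v := by
  unfold osc4
  apply Continuous.sub
  · apply Continuous.finset_sup'_apply
    intro i _
    exact continuous_const.sub (NB.cont_bet i)
  · apply Continuous.finset_inf'_apply
    intro i _
    exact continuous_const.sub (NB.cont_bet i)

theorem stNB (hC : StCov) (hF : StFix) (hR : StR4c) : StNB := by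
  intro σ
  obtain ⟨hF1, hF2, hF3, hF4, hF5, hF6⟩ := hF
  obtain ⟨-, -, -, hR4, -⟩ := hR
  have hq := hC (exD σ)
  refine NB.main (A := Fin 4 → ℝ) (S := Sph 3) (M := (exD σ).Mfd) (G := exR.Gam) (V := V4)
    (exD σ).proj hq.isOpenQuotientMap
    (fun γ x => (exR.mat γ.g).map (Int.cast : ℤ → ℝ) *ᵥ x + fun i => (γ.v i : ℝ))
    (fun γ s => act5 σ γ.g s) (fun γ v => γ • v) 1 ?_ ?_ ?_ ?_ ?_ osc4 NB.cont_osc4 hR4 vhat
    hF2 hF3 hF5 hF6 (exD σ).fixY ?_
  · intro x s x' s' he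
    obtain ⟨γ, hγ⟩ := hq.apply_eq_iff_mem_orbit.1 he.symm
    have hγ' : ((exR.mat γ.g).map (Int.cast : ℤ → ℝ) *ᵥ x + fun i => (γ.v i : ℝ), act5 σ γ.g s)
      = (x', s') := hγ
    exact ⟨γ, congrArg Prod.fst hγ', congrArg Prod.snd hγ'⟩
  · intro γ x s
    exact hq.map_smul γ (e := NB.mkC σ x s)
  · intro x
    have := NB.smul_mkC σ 1 x ⟨vec 1 0, by
      rw [mem_sphere_zero_iff_norm, EuclideanSpace.norm_eq]
      simp [vec, Fin.sum_univ_four]⟩
    rw [one_smul] at this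
    exact (congrArg Prod.fst this).symm
  · intro s
    have := NB.smul_mkC σ 1 0 s
    rw [one_smul] at this
    exact (congrArg Prod.snd this).symm
  · intro x s
    obtain ⟨N, hN, hN'⟩ := hq.disjoint (NB.mkC σ x s)
    obtain ⟨u, W, hu, hxu, hW, hsW, hsub⟩ :=
      (mem_nhds_prod_iff' (s := (N : Set ((Fin 4 → ℝ) × Sph 3))) (x := x) (y := s)).1 hN
    refine ⟨W, hW, hsW, ?_⟩
    intro γ s1 hs1 hs2 hx
    apply hN' γ
    refine ⟨NB.mkC σ x (act5 σ γ.g s1), ⟨NB.mkC σ x s1, hsub ⟨hxu, hs1⟩, ?_⟩, hsub ⟨hxu, hs2⟩⟩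
    change γ • NB.mkC σ x s1 = NB.mkC σ x (act5 σ γ.g s1)
    rw [NB.smul_mkC]
    exact Prod.ext hx rfl
  · intro m
    constructor
    · rintro ⟨x, s, hx, rfl⟩
      obtain ⟨y, hy⟩ : ∃ y : Fin 4 → ℝ, (fun i => ((y i : ℝ) : UnitAddCircle)) = x := by
        choose y hy using fun i => QuotientAddGroup.mk_surjective (x i)
        exact ⟨y, funext hy⟩
      obtain ⟨v, hv⟩ := (hF1 y).1 (by
        intro g
        rw [hy]
        exact hx g)
      refine ⟨v, s, ?_⟩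
      rw [← hv, ← hy]
      rfl
    · rintro ⟨v, s, rfl⟩
      refine ⟨fun i => ((vhat v i : ℝ) : UnitAddCircle), s, ?_, rfl⟩
      exact (hF1 (vhat v)).2 ⟨v, rfl⟩

end Pool.Agent.Lib.MP_39dc45_gt.SP
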