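import Pool.Agent.Lib.MP_39dc45_gt.SP.StA

/-!
# MP_39dc45_gt: the product with the torus, freeness and finiteness
-/

open Matrix

noncomputable section

namespace Pool.Agent.Lib.MP_39dc45_gt.SP

namespace P0

theorem asym_prodR {V K : Type} (RV : V → V → Prop) (RK : K → K → Prop) (hV : Asym RV)
    (hK : Asym RK) : Asym (prodR RV RK) := by
  rintro ⟨a1, a2⟩ ⟨b1, b2⟩ ⟨hne, h1, h2⟩ ⟨-, h3, h4⟩
  apply hne
  have e1 : a1 = b1 := by
    rcases h1 with h1 | h1
    · exact h1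
    · rcases h3 with h3 | h3
      · exact h3.symm
      · exact absurd h3 (hV _ _ h1)
  have e2 : a2 = b2 := by
    rcases h2 with h2 | h2
    · exact h2
    · rcases h4 with h4 | h4
      · exact h4.symm
      · exact absurd h4 (hK _ _ h2)
  rw [e1, e2]

theorem inv_prodR {Γ C V K : Type} [Group Γ] [Group C] [MulAction Γ V] [MulAction Γ K]
    [MulAction C K] (π : Γ →* C) (RV : V → V → Prop) (RK : K → K → Prop) (hV : Inv Γ RV)
    (hK : Inv C RK) (hc : ∀ (γ : Γ) (k : K), γ • k = π γ • k) : Inv Γ (prodR RV RK) := by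
  rintro γ ⟨a1, a2⟩ ⟨b1, b2⟩ ⟨hne, h1, h2⟩
  refine ⟨?_, ?_, ?_⟩
  · intro h
    exact hne (MulAction.injective γ h)
  · rcases h1 with h1 | h1
    · exact Or.inl (congrArg (γ • ·) h1)
    · exact Or.inr (hV γ _ _ h1)
  · rcases h2 with h2 | h2
    · exact Or.inl (congrArg (γ • ·) h2)
    · right
      change RK (γ • a2) (γ • b2)
      rw [hc, hc]
      exact hK _ _ _ h2

theorem free_prod {Γ C V K : Type} [Group Γ] [Group C] [MulAction Γ V] [MulAction Γ K]
    [MulAction C K] (π : Γ →* C) (hK : Free C K) (hc : ∀ (γ : Γ) (k : K), γ • k = π γ • k)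
    (hst : ∀ (v : V) (c : C), ∃! γ : Γ, γ • v = v ∧ π γ = c) : Free Γ (V × K) := by
  rintro γ ⟨v, k⟩ h
  have h1 : γ • v = v := congrArg Prod.fst h
  have h2 : γ • k = k := congrArg Prod.snd h
  rw [hc] at h2
  have h3 : π γ = 1 := hK _ _ h2
  exact (hst v 1).unique ⟨h1, h3⟩ ⟨one_smul _ _, map_one π⟩

theorem simp_prod {V K K' : Type} (RV : V → V → Prop) (RK : K → K → Prop)
    (RK' : K' → K' → Prop) (f : K' → K) (hf : IsSimp RK' RK f) :
    IsSimp (prodR RV RK') (prodR RV RK) (Prod.map (id : V → V) f) := by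
  rintro ⟨a1, a2⟩ ⟨b1, b2⟩ ⟨hne, h1, h2⟩
  by_cases he : (Prod.map (id : V → V) f (a1, a2)) = Prod.map (id : V → V) f (b1, b2)
  · exact Or.inl he
  · refine Or.inr ⟨he, h1, ?_⟩
    rcases h2 with h2 | h2
    · exact Or.inl (congrArg f h2)
    · exact hf _ _ h2

/-- Nodup lists over a finite set. -/
theorem finite_nodup {α : Type} (s : Set α) (hs : s.Finite) :
    {l : List α | l.Nodup ∧ ∀ x ∈ l, x ∈ s}.Finite := by
  have : Finite s := hs.to_subtype
  have : Fintype s := Fintype.ofFinite s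
  refine Set.Finite.subset ((List.finite_length_le s (Fintype.card s)).image
    (List.map Subtype.val)) ?_
  rintro l ⟨hn, hl⟩
  lift l to List s using hl
  refine ⟨l, ?_, rfl⟩
  exact (List.Nodup.of_map _ hn).length_le_card

/-- Every chain can be moved into a finite set. -/
theorem move {Γ C V K : Type} [Group Γ] [Group C] [MulAction Γ V] [MulAction Γ K]
    [MulAction C K] (π : Γ →* C) (RV : V → V → Prop) (RK : K → K → Prop) (hV : Inv Γ RV)
    (w : Fin 5 → V) (horb : ∀ v, ∃! i, ∃ γ : Γ, γ • w i = v)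
    (hasym : Asym (prodR RV RK)) (hinv : Inv Γ (prodR RV RK)) (l : List (V × K)) (hl : l ≠ [])
    (hp : l.Pairwise (prodR RV RK)) :
    ∃ γ : Γ, (l.map (γ • ·)).Nodup ∧ ∀ x ∈ l.map (γ • ·),
      x ∈ (⋃ i : Fin 5, (insert (w i) {v' | RV (w i) v'} : Set V)) ×ˢ (Set.univ : Set K) := by
  cases l with
  | nil => exact absurd rfl hl
  | cons a l =>
    obtain ⟨i, ⟨γ0, hγ0⟩, -⟩ := horb a.1
    refine ⟨γ0⁻¹, ?_, ?_⟩
    · have h1 : ((a :: l).map (γ0⁻¹ • ·)).Pairwise (prodR RV RK) :=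
        hp.map _ (fun x y hxy => hinv _ _ _ hxy)
      refine h1.imp ?_
      intro x y hxy
      exact hxy.1
    · have ha : γ0⁻¹ • a.1 = w i := by rw [← hγ0, inv_smul_smul]
      intro x hx
      refine ⟨Set.mem_iUnion.2 ⟨i, ?_⟩, Set.mem_univ _⟩
      rw [List.mem_map] at hx
      obtain ⟨y, hy, rfl⟩ := hx
      have hr : Rle RV a.1 y.1 := by
        rcases List.mem_cons.1 hy with rfl | hy
        · exact Or.inl rfl
        · exact ((List.pairwise_cons.1 hp).1 y hy).2.1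
      change γ0⁻¹ • y.1 ∈ _
      rcases hr with hr | hr
      · left
        rw [← hr, ha]
      · right
        change RV (w i) (γ0⁻¹ • y.1)
        rw [← ha]
        exact hV _ _ _ hr

end P0

open P0 in
theorem stP0 : StC2 → StE3 → StP0 := by
  intro hC2 hE3 Γ C V K K' _ _ _ _ _ _ _ _ _ π RV RK RK' f w H
  have a1 := asym_prodR RV RK H.asV H.asK
  have a2 := asym_prodR RV RK' H.asV H.asK'
  have i1 := inv_prodR π RV RK H.invV H.invK H.compK
  have i2 := inv_prodR π RV RK' H.invV H.invK' H.compK'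
  have f1 := free_prod (V := V) π H.freeK H.compK H.stab
  have f2 := free_prod (V := V) π H.freeK' H.compK' H.stab
  have s1 := simp_prod RV RK RK' f H.simp
  have e1 : Equi Γ (Prod.map (id : V → V) f) := by
    rintro γ ⟨v, k⟩
    refine Prod.ext rfl ?_
    change f (γ • k) = γ • f k
    rw [H.compK', H.compK, H.equi]
  have hEC : EC Γ (coP (prodR RV RK') (prodR RV RK)) cdeg
      (coD (prodR RV RK) (Prod.map (id : V → V) f)) :=
    hC2 Γ (V × K') (V × K) (prodR RV RK') (prodR RV RK) (Prod.map id f) a2 a1 i2 i1 f2 f1 s1 e1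
  refine ⟨hEC, ?_, ?_⟩
  · exact hC2 C K' K RK' RK f H.asK' H.asK H.invK' H.invK H.freeK' H.freeK H.simp H.equi
  · set Vs : Set V := ⋃ i : Fin 5, (insert (w i) {v' | RV (w i) v'} : Set V) with hVs
    have hVf : Vs.Finite := Set.finite_iUnion (fun i => (H.loc (w i)).insert _)
    have F1 := finite_nodup (Vs ×ˢ (Set.univ : Set K)) (hVf.prod Set.finite_univ)
    have F2 := finite_nodup (Vs ×ˢ (Set.univ : Set K')) (hVf.prod Set.finite_univ)
    obtain ⟨J, i1', i2', r, hr⟩ := hE3 Γ (List (V × K) ⊕ List (V × K'))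
      (coP (prodR RV RK') (prodR RV RK))
      (Sum.inl '' {l : List (V × K) | l.Nodup ∧ ∀ x ∈ l, x ∈ Vs ×ˢ (Set.univ : Set K)} ∪
        Sum.inr '' {l : List (V × K') | l.Nodup ∧ ∀ x ∈ l, x ∈ Vs ×ˢ (Set.univ : Set K')})
      hEC.smul_mem hEC.free ((F1.image _).union (F2.image _)) (by
        rintro (l | l) hl
        · obtain ⟨γ, h1, h2⟩ := move π RV RK H.invV w H.orb a1 i1 l hl.1 hl.2
          exact ⟨γ, Or.inl ⟨_, ⟨h1, h2⟩, rfl⟩⟩
        · obtain ⟨γ, h1, h2⟩ := move π RV RK' H.invV w H.orb a2 i2 l hl.1 hl.2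
          exact ⟨γ, Or.inr ⟨_, ⟨h1, h2⟩, rfl⟩⟩)
    refine ⟨J, i1', i2', r, hr.1, ?_⟩
    have hcell : ∀ (γ : Γ) (c : List (V × K) ⊕ List (V × K')), cellMap γ c = γ • c := by
      rintro γ (c | c) <;> rfl
    intro c hc
    obtain ⟨p, hp, hu⟩ := hr.2 c hc
    refine ⟨p, ?_, ?_⟩
    · change cellMap p.1 (r p.2) = c
      rw [hcell]
      exact hp
    · intro q hq
      apply hu
      change q.1 • r q.2 = c
      rw [← hcell]
      exact hq

end Pool.Agent.Lib.MP_39dc45_gt.SP
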