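import Pool.Agent.Lib.MP_39dc45_gt.SP.StA

/-!
# MP_39dc45_gt: the part over the vertices
-/

set_option autoImplicit false
set_option linter.unusedSectionVars false

open Matrix
open scoped Pointwise

noncomputable section

namespace Pool.Agent.Lib.MP_39dc45_gt.SP

namespace P1Aux

/-! ### Supports -/

lemma bd_supp {V : Type} {l l' : List V} (h : bd l l' ≠ 0) : l' ⊆ l := by
  classical
  unfold bd at h
  split_ifs at h with h1
  · exact absurd rfl h
  · rw [Finsupp.finsetSum_apply] at h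
    obtain ⟨i, _, hi⟩ := Finset.exists_ne_zero_of_sum_ne_zero h
    rw [Finsupp.single_apply] at hi
    split_ifs at hi with h2
    · rw [← h2]
      exact (List.eraseIdx_sublist l i).subset
    · exact absurd rfl hi

variable {V W W' : Type}

lemma coD_inl_inl {R : W → W → Prop} {f : W' → W} {l l' : List W} :
    coD R f (Sum.inl l) (Sum.inl l') = bd l l' := by
  change (bd l).mapDomain Sum.inl (Sum.inl l') = _
  exact Finsupp.mapDomain_apply Sum.inl_injective _ _

lemma coD_inl_inr {R : W → W → Prop} {f : W' → W} {l : List W} {l' : List W'} :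
    coD R f (Sum.inl l) (Sum.inr l') = 0 := by
  change (bd l).mapDomain Sum.inl (Sum.inr l') = _
  apply Finsupp.mapDomain_of_notMem_range
  rintro ⟨x, hx⟩
  exact Sum.inl_ne_inr hx

lemma coD_inr_inl {R : W → W → Prop} {f : W' → W} {l : List W'} {l' : List W} :
    coD R f (Sum.inr l) (Sum.inl l') = push R f l l' := by
  change ((push R f l).mapDomain Sum.inl - (bd l).mapDomain Sum.inr : List W ⊕ List W' →₀ ℤ)
    (Sum.inl l') = _
  rw [Finsupp.sub_apply, Finsupp.mapDomain_apply Sum.inl_injective,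
    Finsupp.mapDomain_of_notMem_range, sub_zero]
  rintro ⟨x, hx⟩
  exact Sum.inl_ne_inr hx.symm

lemma coD_inr_inr {R : W → W → Prop} {f : W' → W} {l l' : List W'} :
    coD R f (Sum.inr l) (Sum.inr l') = - bd l l' := by
  change ((push R f l).mapDomain Sum.inl - (bd l).mapDomain Sum.inr : List W ⊕ List W' →₀ ℤ)
    (Sum.inr l') = _
  rw [Finsupp.sub_apply, Finsupp.mapDomain_apply Sum.inr_injective,
    Finsupp.mapDomain_of_notMem_range, zero_sub]
  rintro ⟨x, hx⟩
  exact Sum.inl_ne_inr hx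

lemma push_supp {R : W → W → Prop} {f : W' → W} {l : List W'} {l' : List W}
    (h : push R f l l' ≠ 0) : l' = l.map f := by
  classical
  unfold push at h
  split_ifs at h with h1
  · rw [Finsupp.single_apply] at h
    split_ifs at h with h2
    · exact h2.symm
    · exact absurd rfl h
  · exact absurd rfl h

lemma psupp_mono [DecidableEq V] {l l' : List (V × W)} (h : l' ⊆ l) : psupp l' ⊆ psupp l := by
  intro v hv
  unfold psupp at hv ⊢
  rw [List.mem_toFinset, List.mem_map] at hv ⊢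
  obtain ⟨x, hx, rfl⟩ := hv
  exact ⟨x, h hx, rfl⟩

lemma psupp_map [DecidableEq V] (f : W' → W) (l : List (V × W')) :
    psupp (l.map (Prod.map id f)) = psupp l := by
  unfold psupp
  rw [List.map_map]
  rfl

/-- The support of a face. -/
lemma csupp_le [DecidableEq V] {R : V × W → V × W → Prop} {f : W' → W}
    {c c' : List (V × W) ⊕ List (V × W')} (h : coD R (Prod.map id f) c c' ≠ 0) :
    csupp c' ⊆ csupp c := by
  rcases c with l | l <;> rcases c' with l' | l'
  · rw [coD_inl_inl] at h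
    exact psupp_mono (bd_supp h)
  · rw [coD_inl_inr] at h
    exact absurd rfl h
  · rw [coD_inr_inl] at h
    rw [push_supp h]
    exact (psupp_map f l).subset
  · rw [coD_inr_inr] at h
    exact psupp_mono (bd_supp (neg_ne_zero.1 h))

section act

variable {Γ : Type} [Group Γ] [MulAction Γ V] [MulAction Γ W] [MulAction Γ W'] [DecidableEq V]

lemma psupp_smul (γ : Γ) (l : List (V × W)) : psupp (γ • l) = γ • psupp l := by
  ext v
  unfold psupp
  rw [List.mem_toFinset, List.mem_map, Finset.mem_smul_finset]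
  constructor
  · rintro ⟨x, hx, rfl⟩
    rw [smul_list, List.mem_map] at hx
    obtain ⟨y, hy, rfl⟩ := hx
    exact ⟨y.1, List.mem_toFinset.2 (List.mem_map_of_mem hy), rfl⟩
  · rintro ⟨y, hy, rfl⟩
    rw [List.mem_toFinset, List.mem_map] at hy
    obtain ⟨x, hx, rfl⟩ := hy
    exact ⟨γ • x, by rw [smul_list]; exact List.mem_map_of_mem hx, rfl⟩

lemma csupp_smul (γ : Γ) (c : List (V × W) ⊕ List (V × W')) : csupp (γ • c) = γ • csupp c := by
  rcases c with l | l
  · exact psupp_smul γ l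
  · exact psupp_smul γ l

end act

/-! ### Cells over a vertex -/

/-- The cell over the vertex `v`. -/
def lft (v : V) : List W ⊕ List W' → List (V × W) ⊕ List (V × W')
  | Sum.inl l => Sum.inl (l.map (Prod.mk v))
  | Sum.inr l => Sum.inr (l.map (Prod.mk v))

lemma bd_map {A B : Type} (g : A → B) (l : List A) :
    bd (l.map g) = (bd l).mapDomain (List.map g) := by
  unfold bd
  rw [List.length_map]
  split_ifs with h
  · rw [Finsupp.mapDomain_zero]
  · rw [Finsupp.mapDomain_finsetSum]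
    refine Finset.sum_congr rfl fun i _ => ?_
    rw [Finsupp.mapDomain_single, List.eraseIdx_map]

lemma mk_inj (v : V) : Function.Injective (Prod.mk v : W → V × W) := fun a b h => by
  injection h

lemma bd_mk (v : V) (l l' : List W) : bd (l.map (Prod.mk v)) (l'.map (Prod.mk v)) = bd l l' := by
  rw [bd_map, Finsupp.mapDomain_apply (List.map_injective_iff.2 (mk_inj v))]

lemma prodR_mk {RV : V → V → Prop} {RW : W → W → Prop} (hW : Asym RW) (v : V) (a b : W) :
    prodR RV RW (v, a) (v, b) ↔ RW a b := by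
  constructor
  · rintro ⟨h1, -, h2 | h2⟩
    · change a = b at h2
      exact absurd (by rw [h2]) h1
    · exact h2
  · intro h
    refine ⟨fun h1 => ?_, Or.inl rfl, Or.inr h⟩
    have h2 : a = b := mk_inj v h1
    rw [h2] at h
    exact hW b b h h

lemma pw_mk {RV : V → V → Prop} {RW : W → W → Prop} (hW : Asym RW) (v : V) (l : List W) :
    (l.map (Prod.mk v)).Pairwise (prodR RV RW) ↔ l.Pairwise RW := by
  rw [List.pairwise_map]
  exact ⟨fun h => h.imp fun h1 => (prodR_mk hW v _ _).1 h1,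
    fun h => h.imp fun h1 => (prodR_mk hW v _ _).2 h1⟩

lemma push_mk {RV : V → V → Prop} {RW : W → W → Prop} (hW : Asym RW) (f : W' → W) (v : V)
    (l : List W') (l' : List W) :
    push (prodR RV RW) (Prod.map id f) (l.map (Prod.mk v)) (l'.map (Prod.mk v))
      = push RW f l l' := by
  classical
  have h1 : (l.map (Prod.mk v)).map (Prod.map id f) = (l.map f).map (Prod.mk v) := by
    rw [List.map_map, List.map_map]
    rfl
  unfold push
  rw [h1]
  by_cases h : (l.map f).Pairwise RW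
  · rw [if_pos h, if_pos ((pw_mk hW v _).2 h), Finsupp.single_apply, Finsupp.single_apply]
    by_cases h2 : l.map f = l'
    · rw [if_pos h2, if_pos (by rw [h2])]
    · rw [if_neg h2, if_neg (fun h3 => h2 (List.map_injective_iff.2 (mk_inj v) h3))]
  · rw [if_neg h, if_neg (fun h3 => h ((pw_mk hW v _).1 h3))]
    rfl

lemma coD_lft {RV : V → V → Prop} {RW : W → W → Prop} (hW : Asym RW) (f : W' → W) (v : V)
    (c c' : List W ⊕ List W') :
    coD (prodR RV RW) (Prod.map id f) (lft v c) (lft v c') = coD RW f c c' := by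
  rcases c with l | l <;> rcases c' with l' | l'
  · change coD _ _ (Sum.inl _) (Sum.inl _) = _
    rw [coD_inl_inl, coD_inl_inl, bd_mk]
  · change coD _ _ (Sum.inl _) (Sum.inr _) = _
    rw [coD_inl_inr, coD_inl_inr]
  · change coD _ _ (Sum.inr _) (Sum.inl _) = _
    rw [coD_inr_inl, coD_inr_inl, push_mk hW]
  · change coD _ _ (Sum.inr _) (Sum.inr _) = _
    rw [coD_inr_inr, coD_inr_inr, bd_mk]

lemma cdeg_lft (v : V) (c : List W ⊕ List W') : cdeg (lft v c) = cdeg c := by
  rcases c with l | l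
  · exact List.length_map _
  · change (l.map (Prod.mk v)).length + 1 = l.length + 1
    rw [List.length_map]

lemma lft_mem {RV : V → V → Prop} {RW : W → W → Prop} {RW' : W' → W' → Prop} (hW : Asym RW)
    (hW' : Asym RW') (v : V) (c : List W ⊕ List W') :
    lft v c ∈ coP (prodR RV RW') (prodR RV RW) ↔ c ∈ coP RW' RW := by
  rcases c with l | l
  · change (l.map (Prod.mk v) ≠ [] ∧ (l.map (Prod.mk v)).Pairwise (prodR RV RW)) ↔
      (l ≠ [] ∧ l.Pairwise RW)
    rw [pw_mk hW, Ne, List.map_eq_nil_iff]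
  · change (l.map (Prod.mk v) ≠ [] ∧ (l.map (Prod.mk v)).Pairwise (prodR RV RW')) ↔
      (l ≠ [] ∧ l.Pairwise RW')
    rw [pw_mk hW', Ne, List.map_eq_nil_iff]

lemma psupp_mk [DecidableEq V] (v : V) {l : List W} (hl : l ≠ []) :
    psupp (l.map (Prod.mk v)) = {v} := by
  unfold psupp
  ext x
  rw [List.mem_toFinset, List.mem_map, Finset.mem_singleton]
  constructor
  · rintro ⟨y, hy, rfl⟩
    rw [List.mem_map] at hy
    obtain ⟨z, -, rfl⟩ := hy
    rfl
  · rintro rfl
    obtain ⟨a, ha⟩ := List.exists_mem_of_ne_nil l hl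
    exact ⟨(x, a), List.mem_map_of_mem ha, rfl⟩

lemma csupp_lft [DecidableEq V] {RW : W → W → Prop} {RW' : W' → W' → Prop} (v : V)
    {c : List W ⊕ List W'} (hc : c ∈ coP RW' RW) : csupp (lft v c) = {v} := by
  rcases c with l | l
  · exact psupp_mk v hc.1
  · exact psupp_mk v hc.1

lemma list_eq [DecidableEq V] {l : List (V × W)} {v : V} (h : psupp l = {v}) :
    l = (l.map Prod.snd).map (Prod.mk v) := by
  rw [List.map_map]
  have h1 : l.map (Prod.mk v ∘ Prod.snd) = l.map id := by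
    apply List.map_congr_left
    intro a ha
    have h2 : a.1 ∈ psupp l := List.mem_toFinset.2 (List.mem_map_of_mem ha)
    rw [h, Finset.mem_singleton] at h2
    change (v, a.2) = a
    rw [← h2]
  rw [h1, List.map_id]

lemma exists_lft [DecidableEq V] {c : List (V × W) ⊕ List (V × W')} (h : (csupp c).card = 1) :
    ∃ (v : V) (c' : List W ⊕ List W'), c = lft v c' := by
  obtain ⟨v, hv⟩ := Finset.card_eq_one.1 h
  rcases c with l | l
  · refine ⟨v, Sum.inl (l.map Prod.snd), ?_⟩
    exact congrArg Sum.inl (list_eq hv)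
  · refine ⟨v, Sum.inr (l.map Prod.snd), ?_⟩
    exact congrArg Sum.inr (list_eq hv)

lemma lft_inj [DecidableEq V] {RW : W → W → Prop} {RW' : W' → W' → Prop} {v v' : V}
    {c c' : List W ⊕ List W'} (hc : c ∈ coP RW' RW) (hc' : c' ∈ coP RW' RW)
    (h : lft v c = lft v' c') : v = v' ∧ c = c' := by
  have h1 : ({v} : Finset V) = {v'} := by
    rw [← csupp_lft v hc, ← csupp_lft v' hc', h]
  have h2 : v = v' := Finset.singleton_injective h1
  subst h2
  refine ⟨rfl, ?_⟩
  rcases c with l | l <;> rcases c' with l' | l'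
  · have h3 : l.map (Prod.mk v) = l'.map (Prod.mk v) := Sum.inl_injective h
    rw [List.map_injective_iff.2 (mk_inj v) h3]
  · exact absurd h Sum.inl_ne_inr
  · exact absurd h Sum.inr_ne_inl
  · have h3 : l.map (Prod.mk v) = l'.map (Prod.mk v) := Sum.inr_injective h
    rw [List.map_injective_iff.2 (mk_inj v) h3]

lemma smul_lft {Γ C : Type} [Group Γ] [Group C] [MulAction Γ V] [MulAction Γ W] [MulAction Γ W']
    [MulAction C W] [MulAction C W'] (π : Γ →* C) (h1 : ∀ (γ : Γ) (k : W), γ • k = π γ • k)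
    (h2 : ∀ (γ : Γ) (k : W'), γ • k = π γ • k) (γ : Γ) (v : V) (c : List W ⊕ List W') :
    γ • lft v c = lft (γ • v) (π γ • c) := by
  rcases c with l | l
  · change Sum.inl ((l.map (Prod.mk v)).map (γ • ·)) = Sum.inl ((l.map (π γ • ·)).map (Prod.mk _))
    rw [List.map_map, List.map_map]
    congr 1
    apply List.map_congr_left
    intro a _
    change (γ • v, γ • a) = (γ • v, π γ • a)
    rw [h1]
  · change Sum.inr ((l.map (Prod.mk v)).map (γ • ·)) = Sum.inr ((l.map (π γ • ·)).map (Prod.mk _))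
    rw [List.map_map, List.map_map]
    congr 1
    apply List.map_congr_left
    intro a _
    change (γ • v, γ • a) = (γ • v, π γ • a)
    rw [h2]

/-- Reindexing of the sum over the stabiliser. -/
lemma finsum_stab {Γ C : Type} [Group Γ] [Group C] [MulAction Γ V] (π : Γ →* C) (v : V)
    (hst : ∀ c : C, ∃! γ : Γ, γ • v = v ∧ π γ = c) (F : Γ → F31) (G : C → F31)
    (h0 : ∀ γ, γ • v ≠ v → F γ = 0) (h1 : ∀ γ, γ • v = v → F γ = G (π γ)) :
    ∑ᶠ γ, F γ = ∑ᶠ c, G c := by
  have hs : ∑ᶠ γ, F γ = ∑ᶠ γ ∈ {γ : Γ | γ • v = v}, F γ := by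
    rw [finsum_mem_def]
    congr 1
    symm
    rw [Set.indicator_eq_self]
    intro γ hγ
    by_contra h
    exact hγ (h0 γ h)
  rw [hs, ← finsum_mem_univ G]
  refine finsum_mem_eq_of_bijOn π ⟨fun _ _ => Set.mem_univ _, ?_, ?_⟩ fun γ hγ => h1 γ hγ
  · intro a ha b hb hab
    exact (hst (π b)).unique ⟨ha, hab⟩ ⟨hb, rfl⟩
  · intro c _
    obtain ⟨γ, ⟨h2, h3⟩, -⟩ := hst c
    exact ⟨γ, h2, h3⟩

end P1Aux

open P1Aux in
/-- Module P1. -/
theorem stP1 (hM4 : StM4) (hE1 : StE1) (hE2 : StE2) (hP0 : StP0) : StP1 := by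
  intro Γ C V K K' _ _ _ _ _ _ _ _ _ _ π RV RK RK' f w χ H hχ u hu
  classical
  obtain ⟨hEC, hEC', -⟩ := hP0 Γ C V K K' π RV RK RK' f w H
  set P : Set (List (V × K) ⊕ List (V × K')) := coP (prodR RV RK') (prodR RV RK) with hP
  set d : (List (V × K) ⊕ List (V × K')) → (List (V × K) ⊕ List (V × K')) → ℤ :=
    coD (prodR RV RK) (Prod.map id f) with hd
  set Q : Set (List (V × K) ⊕ List (V × K')) := {c | c ∈ P ∧ (csupp c).card = 1} with hQ
  have hcard : ∀ (γ : Γ) (s : Finset V), (γ • s).card = s.card :=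
    fun γ s => Finset.card_smul_finset γ s
  have hpos : ∀ c ∈ P, 0 < (csupp c).card := by
    rintro (l | l) hc
    · obtain ⟨a, ha⟩ := List.exists_mem_of_ne_nil l hc.1
      exact Finset.card_pos.2 ⟨a.1, List.mem_toFinset.2 (List.mem_map_of_mem ha)⟩
    · obtain ⟨a, ha⟩ := List.exists_mem_of_ne_nil l hc.1
      exact Finset.card_pos.2 ⟨a.1, List.mem_toFinset.2 (List.mem_map_of_mem ha)⟩
  -- the subcomplex over the vertices
  have hECQ : EC Γ Q cdeg d := by
    refine ⟨?_, ?_, hEC.deg_smul, hEC.d_smul, ?_, ?_, ?_⟩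
    · rintro γ i ⟨hi, hi2⟩
      refine ⟨hEC.smul_mem γ i hi, ?_⟩
      rw [csupp_smul, hcard]
      exact hi2
    · rintro γ i ⟨hi, -⟩ h
      exact hEC.free γ i hi h
    · rintro i ⟨hi, -⟩
      refine (hEC.fin i hi).subset ?_
      rintro j ⟨⟨hj, -⟩, hj2⟩
      exact ⟨hj, hj2⟩
    · rintro i ⟨hi, -⟩ j ⟨hj, -⟩ h
      exact hEC.deg_d i hi j hj h
    · rintro i ⟨hi, hi2⟩ k ⟨hk, -⟩
      rw [← hEC.sq i hi k hk]
      apply finsum_congr
      intro j
      by_cases hj : j ∈ P
      · rw [finsum_eq_if (p := j ∈ P)]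
        by_cases hj2 : (csupp j).card = 1
        · rw [finsum_eq_if (p := j ∈ Q), if_pos hj, if_pos ⟨hj, hj2⟩]
        · rw [finsum_eq_if (p := j ∈ Q), if_pos hj, if_neg (fun h => hj2 h.2)]
          by_cases h0 : d i j = 0
          · rw [h0, zero_mul]
          · exfalso
            have h1 := Finset.card_le_card (csupp_le h0)
            have h2 := hpos j hj
            omega
      · rw [finsum_eq_if (p := j ∈ P), finsum_eq_if (p := j ∈ Q), if_neg hj,
          if_neg (fun h => hj h.1)]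
  -- representatives
  obtain ⟨J, hJ1, hJ2, rf, hrf, hTf⟩ := hu
  set r : Fin 5 × J → List (V × K) ⊕ List (V × K') := fun p => lft (w p.1) (rf p.2) with hr
  have hw : ∀ (i i' : Fin 5) (γ : Γ), γ • w i = w i' → i = i' := by
    intro i i' γ h
    exact (H.orb (w i')).unique ⟨γ, h⟩ ⟨1, one_smul _ _⟩
  have hrQ : ∀ p, r p ∈ Q := by
    intro p
    refine ⟨(lft_mem H.asK H.asK' _ _).2 (hrf.1 p.2), ?_⟩
    rw [hr]
    change (csupp (lft (w p.1) (rf p.2))).card = 1
    rw [csupp_lft (w p.1) (hrf.1 p.2)]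
    exact Finset.card_singleton _
  have hsm : ∀ (γ : Γ) (v : V) (c : List K ⊕ List K'), γ • lft v c = lft (γ • v) (π γ • c) :=
    fun γ v c => smul_lft π H.compK H.compK' γ v c
  have hrep : IsRep Γ Q r := by
    refine ⟨hrQ, ?_⟩
    rintro x ⟨hx, hx1⟩
    obtain ⟨v, c, rfl⟩ := exists_lft hx1
    have hc : c ∈ coP RK' RK := (lft_mem H.asK H.asK' _ _).1 hx
    obtain ⟨i, ⟨γ0, hγ0⟩, hi⟩ := H.orb v
    obtain ⟨⟨c0, j⟩, hcj, hun⟩ := hrf.2 c hc
    change c0 • rf j = c at hcj
    obtain ⟨s, ⟨hs1, hs2⟩, hs3⟩ := H.stab (w i) ((π γ0)⁻¹ * c0)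
    refine ⟨(γ0 * s, (i, j)), ?_, ?_⟩
    · change (γ0 * s) • lft (w i) (rf j) = lft v c
      rw [hsm, mul_smul, hs1, hγ0, map_mul, hs2, mul_inv_cancel_left, hcj]
    · rintro ⟨γ, ⟨i', j'⟩⟩ h
      change γ • lft (w i') (rf j') = lft v c at h
      rw [hsm] at h
      obtain ⟨h1, h2⟩ := lft_inj (hEC'.smul_mem (π γ) _ (hrf.1 j')) hc h
      have h3 : i' = i := hi i' ⟨γ, h1⟩
      subst h3
      have h4 := hun (π γ, j') h2
      have h5 : π γ = c0 := congrArg Prod.fst h4
      have h6 : j' = j := congrArg Prod.snd h4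
      subst h6
      have h7 : γ0⁻¹ * γ = s := by
        refine hs3 _ ⟨?_, ?_⟩
        · rw [mul_smul, h1, ← hγ0, inv_smul_smul]
        · rw [map_mul, map_inv, h5]
      rw [← h7, mul_inv_cancel_left]
  -- the twisted matrix
  have htw : ∀ (i i' : Fin 5) (j j' : J), tw (χ.comp π) d r (i, j) (i', j') =
      if i = i' then tw χ (coD RK f) rf j j' else 0 := by
    intro i i' j j'
    change ∑ᶠ γ : Γ, χ (π γ) * ((d (lft (w i) (rf j)) (γ • lft (w i') (rf j')) : ℤ) : F31) = _
    have hz : ∀ γ : Γ, γ • w i' ≠ w i →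
        χ (π γ) * ((d (lft (w i) (rf j)) (γ • lft (w i') (rf j')) : ℤ) : F31) = 0 := by
      intro γ hγ
      by_cases h0 : d (lft (w i) (rf j)) (γ • lft (w i') (rf j')) = 0
      · rw [h0, Int.cast_zero, mul_zero]
      · exfalso
        have h1 := csupp_le h0
        rw [csupp_smul, csupp_lft (w i) (hrf.1 j), csupp_lft (w i') (hrf.1 j'),
          Finset.smul_finset_singleton, Finset.singleton_subset_singleton] at h1
        exact hγ h1
    split_ifs with h
    · subst h
      refine finsum_stab π (w i) (H.stab (w i)) _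
        (fun c => χ c * ((coD RK f (rf j) (c • rf j') : ℤ) : F31)) hz ?_
      intro γ hγ
      rw [hsm, hγ, hd, coD_lft H.asK]
    · rw [← finsum_zero (α := Γ)]
      apply finsum_congr
      intro γ
      exact hz γ fun h1 => h (hw i' i γ h1).symm
  refine ⟨Fin 5 × J, inferInstance, inferInstance, r, hrep, ?_⟩
  have hCx := hE1 Γ _ Q cdeg d (χ.comp π) hECQ (Fin 5 × J) r hrep
  have h5 : u ^ 5 = ∏ _l : Fin 5, u := by
    rw [Finset.prod_const, Finset.card_univ, Fintype.card_fin]
  rw [h5]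
  refine hM4 (Fin 5 × J) (Fin 5) (fun p => cdeg (r p)) (tw (χ.comp π) d r) Prod.fst (fun _ => 0)
    hCx ?_ (fun _ => u) ?_
  · rintro ⟨i, j⟩ ⟨i', j'⟩ h
    left
    by_contra hne
    change ¬ i = i' at hne
    apply h
    rw [htw, if_neg hne]
  · intro l
    -- representatives indexed by the fibre
    set r' : {p : Fin 5 × J // p.1 = l} → List K ⊕ List K' := fun p => rf p.1.2 with hr'
    have hrep' : IsRep C (coP RK' RK) r' := by
      refine ⟨fun p => hrf.1 _, ?_⟩
      intro c hc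
      obtain ⟨⟨c0, j⟩, hcj, hun⟩ := hrf.2 c hc
      refine ⟨(c0, ⟨(l, j), rfl⟩), hcj, ?_⟩
      rintro ⟨c1, ⟨⟨l', j'⟩, hl'⟩⟩ h
      change l' = l at hl'
      subst hl'
      have h4 := hun (c1, j') h
      have h5 : c1 = c0 := congrArg Prod.fst h4
      have h6 : j' = j := congrArg Prod.snd h4
      subst h5 h6
      rfl
    have hT := ((hE2 C _ (coP RK' RK) cdeg (coD RK f) χ hEC' hχ).2.2 _ r' hrep' u).1
      ⟨J, hJ1, hJ2, rf, hrf, hTf⟩
    have hdeg : (fun i : {p : Fin 5 × J // p.1 = l} => cdeg (r i.1)) = fun i => cdeg (r' i) := by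
      funext i
      exact cdeg_lft _ _
    have hmat : sub (fun p : Fin 5 × J => p.1 = l) (tw (χ.comp π) d r)
        = tw χ (coD RK f) r' := by
      ext i i'
      obtain ⟨⟨i, j⟩, hi⟩ := i
      obtain ⟨⟨i', j'⟩, hi'⟩ := i'
      change i = l at hi
      change i' = l at hi'
      subst hi
      subst hi'
      change tw (χ.comp π) d r (i', j) (i', j') = _
      rw [htw, if_pos rfl]
      rfl
    change TorM (fun i : {p : Fin 5 × J // p.1 = l} => cdeg (r i.1))
      (sub (fun p : Fin 5 × J => p.1 = l) (tw (χ.comp π) d r)) u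
    rw [hdeg, hmat]
    exact hT

end Pool.Agent.Lib.MP_39dc45_gt.SP
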