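import Pool.Agent.Lib.MP_39dc45_gt.SP.StA

/-!
# MP_39dc45_gt: the part over the simplices of positive dimension
-/

set_option autoImplicit false
set_option linter.unusedSectionVars false

open Matrix
open scoped Pointwise

noncomputable section

namespace Pool.Agent.Lib.MP_39dc45_gt.SP

namespace P2Aux

/-! ### Supports -/

lemma bd_supp {V : Type} {l l' : List V} (h : bd l l' ≠ 0) : l' ⊆ l := by
  classical
  unfold bd at h
  split_ifs at h with h1
  · exact absurd rfl h
  · rw [Finsupp.finsetSum_apply] at h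
    obtain ⟨i, _, hi⟩ := Finset.exists_ne_zero_of_sum_ne_zero h
    rw [Finsupp.single_apply] at hi
    split_ifs at hi with h2
    · rw [← h2]
      exact (List.eraseIdx_sublist l i).subset
    · exact absurd rfl hi

variable {V W W' : Type}

lemma coD_inl_inl {R : W → W → Prop} {f : W' → W} {l l' : List W} :
    coD R f (Sum.inl l) (Sum.inl l') = bd l l' := by
  change (bd l).mapDomain Sum.inl (Sum.inl l') = _
  exact Finsupp.mapDomain_apply Sum.inl_injective _ _

lemma coD_inl_inr {R : W → W → Prop} {f : W' → W} {l : List W} {l' : List W'} :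
    coD R f (Sum.inl l) (Sum.inr l') = 0 := by
  change (bd l).mapDomain Sum.inl (Sum.inr l') = _
  apply Finsupp.mapDomain_of_notMem_range
  rintro ⟨x, hx⟩
  exact Sum.inl_ne_inr hx

lemma coD_inr_inl {R : W → W → Prop} {f : W' → W} {l : List W'} {l' : List W} :
    coD R f (Sum.inr l) (Sum.inl l') = push R f l l' := by
  change ((push R f l).mapDomain Sum.inl - (bd l).mapDomain Sum.inr : List W ⊕ List W' →₀ ℤ)
    (Sum.inl l') = _
  rw [Finsupp.sub_apply, Finsupp.mapDomain_apply Sum.inl_injective,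
    Finsupp.mapDomain_of_notMem_range, sub_zero]
  rintro ⟨x, hx⟩
  exact Sum.inl_ne_inr hx.symm

lemma coD_inr_inr {R : W → W → Prop} {f : W' → W} {l l' : List W'} :
    coD R f (Sum.inr l) (Sum.inr l') = - bd l l' := by
  change ((push R f l).mapDomain Sum.inl - (bd l).mapDomain Sum.inr : List W ⊕ List W' →₀ ℤ)
    (Sum.inr l') = _
  rw [Finsupp.sub_apply, Finsupp.mapDomain_apply Sum.inr_injective,
    Finsupp.mapDomain_of_notMem_range, zero_sub]
  rintro ⟨x, hx⟩
  exact Sum.inl_ne_inr hx

lemma push_supp {R : W → W → Prop} {f : W' → W} {l : List W'} {l' : List W}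
    (h : push R f l l' ≠ 0) : l' = l.map f := by
  classical
  unfold push at h
  split_ifs at h with h1
  · rw [Finsupp.single_apply] at h
    split_ifs at h with h2
    · exact h2.symm
    · exact absurd rfl h
  · exact absurd rfl h

lemma psupp_mono [DecidableEq V] {l l' : List (V × W)} (h : l' ⊆ l) : psupp l' ⊆ psupp l := by
  intro v hv
  unfold psupp at hv ⊢
  rw [List.mem_toFinset, List.mem_map] at hv ⊢
  obtain ⟨x, hx, rfl⟩ := hv
  exact ⟨x, h hx, rfl⟩

lemma psupp_map [DecidableEq V] (f : W' → W) (l : List (V × W')) :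
    psupp (l.map (Prod.map id f)) = psupp l := by
  unfold psupp
  rw [List.map_map]
  rfl

/-- The support of a face. -/
lemma csupp_le [DecidableEq V] {R : V × W → V × W → Prop} {f : W' → W}
    {c c' : List (V × W) ⊕ List (V × W')} (h : coD R (Prod.map id f) c c' ≠ 0) :
    csupp c' ⊆ csupp c := by
  rcases c with l | l <;> rcases c' with l' | l'
  · rw [coD_inl_inl] at h
    exact psupp_mono (bd_supp h)
  · rw [coD_inl_inr] at h
    exact absurd rfl h
  · rw [coD_inr_inl] at h
    rw [push_supp h]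
    exact (psupp_map f l).subset
  · rw [coD_inr_inr] at h
    exact psupp_mono (bd_supp (neg_ne_zero.1 h))

section act

variable {Γ : Type} [Group Γ] [MulAction Γ V] [MulAction Γ W] [MulAction Γ W'] [DecidableEq V]

lemma psupp_smul (γ : Γ) (l : List (V × W)) : psupp (γ • l) = γ • psupp l := by
  ext v
  unfold psupp
  rw [List.mem_toFinset, List.mem_map, Finset.mem_smul_finset]
  constructor
  · rintro ⟨x, hx, rfl⟩
    rw [smul_list, List.mem_map] at hx
    obtain ⟨y, hy, rfl⟩ := hx
    exact ⟨y.1, List.mem_toFinset.2 (List.mem_map_of_mem hy), rfl⟩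
  · rintro ⟨y, hy, rfl⟩
    rw [List.mem_toFinset, List.mem_map] at hy
    obtain ⟨x, hx, rfl⟩ := hy
    exact ⟨γ • x, by rw [smul_list]; exact List.mem_map_of_mem hx, rfl⟩

lemma csupp_smul (γ : Γ) (c : List (V × W) ⊕ List (V × W')) : csupp (γ • c) = γ • csupp c := by
  rcases c with l | l
  · exact psupp_smul γ l
  · exact psupp_smul γ l

/-- An element which preserves the support of a chain fixes it pointwise. -/
lemma fix_of {R : V → V → Prop} (hA : Asym R) (hI : Inv Γ R) {RW : W → W → Prop}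
    {l : List (V × W)} (hl : l.Pairwise (prodR R RW)) {γ : Γ} (hγ : γ • psupp l = psupp l) :
    ∃ m : List V, m.Pairwise R ∧ m.toFinset = psupp l ∧ ∀ v ∈ m, γ • v = v := by
  set m := (l.map Prod.fst).dedup with hm
  have h1 : (l.map Prod.fst).Pairwise (Rle R) := by
    rw [List.pairwise_map]
    exact hl.imp fun h => h.2.1
  have h2 : m.Pairwise (Rle R) := h1.sublist (List.dedup_sublist _)
  have hn : m.Nodup := List.nodup_dedup _
  have h3 : m.Pairwise R := by
    refine (h2.and hn).imp ?_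
    rintro a b ⟨h, h'⟩
    exact h.resolve_left h'
  have hs : m.toFinset = psupp l := by
    ext v
    rw [List.mem_toFinset, hm, List.mem_dedup]
    unfold psupp
    rw [List.mem_toFinset]
  refine ⟨m, h3, hs, ?_⟩
  have hinj : Function.Injective (fun v : V => γ • v) := MulAction.injective γ
  have h4 : (m.map (γ • ·)).Pairwise R := by
    rw [List.pairwise_map]
    exact h3.imp fun h => hI γ _ _ h
  have h5 : (m.map (γ • ·)).toFinset = m.toFinset := by
    ext v
    rw [List.mem_toFinset, List.mem_map, hs, ← hγ, Finset.mem_smul_finset]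
    constructor
    · rintro ⟨x, hx, rfl⟩
      exact ⟨x, hs ▸ List.mem_toFinset.2 hx, rfl⟩
    · rintro ⟨x, hx, rfl⟩
      rw [← hs, List.mem_toFinset] at hx
      exact ⟨x, hx, rfl⟩
  have h6 : (m.map (γ • ·)).Perm m :=
    List.perm_of_nodup_nodup_toFinset_eq (hn.map hinj) hn h5
  have h7 : m.map (γ • ·) = m := by
    refine h6.eq_of_pairwise ?_ h4 h3
    intro a b _ _ hab hba
    exact absurd hba (hA a b hab)
  intro v hv
  have h8 : m.map (γ • ·) = m.map id := by rw [h7, List.map_id]
  exact List.map_inj_left.1 h8 v hv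

end act

lemma zc_empty {I : Type} [DecidableEq I] (deg : I → ℕ) (d : I → I → ℤ) : ZC deg d ∅ := by
  refine ⟨0, ⟨fun i => absurd i.2 (Finset.notMem_empty _), ?_⟩⟩
  ext i
  exact absurd i.2 (Finset.notMem_empty _)

end P2Aux

open P2Aux in
/-- Module P2. -/
theorem stP2 (hE4 : StE4) (hG2 : StG2) (hP0 : StP0) : StP2 := by
  intro Γ C V K K' _ _ _ _ _ _ _ _ _ _ _ _ π RV RK RK' f w χ H hχ hZ
  classical
  obtain ⟨hEC, -, J, _, _, r, hr⟩ := hP0 Γ C V K K' π RV RK RK' f w H
  set P : Set (List (V × K) ⊕ List (V × K')) := coP (prodR RV RK') (prodR RV RK) with hP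
  set d : (List (V × K) ⊕ List (V × K')) → (List (V × K) ⊕ List (V × K')) → ℤ :=
    coD (prodR RV RK) (Prod.map id f) with hd
  have hcard : ∀ (γ : Γ) (s : Finset V), (γ • s).card = s.card := fun γ s => Finset.card_smul_finset γ s
  refine hE4 Γ (List (V × K) ⊕ List (V × K')) (Finset V) {c | c ∈ P ∧ 2 ≤ (csupp c).card} cdeg d
    (χ.comp π) csupp Finset.card ?_ ?_ ?_ ?_ ?_ ?_ ?_ ?_
  · -- the quotient complex
    refine ⟨?_, ?_, hEC.deg_smul, hEC.d_smul, ?_, ?_, ?_⟩
    · rintro γ i ⟨hi, hi2⟩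
      refine ⟨hEC.smul_mem γ i hi, ?_⟩
      rw [csupp_smul, hcard]
      exact hi2
    · rintro γ i ⟨hi, -⟩ h
      exact hEC.free γ i hi h
    · rintro i ⟨hi, -⟩
      refine (hEC.fin i hi).subset ?_
      rintro j ⟨⟨hj, -⟩, hj2⟩
      exact ⟨hj, hj2⟩
    · rintro i ⟨hi, -⟩ j ⟨hj, -⟩ h
      exact hEC.deg_d i hi j hj h
    · rintro i ⟨hi, -⟩ k ⟨hk, hk2⟩
      rw [← hEC.sq i hi k hk]
      apply finsum_congr
      intro j
      by_cases hj : j ∈ P
      · rw [finsum_eq_if (p := j ∈ P)]
        by_cases hj2 : 2 ≤ (csupp j).card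
        · rw [finsum_eq_if (p := j ∈ {c | c ∈ P ∧ 2 ≤ (csupp c).card}), if_pos hj, if_pos ⟨hj, hj2⟩]
        · rw [finsum_eq_if (p := j ∈ {c | c ∈ P ∧ 2 ≤ (csupp c).card}), if_pos hj,
            if_neg (fun h => hj2 h.2)]
          by_cases h0 : d j k = 0
          · rw [h0, mul_zero]
          · exfalso
            exact hj2 (hk2.trans (Finset.card_le_card (csupp_le h0)))
      · rw [finsum_eq_if (p := j ∈ P), finsum_eq_if (p := j ∈ {c | c ∈ P ∧ 2 ≤ (csupp c).card}),
          if_neg hj, if_neg (fun h => hj h.1)]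
  · intro γ
    exact hχ (π γ)
  · intro γ i _
    exact csupp_smul γ i
  · exact hcard
  · intro i _ j _ h
    have h1 := csupp_le h
    by_cases h2 : csupp i = csupp j
    · exact Or.inl h2
    · exact Or.inr (Finset.card_lt_card (Finset.ssubset_iff_subset_ne.2 ⟨h1, fun h => h2 h.symm⟩))
  · -- freeness
    rintro i ⟨hi, hi2⟩ γ h
    have key : ∀ {W : Type} [MulAction Γ W] {RW : W → W → Prop} {l : List (V × W)},
        l.Pairwise (prodR RV RW) → 2 ≤ (psupp l).card → γ • psupp l = psupp l → γ = 1 := by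
      intro W _ RW l hl h2 hγ
      obtain ⟨m, hm, hms, hfix⟩ := fix_of H.asV H.invV hl hγ
      rw [← hms] at h2
      have h3 : 2 ≤ m.length := h2.trans (List.toFinset_card_le m)
      match m, hm, hfix, h3 with
      | a :: b :: m', hm, hfix, _ =>
        refine H.free2 a b ?_ γ (hfix a (by simp)) (hfix b (by simp))
        exact (List.pairwise_cons.1 hm).1 b (by simp)
    rcases i with l | l
    · exact key hi.2 hi2 h
    · exact key hi.2 hi2 h
  · refine ⟨Set.range fun j => csupp (r j), Set.finite_range _, ?_⟩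
    rintro i ⟨hi, -⟩
    obtain ⟨⟨γ, j⟩, h, -⟩ := hr.2 i hi
    refine ⟨γ⁻¹, j, ?_⟩
    have h1 : γ • r j = i := by
      rw [← h]
      rcases r j with l | l <;> rfl
    rw [← h1, csupp_smul, inv_smul_smul]
  · intro l
    by_cases hl : 2 ≤ l.card
    · obtain ⟨B, hB, hZB⟩ := hG2 V K K' RV RK RK' f H.asV H.asK H.asK' H.simp hZ l
      refine ⟨B, fun i => ?_, hZB⟩
      rw [hB]
      constructor
      · rintro ⟨h1, h2⟩
        exact ⟨⟨h1, by rw [h2]; exact hl⟩, h2⟩
      · rintro ⟨⟨h1, _⟩, h2⟩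
        exact ⟨h1, h2⟩
    · refine ⟨∅, fun i => ?_, zc_empty _ _⟩
      constructor
      · intro h
        exact absurd h (Finset.notMem_empty _)
      · rintro ⟨⟨_, h1⟩, h2⟩
        exact absurd (h2 ▸ h1) hl

end Pool.Agent.Lib.MP_39dc45_gt.SP
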