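import Pool.Agent.Lib.MP_39dc45_gt.SP.StA

/-!
# MP_39dc45_gt: the product formula
-/

open Matrix

noncomputable section

namespace Pool.Agent.Lib.MP_39dc45_gt.SP

namespace P3aux

section supp

variable {V K K' : Type} [DecidableEq V]

theorem psupp_erase (l : List (V × K)) (k : ℕ) : psupp (l.eraseIdx k) ⊆ psupp l := by
  intro v hv
  unfold psupp at hv ⊢
  rw [List.mem_toFinset] at hv ⊢
  exact ((List.eraseIdx_sublist l k).map Prod.fst).subset hv

theorem bd_supp {l l' : List (V × K)} (h : bd l l' ≠ 0) : psupp l' ⊆ psupp l := by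
  classical
  unfold bd at h
  split_ifs at h with h1
  · exact absurd rfl h
  · rw [Finsupp.finset_sum_apply] at h
    obtain ⟨k, _, hk⟩ := Finset.exists_ne_zero_of_sum_ne_zero h
    rw [Finsupp.single_apply] at hk
    by_cases he : l.eraseIdx k = l'
    · rw [← he]
      exact psupp_erase l k
    · rw [if_neg he] at hk
      exact absurd rfl hk

theorem push_supp {R : V × K → V × K → Prop} {f : K' → K} {l : List (V × K')}
    {l' : List (V × K)} (h : push R (Prod.map id f) l l' ≠ 0) : psupp l' = psupp l := by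
  classical
  unfold push at h
  split_ifs at h with h1
  · rw [Finsupp.single_apply] at h
    by_cases he : l.map (Prod.map id f) = l'
    · rw [← he]
      unfold psupp
      rw [List.map_map]
      rfl
    · rw [if_neg he] at h
      exact absurd rfl h
  · exact absurd rfl h

theorem coD_supp {R : V × K → V × K → Prop} {f : K' → K} {c c' : List (V × K) ⊕ List (V × K')}
    (h : coD R (Prod.map id f) c c' ≠ 0) : csupp c' ⊆ csupp c := by
  rcases c with l | l
  · rcases c' with l' | l'
    · have e : coD R (Prod.map id f) (Sum.inl l : List (V × K) ⊕ List (V × K')) (Sum.inl l') =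
          bd l l' := by
        unfold coD coneD
        exact Finsupp.mapDomain_apply Sum.inl_injective _ _
      rw [e] at h
      exact bd_supp h
    · exfalso
      apply h
      unfold coD coneD
      exact Finsupp.mapDomain_of_notMem_range _ _ (by simp)
  · rcases c' with l' | l'
    · have e : coD R (Prod.map id f) (Sum.inr l : List (V × K) ⊕ List (V × K')) (Sum.inl l') =
          push R (Prod.map id f) l l' := by
        unfold coD coneD
        rw [Finsupp.sub_apply, Finsupp.mapDomain_apply Sum.inl_injective,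
          Finsupp.mapDomain_of_notMem_range _ _ (by simp), sub_zero]
      rw [e] at h
      exact (push_supp h).le
    · have e : coD R (Prod.map id f) (Sum.inr l : List (V × K) ⊕ List (V × K')) (Sum.inr l') =
          - bd l l' := by
        unfold coD coneD
        rw [Finsupp.sub_apply, Finsupp.mapDomain_apply Sum.inr_injective,
          Finsupp.mapDomain_of_notMem_range _ _ (by simp), zero_sub]
      rw [e] at h
      exact bd_supp (neg_ne_zero.1 h)

variable {Γ : Type} [Group Γ] [MulAction Γ V] [MulAction Γ K] [MulAction Γ K']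

theorem psupp_smul (γ : Γ) (l : List (V × K)) :
    psupp (γ • l) = (psupp l).image (fun v => γ • v) := by
  ext v
  unfold psupp
  rw [smul_list, List.map_map, List.mem_toFinset, List.mem_map, Finset.mem_image]
  constructor
  · rintro ⟨x, hx, rfl⟩
    exact ⟨x.1, List.mem_toFinset.2 (List.mem_map.2 ⟨x, hx, rfl⟩), rfl⟩
  · rintro ⟨y, hy, rfl⟩
    obtain ⟨x, hx, rfl⟩ := List.mem_map.1 (List.mem_toFinset.1 hy)
    exact ⟨x, hx, rfl⟩

theorem card_csupp_smul (γ : Γ) (c : List (V × K) ⊕ List (V × K')) :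
    (csupp (γ • c)).card = (csupp c).card := by
  rcases c with l | l
  · change (psupp (γ • l)).card = (psupp l).card
    rw [psupp_smul, Finset.card_image_of_injective _ (MulAction.injective γ)]
  · change (psupp (γ • l)).card = (psupp l).card
    rw [psupp_smul, Finset.card_image_of_injective _ (MulAction.injective γ)]

theorem psupp_pos {l : List (V × K)} (h : l ≠ []) : 1 ≤ (psupp l).card := by
  rw [Nat.one_le_iff_ne_zero, Finset.card_ne_zero]
  obtain ⟨x, hx⟩ := List.exists_mem_of_ne_nil l h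
  exact ⟨x.1, List.mem_toFinset.2 (List.mem_map.2 ⟨x, hx, rfl⟩)⟩

end supp

/-- The image of the matrix over the group ring is the twisted matrix. -/
theorem map_coneMat {Γ V W : Type} [Group Γ] [MulAction Γ V] [MulAction Γ W]
    {RV : V → V → Prop} {RW : W → W → Prop} {f : V → W}
    (h : EC Γ (coP RV RW) cdeg (coD RW f)) (χ : Γ →* F31) {J : Type}
    {r : J → List W ⊕ List V} (hr : ∀ j, r j ∈ coP RV RW) :
    (coneMat Γ RW f r).map (MonoidAlgebra.lift ℤ F31 Γ χ) = tw χ (coD RW f) r := by
  ext j j'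
  have hinj : Function.Injective fun γ : Γ => γ • r j' := by
    intro a b hab
    have h1 : (b⁻¹ * a) • r j' = r j' := by
      rw [mul_smul]
      change b⁻¹ • (a • r j') = r j'
      rw [show a • r j' = b • r j' from hab, inv_smul_smul]
    have h2 := h.free _ _ (hr j') h1
    rw [inv_mul_eq_one] at h2
    exact h2.symm
  have hfin : {γ : Γ | coD RW f (r j) (γ • r j') ≠ 0}.Finite := by
    have h1 := (h.fin (r j) (hr j)).preimage (f := fun γ : Γ => γ • r j') hinj.injOn
    exact h1.subset fun γ hγ => ⟨h.smul_mem γ _ (hr j'), hγ⟩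
  have hsup : (Function.support fun γ : Γ =>
      (MonoidAlgebra.single γ (coneD RW f (r j) (cellMap γ (r j'))) : MonoidAlgebra ℤ Γ)).Finite := by
    refine hfin.subset fun γ hγ => ?_
    intro h0
    apply hγ
    change MonoidAlgebra.single γ (coD RW f (r j) (γ • r j')) = (0 : MonoidAlgebra ℤ Γ)
    rw [h0]
    exact MonoidAlgebra.single_zero γ
  change (MonoidAlgebra.lift ℤ F31 Γ χ) (∑ᶠ γ : Γ,
    MonoidAlgebra.single γ (coneD RW f (r j) (cellMap γ (r j')))) =
    ∑ᶠ γ : Γ, χ γ * ((coD RW f (r j) (γ • r j') : ℤ) : F31)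
  have h1 := AddMonoidHom.map_finsum
    ((MonoidAlgebra.lift ℤ F31 Γ χ).toRingHom.toAddMonoidHom) hsup
  refine h1.trans (finsum_congr fun γ => ?_)
  change (MonoidAlgebra.lift ℤ F31 Γ χ)
    (MonoidAlgebra.single γ (coneD RW f (r j) (cellMap γ (r j')))) = _
  rw [MonoidAlgebra.lift_single, zsmul_eq_mul, mul_comm]
  rfl

end P3aux

open P3aux

theorem stP3 : StM7 → StE2 → StE5 → StC4 → StP0 → StP1 → StP2 → StP3 := by
  intro hM7 hE2 hE5 hC4 hP0 hP1 hP2
  intro Γ C V K K' _ _ _ _ _ _ _ _ _ _ _ _ π RV RK RK' f w χ hH hχ u hu J _ _ r hr htt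
  obtain ⟨hEC, -, -⟩ := hP0 Γ C V K K' π RV RK RK' f w hH
  have hχ' : Ten (χ.comp π) := fun γ => hχ (π γ)
  obtain ⟨S, s1, s2, e, hW⟩ := htt
  have hC : Contr (fun j => cdeg (r j)) (coneMat Γ (prodR RV RK) (Prod.map id f) r) S :=
    ⟨s1, s2⟩
  -- the torsion of the whole complex
  obtain ⟨q1, -, q3⟩ := hE2 Γ _ _ cdeg (coD (prodR RV RK) (Prod.map id f)) (χ.comp π) hEC hχ'
  have hrep : IsRep Γ (coP (prodR RV RK') (prodR RV RK)) r := hr
  have h1 : TorG Γ (coP (prodR RV RK') (prodR RV RK)) cdeg
      (coD (prodR RV RK) (Prod.map id f)) (χ.comp π) 1 := by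
    rw [q3 J r hrep, ← map_coneMat hEC (χ.comp π) hr.1]
    exact hM7 Γ (χ.comp π) hχ' J _ _ S hC e hW
  -- the integral contraction
  have : Nonempty V := ⟨w 0⟩
  have hIK : Inv Γ RK := by
    intro γ k k' hk
    rw [hH.compK, hH.compK]
    exact hH.invK _ _ _ hk
  have hIK' : Inv Γ RK' := by
    intro γ k k' hk
    rw [hH.compK', hH.compK']
    exact hH.invK' _ _ _ hk
  have hEq : Equi Γ f := by
    intro γ k
    rw [hH.compK, hH.compK']
    exact hH.equi _ _
  have hB := hC4 Γ V K K' RV RK RK' f hH.asV hH.asK hH.asK' hH.invV hIK hIK' hH.simp hEq J r hr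
    S hC
  -- the two parts
  have t1 := hP1 Γ C V K K' π RV RK RK' f w χ hH hχ u hu
  have t2 := hP2 Γ C V K K' π RV RK RK' f w χ hH hχ hB
  obtain ⟨-, -, k3, -⟩ := hE5 Γ _ (coP (prodR RV RK') (prodR RV RK))
    {c | c ∈ coP (prodR RV RK') (prodR RV RK) ∧ (csupp c).card = 1}
    {c | c ∈ coP (prodR RV RK') (prodR RV RK) ∧ 2 ≤ (csupp c).card} cdeg
    (coD (prodR RV RK) (Prod.map id f)) (χ.comp π) hEC hχ' (by
      ext c
      constructor
      · intro hc
        have h2 : 1 ≤ (csupp c).card := by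
          rcases c with l | l
          · exact psupp_pos hc.1
          · exact psupp_pos hc.1
        rcases h2.eq_or_lt with h3 | h3
        · exact Or.inl ⟨hc, h3.symm⟩
        · exact Or.inr ⟨hc, h3⟩
      · rintro (hc | hc)
        · exact hc.1
        · exact hc.1) (by
      rw [Set.disjoint_left]
      rintro c ⟨_, hc⟩ ⟨_, hc'⟩
      omega) (by
      rintro γ c ⟨hc, hc'⟩
      exact ⟨hEC.smul_mem γ c hc, by rw [card_csupp_smul, hc']⟩) (by
      rintro γ c ⟨hc, hc'⟩
      exact ⟨hEC.smul_mem γ c hc, by rw [card_csupp_smul]; exact hc'⟩) (by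
      rintro c ⟨_, hc⟩ c' ⟨_, hc'⟩
      by_contra h0
      have h2 := Finset.card_le_card (coD_supp h0)
      omega)
  have t3 := k3 _ _ t1 t2
  have t4 := q1 _ _ t3 h1
  rwa [mul_one] at t4

end Pool.Agent.Lib.MP_39dc45_gt.SP
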