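import Pool.Agent.Lib.MP_39dc45_gt.SP.StT

/-!
# MP_39dc45_gt: the two polynomial maps are homotopy inverse to each other
-/

open scoped Topology
open Matrix

noncomputable section

namespace Pool.Agent.Lib.MP_39dc45_gt.SP

namespace PolyM

/-! ### Homotopies commuting with the fifth roots of unity -/

/-- commuting with the fifth roots of unity -/
def Cm (f : C(Sph 3, Sph 3)) : Prop :=
  ∀ u : Circle, u ^ 5 = 1 → ∀ s, f (rotH u s) = rotH u (f s)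

theorem with_of_hmt {F G : Sph 3 → Sph 3} (h : Hmt5 F G) (f g : C(Sph 3, Sph 3))
    (hf : ∀ s, f s = F s) (hg : ∀ s, g s = G s) : ContinuousMap.HomotopicWith f g Cm := by
  obtain ⟨H, h0, h1, h2⟩ := h
  refine ⟨⟨⟨⟨fun x => H (x.2, x.1), by fun_prop⟩, ?_, ?_⟩, ?_⟩⟩
  · intro s
    change H (s, 0) = f s
    rw [h0, hf]
  · intro s
    change H (s, 1) = g s
    rw [h1, hg]
  · intro t u hu s
    exact h2 u hu s t

theorem hmt_of_with {f g : C(Sph 3, Sph 3)} (h : ContinuousMap.HomotopicWith f g Cm) :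
    Hmt5 f g := by
  obtain ⟨K⟩ := h
  refine ⟨⟨fun x => K (x.2, x.1), by fun_prop⟩, ?_, ?_, ?_⟩
  · intro s
    exact K.apply_zero s
  · intro s
    exact K.apply_one s
  · intro u hu s t
    exact K.prop t u hu s

theorem hmt_cont {F G : Sph 3 → Sph 3} (h : Hmt5 F G) : Continuous F ∧ Continuous G := by
  obtain ⟨H, h0, h1, -⟩ := h
  constructor
  · have e : F = fun s => H (s, 0) := by
      funext s
      exact (h0 s).symm
    rw [e]
    fun_prop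
  · have e : G = fun s => H (s, 1) := by
      funext s
      exact (h1 s).symm
    rw [e]
    fun_prop

theorem hmt_trans {F G K : Sph 3 → Sph 3} (h : Hmt5 F G) (h' : Hmt5 G K) : Hmt5 F K := by
  obtain ⟨hF, hG⟩ := hmt_cont h
  obtain ⟨-, hK⟩ := hmt_cont h'
  have h1 := with_of_hmt h ⟨F, hF⟩ ⟨G, hG⟩ (fun _ => rfl) (fun _ => rfl)
  have h2 := with_of_hmt h' ⟨G, hG⟩ ⟨K, hK⟩ (fun _ => rfl) (fun _ => rfl)
  exact hmt_of_with (h1.trans h2)

theorem hmtE_of_hmt {F G : Sph 3 → Sph 3} (h : Hmt5 F G) (σ : Side) : HmtE σ σ F G := by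
  obtain ⟨H, h0, h1, h2⟩ := h
  refine ⟨H, h0, h1, ?_⟩
  intro g s t
  refine h2 (ZMod.toCircle (N := 5) (Multiplicative.toAdd (g ^ σ.k))) ?_ s t
  have h7 : g ^ 5 = 1 := by
    apply Multiplicative.toAdd.injective
    rw [toAdd_pow, toAdd_one, nsmul_eq_mul]
    have : ((5 : ℕ) : ZMod 5) = 0 := by decide
    rw [this, zero_mul]
  have h8 : (g ^ σ.k) ^ 5 = 1 := by
    rw [← pow_mul, mul_comm, pow_mul, h7, one_pow]
  have h9 : (5 : ℕ) • Multiplicative.toAdd (g ^ σ.k) = 0 := by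
    rw [← toAdd_pow, h8, toAdd_one]
  rw [← AddChar.map_nsmul_eq_pow, h9, AddChar.map_zero_eq_one]

/-! ### The stages -/

theorem cont_nz : Continuous nz := Complex.continuous_normSq

theorem nz_mul (u z : ℂ) : nz (u * z) = nz u * nz z := Complex.normSq_mul u z

theorem nz_unit {u : ℂ} (hu : ‖u‖ = 1) : nz u = 1 := by
  unfold nz
  rw [Complex.normSq_eq_norm_sq, hu, one_pow]

theorem cj_mul_self {u : ℂ} (hu : ‖u‖ = 1) : cj u * u = 1 := by
  have h := Complex.normSq_eq_conj_mul_self (z := u)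
  have h1 : Complex.normSq u = 1 := nz_unit hu
  rw [h1] at h
  simpa using h.symm

theorem cj_four {u : ℂ} (h5 : u ^ 5 = 1) (hu : ‖u‖ = 1) : cj u = u ^ 4 := by
  have h1 := cj_mul_self hu
  calc cj u = cj u * u ^ 5 := by rw [h5, mul_one]
    _ = (cj u * u) * u ^ 4 := by ring
    _ = u ^ 4 := by rw [h1, one_mul]

/-- the norm of the polynomial map -/
def rr (z w : ℂ) : ℝ := (Real.sqrt (nz (cj z ^ 2 + w ^ 3) + nz (cj z * cj w)))⁻¹

theorem nz_nonneg (z : ℂ) : 0 ≤ nz z := Complex.normSq_nonneg z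

theorem nz_eq_zero {z : ℂ} : nz z = 0 ↔ z = 0 := Complex.normSq_eq_zero

theorem nz_cj (z : ℂ) : nz (cj z) = nz z := Complex.normSq_conj z

theorem pos_pq {z w : ℂ} (h : nz z + nz w = 1) :
    0 < nz (cj z ^ 2 + w ^ 3) + nz (cj z * cj w) := by
  have h0 := nz_nonneg (cj z ^ 2 + w ^ 3)
  have h1 := nz_nonneg (cj z * cj w)
  rcases lt_or_eq_of_le (add_nonneg h0 h1) with h2 | h2
  · exact h2
  · exfalso
    have h3 : nz (cj z ^ 2 + w ^ 3) = 0 := by linarith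
    have h4 : nz (cj z * cj w) = 0 := by linarith
    rw [nz_mul, nz_cj, nz_cj, mul_eq_zero] at h4
    rw [nz_eq_zero] at h3
    rcases h4 with h4 | h4
    · have hz : z = 0 := nz_eq_zero.1 h4
      rw [hz] at h3 h
      have hw : w = 0 := by
        have : w ^ 3 = 0 := by simpa using h3
        exact pow_eq_zero_iff (three_ne_zero) |>.1 this
      rw [hw] at h
      simp [nz] at h
    · have hw : w = 0 := nz_eq_zero.1 h4
      rw [hw] at h3 h
      have hz : z = 0 := by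
        have h5 : cj z ^ 2 = 0 := by simpa using h3
        have h6 : cj z = 0 := pow_eq_zero_iff (two_ne_zero) |>.1 h5
        have h7 : nz (cj z) = 0 := nz_eq_zero.2 h6
        rw [nz_cj] at h7
        exact nz_eq_zero.1 h7
      rw [hz] at h
      simp [nz] at h

theorem rr_pos {z w : ℂ} (h : nz z + nz w = 1) : 0 < rr z w := by
  unfold rr
  exact inv_pos.2 (Real.sqrt_pos.2 (pos_pq h))

/-- the first stage with the right parameter -/
def gP (z w : ℂ) : ℂ := gP0 (rr z w) z w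

section eq5
variable {u : ℂ} (h5 : u ^ 5 = 1) (hu : ‖u‖ = 1)
include h5 hu

theorem inner5 (z w : ℂ) : cj (u * z) ^ 2 + (u * w) ^ 3 = u ^ 3 * (cj z ^ 2 + w ^ 3) := by
  have h1 := cj_four h5 hu
  have h2 : cj (u * z) = u ^ 4 * cj z := by rw [← h1]; exact map_mul _ _ _
  rw [h2]
  have h3 : (u ^ 4 * cj z) ^ 2 = (u ^ 5) * u ^ 3 * cj z ^ 2 := by ring
  rw [h3, h5]
  ring

theorem cjmul5 (z : ℂ) : cj (u * z) = u ^ 4 * cj z := by
  rw [← cj_four h5 hu]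
  exact map_mul _ _ _

theorem nzmul5 (z : ℂ) : nz (u * z) = nz z := by
  rw [nz_mul, nz_unit hu, one_mul]

theorem rr5 (z w : ℂ) : rr (u * z) (u * w) = rr z w := by
  unfold rr
  have hn : ∀ k : ℕ, nz (u ^ k) = 1 := by
    intro k
    apply nz_unit
    rw [norm_pow, hu, one_pow]
  rw [inner5 h5 hu, cjmul5 h5 hu, cjmul5 h5 hu]
  have h3 : u ^ 4 * cj z * (u ^ 4 * cj w) = u ^ 8 * (cj z * cj w) := by ring
  rw [h3, nz_mul, nz_mul (u ^ 8), hn, hn, one_mul, one_mul]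

end eq5

theorem eq5_gP : Eq5 gP := by
  intro u h5 hu z w
  unfold gP
  rw [rr5 h5 hu]
  unfold gP0
  rw [inner5 h5 hu]
  have h1 : (u ^ 3 * (cj z ^ 2 + w ^ 3)) ^ 2 = (u ^ 5) * u * (cj z ^ 2 + w ^ 3) ^ 2 := by ring
  have h2 : (u * z * (u * w)) ^ 3 = (u ^ 5) * u * (z * w) ^ 3 := by ring
  rw [h1, h2, h5]
  ring

theorem eq5_gQ0 : Eq5 gQ0 := by
  intro u h5 hu z w
  unfold gQ0
  rw [inner5 h5 hu, cjmul5 h5 hu, cjmul5 h5 hu]
  have h1 : u ^ 3 * (cj z ^ 2 + w ^ 3) * (u ^ 4 * cj z * (u ^ 4 * cj w))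
      = (u ^ 5) ^ 2 * (u * ((cj z ^ 2 + w ^ 3) * (cj z * cj w))) := by ring
  rw [h1, h5]
  ring

theorem eq5_gP1 : Eq5 gP1 := by
  intro u h5 hu z w
  unfold gP1
  rw [cjmul5 h5 hu, nzmul5 h5 hu]
  have h1 : (u ^ 4 * cj z) ^ 4 = (u ^ 5) ^ 3 * (u * cj z ^ 4) := by ring
  have h2 : (u * z) ^ 3 * (u * w) ^ 3 = (u ^ 5) * (u * (z ^ 3 * w ^ 3)) := by ring
  have h3 : (u * w) ^ 6 = (u ^ 5) * (u * w ^ 6) := by ring
  rw [h1, h2, h3, h5]
  ring

theorem eq5_gQ2 : Eq5 gQ2 := by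
  intro u h5 hu z w
  unfold gQ2
  rw [cjmul5 h5 hu, cjmul5 h5 hu, nzmul5 h5 hu]
  have h1 : (u ^ 4 * cj z) ^ 3 * (u ^ 4 * cj w) = (u ^ 5) ^ 3 * (u * (cj z ^ 3 * cj w)) := by ring
  have h2 : (u ^ 4 * cj z) * (u * w) ^ 2 = (u ^ 5) * (u * (cj z * w ^ 2)) := by ring
  rw [h1, h2, h5]
  ring

theorem eq5_gP4 : Eq5 gP4 := by
  intro u h5 hu z w
  unfold gP4
  rw [nzmul5 h5 hu]
  have h2 : (u * z) ^ 3 * (u * w) ^ 3 = (u ^ 5) * (u * (z ^ 3 * w ^ 3)) := by ring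
  have h3 : (u * w) ^ 6 = (u ^ 5) * (u * w ^ 6) := by ring
  rw [h2, h3, h5]
  ring

theorem eq5_gQ6 : Eq5 gQ6 := by
  intro u h5 hu z w
  unfold gQ6
  rw [cjmul5 h5 hu, nzmul5 h5 hu]
  have h2 : (u ^ 4 * cj z) * (u * w) ^ 2 = (u ^ 5) * (u * (cj z * w ^ 2)) := by ring
  rw [h2, h5]
  ring

theorem eq5_gP8 : Eq5 gP8 := by
  intro u h5 hu z w
  unfold gP8
  rw [nzmul5 h5 hu]
  have h3 : (u * w) ^ 6 = (u ^ 5) * (u * w ^ 6) := by ring
  rw [h3, h5]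
  ring

theorem eq5_fst : Eq5 fun z _ => z := fun _ _ _ _ _ => rfl

theorem eq5_snd : Eq5 fun _ w => w := fun _ _ _ _ _ => rfl

/-! ### Continuity -/

theorem cont_cj {X : Type} [TopologicalSpace X] {f : X → ℂ} (hf : Continuous f) :
    Continuous fun x => cj (f x) := Complex.continuous_conj.comp hf

section cont
variable (hz : Continuous zc) (hw : Continuous wc)
include hz hw

theorem cont_inner : Continuous fun s : Sph 3 => cj (zc s) ^ 2 + wc s ^ 3 :=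
  ((cont_cj hz).pow 2).add (hw.pow 3)

theorem cont_inner' : Continuous fun s : Sph 3 => cj (zc s) * cj (wc s) :=
  (cont_cj hz).mul (cont_cj hw)

theorem cont_rr (hs : ∀ s, nz (zc s) + nz (wc s) = 1) :
    Continuous fun s : Sph 3 => rr (zc s) (wc s) := by
  unfold rr
  refine Continuous.inv₀ ?_ ?_
  · exact Real.continuous_sqrt.comp ((cont_nz.comp (cont_inner hz hw)).add
      (cont_nz.comp (cont_inner' hz hw)))
  · intro s
    exact (Real.sqrt_pos.2 (pos_pq (hs s))).ne'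

theorem cont_gP (hs : ∀ s, nz (zc s) + nz (wc s) = 1) :
    Continuous fun s : Sph 3 => gP (zc s) (wc s) := by
  unfold gP gP0
  exact ((cont_inner hz hw).pow 2).add ((Complex.continuous_ofReal.comp
    (cont_rr hz hw hs)).mul ((hz.mul hw).pow 3))

theorem cont_gQ0 : Continuous fun s : Sph 3 => gQ0 (zc s) (wc s) := by
  unfold gQ0
  exact (cont_inner hz hw).mul (cont_inner' hz hw)

theorem cont_gP1 : Continuous fun s : Sph 3 => gP1 (zc s) (wc s) := by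
  have h1 : Continuous fun s : Sph 3 => nz (zc s) := cont_nz.comp hz
  have h2 : Continuous fun s : Sph 3 => cj (zc s) := cont_cj hz
  unfold gP1
  fun_prop

theorem cont_gQ2 : Continuous fun s : Sph 3 => gQ2 (zc s) (wc s) := by
  have h1 : Continuous fun s : Sph 3 => nz (zc s) := cont_nz.comp hz
  have h2 : Continuous fun s : Sph 3 => cj (zc s) := cont_cj hz
  have h3 : Continuous fun s : Sph 3 => cj (wc s) := cont_cj hw
  unfold gQ2
  fun_prop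

theorem cont_gP4 : Continuous fun s : Sph 3 => gP4 (zc s) (wc s) := by
  have h1 : Continuous fun s : Sph 3 => nz (zc s) := cont_nz.comp hz
  unfold gP4
  fun_prop

theorem cont_gQ6 : Continuous fun s : Sph 3 => gQ6 (zc s) (wc s) := by
  have h1 : Continuous fun s : Sph 3 => nz (zc s) := cont_nz.comp hz
  have h2 : Continuous fun s : Sph 3 => cj (zc s) := cont_cj hz
  unfold gQ6
  fun_prop

theorem cont_gP8 : Continuous fun s : Sph 3 => gP8 (zc s) (wc s) := by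
  have h1 : Continuous fun s : Sph 3 => nz (zc s) := cont_nz.comp hz
  unfold gP8
  fun_prop

end cont

/-! ### The composites -/

/-- the normalised first stage -/
def st0 (s : Sph 3) : Sph 3 := toS (gP (zc s) (wc s)) (gQ0 (zc s) (wc s))

theorem main (h3 : StS3) (hL : StLin) (h1 : StMv1) (h2 : StMv2) (h4 : StMv3) : Hmt5 st0 id := by
  obtain ⟨hz, hw, hs, -, -, hid, -⟩ := h3
  have a1 := hL gP gQ0 gP1 gQ0 (cont_gP hz hw hs) (cont_gQ0 hz hw) (cont_gP1 hz hw)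
    (cont_gQ0 hz hw) eq5_gP eq5_gQ0 eq5_gP1 eq5_gQ0
    (fun s => (h1 _ _ (hs s)).1 _ (rr_pos (hs s)))
  have a2 := hL gP1 gQ0 gP1 gQ2 (cont_gP1 hz hw) (cont_gQ0 hz hw) (cont_gP1 hz hw)
    (cont_gQ2 hz hw) eq5_gP1 eq5_gQ0 eq5_gP1 eq5_gQ2 (fun s => (h1 _ _ (hs s)).2)
  have a3 := hL gP1 gQ2 gP4 gQ2 (cont_gP1 hz hw) (cont_gQ2 hz hw) (cont_gP4 hz hw)
    (cont_gQ2 hz hw) eq5_gP1 eq5_gQ2 eq5_gP4 eq5_gQ2 (fun s => (h2 _ _ (hs s)).1)
  have a4 := hL gP4 gQ2 gP4 gQ6 (cont_gP4 hz hw) (cont_gQ2 hz hw) (cont_gP4 hz hw)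
    (cont_gQ6 hz hw) eq5_gP4 eq5_gQ2 eq5_gP4 eq5_gQ6 (fun s => (h2 _ _ (hs s)).2)
  have a5 := hL gP4 gQ6 gP8 gQ6 (cont_gP4 hz hw) (cont_gQ6 hz hw) (cont_gP8 hz hw)
    (cont_gQ6 hz hw) eq5_gP4 eq5_gQ6 eq5_gP8 eq5_gQ6 (fun s => (h4 _ _ (hs s)).1)
  have a6 := hL gP8 gQ6 gP8 (fun _ w => w) (cont_gP8 hz hw) (cont_gQ6 hz hw) (cont_gP8 hz hw)
    hw eq5_gP8 eq5_gQ6 eq5_gP8 eq5_snd (fun s => (h4 _ _ (hs s)).2.1)
  have a7 := hL gP8 (fun _ w => w) (fun z _ => z) (fun _ w => w) (cont_gP8 hz hw) hw hz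
    hw eq5_gP8 eq5_snd eq5_fst eq5_snd (fun s => (h4 _ _ (hs s)).2.2)
  have a8 := hmt_trans a1 (hmt_trans a2 (hmt_trans a3 (hmt_trans a4 (hmt_trans a5
    (hmt_trans a6 a7)))))
  have e : (fun s : Sph 3 => toS (zc s) (wc s)) = id := by
    funext s
    exact hid s
  rw [e] at a8
  exact a8

/-- the algebra of the composites -/
theorem comp_alg (n : ℝ) (hn : n ≠ 0) (p q : ℂ) :
    (p / (n : ℂ)) ^ 2 + (q / (n : ℂ)) ^ 3 = ((n⁻¹ ^ 2 : ℝ) : ℂ) * (p ^ 2 + (n⁻¹ : ℝ) * q ^ 3) := by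
  have h1 : (n : ℂ) ≠ 0 := by exact_mod_cast hn
  push_cast
  field_simp

theorem comp_alg' (n : ℝ) (p q : ℂ) :
    (p / (n : ℂ)) * (q / (n : ℂ)) = ((n⁻¹ ^ 2 : ℝ) : ℂ) * (p * q) := by
  push_cast
  ring

theorem comps (h3 : StS3) (s : Sph 3) : FG (FP s) = st0 s ∧ FP (FG s) = st0 s := by
  obtain ⟨hz, hw, hs, -, -, hid, hzw, hsc, -⟩ := h3
  set z := zc s with hzdef
  set w := wc s with hwdef
  have hp := pos_pq (hs s)
  rw [← hzdef, ← hwdef] at hp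
  set n : ℝ := Real.sqrt (nz (cj z ^ 2 + w ^ 3) + nz (cj z * cj w)) with hn
  have hn0 : 0 < n := Real.sqrt_pos.2 hp
  have hne : ((cj z ^ 2 + w ^ 3, cj z * cj w) : ℂ × ℂ) ≠ 0 := by
    intro h
    rw [Prod.mk_eq_zero] at h
    rw [h.1, h.2] at hp
    simp [nz] at hp
  have cjp : cj (cj z ^ 2 + w ^ 3) = z ^ 2 + cj w ^ 3 := by
    simp [cj, map_add, map_pow]
  have cjq : cj (cj z * cj w) = z * w := by
    simp [cj, map_mul]
  have cjp' : cj (z ^ 2 + cj w ^ 3) = cj z ^ 2 + w ^ 3 := by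
    rw [← cjp]
    simp [cj]
  have cjq' : cj (z * w) = cj z * cj w := map_mul _ _ _
  have n1 : nz (z ^ 2 + cj w ^ 3) = nz (cj z ^ 2 + w ^ 3) := by rw [← cjp, nz_cj]
  have n2 : nz (z * w) = nz (cj z * cj w) := by rw [← cjq, nz_cj]
  have hne' : ((z ^ 2 + cj w ^ 3, z * w) : ℂ × ℂ) ≠ 0 := by
    intro h
    rw [Prod.mk_eq_zero] at h
    rw [← n1, ← n2, h.1, h.2] at hp
    simp [nz] at hp
  have hr : rr z w = n⁻¹ := rfl
  have cn : ∀ x : ℂ, cj (x / (n : ℂ)) = cj x / (n : ℂ) := by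
    intro x
    simp [cj, map_div₀]
  have hscale : 0 < n⁻¹ ^ 2 := by positivity
  constructor
  · have e1 := hzw _ _ hne'
    rw [n1, n2, ← hn] at e1
    change toS (cj (zc (toS (z ^ 2 + cj w ^ 3) (z * w))) ^ 2
      + wc (toS (z ^ 2 + cj w ^ 3) (z * w)) ^ 3)
      (cj (zc (toS (z ^ 2 + cj w ^ 3) (z * w))) * cj (wc (toS (z ^ 2 + cj w ^ 3) (z * w))))
      = toS (gP z w) (gQ0 z w)
    rw [e1.1, e1.2, cn, cn, cjp', cjq', comp_alg n hn0.ne', comp_alg', hsc _ _ _ hscale]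
    rfl
  · have e1 := hzw _ _ hne
    rw [← hn] at e1
    change toS (zc (toS (cj z ^ 2 + w ^ 3) (cj z * cj w)) ^ 2
      + cj (wc (toS (cj z ^ 2 + w ^ 3) (cj z * cj w))) ^ 3)
      (zc (toS (cj z ^ 2 + w ^ 3) (cj z * cj w)) * wc (toS (cj z ^ 2 + w ^ 3) (cj z * cj w)))
      = toS (gP z w) (gQ0 z w)
    rw [e1.1, e1.2, cn, cjq, comp_alg n hn0.ne', comp_alg', hsc _ _ _ hscale]
    rfl

end PolyM

open PolyM

/-- Module Poly. -/
theorem stPoly : StS3 → StLin → StMv1 → StMv2 → StMv3 → StPoly := by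
  intro h3 hL h1 h2 h4
  have hm := main h3 hL h1 h2 h4
  have e1 : (fun s => FG (FP s)) = st0 := by
    funext s
    exact (comps h3 s).1
  have e2 : (fun s => FP (FG s)) = st0 := by
    funext s
    exact (comps h3 s).2
  refine ⟨?_, ?_⟩
  · rw [e1]
    exact hmtE_of_hmt hm .src
  · rw [e2]
    exact hmtE_of_hmt hm .tgt

end Pool.Agent.Lib.MP_39dc45_gt.SP
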