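import Pool.Agent.Lib.MP_39dc45_gt.SP.StT

/-!
# MP_39dc45_gt: points of a product of triangulations
-/

set_option autoImplicit false

noncomputable section

namespace Pool.Agent.Lib.MP_39dc45_gt.SP

namespace PrPt

section one

variable {V : Type} {R : V → V → Prop}

theorem nodup (hR : Asym R) {l : List V} (h : l.Pairwise R) : l.Nodup :=
  h.imp fun {a b} hab => by
    rintro rfl
    exact hR _ _ hab hab

theorem tri {l : List V} (h : l.Pairwise R) {u v : V} (hu : u ∈ l) (hv : v ∈ l) :
    u = v ∨ R u v ∨ R v u := by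
  by_contra hne
  push Not at hne
  induction h with
  | nil => simp at hu
  | @cons a l ha _ ih =>
    rcases List.mem_cons.1 hu with rfl | hu'
    · rcases List.mem_cons.1 hv with rfl | hv'
      · exact hne.1 rfl
      · exact hne.2.1 (ha v hv')
    · rcases List.mem_cons.1 hv with rfl | hv'
      · exact hne.2.2 (ha u hu')
      · exact ih hu' hv'

theorem trans (hR : Asym R) {l : List V} (h : l.Pairwise R) {u v w : V} (hu : u ∈ l) (hv : v ∈ l)
    (hw : w ∈ l) (huv : R u v) (hvw : R v w) : R u w := by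
  obtain ⟨i, hi, rfl⟩ := List.getElem_of_mem hu
  obtain ⟨j, hj, rfl⟩ := List.getElem_of_mem hv
  obtain ⟨m, hm, rfl⟩ := List.getElem_of_mem hw
  have h1 := List.pairwise_iff_getElem.1 h
  have key : ∀ (i j : ℕ) (hi : i < l.length) (hj : j < l.length), R l[i] l[j] → i < j := by
    intro i j hi hj hij
    rcases lt_trichotomy i j with h2 | h2 | h2
    · exact h2
    · subst h2
      exact absurd hij (hR _ _ hij)
    · exact absurd (h1 j i hj hi h2) (hR _ _ hij)
  exact h1 i m hi hm ((key i j hi hj huv).trans (key j m hj hm hvw))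

theorem finsum_list {l : List V} (hl : l.Nodup) (g : V → ℝ) (hg : ∀ u, u ∉ l → g u = 0) :
    ∑ᶠ u, g u = (l.map g).sum := by
  classical
  rw [finsum_eq_sum_of_support_subset g (s := l.toFinset) (by
    intro u hu
    rw [Finset.mem_coe, List.mem_toFinset]
    by_contra h
    exact hu (hg u h)), List.sum_toFinset g hl]

open Classical in
theorem lo_list (hR : Asym R) {l : List V} (h : l.Pairwise R) {y : V → ℝ}
    (hy : ∀ v, y v ≠ 0 → v ∈ l) (v : V) :
    lo R y v = (l.map fun u => if R u v then y u else 0).sum := by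
  unfold lo
  rw [← finsum_list (nodup hR h)]
  · exact finsum_congr fun u => finsum_eq_if
  · intro u hu
    have h1 : y u = 0 := by
      by_contra h2
      exact hu (hy u h2)
    rw [h1, ite_self]

open Classical in
theorem lo_fin (hR : Asym R) {l : List V} (h : l.Pairwise R) {y : V → ℝ}
    (hy : ∀ v, y v ≠ 0 → v ∈ l) (v : V) :
    lo R y v = ∑ u ∈ l.toFinset, if R u v then y u else 0 := by
  rw [lo_list hR h hy v, List.sum_toFinset _ (nodup hR h)]

theorem lo_nonneg (hR : Asym R) {l : List V} (h : l.Pairwise R) {y : V → ℝ}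
    (hy : ∀ v, y v ≠ 0 → v ∈ l) (h0 : ∀ v, 0 ≤ y v) (v : V) : 0 ≤ lo R y v := by
  classical
  rw [lo_fin hR h hy v]
  refine Finset.sum_nonneg fun u _ => ?_
  split_ifs
  · exact h0 u
  · exact le_rfl

theorem lo_add_le (hR : Asym R) {l : List V} (h : l.Pairwise R) {y : V → ℝ}
    (hy : ∀ v, y v ≠ 0 → v ∈ l) (h0 : ∀ v, 0 ≤ y v) {v v' : V} (hv : v ∈ l) (hv' : v' ∈ l)
    (hvv : R v v') : lo R y v + y v ≤ lo R y v' := by
  classical
  have h1 : y v = ∑ u ∈ l.toFinset, if u = v then y u else 0 := by
    rw [Finset.sum_ite_eq' l.toFinset v y, if_pos (List.mem_toFinset.2 hv)]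
  rw [lo_fin hR h hy v, lo_fin hR h hy v']
  conv_lhs => rw [h1]
  rw [← Finset.sum_add_distrib]
  refine Finset.sum_le_sum fun u hu => ?_
  rw [List.mem_toFinset] at hu
  by_cases huv : R u v
  · have h2 : u ≠ v := by
      rintro rfl
      exact hR _ _ huv huv
    rw [if_pos huv, if_neg h2, if_pos (trans hR h hu hv hv' huv hvv), add_zero]
  · rw [if_neg huv, zero_add]
    by_cases h2 : u = v
    · rw [if_pos h2, if_pos (by rw [h2]; exact hvv)]
    · rw [if_neg h2]
      split_ifs
      · exact h0 u
      · exact le_rfl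

theorem lo_add_le_sum (hR : Asym R) {l : List V} (h : l.Pairwise R) {y : V → ℝ}
    (hy : ∀ v, y v ≠ 0 → v ∈ l) (h0 : ∀ v, 0 ≤ y v) {v : V} (hv : v ∈ l) :
    lo R y v + y v ≤ (l.map y).sum := by
  classical
  have h1 : y v = ∑ u ∈ l.toFinset, if u = v then y u else 0 := by
    rw [Finset.sum_ite_eq' l.toFinset v y, if_pos (List.mem_toFinset.2 hv)]
  rw [lo_fin hR h hy v, ← List.sum_toFinset y (nodup hR h)]
  conv_lhs => rw [h1]
  rw [← Finset.sum_add_distrib]
  refine Finset.sum_le_sum fun u hu => ?_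
  by_cases huv : R u v
  · have h2 : u ≠ v := by
      rintro rfl
      exact hR _ _ huv huv
    rw [if_pos huv, if_neg h2, add_zero]
  · rw [if_neg huv, zero_add]
    split_ifs
    · exact le_rfl
    · exact h0 u

open Classical in
/-- Telescoping. -/
theorem tele (hR : Asym R) (y : V → ℝ) (c : ℝ → ℝ) : ∀ (l : List V) (s : ℝ), l.Pairwise R →
    (l.map fun w => c (s + (l.map fun u => if R u w then y u else 0).sum + y w) -
      c (s + (l.map fun u => if R u w then y u else 0).sum)).sum =
      c (s + (l.map y).sum) - c s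
  | [], s, _ => by simp
  | x :: t, s, h => by
    rw [List.pairwise_cons] at h
    have ih := tele hR y c t (s + y x) h.2
    have h1 : ((x :: t).map fun u => if R u x then y u else 0).sum = 0 := by
      apply List.sum_eq_zero
      intro z hz
      obtain ⟨u, hu, rfl⟩ := List.mem_map.1 hz
      rw [if_neg]
      rcases List.mem_cons.1 hu with rfl | hu
      · exact fun hxx => hR _ _ hxx hxx
      · exact hR _ _ (h.1 u hu)
    have h2 : ∀ w ∈ t, ((x :: t).map fun u => if R u w then y u else 0).sum =
        y x + (t.map fun u => if R u w then y u else 0).sum := by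
      intro w hw
      rw [List.map_cons, List.sum_cons, if_pos (h.1 w hw)]
    rw [List.map_cons, List.sum_cons, h1]
    rw [List.map_congr_left (g := fun w => c (s + y x + (t.map fun u => if R u w then y u else 0).sum
      + y w) - c (s + y x + (t.map fun u => if R u w then y u else 0).sum))
      (fun w hw => by rw [h2 w hw]; simp only [add_assoc]), ih, List.map_cons, List.sum_cons,
      ← add_assoc, add_zero]
    ring

end one

/-- The length of the intersection of two intervals. -/
theorem ovl {a b T T' : ℝ} (h : a ≤ b) (hT : T ≤ T') :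
    max 0 (min b T' - max a T) = min (max T' a) b - min (max T a) b := by
  rcases le_total a T with h1 | h1 <;> rcases le_total b T' with h2 | h2 <;>
    rcases le_total T b with h3 | h3 <;> rcases le_total a T' with h4 | h4 <;>
    simp only [max_def, min_def] <;> split_ifs <;> linarith

section two

variable {V W : Type} {RV : V → V → Prop} {RW : W → W → Prop} {y : V → ℝ} {y' : W → ℝ}

theorem prB_nonneg (p : V × W) : 0 ≤ prB RV RW y y' p := le_max_left _ _

theorem prB_symm (v : V) (w : W) : prB RV RW y y' (v, w) = prB RW RV y' y (w, v) := by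
  simp only [prB, min_comm, max_comm]

/-- Outside of the first chain the product coordinates are zero. -/
theorem prB_zero {v : V} {w : W} (hv : y v = 0) : prB RV RW y y' (v, w) = 0 := by
  refine max_eq_left ?_
  change min (lo RV y v + y v) (lo RW y' w + y' w) - max (lo RV y v) (lo RW y' w) ≤ 0
  rw [hv, add_zero, sub_nonpos]
  exact (min_le_left _ _).trans (le_max_left _ _)

theorem prB_zero' {v : V} {w : W} (hw : y' w = 0) : prB RV RW y y' (v, w) = 0 := by
  rw [prB_symm]
  exact prB_zero hw

/-- The first marginal, as a sum over the second chain. -/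
theorem marg_list (hV : Asym RV) (hW : Asym RW) {l : List V} {l' : List W} (h : l.Pairwise RV)
    (h' : l'.Pairwise RW) (hy : ∀ v, y v ≠ 0 → v ∈ l) (hy' : ∀ v, y' v ≠ 0 → v ∈ l')
    (h0 : ∀ v, 0 ≤ y v) (h0' : ∀ v, 0 ≤ y' v) (hs : (l.map y).sum = 1)
    (hs' : (l'.map y').sum = 1) (v : V) :
    (l'.map fun w => prB RV RW y y' (v, w)).sum = y v := by
  classical
  by_cases hv : y v = 0
  · rw [hv]
    apply List.sum_eq_zero
    intro z hz
    obtain ⟨w, -, rfl⟩ := List.mem_map.1 hz
    exact prB_zero hv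
  · have hvl := hy v hv
    have h1 := lo_nonneg hV h hy h0 v
    have h2 := lo_add_le_sum hV h hy h0 hvl
    rw [hs] at h2
    have h3 := tele hW y' (fun x => min (max x (lo RV y v)) (lo RV y v + y v)) l' 0 h'
    have h4 : ∀ w, prB RV RW y y' (v, w) =
        min (max (0 + (l'.map fun u => if RW u w then y' u else 0).sum + y' w) (lo RV y v))
          (lo RV y v + y v) -
        min (max (0 + (l'.map fun u => if RW u w then y' u else 0).sum) (lo RV y v))
          (lo RV y v + y v) := by
      intro w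
      rw [zero_add, ← lo_list hW h' hy' w]
      exact ovl (by linarith [h0 v]) (by linarith [h0' w])
    rw [List.map_congr_left (fun w _ => h4 w), h3, hs']
    have h5 : lo RV y v ≤ 1 := by linarith [h0 v]
    rw [zero_add, max_eq_left h5, min_eq_right h2, max_eq_right h1,
      min_eq_left (by linarith [h0 v])]
    ring

theorem marg (hV : Asym RV) (hW : Asym RW) (h : IsPt RV y) (h' : IsPt RW y') (v : V) :
    y v = ∑ᶠ w, prB RV RW y y' (v, w) := by
  obtain ⟨h0, l, hl, hy, hs⟩ := h
  obtain ⟨h0', l', hl', hy', hs'⟩ := h'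
  rw [finsum_list (nodup hW hl') _ (fun w hw => prB_zero' (by
    by_contra h
    exact hw ((hy' w).1 h)))]
  exact (marg_list hV hW hl hl' (fun v hv => (hy v).1 hv) (fun v hv => (hy' v).1 hv) h0 h0' hs hs'
    v).symm

open Classical in
/-- The chain of the product. -/
def chn (RV : V → V → Prop) (RW : W → W → Prop) (y : V → ℝ) (y' : W → ℝ) (l : List V)
    (l' : List W) : List (V × W) :=
  (l.flatMap fun v => l'.map fun w => (v, w)).filter fun p => prB RV RW y y' p ≠ 0

theorem mem_chn {l : List V} {l' : List W} (hy : ∀ v, y v ≠ 0 → v ∈ l)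
    (hy' : ∀ v, y' v ≠ 0 → v ∈ l') (p : V × W) :
    prB RV RW y y' p ≠ 0 ↔ p ∈ chn RV RW y y' l l' := by
  classical
  unfold chn
  rw [List.mem_filter]
  constructor
  · intro hp
    refine ⟨?_, by simpa using hp⟩
    rw [List.mem_flatMap]
    refine ⟨p.1, hy _ fun h => hp (prB_zero h), ?_⟩
    rw [List.mem_map]
    exact ⟨p.2, hy' _ fun h => hp (prB_zero' h), rfl⟩
  · rintro ⟨-, hp⟩
    simpa using hp

theorem chn_pairwise (hV : Asym RV) (hW : Asym RW) {l : List V} {l' : List W}
    (h : l.Pairwise RV) (h' : l'.Pairwise RW) (hy : ∀ v, y v ≠ 0 → v ∈ l)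
    (hy' : ∀ v, y' v ≠ 0 → v ∈ l') (h0 : ∀ v, 0 ≤ y v) (h0' : ∀ v, 0 ≤ y' v) :
    (chn RV RW y y' l l').Pairwise (prodR RV RW) := by
  classical
  unfold chn
  rw [List.pairwise_filter, List.pairwise_flatMap]
  constructor
  · intro v hv
    rw [List.pairwise_map]
    refine h'.imp fun {w w'} hww _ _ => ⟨?_, Or.inl rfl, Or.inr hww⟩
    intro he
    have he' : w = w' := congrArg Prod.snd he
    subst he'
    exact hW _ _ hww hww
  · refine h.imp_of_mem fun {v v'} hv hv' hvv => ?_
    intro p hp p' hp' hpos hpos'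
    obtain ⟨w, hw, rfl⟩ := List.mem_map.1 hp
    obtain ⟨w', hw', rfl⟩ := List.mem_map.1 hp'
    refine ⟨?_, Or.inr hvv, ?_⟩
    · intro he
      have he' : v = v' := congrArg Prod.fst he
      subst he'
      exact hV _ _ hvv hvv
    · rcases tri h' hw hw' with h1 | h1 | h1
      · exact Or.inl h1
      · exact Or.inr h1
      · exfalso
        have h2 : prB RV RW y y' (v, w) ≠ 0 := by simpa using hpos
        have h3 : prB RV RW y y' (v', w') ≠ 0 := by simpa using hpos'
        have h4 : max (lo RV y v) (lo RW y' w) < min (lo RV y v + y v) (lo RW y' w + y' w) := by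
          by_contra hc
          exact h2 (max_eq_left (by
            change min (lo RV y v + y v) (lo RW y' w + y' w) - max (lo RV y v) (lo RW y' w) ≤ 0
            linarith [not_lt.1 hc]))
        have h5 : max (lo RV y v') (lo RW y' w') <
            min (lo RV y v' + y v') (lo RW y' w' + y' w') := by
          by_contra hc
          exact h3 (max_eq_left (by
            change min (lo RV y v' + y v') (lo RW y' w' + y' w') -
              max (lo RV y v') (lo RW y' w') ≤ 0
            linarith [not_lt.1 hc]))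
        have h6 := lo_add_le hV h hy h0 hv hv' hvv
        have h7 := lo_add_le hW h' hy' h0' hw' hw h1
        rw [max_lt_iff, lt_min_iff, lt_min_iff] at h4 h5
        linarith [h4.2.1, h5.1.2]

theorem sum_chn (hV : Asym RV) (hW : Asym RW) {l : List V} {l' : List W} (h : l.Pairwise RV)
    (h' : l'.Pairwise RW) (hy : ∀ v, y v ≠ 0 → v ∈ l) (hy' : ∀ v, y' v ≠ 0 → v ∈ l')
    (h0 : ∀ v, 0 ≤ y v) (h0' : ∀ v, 0 ≤ y' v) (hs : (l.map y).sum = 1)
    (hs' : (l'.map y').sum = 1) :
    ((chn RV RW y y' l l').map (prB RV RW y y')).sum = 1 := by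
  classical
  have h1 : ∀ L : List (V × W), ((L.filter fun p => prB RV RW y y' p ≠ 0).map
      (prB RV RW y y')).sum = (L.map (prB RV RW y y')).sum := by
    intro L
    induction L with
    | nil => rfl
    | cons p L ih =>
      by_cases hp : prB RV RW y y' p = 0
      · rw [List.filter_cons_of_neg (by simpa using hp), ih, List.map_cons, List.sum_cons, hp,
          zero_add]
      · rw [List.filter_cons_of_pos (by simpa using hp), List.map_cons, List.sum_cons, ih,
          List.map_cons, List.sum_cons]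
  unfold chn
  rw [h1, List.map_flatMap]
  have h2 : ∀ l₀ : List V, (l₀.flatMap fun v => (l'.map fun w => (v, w)).map
      (prB RV RW y y')).sum = (l₀.map y).sum := by
    intro l₀
    induction l₀ with
    | nil => rfl
    | cons v l₀ ih =>
      rw [List.flatMap_cons, List.sum_append, ih, List.map_cons, List.sum_cons, List.map_map]
      congr 1
      exact marg_list hV hW h h' hy hy' h0 h0' hs hs' v
  rw [h2, hs]

theorem isPt_prB (hV : Asym RV) (hW : Asym RW) (h : IsPt RV y) (h' : IsPt RW y') :
    IsPt (prodR RV RW) (prB RV RW y y') := by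
  obtain ⟨h0, l, hl, hy, hs⟩ := h
  obtain ⟨h0', l', hl', hy', hs'⟩ := h'
  exact ⟨prB_nonneg, chn RV RW y y' l l',
    chn_pairwise hV hW hl hl' (fun v hv => (hy v).1 hv) (fun v hv => (hy' v).1 hv) h0 h0',
    mem_chn (fun v hv => (hy v).1 hv) (fun v hv => (hy' v).1 hv),
    sum_chn hV hW hl hl' (fun v hv => (hy v).1 hv) (fun v hv => (hy' v).1 hv) h0 h0' hs hs'⟩

end two

section three

theorem rle_antisymm {V : Type} {R : V → V → Prop} (hR : Asym R) {a b : V} (h : Rle R a b)
    (h' : Rle R b a) : a = b := by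
  rcases h with h | h
  · exact h
  · rcases h' with h' | h'
    · exact h'.symm
    · exact absurd h' (hR _ _ h)

theorem asym_prodR {V W : Type} {RV : V → V → Prop} {RW : W → W → Prop} (hV : Asym RV)
    (hW : Asym RW) : Asym (prodR RV RW) := by
  rintro a b ⟨h1, h2, h3⟩ ⟨-, h4, h5⟩
  exact h1 (Prod.ext (rle_antisymm hV h2 h4) (rle_antisymm hW h3 h5))

variable {V P : Type} {R : V → V → Prop} {RP : P → P → Prop} {f : P → V}

open Classical in
/-- The marginal. -/
def mg (f : P → V) (L : List P) (q : P → ℝ) (v : V) : ℝ :=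
  (L.map fun p => if f p = v then q p else 0).sum

open Classical in
theorem swap (q : P → ℝ) (φ : V → Prop) {l : List V} (hl : l.Nodup) (L : List P)
    (hL : ∀ p ∈ L, f p ∈ l) : (l.map fun v => if φ v then mg f L q v else 0).sum =
      (L.map fun p => if φ (f p) then q p else 0).sum := by
  induction L with
  | nil =>
    simp [mg]
  | cons p L ih =>
    have h1 : ∀ v, (if φ v then mg f (p :: L) q v else 0) =
        (if v = f p then (if φ v then q p else 0) else 0) + (if φ v then mg f L q v else 0) := by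
      intro v
      unfold mg
      rw [List.map_cons, List.sum_cons]
      by_cases h2 : φ v
      · rw [if_pos h2, if_pos h2, if_pos h2]
        congr 1
        by_cases h3 : v = f p
        · rw [if_pos h3, if_pos h3.symm]
        · rw [if_neg h3, if_neg (Ne.symm h3)]
      · simp [h2]
    rw [List.map_congr_left (fun v _ => h1 v), List.sum_map_add,
      ih (fun p' hp' => hL p' (List.mem_cons_of_mem _ hp')), List.map_cons, List.sum_cons]
    congr 1
    rw [← List.sum_toFinset _ hl, Finset.sum_ite_eq', if_pos (List.mem_toFinset.2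
      (hL p List.mem_cons_self))]

theorem mg_nonneg {L : List P} {q : P → ℝ} (h0 : ∀ p, 0 ≤ q p) (v : V) : 0 ≤ mg f L q v := by
  unfold mg
  refine List.sum_nonneg fun x hx => ?_
  obtain ⟨p, -, rfl⟩ := List.mem_map.1 hx
  split_ifs
  · exact h0 p
  · exact le_rfl

open Classical in
theorem mg_chain (hf : ∀ p p', RP p p' → Rle R (f p) (f p')) {L : List P} (hL : L.Pairwise RP) :
    (L.map f).dedup.Pairwise R := by
  have h1 : (L.map f).Pairwise (Rle R) := by
    rw [List.pairwise_map]
    exact hL.imp fun {a b} h => hf a b h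
  have h2 : (L.map f).dedup.Pairwise (Rle R) := h1.sublist (List.dedup_sublist _)
  have h3 : (L.map f).dedup.Pairwise (· ≠ ·) := List.nodup_dedup _
  exact (h2.and h3).imp fun {a b} h => h.1.resolve_left h.2

open Classical in
theorem mg_mem {L : List P} {q : P → ℝ} (h0 : ∀ p, 0 ≤ q p) (hq : ∀ p, q p ≠ 0 ↔ p ∈ L) (v : V) :
    mg f L q v ≠ 0 ↔ v ∈ (L.map f).dedup := by
  rw [List.mem_dedup, List.mem_map]
  constructor
  · intro h
    by_contra hne
    push Not at hne
    apply h
    unfold mg
    apply List.sum_eq_zero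
    intro x hx
    obtain ⟨p, hp, rfl⟩ := List.mem_map.1 hx
    rw [if_neg (hne p hp)]
  · rintro ⟨p, hp, rfl⟩ h
    have h1 : ∀ x ∈ (L.map fun p' => if f p' = f p then q p' else 0), 0 ≤ x := by
      intro x hx
      obtain ⟨p', -, rfl⟩ := List.mem_map.1 hx
      split_ifs
      · exact h0 p'
      · exact le_rfl
    have h2 := List.single_le_sum h1 (q p) (List.mem_map.2 ⟨p, hp, if_pos rfl⟩)
    have h3 : (0 : ℝ) < q p := lt_of_le_of_ne (h0 p) (Ne.symm ((hq p).2 hp))
    unfold mg at h
    linarith

theorem mg_pt (hf : ∀ p p', RP p p' → Rle R (f p) (f p')) {L : List P} (hL : L.Pairwise RP)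
    {q : P → ℝ} (h0 : ∀ p, 0 ≤ q p) (hq : ∀ p, q p ≠ 0 ↔ p ∈ L) (hs : (L.map q).sum = 1) :
    IsPt R (mg f L q) := by
  classical
  refine ⟨mg_nonneg h0, (L.map f).dedup, mg_chain hf hL, mg_mem h0 hq, ?_⟩
  have h1 := swap (f := f) q (fun _ => True) (List.nodup_dedup (L.map f)) L
    (fun p hp => List.mem_dedup.2 (List.mem_map_of_mem hp))
  simp only [if_true] at h1
  rw [← hs]
  exact h1

open Classical in
theorem lo_mg (hR : Asym R) (hf : ∀ p p', RP p p' → Rle R (f p) (f p')) {L : List P}
    (hL : L.Pairwise RP) {q : P → ℝ} (h0 : ∀ p, 0 ≤ q p) (hq : ∀ p, q p ≠ 0 ↔ p ∈ L) (v : V) :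
    lo R (mg f L q) v = (L.map fun p => if R (f p) v then q p else 0).sum := by
  rw [lo_list hR (mg_chain hf hL) (fun v hv => (mg_mem h0 hq v).1 hv) v]
  exact swap (f := f) q (fun u => R u v) (List.nodup_dedup (L.map f)) L
    (fun p hp => List.mem_dedup.2 (List.mem_map_of_mem hp))

/-- Lower ends of the intervals. -/
theorem lo_split (hR : Asym R) (hf : ∀ p p', RP p p' → Rle R (f p) (f p')) {L1 L2 : List P} {p : P}
    (hL : (L1 ++ p :: L2).Pairwise RP) {q : P → ℝ} (h0 : ∀ p, 0 ≤ q p)
    (hq : ∀ p', q p' ≠ 0 ↔ p' ∈ L1 ++ p :: L2) :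
    lo R (mg f (L1 ++ p :: L2) q) (f p) ≤ (L1.map q).sum ∧
    ((∀ p' ∈ L1, f p' ≠ f p) → lo R (mg f (L1 ++ p :: L2) q) (f p) = (L1.map q).sum) ∧
    (L1.map q).sum + q p ≤
      lo R (mg f (L1 ++ p :: L2) q) (f p) + mg f (L1 ++ p :: L2) q (f p) ∧
    ((∀ p' ∈ L2, f p' ≠ f p) →
      lo R (mg f (L1 ++ p :: L2) q) (f p) + mg f (L1 ++ p :: L2) q (f p) =
        (L1.map q).sum + q p) := by
  classical
  have hL' := List.pairwise_append.1 hL
  have hL2 := List.pairwise_cons.1 hL'.2.1
  have hb : ∀ p' ∈ L1, Rle R (f p') (f p) := fun p' hp' =>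
    hf _ _ (hL'.2.2 p' hp' p List.mem_cons_self)
  have ha : ∀ p' ∈ L2, Rle R (f p) (f p') := fun p' hp' => hf _ _ (hL2.1 p' hp')
  have hirr : ¬ R (f p) (f p) := fun h => hR _ _ h h
  have hlo : lo R (mg f (L1 ++ p :: L2) q) (f p) =
      (L1.map fun p' => if f p' = f p then 0 else q p').sum := by
    rw [lo_mg hR hf hL h0 hq, List.map_append, List.sum_append, List.map_cons, List.sum_cons,
      if_neg hirr, zero_add]
    have h1 : (L2.map fun p' => if R (f p') (f p) then q p' else 0).sum = 0 := by
      apply List.sum_eq_zero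
      intro x hx
      obtain ⟨p', hp', rfl⟩ := List.mem_map.1 hx
      rw [if_neg]
      intro h2
      rcases ha p' hp' with h3 | h3
      · rw [h3] at h2
        exact hR _ _ h2 h2
      · exact hR _ _ h2 h3
    rw [h1, add_zero]
    congr 1
    refine List.map_congr_left fun p' hp' => ?_
    by_cases h2 : f p' = f p
    · rw [if_pos h2, h2, if_neg hirr]
    · rw [if_neg h2, if_pos ((hb p' hp').resolve_left h2)]
  have hmg : mg f (L1 ++ p :: L2) q (f p) =
      (L1.map fun p' => if f p' = f p then q p' else 0).sum + (q p +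
        (L2.map fun p' => if f p' = f p then q p' else 0).sum) := by
    unfold mg
    rw [List.map_append, List.sum_append, List.map_cons, List.sum_cons, if_pos rfl]
  have hsum : (L1.map fun p' => if f p' = f p then 0 else q p').sum +
      (L1.map fun p' => if f p' = f p then q p' else 0).sum = (L1.map q).sum := by
    rw [← List.sum_map_add]
    congr 1
    refine List.map_congr_left fun p' _ => ?_
    by_cases h2 : f p' = f p
    · rw [if_pos h2, if_pos h2, zero_add]
    · rw [if_neg h2, if_neg h2, add_zero]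
  have h1 : 0 ≤ (L1.map fun p' => if f p' = f p then q p' else 0).sum := mg_nonneg h0 _
  have h2 : 0 ≤ (L2.map fun p' => if f p' = f p then q p' else 0).sum := mg_nonneg h0 _
  refine ⟨by rw [hlo]; linarith, ?_, by rw [hlo, hmg]; linarith, ?_⟩
  · intro h
    have h3 : (L1.map fun p' => if f p' = f p then q p' else 0).sum = 0 := by
      apply List.sum_eq_zero
      intro x hx
      obtain ⟨p', hp', rfl⟩ := List.mem_map.1 hx
      rw [if_neg (h p' hp')]
    rw [hlo]
    linarith
  · intro h
    have h3 : (L2.map fun p' => if f p' = f p then q p' else 0).sum = 0 := by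
      apply List.sum_eq_zero
      intro x hx
      obtain ⟨p', hp', rfl⟩ := List.mem_map.1 hx
      rw [if_neg (h p' hp')]
    rw [hlo, hmg]
    linarith

end three

section four

variable {V W : Type} {RV : V → V → Prop} {RW : W → W → Prop}

theorem before (hV : Asym RV) (hW : Asym RW) {L1 L2 : List (V × W)} {p : V × W}
    (hL : (L1 ++ p :: L2).Pairwise (prodR RV RW)) :
    (∀ p' ∈ L1, p'.1 ≠ p.1) ∨ ∀ p' ∈ L1, p'.2 ≠ p.2 := by
  by_contra hne
  push Not at hne
  obtain ⟨⟨a, ha, ha'⟩, b, hb, hb'⟩ := hne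
  have hL' := List.pairwise_append.1 hL
  rcases List.eq_nil_or_concat L1 with h | ⟨L0, z, hLz⟩
  · rw [h] at ha
    simp at ha
  · rw [List.concat_eq_append] at hLz
    subst hLz
    have h1 := List.pairwise_append.1 hL'.1
    have hz : prodR RV RW z p := hL'.2.2 z (by simp) p List.mem_cons_self
    have h2 : ∀ c ∈ L0 ++ [z], Rle RV c.1 z.1 ∧ Rle RW c.2 z.2 := by
      intro c hc
      rcases List.mem_append.1 hc with hc | hc
      · have h3 := h1.2.2 c hc z (by simp)
        exact h3.2
      · rw [List.mem_singleton.1 hc]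
        exact ⟨Or.inl rfl, Or.inl rfl⟩
    have h3 := (h2 a (by simpa using ha)).1
    have h4 := (h2 b (by simpa using hb)).2
    rw [ha'] at h3
    rw [hb'] at h4
    exact hz.1 (Prod.ext (rle_antisymm hV hz.2.1 h3) (rle_antisymm hW hz.2.2 h4))

theorem after (hV : Asym RV) (hW : Asym RW) {L1 L2 : List (V × W)} {p : V × W}
    (hL : (L1 ++ p :: L2).Pairwise (prodR RV RW)) :
    (∀ p' ∈ L2, p'.1 ≠ p.1) ∨ ∀ p' ∈ L2, p'.2 ≠ p.2 := by
  by_contra hne
  push Not at hne
  obtain ⟨⟨a, ha, ha'⟩, b, hb, hb'⟩ := hne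
  have hL' := List.pairwise_cons.1 (List.pairwise_append.1 hL).2.1
  cases L2 with
  | nil => simp at ha
  | cons z L3 =>
    have hz : prodR RV RW p z := hL'.1 z (by simp)
    have h1 := List.pairwise_cons.1 hL'.2
    have h2 : ∀ c ∈ z :: L3, Rle RV z.1 c.1 ∧ Rle RW z.2 c.2 := by
      intro c hc
      rcases List.mem_cons.1 hc with rfl | hc
      · exact ⟨Or.inl rfl, Or.inl rfl⟩
      · exact (h1.1 c hc).2
    have h3 := (h2 a ha).1
    have h4 := (h2 b hb).2
    rw [ha'] at h3
    rw [hb'] at h4
    exact hz.1 (Prod.ext (rle_antisymm hV hz.2.1 h3) (rle_antisymm hW hz.2.2 h4))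

theorem part2 (hV : Asym RV) (hW : Asym RW) (q : V × W → ℝ) (h : IsPt (prodR RV RW) q) :
    ∃ y y', IsPt RV y ∧ IsPt RW y' ∧ prB RV RW y y' = q := by
  classical
  obtain ⟨h0, L, hL, hq, hs⟩ := h
  have hf1 : ∀ p p', prodR RV RW p p' → Rle RV (Prod.fst p) (Prod.fst p') := fun p p' h => h.2.1
  have hf2 : ∀ p p', prodR RV RW p p' → Rle RW (Prod.snd p) (Prod.snd p') := fun p p' h => h.2.2
  have hp1 := mg_pt hf1 hL h0 hq hs
  have hp2 := mg_pt hf2 hL h0 hq hs
  have key : ∀ p ∈ L, prB RV RW (mg Prod.fst L q) (mg Prod.snd L q) p = q p := by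
    intro p hp
    obtain ⟨L1, L2, rfl⟩ := List.append_of_mem hp
    obtain ⟨a1, a2, a3, a4⟩ := lo_split hV hf1 hL h0 hq
    obtain ⟨b1, b2, b3, b4⟩ := lo_split hW hf2 hL h0 hq
    have h1 : max (lo RV (mg Prod.fst (L1 ++ p :: L2) q) p.1)
        (lo RW (mg Prod.snd (L1 ++ p :: L2) q) p.2) = (L1.map q).sum := by
      refine le_antisymm (max_le a1 b1) ?_
      rcases before hV hW hL with h | h
      · rw [← a2 h]
        exact le_max_left _ _
      · rw [← b2 h]
        exact le_max_right _ _
    have h2 : min (lo RV (mg Prod.fst (L1 ++ p :: L2) q) p.1 +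
        mg Prod.fst (L1 ++ p :: L2) q p.1)
        (lo RW (mg Prod.snd (L1 ++ p :: L2) q) p.2 + mg Prod.snd (L1 ++ p :: L2) q p.2) =
        (L1.map q).sum + q p := by
      refine le_antisymm ?_ (le_min a3 b3)
      rcases after hV hW hL with h | h
      · rw [← a4 h]
        exact min_le_left _ _
      · rw [← b4 h]
        exact min_le_right _ _
    unfold prB
    rw [h1, h2, add_sub_cancel_left]
    exact max_eq_right (h0 p)
  refine ⟨mg Prod.fst L q, mg Prod.snd L q, hp1, hp2, ?_⟩
  ext p
  by_cases hp : p ∈ L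
  · exact key p hp
  · have hq0 : q p = 0 := by
      by_contra h
      exact hp ((hq p).1 h)
    rw [hq0]
    by_contra hne
    obtain ⟨h0', L', hL', hq', hs'⟩ := isPt_prB hV hW hp1 hp2
    have hsub : insert p L.toFinset ⊆ L'.toFinset := by
      intro r hr
      rw [List.mem_toFinset, ← hq']
      rcases Finset.mem_insert.1 hr with rfl | hr
      · exact hne
      · rw [List.mem_toFinset] at hr
        rw [key r hr]
        exact (hq r).2 hr
    have h1 := Finset.sum_le_sum_of_subset_of_nonneg hsub (fun r _ _ => h0' r)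
    rw [List.sum_toFinset _ (nodup (asym_prodR hV hW) hL'), hs',
      Finset.sum_insert (by rwa [List.mem_toFinset]),
      List.sum_toFinset _ (nodup (asym_prodR hV hW) hL), List.map_congr_left key, hs] at h1
    have h2 : 0 < prB RV RW (mg Prod.fst L q) (mg Prod.snd L q) p :=
      lt_of_le_of_ne (prB_nonneg p) (Ne.symm hne)
    linarith

end four

end PrPt

open PrPt in
/-- Points of the product. -/
theorem stPrPt : StPrPt := by
  intro V W RV RW hV hW
  refine ⟨fun y y' h h' => ⟨isPt_prB hV hW h h', marg hV hW h h', fun w => ?_⟩,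
    fun q hq => part2 hV hW q hq⟩
  rw [marg hW hV h' h w]
  exact finsum_congr fun v => (prB_symm v w).symm

end Pool.Agent.Lib.MP_39dc45_gt.SP
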