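import Pool.Agent.Lib.MP_39dc45_gt.SP.StA

/-!
# MP_39dc45_gt: the map from the boundary of the product of two cones to the join
-/

open Matrix

noncomputable section

namespace Pool.Agent.Lib.MP_39dc45_gt.SP

namespace PsiAux

section basic
variable {V W : Type}

theorem nodup {R : V → V → Prop} (h : Asym R) {l : List V} (hl : l.Pairwise R) : l.Nodup :=
  hl.imp fun hab e => by subst e; exact h _ _ hab hab

theorem eq_of_toFinset [DecidableEq V] {R : V → V → Prop} (h : Asym R) {l l' : List V}
    (hl : l.Pairwise R) (hl' : l'.Pairwise R) (e : l.toFinset = l'.toFinset) : l = l' :=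
  List.Perm.eq_of_pairwise (fun a b _ _ h1 h2 => absurd h2 (h _ _ h1)) hl hl'
    (List.perm_of_nodup_nodup_toFinset_eq (nodup h hl) (nodup h hl') e)

theorem rle_antisymm {R : V → V → Prop} (h : Asym R) {a b : V} (h1 : Rle R a b)
    (h2 : Rle R b a) : a = b := by
  rcases h1 with h1 | h1
  · exact h1
  · rcases h2 with h2 | h2
    · exact h2.symm
    · exact absurd h2 (h _ _ h1)

theorem asym_optR {R : V → V → Prop} (h : Asym R) : Asym (optR R) := by
  intro a b hab hba
  cases a <;> cases b
  · exact hab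
  · exact hba
  · exact hab
  · exact h _ _ hab hba

theorem asym_sumR {R : V → V → Prop} {R' : W → W → Prop} (h : Asym R) (h' : Asym R') :
    Asym (sumR R R') := by
  intro a b hab hba
  cases a <;> cases b
  · exact h _ _ hab hba
  · exact hba
  · exact hab
  · exact h' _ _ hab hba

theorem asym_prodR {R : V → V → Prop} {R' : W → W → Prop} (h : Asym R) (h' : Asym R') :
    Asym (prodR R R') := by
  rintro a b ⟨h1, h2, h3⟩ ⟨_, h5, h6⟩
  exact h1 (Prod.ext (rle_antisymm h h2 h5) (rle_antisymm h' h3 h6))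

/-! ### The boundary -/

theorem bd_apply {l' : List V} (h : l' ≠ []) (l : List V) : bd l l' =
    ∑ i ∈ Finset.range l.length, (Finsupp.single (l.eraseIdx i) ((-1 : ℤ) ^ i)) l' := by
  unfold bd
  split_ifs with h1
  · rcases l with _ | ⟨a, l⟩
    · simp
    · rcases l with _ | ⟨b, l⟩
      · simp only [Finsupp.coe_zero, Pi.zero_apply, List.length_cons, List.length_nil, zero_add,
          Finset.range_one, Finset.sum_singleton, List.eraseIdx_cons_zero, pow_zero]
        rw [Finsupp.single_eq_of_ne h]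
      · simp at h1
  · rw [Finsupp.finsetSum_apply]

theorem bd_ne {l l' : List V} (h : bd l l' ≠ 0) :
    ∃ i < l.length, l' = l.eraseIdx i := by
  unfold bd at h
  split_ifs at h with h1
  · exact absurd rfl h
  · rw [Finsupp.finsetSum_apply] at h
    obtain ⟨i, hi, hi'⟩ := Finset.exists_ne_zero_of_sum_ne_zero h
    refine ⟨i, Finset.mem_range.1 hi, ?_⟩
    by_contra hne
    exact hi' (Finsupp.single_eq_of_ne hne)

theorem bd_len {l l' : List V} (h : bd l l' ≠ 0) : l.length = l'.length + 1 := by
  obtain ⟨i, hi, rfl⟩ := bd_ne h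
  rw [List.length_eraseIdx_of_lt hi]
  omega

theorem bd_map {g : V → W} (hg : Function.Injective g) (l l' : List V) :
    bd (l.map g) (l'.map g) = bd l l' := by
  have h1 : bd (l.map g) = (bd l).mapDomain (List.map g) := by
    unfold bd
    rw [List.length_map]
    split_ifs with h
    · rw [Finsupp.mapDomain_zero]
    · rw [Finsupp.mapDomain_finsetSum]
      refine Finset.sum_congr rfl fun i _ => ?_
      rw [Finsupp.mapDomain_single, List.eraseIdx_map]
  rw [h1, Finsupp.mapDomain_apply (List.map_injective_iff.2 hg)]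

theorem bd_append {P l l' : List V} (hn : (P ++ l).Nodup) (hl' : l' ≠ []) :
    bd (P ++ l) (P ++ l') = (-1) ^ P.length * bd l l' := by
  rw [bd_apply (by simp [hl']), bd_apply hl', List.length_append, Finset.sum_range_add,
    Finset.mul_sum]
  have h1 : ∑ i ∈ Finset.range P.length,
      (Finsupp.single ((P ++ l).eraseIdx i) ((-1 : ℤ) ^ i)) (P ++ l') = 0 := by
    refine Finset.sum_eq_zero fun i hi => Finsupp.single_eq_of_ne fun e => ?_
    have hi' : i < P.length := Finset.mem_range.1 hi
    have hi2 : i < (P ++ l).length := by rw [List.length_append]; omega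
    have h2 : (P ++ l)[i] ∈ P ++ l' := by
      rw [List.getElem_append_left hi']
      exact List.mem_append_left _ (List.getElem_mem _)
    classical
    rw [e, ← hn.erase_getElem i hi2] at h2
    exact hn.not_mem_erase h2
  rw [h1, zero_add]
  refine Finset.sum_congr rfl fun i _ => ?_
  rw [List.eraseIdx_append_of_length_le (by omega), Nat.add_sub_cancel_left, pow_add]
  by_cases e : l.eraseIdx i = l'
  · rw [e, Finsupp.single_eq_same, Finsupp.single_eq_same]
  · rw [Finsupp.single_eq_of_ne, Finsupp.single_eq_of_ne, mul_zero]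
    · exact fun h => e h.symm
    · intro h
      exact e (List.append_cancel_left h).symm

/-! ### The differential of the cone -/

theorem coD_ll (RW : W → W → Prop) (f : V → W) (l l' : List W) :
    coD RW f (Sum.inl l) (Sum.inl l') = bd l l' :=
  Finsupp.mapDomain_apply Sum.inl_injective _ _

theorem coD_lr (RW : W → W → Prop) (f : V → W) (l : List W) (l' : List V) :
    coD RW f (Sum.inl l) (Sum.inr l') = 0 :=
  Finsupp.mapDomain_of_notMem_range _ _ (by simp)

theorem coD_rl (RW : W → W → Prop) (f : V → W) (l : List V) (l' : List W) :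
    coD RW f (Sum.inr l) (Sum.inl l') = push RW f l l' := by
  change (Finsupp.mapDomain Sum.inl (push RW f l) - Finsupp.mapDomain Sum.inr (bd l) :
    List W ⊕ List V →₀ ℤ) (Sum.inl l') = _
  rw [Finsupp.sub_apply, Finsupp.mapDomain_apply Sum.inl_injective,
    Finsupp.mapDomain_of_notMem_range _ _ (by simp), sub_zero]

theorem coD_rr (RW : W → W → Prop) (f : V → W) (l l' : List V) :
    coD RW f (Sum.inr l) (Sum.inr l') = - bd l l' := by
  change (Finsupp.mapDomain Sum.inl (push RW f l) - Finsupp.mapDomain Sum.inr (bd l) :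
    List W ⊕ List V →₀ ℤ) (Sum.inr l') = _
  rw [Finsupp.sub_apply, Finsupp.mapDomain_apply Sum.inr_injective,
    Finsupp.mapDomain_of_notMem_range _ _ (by simp), zero_sub]

theorem push_of {RW : W → W → Prop} {f : V → W} {l : List V} (h : (l.map f).Pairwise RW) :
    push RW f l (l.map f) = 1 := by
  unfold push
  rw [if_pos h, Finsupp.single_eq_same]

theorem push_ne {RW : W → W → Prop} {f : V → W} {l : List V} {l' : List W}
    (h : push RW f l l' ≠ 0) : (l.map f).Pairwise RW ∧ l' = l.map f := by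
  unfold push at h
  split_ifs at h with h1
  · refine ⟨h1, ?_⟩
    by_contra h2
    exact h (Finsupp.single_eq_of_ne h2)
  · exact absurd rfl h

end basic

/-! ### Small complexes -/

theorem zc_empty {I : Type} [DecidableEq I] (deg : I → ℕ) (d : I → I → ℤ) : ZC deg d ∅ := by
  refine ⟨0, fun i => absurd i.2 (Finset.notMem_empty _), ?_⟩
  ext i
  exact absurd i.2 (Finset.notMem_empty _)

theorem zc_pair {I : Type} [DecidableEq I] (deg : I → ℕ) (d : I → I → ℤ) (a b : I) (hab : a ≠ b)
    (hdeg : deg b = deg a + 1) (haa : d a a = 0) (hbb : d b b = 0) (h1 : d b a = 1) : ZC deg d {a, b} := by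
  refine ⟨Matrix.of fun i j => if i.1 = a ∧ j.1 = b then 1 else 0, ?_, ?_⟩
  · intro i j hij
    by_cases h : i.1 = a ∧ j.1 = b
    · rw [h.1, h.2, hdeg]
    · exact absurd (by simp only [Matrix.of_apply, if_neg h]) hij
  · ext i j
    rw [Matrix.add_apply, Matrix.mul_apply, Matrix.mul_apply]
    simp only [Matrix.of_apply]
    rw [Finset.sum_coe_sort ({a, b} : Finset I)
        (fun k => d i.1 k * if k = a ∧ j.1 = b then (1 : ℤ) else 0),
      Finset.sum_coe_sort ({a, b} : Finset I)
        (fun k => (if i.1 = a ∧ k = b then (1 : ℤ) else 0) * d k j.1),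
      Finset.sum_pair hab, Finset.sum_pair hab, Matrix.one_apply]
    have hi := i.2
    have hj := j.2
    rw [Finset.mem_insert, Finset.mem_singleton] at hi hj
    rcases hi with hi | hi <;> rcases hj with hj | hj
    · have : i = j := Subtype.ext (hi.trans hj.symm)
      simp [hj, this, hab, hab.symm, h1]
    · have : i ≠ j := fun e => hab (hi.symm.trans ((congrArg Subtype.val e).trans hj))
      simp [hi, hj, this, hab, hab.symm, haa, hbb]
    · have : i ≠ j := fun e => hab (hj.symm.trans ((congrArg Subtype.val e.symm).trans hi))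
      simp [hi, hj, this, hab, hab.symm]
    · have : i = j := Subtype.ext (hi.trans hj.symm)
      simp [hj, this, hab, hab.symm, h1]

/-! ### The map -/

section kp
variable {A B : Type} {RA : A → A → Prop} {RB : B → B → Prop}

/-- The vertex over `a`. -/
def jA (a : A) : Kp A B := ⟨(some a, none), by simp⟩

/-- A vertex over `b`. -/
def jB (q : B × Option A) : Kp A B := ⟨(q.2, some q.1), by simp⟩

theorem psi_jA (a : A) : psi (jA a : Kp A B) = Sum.inl a := rfl

theorem psi_jB (q : B × Option A) : psi (jB q : Kp A B) = Sum.inr q.1 := rfl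

theorem kp_cases (p : Kp A B) : (∃ a, p = jA a) ∨ ∃ q, p = jB q := by
  rcases p with ⟨⟨x, y⟩, h⟩
  cases y with
  | some b => exact Or.inr ⟨(b, x), rfl⟩
  | none =>
    cases x with
    | some a => exact Or.inl ⟨a, rfl⟩
    | none => exact absurd rfl h

theorem jA_inj : Function.Injective (jA : A → Kp A B) := by
  intro a a' h
  have h1 : (some a : Option A) = some a' := congrArg (fun p : Kp A B => p.1.1) h
  exact Option.some.inj h1

theorem jB_inj : Function.Injective (jB : B × Option A → Kp A B) := by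
  intro q q' h
  have h1 : q.2 = q'.2 := congrArg (fun p : Kp A B => p.1.1) h
  have h2 : (some q.1 : Option B) = some q'.1 := congrArg (fun p : Kp A B => p.1.2) h
  exact Prod.ext (Option.some.inj h2) h1

theorem kpR_AA (hA : Asym RA) (a a' : A) :
    kpR RA RB (jA a : Kp A B) (jA a') ↔ RA a a' := by
  constructor
  · rintro ⟨h1, h2, -⟩
    rcases h2 with h2 | h2
    · exact absurd (Prod.ext h2 rfl) h1
    · exact h2
  · intro h
    refine ⟨fun e => ?_, Or.inr h, Or.inl rfl⟩
    have h1 : (some a : Option A) = some a' := congrArg Prod.fst e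
    have h2 := Option.some.inj h1
    subst h2
    exact hA _ _ h h

theorem kpR_BA (q : B × Option A) (a : A) : ¬ kpR RA RB (jB q : Kp A B) (jA a) := by
  rintro ⟨-, -, h | h⟩
  · exact absurd (show (some q.1 : Option B) = none from h) (by simp)
  · exact h

theorem kpR_AB (a : A) (q : B × Option A) :
    kpR RA RB (jA a : Kp A B) (jB q) ↔ Rle (optR RA) (some a) q.2 := by
  constructor
  · rintro ⟨-, h, -⟩
    exact h
  · intro h
    refine ⟨fun e => ?_, h, Or.inr trivial⟩
    have h1 : (none : Option B) = some q.1 := congrArg Prod.snd e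
    exact absurd h1 (by simp)

theorem kpR_BB (q q' : B × Option A) :
    kpR RA RB (jB q : Kp A B) (jB q') ↔ prodR RB (optR RA) q q' := by
  constructor
  · rintro ⟨h1, h2, h3⟩
    refine ⟨fun e => h1 (by rw [e]), ?_, h2⟩
    rcases h3 with h3 | h3
    · exact Or.inl (Option.some.inj h3)
    · exact Or.inr h3
  · rintro ⟨h1, h2, h3⟩
    refine ⟨fun e => h1 (jB_inj (Subtype.ext e)), h3, ?_⟩
    rcases h2 with h2 | h2
    · exact Or.inl (congrArg some h2)
    · exact Or.inr h2

theorem split_sum {L : List (A ⊕ B)} (hL : L.Pairwise (sumR RA RB)) :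
    ∃ (X : List A) (Y : List B), L = X.map Sum.inl ++ Y.map Sum.inr := by
  induction L with
  | nil => exact ⟨[], [], rfl⟩
  | cons c L ih =>
    rw [List.pairwise_cons] at hL
    obtain ⟨X, Y, e⟩ := ih hL.2
    rcases c with a | b
    · exact ⟨a :: X, Y, by rw [e]; rfl⟩
    · rcases X with _ | ⟨a, X⟩
      · exact ⟨[], b :: Y, by rw [e]; rfl⟩
      · exact absurd (hL.1 (Sum.inl a) (by rw [e]; simp)) (fun h => h)

theorem split_kp {l : List (Kp A B)} (hl : l.Pairwise (kpR RA RB)) :
    ∃ (X : List A) (Z : List (B × Option A)), l = X.map jA ++ Z.map jB := by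
  induction l with
  | nil => exact ⟨[], [], rfl⟩
  | cons c l ih =>
    rw [List.pairwise_cons] at hl
    obtain ⟨X, Z, e⟩ := ih hl.2
    rcases kp_cases c with ⟨a, rfl⟩ | ⟨q, rfl⟩
    · exact ⟨a :: X, Z, by rw [e]; rfl⟩
    · rcases X with _ | ⟨a, X⟩
      · exact ⟨[], q :: Z, by rw [e]; rfl⟩
      · exact absurd (hl.1 (jA a) (by rw [e]; simp)) (kpR_BA q a)

/-- The chains in the join. -/
theorem pw_sum (X : List A) (Y : List B) : (X.map Sum.inl ++ Y.map Sum.inr).Pairwise (sumR RA RB) ↔
    X.Pairwise RA ∧ Y.Pairwise RB := by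
  rw [List.pairwise_append, List.pairwise_map, List.pairwise_map]
  constructor
  · rintro ⟨h1, h2, -⟩
    exact ⟨h1, h2⟩
  · rintro ⟨h1, h2⟩
    refine ⟨h1, h2, fun a ha b hb => ?_⟩
    obtain ⟨a', -, rfl⟩ := List.mem_map.1 ha
    obtain ⟨b', -, rfl⟩ := List.mem_map.1 hb
    exact trivial

/-- The chains in `Kp A B`. -/
theorem pw_kp (hA : Asym RA) (X : List A) (Z : List (B × Option A)) :
    (X.map jA ++ Z.map jB : List (Kp A B)).Pairwise (kpR RA RB) ↔
      X.Pairwise RA ∧ Z.Pairwise (prodR RB (optR RA)) ∧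
        ∀ a ∈ X, ∀ q ∈ Z, Rle (optR RA) (some a) q.2 := by
  rw [List.pairwise_append, List.pairwise_map, List.pairwise_map]
  refine and_congr ?_ (and_congr ?_ ?_)
  · exact List.Pairwise.iff fun {a b} => kpR_AA hA a b
  · exact List.Pairwise.iff fun {a b} => kpR_BB a b
  · constructor
    · intro h a ha q hq
      exact (kpR_AB a q).1 (h _ (List.mem_map_of_mem ha) _ (List.mem_map_of_mem hq))
    · intro h a ha b hb
      obtain ⟨a', ha', rfl⟩ := List.mem_map.1 ha
      obtain ⟨b', hb', rfl⟩ := List.mem_map.1 hb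
      exact (kpR_AB a' b').2 (h _ ha' _ hb')

theorem map_psi (X : List A) (Z : List (B × Option A)) :
    (X.map jA ++ Z.map jB : List (Kp A B)).map psi = X.map Sum.inl ++ (Z.map Prod.fst).map Sum.inr := by
  rw [List.map_append, List.map_map, List.map_map, List.map_map]
  rfl

theorem simp_psi : IsSimp (kpR RA RB) (sumR RA RB) psi := by
  intro p q h
  rcases kp_cases p with ⟨a, rfl⟩ | ⟨x, rfl⟩ <;> rcases kp_cases q with ⟨a', rfl⟩ | ⟨x', rfl⟩
  · rcases h.2.1 with h | h
    · exact Or.inl (congrArg Sum.inl (Option.some.inj h))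
    · exact Or.inr h
  · exact Or.inr trivial
  · exact absurd h (kpR_BA _ _)
  · rcases ((kpR_BB _ _).1 h).2.1 with h | h
    · exact Or.inl (congrArg Sum.inr h)
    · exact Or.inr h

theorem toFinset_split [DecidableEq A] [DecidableEq B] {X X' : List A} {Y Y' : List B}
    (h : (X.map Sum.inl ++ Y.map Sum.inr : List (A ⊕ B)).toFinset
      = (X'.map Sum.inl ++ Y'.map Sum.inr).toFinset) :
    X.toFinset = X'.toFinset ∧ Y.toFinset = Y'.toFinset := by
  constructor
  · ext a
    have := Finset.ext_iff.1 h (Sum.inl a)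
    simpa using this
  · ext b
    have := Finset.ext_iff.1 h (Sum.inr b)
    simpa using this

theorem toFinset_glue [DecidableEq A] [DecidableEq B] (X : List A) {Y Y' : List B}
    (h : Y.toFinset = Y'.toFinset) : (X.map Sum.inl ++ Y.map Sum.inr : List (A ⊕ B)).toFinset
      = (X.map Sum.inl ++ Y'.map Sum.inr).toFinset := by
  ext c
  rcases c with a | b
  · simp
  · have := Finset.ext_iff.1 h b
    simpa using this

/-- The set of vertices of the join under a cell. -/
def pS [DecidableEq A] [DecidableEq B] : List (A ⊕ B) ⊕ List (Kp A B) → Finset (A ⊕ B)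
  | Sum.inl l => l.toFinset
  | Sum.inr l => (l.map psi).toFinset

theorem cell_r [DecidableEq A] [DecidableEq B] (hA : Asym RA) {X : List A}
    {Y : List B} (hX : X.Pairwise RA) {l : List (Kp A B)} (hl : l.Pairwise (kpR RA RB))
    (e : (l.map psi).toFinset = (X.map Sum.inl ++ Y.map Sum.inr).toFinset) :
    ∃ Z : List (B × Option A), l = X.map jA ++ Z.map jB ∧ (Z.map Prod.fst).toFinset = Y.toFinset ∧
      Z.Pairwise (prodR RB (optR RA)) ∧ ∀ a ∈ X, ∀ q ∈ Z, Rle (optR RA) (some a) q.2 := by
  obtain ⟨X', Z, rfl⟩ := split_kp hl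
  rw [map_psi] at e
  obtain ⟨e1, e2⟩ := toFinset_split e
  obtain ⟨h1, h2, h3⟩ := (pw_kp hA X' Z).1 hl
  have := eq_of_toFinset hA h1 hX e1
  subst this
  exact ⟨Z, rfl, e2, h2, h3⟩

theorem chain_of [DecidableEq A] [DecidableEq B] (hA : Asym RA) (hB : Asym RB)
    {c : List (A ⊕ B) ⊕ List (Kp A B)} (hc : c ∈ coP (kpR RA RB) (sumR RA RB)) :
    ∃ (X : List A) (Y : List B), (X.map Sum.inl ++ Y.map Sum.inr : List (A ⊕ B)) ≠ [] ∧
      X.Pairwise RA ∧ Y.Pairwise RB ∧ (X.map Sum.inl ++ Y.map Sum.inr).toFinset = pS c := by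
  rcases c with l | l
  · obtain ⟨h1, h2⟩ : l ≠ [] ∧ l.Pairwise (sumR RA RB) := hc
    obtain ⟨X, Y, rfl⟩ := split_sum h2
    obtain ⟨h3, h4⟩ := (pw_sum X Y).1 h2
    exact ⟨X, Y, h1, h3, h4, rfl⟩
  · obtain ⟨h1, h2⟩ : l ≠ [] ∧ l.Pairwise (kpR RA RB) := hc
    obtain ⟨X, Z, rfl⟩ := split_kp h2
    obtain ⟨h3, h4, h5⟩ := (pw_kp hA X Z).1 h2
    have h6 : (Z.map Prod.fst).Pairwise (Rle RB) := by
      rw [List.pairwise_map]
      exact h4.imp fun h => h.2.1
    have h7 : (Z.map Prod.fst).dedup.Pairwise RB := by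
      refine ((h6.sublist (List.dedup_sublist _)).and (List.nodup_dedup _)).imp ?_
      rintro a b ⟨h | h, h'⟩
      · exact absurd h h'
      · exact h
    refine ⟨X, (Z.map Prod.fst).dedup, ?_, h3, h7, ?_⟩
    · intro e
      rw [List.append_eq_nil_iff, List.map_eq_nil_iff, List.map_eq_nil_iff] at e
      apply h1
      have h8 : Z.map Prod.fst = [] := by
        by_contra hne
        obtain ⟨b, hb⟩ := List.exists_mem_of_ne_nil _ hne
        have := List.mem_dedup.2 hb
        rw [e.2] at this
        exact absurd this (List.not_mem_nil)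
      rw [List.map_eq_nil_iff] at h8
      rw [e.1, h8]
      rfl
    · change _ = (List.map psi _).toFinset
      rw [map_psi]
      exact toFinset_glue X (by ext x; simp [List.mem_dedup])

end kp

/-! ### The group action -/

section act
variable {C A B : Type} [Group C] [MulAction C A] [MulAction C B] {RA : A → A → Prop}
  {RB : B → B → Prop}

theorem inv_rle (h : Inv C RA) (γ : C) {a b : A} (hab : Rle RA a b) : Rle RA (γ • a) (γ • b) := by
  rcases hab with rfl | hab
  · exact Or.inl rfl
  · exact Or.inr (h γ _ _ hab)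

theorem inv_optR (h : Inv C RA) : Inv C (optR RA) := by
  intro γ x y hxy
  cases x <;> cases y
  · exact hxy
  · exact trivial
  · exact hxy
  · exact h γ _ _ hxy

theorem inv_sumR (h : Inv C RA) (h' : Inv C RB) : Inv C (sumR RA RB) := by
  intro γ x y hxy
  cases x <;> cases y
  · exact h γ _ _ hxy
  · exact trivial
  · exact hxy
  · exact h' γ _ _ hxy

theorem inv_kpR (h : Inv C RA) (h' : Inv C RB) : Inv C (kpR RA RB) := by
  rintro γ x y ⟨h1, h2, h3⟩
  refine ⟨fun e => h1 (smul_left_cancel γ e), inv_rle (inv_optR h) γ h2,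
    inv_rle (inv_optR h') γ h3⟩

theorem free_sum (h : Free C A) (h' : Free C B) : Free C (A ⊕ B) := by
  rintro γ (a | b) e
  · exact h γ a (Sum.inl_injective e)
  · exact h' γ b (Sum.inr_injective e)

theorem equi_psi : Equi C (psi : Kp A B → A ⊕ B) := by
  intro γ p
  rcases kp_cases p with ⟨a, rfl⟩ | ⟨q, rfl⟩
  · rfl
  · rfl

theorem free_kp (h : Free C A) (h' : Free C B) : Free C (Kp A B) := by
  intro γ p e
  have h1 := congrArg psi e
  rw [equi_psi] at h1
  exact free_sum h h' γ _ h1

open Pointwise in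
theorem pS_smul [DecidableEq A] [DecidableEq B] (γ : C) (c : List (A ⊕ B) ⊕ List (Kp A B)) :
    pS (γ • c) = γ • pS c := by
  rcases c with l | l
  · change (l.map (γ • ·)).toFinset = γ • l.toFinset
    ext x
    simp only [List.mem_toFinset, List.mem_map, Finset.mem_smul_finset]
  · change ((l.map (γ • ·)).map psi).toFinset = γ • (l.map psi).toFinset
    ext x
    simp only [List.mem_toFinset, List.mem_map, Finset.mem_smul_finset]
    constructor
    · rintro ⟨_, ⟨y, hy, rfl⟩, rfl⟩
      exact ⟨psi y, ⟨y, hy, rfl⟩, (equi_psi γ y).symm⟩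
    · rintro ⟨_, ⟨y, hy, rfl⟩, rfl⟩
      exact ⟨γ • y, ⟨y, hy, rfl⟩, equi_psi γ y⟩

theorem map_eraseIdx_subset {V : Type} [DecidableEq V] (l : List V) (i : ℕ) :
    (l.eraseIdx i).toFinset ⊆ l.toFinset := by
  intro x hx
  rw [List.mem_toFinset] at hx ⊢
  exact List.mem_of_mem_eraseIdx hx

theorem pS_sub [DecidableEq A] [DecidableEq B] {c c' : List (A ⊕ B) ⊕ List (Kp A B)}
    (h : coD (sumR RA RB) psi c c' ≠ 0) : pS c' ⊆ pS c := by
  rcases c with l | l <;> rcases c' with l' | l'
  · rw [coD_ll] at h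
    obtain ⟨i, -, rfl⟩ := bd_ne h
    exact map_eraseIdx_subset l i
  · exact absurd (coD_lr _ _ _ _) h
  · rw [coD_rl] at h
    obtain ⟨-, rfl⟩ := push_ne h
    exact subset_rfl
  · rw [coD_rr] at h
    obtain ⟨i, -, rfl⟩ := bd_ne (neg_ne_zero.1 h)
    change ((l.eraseIdx i).map psi).toFinset ⊆ (l.map psi).toFinset
    rw [← List.eraseIdx_map]
    exact map_eraseIdx_subset _ i

open Pointwise in
theorem pS_free [DecidableEq A] [DecidableEq B] (hA : Asym RA) (hB : Asym RB) (iA : Inv C RA)
    (iB : Inv C RB) (fA : Free C A) (fB : Free C B) {c : List (A ⊕ B) ⊕ List (Kp A B)}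
    (hc : c ∈ coP (kpR RA RB) (sumR RA RB)) (γ : C) (e : γ • pS c = pS c) : γ = 1 := by
  obtain ⟨X, Y, h1, h2, h3, h4⟩ := chain_of hA hB hc
  rw [← h4] at e
  set L : List (A ⊕ B) := X.map Sum.inl ++ Y.map Sum.inr with hL
  have h5 : L.Pairwise (sumR RA RB) := (pw_sum X Y).2 ⟨h2, h3⟩
  have h6 : (L.map (γ • ·)).Pairwise (sumR RA RB) := by
    rw [List.pairwise_map]
    exact h5.imp fun h => inv_sumR iA iB γ _ _ h
  have h7 : (L.map (γ • ·)).toFinset = L.toFinset := by
    rw [← e]
    ext x
    simp only [List.mem_toFinset, List.mem_map, Finset.mem_smul_finset]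
  have h8 := eq_of_toFinset (asym_sumR hA hB) h6 h5 h7
  rcases hL' : L with _ | ⟨x, L'⟩
  · exact absurd hL' h1
  · rw [hL', List.map_cons] at h8
    exact free_sum fA fB γ x (List.cons.inj h8).1

end act

/-! ### The blocks -/

section block
variable {A B : Type} {RA : A → A → Prop} {RB : B → B → Prop} {Q : Option A → Prop}

/-- Forgetting the subtype. -/
def uw (q : B × {x : Option A // Q x}) : B × Option A := (q.1, q.2.1)

theorem uw_inj : Function.Injective (uw : B × {x : Option A // Q x} → B × Option A) := by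
  rintro ⟨b, x⟩ ⟨b', x'⟩ h
  have h1 : b = b' := congrArg Prod.fst h
  have h2 : x.1 = x'.1 := congrArg Prod.snd h
  exact Prod.ext h1 (Subtype.ext h2)

theorem fst_inj : Function.Injective (Prod.fst : B × Unit → B) := by
  rintro ⟨b, x⟩ ⟨b', x'⟩ h
  exact Prod.ext h rfl

theorem lift_uw (Z : List (B × Option A)) (h : ∀ q ∈ Z, Q q.2) :
    ∃ Z' : List (B × {x : Option A // Q x}), Z'.map uw = Z := by
  induction Z with
  | nil => exact ⟨[], rfl⟩
  | cons q Z ih =>
    obtain ⟨Z', hZ'⟩ := ih fun q hq => h q (List.mem_cons_of_mem _ hq)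
    exact ⟨(q.1, ⟨q.2, h q List.mem_cons_self⟩) :: Z', by rw [List.map_cons, hZ']; rfl⟩

/-- The bijection from the block of the cone of `id × f`. -/
def phi (X : List A) : List (B × Unit) ⊕ List (B × {x : Option A // Q x}) →
    List (A ⊕ B) ⊕ List (Kp A B)
  | Sum.inl l => Sum.inl (X.map Sum.inl ++ (l.map Prod.fst).map Sum.inr)
  | Sum.inr l => Sum.inr (X.map jA ++ (l.map uw).map jB)

theorem phi_inj (X : List A) : Function.Injective
    (phi X : List (B × Unit) ⊕ List (B × {x : Option A // Q x}) → _) := by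
  rintro (l | l) (l' | l') h
  · have h1 := List.append_cancel_left (Sum.inl_injective h)
    have h2 := List.map_injective_iff.2 Sum.inr_injective h1
    exact congrArg Sum.inl (List.map_injective_iff.2 fst_inj h2)
  · exact absurd h (by simp [phi])
  · exact absurd h (by simp [phi])
  · have h1 := List.append_cancel_left (Sum.inr_injective h)
    have h2 := List.map_injective_iff.2 jB_inj h1
    exact congrArg Sum.inr (List.map_injective_iff.2 uw_inj h2)

/-- The number of vertices. -/
def len {V W : Type} : List V ⊕ List W → ℕ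
  | Sum.inl l => l.length
  | Sum.inr l => l.length

theorem sign_odd (x n : ℕ) : ((-1 : ℤ) ^ (x * (n + 1))) * (-1) ^ (x * n) = (-1) ^ x := by
  rw [← pow_add, show x * (n + 1) + x * n = x + 2 * (x * n) by ring, pow_add, pow_mul]
  simp

theorem sign_even (x n : ℕ) : ((-1 : ℤ) ^ (x * n)) * (-1) ^ (x * n) = 1 := by
  rw [← pow_add, ← two_mul, pow_mul]
  simp

theorem exists_min (hA : Asym RA) {X : List A} (hX : X.Pairwise RA) :
    ∃ m : {x : Option A // ∀ a ∈ X, Rle (optR RA) (some a) x},
      ∀ w : {x : Option A // ∀ a ∈ X, Rle (optR RA) (some a) x}, w ≠ m → optR RA m.1 w.1 := by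
  rcases List.eq_nil_or_concat X with rfl | ⟨L, b, h⟩
  · refine ⟨⟨none, by simp⟩, fun w hw => ?_⟩
    rcases w with ⟨_ | a, h⟩
    · exact absurd rfl hw
    · exact trivial
  · rw [List.concat_eq_append] at h
    subst h
    rw [List.pairwise_append] at hX
    refine ⟨⟨some b, fun a ha => ?_⟩, fun w hw => ?_⟩
    · rw [List.mem_append, List.mem_singleton] at ha
      rcases ha with ha | rfl
      · exact Or.inr (hX.2.2 a ha b List.mem_cons_self)
      · exact Or.inl rfl
    · rcases w.2 b (by simp) with h | h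
      · exact absurd (Subtype.ext h.symm) hw
      · exact h

/-- The block over a simplex of the first factor. -/
theorem block_nil [DecidableEq A] [DecidableEq B] (hA : Asym RA) (hB : Asym RB) {X : List A}
    (hX : X.Pairwise RA) (hne : X ≠ []) :
    ∃ s : Finset (List (A ⊕ B) ⊕ List (Kp A B)), (∀ i, i ∈ s ↔
      i ∈ coP (kpR RA RB) (sumR RA RB) ∧
        pS i = (X.map Sum.inl ++ ([] : List B).map Sum.inr : List (A ⊕ B)).toFinset) ∧
      ZC cdeg (coD (sumR RA RB) psi) s := by
  have hL : (X.map Sum.inl ++ ([] : List B).map Sum.inr : List (A ⊕ B)).Pairwise (sumR RA RB) :=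
    (pw_sum X []).2 ⟨hX, List.Pairwise.nil⟩
  have hK : (X.map jA ++ ([] : List (B × Option A)).map jB : List (Kp A B)).Pairwise
      (kpR RA RB) := (pw_kp hA X []).2 ⟨hX, List.Pairwise.nil, by simp⟩
  have hm := map_psi X ([] : List (B × Option A))
  refine ⟨{Sum.inl (X.map Sum.inl ++ ([] : List B).map Sum.inr),
    Sum.inr (X.map jA ++ ([] : List (B × Option A)).map jB)}, fun i => ?_, ?_⟩
  · rw [Finset.mem_insert, Finset.mem_singleton]
    constructor
    · rintro (rfl | rfl)
      · exact ⟨⟨by simpa using hne, hL⟩, rfl⟩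
      · refine ⟨⟨by simpa using hne, hK⟩, ?_⟩
        change (List.map psi _).toFinset = _
        rw [hm]
        rfl
    · rintro ⟨h1, h2⟩
      rcases i with l | l
      · obtain ⟨h3, h4⟩ : l ≠ [] ∧ l.Pairwise (sumR RA RB) := h1
        exact Or.inl (congrArg Sum.inl (eq_of_toFinset (asym_sumR hA hB) h4 hL h2))
      · obtain ⟨h3, h4⟩ : l ≠ [] ∧ l.Pairwise (kpR RA RB) := h1
        obtain ⟨Z, rfl, h5, -, -⟩ := cell_r hA hX h4 h2
        have h6 : Z.map Prod.fst = [] := by
          rw [← List.toFinset_eq_empty_iff, h5]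
          rfl
        rw [List.map_eq_nil_iff] at h6
        subst h6
        exact Or.inr rfl
  · refine zc_pair _ _ _ _ (by simp) ?_ ?_ ?_ ?_
    · simp [cdeg]
    · rw [coD_ll]
      by_contra h
      have := bd_len h
      omega
    · rw [coD_rr, neg_eq_zero]
      by_contra h
      have := bd_len h
      omega
    · rw [coD_rl]
      have h1 : ((X.map jA ++ ([] : List (B × Option A)).map jB : List (Kp A B)).map psi).Pairwise
          (sumR RA RB) := by
        rw [hm]
        exact hL
      have h2 := push_of h1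
      rw [hm] at h2
      exact h2

/-- The other blocks. -/
theorem block_cons (g2 : StG2) (g3 : StG3) (z3 : StZ3) [Fintype A] [Fintype B] [DecidableEq A]
    [DecidableEq B] (hA : Asym RA) (hB : Asym RB) {X : List A} {Y : List B}
    (hX : X.Pairwise RA) (hY : Y.Pairwise RB) (hne : Y ≠ []) :
    ∃ s : Finset (List (A ⊕ B) ⊕ List (Kp A B)), (∀ i, i ∈ s ↔
      i ∈ coP (kpR RA RB) (sumR RA RB) ∧
        pS i = (X.map Sum.inl ++ Y.map Sum.inr : List (A ⊕ B)).toFinset) ∧
      ZC cdeg (coD (sumR RA RB) psi) s := by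
  have : Fintype {x : Option A // ∀ a ∈ X, Rle (optR RA) (some a) x} := Fintype.ofFinite _
  set R' : {x : Option A // ∀ a ∈ X, Rle (optR RA) (some a) x} →
    {x : Option A // ∀ a ∈ X, Rle (optR RA) (some a) x} → Prop := fun x y => optR RA x.1 y.1
    with hR'
  set R0 : Unit → Unit → Prop := fun _ _ => False with hR0
  have aR' : Asym R' := fun a b => asym_optR hA _ _
  obtain ⟨m, hm⟩ := exists_min hA hX
  obtain ⟨Bs, hBs, hz⟩ := g2 B Unit {x : Option A // ∀ a ∈ X, Rle (optR RA) (some a) x} RB R0 R'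
    (fun _ => ()) hB (fun _ _ h => h.elim) aR' (fun _ _ _ => Or.inl rfl)
    (g3 {x : Option A // ∀ a ∈ X, Rle (optR RA) (some a) x} R' m aR' hm) Y.toFinset
  have hL : (X.map Sum.inl ++ Y.map Sum.inr : List (A ⊕ B)).Pairwise (sumR RA RB) :=
    (pw_sum X Y).2 ⟨hX, hY⟩
  -- the relation on pairs with `Unit`
  have p0 : ∀ q q' : B × Unit, prodR RB R0 q q' ↔ RB q.1 q'.1 := by
    rintro ⟨b, x⟩ ⟨b', x'⟩
    constructor
    · rintro ⟨h1, h2, -⟩
      rcases h2 with h2 | h2
      · exact absurd (Prod.ext h2 rfl) h1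
      · exact h2
    · intro h
      refine ⟨fun e => ?_, Or.inr h, Or.inl rfl⟩
      have h3 : b = b' := congrArg Prod.fst e
      subst h3
      exact hB _ _ h h
  have p1 : ∀ l : List (B × Unit), l.Pairwise (prodR RB R0) ↔ (l.map Prod.fst).Pairwise RB := by
    intro l
    rw [List.pairwise_map]
    exact List.Pairwise.iff fun {q q'} => p0 q q'
  -- the relation on pairs with the subtype
  have p2 : ∀ q q' : B × {x : Option A // ∀ a ∈ X, Rle (optR RA) (some a) x},
      prodR RB R' q q' ↔ prodR RB (optR RA) (uw q) (uw q') := by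
    intro q q'
    constructor
    · rintro ⟨h1, h2, h3⟩
      refine ⟨fun e => h1 (uw_inj e), h2, ?_⟩
      rcases h3 with h3 | h3
      · exact Or.inl (congrArg Subtype.val h3)
      · exact Or.inr h3
    · rintro ⟨h1, h2, h3⟩
      refine ⟨fun e => h1 (by rw [e]), h2, ?_⟩
      rcases h3 with h3 | h3
      · exact Or.inl (Subtype.ext h3)
      · exact Or.inr h3
  have p3 : ∀ l : List (B × {x : Option A // ∀ a ∈ X, Rle (optR RA) (some a) x}),
      l.Pairwise (prodR RB R') ↔ (l.map uw).Pairwise (prodR RB (optR RA)) := by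
    intro l
    rw [List.pairwise_map]
    exact List.Pairwise.iff fun {q q'} => p2 q q'
  -- membership
  have hmem : ∀ i, i ∈ Bs.image (phi X) ↔ i ∈ coP (kpR RA RB) (sumR RA RB) ∧
      pS i = (X.map Sum.inl ++ Y.map Sum.inr : List (A ⊕ B)).toFinset := by
    intro i
    rw [Finset.mem_image]
    constructor
    · rintro ⟨c, hc, rfl⟩
      obtain ⟨h1, h2⟩ := (hBs c).1 hc
      rcases c with l | l
      · obtain ⟨h3, h4⟩ : l ≠ [] ∧ l.Pairwise (prodR RB R0) := h1
        have h5 : l.map Prod.fst = Y := eq_of_toFinset hB ((p1 l).1 h4) hY h2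
        change Sum.inl (X.map Sum.inl ++ (l.map Prod.fst).map Sum.inr) ∈ _ ∧
          (X.map Sum.inl ++ (l.map Prod.fst).map Sum.inr : List (A ⊕ B)).toFinset = _
        rw [h5]
        exact ⟨⟨by simp [hne], hL⟩, rfl⟩
      · obtain ⟨h3, h4⟩ : l ≠ [] ∧ l.Pairwise (prodR RB R') := h1
        refine ⟨⟨by simp [h3], (pw_kp hA X (l.map uw)).2 ⟨hX, (p3 l).1 h4, ?_⟩⟩, ?_⟩
        · intro a ha q hq
          obtain ⟨q', -, rfl⟩ := List.mem_map.1 hq
          exact q'.2.2 a ha
        · change (List.map psi (X.map jA ++ (l.map uw).map jB)).toFinset = _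
          rw [map_psi]
          refine toFinset_glue X ?_
          rw [List.map_map]
          exact h2
    · rintro ⟨h1, h2⟩
      rcases i with l | l
      · obtain ⟨h3, h4⟩ : l ≠ [] ∧ l.Pairwise (sumR RA RB) := h1
        have h5 := eq_of_toFinset (asym_sumR hA hB) h4 hL h2
        have h6 : (Y.map fun b => (b, ())).map Prod.fst = Y := by
          rw [List.map_map]
          exact List.map_id Y
        refine ⟨Sum.inl (Y.map fun b => (b, ())), (hBs _).2 ⟨⟨by simpa using hne, (p1 _).2 ?_⟩,
          ?_⟩, ?_⟩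
        · rw [h6]
          exact hY
        · change ((Y.map fun b => (b, ())).map Prod.fst).toFinset = _
          rw [h6]
        · change Sum.inl (X.map Sum.inl ++ ((Y.map fun b => (b, ())).map Prod.fst).map Sum.inr) = _
          rw [h6, h5]
      · obtain ⟨h3, h4⟩ : l ≠ [] ∧ l.Pairwise (kpR RA RB) := h1
        obtain ⟨Z, rfl, h5, h6, h7⟩ := cell_r hA hX h4 h2
        obtain ⟨Z', rfl⟩ := lift_uw (Q := fun x => ∀ a ∈ X, Rle (optR RA) (some a) x) Z
          (fun q hq a ha => h7 a ha q hq)
        rw [List.map_map] at h5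
        refine ⟨Sum.inr Z', (hBs _).2 ⟨⟨?_, (p3 _).2 h6⟩, h5⟩, rfl⟩
        rintro rfl
        exact hne ((List.toFinset_eq_empty_iff _).1 h5.symm)
  -- the isomorphism
  refine ⟨Bs.image (phi X), hmem, ?_⟩
  refine (z3 _ _ cdeg cdeg (coD (prodR RB R0) (Prod.map id fun _ => ())) (coD (sumR RA RB) psi) Bs
    (Bs.image (phi X)) (phi X) (fun c => (-1) ^ (X.length * len c)) X.length ?_ ?_ ?_ ?_).1 hz
  · rw [Finset.coe_image]
    exact (phi_inj X).injOn.bijOn_image
  · rintro (l | l) -
    · simp [phi, cdeg]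
      omega
    · simp [phi, cdeg]
      omega
  · intro c _
    exact neg_one_pow_eq_or ℤ _
  · intro i hi j hj
    have hi' := ((hmem (phi X i)).1 (Finset.mem_image_of_mem _ hi)).1
    have hj' := ((hBs j).1 hj).1
    rcases i with l | l <;> rcases j with l' | l'
    · have hn : (X.map Sum.inl ++ (l.map Prod.fst).map Sum.inr : List (A ⊕ B)).Nodup :=
        nodup (asym_sumR hA hB) hi'.2
      have hl' : l' ≠ [] := hj'.1
      change coD _ _ (Sum.inl _) (Sum.inl _) = (-1) ^ (X.length * l.length) *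
        (-1) ^ (X.length * l'.length) * coD _ _ _ _
      rw [coD_ll, coD_ll, bd_append hn (by simpa using hl'), bd_map Sum.inr_injective,
        bd_map fst_inj, List.length_map]
      by_cases h0 : bd l l' = 0
      · rw [h0, mul_zero, mul_zero]
      · rw [bd_len h0, sign_odd]
    · change coD _ _ (Sum.inl _) (Sum.inr _) = _ * coD _ _ (Sum.inl _) (Sum.inr _)
      rw [coD_lr, coD_lr, mul_zero]
    · change coD _ _ (Sum.inr _) (Sum.inl _) = (-1) ^ (X.length * l.length) *
        (-1) ^ (X.length * l'.length) * coD _ _ _ _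
      rw [coD_rl, coD_rl]
      have e1 : (X.map jA ++ (l.map uw).map jB : List (Kp A B)).map psi =
          X.map Sum.inl ++ (l.map Prod.fst).map Sum.inr := by
        rw [map_psi, List.map_map (g := Prod.fst)]
        rfl
      have e2 : (l.map (Prod.map id fun _ => ())).map Prod.fst = l.map Prod.fst := by
        rw [List.map_map]
        rfl
      by_cases h0 : push (prodR RB R0) (Prod.map id fun _ => ()) l l' = 0
      · rw [h0, mul_zero]
        by_contra h1
        obtain ⟨h2, h3⟩ := push_ne h1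
        rw [e1] at h2 h3
        have h4 := List.map_injective_iff.2 Sum.inr_injective (List.append_cancel_left h3)
        rw [← e2] at h4
        have h5 := List.map_injective_iff.2 fst_inj h4
        have h6 := (pw_sum X (l.map Prod.fst)).1 h2
        have h7 : (l.map (Prod.map id fun _ => ())).Pairwise (prodR RB R0) := by
          rw [p1, e2]
          exact h6.2
        rw [h5, push_of h7] at h0
        exact one_ne_zero h0
      · obtain ⟨h2, rfl⟩ := push_ne h0
        rw [p1, e2] at h2
        rw [List.length_map, sign_even, one_mul, push_of (by rw [p1, e2]; exact h2), e2, ← e1]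
        refine push_of ?_
        rw [e1]
        exact (pw_sum X _).2 ⟨hX, h2⟩
    · have hn : (X.map jA ++ (l.map uw).map jB : List (Kp A B)).Nodup := by
        have h1 := ((pw_kp hA X (l.map uw)).1 hi'.2)
        refine nodup (R := kpR RA RB) ?_ hi'.2
        intro a b hab hba
        exact asym_prodR (asym_optR hA) (asym_optR hB) _ _ hab hba
      have hl' : l' ≠ [] := hj'.1
      change coD _ _ (Sum.inr _) (Sum.inr _) = (-1) ^ (X.length * l.length) *
        (-1) ^ (X.length * l'.length) * coD _ _ _ _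
      rw [coD_rr, coD_rr, bd_append hn (by simpa using hl'), bd_map jB_inj,
        bd_map uw_inj, List.length_map]
      by_cases h0 : bd l l' = 0
      · rw [h0, mul_zero, neg_zero, mul_zero]
      · rw [bd_len h0, sign_odd, mul_neg]

end block

end PsiAux

open PsiAux

/-- The map `Kp A B → A ⊕ B` has trivial torsion. -/
theorem stPsi : StC2 → StE4 → StG2 → StG3 → StZ2 → StZ3 → StPsi := by
  intro c2 e4 g2 g3 _ z3 C A B _ _ _ _ _ _ _ RA RB χ hχ hA hB iA iB fA fB
  have hk : Asym (kpR RA RB) := fun a b hab hba =>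
    asym_prodR (asym_optR hA) (asym_optR hB) _ _ hab hba
  have hec : EC C (coP (kpR RA RB) (sumR RA RB)) cdeg (coD (sumR RA RB) psi) :=
    c2 C (Kp A B) (A ⊕ B) (kpR RA RB) (sumR RA RB) psi hk (asym_sumR hA hB) (inv_kpR iA iB)
      (inv_sumR iA iB) (free_kp fA fB) (free_sum fA fB) simp_psi equi_psi
  let _ : MulAction C (Finset (A ⊕ B)) := Finset.mulActionFinset
  refine e4 C (List (A ⊕ B) ⊕ List (Kp A B)) (Finset (A ⊕ B)) (coP (kpR RA RB) (sumR RA RB)) cdeg
    (coD (sumR RA RB) psi) χ pS Finset.card hec hχ (fun γ i _ => pS_smul γ i)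
    (fun γ l => Finset.card_smul_finset γ l) ?_ ?_ ⟨Set.univ, Set.finite_univ, fun i _ =>
      ⟨1, Set.mem_univ _⟩⟩ ?_
  · intro i _ j _ h
    rcases eq_or_ne (pS i) (pS j) with h1 | h1
    · exact Or.inl h1
    · exact Or.inr (Finset.card_lt_card (Finset.ssubset_iff_subset_ne.2 ⟨pS_sub h, h1.symm⟩))
  · intro i hi γ h
    exact pS_free hA hB iA iB fA fB hi γ h
  · intro t
    by_cases ht : ∃ (X : List A) (Y : List B),
        (X.map Sum.inl ++ Y.map Sum.inr : List (A ⊕ B)) ≠ [] ∧ X.Pairwise RA ∧ Y.Pairwise RB ∧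
          (X.map Sum.inl ++ Y.map Sum.inr).toFinset = t
    · obtain ⟨X, Y, h1, h2, h3, rfl⟩ := ht
      by_cases hY : Y = []
      · subst hY
        refine block_nil hA hB h2 ?_
        rintro rfl
        exact h1 rfl
      · exact block_cons g2 g3 z3 hA hB h2 h3 hY
    · refine ⟨∅, fun i => ⟨fun h => absurd h (Finset.notMem_empty _), ?_⟩, zc_empty _ _⟩
      rintro ⟨h1, rfl⟩
      exact absurd (chain_of hA hB h1) ht

end Pool.Agent.Lib.MP_39dc45_gt.SP
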