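import Pool.Agent.Lib.MP_39dc45_gt.SP.StT

/-!
# MP_39dc45_gt: simplicial maps act on points, compatibly with products (module Push)
-/

noncomputable section

namespace Pool.Agent.Lib.MP_39dc45_gt.SP

namespace PushAux

open Classical in
/-- finite sums as sums over lists -/
theorem finsum_list {W : Type} (L : List W) (hL : L.Nodup) (g : W → ℝ)
    (hg : ∀ w, g w ≠ 0 → w ∈ L) : ∑ᶠ w, g w = (L.map g).sum := by
  rw [finsum_eq_sum_of_support_subset g (s := L.toFinset) (by
    intro w hw
    rw [Finset.mem_coe, List.mem_toFinset]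
    exact hg w hw)]
  exact List.sum_toFinset g hL

open Classical in
theorem finsum_list_if {W : Type} (L : List W) (hL : L.Nodup) (P : W → Prop) (g : W → ℝ)
    (hg : ∀ w, g w ≠ 0 → w ∈ L) :
    ∑ᶠ (w : W) (_ : P w), g w = (L.map fun w => if P w then g w else 0).sum := by
  rw [show (fun w => ∑ᶠ (_ : P w), g w) = fun w => if P w then g w else 0 from
    funext fun w => finsum_eq_if]
  refine finsum_list L hL _ fun w hw => hg w ?_
  intro h
  apply hw
  simp [h]

theorem nodup_of {W : Type} {R : W → W → Prop} (hA : Asym R) {L : List W} (hL : L.Pairwise R) :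
    L.Nodup :=
  hL.imp fun {a b} h hab => by
    subst hab
    exact hA a a h h

/-- The clamp function. -/
def phi (a b x : ℝ) : ℝ := max a (min x (a + b))

theorem phi_sub (a b s t : ℝ) (hb : 0 ≤ b) (hst : s ≤ t) :
    max 0 (min (a + b) t - max a s) = phi a b t - phi a b s := by
  unfold phi
  simp only [max_def, min_def]
  split_ifs <;> linarith

open Classical in
/-- The sum of the increments over the fibre of `q`. -/
def TT {W W' : Type} (f : W → W') (y' : W → ℝ) (q : W') (φ : ℝ → ℝ) : List W → ℝ → ℝ
  | [], _ => 0
  | w :: l, s => (if f w = q then φ (s + y' w) - φ s else 0) + TT f y' q φ l (s + y' w)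

open Classical in
theorem tele {W W' : Type} {RW : W → W → Prop} {RW' : W' → W' → Prop} {f : W → W'}
    (hA' : Asym RW') (hf : IsSimp RW RW' f) (y' : W → ℝ) (q : W') (φ : ℝ → ℝ) :
    ∀ (l : List W) (s : ℝ), l.Pairwise RW → TT f y' q φ l s =
      φ (s + (l.map fun w => if RW' (f w) q then y' w else 0).sum +
        (l.map fun w => if f w = q then y' w else 0).sum) -
      φ (s + (l.map fun w => if RW' (f w) q then y' w else 0).sum) := by
  intro l
  induction l with
  | nil => intro s _; simp [TT]
  | cons w l ih =>
    intro s hl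
    rw [List.pairwise_cons] at hl
    obtain ⟨hw, hl⟩ := hl
    rw [TT, ih _ hl]
    simp only [List.map_cons, List.sum_cons]
    by_cases h1 : f w = q
    · have h2 : ¬ RW' (f w) q := by
        rw [h1]
        exact fun h => hA' q q h h
      have h3 : (l.map fun w => if RW' (f w) q then y' w else 0).sum = 0 := by
        apply List.sum_eq_zero
        intro x hx
        rw [List.mem_map] at hx
        obtain ⟨w', hw', rfl⟩ := hx
        rw [if_neg]
        intro h
        rcases hf w w' (hw w' hw') with h4 | h4
        · rw [← h4] at h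
          exact h2 h
        · rw [h1] at h4
          exact hA' _ _ h h4
      rw [if_pos h1, if_neg h2, if_pos h1, h3]
      simp only [add_zero, zero_add]
      rw [add_assoc s]
      ring
    · rw [if_neg h1, if_neg h1]
      by_cases h2 : RW' (f w) q
      · rw [if_pos h2]
        simp only [zero_add]
        rw [add_assoc s (y' w)]
      · have h3 : (l.map fun w => if f w = q then y' w else 0).sum = 0 := by
          apply List.sum_eq_zero
          intro x hx
          rw [List.mem_map] at hx
          obtain ⟨w', hw', rfl⟩ := hx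
          rw [if_neg]
          intro h
          rcases hf w w' (hw w' hw') with h4 | h4
          · exact h1 (h4.trans h)
          · rw [h] at h4
            exact h2 h4
        rw [if_neg h2, h3]
        simp

open Classical in
/-- The value of `lo` on an element of the chain. -/
theorem lo_eq {W : Type} {R : W → W → Prop} (hA : Asym R) (y : W → ℝ) (pre l : List W) (w : W)
    (hL : (pre ++ w :: l).Pairwise R) (hy : ∀ v, y v ≠ 0 → v ∈ pre ++ w :: l) :
    lo R y w = (pre.map y).sum := by
  unfold lo
  rw [finsum_list_if (pre ++ w :: l) (nodup_of hA hL) (fun v' => R v' w) y hy]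
  rw [List.pairwise_append, List.pairwise_cons] at hL
  obtain ⟨-, ⟨h1, -⟩, h2⟩ := hL
  rw [List.map_append, List.sum_append, List.map_cons, List.sum_cons]
  have h3 : (pre.map fun v' => if R v' w then y v' else 0) = pre.map y := by
    refine List.map_congr_left fun v' hv' => ?_
    rw [if_pos (h2 v' hv' w List.mem_cons_self)]
  have h4 : (l.map fun v' => if R v' w then y v' else 0).sum = 0 := by
    apply List.sum_eq_zero
    intro x hx
    rw [List.mem_map] at hx
    obtain ⟨v', hv', rfl⟩ := hx
    rw [if_neg fun h => hA _ _ h (h1 v' hv')]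
  rw [h3, h4, if_neg fun h => hA _ _ h h]
  simp

open Classical in
theorem tt_eq {W W' : Type} {R : W → W → Prop} (hA : Asym R) (f : W → W') (y : W → ℝ) (q : W')
    (φ : ℝ → ℝ) : ∀ (l pre : List W), (pre ++ l).Pairwise R → (∀ v, y v ≠ 0 → v ∈ pre ++ l) →
    (l.map fun w => if f w = q then φ (lo R y w + y w) - φ (lo R y w) else 0).sum =
      TT f y q φ l (pre.map y).sum := by
  intro l
  induction l with
  | nil => intro pre _ _; rfl
  | cons w l ih =>
    intro pre hL hy
    rw [TT, List.map_cons, List.sum_cons, lo_eq hA y pre l w hL hy]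
    have h1 : pre ++ w :: l = (pre ++ [w]) ++ l := by simp
    rw [h1] at hL hy
    rw [ih (pre ++ [w]) hL hy]
    simp

end PushAux

open PushAux in
/-- Module Push. -/
theorem stPush : StPush := by
  classical
  intro V W W' RV RW RW' f hV hW hW' hf y y' hy hy'
  obtain ⟨hy0, lV, hlV, hsV, hV1⟩ := hy
  obtain ⟨hy0', L, hL, hsL, hL1⟩ := hy'
  have hnd : L.Nodup := nodup_of hW hL
  have hpos : ∀ w ∈ L, 0 < y' w := fun w hw => lt_of_le_of_ne (hy0' w) ((hsL w).2 hw).symm
  set c : W' → ℝ := fun q => ∑ᶠ (p : W) (_ : p ∈ f ⁻¹' {q}), y' p with hc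
  have hcL : ∀ q, c q = (L.map fun w => if f w = q then y' w else 0).sum := by
    intro q
    exact finsum_list_if L hnd (fun p => f p = q) y' fun w hw => (hsL w).1 hw
  have hcF : ∀ q, c q = ∑ w ∈ L.toFinset with f w = q, y' w := by
    intro q
    rw [hcL, Finset.sum_filter, List.sum_toFinset _ hnd]
  have hc0 : ∀ q, 0 ≤ c q := by
    intro q
    rw [hcF]
    exact Finset.sum_nonneg fun w _ => hy0' w
  have hcs : ∀ q, c q ≠ 0 ↔ q ∈ L.map f := by
    intro q
    rw [List.mem_map, hcF]
    constructor
    · intro h
      obtain ⟨w, hw, -⟩ := Finset.exists_ne_zero_of_sum_ne_zero h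
      rw [Finset.mem_filter, List.mem_toFinset] at hw
      exact ⟨w, hw⟩
    · rintro ⟨w, hw, hwq⟩
      refine (Finset.sum_pos (fun w' hw' => ?_) ⟨w, ?_⟩).ne'
      · rw [Finset.mem_filter, List.mem_toFinset] at hw'
        exact hpos w' hw'.1
      · rw [Finset.mem_filter, List.mem_toFinset]
        exact ⟨hw, hwq⟩
  -- sums against the image
  have hfib : ∀ h : W' → ℝ, ((L.map f).dedup.map fun q => h q * c q).sum =
      (L.map fun w => h (f w) * y' w).sum := by
    intro h
    rw [← List.sum_toFinset _ (List.nodup_dedup (L.map f)), ← List.sum_toFinset _ hnd,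
      ← Finset.sum_fiberwise_of_maps_to (s := L.toFinset) (t := (L.map f).dedup.toFinset) (g := f)
        (fun w hw => by
          rw [List.mem_toFinset] at hw ⊢
          rw [List.mem_dedup]
          exact List.mem_map_of_mem hw)]
    refine Finset.sum_congr rfl fun q _ => ?_
    rw [hcF, Finset.mul_sum]
    refine Finset.sum_congr rfl fun w hw => ?_
    rw [Finset.mem_filter] at hw
    rw [hw.2]
  refine ⟨⟨hc0, (L.map f).dedup, ?_, fun q => by rw [hcs, List.mem_dedup], ?_⟩, ?_⟩
  · have h1 : (L.map f).Pairwise (Rle RW') := by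
      rw [List.pairwise_map]
      exact hL.imp fun {a b} h => hf a b h
    have h2 : (L.map f).dedup.Pairwise (Rle RW') := h1.sublist (List.dedup_sublist _)
    have h3 : (L.map f).dedup.Pairwise (· ≠ ·) := List.nodup_dedup _
    refine (h2.and h3).imp fun {a b} h => ?_
    exact h.1.resolve_left h.2
  · have h1 := hfib fun _ => 1
    simp only [one_mul] at h1
    rw [← hL1]
    exact h1
  · rintro ⟨v, q⟩
    set a := lo RV y v with ha
    set b := y v with hb
    -- the left-hand side
    have hlo : lo RW' c q = (L.map fun w => if RW' (f w) q then y' w else 0).sum := by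
      unfold lo
      rw [finsum_list_if (L.map f).dedup (List.nodup_dedup _) (fun q' => RW' q' q) c
        fun q' hq' => by rw [List.mem_dedup]; exact (hcs q').1 hq']
      have h1 := hfib fun q' => if RW' q' q then 1 else 0
      simp only [ite_mul, one_mul, zero_mul] at h1
      exact h1
    have hleft : prB RV RW' y c (v, q) = phi a b (lo RW' c q + c q) - phi a b (lo RW' c q) :=
      phi_sub a b _ _ (hy0 v) (le_add_of_nonneg_right (hc0 q))
    have hmid : ∀ w, prB RV RW y y' (v, w) =
        phi a b (lo RW y' w + y' w) - phi a b (lo RW y' w) := fun w =>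
      phi_sub a b _ _ (hy0 v) (le_add_of_nonneg_right (hy0' w))
    have hright : ∑ᶠ (p : V × W) (_ : p ∈ (Prod.map id f) ⁻¹' {(v, q)}), prB RV RW y y' p =
        (L.map fun w => if f w = q then
          phi a b (lo RW y' w + y' w) - phi a b (lo RW y' w) else 0).sum := by
      have h1 : ∀ p : V × W, (∑ᶠ (_ : p ∈ (Prod.map id f) ⁻¹' {(v, q)}), prB RV RW y y' p) =
          if p.1 = v ∧ f p.2 = q then prB RV RW y y' p else 0 := by
        intro p
        rw [finsum_eq_if]
        refine if_congr ?_ rfl rfl
        rw [Set.mem_preimage, Set.mem_singleton_iff, Prod.map_apply', Prod.mk.injEq]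
        exact Iff.rfl
      rw [show (fun p : V × W => ∑ᶠ (_ : p ∈ (Prod.map id f) ⁻¹' {(v, q)}), prB RV RW y y' p) =
        fun p => if p.1 = v ∧ f p.2 = q then prB RV RW y y' p else 0 from funext h1]
      rw [finsum_list (L.map fun w => (v, w)) (hnd.map fun w w' h => congrArg Prod.snd h) _ ?_,
        List.map_map]
      · congr 1
        refine List.map_congr_left fun w _ => ?_
        simp only [Function.comp_apply, true_and, hmid]
      · rintro ⟨v', w⟩ hp
        by_cases h2 : v' = v ∧ f w = q
        · rw [if_pos h2] at hp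
          obtain ⟨rfl, -⟩ := h2
          rw [List.mem_map]
          refine ⟨w, (hsL w).1 fun h3 => hp ?_, rfl⟩
          rw [hmid, h3, add_zero, sub_self]
        · rw [if_neg h2] at hp
          exact absurd rfl hp
    rw [hleft, hright, tt_eq hW f y' q (phi a b) L [] hL (fun w hw => (hsL w).1 hw),
      tele hW' hf y' q (phi a b) L _ hL, hlo, hcL]
    simp

end Pool.Agent.Lib.MP_39dc45_gt.SP
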