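import Pool.Agent.Lib.MP_39dc45_gt.SP.StT

/-!
# MP_39dc45_gt, module R4a: the hat functions of `ℝ⁴` give points
-/

open scoped Topology
open Matrix

noncomputable section

namespace Pool.Agent.Lib.MP_39dc45_gt.SP
namespace R4aAux

/-- `⌊X + c⌋`. -/
def fl (X : ZMod 5 → ℝ) (c : ℝ) (i : ZMod 5) : ℤ := ⌊X i + c⌋

/-- The sum of the coordinates of `⌊X + c⌋`. -/
def F (X : ZMod 5 → ℝ) (c : ℝ) : ℤ := ∑ i, fl X c i

theorem fl_mono (X : ZMod 5 → ℝ) {c c' : ℝ} (h : c ≤ c') (i : ZMod 5) : fl X c i ≤ fl X c' i :=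
  Int.floor_le_floor (by linarith)

theorem F_mono (X : ZMod 5 → ℝ) {c c' : ℝ} (h : c ≤ c') : F X c ≤ F X c' :=
  Finset.sum_le_sum fun i _ => fl_mono X h i

theorem fl_eq_of (X : ZMod 5 → ℝ) {c c' : ℝ} (h : c ≤ c') (e : F X c' ≤ F X c) :
    fl X c = fl X c' := by
  have h1 := (Finset.sum_eq_sum_iff_of_le (fun i (_ : i ∈ Finset.univ) => fl_mono X h i)).1
    (le_antisymm (F_mono X h) e)
  funext i
  exact h1 i (Finset.mem_univ i)

theorem fl_add_one (X : ZMod 5 → ℝ) (c : ℝ) (i : ZMod 5) : fl X (c + 1) i = fl X c i + 1 := by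
  unfold fl
  rw [← add_assoc, Int.floor_add_one]

theorem F_add_one (X : ZMod 5 → ℝ) (c : ℝ) : F X (c + 1) = F X c + 5 := by
  unfold F
  simp only [fl_add_one, Finset.sum_add_distrib, Finset.sum_const, Finset.card_univ, ZMod.card]
  norm_num

theorem fl_right (X : ZMod 5 → ℝ) (c : ℝ) :
    ∃ ε : ℝ, 0 < ε ∧ ∀ c', c ≤ c' → c' < c + ε → fl X c' = fl X c := by
  obtain ⟨i0, h0⟩ := Finite.exists_min (fun i => (⌊X i + c⌋ : ℝ) + 1 - (X i + c))
  refine ⟨(⌊X i0 + c⌋ : ℝ) + 1 - (X i0 + c), ?_, fun c' h1 h2 => ?_⟩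
  · have := Int.lt_floor_add_one (X i0 + c)
    linarith
  · funext i
    unfold fl
    rw [Int.floor_eq_iff]
    have h3 := h0 i
    have h4 := Int.floor_le (X i + c)
    constructor <;> linarith

theorem F_le (X : ZMod 5 → ℝ) (c : ℝ) : (F X c : ℝ) ≤ ∑ i, X i + 5 * c := by
  have h : (∑ i, (fl X c i : ℝ)) ≤ ∑ i, (X i + c) :=
    Finset.sum_le_sum fun i _ => Int.floor_le _
  rw [Finset.sum_add_distrib, Finset.sum_const, Finset.card_univ, ZMod.card, nsmul_eq_mul] at h
  unfold F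
  push_cast at h ⊢
  exact h

theorem le_F (X : ZMod 5 → ℝ) (c : ℝ) : ∑ i, X i + 5 * c - 5 ≤ (F X c : ℝ) := by
  have h : (∑ i, (X i + c - 1)) ≤ ∑ i, (fl X c i : ℝ) :=
    Finset.sum_le_sum fun i _ => (Int.sub_one_lt_floor _).le
  rw [Finset.sum_sub_distrib, Finset.sum_add_distrib, Finset.sum_const, Finset.sum_const,
    Finset.card_univ, ZMod.card, nsmul_eq_mul, nsmul_eq_mul] at h
  unfold F
  push_cast at h ⊢
  linarith

/-- The smallest `c` such that the sum of `⌊X + c⌋` is at least `s`. -/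
def al (X : ZMod 5 → ℝ) (s : ℤ) : ℝ := sInf {c | s ≤ F X c}

theorem al_bdd (X : ZMod 5 → ℝ) (s : ℤ) : BddBelow {c | s ≤ F X c} := by
  refine ⟨(s - ∑ i, X i) / 5, fun c hc => ?_⟩
  have h1 := F_le X c
  have h2 : (s : ℝ) ≤ F X c := by exact_mod_cast hc
  rw [div_le_iff₀ (by norm_num)]
  linarith

theorem al_ne (X : ZMod 5 → ℝ) (s : ℤ) : {c | s ≤ F X c}.Nonempty := by
  refine ⟨(s + 5 - ∑ i, X i) / 5, ?_⟩
  have h1 := le_F X ((s + 5 - ∑ i, X i) / 5)
  have h2 : (s : ℝ) ≤ F X ((s + 5 - ∑ i, X i) / 5) := by linarith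
  exact_mod_cast h2

theorem al_F (X : ZMod 5 → ℝ) (s : ℤ) : s ≤ F X (al X s) := by
  obtain ⟨ε, hε, h⟩ := fl_right X (al X s)
  obtain ⟨c', h1, h2⟩ := exists_lt_of_csInf_lt (al_ne X s) (lt_add_of_pos_right (al X s) hε)
  have h3 := h c' (csInf_le (al_bdd X s) h1) h2
  have h4 : F X c' = F X (al X s) := by
    unfold F
    rw [h3]
  rw [← h4]
  exact h1

theorem gc (X : ZMod 5 → ℝ) (s : ℤ) (c : ℝ) : s ≤ F X c ↔ al X s ≤ c :=
  ⟨fun h => csInf_le (al_bdd X s) h, fun h => (al_F X s).trans (F_mono X h)⟩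

theorem al_mono (X : ZMod 5 → ℝ) {s s' : ℤ} (h : s ≤ s') : al X s ≤ al X s' :=
  (gc X s _).1 (h.trans (al_F X s'))

theorem al_five (X : ZMod 5 → ℝ) (s : ℤ) : al X (s + 5) = al X s + 1 := by
  apply le_antisymm
  · rw [← gc, F_add_one]
    have := al_F X s
    omega
  · have h : al X s ≤ al X (s + 5) - 1 := by
      rw [← gc]
      have h1 := F_add_one X (al X (s + 5) - 1)
      rw [sub_add_cancel] at h1
      have h2 := al_F X (s + 5)
      omega
    linarith

theorem fib (X : ZMod 5 → ℝ) (v : ZMod 5 → ℤ) (c : ℝ) :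
    fl X c = v ↔ Finset.univ.sup' Finset.univ_nonempty (fun i => (v i : ℝ) - X i) ≤ c ∧
      c < Finset.univ.inf' Finset.univ_nonempty (fun i => (v i : ℝ) - X i) + 1 := by
  rw [← sub_lt_iff_lt_add, Finset.sup'_le_iff, Finset.lt_inf'_iff]
  constructor
  · intro h
    have h1 : ∀ i, (v i : ℝ) ≤ X i + c ∧ X i + c < v i + 1 := by
      intro i
      rw [← h]
      exact Int.floor_eq_iff.1 rfl
    exact ⟨fun i _ => by linarith [(h1 i).1], fun i _ => by linarith [(h1 i).2]⟩
  · rintro ⟨h1, h2⟩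
    funext i
    exact Int.floor_eq_iff.2 ⟨by linarith [h1 i (Finset.mem_univ i)],
      by linarith [h2 i (Finset.mem_univ i)]⟩

theorem key (X : ZMod 5 → ℝ) (v : ZMod 5 → ℤ) (A B : ℝ)
    (hf : ∀ c, fl X c = v ↔ A ≤ c ∧ c < B) (hAB : A < B) :
    al X (∑ i, v i) = A ∧ al X (∑ i, v i + 1) = B := by
  have hA : fl X A = v := (hf A).2 ⟨le_rfl, hAB⟩
  have hFA : F X A = ∑ i, v i := by
    unfold F
    rw [hA]
  constructor
  · have h1 : al X (∑ i, v i) ≤ A := (gc X _ _).1 hFA.ge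
    refine le_antisymm h1 ?_
    have h2 := fl_eq_of X h1 (by rw [hFA]; exact al_F X _)
    exact ((hf _).1 (h2.trans hA)).1
  · apply le_antisymm
    · rw [← gc]
      by_contra hc
      have h2 := fl_eq_of X hAB.le (by rw [hFA]; omega)
      have h3 := (hf B).1 (h2.symm.trans hA)
      exact absurd h3.2 (lt_irrefl _)
    · by_contra hc
      push Not at hc
      have h1 := al_F X (∑ i, v i + 1)
      rcases le_or_gt A (al X (∑ i, v i + 1)) with h2 | h2
      · have h3 := (hf _).2 ⟨h2, hc⟩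
        have h4 : F X (al X (∑ i, v i + 1)) = ∑ i, v i := by
          unfold F
          rw [h3]
        omega
      · have h3 := F_mono X h2.le
        omega

theorem al_lt (X : ZMod 5 → ℝ) (s : ℤ) (h : al X s < al X (s + 1)) : F X (al X s) = s := by
  have h1 := al_F X s
  have h2 : ¬ (s + 1 ≤ F X (al X s)) := by
    rw [gc]
    exact not_le.2 h
  omega

end R4aAux

open R4aAux

theorem stR4a : StR4a := by
  intro x
  classical
  set X : ZMod 5 → ℝ := bet x with hX
  -- weights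
  have hb : ∀ v : V4, b4 x v ≠ 0 → al X (∑ i, v.1 i) < al X (∑ i, v.1 i + 1) ∧
      v.1 = fl X (al X (∑ i, v.1 i)) ∧ b4 x v = al X (∑ i, v.1 i + 1) - al X (∑ i, v.1 i) := by
    intro v hv
    have h1 : Finset.univ.sup' Finset.univ_nonempty (fun i => (v.1 i : ℝ) - X i) <
        Finset.univ.inf' Finset.univ_nonempty (fun i => (v.1 i : ℝ) - X i) + 1 := by
      by_contra hc
      push Not at hc
      apply hv
      unfold b4
      exact max_eq_left (by linarith)
    obtain ⟨h2, h3⟩ := key X v.1 _ _ (fun c => fib X v.1 c) h1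
    refine ⟨by rw [h2, h3]; exact h1, ?_, ?_⟩
    · rw [h2]
      exact ((fib X v.1 _).2 ⟨le_rfl, h1⟩).symm
    · rw [h2, h3]
      unfold b4
      rw [max_eq_right (by linarith)]
      ring
  have hb' : ∀ v : V4, v.1 = fl X (al X (∑ i, v.1 i)) → b4 x v ≠ 0 := by
    intro v hv
    have h1 := (fib X v.1 _).1 hv.symm
    unfold b4
    rw [max_eq_right (by linarith)]
    intro h
    linarith
  let w : ℕ → V4 := fun s =>
    if h : 0 ≤ ∑ i, fl X (al X s) i ∧ ∑ i, fl X (al X s) i ≤ 4 then ⟨fl X (al X s), h⟩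
    else ⟨0, by simp⟩
  have hw : ∀ s : ℕ, s < 5 → al X s < al X (s + 1) →
      (w s).1 = fl X (al X s) ∧ ∑ i, (w s).1 i = s := by
    intro s hs h
    have h1 : ∑ i, fl X (al X s) i = s := al_lt X s h
    have h2 : (w s).1 = fl X (al X s) := by
      change (if h : 0 ≤ ∑ i, fl X (al X s) i ∧ ∑ i, fl X (al X s) i ≤ 4 then
        (⟨fl X (al X s), h⟩ : V4) else ⟨0, by simp⟩).1 = _
      rw [dif_pos (by rw [h1]; omega)]
    exact ⟨h2, by rw [h2]; exact h1⟩
  refine ⟨fun v => le_max_left _ _, ((List.range 5).filter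
    (fun s : ℕ => decide (al X s < al X (s + 1)))).map w, ?_, ?_, ?_⟩
  · rw [List.pairwise_map]
    have h0 : (List.range 5).Pairwise (· < ·) := List.pairwise_lt_range
    refine ((h0.filter _).imp_of_mem ?_)
    intro s s' hs hs' hlt
    simp only [List.mem_filter, List.mem_range, decide_eq_true_eq] at hs hs'
    obtain ⟨e1, f1⟩ := hw s hs.1 hs.2
    obtain ⟨e2, f2⟩ := hw s' hs'.1 hs'.2
    constructor
    · intro h
      rw [h] at f1
      rw [f1] at f2
      omega
    · intro i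
      rw [e1, e2]
      refine ⟨fl_mono X (al_mono X (by omega)) i, ?_⟩
      rw [← fl_add_one, ← al_five]
      exact fl_mono X (al_mono X (by omega)) i
  · intro v
    simp only [List.mem_map, List.mem_filter, List.mem_range, decide_eq_true_eq]
    constructor
    · intro hv
      obtain ⟨h1, h2, -⟩ := hb v hv
      have h3 := v.2
      obtain ⟨s, hs⟩ : ∃ s : ℕ, (s : ℤ) = ∑ i, v.1 i := ⟨(∑ i, v.1 i).toNat, by omega⟩
      rw [← hs] at h1 h2
      have h5 : s < 5 := by omega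
      refine ⟨s, ⟨h5, h1⟩, Subtype.ext ?_⟩
      rw [(hw s h5 h1).1, h2]
    · rintro ⟨s, ⟨hs, h⟩, rfl⟩
      apply hb'
      rw [(hw s hs h).2]
      exact (hw s hs h).1
  · rw [List.map_map]
    have h1 : ∀ s ∈ (List.range 5).filter (fun s : ℕ => decide (al X s < al X (s + 1))),
        (b4 x ∘ w) s = al X (s + 1) - al X s := by
      intro s hs
      simp only [List.mem_filter, List.mem_range, decide_eq_true_eq] at hs
      obtain ⟨e1, f1⟩ := hw s hs.1 hs.2
      have h2 : b4 x (w s) ≠ 0 := hb' _ (by rw [f1]; exact e1)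
      obtain ⟨-, -, h3⟩ := hb _ h2
      rw [f1] at h3
      exact h3
    rw [List.map_congr_left h1]
    have h2 : ∀ l : List ℕ, ((l.filter (fun s : ℕ => decide (al X s < al X (s + 1)))).map
        (fun s : ℕ => al X (s + 1) - al X s)).sum = (l.map (fun s : ℕ => al X (s + 1) - al X s)).sum := by
      intro l
      induction l with
      | nil => rfl
      | cons a l ih =>
        rw [List.filter_cons]
        split_ifs with h
        · rw [List.map_cons, List.sum_cons, ih, List.map_cons, List.sum_cons]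
        · rw [ih, List.map_cons, List.sum_cons]
          have h3 : al X a ≤ al X (a + 1) := al_mono X (by omega)
          simp only [decide_eq_true_eq, not_lt] at h
          linarith
    rw [h2]
    have h5 := al_five X 0
    simp only [List.range_succ, List.range_zero, List.nil_append, List.cons_append, List.map_cons,
      List.map_nil, List.sum_cons, List.sum_nil]
    norm_num at h5 ⊢
    linarith

end Pool.Agent.Lib.MP_39dc45_gt.SP
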