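import Pool.Agent.Lib.MP_39dc45_gt.SP.StT

/-!
# MP_39dc45_gt, SP-R4b: the hat functions on `ℝ⁴`, bijectivity
-/

open scoped Topology
open Matrix

noncomputable section

namespace Pool.Agent.Lib.MP_39dc45_gt.SP
namespace R4bAux

/-- A chain of `N` vertices with weights. -/
structure Ch (N : ℕ) (W : ℕ → ZMod 5 → ℤ) (t : ℕ → ℝ) : Prop where
  pos : 0 < N
  mono : ∀ a b, a ≤ b → b < N → ∀ i, W a i ≤ W b i
  up : ∀ a b, a < N → b < N → ∀ i, W a i ≤ W b i + 1
  step : ∀ a, a + 1 < N → ∃ i, W a i < W (a + 1) i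
  last : ∃ i, W (N - 1) i = W 0 i
  t0 : ∀ a, a < N → 0 < t a
  sum : ∑ a ∈ Finset.range N, t a = 1

variable {N : ℕ} {W : ℕ → ZMod 5 → ℤ} {t : ℕ → ℝ}

/-- The coordinate `i` jumps after `j`. -/
def Q (N : ℕ) (W : ℕ → ZMod 5 → ℤ) (j : ℕ) (i : ZMod 5) : Prop :=
  (∀ a, a ≤ j → W a i = W j i) ∧ ∀ a, j < a → a < N → W a i = W j i + 1

/-- The coordinate `i` jumps before `j`. -/
def P (N : ℕ) (W : ℕ → ZMod 5 → ℤ) (j : ℕ) (i : ZMod 5) : Prop :=
  (∀ a, a < j → W a i = W j i - 1) ∧ ∀ a, j < a → a < N → W a i = W j i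

theorem exQ (h : Ch N W t) (j : ℕ) (hj : j < N) : ∃ i, Q N W j i := by
  by_cases h1 : j + 1 < N
  · obtain ⟨i, hi⟩ := h.step j h1
    refine ⟨i, fun a ha => ?_, fun a ha ha' => ?_⟩
    · have e1 := h.mono a j ha hj i
      have e2 := h.up (j + 1) a h1 (by omega) i
      omega
    · have e1 := h.mono (j + 1) a ha ha' i
      have e2 := h.up a j ha' hj i
      omega
  · obtain ⟨i, hi⟩ := h.last
    have hj' : j = N - 1 := by omega
    refine ⟨i, fun a ha => ?_, fun a ha ha' => by omega⟩
    have e1 := h.mono a j ha hj i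
    have e2 := h.mono 0 a (by omega) (by omega) i
    rw [hj'] at e1 ⊢
    omega

theorem covQ (h : Ch N W t) (i : ZMod 5) : ∃ j, j < N ∧ Q N W j i := by
  have hN := h.pos
  set j := Nat.findGreatest (fun a => W a i = W 0 i) (N - 1) with hj
  have hle : j ≤ N - 1 := Nat.findGreatest_le _
  have hspec : W j i = W 0 i :=
    Nat.findGreatest_spec (P := fun a => W a i = W 0 i) (Nat.zero_le _) rfl
  refine ⟨j, by omega, fun a ha => ?_, fun a ha ha' => ?_⟩
  · have e1 := h.mono a j ha (by omega) i
    have e2 := h.mono 0 a (by omega) (by omega) i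
    omega
  · have e0 : ¬ W a i = W 0 i :=
      Nat.findGreatest_is_greatest (P := fun a => W a i = W 0 i) ha (by omega)
    have e1 := h.mono 0 a (by omega) ha' i
    have e2 := h.up a 0 ha' hN i
    omega

/-- The cyclic predecessor. -/
def prd (N j : ℕ) : ℕ := if j = 0 then N - 1 else j - 1

theorem QP (h : Ch N W t) (j : ℕ) (hj : j < N) (i : ZMod 5) (hq : Q N W (prd N j) i) :
    P N W j i := by
  have hN := h.pos
  rcases Nat.eq_zero_or_pos j with h0 | h0
  · subst h0
    rw [prd, if_pos rfl] at hq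
    refine ⟨fun a ha => by omega, fun a _ ha' => ?_⟩
    rw [hq.1 a (by omega), hq.1 0 (by omega)]
  · rw [prd, if_neg (by omega)] at hq
    have e1 := hq.2 j (by omega) hj
    refine ⟨fun a ha => ?_, fun a ha ha' => ?_⟩
    · rw [hq.1 a (by omega)]; omega
    · rw [hq.2 a (by omega) ha']; omega

/-- The point with the given barycentric coordinates. -/
def Z (N : ℕ) (W : ℕ → ZMod 5 → ℤ) (t : ℕ → ℝ) (i : ZMod 5) : ℝ :=
  ∑ a ∈ Finset.range N, t a * (W a i : ℝ)

theorem diff_eq (h : Ch N W t) (j : ℕ) (i i' : ZMod 5) :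
    ((W j i : ℝ) - Z N W t i) - ((W j i' : ℝ) - Z N W t i')
      = ∑ a ∈ Finset.range N, t a * (((W j i - W a i) - (W j i' - W a i') : ℤ) : ℝ) := by
  have e : ∀ c : ℝ, c = ∑ a ∈ Finset.range N, t a * c := by
    intro c
    rw [← Finset.sum_mul, h.sum, one_mul]
  rw [e (W j i : ℝ), e (W j i' : ℝ), Z, Z, ← Finset.sum_sub_distrib, ← Finset.sum_sub_distrib,
    ← Finset.sum_sub_distrib]
  apply Finset.sum_congr rfl
  intro a _
  push_cast
  ring

theorem sum_ne (h : Ch N W t) (j : ℕ) (hj : j < N) :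
    ∑ a ∈ Finset.range N, t a * (if a = j then 0 else 1) = 1 - t j := by
  have e : ∀ a ∈ Finset.range N, t a * (if a = j then (0 : ℝ) else 1)
      = t a - (if a = j then t j else 0) := by
    intro a _
    by_cases ha : a = j
    · simp [ha]
    · simp [ha]
  rw [Finset.sum_congr rfl e, Finset.sum_sub_distrib, h.sum]
  congr 1
  rw [Finset.sum_ite_eq' (Finset.range N) j (fun _ => t j), if_pos (Finset.mem_range.2 hj)]

theorem ub (h : Ch N W t) (j : ℕ) (hj : j < N) (i i' : ZMod 5) :
    ((W j i : ℝ) - Z N W t i) - ((W j i' : ℝ) - Z N W t i') ≤ 1 - t j := by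
  rw [diff_eq h, ← sum_ne h j hj]
  apply Finset.sum_le_sum
  intro a ha
  rw [Finset.mem_range] at ha
  apply mul_le_mul_of_nonneg_left _ (h.t0 a ha).le
  by_cases hja : a = j
  · subst hja
    simp
  · rw [if_neg hja]
    have key : (W j i - W a i) - (W j i' - W a i') ≤ 1 := by
      rcases Nat.lt_or_gt_of_ne hja with h1 | h1
      · have e1 := h.mono a j h1.le hj i'
        have e2 := h.up j a hj ha i
        omega
      · have e1 := h.mono j a h1.le ha i
        have e2 := h.up a j ha hj i'
        omega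
    exact_mod_cast key

theorem eqv (h : Ch N W t) (j : ℕ) (hj : j < N) (i i' : ZMod 5) (hp : P N W j i)
    (hq : Q N W j i') :
    ((W j i : ℝ) - Z N W t i) - ((W j i' : ℝ) - Z N W t i') = 1 - t j := by
  rw [diff_eq h, ← sum_ne h j hj]
  apply Finset.sum_congr rfl
  intro a ha
  rw [Finset.mem_range] at ha
  congr 1
  by_cases hja : a = j
  · subst hja
    simp
  · rw [if_neg hja]
    have key : (W j i - W a i) - (W j i' - W a i') = 1 := by
      rcases Nat.lt_or_gt_of_ne hja with h1 | h1
      · have e1 := hp.1 a h1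
        have e2 := hq.1 a h1.le
        omega
      · have e1 := hp.2 a h1 ha
        have e2 := hq.2 a h1 ha
        omega
    exact_mod_cast key

/-- Uniqueness up to a constant. -/
theorem uniq (h : Ch N W t) (X : ZMod 5 → ℝ)
    (hX : ∀ j, j < N → ∀ i i', ((W j i : ℝ) - X i) - ((W j i' : ℝ) - X i') ≤ 1 - t j)
    (i i' : ZMod 5) : X i - X i' = Z N W t i - Z N W t i' := by
  have hN := h.pos
  have key : ∀ j, j < N → ∀ a b, Q N W (prd N j) a → Q N W j b →
      X b - Z N W t b ≤ X a - Z N W t a := by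
    intro j hj a b ha hb
    have e1 := hX j hj a b
    have e2 := eqv h j hj a b (QP h j hj a ha) hb
    linarith
  choose! r hr using fun j (hj : j < N) => exQ h j hj
  have hdec : ∀ j, j < N → X (r j) - Z N W t (r j) ≤ X (r 0) - Z N W t (r 0) := by
    intro j
    induction j with
    | zero => intro _; exact le_refl _
    | succ j ih =>
      intro hj
      refine le_trans ?_ (ih (by omega))
      apply key (j + 1) hj _ _ _ (hr _ hj)
      rw [prd, if_neg (by omega)]
      exact hr j (by omega)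
  have hwrap : X (r 0) - Z N W t (r 0) ≤ X (r (N - 1)) - Z N W t (r (N - 1)) := by
    apply key 0 hN _ _ _ (hr 0 hN)
    rw [prd, if_pos rfl]
    exact hr _ (by omega)
  have hdec2 : ∀ k j, j + k < N →
      X (r (j + k)) - Z N W t (r (j + k)) ≤ X (r j) - Z N W t (r j) := by
    intro k
    induction k with
    | zero => intro j _; exact le_refl _
    | succ k ih =>
      intro j hj
      refine le_trans ?_ (ih j (by omega))
      apply key (j + (k + 1)) hj _ _ _ (hr _ hj)
      rw [prd, if_neg (by omega)]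
      exact hr _ (by omega)
  have hall : ∀ j, j < N → X (r j) - Z N W t (r j) = X (r 0) - Z N W t (r 0) := by
    intro j hj
    apply le_antisymm (hdec j hj)
    refine le_trans hwrap ?_
    have := hdec2 (N - 1 - j) j (by omega)
    rwa [show j + (N - 1 - j) = N - 1 by omega] at this
  have hD : ∀ a, X a - Z N W t a = X (r 0) - Z N W t (r 0) := by
    intro a
    obtain ⟨j, hj, hQ⟩ := covQ h a
    apply le_antisymm
    · have hp : prd N j < N := by
        unfold prd; split_ifs <;> omega
      rw [← hall _ hp]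
      exact key j hj _ _ (hr _ hp) hQ
    · by_cases h1 : j + 1 < N
      · rw [← hall _ h1]
        apply key (j + 1) h1 _ _ _ (hr _ h1)
        rw [prd, if_neg (by omega)]
        exact hQ
      · apply key 0 hN _ _ _ (hr 0 hN)
        rw [prd, if_pos rfl]
        rwa [show N - 1 = j by omega]
  have e1 := hD i
  have e2 := hD i'
  linarith

/-! ### Oscillation -/

/-- The oscillation. -/
def osc (f : ZMod 5 → ℝ) : ℝ :=
  Finset.univ.sup' Finset.univ_nonempty f - Finset.univ.inf' Finset.univ_nonempty f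

theorem le_osc (f : ZMod 5 → ℝ) (i i' : ZMod 5) : f i - f i' ≤ osc f := by
  unfold osc
  have e1 := Finset.le_sup' f (Finset.mem_univ i)
  have e2 := Finset.inf'_le f (Finset.mem_univ i')
  linarith

theorem osc_le (f : ZMod 5 → ℝ) (c : ℝ) (hc : ∀ i i', f i - f i' ≤ c) : osc f ≤ c := by
  unfold osc
  obtain ⟨i, _, hi⟩ := Finset.exists_mem_eq_sup' Finset.univ_nonempty f
  obtain ⟨i', _, hi'⟩ := Finset.exists_mem_eq_inf' Finset.univ_nonempty f
  rw [hi, hi']
  exact hc i i'

theorem le_oscv (x : Fin 4 → ℝ) (v : V4) (i i' : ZMod 5) :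
    ((v.1 i : ℝ) - bet x i) - ((v.1 i' : ℝ) - bet x i')
      ≤ osc (fun i => (v.1 i : ℝ) - bet x i) :=
  le_osc (fun i => (v.1 i : ℝ) - bet x i) i i'

theorem b4_eq (x : Fin 4 → ℝ) (v : V4) :
    b4 x v = max 0 (1 - osc (fun i => (v.1 i : ℝ) - bet x i)) := rfl

/-! ### The isomorphism `bet` over the reals -/

theorem bet_sumR (a : Fin 4 → ℝ) : ∑ i, bet a i = 0 := by
  refine (Fin.sum_univ_five (fun i : Fin 5 => (bet a i : ℝ))).trans ?_
  change -a 0 + (a 0 - a 1) + (a 1 - a 2) + (a 2 - a 3) + a 3 = 0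
  ring

theorem bet_inj {a b : Fin 4 → ℝ} (h : bet a = bet b) : a = b := by
  have h0 : -a 0 = -b 0 := congrFun h (0 : Fin 5)
  have h1 : a 0 - a 1 = b 0 - b 1 := congrFun h (1 : Fin 5)
  have h2 : a 1 - a 2 = b 1 - b 2 := congrFun h (2 : Fin 5)
  have h3 : a 2 - a 3 = b 2 - b 3 := congrFun h (3 : Fin 5)
  funext i
  fin_cases i
  · change a 0 = b 0; linarith
  · change a 1 = b 1; linarith
  · change a 2 = b 2; linarith
  · change a 3 = b 3; linarith

theorem bet_surj (y : ZMod 5 → ℝ) (hy : ∑ i, y i = 0) : ∃ a : Fin 4 → ℝ, bet a = y := by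
  have hy' : y 0 + y 1 + y 2 + y 3 + y 4 = 0 :=
    (Fin.sum_univ_five (fun i : Fin 5 => (y i : ℝ))).symm.trans hy
  refine ⟨![y 1 + y 2 + y 3 + y 4, y 2 + y 3 + y 4, y 3 + y 4, y 4], ?_⟩
  funext i
  fin_cases i
  · change -(y 1 + y 2 + y 3 + y 4) = y 0; linarith
  · change (y 1 + y 2 + y 3 + y 4) - (y 2 + y 3 + y 4) = y 1; ring
  · change (y 2 + y 3 + y 4) - (y 3 + y 4) = y 2; ring
  · change (y 3 + y 4) - y 4 = y 3; ring
  · rfl

/-- Two functions of sum zero with the same differences are equal. -/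
theorem eq_of_diff (f g : ZMod 5 → ℝ) (hf : ∑ i, f i = 0) (hg : ∑ i, g i = 0)
    (h : ∀ i i', f i - f i' = g i - g i') : f = g := by
  funext i
  have e : ∑ i' : ZMod 5, (f i - f i') = ∑ i' : ZMod 5, (g i - g i') :=
    Finset.sum_congr rfl fun i' _ => h i i'
  rw [Finset.sum_sub_distrib, Finset.sum_sub_distrib, hf, hg] at e
  simp only [Finset.sum_const, sub_zero] at e
  rw [Finset.card_univ, ZMod.card] at e
  simpa using e

/-! ### Lists -/

/-- The chain of a list. -/
def Wl (l : List V4) (j : ℕ) (i : ZMod 5) : ℤ := if h : j < l.length then (l[j]).1 i else 0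

/-- The weights of a list. -/
def tl (l : List V4) (y : V4 → ℝ) (j : ℕ) : ℝ := if h : j < l.length then y l[j] else 0

theorem tl_sum (l : List V4) (y : V4 → ℝ) :
    ∑ a ∈ Finset.range l.length, tl l y a = (l.map y).sum := by
  rw [Finset.sum_range]
  have : l.map y = List.ofFn (fun i : Fin l.length => y l[i]) := by
    apply List.ext_getElem
    · simp
    · intro n h1 h2
      simp
  rw [this, List.sum_ofFn]
  apply Finset.sum_congr rfl
  intro i _
  rw [tl, dif_pos i.2]
  rfl

theorem chain (y : V4 → ℝ) (h0 : ∀ v, 0 ≤ y v) (l : List V4) (hl : l.Pairwise R4)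
    (hs : ∀ v, y v ≠ 0 ↔ v ∈ l) (h1 : (l.map y).sum = 1) :
    Ch l.length (Wl l) (tl l y) := by
  have hlen : 0 < l.length := by
    rcases Nat.eq_zero_or_pos l.length with h | h
    · rw [List.length_eq_zero_iff.1 h] at h1
      simp at h1
    · exact h
  have hR : ∀ a b (ha : a < l.length) (hb : b < l.length), a < b → R4 l[a] l[b] := fun a b ha hb hab =>
    List.pairwise_iff_getElem.1 hl a b ha hb hab
  have hW : ∀ a (ha : a < l.length) i, Wl l a i = (l[a]).1 i := fun a ha i => by
    rw [Wl, dif_pos ha]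
  refine ⟨hlen, ?_, ?_, ?_, ?_, ?_, ?_⟩
  · intro a b hab hb i
    rcases Nat.eq_or_lt_of_le hab with h | h
    · subst h; exact le_refl _
    · rw [hW a (by omega), hW b hb]
      exact ((hR a b (by omega) hb h).2 i).1
  · intro a b ha hb i
    rw [hW a ha, hW b hb]
    rcases lt_trichotomy a b with h | h | h
    · have := ((hR a b ha hb h).2 i).1
      omega
    · subst h; omega
    · exact ((hR b a hb ha h).2 i).2
  · intro a ha
    have hr := hR a (a + 1) (by omega) ha (by omega)
    by_contra hcon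
    push Not at hcon
    apply hr.1
    apply Subtype.ext
    funext i
    have e1 := hcon i
    rw [hW a (by omega), hW (a + 1) ha] at e1
    have e2 := (hr.2 i).1
    omega
  · by_contra hcon
    push Not at hcon
    have hall : ∀ i, Wl l (l.length - 1) i = Wl l 0 i + 1 := by
      intro i
      have hne := hcon i
      rcases Nat.eq_zero_or_pos (l.length - 1) with h | h
      · rw [h] at hne; exact absurd rfl hne
      · have hr := (hR 0 (l.length - 1) hlen (by omega) h).2 i
        rw [hW _ (by omega), hW _ hlen] at hne ⊢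
        omega
    have hs0 := (l[0]).2
    have hs1 := (l[l.length - 1]).2
    have hsum : ∑ i, (l[l.length - 1]).1 i = ∑ i, (l[0]).1 i + 5 := by
      have : ∑ i, (l[l.length - 1]).1 i = ∑ i, ((l[0]).1 i + 1) := by
        apply Finset.sum_congr rfl
        intro i _
        have := hall i
        rw [hW _ (by omega), hW _ hlen] at this
        exact this
      rw [this, Finset.sum_add_distrib]
      simp [ZMod.card]
    omega
  · intro a ha
    rw [tl, dif_pos ha]
    exact lt_of_le_of_ne (h0 _) (Ne.symm ((hs _).2 (List.getElem_mem ha)))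
  · rw [tl_sum, h1]

end R4bAux

open R4bAux

theorem stR4b : StR4a → StR4b := by
  intro hA y hy
  obtain ⟨h0, l, hl, hs, h1⟩ := hy
  have hc := chain y h0 l hl hs h1
  set N := l.length with hN
  have hW : ∀ a (ha : a < N) i, Wl l a i = (l[a]).1 i := fun a ha i => by
    rw [Wl, dif_pos ha]
  have ht : ∀ a (ha : a < N), tl l y a = y l[a] := fun a ha => by
    rw [tl, dif_pos ha]
  -- the point
  obtain ⟨x, hx⟩ := bet_surj (fun i => Z N (Wl l) (tl l y) i - (∑ i', Z N (Wl l) (tl l y) i') / 5)
    (by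
      rw [Finset.sum_sub_distrib, Finset.sum_const, Finset.card_univ, ZMod.card]
      simp only [nsmul_eq_mul]
      push_cast
      ring)
  have hdx : ∀ i i', bet x i - bet x i' = Z N (Wl l) (tl l y) i - Z N (Wl l) (tl l y) i' := by
    intro i i'
    rw [hx]
    ring
  have hval : ∀ a (ha : a < N), b4 x l[a] = y l[a] := by
    intro a ha
    rw [b4_eq]
    have hosc : osc (fun i => ((l[a]).1 i : ℝ) - bet x i) = 1 - y l[a] := by
      apply le_antisymm
      · apply osc_le
        intro i i'
        have e := ub hc a ha i i'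
        rw [hW a ha, hW a ha, ht a ha] at e
        have e2 := hdx i i'
        linarith
      · obtain ⟨i', hi'⟩ := exQ hc a ha
        have hp : prd N a < N := by
          have := hc.pos
          unfold prd; split_ifs <;> omega
        obtain ⟨i, hi⟩ := exQ hc _ hp
        have e := eqv hc a ha i i' (QP hc a ha i hi) hi'
        rw [hW a ha, hW a ha, ht a ha] at e
        have e2 := hdx i i'
        have e3 := le_oscv x l[a] i i'
        linarith
    rw [hosc, show 1 - (1 - y l[a]) = y l[a] by ring]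
    exact max_eq_right (h0 _)
  have hmem : ∀ v ∈ l, b4 x v = y v := by
    intro v hv
    obtain ⟨a, ha, rfl⟩ := List.mem_iff_getElem.1 hv
    exact hval a ha
  have hnd : ∀ l' : List V4, l'.Pairwise R4 → l'.Nodup := fun l' hl' =>
    hl'.imp (fun h => h.1)
  have hxy : b4 x = y := by
    funext v
    by_cases hv : v ∈ l
    · exact hmem v hv
    · have hyv : y v = 0 := by
        by_contra hne
        exact hv ((hs v).1 hne)
      rw [hyv]
      by_contra hne
      obtain ⟨g0, l', hl', hs', h1'⟩ := hA x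
      have e1 : (l'.map (b4 x)).sum = ∑ w ∈ l'.toFinset, b4 x w :=
        (List.sum_toFinset _ (hnd l' hl')).symm
      have e2 : (l.map y).sum = ∑ w ∈ l.toFinset, y w :=
        (List.sum_toFinset _ (hnd l hl)).symm
      have hsub : insert v l.toFinset ⊆ l'.toFinset := by
        intro w hw
        rw [Finset.mem_insert, List.mem_toFinset] at hw
        rw [List.mem_toFinset]
        rcases hw with rfl | hw
        · exact (hs' w).1 hne
        · apply (hs' w).1
          rw [hmem w hw]
          exact (hs w).2 hw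
      have e3 : ∑ w ∈ insert v l.toFinset, b4 x w ≤ ∑ w ∈ l'.toFinset, b4 x w :=
        Finset.sum_le_sum_of_subset_of_nonneg hsub fun w _ _ => g0 w
      rw [Finset.sum_insert (by simpa using hv)] at e3
      have e4 : ∑ w ∈ l.toFinset, b4 x w = ∑ w ∈ l.toFinset, y w :=
        Finset.sum_congr rfl fun w hw => hmem w (List.mem_toFinset.1 hw)
      have e5 : 0 < b4 x v := lt_of_le_of_ne (g0 v) (Ne.symm hne)
      rw [e4, ← e2, h1, ← e1, h1'] at e3
      linarith
  refine ⟨x, hxy, ?_⟩
  intro x' hx'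
  have hx'' : b4 x' = y := hx'
  have key : ∀ j, j < N → ∀ i i', ((Wl l j i : ℝ) - bet x' i) - ((Wl l j i' : ℝ) - bet x' i')
      ≤ 1 - tl l y j := by
    intro j hj i i'
    have e0 : b4 x' l[j] = y l[j] := by rw [hx'']
    have hpos : 0 < y l[j] := by
      have := hc.t0 j hj
      rwa [ht j hj] at this
    rw [b4_eq] at e0
    have e1 : 1 - osc (fun i => ((l[j]).1 i : ℝ) - bet x' i) = y l[j] := by
      rcases le_total 0 (1 - osc (fun i => ((l[j]).1 i : ℝ) - bet x' i)) with h | h
      · rwa [max_eq_right h] at e0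
      · rw [max_eq_left h] at e0
        linarith
    have e2 := le_oscv x' l[j] i i'
    rw [hW j hj, hW j hj, ht j hj]
    linarith
  have hu := uniq hc (bet x') key
  apply bet_inj
  apply eq_of_diff _ _ (bet_sumR x') (bet_sumR x)
  intro i i'
  rw [hu, hdx]

end Pool.Agent.Lib.MP_39dc45_gt.SP
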