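import Pool.Agent.Lib.MP_39dc45_gt.SP.StT

/-!
# MP_39dc45_gt: the hat functions on `ℝ⁴`
-/

set_option autoImplicit false

open scoped Topology
open Matrix

noncomputable section

namespace Pool.Agent.Lib.MP_39dc45_gt.SP

namespace R4cAux

/-- The differences. -/
def df (x : Fin 4 → ℝ) (v : V4) (i : ZMod 5) : ℝ := (v.1 i : ℝ) - bet x i

lemma osc_eq (x : Fin 4 → ℝ) (v : V4) : osc4 x v =
    Finset.univ.sup' Finset.univ_nonempty (df x v) - Finset.univ.inf' Finset.univ_nonempty (df x v) :=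
  rfl

lemma b4_eq (x : Fin 4 → ℝ) (v : V4) : b4 x v = max 0 (1 - osc4 x v) := rfl

lemma osc_lt_of {x : Fin 4 → ℝ} {v : V4} (h : b4 x v ≠ 0) : osc4 x v < 1 := by
  by_contra h1
  apply h
  rw [b4_eq]
  exact max_eq_left (by linarith [not_lt.1 h1])

lemma df_le (x : Fin 4 → ℝ) (v : V4) (i j : ZMod 5) : df x v i - df x v j ≤ osc4 x v := by
  rw [osc_eq]
  have h1 : df x v i ≤ Finset.univ.sup' Finset.univ_nonempty (df x v) :=
    Finset.le_sup' (df x v) (Finset.mem_univ i)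
  have h2 : Finset.univ.inf' Finset.univ_nonempty (df x v) ≤ df x v j :=
    Finset.inf'_le (df x v) (Finset.mem_univ j)
  linarith

lemma bet_sum_real (x : Fin 4 → ℝ) : ∑ i, bet x i = 0 := by
  refine (Fin.sum_univ_five (fun i : Fin 5 => (bet x i : ℝ))).trans ?_
  change -x 0 + (x 0 - x 1) + (x 1 - x 2) + (x 2 - x 3) + x 3 = 0
  ring

lemma df_sum (x : Fin 4 → ℝ) (v : V4) : ∑ i, df x v i = ((∑ i, v.1 i : ℤ) : ℝ) := by
  unfold df
  rw [Finset.sum_sub_distrib, bet_sum_real, sub_zero]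
  push_cast
  rfl

lemma df_bound {x : Fin 4 → ℝ} {v : V4} (h : osc4 x v < 1) (i : ZMod 5) :
    -1 ≤ df x v i ∧ df x v i ≤ 2 := by
  have hs := df_sum x v
  have h0 : (0 : ℝ) ≤ ((∑ i, v.1 i : ℤ) : ℝ) := by exact_mod_cast v.2.1
  have h4 : ((∑ i, v.1 i : ℤ) : ℝ) ≤ 4 := by exact_mod_cast v.2.2
  constructor
  · by_contra hc
    have hc := not_le.1 hc
    have h1 : ∑ j, df x v j < ∑ _j : ZMod 5, (0 : ℝ) := by
      apply Finset.sum_lt_sum_of_nonempty Finset.univ_nonempty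
      intro j _
      have := df_le x v j i
      linarith
    rw [Finset.sum_const_zero, hs] at h1
    linarith
  · by_contra hc
    have hc := not_le.1 hc
    have h1 : ∑ _j : ZMod 5, (1 : ℝ) < ∑ j, df x v j := by
      apply Finset.sum_lt_sum_of_nonempty Finset.univ_nonempty
      intro j _
      have := df_le x v i j
      linarith
    rw [hs, Finset.sum_const, Finset.card_univ, ZMod.card, nsmul_eq_mul, mul_one] at h1
    have h2 : ((5 : ℕ) : ℝ) = 5 := by norm_num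
    linarith

/-! ### Continuity -/

lemma cont_bet (i : ZMod 5) : Continuous fun x : Fin 4 → ℝ => bet x i := by
  fin_cases i
  · change Continuous fun x : Fin 4 → ℝ => -x 0
    fun_prop
  · change Continuous fun x : Fin 4 → ℝ => x 0 - x 1
    fun_prop
  · change Continuous fun x : Fin 4 → ℝ => x 1 - x 2
    fun_prop
  · change Continuous fun x : Fin 4 → ℝ => x 2 - x 3
    fun_prop
  · change Continuous fun x : Fin 4 → ℝ => x 3
    fun_prop

lemma cont_df (v : V4) (i : ZMod 5) : Continuous fun x : Fin 4 → ℝ => df x v i :=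
  continuous_const.sub (cont_bet i)

lemma cont_osc (v : V4) : Continuous fun x => osc4 x v := by
  have h1 : Continuous fun x => Finset.univ.sup' Finset.univ_nonempty (fun i => df x v i) :=
    Continuous.finset_sup'_apply Finset.univ_nonempty fun i _ => cont_df v i
  have h2 : Continuous fun x => Finset.univ.inf' Finset.univ_nonempty (fun i => df x v i) :=
    Continuous.finset_inf'_apply Finset.univ_nonempty fun i _ => cont_df v i
  exact h1.sub h2

lemma cont_b4 (v : V4) : Continuous fun x => b4 x v :=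
  continuous_const.max (continuous_const.sub (cont_osc v))

/-! ### Finiteness -/

lemma bet_norm (x : Fin 4 → ℝ) (i : ZMod 5) : |bet x i| ≤ 2 * ‖x‖ := by
  have h : ∀ j, |x j| ≤ ‖x‖ := fun j => norm_le_pi_norm x j
  have h0 := abs_le.1 (h 0)
  have h1 := abs_le.1 (h 1)
  have h2 := abs_le.1 (h 2)
  have h3 := abs_le.1 (h 3)
  have hn := norm_nonneg x
  rw [abs_le]
  fin_cases i
  · change -(2 * ‖x‖) ≤ -x 0 ∧ -x 0 ≤ 2 * ‖x‖
    constructor <;> linarith
  · change -(2 * ‖x‖) ≤ x 0 - x 1 ∧ x 0 - x 1 ≤ 2 * ‖x‖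
    constructor <;> linarith
  · change -(2 * ‖x‖) ≤ x 1 - x 2 ∧ x 1 - x 2 ≤ 2 * ‖x‖
    constructor <;> linarith
  · change -(2 * ‖x‖) ≤ x 2 - x 3 ∧ x 2 - x 3 ≤ 2 * ‖x‖
    constructor <;> linarith
  · change -(2 * ‖x‖) ≤ x 3 ∧ x 3 ≤ 2 * ‖x‖
    constructor <;> linarith

lemma norm_le_of {x : Fin 4 → ℝ} {B : ℝ} (h : ∀ i, |bet x i| ≤ B) : ‖x‖ ≤ 4 * B := by
  have hB : 0 ≤ B := (abs_nonneg _).trans (h 0)
  have h1 : -B ≤ x 0 - x 1 ∧ x 0 - x 1 ≤ B := abs_le.1 (h 1)
  have h2 : -B ≤ x 1 - x 2 ∧ x 1 - x 2 ≤ B := abs_le.1 (h 2)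
  have h3 : -B ≤ x 2 - x 3 ∧ x 2 - x 3 ≤ B := abs_le.1 (h 3)
  have h4 : -B ≤ x 3 ∧ x 3 ≤ B := abs_le.1 (h 4)
  rw [pi_norm_le_iff_of_nonneg (by linarith)]
  intro j
  rw [Real.norm_eq_abs, abs_le]
  fin_cases j
  · change -(4 * B) ≤ x 0 ∧ x 0 ≤ 4 * B
    constructor <;> linarith
  · change -(4 * B) ≤ x 1 ∧ x 1 ≤ 4 * B
    constructor <;> linarith
  · change -(4 * B) ≤ x 2 ∧ x 2 ≤ 4 * B
    constructor <;> linarith
  · change -(4 * B) ≤ x 3 ∧ x 3 ≤ 4 * B
    constructor <;> linarith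

lemma fin_V4 (N : ℤ) : {v : V4 | ∀ i, -N ≤ v.1 i ∧ v.1 i ≤ N}.Finite := by
  have h1 : (Set.Icc (fun _ : ZMod 5 => -N) (fun _ => N)).Finite := Set.finite_Icc _ _
  have h2 : ((Subtype.val : V4 → (ZMod 5 → ℤ)) ⁻¹' (Set.Icc (fun _ => -N) (fun _ => N))).Finite :=
    h1.preimage Subtype.val_injective.injOn
  refine h2.subset ?_
  intro v hv
  exact ⟨fun i => (hv i).1, fun i => (hv i).2⟩

lemma loc_fin : LocallyFinite fun v => {x | b4 x v ≠ 0} := by
  intro x
  refine ⟨Metric.ball x 1, Metric.ball_mem_nhds x one_pos, ?_⟩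
  obtain ⟨N, hN⟩ := exists_int_gt (2 * (‖x‖ + 1) + 2)
  refine (fin_V4 N).subset ?_
  rintro v ⟨y, hy, hyx⟩ i
  have h1 : ‖y‖ ≤ ‖x‖ + 1 := by
    have h2 : ‖y - x‖ < 1 := by
      rw [← dist_eq_norm]
      exact hyx
    have h3 : ‖y‖ ≤ ‖x‖ + ‖y - x‖ := by
      have := norm_add_le x (y - x)
      rwa [add_sub_cancel] at this
    linarith
  have h2 := df_bound (osc_lt_of hy) i
  have h3 := abs_le.1 (bet_norm y i)
  unfold df at h2
  have h4 : (-N : ℝ) ≤ (v.1 i : ℝ) := by linarith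
  have h5 : (v.1 i : ℝ) ≤ (N : ℝ) := by linarith
  exact ⟨by exact_mod_cast h4, by exact_mod_cast h5⟩

/-! ### Compactness -/

lemma exists_v (x : Fin 4 → ℝ) : ∃ v : V4, b4 x v ≠ 0 := by
  have key : ∀ (v : V4) (a : ℝ), (∀ i, a < df x v i) → (∀ i, df x v i ≤ a + 1) → b4 x v ≠ 0 := by
    intro v a h1 h2
    have h3 : Finset.univ.sup' Finset.univ_nonempty (df x v) ≤ a + 1 :=
      Finset.sup'_le _ _ fun i _ => h2 i
    have h4 : a < Finset.univ.inf' Finset.univ_nonempty (df x v) := by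
      rw [Finset.lt_inf'_iff]
      exact fun i _ => h1 i
    rw [b4_eq, osc_eq]
    exact (lt_max_of_lt_right (by linarith)).ne'
  have hsum : ((∑ i, ⌊bet x i⌋ : ℤ) : ℝ) ≤ 0 := by
    rw [← bet_sum_real x]
    push_cast
    exact Finset.sum_le_sum fun i _ => Int.floor_le _
  have hsum' : (-5 : ℝ) < ((∑ i, ⌊bet x i⌋ : ℤ) : ℝ) := by
    have h1 : ∑ i, (bet x i - 1) < ((∑ i, ⌊bet x i⌋ : ℤ) : ℝ) := by
      push_cast
      exact Finset.sum_lt_sum_of_nonempty Finset.univ_nonempty fun i _ => Int.sub_one_lt_floor _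
    rw [Finset.sum_sub_distrib, bet_sum_real, Finset.sum_const, Finset.card_univ, ZMod.card] at h1
    norm_num at h1
    push_cast
    exact h1
  have hs1 : (∑ i, ⌊bet x i⌋ : ℤ) ≤ 0 := by exact_mod_cast hsum
  have hs2 : (-5 : ℤ) < ∑ i, ⌊bet x i⌋ := by exact_mod_cast hsum'
  by_cases h0 : (∑ i, ⌊bet x i⌋ : ℤ) = 0
  · refine ⟨⟨fun i => ⌊bet x i⌋, by rw [h0], by rw [h0]; norm_num⟩, ?_⟩
    apply key _ (-1)
    · intro i
      have := Int.sub_one_lt_floor (bet x i)
      change -1 < ((⌊bet x i⌋ : ℤ) : ℝ) - bet x i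
      linarith
    · intro i
      have := Int.floor_le (bet x i)
      change ((⌊bet x i⌋ : ℤ) : ℝ) - bet x i ≤ -1 + 1
      linarith
  · have h5 : ∑ i : ZMod 5, (⌊bet x i⌋ + 1) = (∑ i, ⌊bet x i⌋) + 5 := by
      rw [Finset.sum_add_distrib, Finset.sum_const, Finset.card_univ, ZMod.card]
      norm_num
    refine ⟨⟨fun i => ⌊bet x i⌋ + 1, ?_, ?_⟩, ?_⟩
    · rw [h5]
      omega
    · rw [h5]
      omega
    · apply key _ 0
      · intro i
        have := Int.sub_one_lt_floor (bet x i)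
        change 0 < ((⌊bet x i⌋ + 1 : ℤ) : ℝ) - bet x i
        push_cast
        linarith
      · intro i
        have := Int.floor_le (bet x i)
        change ((⌊bet x i⌋ + 1 : ℤ) : ℝ) - bet x i ≤ 0 + 1
        push_cast
        linarith

lemma cpt (l : List V4) : IsCompact {x | ∀ v, b4 x v ≠ 0 → v ∈ l} := by
  apply Metric.isCompact_of_isClosed_isBounded
  · have h1 : {x | ∀ v, b4 x v ≠ 0 → v ∈ l} = ⋂ (v : V4) (_ : v ∉ l), {x | b4 x v = 0} := by
      ext x
      simp only [Set.mem_ofPred_eq, Set.mem_iInter]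
      constructor
      · intro h v hv
        by_contra h0
        exact hv (h v h0)
      · intro h v h0
        by_contra hv
        exact h0 (h v hv)
    rw [h1]
    exact isClosed_iInter fun v => isClosed_iInter fun _ => isClosed_eq (cont_b4 v) continuous_const
  · rw [isBounded_iff_forall_norm_le]
    -- a bound for the entries of the members of `l`
    have h1 : ∃ B : ℝ, ∀ v ∈ l, ∀ i, |(v.1 i : ℝ)| ≤ B := by
      induction l with
      | nil => exact ⟨0, fun v hv => absurd hv List.not_mem_nil⟩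
      | cons a l ih =>
        obtain ⟨B, hB⟩ := ih
        refine ⟨max B (∑ i, |(a.1 i : ℝ)|), ?_⟩
        intro v hv i
        rcases List.mem_cons.1 hv with rfl | hv
        · exact (Finset.single_le_sum (f := fun i => |(v.1 i : ℝ)|) (fun j _ => abs_nonneg _)
            (Finset.mem_univ i)).trans (le_max_right _ _)
        · exact (hB v hv i).trans (le_max_left _ _)
    obtain ⟨B, hB⟩ := h1
    refine ⟨4 * (B + 2), fun x hx => norm_le_of fun i => ?_⟩
    obtain ⟨v, hv⟩ := exists_v x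
    have h2 := df_bound (osc_lt_of hv) i
    have h3 := abs_le.1 (hB v (hx v hv) i)
    unfold df at h2
    rw [abs_le]
    constructor <;> linarith

/-! ### Equivariance -/

lemma bet_C4_real (a : Fin 4 → ℝ) :
    bet (C4.map (Int.cast : ℤ → ℝ) *ᵥ a) = fun i => bet a (i - 1) := by
  funext i
  fin_cases i
  · change -((C4.map (Int.cast : ℤ → ℝ) *ᵥ a) 0) = a 3
    simp [C4, Matrix.mulVec, dotProduct, Fin.sum_univ_four]
  · change (C4.map (Int.cast : ℤ → ℝ) *ᵥ a) 0 - (C4.map (Int.cast : ℤ → ℝ) *ᵥ a) 1 = -a 0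
    simp [C4, Matrix.mulVec, dotProduct, Fin.sum_univ_four]
  · change (C4.map (Int.cast : ℤ → ℝ) *ᵥ a) 1 - (C4.map (Int.cast : ℤ → ℝ) *ᵥ a) 2 = a 0 - a 1
    simp [C4, Matrix.mulVec, dotProduct, Fin.sum_univ_four]
  · change (C4.map (Int.cast : ℤ → ℝ) *ᵥ a) 2 - (C4.map (Int.cast : ℤ → ℝ) *ᵥ a) 3 = a 1 - a 2
    simp [C4, Matrix.mulVec, dotProduct, Fin.sum_univ_four]
  · change (C4.map (Int.cast : ℤ → ℝ) *ᵥ a) 3 = a 2 - a 3
    simp [C4, Matrix.mulVec, dotProduct, Fin.sum_univ_four]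
    ring

lemma bet_mat_real (g : Cyc 5) (a : Fin 4 → ℝ) :
    bet ((exR.mat g).map (Int.cast : ℤ → ℝ) *ᵥ a) = shf g (bet a) := by
  have key : ∀ n : ℕ, bet ((C4 ^ n).map (Int.cast : ℤ → ℝ) *ᵥ a)
      = fun i => bet a (i - (n : ZMod 5)) := by
    intro n
    induction n with
    | zero =>
      have h1 : ((C4 ^ 0).map (Int.cast : ℤ → ℝ)) = 1 := by
        rw [pow_zero]
        exact Matrix.map_one _ Int.cast_zero Int.cast_one
      rw [h1, Matrix.one_mulVec]
      funext i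
      simp
    | succ n ih =>
      have h1 : (C4 ^ (n + 1)).map (Int.cast : ℤ → ℝ)
          = C4.map (Int.cast : ℤ → ℝ) * (C4 ^ n).map (Int.cast : ℤ → ℝ) := by
        rw [pow_succ']
        exact Matrix.map_mul (f := Int.castRingHom ℝ)
      rw [h1, ← Matrix.mulVec_mulVec, bet_C4_real, ih]
      funext i
      push_cast
      rw [sub_sub, add_comm]
  have h : exR.mat g = C4 ^ (Multiplicative.toAdd g).val := rho5_coe g
  rw [h, key]
  funext i
  rw [ZMod.natCast_zmod_val]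
  rfl

lemma bet_cast (a : Fin 4 → ℤ) (i : ZMod 5) : bet (fun j => (a j : ℝ)) i = ((bet a i : ℤ) : ℝ) := by
  fin_cases i
  · change -(a 0 : ℝ) = ((-a 0 : ℤ) : ℝ)
    push_cast
    rfl
  · change (a 0 : ℝ) - (a 1 : ℝ) = ((a 0 - a 1 : ℤ) : ℝ)
    push_cast
    rfl
  · change (a 1 : ℝ) - (a 2 : ℝ) = ((a 1 - a 2 : ℤ) : ℝ)
    push_cast
    rfl
  · change (a 2 : ℝ) - (a 3 : ℝ) = ((a 2 - a 3 : ℤ) : ℝ)
    push_cast
    rfl
  · rfl

lemma df_smul (γ : exR.Gam) (x : Fin 4 → ℝ) (v : V4) (i : ZMod 5) :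
    df ((exR.mat γ.g).map (Int.cast : ℤ → ℝ) *ᵥ x + fun i => (γ.v i : ℝ)) (γ • v) i
      = df x v (i - Multiplicative.toAdd γ.g) := by
  unfold df
  have h1 : (γ • v).1 i = v.1 (i - Multiplicative.toAdd γ.g) + bet γ.v i := rfl
  have h2 : bet ((exR.mat γ.g).map (Int.cast : ℤ → ℝ) *ᵥ x + fun i => (γ.v i : ℝ)) i
      = bet x (i - Multiplicative.toAdd γ.g) + ((bet γ.v i : ℤ) : ℝ) := by
    rw [bet_add, Pi.add_apply, bet_mat_real, bet_cast]
    rfl
  rw [h1, h2]
  push_cast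
  ring

lemma osc_smul (γ : exR.Gam) (x : Fin 4 → ℝ) (v : V4) :
    osc4 ((exR.mat γ.g).map (Int.cast : ℤ → ℝ) *ᵥ x + fun i => (γ.v i : ℝ)) (γ • v)
      = osc4 x v := by
  rw [osc_eq, osc_eq]
  have h1 : df ((exR.mat γ.g).map (Int.cast : ℤ → ℝ) *ᵥ x + fun i => (γ.v i : ℝ)) (γ • v)
      = fun i => df x v (i - Multiplicative.toAdd γ.g) := funext fun i => df_smul γ x v i
  rw [h1]
  congr 1
  · apply le_antisymm
    · exact Finset.sup'_le _ _ fun i _ =>
        Finset.le_sup' (df x v) (Finset.mem_univ (i - Multiplicative.toAdd γ.g))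
    · refine Finset.sup'_le _ _ fun i _ => ?_
      have h2 := Finset.le_sup' (fun i => df x v (i - Multiplicative.toAdd γ.g))
        (Finset.mem_univ (i + Multiplicative.toAdd γ.g))
      simp only [add_sub_cancel_right] at h2
      exact h2
  · apply le_antisymm
    · refine Finset.le_inf' _ _ fun i _ => ?_
      have h2 := Finset.inf'_le (fun i => df x v (i - Multiplicative.toAdd γ.g))
        (Finset.mem_univ (i + Multiplicative.toAdd γ.g))
      simp only [add_sub_cancel_right] at h2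
      exact h2
    · exact Finset.le_inf' _ _ fun i _ =>
        Finset.inf'_le (df x v) (Finset.mem_univ (i - Multiplicative.toAdd γ.g))

end R4cAux

open R4cAux in
/-- Module R4c. -/
theorem stR4c : StR4c := by
  refine ⟨cont_b4, loc_fin, fun l _ => cpt l, osc_smul, fun γ x v => ?_⟩
  rw [b4_eq, b4_eq, osc_smul]

end Pool.Agent.Lib.MP_39dc45_gt.SP
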