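import Pool.Agent.Lib.MP_39dc45_gt.SP.StT

/-!
# MP_39dc45_gt: the realisation of the simplicial map, homotopic to the polynomial map
-/

set_option autoImplicit false

open scoped Topology
open Matrix

noncomputable section

namespace Pool.Agent.Lib.MP_39dc45_gt.SP

namespace RealAux

/-! ### Roots of unity -/

theorem eC_add (m : ℕ) [NeZero m] (j k : ZMod m) : eC m (j + k) = eC m j * eC m k := by
  unfold eC
  rw [AddChar.map_add_eq_mul, Circle.coe_mul]

theorem eC_neg (m : ℕ) [NeZero m] (k : ZMod m) : eC m (-k) = cj (eC m k) := by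
  unfold eC
  rw [AddChar.map_neg_eq_inv, Circle.coe_inv_eq_conj]

theorem eC_sub (m : ℕ) [NeZero m] (j k : ZMod m) : eC m (j - k) = eC m j * cj (eC m k) := by
  rw [sub_eq_add_neg, eC_add, eC_neg]

/-- the point `k` of the fence with 10 points as a point of the fence with 30 points -/
def tri (k : F10) : ZMod 30 := ((3 * k.val : ℕ) : ZMod 30)

theorem eC_tri (k : F10) : eC 10 k = eC 30 (tri k) := by
  unfold eC tri
  rw [ZMod.toCircle_natCast, ZMod.toCircle_apply]
  congr 1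
  change 2 * (Real.pi : ℂ) * Complex.I * ((ZMod.val (n := 10) k : ℕ) : ℂ) / _ =
    2 * (Real.pi : ℂ) * Complex.I * ((3 * ZMod.val (n := 10) k : ℕ) : ℂ) / _
  push_cast
  ring

/-- the angle has absolute value at most 60 degrees -/
def near (k : ZMod 30) : Bool := decide (k.val ≤ 5) || decide (25 ≤ k.val)

theorem re_near (k : ZMod 30) (h : near k = true) : 1 / 2 ≤ (eC 30 k).re := by
  unfold eC
  rw [ZMod.toCircle_eq_circleExp, Circle.coe_exp, Complex.exp_ofReal_mul_I_re, ← Real.cos_pi_div_three]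
  have hlt : k.val < 30 := ZMod.val_lt k
  have hpi := Real.pi_pos
  simp only [near, Bool.or_eq_true, decide_eq_true_eq] at h
  rcases h with h | h
  · apply Real.cos_le_cos_of_nonneg_of_le_pi
    · positivity
    · linarith
    · have : (k.val : ℝ) ≤ 5 := by exact_mod_cast h
      push_cast
      nlinarith
  · have h2 : Real.cos (2 * Real.pi * ((k.val : ℝ) / ((30 : ℕ) : ℝ))) =
        Real.cos (2 * Real.pi - 2 * Real.pi * ((k.val : ℝ) / ((30 : ℕ) : ℝ))) := by
      rw [Real.cos_two_pi_sub]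
    rw [h2]
    have h3 : (25 : ℝ) ≤ k.val := by exact_mod_cast h
    have h4 : (k.val : ℝ) ≤ 30 := by exact_mod_cast hlt.le
    push_cast
    apply Real.cos_le_cos_of_nonneg_of_le_pi
    · nlinarith
    · linarith
    · nlinarith

theorem re_mul_near (j k : ZMod 30) (h : near (j - k) = true) :
    1 / 2 ≤ (eC 30 j * cj (eC 30 k)).re := by
  rw [← eC_sub]
  exact re_near _ h

/-! ### Finite checks -/

theorem F1 : ∀ s r : ZMod 30, ∀ i j : Fin 2, ∀ l : Fin 3,
    near (tri (kapF (s + (i.val : ZMod 30)) (r + (j.val : ZMod 30))) -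
      (s + r + (l.val : ZMod 30))) = true := by decide +kernel

theorem F2 : ∀ s : ZMod 30, ∀ i : Fin 2, ∀ l : Fin 3,
    near (tri (tauF (s + (i.val : ZMod 30))) - (s + s + (l.val : ZMod 30))) = true := by
  decide +kernel

theorem F3 : ∀ s : ZMod 30, ∀ i : Fin 2, ∀ l : Fin 4,
    near (tri (negF (s + (i.val : ZMod 30))) - (-s + -s + -s - (l.val : ZMod 30))) = true := by
  decide +kernel

/-- the neighbours of `s` -/
def sh (s : ZMod 30) (i : Fin 3) : ZMod 30 := s + (i.val : ZMod 30) - 1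

theorem S1 : ∀ s r : ZMod 30, ∀ i j : Fin 3, (i = 1 ∨ Even s.val) → (j = 1 ∨ Even r.val) →
    (kapF s r = kapF (sh s i) (sh r j) ∨ fenR 10 4 (kapF s r) (kapF (sh s i) (sh r j))) := by
  decide +kernel

theorem S2 : ∀ s : ZMod 30, ∀ i : Fin 3, (i = 1 ∨ Even s.val) →
    (tauF s = tauF (sh s i) ∨ fenR 10 4 (tauF s) (tauF (sh s i))) := by
  decide +kernel

theorem S3 : ∀ s : ZMod 30, ∀ i : Fin 3, (i = 1 ∨ Even s.val) →
    (negF s = negF (sh s i) ∨ fenR 10 4 (negF s) (negF (sh s i))) := by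
  decide +kernel

/-- the action of `g` -/
def gac (m c : ℕ) (g : ZMod 5) (s : ZMod m) : ZMod m := s + ((c * g.val : ℕ) : ZMod m)

theorem Q1 : ∀ g : ZMod 5, ∀ s r : ZMod 30,
    kapF (gac 30 6 g s) (gac 30 6 g r) = (gac 10 4 g (kapF s r : ZMod 10)) := by decide +kernel

theorem Q2 : ∀ g : ZMod 5, ∀ s : ZMod 30,
    tauF (gac 30 6 g s) = (gac 10 4 g (tauF s : ZMod 10)) := by decide +kernel

theorem Q3 : ∀ g : ZMod 5, ∀ s : ZMod 30,
    negF (gac 30 6 g s) = (gac 10 4 g (negF s : ZMod 10)) := by decide +kernel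

theorem P1 : ∀ k : ZMod 30, ¬ fenR 30 6 k k ∧ ((fenR 30 6 k (k + 1 : ZMod 30) ∧
    ¬ fenR 30 6 (k + 1 : ZMod 30) k) ∨
    (¬ fenR 30 6 k (k + 1 : ZMod 30) ∧ fenR 30 6 (k + 1 : ZMod 30) k)) ∧ k + 1 ≠ k := by
  decide +kernel

theorem rle_sh : ∀ s s' : ZMod 30, (s = s' ∨ fenR 30 6 s s') →
    ∃ i : Fin 3, (i = 1 ∨ Even s.val) ∧ s' = sh s i := by
  decide +kernel

theorem rle_some {s s' : F30} (h : Rle (optR (fenR 30 6)) (some s) (some s')) :
    ∃ i : Fin 3, (i = 1 ∨ Even (ZMod.val (n := 30) s)) ∧ s' = sh s i := by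
  apply rle_sh
  rcases h with h | h
  · exact Or.inl (Option.some.inj h)
  · exact Or.inr h

/-! ### The simplicial map -/

theorem fK_simp : IsSimp RS RT fK := by
  rintro ⟨⟨a, b⟩, h⟩ ⟨⟨a', b'⟩, h'⟩ ⟨hne, hR1, hR2⟩
  rcases a with _ | s <;> rcases b with _ | r
  · exact absurd rfl h
  · rcases a' with _ | s' <;> rcases b' with _ | r'
    · exact absurd rfl h'
    · obtain ⟨i, hi, rfl⟩ := rle_some hR2
      rcases S3 r i hi with h1 | h1
      · exact Or.inl (congrArg Sum.inl h1)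
      · exact Or.inr h1
    · rcases hR2 with h2 | h2
      · exact absurd h2 (by simp)
      · exact absurd h2 (fun h => h)
    · exact Or.inr trivial
  · rcases a' with _ | s' <;> rcases b' with _ | r'
    · exact absurd rfl h'
    · rcases hR1 with h2 | h2
      · exact absurd h2 (by simp)
      · exact absurd h2 (fun h => h)
    · obtain ⟨i, hi, rfl⟩ := rle_some hR1
      rcases S2 s i hi with h1 | h1
      · exact Or.inl (congrArg Sum.inl h1)
      · exact Or.inr h1
    · exact Or.inr trivial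
  · rcases a' with _ | s' <;> rcases b' with _ | r'
    · exact absurd rfl h'
    · rcases hR1 with h2 | h2
      · exact absurd h2 (by simp)
      · exact absurd h2 (fun h => h)
    · rcases hR2 with h2 | h2
      · exact absurd h2 (by simp)
      · exact absurd h2 (fun h => h)
    · obtain ⟨i, hi, rfl⟩ := rle_some hR1
      obtain ⟨j, hj, rfl⟩ := rle_some hR2
      rcases S1 s r i j hi hj with h1 | h1
      · exact Or.inl (congrArg Sum.inr h1)
      · exact Or.inr h1

theorem smul30 (g : Cyc 5) (s : F30) : g • s = gac 30 6 (Multiplicative.toAdd g) s := rfl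

theorem smul10 (g : Cyc 5) (s : F10) : g • s = gac 10 4 (Multiplicative.toAdd g) s := rfl

theorem fK_equi : Equi (Cyc 5) fK := by
  rintro g ⟨⟨a, b⟩, h⟩
  rcases a with _ | s <;> rcases b with _ | r
  · exact absurd rfl h
  · change Sum.inl (negF (g • r)) = Sum.inl (g • negF r)
    rw [smul30, smul10, Q3]
  · change Sum.inl (tauF (g • s)) = Sum.inl (g • tauF s)
    rw [smul30, smul10, Q2]
  · change Sum.inr (kapF (g • s) (g • r)) = Sum.inr (g • kapF s r)
    rw [smul30, smul30, smul10, Q1]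

/-! ### The images of the vertices -/

/-- the first coordinate of a vertex of the join -/
def uK : KT → ℂ
  | Sum.inl k => eC 10 k
  | Sum.inr _ => 0

/-- the second coordinate of a vertex of the join -/
def vK : KT → ℂ
  | Sum.inl _ => 0
  | Sum.inr k => eC 10 k

theorem eC_smul10 (g : Cyc 5) (k : F10) :
    eC 10 (g • k : F10) = (ZMod.toCircle (N := 5) (Multiplicative.toAdd (g ^ 2)) : ℂ) * eC 10 k := by
  rw [smul10]
  unfold gac
  rw [eC_add, mul_comm]
  congr 1
  unfold eC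
  rw [ZMod.toCircle_natCast, toAdd_pow]
  have h1 : (2 • Multiplicative.toAdd g : ZMod 5) =
      ((2 * (Multiplicative.toAdd g).val : ℕ) : ZMod 5) := by
    push_cast
    rw [ZMod.natCast_zmod_val, nsmul_eq_mul]
    push_cast
    rfl
  rw [h1, ZMod.toCircle_natCast]
  congr 1
  push_cast
  ring

theorem uK_smul (g : Cyc 5) (q : KT) :
    uK (g • q) = (ZMod.toCircle (N := 5) (Multiplicative.toAdd (g ^ 2)) : ℂ) * uK q := by
  rcases q with k | k
  · exact eC_smul10 g k
  · exact (mul_zero _).symm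

theorem vK_smul (g : Cyc 5) (q : KT) :
    vK (g • q) = (ZMod.toCircle (N := 5) (Multiplicative.toAdd (g ^ 2)) : ℂ) * vK q := by
  rcases q with k | k
  · exact (mul_zero _).symm
  · exact eC_smul10 g k

/-- the first coordinate of the realisation -/
def US (s : Sph 3) : ℂ := ∑ p : KS, (bS s p : ℂ) * uK (fK p)

/-- the second coordinate of the realisation -/
def VS (s : Sph 3) : ℂ := ∑ p : KS, (bS s p : ℂ) * vK (fK p)

/-- the coordinates of the image -/
def cS (s : Sph 3) (q : KT) : ℝ := ∑ᶠ (p : KS) (_ : p ∈ fK ⁻¹' {q}), bS s p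

theorem cS_eq (s : Sph 3) (q : KT) : cS s q = ∑ p : KS, if fK p = q then bS s p else 0 := by
  unfold cS
  rw [finsum_eq_sum_of_fintype]
  refine Finset.sum_congr rfl fun p _ => ?_
  change ∑ᶠ (_ : fK p = q), bS s p = _
  rw [finsum_eq_if]

theorem sum_cS (s : Sph 3) (F : KT → ℂ) :
    ∑ q : KT, (cS s q : ℂ) * F q = ∑ p : KS, (bS s p : ℂ) * F (fK p) := by
  simp only [cS_eq, Complex.ofReal_sum, Finset.sum_mul]
  rw [Finset.sum_comm]
  refine Finset.sum_congr rfl fun p _ => ?_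
  rw [Finset.sum_eq_single (fK p)]
  · simp
  · intro q _ hq
    rw [if_neg (fun h => hq h.symm)]
    simp
  · intro h
    exact absurd (Finset.mem_univ _) h

theorem sum_inl (s : Sph 3) : ∑ k : ZMod 10, (cS s (Sum.inl k) : ℂ) * eC 10 k = US s := by
  have h := sum_cS s uK
  rw [Fintype.sum_sum_type] at h
  simp only [uK, mul_zero, Finset.sum_const_zero, add_zero] at h
  exact h

theorem sum_inr (s : Sph 3) : ∑ k : ZMod 10, (cS s (Sum.inr k) : ℂ) * eC 10 k = VS s := by
  have h := sum_cS s vK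
  rw [Fintype.sum_sum_type] at h
  simp only [vK, mul_zero, Finset.sum_const_zero, zero_add] at h
  exact h

/-! ### Sector coordinates -/

/-- the relation of the disc -/
abbrev RD : Option F30 → Option F30 → Prop := optR (fenR 30 6)

theorem fin2 (s k : ZMod 30) (h : s = k ∨ s = k + 1) : ∃ i : Fin 2, s = k + (i.val : ZMod 30) := by
  rcases h with h | h
  · exact ⟨0, by simp [h]⟩
  · exact ⟨1, by simp [h]⟩

theorem prB_le_left {V W : Type} (RV : V → V → Prop) (RW : W → W → Prop) (y : V → ℝ) (y' : W → ℝ)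
    (p : V × W) (h : 0 ≤ y p.1) : prB RV RW y y' p ≤ y p.1 := by
  unfold prB
  apply max_le h
  have h1 := min_le_left (lo RV y p.1 + y p.1) (lo RW y' p.2 + y' p.2)
  have h2 := le_max_left (lo RV y p.1) (lo RW y' p.2)
  linarith

theorem prB_le_right {V W : Type} (RV : V → V → Prop) (RW : W → W → Prop) (y : V → ℝ)
    (y' : W → ℝ) (p : V × W) (h : 0 ≤ y' p.2) : prB RV RW y y' p ≤ y' p.2 := by
  unfold prB
  apply max_le h
  have h1 := min_le_right (lo RV y p.1 + y p.1) (lo RW y' p.2 + y' p.2)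
  have h2 := le_max_right (lo RV y p.1) (lo RW y' p.2)
  linarith

theorem prB_nonneg {V W : Type} (RV : V → V → Prop) (RW : W → W → Prop) (y : V → ℝ) (y' : W → ℝ)
    (p : V × W) : 0 ≤ prB RV RW y y' p := le_max_left _ _

theorem dC_nonneg (hSec : StSec) {z : ℂ} (h : sN 30 z ≤ 1) (v : Option F30) : 0 ≤ dC z v := by
  rcases v with _ | k
  · exact sub_nonneg.2 h
  · exact (hSec 30 (by norm_num)).2.2.2.2.2.2.1 z k

theorem sec_eq (hSec : StSec) (k : ZMod 30) {a b : ℝ} (ha : 0 ≤ a) (hb : 0 ≤ b) (j : ZMod 30) :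
    sec 30 (a * eC 30 k + b * eC 30 (k + 1)) j = if j = k then a else if j = k + 1 then b else 0 :=
  (hSec 30 (by norm_num)).2.1 k a b ha hb j

theorem sum_two (k : ZMod 30) (a b : ℝ) (P : ZMod 30 → Prop) [DecidablePred P] :
    ∑ j : ZMod 30, (if P j then (if j = k then a else if j = k + 1 then b else 0) else 0)
      = (if P k then a else 0) + (if P (k + 1) then b else 0) := by
  have hk : k + 1 ≠ k := (P1 k).2.2
  have h1 : ∀ j : ZMod 30, (if P j then (if j = k then a else if j = k + 1 then b else 0) else 0)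
      = (if j = k then (if P k then a else 0) else 0)
        + (if j = k + 1 then (if P (k + 1) then b else 0) else 0) := by
    intro j
    by_cases h1 : j = k
    · subst h1
      rw [if_pos rfl, if_pos rfl, if_neg hk.symm, add_zero]
    · by_cases h2 : j = k + 1
      · subst h2
        rw [if_neg h1, if_neg h1, if_pos rfl, if_pos rfl, zero_add]
      · rw [if_neg h1, if_neg h1, if_neg h2, if_neg h2]
        simp
  rw [Finset.sum_congr rfl fun j _ => h1 j, Finset.sum_add_distrib, Finset.sum_ite_eq',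
    Finset.sum_ite_eq', if_pos (Finset.mem_univ _), if_pos (Finset.mem_univ _)]

theorem sN_eq (hSec : StSec) (k : ZMod 30) {a b : ℝ} (ha : 0 ≤ a) (hb : 0 ≤ b) :
    sN 30 (a * eC 30 k + b * eC 30 (k + 1)) = a + b := by
  have h := sum_two k a b (fun _ => True)
  simp only [if_true] at h
  unfold sN
  rw [Finset.sum_congr rfl fun j _ => sec_eq hSec k ha hb j]
  exact h

theorem lo_eq (hSec : StSec) (k : ZMod 30) {a b : ℝ} (ha : 0 ≤ a) (hb : 0 ≤ b) (s : F30) :
    lo RD (dC (a * eC 30 k + b * eC 30 (k + 1))) (some s) =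
      (1 - (a + b)) + ((if fenR 30 6 k s then a else 0) + (if fenR 30 6 (k + 1 : ZMod 30) s then b
        else 0)) := by
  classical
  unfold lo
  rw [finsum_eq_sum_of_fintype, Fintype.sum_option]
  congr 1
  · rw [finsum_eq_if, if_pos]
    · change 1 - sN 30 _ = _
      rw [sN_eq hSec k ha hb]
    · trivial
  · rw [← sum_two k a b (fun j => fenR 30 6 (j : ZMod 30) s)]
    refine Finset.sum_congr rfl fun j _ => ?_
    change ∑ᶠ (_ : fenR 30 6 j s), sec 30 _ j = _
    rw [finsum_eq_if, sec_eq hSec k ha hb]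

/-- the last vertex -/
theorem last (hSec : StSec) (k : ZMod 30) {a b : ℝ} (ha : 0 ≤ a) (hb : 0 ≤ b) (h0 : 0 < a + b) :
    ∃ s : F30, 0 < dC (a * eC 30 k + b * eC 30 (k + 1)) (some s) ∧
      lo RD (dC (a * eC 30 k + b * eC 30 (k + 1))) (some s) +
        dC (a * eC 30 k + b * eC 30 (k + 1)) (some s) = 1 := by
  have hd : ∀ s : ZMod 30, dC (a * eC 30 k + b * eC 30 (k + 1)) (some (s : ZMod 30)) =
      if s = k then a else if s = k + 1 then b else 0 := fun s => sec_eq hSec k ha hb s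
  obtain ⟨h1, h2, h3⟩ := P1 k
  have h4 := (P1 (k + 1)).1
  have e1 := hd k
  have e2 := hd (k + 1)
  rw [if_pos rfl] at e1
  rw [if_neg h3, if_pos rfl] at e2
  rcases h2 with ⟨h5, h6⟩ | ⟨h5, h6⟩
  · -- `k` is before `k + 1`
    by_cases hb0 : b = 0
    · refine ⟨k, ?_, ?_⟩
      · rw [e1]; linarith
      · rw [lo_eq hSec k ha hb, e1, if_neg h1, if_neg h6, hb0]; ring
    · refine ⟨(k + 1 : ZMod 30), ?_, ?_⟩
      · rw [e2]; exact lt_of_le_of_ne hb (Ne.symm hb0)
      · rw [lo_eq hSec k ha hb, e2, if_pos h5, if_neg h4]; ring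
  · by_cases ha0 : a = 0
    · refine ⟨(k + 1 : ZMod 30), ?_, ?_⟩
      · rw [e2]; linarith
      · rw [lo_eq hSec k ha hb, e2, if_neg h5, if_neg h4, ha0]; ring
    · refine ⟨k, ?_, ?_⟩
      · rw [e1]; exact lt_of_le_of_ne ha (Ne.symm ha0)
      · rw [lo_eq hSec k ha hb, e1, if_neg h1, if_pos h6]; ring

/-! ### Real parts -/

theorem no_zero {A B : ℂ} (h : 0 < (A * cj B).re) {t : ℝ} (h0 : 0 ≤ t) (h1 : t ≤ 1) :
    (1 - t) * A + t * B ≠ 0 := by
  intro h2
  have hB : B ≠ 0 := by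
    rintro rfl
    simp at h
  have h3 : ((((1 : ℂ) - t) * A + t * B) * cj B).re = 0 := by rw [h2, zero_mul, Complex.zero_re]
  have h4 : ((((1 : ℂ) - t) * A + t * B) * cj B).re =
      (1 - t) * (A * cj B).re + t * Complex.normSq B := by
    have h5 : (((1 : ℂ) - t) * A + t * B) * cj B =
        ((1 - t : ℝ) : ℂ) * (A * cj B) + (t : ℂ) * (B * cj B) := by
      push_cast
      ring
    rw [h5, Complex.add_re, Complex.re_ofReal_mul, Complex.re_ofReal_mul, cj,
      Complex.mul_conj, Complex.ofReal_re]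
  have h6 : 0 < Complex.normSq B := Complex.normSq_pos.2 hB
  rw [h4] at h3
  rcases h0.eq_or_lt with h7 | h7
  · rw [← h7] at h3
    simp only [sub_zero, one_mul, zero_mul, add_zero] at h3
    linarith
  · have h8 := mul_pos h7 h6
    have h9 := mul_nonneg (sub_nonneg.2 h1) h.le
    linarith

theorem re_pos {ι : Type} [Fintype ι] (α : ι → ℝ) (ω : ι → ℂ) (B : ℂ) (h0 : ∀ p, 0 ≤ α p)
    (h1 : ∀ p, α p ≠ 0 → 0 ≤ (ω p * cj B).re) (h2 : ∃ p, α p ≠ 0 ∧ 0 < (ω p * cj B).re) :
    0 < ((∑ p, (α p : ℂ) * ω p) * cj B).re := by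
  rw [Finset.sum_mul, Complex.re_sum]
  have h3 : ∀ p, ((α p : ℂ) * ω p * cj B).re = α p * (ω p * cj B).re := by
    intro p
    rw [mul_assoc, Complex.re_ofReal_mul]
  simp only [h3]
  apply Finset.sum_pos'
  · intro p _
    by_cases h4 : α p = 0
    · rw [h4, zero_mul]
    · exact mul_nonneg (h0 p) (h1 p h4)
  · obtain ⟨p, h5, h6⟩ := h2
    exact ⟨p, Finset.mem_univ _, mul_pos (lt_of_le_of_ne (h0 p) (Ne.symm h5)) h6⟩

theorem re_kap (k l : ZMod 30) {a b c d : ℝ} (ha : 0 ≤ a) (hb : 0 ≤ b) (hc : 0 ≤ c) (hd : 0 ≤ d)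
    (i j : Fin 2) :
    (a + b) * (c + d) / 2 ≤ (eC 10 (kapF (k + (i.val : ZMod 30)) (l + (j.val : ZMod 30))) *
      cj ((a * eC 30 k + b * eC 30 (k + 1)) * (c * eC 30 l + d * eC 30 (l + 1)))).re := by
  have e0 := re_mul_near _ _ (F1 k l i j 0)
  have e1 := re_mul_near _ _ (F1 k l i j 1)
  have e2 := re_mul_near _ _ (F1 k l i j 2)
  rw [← eC_tri] at e0 e1 e2
  set ω := eC 10 (kapF (k + (i.val : ZMod 30)) (l + (j.val : ZMod 30))) with hω
  have h0 : ((a : ℂ) * eC 30 k + b * eC 30 (k + 1)) * (c * eC 30 l + d * eC 30 (l + 1)) =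
      ((a * c : ℝ) : ℂ) * eC 30 (k + l + ((0 : Fin 3).val : ZMod 30)) +
      ((a * d + b * c : ℝ) : ℂ) * eC 30 (k + l + ((1 : Fin 3).val : ZMod 30)) +
      ((b * d : ℝ) : ℂ) * eC 30 (k + l + ((2 : Fin 3).val : ZMod 30)) := by
    have g0 : ((0 : Fin 3).val : ZMod 30) = 0 := rfl
    have g1 : ((1 : Fin 3).val : ZMod 30) = 1 := rfl
    have g2 : ((2 : Fin 3).val : ZMod 30) = 1 + 1 := rfl
    rw [g0, g1, g2, add_zero]
    simp only [eC_add]
    push_cast
    ring
  rw [h0]
  simp only [cj, map_add, map_mul, Complex.conj_ofReal]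
  have h1 : ∀ (x : ℝ) (v : ℂ), ω * ((x : ℂ) * v) = (x : ℂ) * (ω * v) := fun x v => by ring
  rw [mul_add ω, mul_add ω, h1, h1, h1, Complex.add_re, Complex.add_re, Complex.re_ofReal_mul,
    Complex.re_ofReal_mul, Complex.re_ofReal_mul]
  have f0 := mul_le_mul_of_nonneg_left e0 (mul_nonneg ha hc)
  have f1 := mul_le_mul_of_nonneg_left e1 (add_nonneg (mul_nonneg ha hd) (mul_nonneg hb hc))
  have f2 := mul_le_mul_of_nonneg_left e2 (mul_nonneg hb hd)
  simp only [cj] at f0 f1 f2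
  linarith

theorem re_tau (k : ZMod 30) {a b : ℝ} (ha : 0 ≤ a) (hb : 0 ≤ b) (i : Fin 2) :
    (a + b) ^ 2 / 2 ≤ (eC 10 (tauF (k + (i.val : ZMod 30))) *
      cj ((a * eC 30 k + b * eC 30 (k + 1)) ^ 2)).re := by
  have e0 := re_mul_near _ _ (F2 k i 0)
  have e1 := re_mul_near _ _ (F2 k i 1)
  have e2 := re_mul_near _ _ (F2 k i 2)
  rw [← eC_tri] at e0 e1 e2
  set ω := eC 10 (tauF (k + (i.val : ZMod 30))) with hω
  have h0 : ((a : ℂ) * eC 30 k + b * eC 30 (k + 1)) ^ 2 =
      ((a * a : ℝ) : ℂ) * eC 30 (k + k + ((0 : Fin 3).val : ZMod 30)) +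
      ((2 * (a * b) : ℝ) : ℂ) * eC 30 (k + k + ((1 : Fin 3).val : ZMod 30)) +
      ((b * b : ℝ) : ℂ) * eC 30 (k + k + ((2 : Fin 3).val : ZMod 30)) := by
    have g0 : ((0 : Fin 3).val : ZMod 30) = 0 := rfl
    have g1 : ((1 : Fin 3).val : ZMod 30) = 1 := rfl
    have g2 : ((2 : Fin 3).val : ZMod 30) = 1 + 1 := rfl
    rw [g0, g1, g2, add_zero]
    simp only [eC_add]
    push_cast
    ring
  rw [h0]
  simp only [cj, map_add, map_mul, Complex.conj_ofReal]
  have h1 : ∀ (x : ℝ) (v : ℂ), ω * ((x : ℂ) * v) = (x : ℂ) * (ω * v) := fun x v => by ring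
  rw [mul_add ω, mul_add ω, h1, h1, h1, Complex.add_re, Complex.add_re, Complex.re_ofReal_mul,
    Complex.re_ofReal_mul, Complex.re_ofReal_mul]
  have f0 := mul_le_mul_of_nonneg_left e0 (mul_nonneg ha ha)
  have f1 := mul_le_mul_of_nonneg_left e1 (mul_nonneg zero_le_two (mul_nonneg ha hb))
  have f2 := mul_le_mul_of_nonneg_left e2 (mul_nonneg hb hb)
  simp only [cj] at f0 f1 f2
  linarith

theorem re_neg (l : ZMod 30) {c d : ℝ} (hc : 0 ≤ c) (hd : 0 ≤ d) (i : Fin 2) :
    (c + d) ^ 3 / 2 ≤ (eC 10 (negF (l + (i.val : ZMod 30))) *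
      cj (cj (c * eC 30 l + d * eC 30 (l + 1)) ^ 3)).re := by
  have e0 := re_mul_near _ _ (F3 l i 0)
  have e1 := re_mul_near _ _ (F3 l i 1)
  have e2 := re_mul_near _ _ (F3 l i 2)
  have e3 := re_mul_near _ _ (F3 l i 3)
  rw [← eC_tri] at e0 e1 e2 e3
  set ω := eC 10 (negF (l + (i.val : ZMod 30))) with hω
  have h0 : cj ((c : ℂ) * eC 30 l + d * eC 30 (l + 1)) ^ 3 =
      ((c * c * c : ℝ) : ℂ) * eC 30 (-l + -l + -l - ((0 : Fin 4).val : ZMod 30)) +
      ((3 * (c * c * d) : ℝ) : ℂ) * eC 30 (-l + -l + -l - ((1 : Fin 4).val : ZMod 30)) +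
      ((3 * (c * d * d) : ℝ) : ℂ) * eC 30 (-l + -l + -l - ((2 : Fin 4).val : ZMod 30)) +
      ((d * d * d : ℝ) : ℂ) * eC 30 (-l + -l + -l - ((3 : Fin 4).val : ZMod 30)) := by
    have g0 : ((0 : Fin 4).val : ZMod 30) = 0 := rfl
    have g1 : ((1 : Fin 4).val : ZMod 30) = 1 := rfl
    have g2 : ((2 : Fin 4).val : ZMod 30) = 1 + 1 := rfl
    have g3 : ((3 : Fin 4).val : ZMod 30) = 1 + 1 + 1 := rfl
    rw [g0, g1, g2, g3, sub_zero]
    simp only [eC_add, eC_sub, eC_neg, cj, map_add, map_mul, Complex.conj_ofReal]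
    push_cast
    ring
  rw [h0]
  simp only [cj, map_add, map_mul, Complex.conj_ofReal]
  have h1 : ∀ (x : ℝ) (v : ℂ), ω * ((x : ℂ) * v) = (x : ℂ) * (ω * v) := fun x v => by ring
  rw [mul_add ω, mul_add ω, mul_add ω, h1, h1, h1, h1, Complex.add_re, Complex.add_re, Complex.add_re,
    Complex.re_ofReal_mul, Complex.re_ofReal_mul, Complex.re_ofReal_mul, Complex.re_ofReal_mul]
  have f0 := mul_le_mul_of_nonneg_left e0 (mul_nonneg (mul_nonneg hc hc) hc)
  have f1 := mul_le_mul_of_nonneg_left e1 (mul_nonneg zero_le_three (mul_nonneg (mul_nonneg hc hc) hd))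
  have f2 := mul_le_mul_of_nonneg_left e2 (mul_nonneg zero_le_three (mul_nonneg (mul_nonneg hc hd) hd))
  have f3 := mul_le_mul_of_nonneg_left e3 (mul_nonneg (mul_nonneg hd hd) hd)
  simp only [cj] at f0 f1 f2 f3
  linarith

/-! ### The coordinates of a point -/

theorem point (hS3 : StS3) (hSec : StSec) (s : Sph 3) :
    ∃ (k l : ZMod 30) (a b c d M : ℝ), 0 ≤ a ∧ 0 ≤ b ∧ 0 ≤ c ∧ 0 ≤ d ∧ 0 < M ∧
      a + b ≤ M ∧ c + d ≤ M ∧ (0 < a + b ∨ 0 < c + d) ∧
      zc s = a * eC 30 k + b * eC 30 (k + 1) ∧ wc s = c * eC 30 l + d * eC 30 (l + 1) ∧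
      ∀ p : KS, bS s p = prB RD RD (dC ((a / M : ℝ) * eC 30 k + (b / M : ℝ) * eC 30 (k + 1)))
        (dC ((c / M : ℝ) * eC 30 l + (d / M : ℝ) * eC 30 (l + 1))) p.1 := by
  obtain ⟨k, a, b, ha, hb, hz⟩ := (hSec 30 (by norm_num)).1 (zc s)
  obtain ⟨l, c, d, hc, hd, hw⟩ := (hSec 30 (by norm_num)).1 (wc s)
  have hsz : sN 30 (zc s) = a + b := by rw [hz]; exact sN_eq hSec k ha hb
  have hsw : sN 30 (wc s) = c + d := by rw [hw]; exact sN_eq hSec l hc hd
  have hor : 0 < a + b ∨ 0 < c + d := by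
    by_contra hcon
    push Not at hcon
    obtain ⟨h1, h2⟩ := hcon
    have ha0 : a = 0 := by linarith
    have hb0 : b = 0 := by linarith
    have hc0 : c = 0 := by linarith
    have hd0 : d = 0 := by linarith
    have h3 := hS3.2.2.1 s
    rw [hz, hw, ha0, hb0, hc0, hd0] at h3
    simp [nz] at h3
  have hM : 0 < max (a + b) (c + d) := by
    rcases hor with h | h
    · exact lt_of_lt_of_le h (le_max_left _ _)
    · exact lt_of_lt_of_le h (le_max_right _ _)
  refine ⟨k, l, a, b, c, d, max (a + b) (c + d), ha, hb, hc, hd, hM, le_max_left _ _,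
    le_max_right _ _, hor, hz, hw, ?_⟩
  intro p
  unfold bS
  rw [hsz, hsw]
  congr 2
  · rw [hz]
    push_cast
    rw [add_div, mul_div_right_comm, mul_div_right_comm]
  · rw [hw]
    push_cast
    rw [add_div, mul_div_right_comm, mul_div_right_comm]

theorem dC_supp (hSec : StSec) (k : ZMod 30) {a b : ℝ} (ha : 0 ≤ a) (hb : 0 ≤ b) (s : F30)
    (h : dC (a * eC 30 k + b * eC 30 (k + 1)) (some s) ≠ 0) :
    (∃ i : Fin 2, s = (k + (i.val : ZMod 30) : ZMod 30)) ∧ 0 < a + b := by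
  have hd : dC (a * eC 30 k + b * eC 30 (k + 1)) (some s) =
      if s = k then a else if s = (k + 1 : ZMod 30) then b else 0 := sec_eq hSec k ha hb s
  rw [hd] at h
  by_cases h1 : s = k
  · rw [if_pos h1] at h
    exact ⟨fin2 s k (Or.inl h1), by have := lt_of_le_of_ne ha (Ne.symm h); linarith⟩
  · rw [if_neg h1] at h
    by_cases h2 : s = (k + 1 : ZMod 30)
    · rw [if_pos h2] at h
      exact ⟨fin2 s k (Or.inr h2), by have := lt_of_le_of_ne hb (Ne.symm h); linarith⟩
    · rw [if_neg h2] at h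
      exact absurd rfl h

theorem prB_supp {V W : Type} (RV : V → V → Prop) (RW : W → W → Prop) (y : V → ℝ) (y' : W → ℝ)
    (p : V × W) (h : 0 ≤ y p.1) (h' : 0 ≤ y' p.2) (h0 : prB RV RW y y' p ≠ 0) :
    y p.1 ≠ 0 ∧ y' p.2 ≠ 0 := by
  have h1 : 0 < prB RV RW y y' p := lt_of_le_of_ne (prB_nonneg _ _ _ _ _) (Ne.symm h0)
  have h2 := prB_le_left RV RW y y' p h
  have h3 := prB_le_right RV RW y y' p h'
  exact ⟨by linarith, by linarith⟩

theorem exists_supp (hT : StTriS) (s : Sph 3) : ∃ p : KS, bS s p ≠ 0 := by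
  obtain ⟨-, l, -, h1, h2⟩ := hT.1.pt s
  cases l with
  | nil => simp at h2
  | cons p l => exact ⟨p, (h1 p).2 List.mem_cons_self⟩

theorem bS_nonneg (hT : StTriS) (s : Sph 3) (p : KS) : 0 ≤ bS s p := (hT.1.pt s).1 p

theorem NV (hS3 : StS3) (hSec : StSec) (hT : StTriS) (s : Sph 3) :
    Seg (US s) (VS s) (zc s ^ 2 + cj (wc s) ^ 3) (zc s * wc s) := by
  obtain ⟨k, l, a, b, c, d, M, ha, hb, hc, hd, hM, habM, hcdM, hor, hz, hw, hp⟩ :=
    point hS3 hSec s
  have haM : 0 ≤ a / M := div_nonneg ha hM.le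
  have hbM : 0 ≤ b / M := div_nonneg hb hM.le
  have hcM : 0 ≤ c / M := div_nonneg hc hM.le
  have hdM : 0 ≤ d / M := div_nonneg hd hM.le
  have hs1 : sN 30 ((a / M : ℝ) * eC 30 k + (b / M : ℝ) * eC 30 (k + 1)) ≤ 1 := by
    rw [sN_eq hSec k haM hbM, ← add_div]
    exact (div_le_one hM).2 habM
  have hs2 : sN 30 ((c / M : ℝ) * eC 30 l + (d / M : ℝ) * eC 30 (l + 1)) ≤ 1 := by
    rw [sN_eq hSec l hcM hdM, ← add_div]
    exact (div_le_one hM).2 hcdM
  have hsupp : ∀ p : KS, bS s p ≠ 0 →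
      dC ((a / M : ℝ) * eC 30 k + (b / M : ℝ) * eC 30 (k + 1)) p.1.1 ≠ 0 ∧
      dC ((c / M : ℝ) * eC 30 l + (d / M : ℝ) * eC 30 (l + 1)) p.1.2 ≠ 0 := by
    intro p hne
    rw [hp] at hne
    exact prB_supp _ _ _ _ _ (dC_nonneg hSec hs1 _) (dC_nonneg hSec hs2 _) hne
  intro t ht0 ht1
  rintro ⟨h1, h2⟩
  rcases (add_nonneg ha hb).eq_or_lt with hab | hab
  · -- `z = 0`
    have ha0 : a = 0 := by linarith
    have hb0 : b = 0 := by linarith
    have hcd : 0 < c + d := by
      rcases hor with h | h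
      · rw [← hab] at h; exact absurd h (lt_irrefl _)
      · exact h
    have hz0 : zc s = 0 := by rw [hz, ha0, hb0]; simp
    refine no_zero (A := US s) (B := zc s ^ 2 + cj (wc s) ^ 3) ?_ ht0 ht1 h1
    have key : ∀ p : KS, bS s p ≠ 0 →
        0 < (uK (fK p) * cj (zc s ^ 2 + cj (wc s) ^ 3)).re := by
      rintro ⟨⟨x, y⟩, hxy⟩ hne
      obtain ⟨h3, h4⟩ := hsupp _ hne
      rcases x with _ | s'
      · rcases y with _ | r'
        · exact absurd rfl hxy
        · obtain ⟨⟨i, rfl⟩, -⟩ := dC_supp hSec l hcM hdM r' h4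
          change 0 < (eC 10 (negF (l + (i.val : ZMod 30))) * _).re
          have h5 := re_neg l hc hd i
          rw [hz0, hw, zero_pow two_ne_zero, zero_add]
          have h6 : 0 < (c + d) ^ 3 / 2 := by positivity
          linarith
      · have h5 := (dC_supp hSec k haM hbM s' h3).2
        rw [ha0, hb0] at h5
        simp at h5
    obtain ⟨p0, hp0⟩ := exists_supp hT s
    exact re_pos (bS s) (fun p => uK (fK p)) _ (bS_nonneg hT s) (fun p hne => (key p hne).le)
      ⟨p0, hp0, key p0 hp0⟩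
  · rcases (add_nonneg hc hd).eq_or_lt with hcd | hcd
    · -- `w = 0`
      have hc0 : c = 0 := by linarith
      have hd0 : d = 0 := by linarith
      have hw0 : wc s = 0 := by rw [hw, hc0, hd0]; simp
      refine no_zero (A := US s) (B := zc s ^ 2 + cj (wc s) ^ 3) ?_ ht0 ht1 h1
      have key : ∀ p : KS, bS s p ≠ 0 →
          0 < (uK (fK p) * cj (zc s ^ 2 + cj (wc s) ^ 3)).re := by
        rintro ⟨⟨x, y⟩, hxy⟩ hne
        obtain ⟨h3, h4⟩ := hsupp _ hne
        rcases y with _ | r'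
        · rcases x with _ | s'
          · exact absurd rfl hxy
          · obtain ⟨⟨i, rfl⟩, -⟩ := dC_supp hSec k haM hbM s' h3
            change 0 < (eC 10 (tauF (k + (i.val : ZMod 30))) * _).re
            have h5 := re_tau k ha hb i
            have hcj : cj (0 : ℂ) = 0 := map_zero _
            rw [hw0, hz, hcj, zero_pow three_ne_zero, add_zero]
            have h6 : 0 < (a + b) ^ 2 / 2 := by positivity
            linarith
        · have h5 := (dC_supp hSec l hcM hdM r' h4).2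
          rw [hc0, hd0] at h5
          simp at h5
      obtain ⟨p0, hp0⟩ := exists_supp hT s
      exact re_pos (bS s) (fun p => uK (fK p)) _ (bS_nonneg hT s) (fun p hne => (key p hne).le)
        ⟨p0, hp0, key p0 hp0⟩
    · -- both are different from zero
      refine no_zero (A := VS s) (B := zc s * wc s) ?_ ht0 ht1 h2
      have key : ∀ i j : Fin 2, 0 < (eC 10 (kapF (k + (i.val : ZMod 30)) (l + (j.val : ZMod 30))) *
          cj (zc s * wc s)).re := by
        intro i j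
        have h5 := re_kap k l ha hb hc hd i j
        rw [hz, hw]
        have h6 : 0 < (a + b) * (c + d) / 2 := by positivity
        linarith
      refine re_pos (bS s) (fun p => vK (fK p)) _ (bS_nonneg hT s) ?_ ?_
      · rintro ⟨⟨x, y⟩, hxy⟩ hne
        obtain ⟨h3, h4⟩ := hsupp _ hne
        rcases x with _ | s' <;> rcases y with _ | r'
        · exact absurd rfl hxy
        · change 0 ≤ ((0 : ℂ) * _).re
          rw [zero_mul, Complex.zero_re]
        · change 0 ≤ ((0 : ℂ) * _).re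
          rw [zero_mul, Complex.zero_re]
        · obtain ⟨⟨i, rfl⟩, -⟩ := dC_supp hSec k haM hbM s' h3
          obtain ⟨⟨j, rfl⟩, -⟩ := dC_supp hSec l hcM hdM r' h4
          exact (key i j).le
      · obtain ⟨s', h3, h4⟩ := last hSec k haM hbM (by rw [← add_div]; positivity)
        obtain ⟨r', h5, h6⟩ := last hSec l hcM hdM (by rw [← add_div]; positivity)
        obtain ⟨⟨i, hi⟩, -⟩ := dC_supp hSec k haM hbM s' h3.ne'
        obtain ⟨⟨j, hj⟩, -⟩ := dC_supp hSec l hcM hdM r' h5.ne'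
        refine ⟨⟨(some s', some r'), by simp⟩, ?_, ?_⟩
        · rw [hp]
          apply ne_of_gt
          unfold prB
          change 0 < max 0 (min (lo RD _ (some s') + dC _ (some s')) (lo RD _ (some r') +
            dC _ (some r')) - max (lo RD _ (some s')) (lo RD _ (some r')))
          rw [h4, h6, min_self]
          apply lt_max_of_lt_right
          rw [sub_pos, max_lt_iff]
          exact ⟨by linarith, by linarith⟩
        · subst hi
          subst hj
          exact key i j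

/-! ### The map -/

theorem cS_pt (hT : StTriS) (hTT : StTriT) (hP : StPush) (s : Sph 3) : IsPt RT (cS s) := by
  have h1 : IsPt (fun _ _ : Unit => False) (fun _ => (1 : ℝ)) :=
    ⟨fun _ => zero_le_one, [()], by simp, by simp, by simp⟩
  exact (hP Unit KS KT (fun _ _ => False) RS RT fK (fun _ _ h => h.elim) hT.1.asymm hTT.1.asymm
    fK_simp (fun _ => 1) (bS s) h1 (hT.1.pt s)).1

theorem map_eq (hS3 : StS3) (hSec : StSec) (hT : StTriS) (hTT : StTriT) (hP : StPush)
    (s : Sph 3) : bT (toS (US s) (VS s)) = cS s ∧ (US s, VS s) ≠ 0 := by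
  obtain ⟨x, hx, -⟩ := hTT.1.bij (cS s) (cS_pt hT hTT hP s)
  set N : ℝ := sN 10 (zc x) + sN 10 (wc x) with hN
  have hsec := hSec 10 (by norm_num)
  obtain ⟨-, -, -, -, -, hsum, -, -, hz0, hnn⟩ := hsec
  have hNpos : 0 < N := by
    have h1 := hnn (zc x)
    have h2 := hnn (wc x)
    rcases (add_nonneg h1 h2).eq_or_lt with h3 | h3
    · exfalso
      have h4 : sN 10 (zc x) = 0 := by linarith
      have h5 : sN 10 (wc x) = 0 := by linarith
      have h6 := hS3.2.2.1 x
      rw [(hz0 _).1 h4, (hz0 _).1 h5] at h6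
      simp [nz] at h6
    · exact h3
  have hU : US s = ((N⁻¹ : ℝ) : ℂ) * zc x := by
    rw [← sum_inl, ← hx]
    conv_rhs => rw [hsum (zc x), Finset.mul_sum]
    refine Finset.sum_congr rfl fun k _ => ?_
    change ((sec 10 (zc x) k / N : ℝ) : ℂ) * _ = _
    push_cast
    ring
  have hV : VS s = ((N⁻¹ : ℝ) : ℂ) * wc x := by
    rw [← sum_inr, ← hx]
    conv_rhs => rw [hsum (wc x), Finset.mul_sum]
    refine Finset.sum_congr rfl fun k _ => ?_
    change ((sec 10 (wc x) k / N : ℝ) : ℂ) * _ = _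
    push_cast
    ring
  have hN' : (0 : ℝ) < N⁻¹ := inv_pos.2 hNpos
  refine ⟨?_, ?_⟩
  · rw [hU, hV, hS3.2.2.2.2.2.2.2.1 N⁻¹ _ _ hN', hS3.2.2.2.2.2.1 x, hx]
  · intro h0
    rw [hU, hV] at h0
    have h1 := congrArg Prod.fst h0
    have h2 := congrArg Prod.snd h0
    simp only [Prod.fst_zero, Prod.snd_zero, mul_eq_zero, Complex.ofReal_eq_zero] at h1 h2
    have h3 : zc x = 0 := h1.resolve_left hN'.ne'
    have h4 : wc x = 0 := h2.resolve_left hN'.ne'
    have h6 := hS3.2.2.1 x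
    rw [h3, h4] at h6
    simp [nz] at h6

theorem US_smul (hT : StTriS) (g : Cyc 5) (s : Sph 3) : US (act5 .src g s) =
    (ZMod.toCircle (N := 5) (Multiplicative.toAdd (g ^ 2)) : ℂ) * US s := by
  unfold US
  rw [← Equiv.sum_comp (MulAction.toPerm g), Finset.mul_sum]
  refine Finset.sum_congr rfl fun p _ => ?_
  rw [MulAction.toPerm_apply, hT.2, fK_equi, uK_smul]
  ring

theorem VS_smul (hT : StTriS) (g : Cyc 5) (s : Sph 3) : VS (act5 .src g s) =
    (ZMod.toCircle (N := 5) (Multiplicative.toAdd (g ^ 2)) : ℂ) * VS s := by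
  unfold VS
  rw [← Equiv.sum_comp (MulAction.toPerm g), Finset.mul_sum]
  refine Finset.sum_congr rfl fun p _ => ?_
  rw [MulAction.toPerm_apply, hT.2, fK_equi, vK_smul]
  ring

theorem cont_US (hT : StTriS) : Continuous US := by
  unfold US
  exact continuous_finsetSum _ fun p _ =>
    (Complex.continuous_ofReal.comp (hT.1.cont p)).mul continuous_const

theorem cont_VS (hT : StTriS) : Continuous VS := by
  unfold VS
  exact continuous_finsetSum _ fun p _ =>
    (Complex.continuous_ofReal.comp (hT.1.cont p)).mul continuous_const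

theorem poly_smul (hS3 : StS3) (g : Cyc 5) (s : Sph 3) :
    (zc (act5 .src g s) ^ 2 + cj (wc (act5 .src g s)) ^ 3 =
      (ZMod.toCircle (N := 5) (Multiplicative.toAdd (g ^ 2)) : ℂ) *
        (zc s ^ 2 + cj (wc s) ^ 3)) ∧
    zc (act5 .src g s) * wc (act5 .src g s) =
      (ZMod.toCircle (N := 5) (Multiplicative.toAdd (g ^ 2)) : ℂ) * (zc s * wc s) := by
  set u : Circle := ZMod.toCircle (N := 5) (Multiplicative.toAdd (g ^ 1)) with hu
  have hact : act5 .src g s = rotH u s := rfl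
  have hu2 : (ZMod.toCircle (N := 5) (Multiplicative.toAdd (g ^ 2)) : Circle) = u ^ 2 := by
    rw [hu, pow_one, toAdd_pow, AddChar.map_nsmul_eq_pow]
  have hu5 : u ^ 5 = 1 := by
    rw [hu, pow_one, ← AddChar.map_nsmul_eq_pow, nsmul_eq_mul]
    have : ((5 : ℕ) : ZMod 5) = 0 := by decide
    rw [this, zero_mul, AddChar.map_zero_eq_one]
  obtain ⟨hz, hw⟩ := hS3.2.2.2.2.1 u s
  have hinv : u⁻¹ = u ^ 4 := by
    rw [inv_eq_iff_mul_eq_one, ← pow_succ']
    exact hu5
  have hc : cj (u : ℂ) = (u : ℂ) ^ 4 := by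
    rw [cj, ← Circle.coe_inv_eq_conj, hinv, Circle.coe_pow]
  have hu5' : (u : ℂ) ^ 5 = 1 := by
    rw [← Circle.coe_pow, hu5, Circle.coe_one]
  rw [hact, hz, hw, hu2, Circle.coe_pow]
  constructor
  · rw [cj, map_mul]
    change (↑u * zc s) ^ 2 + (cj (u : ℂ) * cj (wc s)) ^ 3 = _
    rw [hc]
    have h12 : ((u : ℂ) ^ 4 * cj (wc s)) ^ 3 = ((u : ℂ) ^ 5) ^ 2 * (u : ℂ) ^ 2 * cj (wc s) ^ 3 := by
      ring
    rw [h12, hu5']
    ring
  · ring

end RealAux

open RealAux in
/-- (Real) -/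
theorem stReal : StS3 → StSec → StTriT → StTriS → StPush → StReal := by
  intro hS3 hSec hTT hT hP
  have hcontFS : Continuous fun s => toS (US s) (VS s) :=
    hS3.2.2.2.2.2.2.2.2.2.1 _ US VS (cont_US hT) (cont_VS hT)
      (fun s => (map_eq hS3 hSec hT hTT hP s).2)
  have hne : ∀ (s : Sph 3) (t : unitInterval),
      ((1 - (t : ℝ) : ℂ) * US s + ((t : ℝ) : ℂ) * (zc s ^ 2 + cj (wc s) ^ 3),
        (1 - (t : ℝ) : ℂ) * VS s + ((t : ℝ) : ℂ) * (zc s * wc s)) ≠ 0 := by
    intro s t h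
    exact NV hS3 hSec hT s t t.2.1 t.2.2 ⟨congrArg Prod.fst h, congrArg Prod.snd h⟩
  have hrot : ∀ (u : Circle) (z w : ℂ), (z, w) ≠ 0 → toS (u * z) (u * w) = rotH u (toS z w) :=
    hS3.2.2.2.2.2.2.2.2.1
  refine ⟨fun s => toS (US s) (VS s), hcontFS, ?_, ?_, ?_⟩
  · intro g s
    change toS (US (act5 .src g s)) (VS (act5 .src g s)) = rotH _ (toS (US s) (VS s))
    rw [US_smul hT, VS_smul hT]
    exact hrot _ _ _ (map_eq hS3 hSec hT hTT hP s).2
  · intro s q
    rw [(map_eq hS3 hSec hT hTT hP s).1]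
    rfl
  · have hcz := hS3.1
    have hcw := hS3.2.1
    have hcU := cont_US hT
    have hcV := cont_VS hT
    refine ⟨⟨fun x => toS ((1 - ((x.2 : ℝ) : ℂ)) * US x.1 + ((x.2 : ℝ) : ℂ) *
        (zc x.1 ^ 2 + cj (wc x.1) ^ 3))
        ((1 - ((x.2 : ℝ) : ℂ)) * VS x.1 + ((x.2 : ℝ) : ℂ) * (zc x.1 * wc x.1)), ?_⟩, ?_, ?_, ?_⟩
    · apply hS3.2.2.2.2.2.2.2.2.2.1
      · have h1 : Continuous fun x : Sph 3 × unitInterval => cj (wc x.1) :=
          Complex.continuous_conj.comp (hcw.comp continuous_fst)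
        have h2 : Continuous fun x : Sph 3 × unitInterval => (((x.2 : unitInterval) : ℝ) : ℂ) :=
          Complex.continuous_ofReal.comp (continuous_subtype_val.comp continuous_snd)
        exact ((continuous_const.sub h2).mul (hcU.comp continuous_fst)).add
          (h2.mul (((hcz.comp continuous_fst).pow 2).add (h1.pow 3)))
      · have h2 : Continuous fun x : Sph 3 × unitInterval => (((x.2 : unitInterval) : ℝ) : ℂ) :=
          Complex.continuous_ofReal.comp (continuous_subtype_val.comp continuous_snd)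
        exact ((continuous_const.sub h2).mul (hcV.comp continuous_fst)).add
          (h2.mul ((hcz.comp continuous_fst).mul (hcw.comp continuous_fst)))
      · exact fun x => hne x.1 x.2
    · intro s
      change toS ((1 - (((0 : unitInterval) : ℝ) : ℂ)) * US s + (((0 : unitInterval) : ℝ) : ℂ) * _)
        ((1 - (((0 : unitInterval) : ℝ) : ℂ)) * VS s + (((0 : unitInterval) : ℝ) : ℂ) * _) = _
      simp
    · intro s
      change toS ((1 - (((1 : unitInterval) : ℝ) : ℂ)) * US s + (((1 : unitInterval) : ℝ) : ℂ) * _)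
        ((1 - (((1 : unitInterval) : ℝ) : ℂ)) * VS s + (((1 : unitInterval) : ℝ) : ℂ) * _) = _
      simp [FP]
    · intro g s t
      have h1 : toS ((1 - ((t : ℝ) : ℂ)) * US (act5 .src g s) + ((t : ℝ) : ℂ) *
          (zc (act5 .src g s) ^ 2 + cj (wc (act5 .src g s)) ^ 3))
          ((1 - ((t : ℝ) : ℂ)) * VS (act5 .src g s) + ((t : ℝ) : ℂ) *
            (zc (act5 .src g s) * wc (act5 .src g s))) =
          rotH (ZMod.toCircle (N := 5) (Multiplicative.toAdd (g ^ 2)))
            (toS ((1 - ((t : ℝ) : ℂ)) * US s + ((t : ℝ) : ℂ) * (zc s ^ 2 + cj (wc s) ^ 3))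
              ((1 - ((t : ℝ) : ℂ)) * VS s + ((t : ℝ) : ℂ) * (zc s * wc s))) := by
        rw [US_smul hT, VS_smul hT, (poly_smul hS3 g s).1, (poly_smul hS3 g s).2,
          ← hrot _ _ _ (hne s t)]
        congr 1
        · ring
        · ring
      exact h1

end Pool.Agent.Lib.MP_39dc45_gt.SP
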