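import Pool.Agent.Lib.MP_39dc45_gt.SP.StT

/-!
# MP_39dc45_gt: basic facts on the three-sphere
-/

set_option autoImplicit false

open scoped Topology
open Matrix

noncomputable section

namespace Pool.Agent.Lib.MP_39dc45_gt.SP

namespace S3Aux

lemma norm_vec (z w : ℂ) : ‖vec z w‖ = Real.sqrt (nz z + nz w) := by
  rw [EuclideanSpace.norm_eq]
  congr 1
  simp only [nz, Complex.normSq_apply, vec, Fin.sum_univ_four, Real.norm_eq_abs, sq_abs]
  simp
  ring

lemma nz_eq_zero {z : ℂ} : nz z = 0 ↔ z = 0 := Complex.normSq_eq_zero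

lemma nz_nonneg (z : ℂ) : 0 ≤ nz z := Complex.normSq_nonneg z

lemma norm_pos {z w : ℂ} (h : (z, w) ≠ 0) : 0 < nz z + nz w := by
  rcases lt_or_eq_of_le (add_nonneg (nz_nonneg z) (nz_nonneg w)) with h1 | h1
  · exact h1
  · exfalso
    apply h
    have h2 := nz_nonneg z
    have h3 := nz_nonneg w
    have hz : z = 0 := nz_eq_zero.1 (by linarith)
    have hw : w = 0 := nz_eq_zero.1 (by linarith)
    rw [hz, hw]
    rfl

lemma vec_ne {z w : ℂ} (h : (z, w) ≠ 0) : ‖vec z w‖ ≠ 0 := by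
  rw [norm_vec]
  exact (Real.sqrt_pos.2 (norm_pos h)).ne'

lemma coe_toS {z w : ℂ} (h : (z, w) ≠ 0) :
    ((toS z w : Sph 3) : EuclideanSpace ℝ (Fin 4)) = ‖vec z w‖⁻¹ • vec z w := by
  unfold toS
  rw [dif_neg (vec_ne h)]

lemma vec_coord (s : Sph 3) : vec (zc s) (wc s) = (s : EuclideanSpace ℝ (Fin 4)) := by
  ext i
  fin_cases i <;> simp [vec, zc, wc]

lemma sum_one (s : Sph 3) : nz (zc s) + nz (wc s) = 1 := by
  have h1 : ‖(s : EuclideanSpace ℝ (Fin 4))‖ = 1 := by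
    have := s.2
    rwa [mem_sphere_zero_iff_norm] at this
  have h2 := norm_vec (zc s) (wc s)
  rw [vec_coord, h1] at h2
  have h3 : (0 : ℝ) ≤ nz (zc s) + nz (wc s) := add_nonneg (nz_nonneg _) (nz_nonneg _)
  rw [← Real.sq_sqrt h3, ← h2]
  norm_num

lemma ne_zero (s : Sph 3) : (zc s, wc s) ≠ 0 := by
  intro h
  have h1 := sum_one s
  have h2 : zc s = 0 := congrArg Prod.fst h
  have h3 : wc s = 0 := congrArg Prod.snd h
  rw [h2, h3, nz_eq_zero.2 rfl] at h1
  norm_num at h1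

lemma zc_eq (s : Sph 3) : zc s = ((s.1 0 : ℝ) : ℂ) + ((s.1 1 : ℝ) : ℂ) * Complex.I := by
  apply Complex.ext <;> simp [zc]

lemma wc_eq (s : Sph 3) : wc s = ((s.1 2 : ℝ) : ℂ) + ((s.1 3 : ℝ) : ℂ) * Complex.I := by
  apply Complex.ext <;> simp [wc]

lemma cont_zc : Continuous zc := by
  rw [show zc = fun s : Sph 3 => ((s.1 0 : ℝ) : ℂ) + ((s.1 1 : ℝ) : ℂ) * Complex.I from
    funext zc_eq]
  fun_prop

lemma cont_wc : Continuous wc := by
  rw [show wc = fun s : Sph 3 => ((s.1 2 : ℝ) : ℂ) + ((s.1 3 : ℝ) : ℂ) * Complex.I from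
    funext wc_eq]
  fun_prop

lemma inj {s s' : Sph 3} (h : zc s = zc s') (h' : wc s = wc s') : s = s' := by
  apply Subtype.ext
  rw [← vec_coord s, ← vec_coord s', h, h']

lemma rot_zc (u : Circle) (s : Sph 3) : zc (rotH u s) = u * zc s := by
  apply Complex.ext
  · change (u : ℂ).re * s.1 0 - (u : ℂ).im * s.1 1 = _
    rw [Complex.mul_re]
    rfl
  · change (u : ℂ).im * s.1 0 + (u : ℂ).re * s.1 1 = _
    rw [Complex.mul_im, add_comm]
    rfl

lemma rot_wc (u : Circle) (s : Sph 3) : wc (rotH u s) = u * wc s := by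
  apply Complex.ext
  · change (u : ℂ).re * s.1 2 - (u : ℂ).im * s.1 3 = _
    rw [Complex.mul_re]
    rfl
  · change (u : ℂ).im * s.1 2 + (u : ℂ).re * s.1 3 = _
    rw [Complex.mul_im, add_comm]
    rfl

lemma toS_coord (s : Sph 3) : toS (zc s) (wc s) = s := by
  apply Subtype.ext
  rw [coe_toS (ne_zero s), vec_coord]
  have h1 : ‖(s : EuclideanSpace ℝ (Fin 4))‖ = 1 := by
    have := s.2
    rwa [mem_sphere_zero_iff_norm] at this
  rw [h1, inv_one, one_smul]

lemma zc_toS {z w : ℂ} (h : (z, w) ≠ 0) : zc (toS z w) = z / (Real.sqrt (nz z + nz w) : ℝ) := by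
  have h1 := coe_toS h
  rw [norm_vec] at h1
  rw [div_eq_inv_mul, ← Complex.ofReal_inv]
  apply Complex.ext
  · change (toS z w).1 0 = _
    rw [h1, Complex.re_ofReal_mul]
    simp [vec]
  · change (toS z w).1 1 = _
    rw [h1, Complex.im_ofReal_mul]
    simp [vec]

lemma wc_toS {z w : ℂ} (h : (z, w) ≠ 0) : wc (toS z w) = w / (Real.sqrt (nz z + nz w) : ℝ) := by
  have h1 := coe_toS h
  rw [norm_vec] at h1
  rw [div_eq_inv_mul, ← Complex.ofReal_inv]
  apply Complex.ext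
  · change (toS z w).1 2 = _
    rw [h1, Complex.re_ofReal_mul]
    simp [vec]
  · change (toS z w).1 3 = _
    rw [h1, Complex.im_ofReal_mul]
    simp [vec]

lemma nz_real_mul (r : ℝ) (z : ℂ) : nz (r * z) = r ^ 2 * nz z := by
  unfold nz
  rw [map_mul, Complex.normSq_ofReal, sq]

lemma toS_real (r : ℝ) (z w : ℂ) (hr : 0 < r) : toS (r * z) (r * w) = toS z w := by
  by_cases h : (z, w) = 0
  · have hz : z = 0 := congrArg Prod.fst h
    have hw : w = 0 := congrArg Prod.snd h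
    rw [hz, hw, mul_zero]
  · have hr0 : (r : ℂ) ≠ 0 := by exact_mod_cast hr.ne'
    have h' : ((r : ℂ) * z, (r : ℂ) * w) ≠ 0 := by
      intro h1
      apply h
      have h2 : (r : ℂ) * z = 0 := congrArg Prod.fst h1
      have h3 : (r : ℂ) * w = 0 := congrArg Prod.snd h1
      rw [(mul_eq_zero.1 h2).resolve_left hr0, (mul_eq_zero.1 h3).resolve_left hr0]
      rfl
    have hs : Real.sqrt (nz ((r : ℂ) * z) + nz ((r : ℂ) * w)) = r * Real.sqrt (nz z + nz w) := by
      rw [nz_real_mul, nz_real_mul, ← mul_add, Real.sqrt_mul (sq_nonneg r), Real.sqrt_sq hr.le]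
    apply inj
    · rw [zc_toS h', zc_toS h, hs, Complex.ofReal_mul]
      exact mul_div_mul_left _ _ hr0
    · rw [wc_toS h', wc_toS h, hs, Complex.ofReal_mul]
      exact mul_div_mul_left _ _ hr0

lemma nz_circle_mul (u : Circle) (z : ℂ) : nz (u * z) = nz z := by
  unfold nz
  rw [map_mul, Circle.normSq_coe, one_mul]

lemma toS_circle (u : Circle) (z w : ℂ) (h : (z, w) ≠ 0) :
    toS (u * z) (u * w) = rotH u (toS z w) := by
  have hu : (u : ℂ) ≠ 0 := Circle.coe_ne_zero u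
  have h' : ((u : ℂ) * z, (u : ℂ) * w) ≠ 0 := by
    intro h1
    apply h
    have h2 : (u : ℂ) * z = 0 := congrArg Prod.fst h1
    have h3 : (u : ℂ) * w = 0 := congrArg Prod.snd h1
    rw [(mul_eq_zero.1 h2).resolve_left hu, (mul_eq_zero.1 h3).resolve_left hu]
    rfl
  apply inj
  · rw [rot_zc, zc_toS h', zc_toS h, nz_circle_mul, nz_circle_mul, mul_div_assoc]
  · rw [rot_wc, wc_toS h', wc_toS h, nz_circle_mul, nz_circle_mul, mul_div_assoc]

lemma cont_toS {X : Type} [TopologicalSpace X] {P Q : X → ℂ} (hP : Continuous P)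
    (hQ : Continuous Q) (h : ∀ x, (P x, Q x) ≠ 0) : Continuous (fun x => toS (P x) (Q x)) := by
  have h1 : Continuous fun x => vec (P x) (Q x) := by
    unfold vec
    fun_prop
  apply continuous_induced_rng.2
  have h2 : ((Subtype.val : Sph 3 → EuclideanSpace ℝ (Fin 4)) ∘ fun x => toS (P x) (Q x))
      = fun x => ‖vec (P x) (Q x)‖⁻¹ • vec (P x) (Q x) := by
    funext x
    exact coe_toS (h x)
  rw [h2]
  exact (h1.norm.inv₀ fun x => vec_ne (h x)).smul h1

lemma P_ne (s : Sph 3) :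
    (zc s ^ 2 + starRingEnd ℂ (wc s) ^ 3, zc s * wc s) ≠ 0 := by
  intro h
  have h1 : zc s ^ 2 + starRingEnd ℂ (wc s) ^ 3 = 0 := congrArg Prod.fst h
  have h2 : zc s * wc s = 0 := congrArg Prod.snd h
  apply ne_zero s
  rcases mul_eq_zero.1 h2 with h3 | h3
  · rw [h3, zero_pow two_ne_zero, zero_add] at h1
    have h4 : wc s = 0 := (map_eq_zero (starRingEnd ℂ)).1 (pow_eq_zero_iff three_ne_zero |>.1 h1)
    rw [h3, h4]
    rfl
  · rw [h3, map_zero, zero_pow three_ne_zero, add_zero] at h1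
    have h4 : zc s = 0 := pow_eq_zero_iff two_ne_zero |>.1 h1
    rw [h3, h4]
    rfl

lemma G_ne (s : Sph 3) : (starRingEnd ℂ (zc s) ^ 2 + wc s ^ 3,
    starRingEnd ℂ (zc s) * starRingEnd ℂ (wc s)) ≠ 0 := by
  intro h
  have h1 : starRingEnd ℂ (zc s) ^ 2 + wc s ^ 3 = 0 := congrArg Prod.fst h
  have h2 : starRingEnd ℂ (zc s) * starRingEnd ℂ (wc s) = 0 := congrArg Prod.snd h
  apply P_ne s
  have h3 : zc s ^ 2 + starRingEnd ℂ (wc s) ^ 3 = 0 := by
    have := congrArg (starRingEnd ℂ) h1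
    simpa using this
  have h4 : zc s * wc s = 0 := by
    have := congrArg (starRingEnd ℂ) h2
    simpa using this
  rw [h3, h4]
  rfl

lemma cont_FP : Continuous FP := by
  refine cont_toS ?_ ?_ P_ne
  · have := cont_zc
    have := cont_wc
    exact (cont_zc.pow 2).add ((Complex.continuous_conj.comp cont_wc).pow 3)
  · exact cont_zc.mul cont_wc

lemma cont_FG : Continuous FG := by
  refine cont_toS ?_ ?_ G_ne
  · exact ((Complex.continuous_conj.comp cont_zc).pow 2).add (cont_wc.pow 3)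
  · exact (Complex.continuous_conj.comp cont_zc).mul (Complex.continuous_conj.comp cont_wc)

lemma conj_circle (u : Circle) : starRingEnd ℂ (u : ℂ) = (u : ℂ)⁻¹ := by
  rw [← Circle.coe_inv_eq_conj, Circle.coe_inv]

/-- The rotations of the two sides. -/
lemma act_eq (g : Cyc 5) : ∃ u : Circle, u ^ 5 = 1 ∧
    ∀ σ : Side, act5 σ g = rotH (u ^ σ.k) := by
  refine ⟨ZMod.toCircle (N := 5) (Multiplicative.toAdd g), ?_, ?_⟩
  · rw [← AddChar.map_nsmul_eq_pow]
    have : (5 : ℕ) • Multiplicative.toAdd g = 0 := by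
      rw [nsmul_eq_mul]
      have : ((5 : ℕ) : ZMod 5) = 0 := by decide
      rw [this, zero_mul]
    rw [this, AddChar.map_zero_eq_one]
  · intro σ
    change rotH (ZMod.toCircle (N := 5) (Multiplicative.toAdd (g ^ σ.k))) = _
    rw [toAdd_pow, AddChar.map_nsmul_eq_pow]

lemma eqv_FP : EqvS .src .tgt FP := by
  intro g s
  obtain ⟨u, hu, hact⟩ := act_eq g
  rw [hact, hact]
  change FP (rotH (u ^ 1) s) = rotH (u ^ 2) (FP s)
  rw [pow_one]
  have hu0 : (u : ℂ) ≠ 0 := Circle.coe_ne_zero u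
  have hu5 : (u : ℂ) ^ 5 = 1 := by
    rw [← Circle.coe_pow, hu, Circle.coe_one]
  have h3 : (u : ℂ)⁻¹ ^ 3 = (u : ℂ) ^ 2 := by
    rw [inv_pow]
    apply inv_eq_of_mul_eq_one_left
    rw [← pow_add, hu5]
  unfold FP
  rw [← toS_circle (u ^ 2) _ _ (P_ne s), rot_zc, rot_wc, Circle.coe_pow]
  congr 1
  · rw [map_mul, conj_circle, mul_pow, mul_pow, h3]
    ring
  · ring

lemma eqv_FG : EqvS .tgt .src FG := by
  intro g s
  obtain ⟨u, hu, hact⟩ := act_eq g
  rw [hact, hact]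
  change FG (rotH (u ^ 2) s) = rotH (u ^ 1) (FG s)
  rw [pow_one]
  have hu0 : (u : ℂ) ≠ 0 := Circle.coe_ne_zero u
  have hu5 : (u : ℂ) ^ 5 = 1 := by
    rw [← Circle.coe_pow, hu, Circle.coe_one]
  have h3 : ((u : ℂ)⁻¹ ^ 2) ^ 2 = (u : ℂ) := by
    rw [← pow_mul, inv_pow]
    apply inv_eq_of_mul_eq_one_left
    rw [← pow_succ', hu5]
  unfold FG
  rw [← toS_circle u _ _ (G_ne s), rot_zc, rot_wc, Circle.coe_pow]
  congr 1
  · rw [map_mul, map_pow, conj_circle, mul_pow, mul_pow, h3]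
    linear_combination (u : ℂ) * wc s ^ 3 * hu5
  · rw [map_mul, map_mul, map_pow, conj_circle]
    linear_combination (starRingEnd ℂ) (zc s) * (starRingEnd ℂ) (wc s) * h3

end S3Aux

open S3Aux in
/-- Module S3. -/
theorem stS3 : StS3 :=
  ⟨cont_zc, cont_wc, sum_one, fun _ _ => inj, fun u s => ⟨rot_zc u s, rot_wc u s⟩, toS_coord,
    fun _ _ h => ⟨zc_toS h, wc_toS h⟩, toS_real, toS_circle,
    fun _ _ _ _ hP hQ h => cont_toS hP hQ h, cont_FP, cont_FG, eqv_FP, eqv_FG⟩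

end Pool.Agent.Lib.MP_39dc45_gt.SP
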