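import Pool.Agent.Lib.MP_39dc45_gt.SP.StT

/-!
# MP_39dc45_gt: sector coordinates
-/

open scoped Topology
open Matrix

noncomputable section

namespace Pool.Agent.Lib.MP_39dc45_gt.SP

namespace SecM

variable (m : ℕ) [NeZero m]

theorem eC_add (k l : ZMod m) : eC m (k + l) = eC m k * eC m l := by
  unfold eC
  rw [AddChar.map_add_eq_mul, Circle.coe_mul]

theorem eC_zero : eC m 0 = 1 := by
  unfold eC
  rw [AddChar.map_zero_eq_one, Circle.coe_one]

theorem eC_neg (k : ZMod m) : eC m (-k) = starRingEnd ℂ (eC m k) := by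
  unfold eC
  rw [AddChar.map_neg_eq_inv, Circle.coe_inv_eq_conj]

theorem eC_conj_mul (k l : ZMod m) : starRingEnd ℂ (eC m k) * eC m l = eC m (l - k) := by
  rw [← eC_neg, ← eC_add]
  congr 1
  ring

theorem eC_int (n : ℤ) : eC m (n : ZMod m) = Complex.exp ((n * (2 * Real.pi / m) : ℝ) * Complex.I) := by
  unfold eC
  rw [ZMod.toCircle_intCast]
  congr 1
  push_cast
  ring

theorem eC_nat (n : ℕ) : eC m (n : ZMod m) = Complex.exp ((n * (2 * Real.pi / m) : ℝ) * Complex.I) := by
  have := eC_int m (n : ℤ)
  push_cast at this ⊢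
  exact this

theorem eC_im (n : ℕ) : (eC m (n : ZMod m)).im = Real.sin (n * (2 * Real.pi / m)) := by
  rw [eC_nat, Complex.exp_ofReal_mul_I_im]

/-- the imaginary part of a root of unity in the upper half plane -/
theorem im_nonneg {n : ℕ} (h : 2 * n ≤ m) : 0 ≤ (eC m (n : ZMod m)).im := by
  have hm : (0 : ℝ) < m := Nat.cast_pos.2 (Nat.pos_of_neZero m)
  have hp := Real.pi_pos
  rw [eC_im]
  apply Real.sin_nonneg_of_nonneg_of_le_pi
  · positivity
  · have h1 : (2 * n : ℝ) ≤ m := by exact_mod_cast h
    have h2 : (n : ℝ) * (2 * Real.pi / m) = (2 * n) * Real.pi / m := by ring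
    rw [h2, div_le_iff₀ hm]
    nlinarith

/-- the imaginary part of a root of unity in the lower half plane -/
theorem im_nonpos {n : ℕ} (h : m ≤ 2 * n) (h' : n ≤ m) : (eC m (n : ZMod m)).im ≤ 0 := by
  have h1 : (n : ZMod m) = -(((m - n : ℕ) : ZMod m)) := by
    rw [Nat.cast_sub h', ZMod.natCast_self]
    ring
  rw [h1, eC_neg, Complex.conj_im]
  have := im_nonneg m (n := m - n) (by omega)
  linarith

theorem im_zero : (eC m 0).im = 0 := by
  rw [eC_zero]
  rfl

theorem im_one : (eC m 1).im = Real.sin (2 * Real.pi / m) := by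
  have := eC_im m 1
  rw [Nat.cast_one, Nat.cast_one, one_mul] at this
  exact this

variable {m}

theorem sin_pos (hm : 4 ≤ m) : 0 < Real.sin (2 * Real.pi / m) := by
  have h0 : (0 : ℝ) < m := Nat.cast_pos.2 (by omega)
  have hp := Real.pi_pos
  apply Real.sin_pos_of_pos_of_lt_pi
  · positivity
  · rw [div_lt_iff₀ h0]
    have h1 : (4 : ℝ) ≤ m := by exact_mod_cast hm
    nlinarith

/-- the two sides of the sector condition for the point `a e_k + b e_{k+1}` -/
theorem first (a b : ℝ) (k x : ZMod m) :
    (starRingEnd ℂ (a * eC m k + b * eC m (k + 1)) * eC m (k + x + 1)).im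
      = a * (eC m (x + 1)).im + b * (eC m x).im := by
  have h : starRingEnd ℂ (a * eC m k + b * eC m (k + 1)) * eC m (k + x + 1)
      = a * eC m (x + 1) + b * eC m x := by
    rw [map_add, map_mul, map_mul, Complex.conj_ofReal, Complex.conj_ofReal, add_mul, mul_assoc,
      mul_assoc, eC_conj_mul, eC_conj_mul]
    have e1 : k + x + 1 - k = x + 1 := by ring
    have e2 : k + x + 1 - (k + 1) = x := by ring
    rw [e1, e2]
  rw [h, Complex.add_im, Complex.im_ofReal_mul, Complex.im_ofReal_mul]

theorem second (a b : ℝ) (k x : ZMod m) :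
    (starRingEnd ℂ (eC m (k + x - 1)) * (a * eC m k + b * eC m (k + 1))).im
      = a * (eC m (1 - x)).im + b * (eC m (2 - x)).im := by
  have h : starRingEnd ℂ (eC m (k + x - 1)) * (a * eC m k + b * eC m (k + 1))
      = a * eC m (1 - x) + b * eC m (2 - x) := by
    rw [mul_add, mul_left_comm, eC_conj_mul, mul_left_comm, eC_conj_mul]
    have e1 : k - (k + x - 1) = 1 - x := by ring
    have e2 : k + 1 - (k + x - 1) = 2 - x := by ring
    rw [e1, e2]
  rw [h, Complex.add_im, Complex.im_ofReal_mul, Complex.im_ofReal_mul]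

theorem sec_comb (hm : 4 ≤ m) (k : ZMod m) (a b : ℝ) (ha : 0 ≤ a) (hb : 0 ≤ b) (j : ZMod m) :
    sec m (a * eC m k + b * eC m (k + 1)) j = if j = k then a else if j = k + 1 then b else 0 := by
  have hs := sin_pos hm
  obtain ⟨x, rfl⟩ : ∃ x, j = k + x := ⟨j - k, by ring⟩
  unfold sec
  rw [first, second]
  have e1 : k + x = k ↔ x = 0 := by simp
  have e2 : k + x = k + 1 ↔ x = 1 := by simp
  have h2 : 0 ≤ (eC m 2).im := by
    have := im_nonneg m (n := 2) (by omega)
    simpa using this
  by_cases hx : x = 0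
  · subst hx
    rw [if_pos (e1.2 rfl), zero_add, sub_zero, sub_zero, im_zero, mul_zero, add_zero,
      min_eq_left (le_add_of_nonneg_right (mul_nonneg hb h2)), im_one,
      max_eq_right (mul_nonneg ha hs.le), mul_div_assoc, div_self hs.ne', mul_one]
  rw [if_neg (fun h => hx (e1.1 h))]
  by_cases hx1 : x = 1
  · subst hx1
    have h3 : (2 : ZMod m) - 1 = 1 := by ring
    have h4 : (1 : ZMod m) + 1 = 2 := by ring
    rw [if_pos rfl, sub_self, im_zero, mul_zero, zero_add, h3, h4,
      min_eq_right (le_add_of_nonneg_left (mul_nonneg ha h2)), im_one,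
      max_eq_right (mul_nonneg hb hs.le), mul_div_assoc, div_self hs.ne', mul_one]
  rw [if_neg (fun h => hx1 (e2.1 h))]
  obtain ⟨n, hn, rfl⟩ : ∃ n : ℕ, n < m ∧ (n : ZMod m) = x := ⟨x.val, x.val_lt, by simp⟩
  have hn0 : n ≠ 0 := by
    rintro rfl
    exact hx Nat.cast_zero
  have hn1 : n ≠ 1 := by
    rintro rfl
    exact hx1 Nat.cast_one
  have key : min (a * (eC m ((n : ZMod m) + 1)).im + b * (eC m (n : ZMod m)).im)
      (a * (eC m (1 - (n : ZMod m))).im + b * (eC m (2 - (n : ZMod m))).im) ≤ 0 := by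
    rcases le_total m (2 * n) with h | h
    · apply (min_le_left _ _).trans
      have h3 := im_nonpos m h hn.le
      have h4 := im_nonpos m (n := n + 1) (by omega) (by omega)
      push_cast at h4
      have h5 := mul_nonpos_of_nonneg_of_nonpos ha h4
      have h6 := mul_nonpos_of_nonneg_of_nonpos hb h3
      linarith
    · apply (min_le_right _ _).trans
      have h3 := im_nonneg m (n := n - 1) (by omega)
      have h4 := im_nonneg m (n := n - 2) (by omega)
      rw [Nat.cast_sub (by omega)] at h3 h4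
      push_cast at h3 h4
      have e3 : (1 : ZMod m) - n = -(n - 1) := by ring
      have e4 : (2 : ZMod m) - n = -(n - 2) := by ring
      rw [e3, e4, eC_neg, eC_neg, Complex.conj_im, Complex.conj_im]
      have h5 := mul_nonneg ha h3
      have h6 := mul_nonneg hb h4
      linarith
  rw [max_eq_left key, zero_div]

/-- every point lies in a sector -/
theorem exists_comb (hm : 4 ≤ m) (z : ℂ) : ∃ (k : ZMod m) (a b : ℝ), 0 ≤ a ∧ 0 ≤ b ∧
    z = a * eC m k + b * eC m (k + 1) := by
  have hs := sin_pos hm
  have h0 : (0 : ℝ) < m := Nat.cast_pos.2 (by omega)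
  have hp := Real.pi_pos
  have h4 : (4 : ℝ) ≤ m := by exact_mod_cast hm
  set δ : ℝ := 2 * Real.pi / m with hδ
  have hδ0 : 0 < δ := by positivity
  have hδp : δ ≤ Real.pi := by
    rw [hδ, div_le_iff₀ h0]
    nlinarith
  set n : ℤ := ⌊z.arg / δ⌋ with hn
  set φ : ℝ := z.arg - n * δ with hφ
  have hφ0 : 0 ≤ φ := by
    have h1 := Int.floor_le (z.arg / δ)
    rw [← hn, le_div_iff₀ hδ0] at h1
    rw [hφ]
    linarith
  have hφ1 : φ ≤ δ := by
    have h1 := (Int.lt_floor_add_one (z.arg / δ)).le
    rw [← hn, div_le_iff₀ hδ0] at h1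
    rw [hφ]
    linarith
  refine ⟨(n : ZMod m), ‖z‖ * Real.sin (δ - φ) / Real.sin δ, ‖z‖ * Real.sin φ / Real.sin δ,
    ?_, ?_, ?_⟩
  · apply div_nonneg _ hs.le
    apply mul_nonneg (norm_nonneg _)
    exact Real.sin_nonneg_of_nonneg_of_le_pi (by linarith) (by linarith)
  · apply div_nonneg _ hs.le
    apply mul_nonneg (norm_nonneg _)
    exact Real.sin_nonneg_of_nonneg_of_le_pi hφ0 (by linarith)
  · have hsC : (Real.sin δ : ℂ) ≠ 0 := by exact_mod_cast hs.ne'
    have e1 : eC m 1 = Complex.exp ((δ : ℝ) * Complex.I) := by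
      have := eC_int m 1
      push_cast at this
      rw [one_mul] at this
      rw [this, hδ]
      push_cast
      rfl
    have e2 : eC m (n : ZMod m) = Complex.exp ((n * δ : ℝ) * Complex.I) := eC_int m n
    rw [eC_add, e1]
    have hz : z = ‖z‖ * (eC m (n : ZMod m) * Complex.exp ((φ : ℝ) * Complex.I)) := by
      rw [e2, ← Complex.exp_add, ← add_mul, ← Complex.ofReal_add]
      have : (n * δ + φ : ℝ) = z.arg := by rw [hφ]; ring
      rw [this]
      exact (Complex.norm_mul_exp_arg_mul_I z).symm
    have key : (Real.sin (δ - φ) : ℂ) + Real.sin φ * Complex.exp ((δ : ℝ) * Complex.I)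
        = Real.sin δ * Complex.exp ((φ : ℝ) * Complex.I) := by
      apply Complex.ext
      · rw [Complex.add_re, Complex.re_ofReal_mul, Complex.re_ofReal_mul,
          Complex.exp_ofReal_mul_I_re, Complex.exp_ofReal_mul_I_re, Complex.ofReal_re,
          Real.sin_sub]
        ring
      · rw [Complex.add_im, Complex.im_ofReal_mul, Complex.im_ofReal_mul,
          Complex.exp_ofReal_mul_I_im, Complex.exp_ofReal_mul_I_im, Complex.ofReal_im]
        ring
    conv_lhs => rw [hz]
    push_cast at key ⊢
    have h5 : ((‖z‖ : ℂ) * Complex.sin (δ - φ) / Complex.sin δ) * eC m (n : ZMod m)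
        + (‖z‖ : ℂ) * Complex.sin φ / Complex.sin δ * (eC m (n : ZMod m)
          * Complex.exp (δ * Complex.I))
        = ‖z‖ * eC m (n : ZMod m) * ((Complex.sin (δ - φ)
          + Complex.sin φ * Complex.exp (δ * Complex.I)) / Complex.sin δ) := by ring
    rw [h5, key]
    have hsC' : Complex.sin (δ : ℂ) ≠ 0 := by
      rw [← Complex.ofReal_sin]
      exact hsC
    rw [mul_div_assoc, mul_div_assoc']
    field_simp

end SecM

open SecM

/-- Module Sec. -/
theorem stSec : StSec := by
  intro m _ hm
  have hs := sin_pos (m := m) hm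
  have hnn : ∀ z k, 0 ≤ sec m z k := fun z k => div_nonneg (le_max_left _ _) hs.le
  have hc : ∀ k, Continuous fun z => sec m z k := by
    intro k
    unfold sec
    have h1 : Continuous fun z : ℂ => (starRingEnd ℂ z * eC m (k + 1)).im :=
      Complex.continuous_im.comp (Complex.continuous_conj.mul continuous_const)
    have h2 : Continuous fun z : ℂ => (starRingEnd ℂ (eC m (k - 1)) * z).im :=
      Complex.continuous_im.comp (continuous_const.mul continuous_id)
    exact (continuous_const.max (h1.min h2)).div_const _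
  have hsum : ∀ z, z = ∑ k, (sec m z k : ℂ) * eC m k := by
    intro z
    obtain ⟨k, a, b, ha, hb, hz⟩ := exists_comb hm z
    have h1 : ∀ j, sec m z j = if j = k then a else if j = k + 1 then b else 0 := by
      intro j
      rw [hz]
      exact sec_comb hm k a b ha hb j
    have hne : k + 1 ≠ k := by
      intro h
      have h2 : (1 : ZMod m) = 0 := by
        have := add_left_cancel (a := k) (b := 1) (c := 0) (by rw [add_zero]; exact h)
        exact this
      have h3 : ((1 : ℕ) : ZMod m) = 0 := by rw [Nat.cast_one]; exact h2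
      rw [ZMod.natCast_eq_zero_iff] at h3
      have := Nat.le_of_dvd one_pos h3
      omega
    have h2 : ∀ j, (sec m z j : ℂ) * eC m j
        = (if j = k then (a : ℂ) * eC m k else 0)
          + (if j = k + 1 then (b : ℂ) * eC m (k + 1) else 0) := by
      intro j
      rw [h1]
      by_cases hj : j = k
      · subst hj
        rw [if_pos rfl, if_pos rfl, if_neg (fun h => hne h.symm), add_zero]
      · rw [if_neg hj, if_neg hj, zero_add]
        by_cases hj' : j = k + 1
        · rw [if_pos hj', if_pos hj', hj']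
        · rw [if_neg hj', if_neg hj', Complex.ofReal_zero, zero_mul]
    rw [Finset.sum_congr rfl fun j _ => h2 j, Finset.sum_add_distrib, Finset.sum_ite_eq',
      Finset.sum_ite_eq', if_pos (Finset.mem_univ _), if_pos (Finset.mem_univ _)]
    exact hz
  refine ⟨exists_comb hm, sec_comb hm, hc, ?_, ?_, hsum, hnn, ?_, ?_, ?_⟩
  · intro l z k
    unfold sec
    have e1 : starRingEnd ℂ (eC m l * z) * eC m (k + l + 1) = starRingEnd ℂ z * eC m (k + 1) := by
      have h1 : k + l + 1 = l + (k + 1) := by ring
      have h2 : starRingEnd ℂ (eC m l) * eC m l = 1 := by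
        rw [eC_conj_mul, sub_self, eC_zero]
      rw [map_mul, h1, eC_add m l (k + 1)]
      calc _ = (starRingEnd ℂ (eC m l) * eC m l) * (starRingEnd ℂ z * eC m (k + 1)) := by ring
        _ = _ := by rw [h2, one_mul]
    have e2 : starRingEnd ℂ (eC m (k + l - 1)) * (eC m l * z)
        = starRingEnd ℂ (eC m (k - 1)) * z := by
      rw [← mul_assoc, eC_conj_mul, ← eC_neg]
      congr 2
      ring
    rw [e1, e2]
  · intro t z k ht
    unfold sec
    have e1 : (starRingEnd ℂ (t * z) * eC m (k + 1)).im
        = t * (starRingEnd ℂ z * eC m (k + 1)).im := by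
      rw [map_mul, Complex.conj_ofReal, mul_assoc, Complex.im_ofReal_mul]
    have e2 : (starRingEnd ℂ (eC m (k - 1)) * (t * z)).im
        = t * (starRingEnd ℂ (eC m (k - 1)) * z).im := by
      rw [mul_left_comm, Complex.im_ofReal_mul]
    rw [e1, e2, ← mul_min_of_nonneg _ _ ht, ← mul_div_assoc, mul_max_of_nonneg _ _ ht, mul_zero]
  · unfold sN
    exact continuous_finsetSum _ fun k _ => hc k
  · intro z
    constructor
    · intro h
      have h1 := (Finset.sum_eq_zero_iff_of_nonneg fun k _ => hnn z k).1 h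
      rw [hsum z]
      refine Finset.sum_eq_zero fun k hk => ?_
      rw [h1 k hk, Complex.ofReal_zero, zero_mul]
    · rintro rfl
      unfold sN
      refine Finset.sum_eq_zero fun k _ => ?_
      unfold sec
      simp
  · intro z
    exact Finset.sum_nonneg fun k _ => hnn z k

end Pool.Agent.Lib.MP_39dc45_gt.SP
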