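import Pool.Agent.Lib.MP_39dc45_gt.SP.StA

open Matrix

noncomputable section

namespace Pool.Agent.Lib.MP_39dc45_gt.SP

theorem stTorK : StFen0 → StKf → StFen → StJoin → StPsi → StC3 → StTorK := by
  intro h0 hK hF hJ hP h3
  obtain ⟨hT10, hT30⟩ := hF
  have a1 := hJ 10 4 chi5 5 h0.2 hT10
  have a2 := hJ 30 6 chi5 1 h0.2 hT30
  obtain ⟨as, inv, fr⟩ := h0.1 30 6
  obtain ⟨as', inv', fr'⟩ := h0.1 10 4
  have p := hP (Cyc 5) F30 F30 (fenR 30 6) (fenR 30 6) chi5 h0.2 as as inv inv fr fr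
  have asS : Asym (sumR (fenR 30 6) (fenR 30 6)) := by
    rintro (a | a) (b | b) h h'
    · exact as _ _ h h'
    · exact h'
    · exact h
    · exact as _ _ h h'
  have invS : Inv (Cyc 5) (sumR (fenR 30 6) (fenR 30 6)) := by
    rintro γ (a | a) (b | b) h
    · exact inv _ _ _ h
    · trivial
    · exact h.elim
    · exact inv _ _ _ h
  have frS : Free (Cyc 5) (F30 ⊕ F30) := by
    rintro γ (a | a) h
    · exact fr γ a (Sum.inl.inj h)
    · exact fr γ a (Sum.inr.inj h)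
  obtain ⟨aS, aT, iS, iT, fS, fT, sK, eK⟩ := hK
  have simpPsi : IsSimp RS (sumR (fenR 30 6) (fenR 30 6)) (psi : KS → F30 ⊕ F30) := by
    rintro ⟨⟨a, b⟩, ha⟩ ⟨⟨a', b'⟩, ha'⟩ ⟨h1, h2, h3⟩
    rcases a with _ | a <;> rcases b with _ | b
    · exact absurd rfl ha
    all_goals
      rcases a' with _ | a' <;>
        rcases b' with _ | b' <;> simp_all [Rle, optR, psi, sumR]
  have equiPsi : Equi (Cyc 5) (psi : KS → F30 ⊕ F30) := by
    rintro γ ⟨⟨a, b⟩, ha⟩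
    rcases a with _ | a <;> rcases b with _ | b
    · exact absurd rfl ha
    · rfl
    · rfl
    · rfl
  have b1 := (h3 (Cyc 5) KS (F30 ⊕ F30) RS (sumR (fenR 30 6) (fenR 30 6)) psi chi5 h0.2 aS asS iS
    invS fS frS simpPsi equiPsi).2 _ p a2
  have c := (h3 (Cyc 5) KS KT RS RT fK chi5 h0.2 aS aT iS iT fS fT sK eK).1 _ _ a1 b1
  have e : (5 : F31) * 5 * (1 * 1)⁻¹ = 25 := by
    rw [mul_one, inv_one, mul_one]; rfl
  rw [e] at c
  exact c

end Pool.Agent.Lib.MP_39dc45_gt.SP
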