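import Pool.Agent.Lib.MP_39dc45_gt.SP.StT

/-!
# MP_39dc45_gt: the triangulation of the disc
-/

open scoped Topology
open Matrix

noncomputable section

namespace Pool.Agent.Lib.MP_39dc45_gt.SP

namespace TriDAux

theorem sum_filter_ne {V : Type} [DecidableEq V] (y : V → ℝ) (l : List V) :
    ((l.filter (fun v => decide (y v ≠ 0))).map y).sum = (l.map y).sum := by
  induction l with
  | nil => simp
  | cons a l ih =>
    by_cases ha : y a = 0
    · rw [List.filter_cons_of_neg (by simp [ha]), ih]
      simp [ha]
    · rw [List.filter_cons_of_pos (by simp [ha]), List.map_cons, List.sum_cons, ih]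
      simp

theorem isPt_of_chain {V : Type} [DecidableEq V] (R : V → V → Prop) (l : List V)
    (hl : l.Pairwise R) (y : V → ℝ) (h0 : ∀ v, 0 ≤ y v) (hs : ∀ v, y v ≠ 0 → v ∈ l)
    (hsum : (l.map y).sum = 1) : IsPt R y := by
  refine ⟨h0, l.filter (fun v => decide (y v ≠ 0)), hl.filter _, ?_, ?_⟩
  · intro v
    rw [List.mem_filter]
    constructor
    · intro h
      exact ⟨hs v h, by simpa using h⟩
    · rintro ⟨_, h⟩
      simpa using h
  · rw [sum_filter_ne, hsum]

theorem even_not : ∀ s : Fen 30 6, Even s.val →
    ¬ Even (s + Fen.of 30 6 1).val ∧ ¬ Even (s - Fen.of 30 6 1).val := by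
  decide +kernel

theorem odd_even : ∀ s : Fen 30 6, ¬ Even s.val → Even (s + Fen.of 30 6 1).val := by
  decide +kernel

theorem fen_asymm (s s' : Fen 30 6) (h : fenR 30 6 s s') : ¬ fenR 30 6 s' s := by
  rintro ⟨h1, _⟩
  rcases h with ⟨h2, h3 | h3⟩
  · rw [h3] at h1
    exact (even_not s h2).1 h1
  · rw [h3] at h1
    exact (even_not s h2).2 h1

theorem opt_asymm (v w : Option F30) (h : optR (fenR 30 6) v w) : ¬ optR (fenR 30 6) w v := by
  cases v with
  | none =>
    cases w with
    | none => exact h.elim
    | some b => exact fun h' => h'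
  | some a =>
    cases w with
    | none => exact h.elim
    | some b => exact fen_asymm a b h

/-- The sum of the coordinates of a point of a sector. -/
theorem sum_ite (k : ZMod 30) (a b : ℝ) :
    ∑ j : ZMod 30, (if j = k then a else if j = k + 1 then b else 0) = a + b := by
  have h1 : ∀ j : ZMod 30, (if j = k then a else if j = k + 1 then b else 0)
      = (if j = k then a else 0) + (if j = k + 1 then b else 0) := by
    intro j
    by_cases hj : j = k
    · subst hj
      have : ¬ (j = j + 1) := by
        intro h
        have : (0 : ZMod 30) = 1 := by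
          have := congrArg (fun x => x - j) h
          simpa using this
        exact absurd this (by decide)
      simp [this]
    · simp [hj]
  rw [Finset.sum_congr rfl (fun j _ => h1 j), Finset.sum_add_distrib]
  simp

theorem sum_ite_mul (k : ZMod 30) (a b : ℝ) (e : ZMod 30 → ℂ) :
    ∑ j : ZMod 30, (((if j = k then a else if j = k + 1 then b else 0 : ℝ) : ℂ) * e j)
      = a * e k + b * e (k + 1) := by
  have h1 : ∀ j : ZMod 30, (((if j = k then a else if j = k + 1 then b else 0 : ℝ) : ℂ) * e j)
      = (if j = k then (a : ℂ) * e j else 0) + (if j = k + 1 then (b : ℂ) * e j else 0) := by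
    intro j
    by_cases hj : j = k
    · subst hj
      have : ¬ (j = j + 1) := by
        intro h
        have : (0 : ZMod 30) = 1 := by
          have := congrArg (fun x => x - j) h
          simpa using this
        exact absurd this (by decide)
      simp [this]
    · by_cases hj' : j = k + 1
      · rw [if_neg hj, if_pos hj', if_neg hj, if_pos hj', zero_add]
      · simp [hj, hj']
  rw [Finset.sum_congr rfl (fun j _ => h1 j), Finset.sum_add_distrib]
  simp

theorem dC_some (z : ℂ) (k : F30) : dC z (some k) = sec 30 z k := rfl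
theorem dC_none (z : ℂ) : dC z none = 1 - sN 30 z := rfl

theorem fenR_succ (k : F30) (hk : Even k.val) : fenR 30 6 k (k + Fen.of 30 6 1) := ⟨hk, Or.inl rfl⟩

theorem fenR_pred (k : F30) (hk : ¬ Even k.val) : fenR 30 6 (k + Fen.of 30 6 1) k :=
  ⟨odd_even k hk, Or.inr (by simp)⟩

/-- A point supported in the cone over an edge is a point. -/
theorem isPt_edge (y : Option F30 → ℝ) (k : F30) (a b : ℝ) (h0 : ∀ v, 0 ≤ y v)
    (hy : ∀ j : F30, y (some j) = if j = k then a else if j = k + Fen.of 30 6 1 then b else 0)
    (hsum : y none + a + b = 1) : IsPt (optR (fenR 30 6)) y := by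
  have hne : ¬ (k + Fen.of 30 6 1 = k) := by
    intro h
    have h1 : Fen.of 30 6 1 = 0 := by simpa using h
    exact absurd h1 (by decide)
  have ha : y (some k) = a := by rw [hy]; simp
  have hb : y (some (k + Fen.of 30 6 1)) = b := by rw [hy, if_neg hne]; simp
  by_cases hk : Even k.val
  · refine isPt_of_chain _ [none, some k, some (k + Fen.of 30 6 1)] ?_ y h0 ?_ ?_
    · have := fenR_succ k hk
      simp [optR, this]
    · intro v hv
      cases v with
      | none => simp
      | some j =>
        rw [hy] at hv
        by_cases h1 : j = k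
        · simp [h1]
        · by_cases h2 : j = k + Fen.of 30 6 1
          · simp [h2]
          · simp [h1, h2] at hv
    · simp [ha, hb]
      linarith
  · refine isPt_of_chain _ [none, some (k + Fen.of 30 6 1), some k] ?_ y h0 ?_ ?_
    · have := fenR_pred k hk
      simp [optR, this]
    · intro v hv
      cases v with
      | none => simp
      | some j =>
        rw [hy] at hv
        by_cases h1 : j = k
        · simp [h1]
        · by_cases h2 : j = k + Fen.of 30 6 1
          · simp [h2]
          · simp [h1, h2] at hv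
    · simp [ha, hb]
      linarith

/-- Comparable elements of the fence are adjacent. -/
theorem adj_of_rel (j j' : F30) (h : fenR 30 6 j j' ∨ fenR 30 6 j' j) :
    j' = j + Fen.of 30 6 1 ∨ j = j' + Fen.of 30 6 1 := by
  rcases h with ⟨_, h | h⟩ | ⟨_, h | h⟩
  · exact Or.inl h
  · right; rw [h]; simp
  · exact Or.inr h
  · left; rw [h]; simp

theorem three_ne (k : F30) : ¬ (k = k + Fen.of 30 6 1 + Fen.of 30 6 1) ∧
    ¬ (k = k + Fen.of 30 6 1 + Fen.of 30 6 1 + Fen.of 30 6 1) ∧ ¬ (k = k + Fen.of 30 6 1) := by
  revert k
  decide +kernel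

/-- The support of a point is contained in an edge. -/
theorem exists_edge (y : Option F30 → ℝ) (hy : IsPt (optR (fenR 30 6)) y) :
    ∃ k : F30, ∀ j : F30, y (some j) = if j = k then y (some k)
      else if j = k + Fen.of 30 6 1 then y (some (k + Fen.of 30 6 1)) else 0 := by
  obtain ⟨h0, l, hl, hs, hsum⟩ := hy
  have hadj : ∀ j j' : F30, y (some j) ≠ 0 → y (some j') ≠ 0 → j ≠ j' →
      j' = j + Fen.of 30 6 1 ∨ j = j' + Fen.of 30 6 1 := by
    intro j j' hj hj' hne
    rw [hs] at hj hj'
    obtain ⟨i, hi, hij⟩ := List.getElem_of_mem hj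
    obtain ⟨i', hi', hij'⟩ := List.getElem_of_mem hj'
    rw [List.pairwise_iff_getElem] at hl
    apply adj_of_rel
    rcases lt_trichotomy i i' with h | h | h
    · left
      have := hl i i' hi hi' h
      rw [hij, hij'] at this
      exact this
    · exfalso
      subst h
      rw [hij] at hij'
      exact hne (Option.some_injective _ hij')
    · right
      have := hl i' i hi' hi h
      rw [hij, hij'] at this
      exact this
  by_cases hex : ∃ j : F30, y (some j) ≠ 0
  · obtain ⟨j, hj⟩ := hex
    by_cases hall : ∀ j' : F30, y (some j') ≠ 0 → j' = j ∨ j' = j + Fen.of 30 6 1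
    · refine ⟨j, fun i => ?_⟩
      by_cases h1 : i = j
      · rw [if_pos h1, h1]
      · rw [if_neg h1]
        by_cases h2 : i = j + Fen.of 30 6 1
        · rw [if_pos h2, h2]
        · rw [if_neg h2]
          by_contra h3
          rcases hall i h3 with h | h
          · exact h1 h
          · exact h2 h
    · push Not at hall
      obtain ⟨j', hj', hne, hne'⟩ := hall
      have hjj : j = j' + Fen.of 30 6 1 := by
        rcases hadj j j' hj hj' (fun h => hne h.symm) with h | h
        · exact absurd h hne'
        · exact h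
      refine ⟨j', fun i => ?_⟩
      by_cases h1 : i = j'
      · rw [if_pos h1, h1]
      · rw [if_neg h1]
        by_cases h2 : i = j' + Fen.of 30 6 1
        · rw [if_pos h2, h2]
        · rw [if_neg h2]
          by_contra h3
          have h4 := hadj i j' h3 hj' h1
          have h5 := hadj i j h3 hj (by rw [hjj]; exact h2)
          obtain ⟨t1, t2, t3⟩ := three_ne i
          rcases h4 with h4 | h4
          · rcases h5 with h5 | h5
            · rw [hjj, h4] at h5
              have h6 : i + Fen.of 30 6 1 + Fen.of 30 6 1 = i + Fen.of 30 6 1 := h5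
              have h7 : Fen.of 30 6 1 = 0 := by simpa using h6
              exact absurd h7 (by decide)
            · rw [hjj, h4] at h5
              exact t2 h5
          · exact h2 h4
  · push Not at hex
    refine ⟨0, fun i => ?_⟩
    simp [hex]

/-- The sum of the values of a function on a chain containing its support. -/
theorem sum_chain (y : Option F30 → ℝ) (l : List (Option F30)) (hl : l.Pairwise (optR (fenR 30 6)))
    (hs : ∀ v, y v ≠ 0 ↔ v ∈ l) : (l.map y).sum = y none + ∑ k : F30, y (some k) := by
  have hnd : l.Nodup := hl.imp (fun {a b} h hab => by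
    subst hab
    exact opt_asymm a a h h)
  rw [← List.sum_toFinset y hnd, ← Fintype.sum_option]
  apply Finset.sum_subset (Finset.subset_univ _)
  intro v _ hv
  by_contra h
  exact hv (List.mem_toFinset.2 ((hs v).1 h))

end TriDAux

open TriDAux

theorem stTriD : StSec → StTriD := by
  intro h
  obtain ⟨h1, h2, h3, h4, h5, h6, h7, h8, h9, h10⟩ := h 30 (by norm_num)
  have hsN : ∀ (k : ZMod 30) (a b : ℝ), 0 ≤ a → 0 ≤ b →
      sN 30 (a * eC 30 k + b * eC 30 (k + 1)) = a + b := by
    intro k a b ha hb
    unfold sN
    rw [Finset.sum_congr rfl (fun j _ => h2 k a b ha hb j)]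
    exact sum_ite k a b
  have hpt : ∀ z : ℂ, sN 30 z ≤ 1 → IsPt (optR (fenR 30 6)) (dC z) := by
    intro z hz
    obtain ⟨k, a, b, ha, hb, hzk⟩ := h1 z
    have hs := hsN k a b ha hb
    rw [← hzk] at hs
    apply isPt_edge (dC z) k a b
    · intro v
      cases v with
      | none => rw [dC_none]; linarith
      | some j => exact h7 z j
    · intro j
      rw [dC_some]
      have := h2 k a b ha hb j
      rw [← hzk] at this
      exact this
    · rw [dC_none, hs]
      ring
  have hclosed : IsClosed {z : ℂ | sN 30 z ≤ 1} := isClosed_le h8 continuous_const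
  have hbd : ∀ z : ℂ, ‖z‖ ≤ sN 30 z := by
    intro z
    calc ‖z‖ = ‖∑ k, (sec 30 z k : ℂ) * eC 30 k‖ := by rw [← h6 z]
      _ ≤ ∑ k, ‖(sec 30 z k : ℂ) * eC 30 k‖ := norm_sum_le _ _
      _ = ∑ k, sec 30 z k := by
          apply Finset.sum_congr rfl
          intro k _
          rw [norm_mul]
          have : ‖eC 30 k‖ = 1 := Circle.norm_coe _
          rw [this, mul_one, Complex.norm_real, Real.norm_of_nonneg (h7 z k)]
      _ = sN 30 z := rfl
  have hcomp : IsCompact {z : ℂ | sN 30 z ≤ 1} := by
    apply (isCompact_closedBall (0 : ℂ) 1).of_isClosed_subset hclosed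
    intro z hz
    rw [mem_closedBall_zero_iff]
    exact (hbd z).trans hz
  have : CompactSpace {z : ℂ // sN 30 z ≤ 1} := isCompact_iff_compactSpace.1 hcomp
  have hcont : ∀ v, Continuous fun z : {z : ℂ // sN 30 z ≤ 1} => dC (z : ℂ) v := by
    intro v
    cases v with
    | none =>
      change Continuous fun z : {z : ℂ // sN 30 z ≤ 1} => 1 - sN 30 (z : ℂ)
      exact continuous_const.sub (h8.comp continuous_subtype_val)
    | some k =>
      change Continuous fun z : {z : ℂ // sN 30 z ≤ 1} => sec 30 (z : ℂ) k
      exact (h3 k).comp continuous_subtype_val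
  refine ⟨⟨opt_asymm, hcont, ?_, ?_, ?_, ?_⟩, ?_⟩
  · exact locallyFinite_of_finite _
  · intro x
    exact hpt x.1 x.2
  · intro y hy
    obtain ⟨k, hk⟩ := exists_edge y hy
    obtain ⟨h0, l, hl, hs, hsum⟩ := hy
    rw [sum_chain y l hl hs] at hsum
    set a := y (some k) with ha
    set b := y (some (k + Fen.of 30 6 1)) with hb
    have ha0 : 0 ≤ a := h0 _
    have hb0 : 0 ≤ b := h0 _
    have hsum2 : ∑ j : F30, y (some j) = a + b := by
      rw [Finset.sum_congr rfl (fun j _ => hk j)]
      exact sum_ite k a b
    obtain ⟨z, hzd⟩ : ∃ z : ℂ, z = (a : ℂ) * eC 30 k + (b : ℂ) * eC 30 ((show ZMod 30 from k) + 1) :=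
      ⟨_, rfl⟩
    have hz : sN 30 z = a + b := by
      rw [hzd]
      exact hsN k a b ha0 hb0
    have hzs : ∀ j : F30, sec 30 z j = y (some j) := by
      intro j
      rw [hk j, hzd]
      exact h2 k a b ha0 hb0 j
    have h0n : 0 ≤ y none := h0 none
    refine ⟨⟨z, by rw [hz]; linarith⟩, ?_, ?_⟩
    · funext v
      cases v with
      | none =>
        rw [dC_none]
        change 1 - sN 30 z = y none
        rw [hz]
        linarith
      | some j => exact hzs j
    · rintro ⟨z', hz'⟩ hzy
      apply Subtype.ext
      change z' = z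
      rw [h6 z', h6 z]
      apply Finset.sum_congr rfl
      intro j _
      have e1 : sec 30 z' j = y (some j) := congrFun hzy (some j)
      rw [e1, hzs j]
  · intro l _
    apply IsClosed.isCompact
    have : {x : {z : ℂ // sN 30 z ≤ 1} | ∀ v, dC (x : ℂ) v ≠ 0 → v ∈ l}
        = ⋂ v : Option F30, {x : {z : ℂ // sN 30 z ≤ 1} | dC (x : ℂ) v ≠ 0 → v ∈ l} := by
      ext x
      simp
    rw [this]
    apply isClosed_iInter
    intro v
    by_cases hv : v ∈ l
    · have : {x : {z : ℂ // sN 30 z ≤ 1} | dC (x : ℂ) v ≠ 0 → v ∈ l} = Set.univ := by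
        ext x
        simp [hv]
      rw [this]
      exact isClosed_univ
    · have : {x : {z : ℂ // sN 30 z ≤ 1} | dC (x : ℂ) v ≠ 0 → v ∈ l}
          = {x : {z : ℂ // sN 30 z ≤ 1} | dC (x : ℂ) v = 0} := by
        ext x
        simp [hv]
      rw [this]
      exact isClosed_eq (hcont v) continuous_const
  · intro g z q
    have hg : ((ZMod.toCircle (N := 5) (Multiplicative.toAdd g) : Circle) : ℂ)
        = eC 30 ((6 * (Multiplicative.toAdd g).val : ℕ) : ZMod 30) := by
      unfold eC
      rw [ZMod.toCircle_apply, ZMod.toCircle_natCast]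
      congr 1
      push_cast
      ring
    rw [hg]
    set m : ZMod 30 := ((6 * (Multiplicative.toAdd g).val : ℕ) : ZMod 30) with hm
    cases q with
    | none =>
      change 1 - sN 30 (eC 30 m * z) = 1 - sN 30 z
      congr 1
      unfold sN
      rw [← Equiv.sum_comp (Equiv.addRight m)]
      apply Finset.sum_congr rfl
      intro k _
      exact h4 m z k
    | some k =>
      exact h4 m z k

end Pool.Agent.Lib.MP_39dc45_gt.SP
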