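import Pool.Agent.Lib.MP_39dc45_gt.SP.StT

/-!
# MP_39dc45_gt: product triangulation
-/

open scoped Topology
open Matrix

noncomputable section

namespace Pool.Agent.Lib.MP_39dc45_gt.SP

theorem prodR_asymm {V W : Type} {RV : V → V → Prop} {RW : W → W → Prop} (hV : Asym RV)
    (hW : Asym RW) : Asym (prodR RV RW) := by
  rintro ⟨a, a'⟩ ⟨b, b'⟩ ⟨hne, h1, h2⟩ ⟨_, h3, h4⟩
  apply hne
  have e1 : a = b := by
    rcases h1 with h | h
    · exact h
    · rcases h3 with h' | h'
      · exact h'.symm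
      · exact absurd h' (hV _ _ h)
  have e2 : a' = b' := by
    rcases h2 with h | h
    · exact h
    · rcases h4 with h' | h'
      · exact h'.symm
      · exact absurd h' (hW _ _ h)
  rw [e1, e2]

theorem lo_continuous {X V : Type} [TopologicalSpace X] (R : V → V → Prop) (b : X → V → ℝ)
    (hc : ∀ v, Continuous fun x => b x v) (hf : LocallyFinite fun v => {x | b x v ≠ 0}) (v : V) :
    Continuous fun x => lo R (b x) v := by
  unfold lo
  refine continuous_finsum_cond (fun v' _ => hc v') ?_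
  exact hf

theorem prB_continuous {X Y V W : Type} [TopologicalSpace X] [TopologicalSpace Y]
    (RV : V → V → Prop) (RW : W → W → Prop) (b : X → V → ℝ) (b' : Y → W → ℝ)
    (hc : ∀ v, Continuous fun x => b x v) (hf : LocallyFinite fun v => {x | b x v ≠ 0})
    (hc' : ∀ v, Continuous fun x => b' x v) (hf' : LocallyFinite fun v => {x | b' x v ≠ 0})
    (p : V × W) : Continuous fun x : X × Y => prB RV RW (b x.1) (b' x.2) p := by
  unfold prB
  have h1 : Continuous fun x : X × Y => lo RV (b x.1) p.1 :=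
    (lo_continuous RV b hc hf p.1).comp continuous_fst
  have h2 : Continuous fun x : X × Y => lo RW (b' x.2) p.2 :=
    (lo_continuous RW b' hc' hf' p.2).comp continuous_snd
  have h3 : Continuous fun x : X × Y => b x.1 p.1 := (hc p.1).comp continuous_fst
  have h4 : Continuous fun x : X × Y => b' x.2 p.2 := (hc' p.2).comp continuous_snd
  exact continuous_const.max (((h1.add h3).min (h2.add h4)).sub (h1.max h2))

theorem prB_ne_zero {V W : Type} {RV : V → V → Prop} {RW : W → W → Prop} {y : V → ℝ}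
    {y' : W → ℝ} {p : V × W}
    (h : prB RV RW y y' p ≠ 0) : y p.1 ≠ 0 ∧ y' p.2 ≠ 0 := by
  constructor
  · intro h0
    apply h
    unfold prB
    apply max_eq_left
    have h1 := min_le_left (lo RV y p.1 + y p.1) (lo RW y' p.2 + y' p.2)
    have h2 := le_max_left (lo RV y p.1) (lo RW y' p.2)
    rw [h0] at h1 ⊢
    linarith
  · intro h0
    apply h
    unfold prB
    apply max_eq_left
    have h1 := min_le_right (lo RV y p.1 + y p.1) (lo RW y' p.2 + y' p.2)
    have h2 := le_max_right (lo RV y p.1) (lo RW y' p.2)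
    rw [h0] at h1 ⊢
    linarith

theorem dedup_pairwise {V : Type} [DecidableEq V] {R : V → V → Prop} (l : List V)
    (h : l.Pairwise (Rle R)) : l.dedup.Pairwise R := by
  have h1 : l.dedup.Pairwise (Rle R) := h.sublist (List.dedup_sublist l)
  have h2 : l.dedup.Pairwise (· ≠ ·) := List.nodup_dedup l
  refine (h1.and h2).imp ?_
  rintro a b ⟨h3 | h3, h4⟩
  · exact absurd h3 h4
  · exact h3

theorem exists_of_finsum_ne {α : Type} {f : α → ℝ} (h : ∑ᶠ a, f a ≠ 0) : ∃ a, f a ≠ 0 := by
  by_contra hc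
  push Not at hc
  exact h (finsum_eq_zero_of_forall_eq_zero hc)

theorem stTriProd : StPrPt → StTriProd := by
  classical
  intro hP X Y V W _ _ RV RW b b' hb hb'
  obtain ⟨hP1, hP2⟩ := hP V W RV RW hb.asymm hb'.asymm
  have hcont : ∀ p : V × W, Continuous fun x : X × Y => prB RV RW (b x.1) (b' x.2) p :=
    prB_continuous RV RW b b' hb.cont hb.locFin hb'.cont hb'.locFin
  refine ⟨prodR_asymm hb.asymm hb'.asymm, hcont, ?_, ?_, ?_, ?_⟩
  · intro x
    obtain ⟨U, hU, hUf⟩ := hb.locFin x.1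
    obtain ⟨U', hU', hUf'⟩ := hb'.locFin x.2
    refine ⟨U ×ˢ U', prod_mem_nhds hU hU', ?_⟩
    refine (hUf.prod hUf').subset ?_
    rintro ⟨v, w⟩ ⟨⟨z, z'⟩, hz1, hz2⟩
    have := prB_ne_zero hz1
    exact ⟨⟨z, this.1, hz2.1⟩, ⟨z', this.2, hz2.2⟩⟩
  · intro x
    exact (hP1 _ _ (hb.pt x.1) (hb'.pt x.2)).1
  · intro q hq
    obtain ⟨y, y', hy, hy', hyq⟩ := hP2 q hq
    obtain ⟨x, hx, -⟩ := hb.bij y hy
    obtain ⟨x', hx', -⟩ := hb'.bij y' hy'
    refine ⟨(x, x'), ?_, ?_⟩
    · show prB RV RW (b x) (b' x') = q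
      rw [hx, hx', hyq]
    · rintro ⟨z, z'⟩ hz
      have hz1 : prB RV RW (b z) (b' z') = q := hz
      have m1 := (hP1 _ _ (hb.pt z) (hb'.pt z')).2
      have m2 := (hP1 _ _ hy hy').2
      have e1 : b z = y := by
        funext v
        rw [m1.1 v, m2.1 v, hz1, hyq]
      have e2 : b' z' = y' := by
        funext v
        rw [m1.2 v, m2.2 v, hz1, hyq]
      have u1 := (hb.bij y hy).unique e1 hx
      have u2 := (hb'.bij y' hy').unique e2 hx'
      rw [u1, u2]
  · intro l hl
    have hcl : IsClosed {x : X × Y | ∀ v, prB RV RW (b x.1) (b' x.2) v ≠ 0 → v ∈ l} := by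
      have : {x : X × Y | ∀ v, prB RV RW (b x.1) (b' x.2) v ≠ 0 → v ∈ l} =
          ⋂ (v : V × W) (_ : v ∉ l), {x : X × Y | prB RV RW (b x.1) (b' x.2) v = 0} := by
        ext x
        simp only [Set.mem_ofPred_eq, Set.mem_iInter]
        refine forall_congr' fun v => ?_
        rw [not_imp_comm]
      rw [this]
      exact isClosed_iInter fun v => isClosed_iInter fun _ =>
        isClosed_eq (hcont v) continuous_const
    have hl1 : ((l.map Prod.fst).dedup).Pairwise RV := by
      apply dedup_pairwise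
      rw [List.pairwise_map]
      exact hl.imp fun h => h.2.1
    have hl2 : ((l.map Prod.snd).dedup).Pairwise RW := by
      apply dedup_pairwise
      rw [List.pairwise_map]
      exact hl.imp fun h => h.2.2
    refine ((hb.cpt _ hl1).prod (hb'.cpt _ hl2)).of_isClosed_subset hcl ?_
    rintro ⟨x, x'⟩ hx
    have m1 := (hP1 _ _ (hb.pt x) (hb'.pt x')).2
    refine ⟨fun v hv => ?_, fun w hw => ?_⟩
    · change b x v ≠ 0 at hv
      rw [m1.1 v] at hv
      obtain ⟨w, hw⟩ := exists_of_finsum_ne hv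
      rw [List.mem_dedup]
      exact List.mem_map.2 ⟨(v, w), hx (v, w) hw, rfl⟩
    · change b' x' w ≠ 0 at hw
      rw [m1.2 w] at hw
      obtain ⟨v, hv⟩ := exists_of_finsum_ne hw
      rw [List.mem_dedup]
      exact List.mem_map.2 ⟨(v, w), hx (v, w) hv, rfl⟩

end Pool.Agent.Lib.MP_39dc45_gt.SP
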