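import Pool.Agent.Lib.MP_39dc45_gt.SP.StT

/-!
# MP_39dc45_gt: triangulation of the source sphere
-/

open scoped Topology
open Matrix

noncomputable section

namespace Pool.Agent.Lib.MP_39dc45_gt.SP

theorem tsx_isPt_sub {V : Type} {R : V → V → Prop} (P : V → Prop) (q : V → ℝ)
    (hq : ∀ v, ¬ P v → q v = 0) :
    IsPt R q ↔ IsPt (fun a b : {v // P v} => R a.1 b.1) (fun a => q a.1) := by
  classical
  constructor
  · rintro ⟨h0, l, hl, hm, hs⟩
    have hP : ∀ v ∈ l, P v := by
      intro v hv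
      by_contra h
      exact ((hm v).2 hv) (hq v h)
    refine ⟨fun a => h0 a.1, l.pmap (fun v hv => (⟨v, hv⟩ : {v // P v})) hP, ?_, ?_, ?_⟩
    · rw [List.pairwise_pmap]
      exact hl.imp fun h _ _ => h
    · rintro ⟨v, hv⟩
      rw [hm v, List.mem_pmap]
      constructor
      · intro h
        exact ⟨v, h, rfl⟩
      · rintro ⟨w, hw, e⟩
        have : w = v := congrArg Subtype.val e
        rwa [this] at hw
    · rw [List.map_pmap]
      have : List.pmap (fun v (_ : P v) => q v) l hP = l.map q := List.pmap_eq_map hP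
      rw [← hs, ← this]
  · rintro ⟨h0, l, hl, hm, hs⟩
    refine ⟨fun v => ?_, l.map Subtype.val, ?_, ?_, ?_⟩
    · by_cases hv : P v
      · exact h0 ⟨v, hv⟩
      · rw [hq v hv]
    · rw [List.pairwise_map]
      exact hl
    · intro v
      rw [List.mem_map]
      constructor
      · intro h
        have hv : P v := by
          by_contra h'
          exact h (hq v h')
        exact ⟨⟨v, hv⟩, (hm ⟨v, hv⟩).1 h, rfl⟩
      · rintro ⟨w, hw, rfl⟩
        exact (hm w).2 hw
    · rw [List.map_map]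
      exact hs

theorem tsx_lo_none {A : Type} (R : A → A → Prop) (y : Option A → ℝ) :
    lo (optR R) y none = 0 := by
  unfold lo
  apply finsum_eq_zero_of_forall_eq_zero
  intro v
  have h : ¬ optR R v none := by
    cases v with
    | none => simp [optR]
    | some v => simp [optR]
  simp [h]

theorem tsx_prB_none {A B : Type} (RA : A → A → Prop) (RB : B → B → Prop) (y : Option A → ℝ)
    (y' : Option B → ℝ) :
    prB (optR RA) (optR RB) y y' (none, none) = max 0 (min (y none) (y' none)) := by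
  unfold prB
  rw [tsx_lo_none, tsx_lo_none]
  simp

theorem tsx_lo_inv {V : Type} (R : V → V → Prop) (e : V ≃ V)
    (hR : ∀ v w, R (e v) (e w) ↔ R v w) (y y1 : V → ℝ) (h : ∀ v, y1 (e v) = y v) (v : V) :
    lo R y1 (e v) = lo R y v := by
  unfold lo
  rw [← finsum_comp_equiv e]
  refine finsum_congr fun v' => ?_
  rw [h v']
  exact finsum_congr_Prop (propext (hR v' v)) fun _ => rfl

theorem tsx_prB_inv {V W : Type} (RV : V → V → Prop) (RW : W → W → Prop) (e : V ≃ V)
    (e' : W ≃ W) (hR : ∀ v w, RV (e v) (e w) ↔ RV v w) (hR' : ∀ v w, RW (e' v) (e' w) ↔ RW v w)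
    (y y1 : V → ℝ) (h : ∀ v, y1 (e v) = y v) (y' y1' : W → ℝ) (h' : ∀ v, y1' (e' v) = y' v)
    (p : V × W) : prB RV RW y1 y1' (e p.1, e' p.2) = prB RV RW y y' p := by
  unfold prB
  simp only
  rw [tsx_lo_inv RV e hR y y1 h, tsx_lo_inv RW e' hR' y' y1' h', h, h']

theorem tsx_fen_val (g : Cyc 5) (s : Fen 30 6) : Even (g • s).val ↔ Even s.val := by
  have key : ∀ (k : ZMod 5) (s : ZMod 30),
      Even (ZMod.val (s + ((6 * k.val : ℕ) : ZMod 30))) ↔ Even (ZMod.val s) := by
    decide
  exact key (Multiplicative.toAdd g) s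

theorem tsx_fenR (g : Cyc 5) (s s' : Fen 30 6) :
    fenR 30 6 (g • s) (g • s') ↔ fenR 30 6 s s' := by
  unfold fenR
  rw [tsx_fen_val]
  have h1 : ∀ s : Fen 30 6, g • s = s +
      Fen.of 30 6 ((6 * (Multiplicative.toAdd g).val : ℕ) : ZMod 30) := fun _ => rfl
  rw [h1 s, h1 s']
  generalize Fen.of 30 6 ((6 * (Multiplicative.toAdd g).val : ℕ) : ZMod 30) = c
  have e1 : s' + c = s + c + Fen.of 30 6 1 ↔ s' = s + Fen.of 30 6 1 := by
    constructor
    · intro h
      have : s' + c = (s + Fen.of 30 6 1) + c := by rw [h]; abel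
      exact add_right_cancel this
    · intro h
      rw [h]; abel
  have e2 : s' + c = s + c - Fen.of 30 6 1 ↔ s' = s - Fen.of 30 6 1 := by
    constructor
    · intro h
      have : s' + c = (s - Fen.of 30 6 1) + c := by rw [h]; abel
      exact add_right_cancel this
    · intro h
      rw [h]; abel
  rw [e1, e2]

theorem tsx_optR (g : Cyc 5) (s s' : Option (Fen 30 6)) :
    optR (fenR 30 6) (g • s) (g • s') ↔ optR (fenR 30 6) s s' := by
  cases s with
  | none => cases s' with
    | none => exact Iff.rfl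
    | some s' => exact Iff.rfl
  | some s => cases s' with
    | none => exact Iff.rfl
    | some s' => exact tsx_fenR g s s'

theorem tsx_act (σ : Side) (g : Cyc 5) (s : Sph 3) : act5 σ g s =
    rotH (ZMod.toCircle (N := 5) (Multiplicative.toAdd (g ^ σ.k))) s := rfl

theorem tsx_pow (g : Cyc 5) : g ^ Side.src.k = g := pow_one g

/-- The disc. -/
abbrev TsxD : Type := {z : ℂ // sN 30 z ≤ 1}

theorem stTriS : StS3 → StSec → StTriD → StTriProd → StPrPt → StTriS := by
  classical
  intro hS3 hSec hD hProd _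
  obtain ⟨hzc, hwc, hn, hext, hrot, htoS, hco, hsc, -, -, -⟩ := hS3
  obtain ⟨-, -, -, -, hst, -, -, hNc, hN0, hNn⟩ := hSec 30 (by norm_num)
  have hT := hProd _ _ _ _ _ _ _ _ hD.1 hD.1
  have hNt : ∀ (t : ℝ) (z : ℂ), 0 ≤ t → sN 30 (t * z) = t * sN 30 z := by
    intro t z ht
    unfold sN
    rw [Finset.mul_sum]
    exact Finset.sum_congr rfl fun k _ => hst t z k ht
  set Mx : Sph 3 → ℝ := fun s => max (sN 30 (zc s)) (sN 30 (wc s)) with hMx
  have hMpos : ∀ s, 0 < Mx s := by
    intro s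
    by_contra h
    push Not at h
    have h1 : sN 30 (zc s) = 0 := le_antisymm ((le_max_left _ _).trans h) (hNn _)
    have h2 : sN 30 (wc s) = 0 := le_antisymm ((le_max_right _ _).trans h) (hNn _)
    have h3 := hn s
    rw [(hN0 _).1 h1, (hN0 _).1 h2] at h3
    simp [nz] at h3
  have hdiv : ∀ (m : ℝ) (z : ℂ), z / (m : ℂ) = ((m⁻¹ : ℝ) : ℂ) * z := by
    intro m z
    rw [Complex.ofReal_inv, div_eq_mul_inv, mul_comm]
  have hNd : ∀ (m : ℝ) (z : ℂ), 0 ≤ m → sN 30 (z / (m : ℂ)) = sN 30 z / m := by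
    intro m z hm
    rw [hdiv, hNt _ _ (inv_nonneg.2 hm), div_eq_inv_mul]
  have hz1 : ∀ s, sN 30 (zc s / (Mx s : ℂ)) ≤ 1 := by
    intro s
    rw [hNd _ _ (hMpos s).le, div_le_one (hMpos s)]
    exact le_max_left _ _
  have hw1 : ∀ s, sN 30 (wc s / (Mx s : ℂ)) ≤ 1 := by
    intro s
    rw [hNd _ _ (hMpos s).le, div_le_one (hMpos s)]
    exact le_max_right _ _
  set φ : Sph 3 → TsxD × TsxD := fun s =>
    (⟨zc s / (Mx s : ℂ), hz1 s⟩, ⟨wc s / (Mx s : ℂ), hw1 s⟩) with hφ
  set PB : TsxD × TsxD → Option (Fen 30 6) × Option (Fen 30 6) → ℝ := fun x =>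
    prB (optR (fenR 30 6)) (optR (fenR 30 6)) (dC x.1) (dC x.2) with hPB
  have hTc : ∀ p, Continuous fun x => PB x p := fun p => hT.cont p
  have hTp : ∀ x, IsPt (prodR (optR (fenR 30 6)) (optR (fenR 30 6))) (PB x) := fun x => hT.pt x
  have hTb : ∀ q, IsPt (prodR (optR (fenR 30 6)) (optR (fenR 30 6))) q → ∃! x, PB x = q :=
    fun q => hT.bij q
  have hTa := hT.asymm
  have hPBdef : ∀ x p, PB x p =
      prB (optR (fenR 30 6)) (optR (fenR 30 6)) (dC x.1) (dC x.2) p := fun _ _ => rfl
  have hbS : ∀ s (p : KS), bS s p = PB (φ s) p.1 := fun s p => rfl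
  have hPBn : ∀ x, PB x (none, none) = max 0 (min (1 - sN 30 x.1) (1 - sN 30 x.2)) := by
    intro x
    exact tsx_prB_none _ _ _ _
  clear_value PB
  have hPBφ : ∀ s, PB (φ s) (none, none) = 0 := by
    intro s
    rw [hPBn]
    apply max_eq_left
    rw [min_le_iff]
    show 1 - sN 30 (zc s / (Mx s : ℂ)) ≤ 0 ∨ 1 - sN 30 (wc s / (Mx s : ℂ)) ≤ 0
    rw [hNd _ _ (hMpos s).le, hNd _ _ (hMpos s).le]
    rcases max_choice (sN 30 (zc s)) (sN 30 (wc s)) with h | h
    · left
      have : Mx s = sN 30 (zc s) := h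
      rw [← this, div_self (hMpos s).ne']
      simp
    · right
      have : Mx s = sN 30 (wc s) := h
      rw [← this, div_self (hMpos s).ne']
      simp
  have hMc : Continuous Mx := (hNc.comp hzc).max (hNc.comp hwc)
  have hφc : Continuous φ := by
    apply Continuous.prodMk
    · apply Continuous.subtype_mk
      exact hzc.div (Complex.continuous_ofReal.comp hMc) fun s =>
        Complex.ofReal_ne_zero.2 (hMpos s).ne'
    · apply Continuous.subtype_mk
      exact hwc.div (Complex.continuous_ofReal.comp hMc) fun s =>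
        Complex.ofReal_ne_zero.2 (hMpos s).ne'
  have hbc : ∀ p : KS, Continuous fun s => bS s p := by
    intro p
    have h1 : (fun s => bS s p) = fun s => PB (φ s) p.1 := funext fun s => hbS s p
    rw [h1]
    exact (hTc p.1).comp hφc
  have hback : ∀ s, toS ((φ s).1 : ℂ) ((φ s).2 : ℂ) = s := by
    intro s
    show toS (zc s / (Mx s : ℂ)) (wc s / (Mx s : ℂ)) = s
    rw [hdiv, hdiv, hsc _ _ _ (inv_pos.2 (hMpos s)), htoS]
  refine ⟨⟨?_, hbc, ?_, ?_, ?_, ?_⟩, ?_⟩
  · intro v w h h'
    exact hTa _ _ h h'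
  · exact locallyFinite_of_finite (ι := KS) _
  · intro s
    have h1 := hTp (φ s)
    have hs : bS s = fun p : KS => PB (φ s) p.1 := funext fun p => hbS s p
    rw [hs]
    exact (tsx_isPt_sub (fun p : Option (Fen 30 6) × Option (Fen 30 6) => p ≠ (none, none))
      (PB (φ s)) (by
        intro v hv
        push Not at hv
        rw [hv]
        exact hPBφ s)).1 h1
  · intro y hy
    set q : Option (Fen 30 6) × Option (Fen 30 6) → ℝ :=
      fun p => if h : p ≠ (none, none) then y ⟨p, h⟩ else 0 with hq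
    have hq0 : ∀ v, ¬ (v ≠ (none, none)) → q v = 0 := by
      intro v hv
      simp only [hq]
      rw [dif_neg hv]
    have hqy : ∀ a : KS, q a.1 = y a := by
      intro a
      simp only [hq]
      rw [dif_pos a.2]
      rfl
    have hqP : IsPt (prodR (optR (fenR 30 6)) (optR (fenR 30 6))) q := by
      refine (tsx_isPt_sub (fun p : Option (Fen 30 6) × Option (Fen 30 6) => p ≠ (none, none))
        q hq0).2 ?_
      have : (fun a : {p : Option (Fen 30 6) × Option (Fen 30 6) // p ≠ (none, none)} => q a.1)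
          = y := funext fun a => hqy a
      rw [this]
      exact hy
    obtain ⟨x, hx', hxu⟩ := hTb q hqP
    have h1 : max 0 (min (1 - sN 30 x.1) (1 - sN 30 x.2)) = 0 := by
      rw [← hPBn, hx']
      exact hq0 _ (by simp)
    have h2 : min (1 - sN 30 (x.1 : ℂ)) (1 - sN 30 (x.2 : ℂ)) ≤ 0 := by
      rw [← h1]
      exact le_max_right _ _
    have h3 : max (sN 30 (x.1 : ℂ)) (sN 30 (x.2 : ℂ)) = 1 := by
      apply le_antisymm (max_le x.1.2 x.2.2)
      rw [min_le_iff] at h2
      rcases h2 with h | h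
      · exact le_max_of_le_left (by linarith)
      · exact le_max_of_le_right (by linarith)
    have hne : ((x.1 : ℂ), (x.2 : ℂ)) ≠ 0 := by
      intro h
      have e1 : (x.1 : ℂ) = 0 := congrArg Prod.fst h
      have e2 : (x.2 : ℂ) = 0 := congrArg Prod.snd h
      rw [(hN0 _).2 e1, (hN0 _).2 e2] at h3
      simp at h3
    have hNpos : 0 < Real.sqrt (nz (x.1 : ℂ) + nz (x.2 : ℂ)) := by
      apply Real.sqrt_pos.2
      unfold nz
      rcases (not_and_or.1 (fun h : (x.1 : ℂ) = 0 ∧ (x.2 : ℂ) = 0 => hne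
        (Prod.ext h.1 h.2))) with h | h
      · have := Complex.normSq_pos.2 h
        have := Complex.normSq_nonneg (x.2 : ℂ)
        linarith
      · have := Complex.normSq_pos.2 h
        have := Complex.normSq_nonneg (x.1 : ℂ)
        linarith
    obtain ⟨hz, hw⟩ := hco _ _ hne
    set N : ℝ := Real.sqrt (nz (x.1 : ℂ) + nz (x.2 : ℂ)) with hN
    have hM : Mx (toS (x.1 : ℂ) (x.2 : ℂ)) = N⁻¹ := by
      simp only [hMx]
      rw [hz, hw, hNd _ _ hNpos.le, hNd _ _ hNpos.le, div_eq_mul_inv, div_eq_mul_inv,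
        ← max_mul_of_nonneg _ _ (inv_nonneg.2 hNpos.le), h3, one_mul]
    have hφs : φ (toS (x.1 : ℂ) (x.2 : ℂ)) = x := by
      apply Prod.ext
      · apply Subtype.ext
        show zc (toS (x.1 : ℂ) (x.2 : ℂ)) / (Mx (toS (x.1 : ℂ) (x.2 : ℂ)) : ℂ) = x.1
        rw [hz, hM, Complex.ofReal_inv]
        have : (N : ℂ) ≠ 0 := Complex.ofReal_ne_zero.2 hNpos.ne'
        field_simp
      · apply Subtype.ext
        show wc (toS (x.1 : ℂ) (x.2 : ℂ)) / (Mx (toS (x.1 : ℂ) (x.2 : ℂ)) : ℂ) = x.2
        rw [hw, hM, Complex.ofReal_inv]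
        have : (N : ℂ) ≠ 0 := Complex.ofReal_ne_zero.2 hNpos.ne'
        field_simp
    refine ⟨toS (x.1 : ℂ) (x.2 : ℂ), ?_, ?_⟩
    · funext p
      rw [hbS, hφs, hx', hqy]
    · intro s' hs'
      have hs2 : bS s' = y := hs'
      have : PB (φ s') = q := by
        funext p
        by_cases hp : p = (none, none)
        · rw [hp, hPBφ, hq0 _ (by simp)]
        · have := hbS s' ⟨p, hp⟩
          rw [hs2] at this
          rw [← hqy ⟨p, hp⟩] at this
          exact this.symm
      have h5 : φ s' = x := hxu _ this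
      rw [← h5, hback]
  · intro l _
    have hcl : IsClosed {s : Sph 3 | ∀ v, bS s v ≠ 0 → v ∈ l} := by
      have : {s : Sph 3 | ∀ v, bS s v ≠ 0 → v ∈ l} =
          ⋂ (v : KS) (_ : v ∉ l), {s : Sph 3 | bS s v = 0} := by
        ext x
        simp only [Set.mem_ofPred_eq, Set.mem_iInter]
        refine forall_congr' fun v => ?_
        rw [not_imp_comm]
      rw [this]
      exact isClosed_iInter fun v => isClosed_iInter fun _ =>
        isClosed_eq (hbc v) continuous_const
    exact hcl.isCompact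
  · intro g s p
    set u : Circle := ZMod.toCircle (N := 5) (Multiplicative.toAdd g) with hu
    have hact : act5 .src g s = rotH u s := by
      rw [tsx_act, tsx_pow]
    have hdC := fun z q => hD.2 g z q
    have hsN : ∀ z : ℂ, sN 30 ((u : ℂ) * z) = sN 30 z := by
      intro z
      have h1 := hdC z none
      have h2 : dC ((u : ℂ) * z) (g • none) = 1 - sN 30 ((u : ℂ) * z) := rfl
      have h3 : dC z none = 1 - sN 30 z := rfl
      change dC ((u : ℂ) * z) (g • none) = dC z none at h1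
      rw [h2, h3] at h1
      linarith
    rw [hact]
    obtain ⟨hrz, hrw⟩ := hrot u s
    have hMr : Mx (rotH u s) = Mx s := by
      simp only [hMx]
      rw [hrz, hrw, hsN, hsN]
    have e1 : ((φ (rotH u s)).1 : ℂ) = u * ((φ s).1 : ℂ) := by
      show zc (rotH u s) / (Mx (rotH u s) : ℂ) = u * (zc s / (Mx s : ℂ))
      rw [hMr, hrz, mul_div_assoc]
    have e2 : ((φ (rotH u s)).2 : ℂ) = u * ((φ s).2 : ℂ) := by
      show wc (rotH u s) / (Mx (rotH u s) : ℂ) = u * (wc s / (Mx s : ℂ))
      rw [hMr, hrw, mul_div_assoc]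
    rw [hbS, hbS, hPBdef, hPBdef]
    rw [e1, e2]
    exact tsx_prB_inv (optR (fenR 30 6)) (optR (fenR 30 6)) (MulAction.toPerm g)
      (MulAction.toPerm g) (tsx_optR g) (tsx_optR g) _ _ (hdC _) _ _ (hdC _) p.1

end Pool.Agent.Lib.MP_39dc45_gt.SP
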