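import Pool.Agent.Lib.MP_39dc45_gt.SP.StT

/-!
# MP_39dc45_gt: the triangulation of the target sphere
-/

open scoped Topology
open Matrix

noncomputable section

namespace Pool.Agent.Lib.MP_39dc45_gt.SP

namespace TriTAux

/-! ## Combinatorics of the fence -/

/-- the next point -/
def nx (k : Fen 10 4) : Fen 10 4 := k + Fen.of 10 4 1

theorem fen_asym : ∀ a b : Fen 10 4, fenR 10 4 a b → ¬ fenR 10 4 b a := by decide

theorem fen_even : ∀ k : Fen 10 4, Even k.val → fenR 10 4 k (nx k) := by decide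

theorem fen_odd : ∀ k : Fen 10 4, ¬ Even k.val → fenR 10 4 (nx k) k := by decide

theorem fen_two : ∀ a b : Fen 10 4, fenR 10 4 a b → b = nx a ∨ a = nx b := by decide

theorem fen_three : ∀ a b : Fen 10 4, fenR 10 4 a b → ¬ Even b.val := by decide

theorem nx_ne : ∀ k : Fen 10 4, nx k ≠ k := by decide

theorem exists_list (k : Fen 10 4) :
    ∃ L : List (Fen 10 4), L.Pairwise (fenR 10 4) ∧ ∀ v, v ∈ L ↔ v = k ∨ v = nx k := by
  by_cases h : Even k.val
  · refine ⟨[k, nx k], ?_, fun v => by simp⟩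
    simpa using fen_even k h
  · refine ⟨[nx k, k], ?_, fun v => by simp [or_comm]⟩
    simpa using fen_odd k h

theorem chain_two (l : List (Fen 10 4)) (h : l.Pairwise (fenR 10 4)) :
    ∃ k, ∀ v ∈ l, v = k ∨ v = nx k := by
  match l, h with
  | [], _ => exact ⟨0, fun v hv => absurd hv (List.not_mem_nil)⟩
  | [a], _ => exact ⟨a, fun v hv => Or.inl (by simpa using hv)⟩
  | [a, b], h =>
    have h1 : fenR 10 4 a b := by simpa using h
    rcases fen_two a b h1 with h2 | h2
    · refine ⟨a, fun v hv => ?_⟩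
      have : v = a ∨ v = b := by simpa using hv
      rcases this with h3 | h3
      · exact Or.inl h3
      · exact Or.inr (h3.trans h2)
    · refine ⟨b, fun v hv => ?_⟩
      have : v = a ∨ v = b := by simpa using hv
      rcases this with h3 | h3
      · exact Or.inr (h3.trans h2)
      · exact Or.inl h3
  | a :: b :: c :: l, h =>
    exfalso
    rw [List.pairwise_cons] at h
    obtain ⟨h1, h2⟩ := h
    rw [List.pairwise_cons] at h2
    have h3 := h1 b (by simp)
    have h4 := h2.1 c (by simp)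
    exact fen_three a b h3 h4.1

theorem rt_asym (v w : KT) (h : RT v w) : ¬ RT w v := by
  rcases v with a | a <;> rcases w with b | b
  · exact fen_asym a b h
  · exact fun h' => h'
  · exact absurd h (fun h' => h')
  · exact fen_asym a b h

/-! ## Points -/

theorem isPt_of {V : Type} [Fintype V] [DecidableEq V] {R : V → V → Prop}
    (hR : ∀ v w, R v w → ¬ R w v) (y : V → ℝ) (h0 : ∀ v, 0 ≤ y v) (h1 : ∑ v, y v = 1)
    (L : List V) (hL : L.Pairwise R) (hy : ∀ v, y v ≠ 0 → v ∈ L) : IsPt R y := by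
  classical
  refine ⟨h0, L.filter (fun v => decide (y v ≠ 0)), hL.filter _, fun v => ?_, ?_⟩
  · rw [List.mem_filter, decide_eq_true_iff]
    exact ⟨fun h => ⟨hy v h, h⟩, fun h => h.2⟩
  · have hnd : (L.filter (fun v => decide (y v ≠ 0))).Nodup := by
      refine (hL.filter _).imp ?_
      intro a b hab hne
      rw [hne] at hab
      exact hR b b hab hab
    rw [← List.sum_toFinset y hnd, ← h1]
    refine Finset.sum_subset (Finset.subset_univ _) fun v _ hv => ?_
    rw [List.mem_toFinset, List.mem_filter, decide_eq_true_iff] at hv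
    by_contra hne
    exact hv ⟨hy v hne, hne⟩

theorem sum_of_isPt {V : Type} [Fintype V] [DecidableEq V] {R : V → V → Prop}
    (hR : ∀ v w, R v w → ¬ R w v) {y : V → ℝ} {l : List V} (hl : l.Pairwise R)
    (hy : ∀ v, y v ≠ 0 ↔ v ∈ l) (hs : (l.map y).sum = 1) : ∑ v, y v = 1 := by
  have hnd : l.Nodup := by
    refine hl.imp ?_
    intro a b hab hne
    rw [hne] at hab
    exact hR b b hab hab
  rw [← hs, ← List.sum_toFinset y hnd]
  refine (Finset.sum_subset (Finset.subset_univ _) fun v _ hv => ?_).symm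
  rw [List.mem_toFinset] at hv
  by_contra hne
  exact hv ((hy v).1 hne)

/-! ## Sector coordinates -/

/-- the residue of a point of the fence -/
def tz (k : Fen 10 4) : ZMod 10 := k

theorem tz_nx (k : Fen 10 4) : tz (nx k) = tz k + 1 := rfl

theorem tz_inj {k k' : Fen 10 4} (h : tz k = tz k') : k = k' := h

/-- the sector coordinates as a function on the fence -/
def sc (z : ℂ) (k : Fen 10 4) : ℝ := sec 10 z (tz k)

/-- the point with the given coordinates -/
def pt (c : Fen 10 4 → ℝ) : ℂ := ∑ k : ZMod 10, (c (Fen.of 10 4 k) : ℂ) * eC 10 k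

theorem sc_supp (hS : StSec) (z : ℂ) : ∃ k : Fen 10 4, ∀ v, sc z v ≠ 0 → v = k ∨ v = nx k := by
  obtain ⟨h1, h2, -⟩ := hS 10 (by norm_num)
  obtain ⟨k, a, b, ha, hb, hz⟩ := h1 z
  refine ⟨Fen.of 10 4 k, fun v hv => ?_⟩
  have h3 := h2 k a b ha hb (tz v)
  rw [← hz] at h3
  by_contra hcon
  rw [not_or] at hcon
  apply hv
  have e1 : ¬ (tz v = k) := fun h => hcon.1 h
  have e2 : ¬ (tz v = k + 1) := fun h => hcon.2 h
  change sec 10 z (tz v) = 0
  rw [h3, if_neg e1, if_neg e2]

theorem sc_pt (hS : StSec) (c : Fen 10 4 → ℝ) (h0 : ∀ k, 0 ≤ c k) (k : Fen 10 4)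
    (hk : ∀ v, c v ≠ 0 → v = k ∨ v = nx k) : sc (pt c) = c := by
  obtain ⟨-, h2, -⟩ := hS 10 (by norm_num)
  have hne : tz k ≠ tz k + 1 := fun h => nx_ne k h.symm
  have e1 : pt c = (c k : ℂ) * eC 10 (tz k) + (c (nx k) : ℂ) * eC 10 (tz k + 1) := by
    unfold pt
    have e2 : ∑ j : ZMod 10, (c (Fen.of 10 4 j) : ℂ) * eC 10 j =
        ∑ j ∈ ({tz k, tz k + 1} : Finset (ZMod 10)), (c (Fen.of 10 4 j) : ℂ) * eC 10 j := by
      refine (Finset.sum_subset (Finset.subset_univ _) fun v _ hv => ?_).symm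
      rw [Finset.mem_insert, Finset.mem_singleton] at hv
      have h3 : c (Fen.of 10 4 v) = 0 := by
        by_contra hcon
        exact hv (hk _ hcon)
      rw [h3, Complex.ofReal_zero, zero_mul]
    rw [e2, Finset.sum_pair hne]
    rfl
  funext j
  change sec 10 (pt c) (tz j) = c j
  rw [e1, h2 (tz k) (c k) (c (nx k)) (h0 _) (h0 _) (tz j)]
  by_cases h4 : tz j = tz k
  · rw [if_pos h4]
    exact congrArg c (tz_inj h4.symm)
  · rw [if_neg h4]
    by_cases h5 : tz j = tz k + 1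
    · rw [if_pos h5]
      exact congrArg c (tz_inj (k' := j) (h5.symm : tz (nx k) = tz j))
    · rw [if_neg h5]
      by_contra hcon
      rcases hk j (Ne.symm hcon) with h6 | h6
      · exact h4 (congrArg tz h6)
      · exact h5 (congrArg tz h6)

theorem sN_eq (z : ℂ) : sN 10 z = ∑ k : Fen 10 4, sc z k := by
  refine Finset.sum_congr ?_ fun _ _ => rfl
  ext x
  exact ⟨fun _ => Finset.mem_univ _, fun _ => Finset.mem_univ _⟩

theorem pos (h3 : StS3) (hS : StSec) (s : Sph 3) : 0 < sN 10 (zc s) + sN 10 (wc s) := by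
  obtain ⟨-, -, hn, -⟩ := h3
  obtain ⟨-, -, -, -, -, -, -, -, hz, hp⟩ := hS 10 (by norm_num)
  have h1 := hp (zc s)
  have h2 := hp (wc s)
  rcases h1.lt_or_eq with h4 | h4
  · linarith
  rcases h2.lt_or_eq with h5 | h5
  · linarith
  exfalso
  have h6 := hn s
  rw [(hz _).1 h4.symm, (hz _).1 h5.symm] at h6
  simp [nz] at h6

theorem bT_inl (s : Sph 3) (k : Fen 10 4) :
    bT s (Sum.inl k) = sc (zc s) k / (sN 10 (zc s) + sN 10 (wc s)) := rfl

theorem bT_inr (s : Sph 3) (k : Fen 10 4) :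
    bT s (Sum.inr k) = sc (wc s) k / (sN 10 (zc s) + sN 10 (wc s)) := rfl

theorem sc_sum (hS : StSec) (z : ℂ) : pt (sc z) = z := by
  obtain ⟨-, -, -, -, -, ssum, -⟩ := hS 10 (by norm_num)
  exact (ssum z).symm

theorem isPt (h3 : StS3) (hS : StSec) (s : Sph 3) : IsPt RT (bT s) := by
  have hp := pos h3 hS s
  have hnn : ∀ z k, 0 ≤ sc z k := fun z k => (hS 10 (by norm_num)).2.2.2.2.2.2.1 z _
  obtain ⟨k, hk⟩ := sc_supp hS (zc s)
  obtain ⟨k', hk'⟩ := sc_supp hS (wc s)
  obtain ⟨L, hL, hLm⟩ := exists_list k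
  obtain ⟨L', hL', hLm'⟩ := exists_list k'
  refine isPt_of rt_asym (bT s) ?_ ?_ (L.map Sum.inl ++ L'.map Sum.inr) ?_ ?_
  · rintro (v | v)
    · rw [bT_inl]
      exact div_nonneg (hnn _ _) hp.le
    · rw [bT_inr]
      exact div_nonneg (hnn _ _) hp.le
  · rw [Fintype.sum_sum_type]
    simp only [bT_inl, bT_inr]
    rw [← Finset.sum_div, ← Finset.sum_div, ← sN_eq, ← sN_eq, ← add_div, div_self hp.ne']
  · rw [List.pairwise_append]
    refine ⟨?_, ?_, ?_⟩
    · rw [List.pairwise_map]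
      exact hL
    · rw [List.pairwise_map]
      exact hL'
    · intro a ha b hb
      rw [List.mem_map] at ha hb
      obtain ⟨a', -, rfl⟩ := ha
      obtain ⟨b', -, rfl⟩ := hb
      exact trivial
  · rintro (v | v) hv
    · rw [List.mem_append]
      left
      rw [List.mem_map]
      refine ⟨v, (hLm v).2 (hk v fun h => hv ?_), rfl⟩
      rw [bT_inl, h, zero_div]
    · rw [List.mem_append]
      right
      rw [List.mem_map]
      refine ⟨v, (hLm' v).2 (hk' v fun h => hv ?_), rfl⟩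
      rw [bT_inr, h, zero_div]

theorem sc_smul (hS : StSec) (t : ℝ) (ht : 0 ≤ t) (z : ℂ) (k : Fen 10 4) :
    sc (t * z) k = t * sc z k := (hS 10 (by norm_num)).2.2.2.2.1 t z _ ht

theorem sN_smul (hS : StSec) (t : ℝ) (ht : 0 ≤ t) (z : ℂ) : sN 10 (t * z) = t * sN 10 z := by
  rw [sN_eq, sN_eq, Finset.mul_sum]
  exact Finset.sum_congr rfl fun k _ => sc_smul hS t ht z k

theorem pt_mul (n : ℝ) (c : Fen 10 4 → ℝ) : pt (fun v => n * c v) = n * pt c := by
  unfold pt
  rw [Finset.mul_sum]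
  refine Finset.sum_congr rfl fun k _ => ?_
  rw [Complex.ofReal_mul, mul_assoc]

theorem bij (h3 : StS3) (hS : StSec) (y : KT → ℝ) (hy : IsPt RT y) : ∃! x, bT x = y := by
  have h3' := h3
  obtain ⟨h0, l, hl, hm, hs⟩ := hy
  have hsum := sum_of_isPt rt_asym hl hm hs
  rw [Fintype.sum_sum_type] at hsum
  -- the two halves
  have hex : ∀ f : Fen 10 4 → KT, (∀ a b, RT (f a) (f b) → fenR 10 4 a b) →
      (∀ g : KT → Option (Fen 10 4), (∀ a b, g b = some a ↔ b = f a) →
      ∃ k, ∀ v, y (f v) ≠ 0 → v = k ∨ v = nx k) := by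
    intro f hf g hg
    have h1 : (l.filterMap g).Pairwise (fenR 10 4) := by
      rw [List.pairwise_filterMap]
      refine hl.imp ?_
      intro a b hab a' ha' b' hb'
      have e1 := (hg a' a).1 (by simpa using ha')
      have e2 := (hg b' b).1 (by simpa using hb')
      rw [e1, e2] at hab
      exact hf _ _ hab
    obtain ⟨k, hk⟩ := chain_two _ h1
    refine ⟨k, fun v hv => hk v ?_⟩
    rw [List.mem_filterMap]
    exact ⟨f v, (hm _).1 hv, (hg _ _).2 rfl⟩
  obtain ⟨k, hk⟩ := hex Sum.inl (fun a b h => h) (fun x => x.getLeft?) (by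
    rintro a (b | b)
    · simp
    · simp)
  obtain ⟨k', hk'⟩ := hex Sum.inr (fun a b h => h) (fun x => x.getRight?) (by
    rintro a (b | b)
    · simp
    · simp)
  have hZ := sc_pt hS (fun v => y (Sum.inl v)) (fun v => h0 _) k hk
  have hW := sc_pt hS (fun v => y (Sum.inr v)) (fun v => h0 _) k' hk'
  set Z := pt fun v => y (Sum.inl v) with hZd
  set W := pt fun v => y (Sum.inr v) with hWd
  have hN : sN 10 Z + sN 10 W = 1 := by
    rw [sN_eq, sN_eq, hZ, hW]
    exact hsum
  obtain ⟨-, -, -, -, -, hts, htz, htr, -⟩ := h3'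
  have hne : (Z, W) ≠ 0 := by
    intro h
    have e1 : Z = 0 := congrArg Prod.fst h
    have e2 : W = 0 := congrArg Prod.snd h
    have e3 := (hS 10 (by norm_num)).2.2.2.2.2.2.2.2.1
    rw [e1, e2, (e3 0).2 rfl] at hN
    norm_num at hN
  refine ⟨toS Z W, ?_, ?_⟩
  · obtain ⟨e1, e2⟩ := htz Z W hne
    have hpos : 0 < Real.sqrt (nz Z + nz W) := by
      apply Real.sqrt_pos.2
      have n1 : 0 ≤ nz Z := Complex.normSq_nonneg Z
      have n2 : 0 ≤ nz W := Complex.normSq_nonneg W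
      by_contra hcon
      have m1 : nz Z = 0 := by linarith
      have m2 : nz W = 0 := by linarith
      exact hne (Prod.ext (Complex.normSq_eq_zero.1 m1) (Complex.normSq_eq_zero.1 m2))
    set t := Real.sqrt (nz Z + nz W) with ht
    have e1' : zc (toS Z W) = ((t⁻¹ : ℝ) : ℂ) * Z := by
      rw [e1, Complex.ofReal_inv, div_eq_inv_mul]
    have e2' : wc (toS Z W) = ((t⁻¹ : ℝ) : ℂ) * W := by
      rw [e2, Complex.ofReal_inv, div_eq_inv_mul]
    have hti : 0 ≤ t⁻¹ := (inv_pos.2 hpos).le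
    have hn : sN 10 (zc (toS Z W)) + sN 10 (wc (toS Z W)) = t⁻¹ := by
      rw [e1', e2', sN_smul hS _ hti, sN_smul hS _ hti, ← mul_add, hN, mul_one]
    funext v
    rcases v with v | v
    · rw [bT_inl, hn, e1', sc_smul hS _ hti, hZ]
      field_simp
    · rw [bT_inr, hn, e2', sc_smul hS _ hti, hW]
      field_simp
  · intro s hs
    have hp := pos h3 hS s
    set n := sN 10 (zc s) + sN 10 (wc s) with hn
    have e1 : zc s = n * Z := by
      rw [← sc_sum hS (zc s), hZd, ← pt_mul]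
      congr 1
      funext v
      rw [← hs, bT_inl, ← hn, mul_div_cancel₀ _ hp.ne']
    have e2 : wc s = n * W := by
      rw [← sc_sum hS (wc s), hWd, ← pt_mul]
      congr 1
      funext v
      rw [← hs, bT_inr, ← hn, mul_div_cancel₀ _ hp.ne']
    rw [← hts s, e1, e2, htr n Z W hp]


theorem act_smul (g : Cyc 5) (k : Fen 10 4) :
    tz (g • k) = tz k + ((4 * (Multiplicative.toAdd g).val : ℕ) : ZMod 10) := rfl

/-- the rotation of the target, as a tenth root of unity -/
theorem rot_eq (g : Cyc 5) :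
    ((ZMod.toCircle (N := 5) (Multiplicative.toAdd (g ^ 2)) : Circle) : ℂ) =
      eC 10 ((4 * (Multiplicative.toAdd g).val : ℕ) : ZMod 10) := by
  have h1 : Multiplicative.toAdd (g ^ 2) =
      (((2 * (Multiplicative.toAdd g).val : ℕ) : ℤ) : ZMod 5) := by
    rw [toAdd_pow, nsmul_eq_mul]
    push_cast
    rw [ZMod.natCast_zmod_val]
  have h2 : ((4 * (Multiplicative.toAdd g).val : ℕ) : ZMod 10) =
      (((4 * (Multiplicative.toAdd g).val : ℕ) : ℤ) : ZMod 10) := by push_cast; rfl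
  rw [h1, h2]
  unfold eC
  rw [ZMod.toCircle_intCast, ZMod.toCircle_intCast]
  congr 1
  push_cast
  ring

theorem act5_tgt (g : Cyc 5) :
    act5 .tgt g = rotH (ZMod.toCircle (N := 5) (Multiplicative.toAdd (g ^ 2))) := by
  unfold act5
  rw [MonoidHom.comp_apply, MonoidHom.comp_apply]
  rfl

theorem act_coord (h3 : StS3) (g : Cyc 5) (s : Sph 3) :
    zc (act5 .tgt g s) = eC 10 ((4 * (Multiplicative.toAdd g).val : ℕ) : ZMod 10) * zc s ∧
    wc (act5 .tgt g s) = eC 10 ((4 * (Multiplicative.toAdd g).val : ℕ) : ZMod 10) * wc s := by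
  obtain ⟨-, -, -, -, hrot, -⟩ := h3
  obtain ⟨h1, h2⟩ := hrot (ZMod.toCircle (N := 5) (Multiplicative.toAdd (g ^ 2))) s
  rw [act5_tgt, h1, h2, rot_eq]
  exact ⟨rfl, rfl⟩

theorem sc_rot (hS : StSec) (g : Cyc 5) (z : ℂ) (k : Fen 10 4) :
    sc (eC 10 ((4 * (Multiplicative.toAdd g).val : ℕ) : ZMod 10) * z) (g • k) = sc z k :=
  (hS 10 (by norm_num)).2.2.2.1 _ z (tz k)

theorem sN_rot (hS : StSec) (g : Cyc 5) (z : ℂ) :
    sN 10 (eC 10 ((4 * (Multiplicative.toAdd g).val : ℕ) : ZMod 10) * z) = sN 10 z := by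
  rw [sN_eq, sN_eq, ← Equiv.sum_comp (MulAction.toPerm g : Equiv.Perm (Fen 10 4))]
  exact Finset.sum_congr rfl fun k _ => sc_rot hS g z k

theorem equiv (h3 : StS3) (hS : StSec) (g : Cyc 5) (s : Sph 3) (q : KT) :
    bT (act5 .tgt g s) (g • q) = bT s q := by
  obtain ⟨e1, e2⟩ := act_coord h3 g s
  rcases q with q | q
  · change bT (act5 .tgt g s) (Sum.inl (g • q)) = _
    rw [bT_inl, bT_inl, e1, e2, sN_rot hS, sN_rot hS, sc_rot hS]
  · change bT (act5 .tgt g s) (Sum.inr (g • q)) = _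
    rw [bT_inr, bT_inr, e1, e2, sN_rot hS, sN_rot hS, sc_rot hS]

theorem cont (h3 : StS3) (hS : StSec) (v : KT) : Continuous fun s => bT s v := by
  obtain ⟨zcont, wcont, -⟩ := id h3
  obtain ⟨-, -, scont, -, -, -, -, sNc, -⟩ := hS 10 (by norm_num)
  have hd : Continuous fun s => sN 10 (zc s) + sN 10 (wc s) :=
    (sNc.comp zcont).add (sNc.comp wcont)
  rcases v with k | k
  · exact ((scont (tz k)).comp zcont).div hd fun s => (pos h3 hS s).ne'
  · exact ((scont (tz k)).comp wcont).div hd fun s => (pos h3 hS s).ne'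

end TriTAux

open TriTAux in
theorem stTriT : StS3 → StSec → StTriT := by
  intro h3 hS
  refine ⟨⟨rt_asym, cont h3 hS, locallyFinite_of_finite _, isPt h3 hS, bij h3 hS,
    fun l _ => ?_⟩, equiv h3 hS⟩
  apply IsClosed.isCompact
  have h1 : {x : Sph 3 | ∀ v, bT x v ≠ 0 → v ∈ l} =
      ⋂ (v : KT) (_ : v ∉ l), {x : Sph 3 | bT x v = 0} := by
    ext x
    simp only [Set.mem_ofPred_eq, Set.mem_iInter]
    refine forall_congr' fun v => ?_
    rw [not_imp_comm]
  rw [h1]
  exact isClosed_iInter fun v => isClosed_iInter fun _ =>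
    isClosed_eq (cont h3 hS v) continuous_const

end Pool.Agent.Lib.MP_39dc45_gt.SP
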