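import Pool.Agent.Lib.MP_39dc45_gt.SP.StA

/-!
# MP_39dc45_gt: the combinatorics of the triangulation of `ℝ⁴`
-/

open Matrix

noncomputable section

namespace Pool.Agent.Lib.MP_39dc45_gt.SP

theorem smul4_val (γ : exR.Gam) (v : V4) : (γ • v).1 = shf γ.g v.1 + bet γ.v := rfl

theorem v4_ext {v w : V4} (h : v.1 = w.1) : v = w := Subtype.ext h

/-- The inverse of `bet`. -/
def betInv (u : ZMod 5 → ℤ) : Fin 4 → ℤ := ![-u 0, -u 0 - u 1, -u 0 - u 1 - u 2, u 4]

theorem bet_inj {a b : Fin 4 → ℤ} (h : bet a = bet b) : a = b := by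
  have h0 : -a 0 = -b 0 := congrFun h 0
  have h1 : a 0 - a 1 = b 0 - b 1 := congrFun h 1
  have h2 : a 1 - a 2 = b 1 - b 2 := congrFun h 2
  have h3 : a 2 - a 3 = b 2 - b 3 := congrFun h 3
  funext i
  fin_cases i
  · change a 0 = b 0; omega
  · change a 1 = b 1; omega
  · change a 2 = b 2; omega
  · change a 3 = b 3; omega

theorem bet_betInv (u : ZMod 5 → ℤ) (h : ∑ i, u i = 0) : bet (betInv u) = u := by
  have hs : u 0 + u 1 + u 2 + u 3 + u 4 = 0 :=
    (Fin.sum_univ_five (fun i : Fin 5 => (u i : ℤ))).symm.trans h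
  funext i
  fin_cases i
  · change -(-u 0) = u 0; omega
  · change -u 0 - (-u 0 - u 1) = u 1; omega
  · change (-u 0 - u 1) - (-u 0 - u 1 - u 2) = u 2; omega
  · change (-u 0 - u 1 - u 2) - u 4 = u 3; omega
  · change u 4 = u 4; rfl

/-- A function on `ℤ/5` invariant under a nontrivial shift is constant. -/
theorem shf_const (g : Cyc 5) (hg : g ≠ 1) (u : ZMod 5 → ℤ) (h : shf g u = u) (i j : ZMod 5) :
    u i = u j := by
  have ht : Multiplicative.toAdd g ≠ 0 := fun h0 => hg (Multiplicative.toAdd.injective h0)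
  have key : ∀ (k : ℕ) (i : ZMod 5), u (i - k * Multiplicative.toAdd g) = u i := by
    intro k
    induction k with
    | zero => intro i; simp
    | succ k ih =>
      intro i
      have h1 : u (i - Multiplicative.toAdd g) = u i := congrFun h i
      rw [← h1, ← ih (i - Multiplicative.toAdd g)]
      congr 1
      push_cast
      ring
  have : Fact (Nat.Prime 5) := ⟨by norm_num⟩
  have h2 := key ((i - j) / Multiplicative.toAdd g).val i
  rw [ZMod.natCast_zmod_val, div_mul_cancel₀ _ ht, sub_sub_cancel] at h2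
  exact h2.symm

/-- The representatives. -/
def w4 (i : Fin 5) : V4 := ⟨fun j => if j = 0 then (i : ℤ) else 0, by
  rw [Finset.sum_ite_eq' Finset.univ (0 : ZMod 5)]
  simp only [Finset.mem_univ, if_true]
  omega⟩

theorem w4_sum (i : Fin 5) : ∑ j, (w4 i).1 j = (i : ℤ) := by
  change ∑ j : ZMod 5, (if j = 0 then (i : ℤ) else 0) = _
  rw [Finset.sum_ite_eq' Finset.univ (0 : ZMod 5)]
  simp

theorem smul4_sum (γ : exR.Gam) (v : V4) : ∑ i, (γ • v).1 i = ∑ i, v.1 i := by
  rw [smul4_val]
  simp only [Pi.add_apply, Finset.sum_add_distrib]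
  rw [shf_sum, bet_sum, add_zero]

theorem stV4 : StV4 := by
  refine ⟨?_, ?_, ?_, ?_, ⟨w4, ?_⟩, ?_⟩
  · -- asymmetry
    intro v w h1 h2
    apply h1.1
    apply v4_ext
    funext i
    exact le_antisymm (h1.2 i).1 (h2.2 i).1
  · -- invariance
    intro γ v w h
    refine ⟨fun h' => h.1 (smul_left_cancel γ h'), fun i => ?_⟩
    have := h.2 (i - Multiplicative.toAdd γ.g)
    rw [smul4_val, smul4_val]
    simp only [Pi.add_apply, shf]
    omega
  · -- stabilisers
    intro v c
    have hs : ∑ i, (v.1 - shf c v.1) i = 0 := by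
      simp only [Pi.sub_apply, Finset.sum_sub_distrib]
      rw [shf_sum, sub_self]
    have hb := bet_betInv _ hs
    refine ⟨⟨betInv (v.1 - shf c v.1), c⟩, ⟨?_, rfl⟩, ?_⟩
    · apply v4_ext
      rw [smul4_val]
      change shf c v.1 + bet (betInv (v.1 - shf c v.1)) = v.1
      rw [hb]
      abel
    · rintro γ ⟨h1, h2⟩
      have hg : γ.g = c := h2
      have h3 : shf γ.g v.1 + bet γ.v = v.1 := congrArg Subtype.val h1
      rw [hg] at h3
      have h4 : γ.v = betInv (v.1 - shf c v.1) := by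
        apply bet_inj
        rw [hb, eq_sub_iff_add_eq, add_comm]
        exact h3
      exact Rep.Gam.ext h4 hg
  · -- freeness on edges
    intro v v' hR γ h1 h2
    have e1 : shf γ.g v.1 + bet γ.v = v.1 := congrArg Subtype.val h1
    have e2 : shf γ.g v'.1 + bet γ.v = v'.1 := congrArg Subtype.val h2
    by_cases hg : γ.g = 1
    · have h3 : bet γ.v = bet 0 := by
        rw [hg, shf_one] at e1
        rw [bet_zero]
        exact add_eq_left.1 e1
      exact Rep.Gam.ext (bet_inj h3) hg
    · exfalso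
      have h3 : shf γ.g (v'.1 - v.1) = v'.1 - v.1 := by
        funext i
        have a1 := congrFun e1 i
        have a2 := congrFun e2 i
        simp only [Pi.add_apply, shf] at a1 a2
        simp only [Pi.sub_apply, shf]
        omega
      have h4 := shf_const γ.g hg _ h3
      have h5 : ∀ i, v'.1 i - v.1 i = v'.1 0 - v.1 0 := fun i => h4 i 0
      have h6 : ∑ i, (v'.1 i - v.1 i) = 5 * (v'.1 0 - v.1 0) := by
        rw [Finset.sum_congr rfl fun i _ => h5 i, Finset.sum_const, Finset.card_univ, ZMod.card]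
        simp
      rw [Finset.sum_sub_distrib] at h6
      have h7 := v.2
      have h8 := v'.2
      have h9 := hR.2 0
      apply hR.1
      apply v4_ext
      funext i
      have h10 := h5 i
      omega
  · -- representatives
    intro v
    have hv := v.2
    have hi : (∑ i, v.1 i).toNat < 5 := by omega
    refine ⟨⟨(∑ i, v.1 i).toNat, hi⟩, ?_, ?_⟩
    · have hs : ∑ i, (v.1 - (w4 ⟨(∑ i, v.1 i).toNat, hi⟩).1) i = 0 := by
        simp only [Pi.sub_apply, Finset.sum_sub_distrib]
        rw [w4_sum]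
        change ∑ i, v.1 i - (((∑ i, v.1 i).toNat : ℕ) : ℤ) = 0
        omega
      refine ⟨⟨betInv (v.1 - (w4 ⟨(∑ i, v.1 i).toNat, hi⟩).1), 1⟩, ?_⟩
      apply v4_ext
      rw [smul4_val]
      change shf 1 (w4 ⟨(∑ i, v.1 i).toNat, hi⟩).1 + bet (betInv _) = v.1
      rw [bet_betInv _ hs, shf_one]
      abel
    · rintro j ⟨γ, h⟩
      apply Fin.ext
      have h1 : ∑ i, v.1 i = (j : ℤ) := by
        rw [← h, smul4_sum, w4_sum]
      change (j : ℕ) = (∑ i, v.1 i).toNat
      omega
  · -- local finiteness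
    intro v
    have h1 : (Set.Icc v.1 (v.1 + 1)).Finite := Set.finite_Icc _ _
    have h2 : ((fun w : V4 => w.1) ⁻¹' Set.Icc v.1 (v.1 + 1)).Finite :=
      h1.preimage (fun a _ b _ hab => v4_ext hab)
    apply h2.subset
    intro w hw
    exact ⟨fun i => (hw.2 i).1, fun i => (hw.2 i).2⟩

end Pool.Agent.Lib.MP_39dc45_gt.SP
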