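import Pool.Agent.Lib.MP_39dc45_gt.SP.StA

/-!
# MP_39dc45_gt: two out of three for finite sets of cells
-/

open Matrix

noncomputable section

namespace Pool.Agent.Lib.MP_39dc45_gt.SP

namespace Z2aux

/-- Relabelling of a contraction. -/
theorem key {J J' : Type} [Fintype J] [DecidableEq J] [Fintype J'] [DecidableEq J']
    (e : J ≃ J') (deg : J → ℕ) (deg' : J' → ℕ) (D : Matrix J J ℤ) (D' : Matrix J' J' ℤ)
    (hdeg : ∀ i, deg' (e i) = deg i) (hD : ∀ i j, D' (e i) (e j) = D i j) (S : Matrix J J ℤ)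
    (hS : Contr deg D S) : ∃ S' : Matrix J' J' ℤ, Contr deg' D' S' := by
  have hD' : D' = D.submatrix e.symm e.symm := by
    ext x y
    rw [Matrix.submatrix_apply, ← hD, Equiv.apply_symm_apply, Equiv.apply_symm_apply]
  refine ⟨S.submatrix e.symm e.symm, ?_, ?_⟩
  · intro x y hxy
    have h1 := hS.deg_S _ _ hxy
    rw [← hdeg, ← hdeg, Equiv.apply_symm_apply, Equiv.apply_symm_apply] at h1
    exact h1
  · have h1 : (D * S + S * D).submatrix e.symm e.symm = (1 : Matrix J' J' ℤ) := by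
      rw [hS.eq, Matrix.submatrix_one_equiv]
    rw [hD', Matrix.submatrix_mul_equiv, Matrix.submatrix_mul_equiv]
    exact h1

end Z2aux

theorem stZ2 (hM2 : StM2) : StZ2 := by
  intro I _ deg d s1 s2 hdis hcx h12
  have hout : ∀ j : ↥(s1 ∪ s2), ¬ ((j : I) ∈ s1) → (j : I) ∈ s2 := fun j hj =>
    (Finset.mem_union.mp j.2).resolve_left hj
  have hM := hM2 ↥(s1 ∪ s2) ℤ (fun i => deg i) (Matrix.of fun i j : ↥(s1 ∪ s2) => d i j)
    (fun j => (j : I) ∈ s1) hcx (fun i j hi hj => h12 i hi j (hout j hj))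
  set e1 : {j : ↥(s1 ∪ s2) // (j : I) ∈ s1} ≃ ↥s1 :=
    { toFun := fun j => ⟨j.1.1, j.2⟩
      invFun := fun i => ⟨⟨i.1, Finset.mem_union_left _ i.2⟩, i.2⟩
      left_inv := fun j => rfl
      right_inv := fun i => rfl } with he1
  set e2 : {j : ↥(s1 ∪ s2) // ¬ ((j : I) ∈ s1)} ≃ ↥s2 :=
    { toFun := fun j => ⟨j.1.1, hout j.1 j.2⟩
      invFun := fun i => ⟨⟨i.1, Finset.mem_union_right _ i.2⟩,
        Finset.disjoint_right.mp hdis i.2⟩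
      left_inv := fun j => rfl
      right_inv := fun i => rfl } with he2
  have hto1 : ∀ S1, Contr (fun i : {j : ↥(s1 ∪ s2) // (j : I) ∈ s1} => deg i)
      (sub (fun j : ↥(s1 ∪ s2) => (j : I) ∈ s1) (Matrix.of fun i j : ↥(s1 ∪ s2) => d i j)) S1 →
      ZC deg d s1 := fun S1 hS1 =>
    Z2aux.key e1 _ (fun i : ↥s1 => deg i) _ (Matrix.of fun i j : ↥s1 => d i j)
      (fun i => rfl) (fun i j => rfl) S1 hS1
  have hto2 : ∀ S2, Contr (fun i : {j : ↥(s1 ∪ s2) // ¬ ((j : I) ∈ s1)} => deg i)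
      (sub (fun j : ↥(s1 ∪ s2) => ¬ ((j : I) ∈ s1)) (Matrix.of fun i j : ↥(s1 ∪ s2) => d i j)) S2 →
      ZC deg d s2 := fun S2 hS2 =>
    Z2aux.key e2 _ (fun i : ↥s2 => deg i) _ (Matrix.of fun i j : ↥s2 => d i j)
      (fun i => rfl) (fun i j => rfl) S2 hS2
  have hof1 : ZC deg d s1 → ∃ S1, Contr (fun i : {j : ↥(s1 ∪ s2) // (j : I) ∈ s1} => deg i)
      (sub (fun j : ↥(s1 ∪ s2) => (j : I) ∈ s1) (Matrix.of fun i j : ↥(s1 ∪ s2) => d i j)) S1 := by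
    rintro ⟨S1, hS1⟩
    exact Z2aux.key e1.symm (fun i : ↥s1 => deg i) _ (Matrix.of fun i j : ↥s1 => d i j) _
      (fun i => rfl) (fun i j => rfl) S1 hS1
  have hof2 : ZC deg d s2 → ∃ S2, Contr (fun i : {j : ↥(s1 ∪ s2) // ¬ ((j : I) ∈ s1)} => deg i)
      (sub (fun j : ↥(s1 ∪ s2) => ¬ ((j : I) ∈ s1))
        (Matrix.of fun i j : ↥(s1 ∪ s2) => d i j)) S2 := by
    rintro ⟨S2, hS2⟩
    exact Z2aux.key e2.symm (fun i : ↥s2 => deg i) _ (Matrix.of fun i j : ↥s2 => d i j) _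
      (fun i => rfl) (fun i j => rfl) S2 hS2
  refine ⟨?_, ?_, ?_⟩
  · intro h1 h2
    obtain ⟨S1, hS1⟩ := hof1 h1
    obtain ⟨S2, hS2⟩ := hof2 h2
    obtain ⟨S, hS, _⟩ := hM.1 S1 S2 hS1 hS2
    exact ⟨S, hS⟩
  · rintro ⟨S, hS⟩ h1
    obtain ⟨S1, hS1⟩ := hof1 h1
    obtain ⟨S2, hS2⟩ := hM.2.1 S S1 hS hS1
    exact hto2 S2 hS2
  · rintro ⟨S, hS⟩ h2
    obtain ⟨S2, hS2⟩ := hof2 h2
    obtain ⟨S1, hS1⟩ := hM.2.2 S S2 hS hS2
    exact hto1 S1 hS1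

end Pool.Agent.Lib.MP_39dc45_gt.SP
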