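import Pool.Agent.Lib.MP_39dc45_gt.SP.StA

/-!
# MP_39dc45_gt: isomorphisms of finite complexes over `ℤ`
-/

open Matrix

noncomputable section

namespace Pool.Agent.Lib.MP_39dc45_gt.SP

namespace Z3aux

/-- Conjugation by signs and relabelling. -/
theorem key {J J' : Type} [Fintype J] [DecidableEq J] [Fintype J'] [DecidableEq J']
    (e : J ≃ J') (deg : J → ℕ) (deg' : J' → ℕ) (D : Matrix J J ℤ) (D' : Matrix J' J' ℤ)
    (ε : J → ℤ) (hε : ∀ i, ε i * ε i = 1)
    (hdeg : ∀ i j, deg j = deg i + 1 ↔ deg' (e j) = deg' (e i) + 1)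
    (hD : ∀ i j, D' (e i) (e j) = ε i * ε j * D i j) (S : Matrix J J ℤ) (hS : Contr deg D S) :
    ∃ S' : Matrix J' J' ℤ, Contr deg' D' S' := by
  refine ⟨Matrix.of fun x y => ε (e.symm x) * ε (e.symm y) * S (e.symm x) (e.symm y), ?_, ?_⟩
  · intro x y hxy
    obtain ⟨i, rfl⟩ := e.surjective x
    obtain ⟨j, rfl⟩ := e.surjective y
    rw [Matrix.of_apply, Equiv.symm_apply_apply, Equiv.symm_apply_apply] at hxy
    exact (hdeg i j).1 (hS.deg_S i j (right_ne_zero_of_mul hxy))
  · ext x y
    obtain ⟨i, rfl⟩ := e.surjective x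
    obtain ⟨j, rfl⟩ := e.surjective y
    have h1 := congrFun (congrFun hS.eq i) j
    rw [Matrix.add_apply, Matrix.mul_apply, Matrix.mul_apply] at h1
    rw [Matrix.add_apply, Matrix.mul_apply, Matrix.mul_apply, ← Equiv.sum_comp e, ← Equiv.sum_comp e]
    have h2 : ∀ w, D' (e i) (e w) * (Matrix.of fun x y => ε (e.symm x) * ε (e.symm y) *
        S (e.symm x) (e.symm y)) (e w) (e j) = ε i * ε j * (D i w * S w j) := by
      intro w
      rw [Matrix.of_apply, Equiv.symm_apply_apply, Equiv.symm_apply_apply, hD]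
      linear_combination (ε i * ε j * D i w * S w j) * hε w
    have h3 : ∀ w, (Matrix.of fun x y => ε (e.symm x) * ε (e.symm y) *
        S (e.symm x) (e.symm y)) (e i) (e w) * D' (e w) (e j) = ε i * ε j * (S i w * D w j) := by
      intro w
      rw [Matrix.of_apply, Equiv.symm_apply_apply, Equiv.symm_apply_apply, hD]
      linear_combination (ε i * ε j * S i w * D w j) * hε w
    rw [Finset.sum_congr rfl fun w _ => h2 w, Finset.sum_congr rfl fun w _ => h3 w,
      ← Finset.mul_sum, ← Finset.mul_sum, ← mul_add, h1, Matrix.one_apply, Matrix.one_apply]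
    by_cases hij : i = j
    · subst hij
      rw [if_pos rfl, if_pos rfl, mul_one]
      exact hε i
    · rw [if_neg hij, if_neg fun h => hij (e.injective h), mul_zero]

end Z3aux

theorem stZ3 : StZ3 := by
  intro I I' _ _ deg deg' d d' s s' φ ε k hφ hdeg hε hd
  have hsq : ∀ i ∈ s, ε i * ε i = 1 := by
    intro i hi
    rcases hε i hi with h | h <;> rw [h] <;> norm_num
  set e : s ≃ s' := hφ.equiv with he
  have hval : ∀ i : s, ((e i : s') : I') = φ i := fun i => rfl
  have hdd : ∀ i j : s, deg j = deg i + 1 ↔ deg' ((e j : s') : I') = deg' ((e i : s') : I') + 1 := by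
    intro i j
    rw [hval, hval, hdeg i i.2, hdeg j j.2]
    omega
  constructor
  · rintro ⟨S, hS⟩
    exact Z3aux.key e (fun i : s => deg i) (fun i : s' => deg' i) (Matrix.of fun i j : s => d i j)
      (Matrix.of fun i j : s' => d' i j) (fun i => ε i) (fun i => hsq i i.2) hdd
      (fun i j => hd i i.2 j j.2) S hS
  · rintro ⟨S, hS⟩
    refine Z3aux.key e.symm (fun i : s' => deg' i) (fun i : s => deg i)
      (Matrix.of fun i j : s' => d' i j) (Matrix.of fun i j : s => d i j)
      (fun x => ε (e.symm x)) (fun x => hsq _ (e.symm x).2) ?_ ?_ S hS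
    · intro x y
      obtain ⟨i, rfl⟩ := e.surjective x
      obtain ⟨j, rfl⟩ := e.surjective y
      rw [Equiv.symm_apply_apply, Equiv.symm_apply_apply]
      exact (hdd i j).symm
    · intro x y
      obtain ⟨i, rfl⟩ := e.surjective x
      obtain ⟨j, rfl⟩ := e.surjective y
      rw [Equiv.symm_apply_apply, Equiv.symm_apply_apply, Matrix.of_apply, Matrix.of_apply]
      have h1 : d' ((e i : s') : I') ((e j : s') : I') = ε i * ε j * d i j := hd i i.2 j j.2
      rw [h1]
      linear_combination (-(ε j * ε j) * d i j) * hsq i i.2 - d i j * hsq j j.2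

end Pool.Agent.Lib.MP_39dc45_gt.SP
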