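import Pool.Agent.Lib.MP_39dc45_gt.SP.Bridge
import Pool.Agent.Lib.MP_39dc45_gt.SP.AlgT
import Pool.Agent.Lib.MP_39dc45_gt.SP.C1
import Pool.Agent.Lib.MP_39dc45_gt.SP.C2
import Pool.Agent.Lib.MP_39dc45_gt.SP.C3
import Pool.Agent.Lib.MP_39dc45_gt.SP.C4
import Pool.Agent.Lib.MP_39dc45_gt.SP.Circ
import Pool.Agent.Lib.MP_39dc45_gt.SP.Closed
import Pool.Agent.Lib.MP_39dc45_gt.SP.Cov
import Pool.Agent.Lib.MP_39dc45_gt.SP.E1
import Pool.Agent.Lib.MP_39dc45_gt.SP.E2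
import Pool.Agent.Lib.MP_39dc45_gt.SP.E3
import Pool.Agent.Lib.MP_39dc45_gt.SP.E4
import Pool.Agent.Lib.MP_39dc45_gt.SP.E5
import Pool.Agent.Lib.MP_39dc45_gt.SP.E6
import Pool.Agent.Lib.MP_39dc45_gt.SP.Fen
import Pool.Agent.Lib.MP_39dc45_gt.SP.Fen0
import Pool.Agent.Lib.MP_39dc45_gt.SP.Final
import Pool.Agent.Lib.MP_39dc45_gt.SP.Fix
import Pool.Agent.Lib.MP_39dc45_gt.SP.G1
import Pool.Agent.Lib.MP_39dc45_gt.SP.G2
import Pool.Agent.Lib.MP_39dc45_gt.SP.G3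
import Pool.Agent.Lib.MP_39dc45_gt.SP.HE
import Pool.Agent.Lib.MP_39dc45_gt.SP.Hom
import Pool.Agent.Lib.MP_39dc45_gt.SP.Join
import Pool.Agent.Lib.MP_39dc45_gt.SP.Kf
import Pool.Agent.Lib.MP_39dc45_gt.SP.Lin
import Pool.Agent.Lib.MP_39dc45_gt.SP.M1
import Pool.Agent.Lib.MP_39dc45_gt.SP.M2
import Pool.Agent.Lib.MP_39dc45_gt.SP.M3
import Pool.Agent.Lib.MP_39dc45_gt.SP.M4
import Pool.Agent.Lib.MP_39dc45_gt.SP.M5
import Pool.Agent.Lib.MP_39dc45_gt.SP.M6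
import Pool.Agent.Lib.MP_39dc45_gt.SP.M7
import Pool.Agent.Lib.MP_39dc45_gt.SP.Mv1
import Pool.Agent.Lib.MP_39dc45_gt.SP.Mv2
import Pool.Agent.Lib.MP_39dc45_gt.SP.Mv3
import Pool.Agent.Lib.MP_39dc45_gt.SP.NB
import Pool.Agent.Lib.MP_39dc45_gt.SP.P0
import Pool.Agent.Lib.MP_39dc45_gt.SP.P1
import Pool.Agent.Lib.MP_39dc45_gt.SP.P2
import Pool.Agent.Lib.MP_39dc45_gt.SP.P3
import Pool.Agent.Lib.MP_39dc45_gt.SP.Poly
import Pool.Agent.Lib.MP_39dc45_gt.SP.PrInv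
import Pool.Agent.Lib.MP_39dc45_gt.SP.PrPt
import Pool.Agent.Lib.MP_39dc45_gt.SP.Psi
import Pool.Agent.Lib.MP_39dc45_gt.SP.Push
import Pool.Agent.Lib.MP_39dc45_gt.SP.R4a
import Pool.Agent.Lib.MP_39dc45_gt.SP.R4b
import Pool.Agent.Lib.MP_39dc45_gt.SP.R4c
import Pool.Agent.Lib.MP_39dc45_gt.SP.Real
import Pool.Agent.Lib.MP_39dc45_gt.SP.S3
import Pool.Agent.Lib.MP_39dc45_gt.SP.Sec
import Pool.Agent.Lib.MP_39dc45_gt.SP.TorK
import Pool.Agent.Lib.MP_39dc45_gt.SP.Trans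
import Pool.Agent.Lib.MP_39dc45_gt.SP.TriD
import Pool.Agent.Lib.MP_39dc45_gt.SP.TriProd
import Pool.Agent.Lib.MP_39dc45_gt.SP.TriS
import Pool.Agent.Lib.MP_39dc45_gt.SP.TriT
import Pool.Agent.Lib.MP_39dc45_gt.SP.V4
import Pool.Agent.Lib.MP_39dc45_gt.SP.Z2
import Pool.Agent.Lib.MP_39dc45_gt.SP.Z3

/-!
# MP_39dc45_gt: assembly
-/

noncomputable section

namespace Pool.Agent.Lib.MP_39dc45_gt.SP

/-- The counterexample, with the definitions used in the proof. -/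
theorem target : Target := by
  -- matrices
  have hM1 := stM1
  have hM2 := stM2
  have hM3 := stM3 hM1 hM2
  have hM4 := stM4 hM1 hM3
  have hM5 := stM5 hM1
  have hM6 := stM6
  have hM7 := stM7
  -- based complexes
  have hE1 := stE1
  have hE2 := stE2 hM1 hM5 hE1
  have hE3 := stE3
  have hE4 := stE4 hM4 hM6 hE1
  have hE5 := stE5 hM1 hM2 hM3 hE1 hE2
  have hE6 := stE6 hM5 hE1
  have hZ2 := stZ2 hM2
  have hZ3 := stZ3
  -- simplicial complexes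
  have hC1 := stC1
  have hC2 := stC2
  have hC3 := stC3 hE5 hE6 hC1 hC2
  have hC4 := stC4
  have hG1 := stG1
  have hG2 := stG2 hC2 hZ2 hZ3 hG1
  have hG3 := stG3
  -- products
  have hP0 := stP0 hC2 hE3
  have hP1 := stP1 hM4 hE1 hE2 hP0
  have hP2 := stP2 hE4 hG2 hP0
  have hP3 := stP3 hM7 hE2 hE5 hC4 hP0 hP1 hP2
  -- the two spheres
  have hFen0 := stFen0
  have hKf := stKf hFen0
  have hV4 := stV4
  have hPsi := stPsi hC2 hE4 hG2 hG3 hZ2 hZ3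
  have hJoin := stJoin stCirc hFen0 hE4 hE5 hE6 hC1 hZ3
  have hFen := stFen hE1
  have hTorK := stTorK hFen0 hKf hFen hJoin hPsi hC3
  have hAlg := stAlg hTorK hFen0 hKf hV4 hP0 hP3
  -- topology
  have hS3 := stS3
  have hLin := stLin hS3
  have hPoly := stPoly hS3 hLin stMv1 stMv2 stMv3
  have hSec := stSec
  have hTriT := stTriT hS3 hSec
  have hTriD := stTriD hSec
  have hPrPt := stPrPt
  have hTriProd := stTriProd hPrPt
  have hTriS := stTriS hS3 hSec hTriD hTriProd hPrPt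
  have hPush := stPush
  have hPrInv := stPrInv
  have hReal := stReal hS3 hSec hTriT hTriS hPush
  have hR4a := stR4a
  have hR4b := stR4b hR4a
  have hR4c := stR4c
  have hCov := stCov
  have hFix := stFix
  have hClosed := stClosed hCov
  have hHE := stHE hS3 hPoly stHom
  have hNB := stNB hCov hFix hR4c
  have hTrans := stTrans hCov hFix hR4c hNB
  exact stFinal hAlg hReal hTriT hTriS hTriProd hPush hPrInv hR4a hR4b hR4c hCov hClosed hHE hTrans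
    hKf hV4

/-- The counterexample. -/
theorem main :
    ∃ D : Data, D.p = 5 ∧ D.n = 4 ∧ D.l = 3 ∧
      ∃ (N : Type) (_ : TopologicalSpace N) (h : C(N, D.Mfd)),
        IsClosedManifold (D.n + D.l) N ∧ IsHtpyEquiv h ∧ SplitsAlong D.n h D.fixY ∧
          ¬ D.IsSimple h :=
  bridge target

end Pool.Agent.Lib.MP_39dc45_gt.SP
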