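import Pool.Agent.Lib.MP_39dc45_gt.SP.StT

/-!
# MP_39dc45_gt: invariance of the product formula
-/

noncomputable section

namespace Pool.Agent.Lib.MP_39dc45_gt.SP

namespace PrInvAux

theorem inv_iff {Γ V : Type} [Group Γ] [MulAction Γ V] {R : V → V → Prop} (hR : Inv Γ R)
    (γ : Γ) (v w : V) : R (γ • v) (γ • w) ↔ R v w := by
  refine ⟨fun h => ?_, hR γ v w⟩
  have h1 := hR γ⁻¹ _ _ h
  rwa [inv_smul_smul, inv_smul_smul] at h1

theorem lo_inv {Γ V : Type} [Group Γ] [MulAction Γ V] {R : V → V → Prop} (hR : Inv Γ R)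
    (γ : Γ) {y y1 : V → ℝ} (h : ∀ v, y1 (γ • v) = y v) (v : V) :
    lo R y1 (γ • v) = lo R y v := by
  unfold lo
  rw [← finsum_comp_equiv (MulAction.toPerm γ)]
  refine finsum_congr fun v' => ?_
  exact finsum_congr_Prop (propext (inv_iff hR γ v' v)) fun _ => h v'

end PrInvAux

open PrInvAux in
theorem stPrInv : StPrInv := by
  intro Γ V W _ _ _ RV RW hV hW γ y y1 y' y1' h h' p
  unfold prB
  change max 0 (min (lo RV y1 (γ • p.1) + y1 (γ • p.1)) (lo RW y1' (γ • p.2) + y1' (γ • p.2)) -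
    max (lo RV y1 (γ • p.1)) (lo RW y1' (γ • p.2))) = _
  rw [lo_inv hV γ h, lo_inv hW γ h', h, h']

end Pool.Agent.Lib.MP_39dc45_gt.SP
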