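import Pool.Agent.Lib.MP_39dc45_gt.SP.Ex2

/-!
# MP_39dc45_gt: statements of the algebraic modules
-/

open Matrix

noncomputable section

namespace Pool.Agent.Lib.MP_39dc45_gt.SP

/-! ## Matrices -/

/-- Independence of the contraction, existence, nonvanishing. -/
def StM1 : Prop := ∀ (J : Type) [Fintype J] [DecidableEq J] (deg : J → ℕ) (D : Matrix J J F31),
  Cx deg D →
    (∀ u u', TorM deg D u → TorM deg D u' → u = u') ∧ (∀ u, TorM deg D u → u ≠ 0) ∧
    ∀ S, Contr deg D S → ∃ u, TorM deg D u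

/-- Two out of three for contractions. -/
def StM2 : Prop := ∀ (J R : Type) [CommRing R] [Fintype J] [DecidableEq J] (deg : J → ℕ)
  (D : Matrix J J R) (Q : J → Prop) [DecidablePred Q], Cx deg D →
  (∀ i j, Q i → ¬ Q j → D i j = 0) →
    (∀ S1 S2, Contr (fun i : {j // Q j} => deg i) (sub Q D) S1 →
      Contr (fun i : {j // ¬ Q j} => deg i) (sub (fun j => ¬ Q j) D) S2 →
      ∃ S, Contr deg D S ∧ (∀ i j, Q i → ¬ Q j → S i j = 0) ∧ sub Q S = S1 ∧
        sub (fun j => ¬ Q j) S = S2) ∧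
    (∀ S S1, Contr deg D S → Contr (fun i : {j // Q j} => deg i) (sub Q D) S1 →
      ∃ S2, Contr (fun i : {j // ¬ Q j} => deg i) (sub (fun j => ¬ Q j) D) S2) ∧
    (∀ S S2, Contr deg D S →
      Contr (fun i : {j // ¬ Q j} => deg i) (sub (fun j => ¬ Q j) D) S2 →
      ∃ S1, Contr (fun i : {j // Q j} => deg i) (sub Q D) S1)

/-- Multiplicativity of the torsion. -/
def StM3 : Prop := ∀ (J : Type) [Fintype J] [DecidableEq J] (deg : J → ℕ)
  (D : Matrix J J F31) (Q : J → Prop) [DecidablePred Q], Cx deg D →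
  (∀ i j, Q i → ¬ Q j → D i j = 0) →
    ∀ u1 u2, TorM (fun i : {j // Q j} => deg i) (sub Q D) u1 →
      TorM (fun i : {j // ¬ Q j} => deg i) (sub (fun j => ¬ Q j) D) u2 → TorM deg D (u1 * u2)

/-- Multiplicativity for a filtration. -/
def StM4 : Prop := ∀ (J L : Type) [Fintype J] [DecidableEq J] [Fintype L] [DecidableEq L]
  (deg : J → ℕ) (D : Matrix J J F31) (p : J → L) (rk : L → ℕ), Cx deg D →
  (∀ i j, D i j ≠ 0 → p i = p j ∨ rk (p j) < rk (p i)) →
    ∀ u : L → F31, (∀ l, TorM (fun i : {j // p j = l} => deg i) (sub (fun j => p j = l) D) (u l)) →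
      TorM deg D (∏ l, u l)

/-- Invariance under monomial changes of basis and shifts of the degree. -/
def StM5 : Prop := ∀ (J J' : Type) [Fintype J] [DecidableEq J] [Fintype J'] [DecidableEq J']
  (deg : J → ℕ) (deg' : J' → ℕ) (D : Matrix J J F31) (D' : Matrix J' J' F31) (φ : J ≃ J')
  (c : J → F31) (k : ℕ), Cx deg D → (∀ i, c i ^ 10 = 1) → (∀ i, deg' (φ i) = deg i + k) →
  (∀ i j, c i * D' (φ i) (φ j) = D i j * c j) →
    ∀ u, TorM deg D u ↔ TorM deg' D' (if Even k then u else u⁻¹)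

/-- Integral contractible complexes have trivial torsion. -/
def StM6 : Prop := ∀ (J : Type) [Fintype J] [DecidableEq J] (deg : J → ℕ) (D S : Matrix J J ℤ),
  Cx deg D → Contr deg D S → TorM deg (D.map (Int.cast : ℤ → F31)) 1

/-- Whitehead-trivial complexes have trivial torsion. -/
def StM7 : Prop := ∀ (Γ : Type) [Group Γ] (χ : Γ →* F31), Ten χ →
  ∀ (J : Type) [Fintype J] [DecidableEq J] (deg : J → ℕ) (D S : Matrix J J (MonoidAlgebra ℤ Γ)),
    Contr deg D S → ∀ e, WhTrivial Γ (blk deg (D + S) e) →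
      TorM deg (D.map (MonoidAlgebra.lift ℤ F31 Γ χ)) 1

/-! ## Based complexes with a group action -/

/-- The twisted matrix is a complex. -/
def StE1 : Prop := ∀ (Γ I : Type) [Group Γ] [MulAction Γ I] (P : Set I) (deg : I → ℕ)
  (d : I → I → ℤ) (χ : Γ →* F31), EC Γ P deg d →
  ∀ (J : Type) [Fintype J] [DecidableEq J] (r : J → I), IsRep Γ P r →
    Cx (fun j => deg (r j)) (tw χ d r)

/-- The torsion does not depend on the representatives. -/
def StE2 : Prop := ∀ (Γ I : Type) [Group Γ] [MulAction Γ I] (P : Set I) (deg : I → ℕ)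
  (d : I → I → ℤ) (χ : Γ →* F31), EC Γ P deg d → Ten χ →
    (∀ u u', TorG Γ P deg d χ u → TorG Γ P deg d χ u' → u = u') ∧
    (∀ u, TorG Γ P deg d χ u → u ≠ 0) ∧
    ∀ (J : Type) [Fintype J] [DecidableEq J] (r : J → I), IsRep Γ P r →
      ∀ u, TorG Γ P deg d χ u ↔ TorM (fun j => deg (r j)) (tw χ d r) u

/-- Existence of representatives. -/
def StE3 : Prop := ∀ (Γ I : Type) [Group Γ] [MulAction Γ I] (P F : Set I),
  (∀ (γ : Γ) i, i ∈ P → γ • i ∈ P) → (∀ (γ : Γ) i, i ∈ P → γ • i = i → γ = 1) → F.Finite →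
  (∀ i ∈ P, ∃ γ : Γ, γ • i ∈ F) →
    ∃ (J : Type) (_ : Fintype J) (_ : DecidableEq J) (r : J → I), IsRep Γ P r

/-- The torsion of a complex with a free filtration with integrally contractible blocks. -/
def StE4 : Prop := ∀ (Γ I L : Type) [Group Γ] [MulAction Γ I] [MulAction Γ L] [DecidableEq I]
  (P : Set I) (deg : I → ℕ) (d : I → I → ℤ) (χ : Γ →* F31) (p : I → L) (rk : L → ℕ),
  EC Γ P deg d → Ten χ → (∀ (γ : Γ), ∀ i ∈ P, p (γ • i) = γ • p i) →
  (∀ (γ : Γ) l, rk (γ • l) = rk l) →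
  (∀ i ∈ P, ∀ j ∈ P, d i j ≠ 0 → p i = p j ∨ rk (p j) < rk (p i)) →
  (∀ i ∈ P, ∀ γ : Γ, γ • p i = p i → γ = 1) →
  (∃ F : Set L, F.Finite ∧ ∀ i ∈ P, ∃ γ : Γ, γ • p i ∈ F) →
  (∀ l, ∃ s : Finset I, (∀ i, i ∈ s ↔ i ∈ P ∧ p i = l) ∧ ZC deg d s) →
    TorG Γ P deg d χ 1

/-- Subcomplexes and quotients. -/
def StE5 : Prop := ∀ (Γ I : Type) [Group Γ] [MulAction Γ I] (P P1 P2 : Set I) (deg : I → ℕ)
  (d : I → I → ℤ) (χ : Γ →* F31), EC Γ P deg d → Ten χ → P = P1 ∪ P2 → Disjoint P1 P2 →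
  (∀ (γ : Γ) i, i ∈ P1 → γ • i ∈ P1) → (∀ (γ : Γ) i, i ∈ P2 → γ • i ∈ P2) →
  (∀ i ∈ P1, ∀ j ∈ P2, d i j = 0) →
    EC Γ P1 deg d ∧ EC Γ P2 deg d ∧
    (∀ u1 u2, TorG Γ P1 deg d χ u1 → TorG Γ P2 deg d χ u2 → TorG Γ P deg d χ (u1 * u2)) ∧
    (∀ u u1, TorG Γ P deg d χ u → TorG Γ P1 deg d χ u1 → TorG Γ P2 deg d χ (u * u1⁻¹)) ∧
    (∀ u u2, TorG Γ P deg d χ u → TorG Γ P2 deg d χ u2 → TorG Γ P1 deg d χ (u * u2⁻¹))

/-- Isomorphisms of complexes. -/
def StE6 : Prop := ∀ (Γ I I' : Type) [Group Γ] [MulAction Γ I] [MulAction Γ I'] (P : Set I)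
  (P' : Set I') (deg : I → ℕ) (deg' : I' → ℕ) (d : I → I → ℤ) (d' : I' → I' → ℤ) (χ : Γ →* F31)
  (φ : I → I') (ε : I → ℤ) (k : ℕ), EC Γ P deg d → Ten χ → Set.BijOn φ P P' →
  (∀ (γ : Γ), ∀ i ∈ P, φ (γ • i) = γ • φ i) → (∀ i ∈ P, deg' (φ i) = deg i + k) →
  (∀ i ∈ P, ε i = 1 ∨ ε i = -1) → (∀ (γ : Γ), ∀ i ∈ P, ε (γ • i) = ε i) →
  (∀ i ∈ P, ∀ j ∈ P, d' (φ i) (φ j) = ε i * ε j * d i j) →
    ∀ u, TorG Γ P deg d χ u ↔ TorG Γ P' deg' d' χ (if Even k then u else u⁻¹)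

/-! ## Finite complexes over `ℤ` -/

/-- Two out of three. -/
def StZ2 : Prop := ∀ (I : Type) [DecidableEq I] (deg : I → ℕ) (d : I → I → ℤ) (s1 s2 : Finset I),
  Disjoint s1 s2 → ZCx deg d (s1 ∪ s2) → (∀ i ∈ s1, ∀ j ∈ s2, d i j = 0) →
    (ZC deg d s1 → ZC deg d s2 → ZC deg d (s1 ∪ s2)) ∧
    (ZC deg d (s1 ∪ s2) → ZC deg d s1 → ZC deg d s2) ∧
    (ZC deg d (s1 ∪ s2) → ZC deg d s2 → ZC deg d s1)

/-- Isomorphisms. -/
def StZ3 : Prop := ∀ (I I' : Type) [DecidableEq I] [DecidableEq I'] (deg : I → ℕ) (deg' : I' → ℕ)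
  (d : I → I → ℤ) (d' : I' → I' → ℤ) (s : Finset I) (s' : Finset I') (φ : I → I') (ε : I → ℤ)
  (k : ℕ), Set.BijOn φ s s' → (∀ i ∈ s, deg' (φ i) = deg i + k) →
  (∀ i ∈ s, ε i = 1 ∨ ε i = -1) → (∀ i ∈ s, ∀ j ∈ s, d' (φ i) (φ j) = ε i * ε j * d i j) →
    (ZC deg d s ↔ ZC deg' d' s')

/-! ## Simplicial chain complexes -/

/-- The simplicial chain complex is a free complex. -/
def StC1 : Prop := ∀ (Γ V : Type) [Group Γ] [MulAction Γ V] (R : V → V → Prop), Asym R →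
  Inv Γ R → Free Γ V → EC Γ (plP R) List.length plD

/-- The mapping cone is a free complex. -/
def StC2 : Prop := ∀ (Γ V W : Type) [Group Γ] [MulAction Γ V] [MulAction Γ W] (RV : V → V → Prop)
  (RW : W → W → Prop) (f : V → W), Asym RV → Asym RW → Inv Γ RV → Inv Γ RW → Free Γ V →
  Free Γ W → IsSimp RV RW f → Equi Γ f → EC Γ (coP RV RW) cdeg (coD RW f)

/-- The torsion of the mapping cone. -/
def StC3 : Prop := ∀ (Γ V W : Type) [Group Γ] [MulAction Γ V] [MulAction Γ W] (RV : V → V → Prop)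
  (RW : W → W → Prop) (f : V → W) (χ : Γ →* F31), Ten χ → Asym RV → Asym RW → Inv Γ RV →
  Inv Γ RW → Free Γ V → Free Γ W → IsSimp RV RW f → Equi Γ f →
    (∀ a b, TorG Γ (plP RW) List.length plD χ a → TorG Γ (plP RV) List.length plD χ b →
      TorG Γ (coP RV RW) cdeg (coD RW f) χ (a * b⁻¹)) ∧
    (∀ a, TorG Γ (coP RV RW) cdeg (coD RW f) χ 1 → TorG Γ (plP RW) List.length plD χ a →
      TorG Γ (plP RV) List.length plD χ a)

/-- A contraction of the cone of `id × f` over `ℤ[Γ]` gives an integral contraction of the cone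
of `f`. -/
def StC4 : Prop := ∀ (Γ V K K' : Type) [Group Γ] [MulAction Γ V] [MulAction Γ K] [MulAction Γ K']
  [Nonempty V] [Fintype K] [Fintype K'] [DecidableEq K] [DecidableEq K'] (RV : V → V → Prop)
  (RK : K → K → Prop) (RK' : K' → K' → Prop) (f : K' → K), Asym RV → Asym RK → Asym RK' →
  Inv Γ RV → Inv Γ RK → Inv Γ RK' → IsSimp RK' RK f → Equi Γ f →
  ∀ (J : Type) [Fintype J] [DecidableEq J] (r : J → List (V × K) ⊕ List (V × K')),
    IsReps Γ (prodR RV RK') (prodR RV RK) r →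
    ∀ S, Contr (fun j => cdeg (r j)) (coneMat Γ (prodR RV RK) (Prod.map id f) r) S →
      ∃ B : Finset (List K ⊕ List K'), (∀ c, c ∈ B ↔ c ∈ coP RK' RK) ∧ ZC cdeg (coD RK f) B

/-- The contraction lemma: chains of pairs lying over a simplex or over its face opposite to the
last vertex form a contractible complex. -/
def StG1 : Prop := ∀ (V K : Type) [DecidableEq V] [DecidableEq K] [Fintype K]
  (RV : V → V → Prop) (RK : K → K → Prop), Asym RV → Asym RK →
  ∀ (s : Finset V) (v : V), v ∉ s → s.Nonempty → (∃ l : List V, l.Pairwise RV ∧ l.toFinset = s) →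
  (∀ a ∈ s, RV a v) →
    ∃ B : Finset (List (V × K)),
      (∀ l, l ∈ B ↔ l ∈ plP (prodR RV RK) ∧ (psupp l = s ∨ psupp l = insert v s)) ∧
      ZC List.length plD B

/-- If the cone of `f` is integrally contractible, so are all the blocks of the cone of
`id × f`. -/
def StG2 : Prop := ∀ (V K K' : Type) [DecidableEq V] [DecidableEq K] [Fintype K] [DecidableEq K']
  [Fintype K'] (RV : V → V → Prop) (RK : K → K → Prop) (RK' : K' → K' → Prop) (f : K' → K),
  Asym RV → Asym RK → Asym RK' → IsSimp RK' RK f →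
  (∃ B : Finset (List K ⊕ List K'), (∀ c, c ∈ B ↔ c ∈ coP RK' RK) ∧ ZC cdeg (coD RK f) B) →
  ∀ s : Finset V, ∃ B : Finset (List (V × K) ⊕ List (V × K')),
    (∀ c, c ∈ B ↔ c ∈ coP (prodR RV RK') (prodR RV RK) ∧ csupp c = s) ∧
    ZC cdeg (coD (prodR RV RK) (Prod.map id f)) B

/-- A complex with a smallest vertex is equivalent to a point. -/
def StG3 : Prop := ∀ (W : Type) [DecidableEq W] [Fintype W] (R : W → W → Prop) (m : W), Asym R →
  (∀ w, w ≠ m → R m w) →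
    ∃ B : Finset (List Unit ⊕ List W), (∀ c, c ∈ B ↔ c ∈ coP R (fun _ _ => False)) ∧
      ZC cdeg (coD (fun _ _ => False) (fun _ => ())) B

/-! ## The product with the torus -/

/-- The hypotheses for the product formula. -/
structure ProdHyp (Γ C V K K' : Type) [Group Γ] [Group C] [MulAction Γ V] [MulAction Γ K]
    [MulAction Γ K'] [MulAction C K] [MulAction C K'] (π : Γ →* C) (RV : V → V → Prop)
    (RK : K → K → Prop) (RK' : K' → K' → Prop) (f : K' → K) (w : Fin 5 → V) : Prop where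
  asV : Asym RV
  asK : Asym RK
  asK' : Asym RK'
  invV : Inv Γ RV
  invK : Inv C RK
  invK' : Inv C RK'
  freeK : Free C K
  freeK' : Free C K'
  simp : IsSimp RK' RK f
  equi : Equi C f
  compK : ∀ (γ : Γ) (k : K), γ • k = π γ • k
  compK' : ∀ (γ : Γ) (k : K'), γ • k = π γ • k
  stab : ∀ (v : V) (c : C), ∃! γ : Γ, γ • v = v ∧ π γ = c
  free2 : ∀ v v', RV v v' → ∀ γ : Γ, γ • v = v → γ • v' = v' → γ = 1
  orb : ∀ v, ∃! i, ∃ γ : Γ, γ • w i = v
  loc : ∀ v, {v' | RV v v'}.Finite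

/-- The cone of `id × f` is a free complex with finitely many orbits. -/
def StP0 : Prop := ∀ (Γ C V K K' : Type) [Group Γ] [Group C] [MulAction Γ V] [MulAction Γ K]
  [MulAction Γ K'] [MulAction C K] [MulAction C K'] [Fintype K] [Fintype K'] (π : Γ →* C)
  (RV : V → V → Prop) (RK : K → K → Prop) (RK' : K' → K' → Prop) (f : K' → K) (w : Fin 5 → V),
  ProdHyp Γ C V K K' π RV RK RK' f w →
    EC Γ (coP (prodR RV RK') (prodR RV RK)) cdeg (coD (prodR RV RK) (Prod.map id f)) ∧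
    EC C (coP RK' RK) cdeg (coD RK f) ∧
    ∃ (J : Type) (_ : Fintype J) (_ : DecidableEq J) (r : J → List (V × K) ⊕ List (V × K')),
      IsReps Γ (prodR RV RK') (prodR RV RK) r

/-- The part over the vertices. -/
def StP1 : Prop := ∀ (Γ C V K K' : Type) [Group Γ] [Group C] [MulAction Γ V] [MulAction Γ K]
  [MulAction Γ K'] [MulAction C K] [MulAction C K'] [Fintype K] [Fintype K'] [DecidableEq V]
  (π : Γ →* C) (RV : V → V → Prop) (RK : K → K → Prop) (RK' : K' → K' → Prop) (f : K' → K)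
  (w : Fin 5 → V) (χ : C →* F31), ProdHyp Γ C V K K' π RV RK RK' f w → Ten χ →
  ∀ u, TorG C (coP RK' RK) cdeg (coD RK f) χ u →
    TorG Γ {c | c ∈ coP (prodR RV RK') (prodR RV RK) ∧ (csupp c).card = 1} cdeg
      (coD (prodR RV RK) (Prod.map id f)) (χ.comp π) (u ^ 5)

/-- The part over the other simplices. -/
def StP2 : Prop := ∀ (Γ C V K K' : Type) [Group Γ] [Group C] [MulAction Γ V] [MulAction Γ K]
  [MulAction Γ K'] [MulAction C K] [MulAction C K'] [Fintype K] [Fintype K'] [DecidableEq V]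
  [DecidableEq K] [DecidableEq K']
  (π : Γ →* C) (RV : V → V → Prop) (RK : K → K → Prop) (RK' : K' → K' → Prop) (f : K' → K)
  (w : Fin 5 → V) (χ : C →* F31), ProdHyp Γ C V K K' π RV RK RK' f w → Ten χ →
  (∃ B : Finset (List K ⊕ List K'), (∀ c, c ∈ B ↔ c ∈ coP RK' RK) ∧ ZC cdeg (coD RK f) B) →
    TorG Γ {c | c ∈ coP (prodR RV RK') (prodR RV RK) ∧ 2 ≤ (csupp c).card} cdeg
      (coD (prodR RV RK) (Prod.map id f)) (χ.comp π) 1

/-- The product formula: if the torsion of `id × f` is trivial in `Wh(Γ)`, then `u ^ 5 = 1`. -/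
def StP3 : Prop := ∀ (Γ C V K K' : Type) [Group Γ] [Group C] [MulAction Γ V] [MulAction Γ K]
  [MulAction Γ K'] [MulAction C K] [MulAction C K'] [Fintype K] [Fintype K'] [DecidableEq V]
  [DecidableEq K] [DecidableEq K']
  (π : Γ →* C) (RV : V → V → Prop) (RK : K → K → Prop) (RK' : K' → K' → Prop) (f : K' → K)
  (w : Fin 5 → V) (χ : C →* F31), ProdHyp Γ C V K K' π RV RK RK' f w → Ten χ →
  ∀ u, TorG C (coP RK' RK) cdeg (coD RK f) χ u →
  ∀ (J : Type) [Fintype J] [DecidableEq J] (r : J → List (V × K) ⊕ List (V × K')),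
    IsReps Γ (prodR RV RK') (prodR RV RK) r →
    TorsionTrivial Γ (prodR RV RK) (Prod.map id f) r → u ^ 5 = 1

/-! ## The torsion of the two spheres -/

/-- The map `Kp A B → A ⊕ B` has trivial torsion. -/
def StPsi : Prop := ∀ (C A B : Type) [Group C] [MulAction C A] [MulAction C B] [Fintype A]
  [Fintype B] [DecidableEq A] [DecidableEq B] (RA : A → A → Prop) (RB : B → B → Prop)
  (χ : C →* F31), Ten χ → Asym RA → Asym RB → Inv C RA → Inv C RB → Free C A → Free C B →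
    TorG C (coP (kpR RA RB) (sumR RA RB)) cdeg (coD (sumR RA RB) psi) χ 1

/-- The augmented boundary (of the chain complex with the empty simplex). -/
def bdA {V : Type} (l : List V) : List V →₀ ℤ :=
  ∑ i ∈ Finset.range l.length, Finsupp.single (l.eraseIdx i) ((-1 : ℤ) ^ i)

/-- The complex of the fence (augmented), with the fundamental cycle made a boundary:
cells `none` (degree 3) and `some l`, `l` a simplex or empty. -/
def circD (m c : ℕ) : Option (List (Fen m c)) → Option (List (Fen m c)) → ℤ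
  | none, some [s, s'] =>
      if Even s.val ∧ s' = s + Fen.of m c 1 then 1
      else if Even s.val ∧ s' = s - Fen.of m c 1 then -1 else 0
  | some l, some l' => bdA l l'
  | _, _ => 0

/-- The degree in the complex of the fence. -/
def circDeg {V : Type} : Option (List V) → ℕ
  | none => 3
  | some l => l.length

/-- This complex is contractible. -/
def StCirc : Prop := ∀ (m c : ℕ) [FenOK m c], ∃ B : Finset (Option (List (Fen m c))),
  (∀ x, x ∈ B ↔ x = none ∨ ∃ l, x = some l ∧ l.Pairwise (fenR m c)) ∧ ZC circDeg (circD m c) B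

/-- The torsion of the join of two fences. -/
def StJoin : Prop := ∀ (m c : ℕ) [FenOK m c] (χ : Cyc 5 →* F31) (u : F31), Ten χ →
  TorG (Cyc 5) (plP (fenR m c)) List.length plD χ u →
    TorG (Cyc 5) (plP (sumR (fenR m c) (fenR m c))) List.length plD χ (u * u)

/-- The torsions of the fences. -/
def StFen : Prop :=
  TorG (Cyc 5) (plP (fenR 10 4)) List.length plD chi5 5 ∧
  TorG (Cyc 5) (plP (fenR 30 6)) List.length plD chi5 1

/-- Properties of the fences. -/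
def StFen0 : Prop := (∀ (m c : ℕ) [FenOK m c], Asym (fenR m c) ∧ Inv (Cyc 5) (fenR m c) ∧
  Free (Cyc 5) (Fen m c)) ∧ Ten chi5

/-- The simplicial map of the spheres. -/
def StKf : Prop := Asym RS ∧ Asym RT ∧ Inv (Cyc 5) RS ∧ Inv (Cyc 5) RT ∧ Free (Cyc 5) KS ∧
  Free (Cyc 5) KT ∧ IsSimp RS RT fK ∧ Equi (Cyc 5) fK

/-- The combinatorics of the triangulation of `ℝ⁴`. -/
def StV4 : Prop := Asym R4 ∧ Inv exR.Gam R4 ∧
  (∀ (v : V4) (c : Cyc 5), ∃! γ : exR.Gam, γ • v = v ∧ piG γ = c) ∧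
  (∀ v v', R4 v v' → ∀ γ : exR.Gam, γ • v = v → γ • v' = v' → γ = 1) ∧
  (∃ w : Fin 5 → V4, ∀ v, ∃! i, ∃ γ : exR.Gam, γ • w i = v) ∧
  ∀ v, {v' | R4 v v'}.Finite

/-- The torsion of `fK` is `25`. -/
def StTorK : Prop := TorG (Cyc 5) (coP RS RT) cdeg (coD RT fK) chi5 25

/-- The algebraic conclusion. -/
def StAlg : Prop :=
  (∃ (J : Type) (_ : Fintype J) (_ : DecidableEq J) (r : J → List (V4 × KT) ⊕ List (V4 × KS)),
    IsReps exR.Gam (prodR R4 RS) (prodR R4 RT) r) ∧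
  ∀ (J : Type) [Fintype J] [DecidableEq J] (r : J → List (V4 × KT) ⊕ List (V4 × KS)),
    IsReps exR.Gam (prodR R4 RS) (prodR R4 RT) r →
      ¬ TorsionTrivial exR.Gam (prodR R4 RT) (Prod.map id fK : V4 × KS → V4 × KT) r

end Pool.Agent.Lib.MP_39dc45_gt.SP
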