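import Pool.Agent.Lib.MP_39dc45_gt.SP.StA

/-!
# MP_39dc45_gt: statements of the topological modules
-/

open scoped Topology
open Matrix

noncomputable section

namespace Pool.Agent.Lib.MP_39dc45_gt.SP

/-! ## Polynomial maps of `S³` -/

/-- Homotopy commuting with the fifth roots of unity. -/
def Hmt5 (F G : Sph 3 → Sph 3) : Prop :=
  ∃ H : C(Sph 3 × unitInterval, Sph 3), (∀ s, H (s, 0) = F s) ∧ (∀ s, H (s, 1) = G s) ∧
    ∀ u : Circle, u ^ 5 = 1 → ∀ s t, H (rotH u s, t) = rotH u (H (s, t))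

/-- The segment from `(p, q)` to `(p', q')` does not contain zero. -/
def Seg (p q p' q' : ℂ) : Prop :=
  ∀ t : ℝ, 0 ≤ t → t ≤ 1 → ¬ ((1 - t) * p + t * p' = 0 ∧ (1 - t) * q + t * q' = 0)

/-- `P` commutes with the fifth roots of unity. -/
def Eq5 (P : ℂ → ℂ → ℂ) : Prop := ∀ u : ℂ, u ^ 5 = 1 → ‖u‖ = 1 → ∀ z w, P (u * z) (u * w) = u * P z w

/-- Linear homotopies. -/
def StLin : Prop := ∀ P Q P' Q' : ℂ → ℂ → ℂ,
  Continuous (fun s : Sph 3 => P (zc s) (wc s)) → Continuous (fun s : Sph 3 => Q (zc s) (wc s)) →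
  Continuous (fun s : Sph 3 => P' (zc s) (wc s)) → Continuous (fun s : Sph 3 => Q' (zc s) (wc s)) →
  Eq5 P → Eq5 Q → Eq5 P' → Eq5 Q' →
  (∀ s : Sph 3, Seg (P (zc s) (wc s)) (Q (zc s) (wc s)) (P' (zc s) (wc s)) (Q' (zc s) (wc s))) →
    Hmt5 (fun s => toS (P (zc s) (wc s)) (Q (zc s) (wc s)))
      (fun s => toS (P' (zc s) (wc s)) (Q' (zc s) (wc s)))

/-- `|z|²`. -/
def nz (z : ℂ) : ℝ := Complex.normSq z

/-- Complex conjugation. -/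
abbrev cj (z : ℂ) : ℂ := starRingEnd ℂ z

/-- Stage 0 (with a parameter `r > 0`). -/
def gP0 (r : ℝ) (z w : ℂ) : ℂ := (cj z ^ 2 + w ^ 3) ^ 2 + r * (z * w) ^ 3
/-- Stage 0. -/
def gQ0 (z w : ℂ) : ℂ := (cj z ^ 2 + w ^ 3) * (cj z * cj w)
/-- Stage 1. -/
def gP1 (z w : ℂ) : ℂ := (max 0 (nz z - 7/10) : ℝ) * cj z ^ 4
  + (max 0 (min (nz z - 3/10) (6/10 - nz z)) : ℝ) * (z ^ 3 * w ^ 3)
  + Complex.I * (max 0 (2/10 - nz z) : ℝ) * w ^ 6
/-- Stage 2. -/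
def gQ2 (z w : ℂ) : ℂ := (max 0 (nz z - 8/10) : ℝ) * z
  + (max 0 (min (nz z - 5/10) (9/10 - nz z)) : ℝ) * (cj z ^ 3 * cj w)
  + (max 0 (4/10 - nz z) : ℝ) * (cj z * w ^ 2)
/-- Stage 3. -/
def gP4 (z w : ℂ) : ℂ := -(max 0 (nz z - 5/10) : ℝ) * w
  + (max 0 (min (nz z - 3/10) (7/10 - nz z)) : ℝ) * (z ^ 3 * w ^ 3)
  - (max 0 (2/10 - nz z) : ℝ) * w ^ 6
/-- Stage 4. -/
def gQ6 (z w : ℂ) : ℂ := (max 0 (nz z - 8/10) : ℝ) * z
  + (max 0 (min (nz z - 35/100) (9/10 - nz z)) : ℝ) * w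
  + (max 0 (45/100 - nz z) : ℝ) * (cj z * w ^ 2)
/-- Stage 5. -/
def gP8 (z w : ℂ) : ℂ := (max 0 (nz z - 5/10) : ℝ) * z - (max 0 (7/10 - nz z) : ℝ) * w ^ 6

/-- Moves 1 and 2. -/
def StMv1 : Prop := ∀ z w : ℂ, nz z + nz w = 1 →
  (∀ r : ℝ, 0 < r → Seg (gP0 r z w) (gQ0 z w) (gP1 z w) (gQ0 z w)) ∧
  Seg (gP1 z w) (gQ0 z w) (gP1 z w) (gQ2 z w)

/-- Moves 3 and 4. -/
def StMv2 : Prop := ∀ z w : ℂ, nz z + nz w = 1 →
  Seg (gP1 z w) (gQ2 z w) (gP4 z w) (gQ2 z w) ∧ Seg (gP4 z w) (gQ2 z w) (gP4 z w) (gQ6 z w)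

/-- Moves 5, 6 and 7. -/
def StMv3 : Prop := ∀ z w : ℂ, nz z + nz w = 1 →
  Seg (gP4 z w) (gQ6 z w) (gP8 z w) (gQ6 z w) ∧ Seg (gP8 z w) (gQ6 z w) (gP8 z w) w ∧
  Seg (gP8 z w) w z w

/-- Basic facts on `S³`. -/
def StS3 : Prop :=
  Continuous zc ∧ Continuous wc ∧ (∀ s, nz (zc s) + nz (wc s) = 1) ∧
  (∀ s s', zc s = zc s' → wc s = wc s' → s = s') ∧
  (∀ (u : Circle) s, zc (rotH u s) = u * zc s ∧ wc (rotH u s) = u * wc s) ∧
  (∀ s, toS (zc s) (wc s) = s) ∧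
  (∀ z w : ℂ, (z, w) ≠ 0 → zc (toS z w) = z / (Real.sqrt (nz z + nz w) : ℝ) ∧
    wc (toS z w) = w / (Real.sqrt (nz z + nz w) : ℝ)) ∧
  (∀ (r : ℝ) (z w : ℂ), 0 < r → toS (r * z) (r * w) = toS z w) ∧
  (∀ (u : Circle) (z w : ℂ), (z, w) ≠ 0 → toS (u * z) (u * w) = rotH u (toS z w)) ∧
  (∀ (X : Type) [TopologicalSpace X] (P Q : X → ℂ), Continuous P → Continuous Q →
    (∀ x, (P x, Q x) ≠ 0) → Continuous (fun x => toS (P x) (Q x))) ∧
  Continuous FP ∧ Continuous FG ∧ EqvS .src .tgt FP ∧ EqvS .tgt .src FG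

/-- The two polynomial maps are inverse to each other up to equivariant homotopy. -/
def StPoly : Prop := HmtE .src .src (fun s => FG (FP s)) id ∧
  HmtE .tgt .tgt (fun s => FP (FG s)) id

/-! ## Sector coordinates -/

/-- Sector coordinates. -/
def StSec : Prop := ∀ (m : ℕ) [NeZero m], 4 ≤ m →
  (∀ z : ℂ, ∃ (k : ZMod m) (a b : ℝ), 0 ≤ a ∧ 0 ≤ b ∧ z = a * eC m k + b * eC m (k + 1)) ∧
  (∀ (k : ZMod m) (a b : ℝ), 0 ≤ a → 0 ≤ b → ∀ j, sec m (a * eC m k + b * eC m (k + 1)) j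
    = if j = k then a else if j = k + 1 then b else 0) ∧
  (∀ k, Continuous fun z => sec m z k) ∧
  (∀ (l : ZMod m) z k, sec m (eC m l * z) (k + l) = sec m z k) ∧
  (∀ (t : ℝ) z k, 0 ≤ t → sec m (t * z) k = t * sec m z k) ∧
  (∀ z, z = ∑ k, (sec m z k : ℂ) * eC m k) ∧ (∀ z k, 0 ≤ sec m z k) ∧
  Continuous (sN m) ∧ (∀ z, sN m z = 0 ↔ z = 0) ∧ (∀ z, 0 ≤ sN m z)

/-! ## Triangulations -/

/-- The target sphere. -/
def StTriT : Prop := IsTri RT bT ∧ ∀ (g : Cyc 5) s q, bT (act5 .tgt g s) (g • q) = bT s q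

/-- The disc. -/
def StTriD : Prop := IsTri (X := {z : ℂ // sN 30 z ≤ 1}) (optR (fenR 30 6)) (fun z => dC z) ∧
  ∀ (g : Cyc 5) (z : ℂ) q,
    dC ((ZMod.toCircle (N := 5) (Multiplicative.toAdd g) : Circle) * z) (g • q) = dC z q

/-- The product of two triangulations. -/
def StTriProd : Prop := ∀ (X Y V W : Type) [TopologicalSpace X] [TopologicalSpace Y]
  (RV : V → V → Prop) (RW : W → W → Prop) (b : X → V → ℝ) (b' : Y → W → ℝ), IsTri RV b →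
  IsTri RW b' → IsTri (prodR RV RW) (fun x : X × Y => prB RV RW (b x.1) (b' x.2))

/-- Points of the product: the formula gives a point, with the right marginals, and every point is
of this form. -/
def StPrPt : Prop := ∀ (V W : Type) (RV : V → V → Prop) (RW : W → W → Prop), Asym RV → Asym RW →
  (∀ (y : V → ℝ) (y' : W → ℝ), IsPt RV y → IsPt RW y' → IsPt (prodR RV RW) (prB RV RW y y') ∧
    (∀ v, y v = ∑ᶠ w, prB RV RW y y' (v, w)) ∧ ∀ w, y' w = ∑ᶠ v, prB RV RW y y' (v, w)) ∧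
  ∀ q : V × W → ℝ, IsPt (prodR RV RW) q → ∃ y y', IsPt RV y ∧ IsPt RW y' ∧ prB RV RW y y' = q

/-- The source sphere. -/
def StTriS : Prop := IsTri RS bS ∧ ∀ (g : Cyc 5) s p, bS (act5 .src g s) (g • p) = bS s p

/-- Simplicial maps act on points, compatibly with products. -/
def StPush : Prop := ∀ (V W W' : Type) (RV : V → V → Prop) (RW : W → W → Prop)
  (RW' : W' → W' → Prop) (f : W → W'), Asym RV → Asym RW → Asym RW' → IsSimp RW RW' f →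
  ∀ (y : V → ℝ) (y' : W → ℝ), IsPt RV y → IsPt RW y' →
    IsPt RW' (fun q => ∑ᶠ (p : W) (_ : p ∈ f ⁻¹' {q}), y' p) ∧
    ∀ r : V × W', prB RV RW' y (fun q => ∑ᶠ (p : W) (_ : p ∈ f ⁻¹' {q}), y' p) r
      = ∑ᶠ (p : V × W) (_ : p ∈ (Prod.map id f) ⁻¹' {r}), prB RV RW y y' p

/-- Invariance of the product formula under a group preserving the relations. -/
def StPrInv : Prop := ∀ (Γ V W : Type) [Group Γ] [MulAction Γ V] [MulAction Γ W]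
  (RV : V → V → Prop) (RW : W → W → Prop), Inv Γ RV → Inv Γ RW →
  ∀ (γ : Γ) (y y1 : V → ℝ) (y' y1' : W → ℝ), (∀ v, y1 (γ • v) = y v) →
    (∀ w, y1' (γ • w) = y' w) → ∀ p : V × W, prB RV RW y1 y1' (γ • p) = prB RV RW y y' p

/-- The realisation of `fK`, homotopic to the polynomial map. -/
def StReal : Prop := ∃ FS : Sph 3 → Sph 3, Continuous FS ∧ EqvS .src .tgt FS ∧
  (∀ s q, bT (FS s) q = ∑ᶠ (p : KS) (_ : p ∈ fK ⁻¹' {q}), bS s p) ∧ HmtE .src .tgt FS FP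

/-- The triangulation of `ℝ⁴`: points. -/
def StR4a : Prop := ∀ x, IsPt R4 (b4 x)

/-- The triangulation of `ℝ⁴`: bijectivity. -/
def StR4b : Prop := ∀ y, IsPt R4 y → ∃! x, b4 x = y

/-- The triangulation of `ℝ⁴`: the other properties. -/
def StR4c : Prop := (∀ v, Continuous fun x => b4 x v) ∧ (LocallyFinite fun v => {x | b4 x v ≠ 0}) ∧
  (∀ l : List V4, l.Pairwise R4 → IsCompact {x | ∀ v, b4 x v ≠ 0 → v ∈ l}) ∧
  (∀ (γ : exR.Gam) (x : Fin 4 → ℝ) (v : V4),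
    osc4 ((exR.mat γ.g).map (Int.cast : ℤ → ℝ) *ᵥ x + fun i => (γ.v i : ℝ)) (γ • v) = osc4 x v) ∧
  ∀ (γ : exR.Gam) (x : Fin 4 → ℝ) (v : V4),
    b4 ((exR.mat γ.g).map (Int.cast : ℤ → ℝ) *ᵥ x + fun i => (γ.v i : ℝ)) (γ • v) = b4 x v

/-! ## The manifolds -/

/-- The projection is a covering with group `Γ`. -/
def StCov : Prop := ∀ D : Dat, IsQuotientCoveringMap D.proj D.Gam

/-- `M` is a closed manifold. -/
def StClosed : Prop := ∀ D : Dat, IsClosedManifold (D.n + D.l) D.Mfd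

/-- Equivariant homotopies induce homotopies of the manifolds (preserving the torus coordinate). -/
def StHom : Prop := ∀ (σ τ : Side) (H : C(Sph 3 × unitInterval, Sph 3)),
  (∀ g s t, H (act5 σ g s, t) = act5 τ g (H (s, t))) →
    ∃ K : C((exD σ).Mfd × unitInterval, (exD τ).Mfd), ∀ (x : Tor 4) (s : Sph 3) t,
      K (Quot.mk _ (x, s), t) = Quot.mk _ (x, H (s, t))

/-- The induced map is a homotopy equivalence, and so is its restriction to the preimage of the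
submanifold. -/
def StHE : Prop := ∀ (F : C(Sph 3, Sph 3)) (hF : EqvS .src .tgt F), HmtE .src .tgt F FP →
  IsHtpyEquiv (mapM .src .tgt F hF) ∧ IsHtpyEquiv (restrictTo (mapM .src .tgt F hF) (exD .tgt).fixY)

/-- Fixed points of the torus. -/
def StFix : Prop := (∀ x : Fin 4 → ℝ, (∀ g, matAct (exR.mat g) (fun i => ((x i : ℝ) : UnitAddCircle))
    = fun i => ((x i : ℝ) : UnitAddCircle)) ↔ ∃ v : V4, x = vhat v) ∧
  (∀ (x : Fin 4 → ℝ) (v v' : V4), osc4 x v < 1 / 2 → osc4 x v' < 1 / 2 → v = v') ∧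
  (∀ (v : V4) x, osc4 x v = 0 ↔ x = vhat v) ∧ (∀ x v, 0 ≤ osc4 x v) ∧
  (∀ (γ : exR.Gam) (v : V4),
    (exR.mat γ.g).map (Int.cast : ℤ → ℝ) *ᵥ vhat v + (fun i => (γ.v i : ℝ)) = vhat (γ • v)) ∧
  ∀ v : V4, ∃ e : {x : Fin 4 → ℝ // osc4 x v < 1 / 2} ≃ₜ (Fin 4 → ℝ),
    ∀ x : {x : Fin 4 → ℝ // osc4 x v < 1 / 2}, (x : Fin 4 → ℝ) = vhat v → e x = 0

/-- The normal bundle of the submanifold. -/
def StNB : Prop := ∀ σ : Side, ∃ (U : Set (exD σ).Mfd) (r : (exD σ).Mfd → (exD σ).Mfd),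
  IsNormalBundle 4 (exD σ).fixY U r ∧
  (∀ (x : Fin 4 → ℝ) (s : Sph 3), (exD σ).proj (x, s) ∈ U ↔ ∃ v, osc4 x v < 1 / 2) ∧
  ∀ (x : Fin 4 → ℝ) (s : Sph 3) v, osc4 x v < 1 / 2 →
    r ((exD σ).proj (x, s)) = (exD σ).proj (vhat v, s)

/-- The induced map is transverse to the submanifold. -/
def StTrans : Prop := ∀ (F : C(Sph 3, Sph 3)) (hF : EqvS .src .tgt F),
  IsTransverse 4 (mapM .src .tgt F hF) (exD .tgt).fixY

/-- The final step. -/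
def StFinal : Prop := Target

end Pool.Agent.Lib.MP_39dc45_gt.SP
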