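import Pool.Agent.Lib.MP_39dc45_gt.SP.StT

/-!
# MP_39dc45_gt: transversality of the induced map
-/

open scoped Topology
open Matrix

noncomputable section

namespace Pool.Agent.Lib.MP_39dc45_gt.SP

namespace TransAux

/-- The affine action on `ℝ⁴`. -/
def aff (γ : exR.Gam) (x : Fin 4 → ℝ) : Fin 4 → ℝ :=
  (exR.mat γ.g).map (Int.cast : ℤ → ℝ) *ᵥ x + fun i => (γ.v i : ℝ)

/-- The projection, with the types spelled out. -/
def pr (σ : Side) (x : Fin 4 → ℝ) (s : Sph 3) : (exD σ).Mfd := (exD σ).proj (x, s)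

theorem exists_of_eq (hC : StCov) (σ : Side) {x y : Fin 4 → ℝ} {s t : Sph 3}
    (h : pr σ x s = pr σ y t) : ∃ γ : exR.Gam, aff γ x = y ∧ act5 σ γ.g s = t := by
  have h1 := ((hC (exD σ)).apply_eq_iff_mem_orbit (e₁ := ((y, t) : (exD σ).Cov))
    (e₂ := ((x, s) : (exD σ).Cov))).1 h.symm
  obtain ⟨γ, hγ⟩ := h1
  exact ⟨γ, congrArg Prod.fst hγ, congrArg Prod.snd hγ⟩

theorem pr_aff (hC : StCov) (σ : Side) (γ : exR.Gam) (x : Fin 4 → ℝ) (s : Sph 3) :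
    pr σ (aff γ x) (act5 σ γ.g s) = pr σ x s :=
  ((hC (exD σ)).apply_eq_iff_mem_orbit
    (e₁ := ((aff γ x, act5 σ γ.g s) : (exD σ).Cov)) (e₂ := ((x, s) : (exD σ).Cov))).2 ⟨γ, rfl⟩

theorem exists_lift (y : Tor 4) : ∃ x : Fin 4 → ℝ, (fun i => ((x i : ℝ) : UnitAddCircle)) = y := by
  have h : ∀ i, ∃ a : ℝ, ((a : ℝ) : UnitAddCircle) = y i := fun i =>
    QuotientAddGroup.mk_surjective (y i)
  choose x hx using h
  exact ⟨x, funext hx⟩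

theorem exists_pr (σ : Side) (m : (exD σ).Mfd) : ∃ x s, m = pr σ x s := by
  induction m using Quot.ind with
  | mk a =>
    obtain ⟨y, s⟩ := a
    obtain ⟨x, hx⟩ := exists_lift y
    refine ⟨x, s, ?_⟩
    subst hx
    rfl

theorem vhat_aff (hF : StFix) (γ : exR.Gam) (v : V4) : aff γ (vhat v) = vhat (γ • v) :=
  hF.2.2.2.2.1 γ v

theorem vhat_inj (hF : StFix) {v w : V4} (h : vhat v = vhat w) : v = w := by
  refine hF.2.1 (vhat v) v w ?_ ?_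
  · rw [(hF.2.2.1 v (vhat v)).2 rfl]
    norm_num
  · rw [(hF.2.2.1 w (vhat v)).2 h]
    norm_num

theorem mem_fix (hC : StCov) (hF : StFix) (σ : Side) (x : Fin 4 → ℝ) (s : Sph 3) :
    pr σ x s ∈ (exD σ).fixY ↔ ∃ v, x = vhat v := by
  constructor
  · rintro ⟨y, t, hy, h⟩
    obtain ⟨y', rfl⟩ := exists_lift y
    obtain ⟨v, hv⟩ := (hF.1 y').1 hy
    have h1 : pr σ y' t = pr σ x s := h.symm
    obtain ⟨γ, h2, -⟩ := exists_of_eq hC σ h1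
    rw [hv, vhat_aff hF] at h2
    exact ⟨_, h2.symm⟩
  · rintro ⟨v, hv⟩
    exact ⟨_, s, (hF.1 x).2 ⟨v, hv⟩, rfl⟩

theorem mapM_pr (F : C(Sph 3, Sph 3)) (hE : EqvS .src .tgt F) (x : Fin 4 → ℝ) (s : Sph 3) :
    mapM .src .tgt F hE (pr .src x s) = pr .tgt x (F s) := rfl

theorem preimage_fix (hC : StCov) (hF : StFix) (F : C(Sph 3, Sph 3)) (hE : EqvS .src .tgt F) :
    (mapM .src .tgt F hE) ⁻¹' (exD .tgt).fixY = (exD .src).fixY := by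
  ext m
  obtain ⟨x, s, rfl⟩ := exists_pr .src m
  rw [Set.mem_preimage, mapM_pr, mem_fix hC hF, mem_fix hC hF]

/-- The normal form of points over `[vhat v₀, s₀]`. -/
theorem nf (hC : StCov) (hF : StFix) (hR : StR4c) (σ : Side) {r : (exD σ).Mfd → (exD σ).Mfd}
    (hr : ∀ (x : Fin 4 → ℝ) (s : Sph 3) v, osc4 x v < 1 / 2 →
      r (pr σ x s) = pr σ (vhat v) s)
    {x : Fin 4 → ℝ} {s : Sph 3} (hx : ∃ v, osc4 x v < 1 / 2) {v₀ : V4} {s₀ : Sph 3}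
    (h : r (pr σ x s) = pr σ (vhat v₀) s₀) :
    ∃ x', pr σ x s = pr σ x' s₀ ∧ osc4 x' v₀ < 1 / 2 := by
  obtain ⟨v, hv⟩ := hx
  rw [hr x s v hv] at h
  obtain ⟨γ, h1, h2⟩ := exists_of_eq hC σ h
  rw [vhat_aff hF] at h1
  have h3 := vhat_inj hF h1
  refine ⟨aff γ x, ?_, ?_⟩
  · rw [← h2, pr_aff hC]
  · rw [← h3]
    have h4 : osc4 (aff γ x) (γ • v) = osc4 x v := hR.2.2.2.1 γ x v
    rw [h4]
    exact hv

theorem aff_one (γ : exR.Gam) (hγ : γ.g = 1) (x : Fin 4 → ℝ) :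
    aff γ x = x + fun i => (γ.v i : ℝ) := by
  unfold aff
  rw [hγ, Rep.mat_one]
  congr 1
  ext i
  simp

end TransAux

open TransAux in
theorem stTrans : StCov → StFix → StR4c → StNB → StTrans := by
  intro hC hF hR hN F hE
  obtain ⟨U, r, hU1, hU2, hU3⟩ := hN .tgt
  obtain ⟨U', r', hV1, hV2, hV3⟩ := hN .src
  have hU2' : ∀ x s, pr .tgt x s ∈ U ↔ ∃ v, osc4 x v < 1 / 2 := hU2
  have hV2' : ∀ x s, pr .src x s ∈ U' ↔ ∃ v, osc4 x v < 1 / 2 := hV2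
  have hU3' : ∀ (x : Fin 4 → ℝ) (s : Sph 3) v, osc4 x v < 1 / 2 →
    r (pr .tgt x s) = pr .tgt (vhat v) s := hU3
  have hV3' : ∀ (x : Fin 4 → ℝ) (s : Sph 3) v, osc4 x v < 1 / 2 →
    r' (pr .src x s) = pr .src (vhat v) s := hV3
  have hg : ∀ x s, mapM .src .tgt F hE (pr .src x s) = pr .tgt x (F s) := mapM_pr F hE
  have hpre := preimage_fix hC hF F hE
  have key : ∀ x ∈ U', mapM .src .tgt F hE x ∈ U ∧
      r (mapM .src .tgt F hE x) = mapM .src .tgt F hE (r' x) := by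
    intro m hm
    obtain ⟨x, s, rfl⟩ := exists_pr .src m
    obtain ⟨v, hv⟩ := (hV2' x s).1 hm
    rw [hg, hU3' x (F s) v hv, hV3' x s v hv, hg]
    exact ⟨(hU2' x (F s)).2 ⟨v, hv⟩, rfl⟩
  refine ⟨U, r, U', r', hU1, ?_, key, ?_⟩
  · rw [hpre]
    exact hV1
  · intro y hy
    rw [hpre] at hy
    obtain ⟨y', s₀, rfl⟩ := exists_pr .src y
    obtain ⟨v₀, hv₀⟩ := (mem_fix hC hF .src y' s₀).1 hy
    subst hv₀
    refine ⟨?_, ?_, ?_⟩
    · rintro m ⟨hm, hm'⟩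
      obtain ⟨h1, h2⟩ := key m hm
      exact ⟨h1, by rw [h2, hm']⟩
    · rintro m₁ ⟨h1, h1'⟩ m₂ ⟨h2, h2'⟩ h12
      obtain ⟨x₁, s₁, rfl⟩ := exists_pr .src m₁
      obtain ⟨x₂, s₂, rfl⟩ := exists_pr .src m₂
      obtain ⟨a₁, ha₁, ha₁'⟩ := nf hC hF hR .src hV3' ((hV2' x₁ s₁).1 h1) h1'
      obtain ⟨a₂, ha₂, ha₂'⟩ := nf hC hF hR .src hV3' ((hV2' x₂ s₂).1 h2) h2'
      rw [ha₁, ha₂] at h12 ⊢
      rw [hg, hg] at h12
      obtain ⟨γ, h3, h4⟩ := exists_of_eq hC .tgt h12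
      have h5 : γ.g = 1 := by
        by_contra h6
        exact act5_free .tgt γ.g h6 (F s₀) h4
      have h6 : γ • v₀ = v₀ := by
        refine hF.2.1 a₂ _ _ ?_ ha₂'
        have h7 : osc4 (aff γ a₁) (γ • v₀) = osc4 a₁ v₀ := hR.2.2.2.1 γ a₁ v₀
        rw [h3] at h7
        rw [h7]
        exact ha₁'
      have h7 := vhat_aff hF γ v₀
      rw [h6, aff_one γ h5] at h7
      have h8 : (fun i => ((γ.v i : ℤ) : ℝ)) = 0 := by
        have h9 := h7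
        rwa [add_eq_left] at h9
      rw [aff_one γ h5, h8, add_zero] at h3
      rw [h3]
    · rintro m ⟨hm, hm'⟩
      obtain ⟨x, t, rfl⟩ := exists_pr .tgt m
      rw [hg] at hm'
      obtain ⟨a, ha, ha'⟩ := nf hC hF hR .tgt hU3' ((hU2' x t).1 hm) hm'
      refine ⟨pr .src a s₀, ⟨(hV2' a s₀).2 ⟨v₀, ha'⟩, hV3' a s₀ v₀ ha'⟩, ?_⟩
      rw [hg, ha]

end Pool.Agent.Lib.MP_39dc45_gt.SP
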